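import Pool.Agent.P.MP_9699e0_gt.Ht

/-! Acyclic sets and embeddings. -/

set_option autoImplicit false
set_option linter.unusedSectionVars false

noncomputable section

namespace HK3

open Pool.Agent.P.MP_9699e0_gt Set Filter Topology
open scoped ContDiff

variable {R : Type} [CommRing R] {X Y Z : Type} [TopologicalSpace X] [TopologicalSpace Y]
  [TopologicalSpace Z]

theorem CvA_sign (k : ℕ) :
    ∑ i : Fin (k + 1), (-1 : R) ^ (i : ℕ) = 1 - ∑ i : Fin k, (-1 : R) ^ (i : ℕ) := by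
  rw [Fin.sum_univ_succ]
  simp only [Fin.val_zero, pow_zero, Fin.val_succ, pow_succ, mul_neg, mul_one,
    Finset.sum_neg_distrib, sub_eq_add_neg]

theorem CvA_bd_const (x : X) (k : ℕ) (r : R) :
    bd R X k (Finsupp.single (ContinuousMap.const _ x) r) =
      Finsupp.single (ContinuousMap.const _ x) ((∑ i : Fin (k + 2), (-1 : R) ^ (i : ℕ)) * r) := by
  rw [bd_single, ← smul_eq_mul, ← Finsupp.smul_single, Finset.sum_smul]
  rfl

theorem CvA_point {x : X} {k : ℕ} {c : Chn R X k} (hc : c ∈ chn R {x} k) :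
    ∃ r, c = Finsupp.single (ContinuousMap.const _ x) r := by
  refine ⟨c (ContinuousMap.const _ x), Finsupp.support_subset_singleton.1 fun σ hσ => ?_⟩
  rw [Finset.mem_singleton]
  ext t
  exact mem_chn_iff.1 hc σ hσ ⟨t, rfl⟩

theorem cyc_le_of_subsingleton {S : Set X} (h : S.Subsingleton) (n : ℕ) :
    cyc R S (n + 1) ≤ bdy R S (n + 1) := by
  rcases h.eq_empty_or_singleton with rfl | ⟨x, rfl⟩
  · refine (cyc_le _ _).trans ?_
    rw [chn_empty]
    exact bot_le
  · intro c hc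
    obtain ⟨r, rfl⟩ := CvA_point hc.1
    have h0 : bd R X n (Finsupp.single (ContinuousMap.const _ x) r) = 0 := hc.2
    rw [CvA_bd_const, Finsupp.single_eq_zero] at h0
    refine ⟨Finsupp.single (ContinuousMap.const _ x) r, single_mem ?_ r, ?_⟩
    · rintro _ ⟨t, rfl⟩
      rfl
    · rw [CvA_bd_const, CvA_sign, sub_mul, h0, one_mul, sub_zero]

theorem cyc_le_of_star {V : Type} [NormedAddCommGroup V] [NormedSpace ℝ V] {S : Set V} {x : V}
    (h : StarConvex ℝ x S) (n : ℕ) : cyc R S (n + 1) ≤ bdy R S (n + 1) := by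
  rcases S.eq_empty_or_nonempty with rfl | hne
  · exact cyc_le_of_subsingleton subsingleton_empty n
  intro c hc
  have h1 := htpy_cyc (R := R) (fun (s : ℝ) (y : V) => s • x + (1 - s) • y) (S := S) (S' := S)
    (Continuous.continuousOn (by fun_prop))
    (fun s hs y hy => h hy hs.1 (sub_nonneg.2 hs.2) (by ring)) hc
  have e0 : (fun y : V => (0 : ℝ) • x + (1 - 0 : ℝ) • y) = id := by
    funext y; simp
  have e1 : (fun y : V => (1 : ℝ) • x + (1 - 1 : ℝ) • y) = fun _ => x := by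
    funext y; simp
  rw [e0, e1, cmap_id] at h1
  have h2 : cmap R (fun _ : V => x) (n + 1) c ∈ bdy R S (n + 1) :=
    bdy_mono (singleton_subset_iff.2 (h.mem hne)) _
      (cyc_le_of_subsingleton subsingleton_singleton n
        (cmap_cyc (T := {x}) continuousOn_const (fun _ _ => rfl) hc))
  simpa using Submodule.sub_mem _ h2 h1

theorem mem_bdy_zero {S : Set X} (h : IsPathConnected S) {c : Chn R X 0} (hc : c ∈ chn R S 0)
    (h0 : aug R c = 0) : c ∈ bdy R S 0 := by
  obtain ⟨x, hx, hj⟩ := h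
  have key : ∀ σ : Simp X 0, range σ ⊆ S → ∀ r : R,
      Finsupp.single σ r - Finsupp.single (ContinuousMap.const _ x) r ∈ bdy R S 0 := by
    intro σ hσ r
    obtain ⟨γ, hγ⟩ := hj (hσ ⟨default, rfl⟩)
    have h1 := htpy_cyc (R := R) (fun (s : ℝ) (_ : X) => γ.extend s) (S := S) (S' := S)
      (Continuous.continuousOn (γ.continuous_extend.comp continuous_fst))
      (fun s hs y _ => by rw [γ.extend_apply hs]; exact hγ _) (n := 0) (single_mem hσ r)
    have e1 : smap (fun _ : X => γ.extend 1) σ = σ := by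
      ext t
      rw [smap_apply continuousOn_const hσ, Path.extend_one, Subsingleton.elim t default]
    have e0 : smap (fun _ : X => γ.extend 0) σ = ContinuousMap.const _ x := by
      ext t
      rw [smap_apply continuousOn_const hσ, Path.extend_zero]
      rfl
    rwa [cmap_single, cmap_single, e1, e0] at h1
  have all : c - Finsupp.single (ContinuousMap.const _ x) (aug R c) ∈ bdy R S 0 := by
    clear h0
    unfold chn at hc
    rw [Finsupp.supported_eq_span_single] at hc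
    induction hc using Submodule.span_induction with
    | mem c hc =>
      obtain ⟨σ, hσ, rfl⟩ := hc
      have : aug R (Finsupp.single σ (1 : R)) = 1 := by
        unfold aug
        rw [ev_single, one_smul]
      rw [this]
      exact key σ hσ 1
    | zero => simp
    | add a b _ _ ha hb =>
      have := Submodule.add_mem _ ha hb
      rw [map_add, Finsupp.single_add]
      convert this using 1
      abel
    | smul r a _ ha =>
      have := Submodule.smul_mem _ r ha
      rwa [map_smul, ← Finsupp.smul_single, ← smul_sub]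
  simpa [h0] using all

theorem Emb.mono {f : X → Y} {S T : Set X} (h : Emb f S) (hT : T ⊆ S) : Emb f T := by
  obtain ⟨hf, g, hg, hl⟩ := h
  exact ⟨hf.mono hT, g, hg.mono (image_mono hT), hl.mono hT⟩

theorem Emb.injOn {f : X → Y} {S : Set X} (h : Emb f S) : InjOn f S := by
  obtain ⟨-, g, -, hl⟩ := h
  exact hl.injOn

theorem CvA_maps {f : X → Y} {g : Y → X} {S : Set X} (hl : LeftInvOn g f S) :
    MapsTo g (f '' S) S := by
  rintro _ ⟨x, hx, rfl⟩
  rwa [hl hx]

theorem CvA_right {f : X → Y} {g : Y → X} {S : Set X} (hg : ContinuousOn g (f '' S))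
    (hl : LeftInvOn g f S) {n : ℕ} {c : Chn R Y n} (hc : c ∈ chn R (f '' S) n) :
    cmap R f n (cmap R g n c) = c := by
  rw [cmap_comp hg hc, cmap_congr (g := id) ?_ hc, cmap_id]
  rintro _ ⟨x, hx, rfl⟩
  exact congrArg f (hl hx)

theorem Emb.exists_chn {f : X → Y} {S : Set X} (h : Emb f S) {n : ℕ} {c : Chn R Y n}
    (hc : c ∈ chn R (f '' S) n) : ∃ c' ∈ chn R S n, cmap R f n c' = c := by
  obtain ⟨-, g, hg, hl⟩ := h
  exact ⟨cmap R g n c, cmap_mem hg (CvA_maps hl) hc, CvA_right hg hl hc⟩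

theorem Emb.exists_cyc {f : X → Y} {S : Set X} (h : Emb f S) {n : ℕ} {c : Chn R Y n}
    (hc : c ∈ cyc R (f '' S) n) : ∃ c' ∈ cyc R S n, cmap R f n c' = c := by
  obtain ⟨-, g, hg, hl⟩ := h
  exact ⟨cmap R g n c, cmap_cyc hg (CvA_maps hl) hc, CvA_right hg hl (cyc_le _ _ hc)⟩

theorem Emb.mem_chn {f : X → Y} {S T : Set X} (h : Emb f S) {n : ℕ} {c : Chn R X n}
    (hc : c ∈ chn R S n) {T' : Set Y} (hT : ∀ x ∈ S, f x ∈ T' → x ∈ T)
    (h' : cmap R f n c ∈ chn R T' n) : c ∈ chn R T n := by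
  have hinj : InjOn (smap f : Simp X n → Simp Y n) {σ | range σ ⊆ S} := by
    intro σ hσ τ hτ e
    ext t
    refine h.injOn (hσ ⟨t, rfl⟩) (hτ ⟨t, rfl⟩) ?_
    rw [← smap_apply h.1 hσ, ← smap_apply h.1 hτ, e]
  refine mem_chn_iff.2 fun σ hσ => ?_
  have hσS := mem_chn_iff.1 hc σ hσ
  have e : cmap R f n c (smap f σ) = c σ :=
    Finsupp.mapDomain_apply' _ c (fun τ hτ => mem_chn_iff.1 hc τ hτ) hinj hσS
  have h2 := mem_chn_iff.1 h' (smap f σ) (by
    rw [Finsupp.mem_support_iff, e]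
    exact Finsupp.mem_support_iff.1 hσ)
  rintro _ ⟨t, rfl⟩
  refine hT _ (hσS ⟨t, rfl⟩) (h2 ⟨t, ?_⟩)
  exact smap_apply h.1 hσS t

theorem Emb.mem_bdy {f : X → Y} {S : Set X} (h : Emb f S) {n : ℕ} {c : Chn R X n}
    (hc : c ∈ chn R S n) (h' : cmap R f n c ∈ bdy R (f '' S) n) : c ∈ bdy R S n := by
  obtain ⟨hf, g, hg, hl⟩ := h
  have := cmap_bdy hg (CvA_maps hl) h'
  rwa [cmap_comp hf hc, cmap_congr (f := g ∘ f) (g := id) (fun x hx => hl hx) hc, cmap_id] at this

theorem Emb.cyc_le {f : X → Y} {S : Set X} (h : Emb f S) {n : ℕ} (hS : cyc R S n ≤ bdy R S n) :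
    cyc R (f '' S) n ≤ bdy R (f '' S) n := by
  intro c hc
  obtain ⟨c', hc', rfl⟩ := h.exists_cyc hc
  exact cmap_bdy h.1 (mapsTo_image f S) (hS hc')

theorem Emb.hb_le {f : X → Y} {S : Set X} (h : Emb f S) (n : ℕ) : hb (f '' S) n ≤ hb S n := by
  have hle : bdy ℚ S n ≤ (bdy ℚ (f '' S) n).comap (cmap ℚ f n) := fun c hc =>
    cmap_bdy h.1 (mapsTo_image f S) hc
  unfold hb rd
  refine le_trans (Submodule.rank_mono ?_)
    (rank_map_le ((bdy ℚ S n).mapQ (bdy ℚ (f '' S) n) (cmap ℚ f n) hle) _)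
  rintro _ ⟨c, hc, rfl⟩
  obtain ⟨c', hc', rfl⟩ := h.exists_cyc hc
  exact ⟨_, ⟨c', hc', rfl⟩, rfl⟩

end HK3
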