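import Pool.Agent.P.MP_9699e0_gt.Cv

/-! First homology of a simply connected space, universal coefficients. -/

set_option autoImplicit false
set_option linter.unusedSectionVars false

noncomputable section

namespace HK3

open Pool.Agent.P.MP_9699e0_gt Set Filter Topology
open scoped ContDiff

variable {X : Type} [TopologicalSpace X]

/-- The second barycentric coordinate is continuous. -/
theorem Hur_cont : Continuous fun t : Dl 1 => t 1 :=
  (continuous_apply 1).comp continuous_subtype_val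

/-- The constant simplex. -/
def Hur_cst (n : ℕ) (x : X) : Simp X n := ContinuousMap.const _ x

/-- The simplex of a path. -/
def Hur_ps {x y : X} (γ : Path x y) : Simp X 1 :=
  ⟨fun t => γ.extend (t 1), γ.extend.continuous.comp Hur_cont⟩

/-- The path of a simplex. -/
def Hur_sp (σ : Simp X 1) : Path (vtx σ 0) (vtx σ 1) where
  toFun s := σ (stdSimplexHomeomorphUnitInterval.symm s)
  continuous_toFun := σ.continuous.comp stdSimplexHomeomorphUnitInterval.symm.continuous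
  source' := by
    rw [← stdSimplexHomeomorphUnitInterval_zero, Homeomorph.symm_apply_apply]; rfl
  target' := by
    rw [← stdSimplexHomeomorphUnitInterval_one, Homeomorph.symm_apply_apply]; rfl

theorem Hur_ps_sp (σ : Simp X 1) : Hur_ps (Hur_sp σ) = σ := by
  ext t
  have h : (Hur_sp σ).extend (t 1) = Hur_sp σ (stdSimplexHomeomorphUnitInterval t) :=
    Path.extend_extends' (Hur_sp σ) (stdSimplexHomeomorphUnitInterval t)
  change (Hur_sp σ).extend (t 1) = σ t
  rw [h]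
  change σ (stdSimplexHomeomorphUnitInterval.symm (stdSimplexHomeomorphUnitInterval t)) = σ t
  rw [Homeomorph.symm_apply_apply]

theorem Hur_zero (ρ : Simp X 0) : ρ = Hur_cst 0 (vtx ρ 0) := by
  ext t
  have : t = stdSimplex.vertex 0 := Subsingleton.elim (α := stdSimplex ℝ (Fin 1)) _ _
  rw [this]; rfl

theorem Hur_bd_one {R : Type} [CommRing R] (σ : Simp X 1) :
    bd R X 0 (Finsupp.single σ 1) =
      Finsupp.single (Hur_cst 0 (vtx σ 1)) 1 - Finsupp.single (Hur_cst 0 (vtx σ 0)) 1 := by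
  rw [bd_single, Fin.sum_univ_two, Hur_zero (sub σ _), Hur_zero (sub σ (Fin.succAbove 1)),
    vtx_sub, vtx_sub]
  simp [sub_eq_add_neg]

theorem Hur_vtx_ps0 {x y : X} (γ : Path x y) : vtx (Hur_ps γ) 0 = x := by
  change γ.extend ((stdSimplex.vertex (S := ℝ) (0 : Fin 2)) 1) = x
  simp

theorem Hur_vtx_ps1 {x y : X} (γ : Path x y) : vtx (Hur_ps γ) 1 = y := by
  change γ.extend ((stdSimplex.vertex (S := ℝ) (1 : Fin 2)) 1) = y
  simp

/-- A segment in the plane. -/
def Hur_seg (a b : ℝ × ℝ) : Simp (ℝ × ℝ) 1 :=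
  ⟨fun t => a + t 1 • (b - a), continuous_const.add (Hur_cont.smul continuous_const)⟩

theorem Hur_bd_seg (a b : ℝ × ℝ) : bd ℤ (ℝ × ℝ) 0 (Finsupp.single (Hur_seg a b) 1) =
    Finsupp.single (Hur_cst 0 b) 1 - Finsupp.single (Hur_cst 0 a) 1 := by
  have h0 : vtx (Hur_seg a b) 0 = a := by
    change a + (stdSimplex.vertex (S := ℝ) (0 : Fin 2)) 1 • (b - a) = a
    simp
  have h1 : vtx (Hur_seg a b) 1 = b := by
    change a + (stdSimplex.vertex (S := ℝ) (1 : Fin 2)) 1 • (b - a) = b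
    simp
  rw [Hur_bd_one, h0, h1]

theorem Hur_cst_bdy (x : X) : Finsupp.single (Hur_cst 1 x) (1 : ℤ) ∈ bdy ℤ (univ : Set X) 1 := by
  refine bdy_mono (subset_univ {x}) 1 (cyc_le_of_subsingleton subsingleton_singleton 0 ?_)
  refine ⟨single_mem ?_ 1, ?_⟩
  · rintro _ ⟨t, rfl⟩
    rfl
  · change bd ℤ X 0 _ = 0
    rw [Hur_bd_one]
    exact sub_self _

theorem Hur_tri {x y z : X} (α : Path x y) (β : Path y z) (γ : Path x z)
    (h : (α.trans β).Homotopic γ) :
    Finsupp.single (Hur_ps α) (1 : ℤ) + Finsupp.single (Hur_ps β) 1 - Finsupp.single (Hur_ps γ) 1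
      ∈ bdy ℤ (univ : Set X) 1 := by
  obtain ⟨H⟩ := h
  let F : C(ℝ × ℝ, X) := ⟨fun q => H (projIcc 0 1 zero_le_one q.1, projIcc 0 1 zero_le_one q.2),
    H.continuous.comp ((continuous_projIcc.comp continuous_fst).prodMk
      (continuous_projIcc.comp continuous_snd))⟩
  have hF0 : ∀ s : ℝ, F (0, s) = (α.trans β).extend s := fun s => by
    change H (projIcc 0 1 zero_le_one 0, _) = _
    rw [projIcc_left]
    exact H.apply_zero _
  have hF1 : ∀ s : ℝ, F (1, s) = γ.extend s := fun s => by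
    change H (projIcc 0 1 zero_le_one 1, _) = _
    rw [projIcc_right]
    exact H.apply_one _
  have hG0 : ∀ s : ℝ, F (s, 0) = x := fun s => by
    change H (_, projIcc 0 1 zero_le_one 0) = _
    rw [projIcc_left]
    exact H.source _
  have hG1 : ∀ s : ℝ, F (s, 1) = z := fun s => by
    change H (_, projIcc 0 1 zero_le_one 1) = _
    rw [projIcc_right]
    exact H.target _
  let c : Chn ℤ (ℝ × ℝ) 1 := Finsupp.single (Hur_seg (0, 0) (0, 1 / 2)) 1 +
    Finsupp.single (Hur_seg (0, 1 / 2) (0, 1)) 1 - Finsupp.single (Hur_seg (1, 0) (1, 1)) 1 +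
    Finsupp.single (Hur_seg (0, 1) (1, 1)) 1 - Finsupp.single (Hur_seg (0, 0) (1, 0)) 1
  have hc : c ∈ cyc ℤ (univ : Set (ℝ × ℝ)) 1 := by
    refine ⟨by rw [chn_univ]; trivial, ?_⟩
    change bd ℤ (ℝ × ℝ) 0 c = 0
    simp only [c, map_add, map_sub, Hur_bd_seg]
    abel
  have hb : cmap ℤ F 1 c ∈ bdy ℤ (univ : Set X) 1 :=
    cmap_bdy F.continuous.continuousOn (mapsTo_univ _ _)
      (cyc_le_of_star (x := (0 : ℝ × ℝ)) (starConvex_univ _) 0 hc)
  have e1 : smap F (Hur_seg (0, 0) (0, 1 / 2)) = Hur_ps α := by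
    rw [smap_coe]
    ext t
    change F ((0, 0) + t 1 • ((0, 1 / 2) - (0, 0))) = α.extend (t 1)
    have h1 : ((0, 0) + t 1 • ((0, 1 / 2) - (0, 0)) : ℝ × ℝ) = (0, t 1 / 2) := by
      ext <;> simp [div_eq_mul_inv]
    have h2 : t 1 ≤ 1 := stdSimplex.le_one t 1
    rw [h1, hF0, Path.extend_trans_of_le_half _ _ (by linarith)]
    congr 1
    ring
  have e2 : smap F (Hur_seg (0, 1 / 2) (0, 1)) = Hur_ps β := by
    rw [smap_coe]
    ext t
    change F ((0, 1 / 2) + t 1 • ((0, 1) - (0, 1 / 2))) = β.extend (t 1)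
    have h1 : ((0, 1 / 2) + t 1 • ((0, 1) - (0, 1 / 2)) : ℝ × ℝ) = (0, (1 + t 1) / 2) := by
      ext
      · simp
      · simp
        ring
    have h2 : 0 ≤ t 1 := stdSimplex.zero_le t 1
    rw [h1, hF0, Path.extend_trans_of_half_le _ _ (by linarith)]
    congr 1
    ring
  have e3 : smap F (Hur_seg (1, 0) (1, 1)) = Hur_ps γ := by
    rw [smap_coe]
    ext t
    change F ((1, 0) + t 1 • ((1, 1) - (1, 0))) = γ.extend (t 1)
    have h1 : ((1, 0) + t 1 • ((1, 1) - (1, 0)) : ℝ × ℝ) = (1, t 1) := by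
      ext <;> simp
    rw [h1, hF1]
  have e4 : smap F (Hur_seg (0, 1) (1, 1)) = Hur_cst 1 z := by
    rw [smap_coe]
    ext t
    change F ((0, 1) + t 1 • ((1, 1) - (0, 1))) = z
    have h1 : ((0, 1) + t 1 • ((1, 1) - (0, 1)) : ℝ × ℝ) = (t 1, 1) := by
      ext <;> simp
    rw [h1, hG1]
  have e5 : smap F (Hur_seg (0, 0) (1, 0)) = Hur_cst 1 x := by
    rw [smap_coe]
    ext t
    change F ((0, 0) + t 1 • ((1, 0) - (0, 0))) = x
    have h1 : ((0, 0) + t 1 • ((1, 0) - (0, 0)) : ℝ × ℝ) = (t 1, 0) := by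
      ext <;> simp
    rw [h1, hG0]
  simp only [c, map_add, map_sub, cmap_single, e1, e2, e3, e4, e5] at hb
  have h2 := Submodule.add_mem _ (Submodule.sub_mem _ hb (Hur_cst_bdy z)) (Hur_cst_bdy x)
  have h3 : ∀ a b c d e : Chn ℤ X 1, a + b - c + d - e - d + e = a + b - c := by
    intro a b c d e
    abel
  rwa [h3] at h2

/-- A chain contraction in degree one. -/
theorem Hur_contr (Q : Chn ℤ X 0 →ₗ[ℤ] Chn ℤ X 1)
    (h : ∀ σ : Simp X 1, Finsupp.single σ (1 : ℤ) - Q (bd ℤ X 0 (Finsupp.single σ 1)) ∈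
      bdy ℤ (univ : Set X) 1) :
    ∃ K : Chn ℤ X 1 →ₗ[ℤ] Chn ℤ X 2, ∀ c, bd ℤ X 1 (K c) = c - Q (bd ℤ X 0 c) := by
  have h' : ∀ σ : Simp X 1, ∃ k : Chn ℤ X 2, bd ℤ X 1 k =
      Finsupp.single σ (1 : ℤ) - Q (bd ℤ X 0 (Finsupp.single σ 1)) := fun σ => by
    obtain ⟨k, -, hk⟩ := h σ
    exact ⟨k, hk⟩
  choose k hk using h'
  refine ⟨Finsupp.linearCombination ℤ k, fun c => ?_⟩
  have : (bd ℤ X 1) ∘ₗ Finsupp.linearCombination ℤ k = LinearMap.id - Q ∘ₗ bd ℤ X 0 := by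
    refine Finsupp.lhom_ext' fun σ => LinearMap.ext_ring ?_
    simpa using hk σ
  exact LinearMap.congr_fun this c

theorem cyc_one_le [SimplyConnectedSpace X] : cyc ℤ (univ : Set X) 1 ≤ bdy ℤ univ 1 := by
  obtain ⟨x0⟩ : Nonempty X := inferInstance
  let p : ∀ x : X, Path x0 x := fun x => PathConnectedSpace.somePath x0 x
  let Q : Chn ℤ X 0 →ₗ[ℤ] Chn ℤ X 1 :=
    Finsupp.linearCombination ℤ fun ρ => Finsupp.single (Hur_ps (p (vtx ρ 0))) 1
  have hQ : ∀ x, Q (Finsupp.single (Hur_cst 0 x) 1) = Finsupp.single (Hur_ps (p x)) 1 := by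
    intro x
    simp only [Q, Finsupp.linearCombination_single, one_smul]
    rfl
  obtain ⟨K, hK⟩ := Hur_contr Q fun σ => by
    rw [Hur_bd_one, map_sub, hQ, hQ]
    have h := Hur_tri (p (vtx σ 0)) (Hur_sp σ) (p (vtx σ 1))
      (SimplyConnectedSpace.paths_homotopic _ _)
    rw [Hur_ps_sp] at h
    have h3 : ∀ a b c : Chn ℤ X 1, b - (c - a) = a + b - c := by
      intro a b c
      abel
    rwa [h3]
  intro c hc
  have h0 : bd ℤ X 0 c = 0 := hc.2
  refine ⟨K c, by rw [chn_univ]; trivial, ?_⟩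
  rw [hK, h0, map_zero, sub_zero]

/-- An integral cocycle that vanishes on cycles is a coboundary. -/
theorem cob_of_van (h1 : cyc ℤ (univ : Set X) 1 ≤ bdy ℤ univ 1) (a : Simp X 2 → ℤ)
    (h : ∀ c ∈ cyc ℤ (univ : Set X) 2, ev ℤ a c = 0) : ∃ b : Simp X 1 → ℤ, a = cobd b := by
  let base : X → X := fun x => (Quotient.mk (pathSetoid X) x).out
  have hb : ∀ x, Joined (base x) x := fun x => Quotient.mk_out (s := pathSetoid X) x
  have hj : ∀ x y, Joined x y → base x = base y := fun x y hxy => by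
    have : Quotient.mk (pathSetoid X) x = Quotient.mk (pathSetoid X) y := Quotient.sound hxy
    simp only [base, this]
  let Q : Chn ℤ X 0 →ₗ[ℤ] Chn ℤ X 1 :=
    Finsupp.linearCombination ℤ fun ρ => Finsupp.single (Hur_ps (hb (vtx ρ 0)).somePath) 1
  have hQ : ∀ x, Q (Finsupp.single (Hur_cst 0 x) 1) =
      Finsupp.single (Hur_ps (hb x).somePath) 1 := by
    intro x
    simp only [Q, Finsupp.linearCombination_single, one_smul]
    rfl
  obtain ⟨K, hK⟩ := Hur_contr Q fun σ => by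
    refine h1 ⟨by rw [chn_univ]; trivial, ?_⟩
    change bd ℤ X 0 _ = 0
    rw [map_sub, Hur_bd_one, map_sub, hQ, hQ, map_sub, Hur_bd_one, Hur_bd_one, Hur_vtx_ps0,
      Hur_vtx_ps0, Hur_vtx_ps1, Hur_vtx_ps1, hj _ _ ⟨Hur_sp σ⟩]
    abel
  refine ⟨fun σ => ev ℤ a (K (Finsupp.single σ 1)), funext fun τ => ?_⟩
  have e : ev ℤ (fun σ => ev ℤ a (K (Finsupp.single σ 1))) = ev ℤ a ∘ₗ K := by
    refine Finsupp.lhom_ext' fun σ => LinearMap.ext_ring ?_
    simp [ev_single]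
  have h2 := h (Finsupp.single τ 1 - K (bd ℤ X 1 (Finsupp.single τ 1)))
    ⟨by rw [chn_univ]; trivial, by
      change bd ℤ X 1 _ = 0
      rw [map_sub, hK, bd_bd, map_zero, sub_zero, sub_self]⟩
  have h3 := ev_bd (R := ℤ) (fun σ => ev ℤ a (K (Finsupp.single σ 1))) (Finsupp.single τ 1)
  rw [e, ev_single, one_smul] at h3
  rw [map_sub, ev_single, one_smul, sub_eq_zero] at h2
  rw [← h3, h2]
  rfl

theorem cob_of_van_rat (a : Simp X 2 → ℚ) (h : ∀ c ∈ cyc ℚ (univ : Set X) 2, ev ℚ a c = 0) :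
    ∃ b : Simp X 1 → ℚ, a = cobd b := by
  have h1 : ev ℚ a ∈ (LinearMap.ker (bd ℚ X 1)).dualAnnihilator := by
    rw [Submodule.mem_dualAnnihilator]
    intro c hc
    exact h c ⟨by rw [chn_univ]; trivial, hc⟩
  rw [← LinearMap.range_dualMap_eq_dualAnnihilator_ker] at h1
  obtain ⟨φ, hφ⟩ := h1
  refine ⟨fun σ => φ (Finsupp.single σ 1), funext fun τ => ?_⟩
  have e : ev ℚ (fun σ => φ (Finsupp.single σ 1)) = φ := by
    refine Finsupp.lhom_ext' fun σ => LinearMap.ext_ring ?_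
    simp [ev_single]
  have h3 := ev_bd (R := ℚ) (fun σ => φ (Finsupp.single σ 1)) (Finsupp.single τ 1)
  rw [e, ev_single, one_smul] at h3
  have h4 := LinearMap.congr_fun hφ (Finsupp.single τ 1)
  rw [ev_single, one_smul] at h4
  rw [← h3, ← h4]
  rfl

end HK3
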