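import Pool.Agent.P.MP_9699e0_gt.Sm

/-! Mayer-Vietoris arguments for chains. -/

set_option autoImplicit false
set_option linter.unusedSectionVars false

noncomputable section

namespace HK3

open Pool.Agent.P.MP_9699e0_gt Set Filter Topology
open scoped ContDiff

variable {R : Type} [CommRing R] {X Y Z : Type} [TopologicalSpace X] [TopologicalSpace Y]
  [TopologicalSpace Z]

theorem MvA_core {O U V : Set X} (hU : IsOpen U) (hV : IsOpen V) (h : O ⊆ U ∪ V) :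
    (∀ c ∈ chn R O 0, ∃ a ∈ chn R (O ∩ U) 0, ∃ b ∈ chn R (O ∩ V) 0, c - a - b ∈ bdy R O 0) ∧
    ∀ n, ∀ c ∈ chn R O (n + 1), bd R X n c ∈ chn R U n ⊔ chn R V n →
      ∃ a ∈ chn R (O ∩ U) (n + 1), ∃ b ∈ chn R (O ∩ V) (n + 1),
        c - a - b ∈ bdy R O (n + 1) := by
  obtain ⟨ρ, D, -, h2, h3, h4, h5, h6⟩ := (small_two hU hV h).exists_retr (R := R)
  have key : ∀ n, ∀ c ∈ chn R O n, bd R X n (D n c) = c - ρ n c →
      ∃ a ∈ chn R (O ∩ U) n, ∃ b ∈ chn R (O ∩ V) n, c - a - b ∈ bdy R O n := by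
    intro n c hc e
    have h7 := h4 n c hc
    rw [sml_two] at h7
    obtain ⟨a, ha, b, hb, hab⟩ := Submodule.mem_sup.1 (mem_sup_inter h7 (h6 O n c hc).1)
    refine ⟨a, ha, b, hb, D n c, (h6 O n c hc).2, ?_⟩
    rw [e, ← hab]
    abel
  refine ⟨fun c hc => key 0 c hc (h2 c), fun n c hc hb => key _ c hc ?_⟩
  rw [← sml_two] at hb
  rw [← h3, (h5 n _ hb).1, add_zero]

theorem MvA_conn {ι : Type} {O U : ι → Set X} (hU : ∀ i, IsOpen (U i)) (h : ∀ i, O i ⊆ U i)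
    (hd : ∀ i j, i ≠ j → Disjoint (O i) (U j)) {n : ℕ} {σ : Simp X n}
    (hσ : range σ ⊆ ⋃ i, O i) : ∃ i, range σ ⊆ O i := by
  have : PreconnectedSpace (Dl n) :=
    isPreconnected_iff_preconnectedSpace.1 (convex_stdSimplex ℝ _).isPreconnected
  obtain ⟨i, hi⟩ := mem_iUnion.1 (hσ ⟨stdSimplex.vertex 0, rfl⟩)
  refine ⟨i, fun y hy => ?_⟩
  by_contra hy'
  have hB : ∀ x ∈ range σ, x ∉ O i → x ∈ ⋃ j ∈ {j | j ≠ i}, U j := by
    intro x hx hx'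
    obtain ⟨k, hk⟩ := mem_iUnion.1 (hσ hx)
    exact mem_biUnion (x := k) (fun e => hx' (e ▸ hk)) (h k hk)
  obtain ⟨z, hz, hz1, hz2⟩ := isPreconnected_range σ.continuous (U i) _ (hU i)
    (isOpen_biUnion fun j _ => hU j)
    (fun x hx => (em (x ∈ O i)).imp (fun e => h i e) (hB x hx))
    ⟨_, ⟨_, rfl⟩, h i hi⟩ ⟨y, hy, hB y hy hy'⟩
  obtain ⟨k, hk⟩ := mem_iUnion.1 (hσ hz)
  obtain ⟨j, hj, hj'⟩ := mem_iUnion₂.1 hz2
  by_cases e : k = i
  · exact disjoint_left.1 (hd k j fun e' => hj (e'.symm.trans e)) hk hj'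
  · exact disjoint_left.1 (hd k i e) hk hz1

theorem mv_split {O U V : Set X} (hU : IsOpen U) (hV : IsOpen V) (h : O ⊆ U ∪ V) {n : ℕ}
    {c : Chn R X n} (hc : c ∈ cyc R O n) :
    ∃ a ∈ chn R (O ∩ U) n, ∃ b ∈ chn R (O ∩ V) n, c - a - b ∈ bdy R O n := by
  cases n with
  | zero => exact (MvA_core hU hV h).1 c hc
  | succ n =>
    refine (MvA_core hU hV h).2 n c hc.1 ?_
    rw [LinearMap.mem_ker.1 hc.2]
    exact zero_mem _

theorem mv_rel {O U V : Set X} (hU : IsOpen U) (hV : IsOpen V) (h : O ⊆ U ∪ V) {n : ℕ}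
    {c : Chn R X (n + 1)} (hc : c ∈ chn R O (n + 1))
    (hb : bd R X n c ∈ chn R U n ⊔ chn R V n) :
    ∃ a ∈ chn R (O ∩ U) (n + 1), ∃ b ∈ chn R (O ∩ V) (n + 1),
      c - a - b ∈ bdy R O (n + 1) :=
  (MvA_core hU hV h).2 n c hc hb

theorem mv_bdy {O U V : Set X} (hU : IsOpen U) (hV : IsOpen V) (h : O ⊆ U ∪ V) {n : ℕ}
    {c : Chn R X n} (hc : c ∈ chn R U n ⊔ chn R V n) (hb : c ∈ bdy R O n) :
    c ∈ bdy R (O ∩ U) n ⊔ bdy R (O ∩ V) n := by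
  obtain ⟨e, he, rfl⟩ := hb
  obtain ⟨a, ha, b, hb, f, -, hf⟩ := mv_rel hU hV h he hc
  have h1 := bd_bd n f
  rw [hf, map_sub, map_sub, _root_.sub_sub, sub_eq_zero] at h1
  rw [h1]
  exact Submodule.add_mem_sup ⟨a, ha, rfl⟩ ⟨b, hb, rfl⟩

/-- If the intersection is acyclic in degree `n`, cycles of degree `n + 1` come from the pieces. -/
theorem mv_cyc {O U V : Set X} (hU : IsOpen U) (hV : IsOpen V) (h : O ⊆ U ∪ V) {n : ℕ}
    (h0 : cyc R (O ∩ U ∩ V) n ⊓ bdy R (O ∩ U) n ⊓ bdy R (O ∩ V) n ≤ bdy R (O ∩ U ∩ V) n) :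
    cyc R O (n + 1) ≤ cyc R (O ∩ U) (n + 1) ⊔ cyc R (O ∩ V) (n + 1) ⊔ bdy R O (n + 1) := by
  intro c hc
  obtain ⟨a, ha, b, hb, hf⟩ := mv_split hU hV h hc
  have h1 : bd R X n a = -bd R X n b := by
    have h2 := LinearMap.mem_ker.1 (bdy_le O _ hf).2
    rw [map_sub, map_sub, LinearMap.mem_ker.1 hc.2, zero_sub, sub_eq_zero] at h2
    rw [← h2, neg_neg]
  have h2 : bd R X n a ∈ bdy R (O ∩ U) n := ⟨a, ha, rfl⟩
  have h3 : bd R X n a ∈ bdy R (O ∩ V) n := h1 ▸ neg_mem ⟨b, hb, rfl⟩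
  have h4 : bd R X n a ∈ cyc R (O ∩ U ∩ V) n := by
    refine mem_cyc (bdy_le _ _ h2) ?_
    rw [chn_inter]
    exact ⟨bd_mem ha, chn_mono inter_subset_right _ (cyc_le _ _ (bdy_le _ _ h3))⟩
  obtain ⟨e, he, he'⟩ := h0 ⟨⟨h4, h2⟩, h3⟩
  have e1 : c = (a - e) + (b + e) + (c - a - b) := by abel
  rw [e1]
  refine Submodule.add_mem_sup (Submodule.add_mem_sup ⟨?_, ?_⟩ ⟨?_, ?_⟩) hf
  · exact sub_mem ha (chn_mono inter_subset_left _ he)
  · exact LinearMap.mem_ker.2 (by rw [map_sub, he', sub_self])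
  · exact add_mem hb (chn_mono (T := O ∩ V) (fun x hx => ⟨hx.1.1, hx.2⟩) _ he)
  · exact LinearMap.mem_ker.2 (by rw [map_add, he', h1, add_neg_cancel])

/-- If the intersection is acyclic in degree `n`, the first piece injects in degree `n`. -/
theorem mv_inj {O U V : Set X} (hU : IsOpen U) (hV : IsOpen V) (h : O ⊆ U ∪ V) {n : ℕ}
    (h0 : cyc R (O ∩ U ∩ V) (n + 1) ≤ bdy R (O ∩ U ∩ V) (n + 1)) :
    chn R (O ∩ U) (n + 1) ⊓ bdy R O (n + 1) ≤ bdy R (O ∩ U) (n + 1) := by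
  rintro c ⟨hc, hb⟩
  obtain ⟨x, hx, y, hy, rfl⟩ := Submodule.mem_sup.1 (mv_bdy hU hV h
    (Submodule.mem_sup_left (chn_mono inter_subset_right _ hc)) hb)
  refine add_mem hx (bdy_mono inter_subset_left _ (h0 (mem_cyc (bdy_le _ _ hy) ?_)))
  rw [chn_inter]
  refine ⟨?_, chn_mono inter_subset_right _ (cyc_le _ _ (bdy_le _ _ hy))⟩
  simpa using sub_mem hc (cyc_le _ _ (bdy_le _ _ hx))

theorem chn_disj {ι : Type} {O U : ι → Set X} (hU : ∀ i, IsOpen (U i)) (h : ∀ i, O i ⊆ U i)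
    (hd : ∀ i j, i ≠ j → Disjoint (O i) (U j)) (n : ℕ) :
    chn R (⋃ i, O i) n = ⨆ i, chn R (O i) n := by
  refine le_antisymm (fun c hc => ?_) (iSup_le fun i => chn_mono (subset_iUnion O i) n)
  rw [← Finsupp.sum_single c]
  refine sum_mem fun σ hσ => ?_
  obtain ⟨i, hi⟩ := MvA_conn hU h hd (mem_chn_iff.1 hc σ hσ)
  exact Submodule.mem_iSup_of_mem i (single_mem hi _)

theorem cyc_disj {ι : Type} {O U : ι → Set X} (hU : ∀ i, IsOpen (U i)) (h : ∀ i, O i ⊆ U i)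
    (hd : ∀ i j, i ≠ j → Disjoint (O i) (U j)) (n : ℕ) :
    cyc R (⋃ i, O i) n = ⨆ i, cyc R (O i) n := by
  cases n with
  | zero => exact chn_disj hU h hd 0
  | succ n =>
    refine le_antisymm (fun c hc => ?_) (iSup_le fun i => cyc_mono (subset_iUnion O i) _)
    have h1 := hc.1
    rw [chn_disj hU h hd] at h1
    obtain ⟨f, hf, rfl⟩ := (Submodule.mem_iSup_iff_exists_finsupp _ _).1 h1
    have h2 := LinearMap.mem_ker.1 hc.2
    rw [Finsupp.sum, map_sum] at h2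
    refine sum_mem fun i hi => Submodule.mem_iSup_of_mem i ⟨hf i, LinearMap.mem_ker.2 ?_⟩
    ext σ
    by_contra h3
    have h4 := mem_chn_iff.1 (bd_mem (hf i)) σ (Finsupp.mem_support_iff.2 h3)
    have h5 := DFunLike.congr_fun h2 σ
    rw [Finsupp.finsetSum_apply, Finset.sum_eq_single_of_mem i hi] at h5
    · exact h3 h5
    · intro j _ hj
      by_contra h6
      have h7 := mem_chn_iff.1 (bd_mem (hf j)) σ (Finsupp.mem_support_iff.2 h6)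
      exact disjoint_left.1 (hd j i hj) (h7 ⟨stdSimplex.vertex 0, rfl⟩) (h i (h4 ⟨_, rfl⟩))

end HK3
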