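import Pool.Agent.P.MP_9699e0_gt.ChB

/-! Leibniz rules. -/

set_option autoImplicit false
set_option linter.unusedSectionVars false

noncomputable section

namespace HK3

open Pool.Agent.P.MP_9699e0_gt Set Filter Topology
open scoped ContDiff

variable {R : Type} [CommRing R] {X Y Z : Type} [TopologicalSpace X] [TopologicalSpace Y]
  [TopologicalSpace Z]

variable {M : Type} [CommRing M]

theorem Cup_c1 {n k : ℕ} (σ : Simp X n) (v : Fin (k + 1) → Fin (n + 1)) (i : Fin (k + 1)) :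
    sub (sub σ v) ![i] = sub σ ![v i] := by
  rw [sub_sub]
  congr 1
  funext k
  fin_cases k
  rfl

theorem Cup_c2 {n k : ℕ} (σ : Simp X n) (v : Fin (k + 1) → Fin (n + 1)) (i j : Fin (k + 1)) :
    sub (sub σ v) ![i, j] = sub σ ![v i, v j] := by
  rw [sub_sub]
  congr 1
  funext k
  fin_cases k <;> rfl

theorem Cup_c3 {n k : ℕ} (σ : Simp X n) (v : Fin (k + 1) → Fin (n + 1)) (i j l : Fin (k + 1)) :
    sub (sub σ v) ![i, j, l] = sub σ ![v i, v j, v l] := by
  rw [sub_sub]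
  congr 1
  funext k
  fin_cases k <;> rfl

theorem Cup_d0 (a : Simp X 0 → M) (σ : Simp X 1) :
    cobd a σ = a (sub σ ![1]) - a (sub σ ![0]) := by
  have e0 : (0 : Fin 2).succAbove = ![1] := by decide
  have e1 : (1 : Fin 2).succAbove = ![0] := by decide
  rw [cobd, Fin.sum_univ_two, e0, e1]
  simp [sub_eq_add_neg]

theorem Cup_d1 (a : Simp X 1 → M) (σ : Simp X 2) :
    cobd a σ = a (sub σ ![1, 2]) - a (sub σ ![0, 2]) + a (sub σ ![0, 1]) := by
  have e0 : (0 : Fin 3).succAbove = ![1, 2] := by decide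
  have e1 : (1 : Fin 3).succAbove = ![0, 2] := by decide
  have e2 : (2 : Fin 3).succAbove = ![0, 1] := by decide
  rw [cobd, Fin.sum_univ_three, e0, e1, e2]
  simp [sub_eq_add_neg]

theorem Cup_d2 (a : Simp X 2 → M) (σ : Simp X 3) :
    cobd a σ = a (sub σ ![1, 2, 3]) - a (sub σ ![0, 2, 3]) + a (sub σ ![0, 1, 3]) -
      a (sub σ ![0, 1, 2]) := by
  have e0 : (0 : Fin 4).succAbove = ![1, 2, 3] := by decide
  have e1 : (1 : Fin 4).succAbove = ![0, 2, 3] := by decide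
  have e2 : (2 : Fin 4).succAbove = ![0, 1, 3] := by decide
  have e3 : (3 : Fin 4).succAbove = ![0, 1, 2] := by decide
  have p3 : (-1 : ℤ) ^ ((3 : Fin 4) : ℕ) = -1 := by decide
  rw [cobd, Fin.sum_univ_four, e0, e1, e2, e3, p3]
  simp [sub_eq_add_neg]

theorem Cup_d3 (a : Simp X 3 → M) (σ : Simp X 4) :
    cobd a σ = a (sub σ ![1, 2, 3, 4]) - a (sub σ ![0, 2, 3, 4]) + a (sub σ ![0, 1, 3, 4]) -
      a (sub σ ![0, 1, 2, 4]) + a (sub σ ![0, 1, 2, 3]) := by
  have e0 : (0 : Fin 5).succAbove = ![1, 2, 3, 4] := by decide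
  have e1 : (1 : Fin 5).succAbove = ![0, 2, 3, 4] := by decide
  have e2 : (2 : Fin 5).succAbove = ![0, 1, 3, 4] := by decide
  have e3 : (3 : Fin 5).succAbove = ![0, 1, 2, 4] := by decide
  have e4 : (4 : Fin 5).succAbove = ![0, 1, 2, 3] := by decide
  have p3 : (-1 : ℤ) ^ ((3 : Fin 5) : ℕ) = -1 := by decide
  have p4 : (-1 : ℤ) ^ ((4 : Fin 5) : ℕ) = 1 := by decide
  rw [cobd, Fin.sum_univ_five, e0, e1, e2, e3, e4, p3, p4]
  simp [sub_eq_add_neg]

theorem Cup_z1 : cobd (0 : Simp X 1 → M) = 0 := by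
  funext σ
  simp [cobd]

theorem Cup_ev0 [Module R M] {n : ℕ} (c : Chn R X n) : ev R (0 : Simp X n → M) c = 0 := by
  simp only [ev, Finsupp.linearCombination_apply, Finsupp.sum, Pi.zero_apply, smul_zero,
    Finset.sum_const_zero]

theorem cobd_cup01 (a : Simp X 0 → M) (b : Simp X 1 → M) (σ : Simp X 2) :
    cobd (cup01 a b) σ = cup11 (cobd a) b σ + a (sub σ ![0]) * cobd b σ := by
  simp only [Cup_d0, Cup_d1, cup01, cup11, Cup_c1, Matrix.cons_val]
  ring

theorem cobd_cup11 (a b : Simp X 1 → M) (σ : Simp X 3) :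
    cobd (cup11 a b) σ = cup21 (cobd a) b σ - cup12 a (cobd b) σ := by
  simp only [Cup_d1, Cup_d2, cup11, cup12, cup21, Cup_c2, Matrix.cons_val]
  ring

theorem cobd_cup12 (a : Simp X 1 → M) (b : Simp X 2 → M) (σ : Simp X 4) :
    cobd (cup12 a b) σ =
      cup (cobd a) b σ - a (sub σ ![0, 1]) * cobd b (sub σ ![1, 2, 3, 4]) := by
  simp only [Cup_d1, Cup_d2, Cup_d3, cup12, cup, Cup_c2, Cup_c3, Matrix.cons_val]
  ring

theorem cobd_cup21 (a : Simp X 2 → M) (b : Simp X 1 → M) (σ : Simp X 4) :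
    cobd (cup21 a b) σ =
      cobd a (sub σ ![0, 1, 2, 3]) * b (sub σ ![3, 4]) + cup a (cobd b) σ := by
  simp only [Cup_d1, Cup_d2, Cup_d3, cup21, cup, Cup_c2, Cup_c3, Matrix.cons_val]
  ring

theorem ev_cup_coh {z : Chn ℤ X 4} (hz : bd ℤ X 3 z = 0) {a a' b b' : Simp X 2 → ℤ}
    (ha : cobd a = 0) (hb' : cobd b' = 0) (h : Coh a a') (h' : Coh b b') :
    ev ℤ (cup a b) z = ev ℤ (cup a' b') z := by
  obtain ⟨u, hu⟩ := h
  obtain ⟨v, hv⟩ := h'
  have e : cup a b = cup a' b' + cobd (cup21 a v + cup12 u b') := by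
    funext σ
    rw [cobd_add, Pi.add_apply, Pi.add_apply, cobd_cup21, cobd_cup12, ha, hb']
    have h1 : cup a b σ = cup a b' σ + cup a (cobd v) σ := by
      rw [hv]
      simp only [cup, Pi.add_apply]
      ring
    have h2 : cup a b' σ = cup a' b' σ + cup (cobd u) b' σ := by
      rw [hu]
      simp only [cup, Pi.add_apply]
      ring
    rw [h1, h2]
    simp only [Pi.zero_apply]
    ring
  rw [e, ev_add, ← ev_bd, hz, map_zero, add_zero]

theorem ev_cup_cobd_left [Module R M] {z : Chn R X 4} (hz : bd R X 3 z = 0) (a : Simp X 1 → M)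
    {b : Simp X 2 → M} (hb : cobd b = 0) : ev R (cup (cobd a) b) z = 0 := by
  have e : cup (cobd a) b = cobd (cup12 a b) := by
    funext σ
    rw [cobd_cup12, hb, Pi.zero_apply, mul_zero, sub_zero]
  rw [e, ← ev_bd, hz, map_zero]

theorem ev_cup_sum {ι κ : Type} (T : Finset ι) (T' : Finset κ) (m : ι → ℤ) (m' : κ → ℤ)
    (a : ι → Simp X 2 → ℤ) (b : κ → Simp X 2 → ℤ) (z : Chn ℤ X 4) :
    ev ℤ (cup (∑ i ∈ T, m i • a i) (∑ j ∈ T', m' j • b j)) z =
      ∑ i ∈ T, ∑ j ∈ T', m i * m' j * ev ℤ (cup (a i) (b j)) z := by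
  induction z using Finsupp.induction_linear with
  | zero => simp
  | add c d hc hd =>
    simp only [map_add, hc, hd, mul_add, Finset.sum_add_distrib]
  | single σ r =>
    simp only [ev_single, cup, Finset.sum_apply, Pi.smul_apply, smul_eq_mul]
    rw [Finset.sum_mul_sum, Finset.mul_sum]
    refine Finset.sum_congr rfl fun i _ => ?_
    rw [Finset.mul_sum]
    refine Finset.sum_congr rfl fun j _ => ?_
    ring

theorem ev_cup_add_left (a a' b : Simp X 2 → ℤ) (z : Chn ℤ X 4) :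
    ev ℤ (cup (a + a') b) z = ev ℤ (cup a b) z + ev ℤ (cup a' b) z := by
  rw [← ev_add]
  congr 2
  funext σ
  simp only [cup, Pi.add_apply, add_mul]

theorem ev_cup_add_right (a b b' : Simp X 2 → ℤ) (z : Chn ℤ X 4) :
    ev ℤ (cup a (b + b')) z = ev ℤ (cup a b) z + ev ℤ (cup a b') z := by
  rw [← ev_add]
  congr 2
  funext σ
  simp only [cup, Pi.add_apply, mul_add]

/-- The local formula: on `B`, two real 1-cochains that are closed on `U` and `V`. -/
theorem ev_cup_local {B U V : Set X} (w w' : Simp X 1 → ℝ)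
    (hw : ∀ σ : Simp X 2, range σ ⊆ B ∩ U → cobd w σ = 0)
    (hw' : ∀ σ : Simp X 2, range σ ⊆ B ∩ V → cobd w' σ = 0) {ζ : Chn ℤ X 4} {η η' : Chn ℤ X 3}
    (hη : η ∈ chn ℤ (B ∩ U) 3) (hη' : η' ∈ chn ℤ (B ∩ V) 3) (h : bd ℤ X 3 ζ = η + η') :
    ev ℤ (cup (cobd w) (cobd w')) ζ = -ev ℤ (cup11 w w') (bd ℤ X 2 η) := by
  have e : cup (cobd w) (cobd w') = cobd (cup12 w (cobd w')) := by
    funext σ
    rw [cobd_cup12, cobd_cobd, Pi.zero_apply, mul_zero, sub_zero]
  have h1 : ev ℤ (cup12 w (cobd w')) η' = 0 := by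
    rw [← Cup_ev0 (R := ℤ) (M := ℝ) η']
    refine ev_congr_chn hη' fun σ hσ => ?_
    rw [cup12, hw' _ ((range_sub σ _).trans hσ), mul_zero, Pi.zero_apply]
  have h2 : ev ℤ (cup12 w (cobd w')) η = ev ℤ (-cobd (cup11 w w')) η := by
    refine ev_congr_chn hη fun σ hσ => ?_
    rw [Pi.neg_apply, cobd_cup11, cup21, hw _ ((range_sub σ _).trans hσ), zero_mul, zero_sub,
      neg_neg]
  rw [e, ← ev_bd, h, map_add, h1, h2, add_zero, ev_neg, ev_bd]

end HK3
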