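import Pool.Agent.P.MP_9699e0_gt.ChDefs

/-! Ranks of subquotients. -/

set_option autoImplicit false
set_option linter.unusedSectionVars false

noncomputable section

namespace HK3

open Pool.Agent.P.MP_9699e0_gt Set Filter Topology
open scoped ContDiff

section

variable {W : Type} [AddCommGroup W] [Module ℚ W]

theorem Rk_map_le {Z Z' B : Submodule ℚ W} (h : Z ≤ Z' ⊔ B) : Z.map B.mkQ ≤ Z'.map B.mkQ := by
  refine (Submodule.map_mono h).trans ?_
  rw [Submodule.map_sup, Submodule.mkQ_map_self, sup_bot_eq]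

theorem Rk_def (Z B : Submodule ℚ W) : rd Z B = Module.rank ℚ (Z.map B.mkQ) := rfl

theorem rd_mono {Z Z' B B' : Submodule ℚ W} (h : Z ≤ Z' ⊔ B) (h' : B' ≤ B) :
    rd Z B ≤ rd Z' B' := by
  rw [Rk_def, Rk_def]
  refine (Submodule.rank_mono (Rk_map_le h)).trans ?_
  rw [← Submodule.factor_comp_mk h', Submodule.map_comp]
  exact rank_map_le _ _

theorem rd_sup_le (Z Z' B : Submodule ℚ W) : rd (Z ⊔ Z') B ≤ rd Z B + rd Z' B := by
  rw [Rk_def, Rk_def, Rk_def, Submodule.map_sup]
  exact Submodule.rank_add_le_rank_add_rank _ _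

theorem rd_eq_zero {Z B : Submodule ℚ W} : rd Z B = 0 ↔ Z ≤ B := by
  rw [Rk_def, Submodule.rank_eq_zero, ← le_bot_iff, Submodule.map_le_iff_le_comap,
    Submodule.comap_bot, Submodule.ker_mkQ]

theorem rd_le_of_span {ι : Type} [Fintype ι] {Z B : Submodule ℚ W} (v : ι → W)
    (h : Z ≤ Submodule.span ℚ (range v) ⊔ B) : rd Z B ≤ Fintype.card ι := by
  rw [Rk_def]
  refine (Submodule.rank_mono (Rk_map_le h)).trans ((rank_map_le _ _).trans
    ((rank_span_le _).trans (Cardinal.mk_range_le.trans ?_)))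
  rw [Cardinal.mk_fintype]

theorem Rk_fin {Z B : Submodule ℚ W} {m : ℕ} (h : rd Z B ≤ m) :
    FiniteDimensional ℚ (Z.map B.mkQ) :=
  Module.rank_lt_aleph0_iff.1 (h.trans_lt (Cardinal.natCast_lt_aleph0))

/-- A functional that does not vanish lowers the rank of its kernel. -/
theorem rd_ker_le {M : Type} [AddCommGroup M] [Module ℚ M] {Z Z' B : Submodule ℚ W} {m : ℕ}
    (h : rd Z B ≤ (m + 1 : ℕ)) (l : W →ₗ[ℚ] M) (hB : ∀ x ∈ B, l x = 0) (hZ : Z' ≤ Z)
    (h0 : ∀ x ∈ Z', l x = 0) {v : W} (hv : v ∈ Z) (hl : l v ≠ 0) : rd Z' B ≤ m := by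
  haveI := Rk_fin h
  have hle : Z'.map B.mkQ ≤ Z.map B.mkQ := Submodule.map_mono hZ
  haveI : FiniteDimensional ℚ (Z'.map B.mkQ) := Submodule.finiteDimensional_of_le hle
  have hlt : Z'.map B.mkQ < Z.map B.mkQ := by
    refine lt_of_le_of_ne hle fun e => hl ?_
    have h1 : B.mkQ v ∈ Z'.map B.mkQ := e ▸ Submodule.mem_map_of_mem hv
    obtain ⟨x, hx, e'⟩ := h1
    have h2 := hB _ ((Submodule.Quotient.eq B).1 e')
    rw [map_sub, h0 x hx, zero_sub, neg_eq_zero] at h2
    exact h2
  have h3 := Submodule.finrank_lt_finrank_of_lt hlt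
  rw [Rk_def, ← Module.finrank_eq_rank, Nat.cast_le] at h ⊢
  omega

/-- Functionals with an invertible matrix on as many vectors as the rank separate the quotient. -/
theorem mem_of_sep {ι : Type} [Fintype ι] [DecidableEq ι] {Z B : Submodule ℚ W}
    (h : rd Z B ≤ Fintype.card ι) (l : ι → W →ₗ[ℚ] ℝ) (hB : ∀ i, ∀ x ∈ B, l i x = 0) (v : ι → W)
    (hv : ∀ j, v j ∈ Z) (hd : (Matrix.of fun i j => l i (v j)).det ≠ 0) {x : W} (hx : x ∈ Z)
    (h0 : ∀ i, l i x = 0) : x ∈ B := by
  haveI := Rk_fin h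
  have key : ∀ c : ι → ℚ, (∀ i, l i (∑ j, c j • v j) = 0) → c = 0 := by
    intro c hc
    have h1 := Matrix.eq_zero_of_mulVec_eq_zero hd (v := fun j => (c j : ℝ)) (funext fun i => by
      have := hc i
      simp only [map_sum, map_smul, Rat.smul_def] at this
      simpa [Matrix.mulVec, dotProduct, mul_comm] using this)
    funext j
    simpa using congrFun h1 j
  by_contra hxB
  let u : Option ι → Z.map B.mkQ := fun o =>
    o.elim ⟨B.mkQ x, Submodule.mem_map_of_mem hx⟩ fun j =>
      ⟨B.mkQ (v j), Submodule.mem_map_of_mem (hv j)⟩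
  have hu : LinearIndependent ℚ u := by
    refine Fintype.linearIndependent_iff.2 fun g hg => ?_
    have h1 : g none • x + ∑ j, g (some j) • v j ∈ B := by
      have h2 := congrArg Subtype.val hg
      rw [Fintype.sum_option] at h2
      rw [← Submodule.Quotient.mk_eq_zero, ← Submodule.mkQ_apply, map_add, map_sum]
      simpa [u] using h2
    have h2 := key (fun j => g (some j)) fun i => by
      have := hB i _ h1
      rwa [map_add, map_smul, h0, smul_zero, zero_add] at this
    have h3 : ∀ j, g (some j) = 0 := congrFun h2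
    have h4 : g none = 0 := by
      by_contra hn
      simp only [h3, zero_smul, Finset.sum_const_zero, add_zero] at h1
      exact hxB ((B.smul_mem_iff hn).1 h1)
    rintro (_ | j)
    · exact h4
    · exact h3 j
  have h5 := hu.fintype_card_le_finrank
  rw [Rk_def, ← Module.finrank_eq_rank, Nat.cast_le] at h
  rw [Fintype.card_option] at h5
  omega

end

end HK3
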