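import Pool.Agent.P.MP_9699e0_gt.MvA
import Pool.Agent.P.MP_9699e0_gt.Rk

/-! Mayer-Vietoris inequalities. -/

set_option autoImplicit false
set_option linter.unusedSectionVars false

noncomputable section

namespace HK3

open Pool.Agent.P.MP_9699e0_gt Set Filter Topology
open scoped ContDiff

variable {R : Type} [CommRing R] {X Y Z : Type} [TopologicalSpace X] [TopologicalSpace Y]
  [TopologicalSpace Z]

theorem Mv_ker_le {W A B : Type} [AddCommGroup W] [Module ℚ W] [AddCommGroup A] [Module ℚ A]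
    [AddCommGroup B] [Module ℚ B] (f : W →ₗ[ℚ] A) (g : W →ₗ[ℚ] B) (S : Submodule ℚ W)
    (h : ∀ a ∈ S, g a = 0 → f a = 0) : Module.rank ℚ (S.map f) ≤ Module.rank ℚ (S.map g) := by
  rw [Pool.Agent.P.MP_d483fb_an.Rd_same_ker g (f.prod g) S fun a ha =>
    ⟨fun k => Prod.ext (h a ha k) k, fun k => congrArg Prod.snd k⟩]
  conv_lhs => rw [← LinearMap.fst_prod f g, Submodule.map_comp]
  exact rank_map_le _ _

theorem Mv_iSup_le {W ι : Type} [AddCommGroup W] [Module ℚ W] (T : Finset ι)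
    (Z : ι → Submodule ℚ W) (B : Submodule ℚ W) :
    rd (⨆ i ∈ T, Z i) B ≤ ∑ i ∈ T, rd (Z i) B := by
  classical
  induction T using Finset.induction_on with
  | empty => simp [rd_eq_zero]
  | insert a T ha ih =>
    rw [Finset.iSup_insert, Finset.sum_insert ha]
    exact (rd_sup_le _ _ _).trans (add_le_add le_rfl ih)

theorem mv_rank {O U V : Set X} (hU : IsOpen U) (hV : IsOpen V) (h : O ⊆ U ∪ V) (n : ℕ) :
    hb O (n + 1) ≤ rd (cyc ℚ (O ∩ U) (n + 1) ⊔ cyc ℚ (O ∩ V) (n + 1)) (bdy ℚ O (n + 1)) +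
      rd (cyc ℚ (O ∩ U ∩ V) n ⊓ bdy ℚ (O ∩ U) n ⊓ bdy ℚ (O ∩ V) n) (bdy ℚ (O ∩ U ∩ V) n) := by
  have hM : cyc ℚ (O ∩ U) (n + 1) ⊔ cyc ℚ (O ∩ V) (n + 1) ⊔ bdy ℚ O (n + 1) ≤ cyc ℚ O (n + 1) :=
    sup_le (sup_le (cyc_mono inter_subset_left _) (cyc_mono inter_subset_left _)) (bdy_le _ _)
  have sV : O ∩ U ∩ V ⊆ O ∩ V := fun x hx => ⟨hx.1.1, hx.2⟩
  rw [hb, Pool.Agent.P.MP_d483fb_an.Rd_add le_sup_right hM, add_comm]
  refine add_le_add (rd_mono le_rfl le_rfl) ?_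
  set M := cyc ℚ (O ∩ U) (n + 1) ⊔ cyc ℚ (O ∩ V) (n + 1) ⊔ bdy ℚ O (n + 1) with hMd
  set D := chn ℚ (O ∩ U) (n + 1) ⊓ (bdy ℚ (O ∩ V) n).comap (bd ℚ X n) with hD
  have e1 : rd (cyc ℚ O (n + 1)) M = rd (cyc ℚ O (n + 1)) (M ⊔ chn ℚ (O ∩ V) (n + 1)) := by
    refine Pool.Agent.P.MP_d483fb_an.Rd_congr fun z hz =>
      ⟨fun k => Submodule.mem_sup_left k, fun k => ?_⟩
    obtain ⟨m, hm, v, hv, rfl⟩ := Submodule.mem_sup.1 k
    have h1 : v ∈ cyc ℚ O (n + 1) := by simpa using Submodule.sub_mem _ hz (hM hm)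
    exact Submodule.add_mem _ hm
      (Submodule.mem_sup_left (Submodule.mem_sup_right (mem_cyc h1 hv)))
  have e2 : cyc ℚ O (n + 1) ≤ D ⊔ (M ⊔ chn ℚ (O ∩ V) (n + 1)) := by
    intro z hz
    obtain ⟨a, ha, b, hb', hf⟩ := mv_split hU hV h hz
    have h1 : bd ℚ X n (z - a - b) = 0 := (bdy_le _ _ hf).2
    have h2 : bd ℚ X n z = 0 := hz.2
    have h3 : bd ℚ X n (-b) = bd ℚ X n a := by
      rw [map_sub, map_sub, h2, zero_sub, sub_eq_zero] at h1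
      rw [map_neg, ← h1, neg_neg]
    refine Submodule.mem_sup.2 ⟨a, ⟨ha, -b, Submodule.neg_mem _ hb', h3⟩, z - a - b + b,
      Submodule.add_mem_sup (Submodule.mem_sup_right hf) hb', by abel⟩
  have e3 : D.map (bd ℚ X n) ≤
      cyc ℚ (O ∩ U ∩ V) n ⊓ bdy ℚ (O ∩ U) n ⊓ bdy ℚ (O ∩ V) n := by
    rintro _ ⟨a, ⟨ha, ha'⟩, rfl⟩
    have h1 : bd ℚ X n a ∈ bdy ℚ (O ∩ U) n := ⟨a, ha, rfl⟩
    refine ⟨⟨mem_cyc (bdy_le _ _ h1) ?_, h1⟩, ha'⟩
    rw [chn_inter]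
    exact ⟨bd_mem ha, chn_mono inter_subset_right n (cyc_le _ _ (bdy_le _ _ ha'))⟩
  rw [e1]
  refine (rd_mono e2 le_rfl).trans (le_trans ?_ (rd_mono (e3.trans le_sup_left) le_rfl))
  rw [Rk_def, Rk_def, ← Submodule.map_comp]
  refine Mv_ker_le _ _ D fun a ha k => ?_
  simp only [Submodule.mkQ_apply, Submodule.Quotient.mk_eq_zero, LinearMap.comp_apply] at k ⊢
  obtain ⟨e, he, k⟩ := k
  have h1 : a - e ∈ cyc ℚ (O ∩ U) (n + 1) :=
    ⟨Submodule.sub_mem _ ha.1 (chn_mono inter_subset_left _ he), by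
      rw [SetLike.mem_coe, LinearMap.mem_ker, map_sub, k, sub_self]⟩
  exact Submodule.mem_sup.2 ⟨a - e, Submodule.mem_sup_left (Submodule.mem_sup_left h1), e,
    chn_mono sV _ he, by abel⟩

theorem mv_crude {O U V : Set X} (hU : IsOpen U) (hV : IsOpen V) (h : O ⊆ U ∪ V) (n : ℕ) :
    hb O (n + 1) ≤ hb (O ∩ U) (n + 1) + hb (O ∩ V) (n + 1) + hb (O ∩ U ∩ V) n := by
  refine (mv_rank hU hV h n).trans (add_le_add ((rd_sup_le _ _ _).trans (add_le_add ?_ ?_)) ?_)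
  · exact rd_mono le_sup_left (bdy_mono inter_subset_left _)
  · exact rd_mono le_sup_left (bdy_mono inter_subset_left _)
  · exact rd_mono ((inf_le_left.trans inf_le_left).trans le_sup_left) le_rfl

theorem hb_disj {ι : Type} [Fintype ι] {O U : ι → Set X} (hU : ∀ i, IsOpen (U i))
    (h : ∀ i, O i ⊆ U i) (hd : ∀ i j, i ≠ j → Disjoint (O i) (U j)) (n : ℕ) :
    hb (⋃ i, O i) n ≤ ∑ i, hb (O i) n := by
  rw [hb, cyc_disj hU h hd]
  have := Mv_iSup_le Finset.univ (fun i => cyc ℚ (O i) n) (bdy ℚ (⋃ i, O i) n)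
  simp only [Finset.mem_univ, iSup_pos] at this
  exact this.trans (Finset.sum_le_sum fun i _ =>
    rd_mono le_sup_left (bdy_mono (subset_iUnion O i) n))

end HK3
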