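import Pool.Agent.P.MP_9699e0_gt.Hur
import Pool.Agent.P.MP_9699e0_gt.Cup
import Pool.Agent.P.MP_9699e0_gt.Mv

/-! From the Gram matrix to the cohomology. -/

set_option autoImplicit false
set_option linter.unusedSectionVars false

noncomputable section

namespace HK3

open Pool.Agent.P.MP_9699e0_gt Set Filter Topology
open scoped ContDiff

variable {X : Type} [TopologicalSpace X]

/-- The inverse of the Cartan matrix. -/
def AlgE : Matrix (Fin 8) (Fin 8) ℤ :=
  !![4, 5, 7, 10, 8, 6, 4, 2;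
     5, 8, 10, 15, 12, 9, 6, 3;
     7, 10, 14, 20, 16, 12, 8, 4;
     10, 15, 20, 30, 24, 18, 12, 6;
     8, 12, 16, 24, 20, 15, 10, 5;
     6, 9, 12, 18, 15, 12, 8, 4;
     4, 6, 8, 12, 10, 8, 6, 3;
     2, 3, 4, 6, 5, 4, 3, 2]

theorem AlgE_mul : ∀ i j : Fin 8,
    ∑ k, CartanMatrix.E₈ i k * AlgE k j = if i = j then 1 else 0 := by
  decide +kernel

/-- The inverse of the K3 form. -/
def AlgQ : K3Index → K3Index → ℤ
  | Sum.inl a, Sum.inl b => if a.1 = b.1 ∧ a.2 ≠ b.2 then 1 else 0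
  | Sum.inr a, Sum.inr b => if a.1 = b.1 then -AlgE a.2 b.2 else 0
  | _, _ => 0

theorem k3Form_inv : ∃ Q : K3Index → K3Index → ℤ,
    ∀ i j, ∑ k, k3Form i k * Q k j = if i = j then 1 else 0 := by
  refine ⟨AlgQ, ?_⟩
  decide +kernel

theorem Alg_indep {c : K3Index → ℚ} (h : ∀ j, ∑ i, c i * (k3Form i j : ℚ) = 0) : c = 0 := by
  obtain ⟨Q, hQ⟩ := k3Form_inv
  funext k
  have h1 : ∑ j, (∑ i, c i * (k3Form i j : ℚ)) * (Q j k : ℚ) = 0 := by simp [h]
  simp only [Finset.sum_mul] at h1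
  rw [Finset.sum_comm] at h1
  have h2 : ∀ i, ∑ j, c i * (k3Form i j : ℚ) * (Q j k : ℚ) = if i = k then c i else 0 := by
    intro i
    have h3 := congrArg (Int.cast : ℤ → ℚ) (hQ i k)
    push_cast at h3
    simp only [mul_assoc]
    rw [← Finset.mul_sum, h3]
    split_ifs <;> simp
  simpa [h2] using h1

theorem Alg_solve (v : K3Index → ℤ) : ∃ m : K3Index → ℤ, ∀ j, ∑ i, m i * k3Form i j = v j := by
  obtain ⟨Q, hQ⟩ := k3Form_inv
  have h1 : Matrix.of k3Form * Matrix.of Q = 1 := by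
    ext i j
    rw [Matrix.mul_apply, Matrix.one_apply]
    exact hQ i j
  have h2 := mul_eq_one_comm.1 h1
  refine ⟨Matrix.vecMul v (Matrix.of Q), fun j => ?_⟩
  have h3 : Matrix.vecMul (Matrix.vecMul v (Matrix.of Q)) (Matrix.of k3Form) = v := by
    rw [Matrix.vecMul_vecMul, h2, Matrix.vecMul_one]
  exact congrFun h3 j

/-- An integral cochain read as a rational one. -/
def Algc {n : ℕ} (a : Simp X n → ℤ) (σ : Simp X n) : ℚ := a σ

theorem Algc_cobd {n : ℕ} (a : Simp X n → ℤ) : cobd (Algc a) = Algc (cobd a) := by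
  funext σ
  simp only [Algc, cobd, smul_eq_mul, Int.cast_sum, Int.cast_mul, zsmul_eq_mul]

theorem Algc_closed {n : ℕ} {a : Simp X n → ℤ} (h : cobd a = 0) : cobd (Algc a) = 0 := by
  rw [Algc_cobd, h]
  funext σ
  simp [Algc]

theorem Algc_cup (a b : Simp X 2 → ℤ) (z : Chn ℤ X 4) :
    ev ℤ (cup (Algc a) (Algc b)) z = (ev ℤ (cup a b) z : ℤ) := by
  simp only [ev, Finsupp.linearCombination_apply, Finsupp.sum, cup, Algc, smul_eq_mul,
    Int.cast_sum, Int.cast_mul, zsmul_eq_mul]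

theorem Alg_cup_sum {ι : Type} [Fintype ι] (c : ι → ℚ) (a : ι → Simp X 2 → ℚ) (b : Simp X 2 → ℚ)
    (z : Chn ℤ X 4) :
    ev ℤ (cup (∑ i, c i • a i) b) z = ∑ i, c i * ev ℤ (cup (a i) b) z := by
  simp only [ev, Finsupp.linearCombination_apply, Finsupp.sum, cup, Finset.sum_apply,
    Pi.smul_apply, smul_eq_mul, zsmul_eq_mul, Finset.mul_sum, Finset.sum_mul]
  rw [Finset.sum_comm]
  refine Finset.sum_congr rfl fun i _ => Finset.sum_congr rfl fun σ _ => ?_
  ring

theorem Alg_ev_sum {ι : Type} [Fintype ι] {n : ℕ} (c : ι → ℚ) (a : ι → Simp X n → ℚ)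
    (x : Chn ℚ X n) : ev ℚ (∑ i, c i • a i) x = ∑ i, c i * ev ℚ (a i) x := by
  simp only [ev, Finsupp.linearCombination_apply, Finsupp.sum, Finset.sum_apply,
    Pi.smul_apply, smul_eq_mul, Finset.mul_sum]
  rw [Finset.sum_comm]
  refine Finset.sum_congr rfl fun i _ => Finset.sum_congr rfl fun σ _ => ?_
  ring

theorem Alg_mem_cyc {R : Type} [CommRing R] {n : ℕ} {c : Chn R X (n + 1)} :
    c ∈ cyc R (univ : Set X) (n + 1) ↔ bd R X n c = 0 := by
  simp only [cyc, chn_univ, top_inf_eq, LinearMap.mem_ker]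

theorem Alg_ev_bdy {n : ℕ} {a : Simp X n → ℚ} (h : cobd a = 0) {x : Chn ℚ X n}
    (hx : x ∈ bdy ℚ (univ : Set X) n) : ev ℚ a x = 0 := by
  obtain ⟨d, -, rfl⟩ := hx
  rw [ev_bd, h]
  simp [ev]

/-- A rational combination of cocycles that vanishes on cycles pairs trivially. -/
theorem Alg_pair {ι : Type} [Fintype ι] {z : Chn ℤ X 4} (hz : bd ℤ X 3 z = 0) (c : ι → ℚ)
    (a : ι → Simp X 2 → ℤ) (h : ∀ x ∈ cyc ℚ (univ : Set X) 2, ∑ i, c i * ev ℚ (Algc (a i)) x = 0)
    {b : Simp X 2 → ℤ} (hb : cobd b = 0) :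
    ∑ i, c i * (ev ℤ (cup (a i) b) z : ℤ) = 0 := by
  obtain ⟨u, hu⟩ := cob_of_van_rat (∑ i, c i • Algc (a i)) fun x hx => by
    rw [Alg_ev_sum, h x hx]
  have h1 := ev_cup_cobd_left (R := ℤ) hz u (Algc_closed hb)
  rw [← hu, Alg_cup_sum] at h1
  simpa only [Algc_cup] using h1

section

variable (h2 : hb (univ : Set X) 2 ≤ (22 : ℕ)) {e : K3Index → Simp X 2 → ℤ} {z : Chn ℤ X 4}
  (he : ∀ i, cobd (e i) = 0) (hz : bd ℤ X 3 z = 0)
  (hQ : ∀ i j, ev ℤ (cup (e i) (e j)) z = k3Form i j)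

include he hz hQ in
theorem Alg_dual : ∃ v : K3Index → Chn ℚ X 2, (∀ j, v j ∈ cyc ℚ (univ : Set X) 2) ∧
    ∀ i j, ev ℚ (Algc (e i)) (v j) = if i = j then 1 else 0 := by
  let L : cyc ℚ (univ : Set X) 2 →ₗ[ℚ] (K3Index → ℚ) :=
    LinearMap.pi fun i => (ev ℚ (Algc (e i))).comp (Submodule.subtype _)
  have hL : LinearMap.range L = ⊤ := by
    by_contra hn
    obtain ⟨φ, hφ, h0⟩ := Submodule.exists_le_ker_of_lt_top _ (lt_top_iff_ne_top.2 hn)
    refine hφ ?_
    have h1 : (fun i => φ (Pi.single i 1)) = 0 := by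
      refine Alg_indep fun j => ?_
      have h3 := Alg_pair hz (fun i => φ (Pi.single i 1)) e (fun x hx => ?_) (he j)
      · simpa only [hQ] using h3
      · have h4 : φ (L ⟨x, hx⟩) = 0 := h0 (LinearMap.mem_range_self L _)
        rw [LinearMap.pi_apply_eq_sum_univ] at h4
        rw [← h4]
        refine Finset.sum_congr rfl fun i _ => ?_
        rw [smul_eq_mul, mul_comm]
        congr 2
        funext k
        rw [Pi.single_apply]
        simp only [eq_comm]
    refine LinearMap.ext fun w => ?_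
    rw [LinearMap.pi_apply_eq_sum_univ]
    refine Finset.sum_eq_zero fun i _ => ?_
    have h5 : φ (Pi.single i 1) = 0 := congrFun h1 i
    have h6 : (fun j => if i = j then (1 : ℚ) else 0) = Pi.single i 1 := by
      funext k
      rw [Pi.single_apply]
      simp only [eq_comm]
    rw [h6, h5, smul_zero]
  choose v hv using fun j : K3Index => LinearMap.range_eq_top.1 hL (Pi.single j 1)
  refine ⟨fun j => v j, fun j => (v j).2, fun i j => ?_⟩
  have h7 := congrFun (hv j) i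
  rw [Pi.single_apply] at h7
  exact h7

include h2 he hz hQ in
theorem Alg_sep {x : Chn ℚ X 2} (hx : x ∈ cyc ℚ (univ : Set X) 2)
    (h0 : ∀ i, ev ℚ (Algc (e i)) x = 0) : x ∈ bdy ℚ (univ : Set X) 2 := by
  obtain ⟨v, hv, hd⟩ := Alg_dual he hz hQ
  refine mem_of_sep (ι := K3Index) (Z := cyc ℚ (univ : Set X) 2) h2
    (fun i => (Algebra.linearMap ℚ ℝ).comp (ev ℚ (Algc (e i)))) (fun i y hy => ?_) v hv ?_ hx
    fun i => ?_
  · rw [LinearMap.comp_apply, Alg_ev_bdy (Algc_closed (he i)) hy, map_zero]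
  · have h1 : (Matrix.of fun i j => ((Algebra.linearMap ℚ ℝ).comp (ev ℚ (Algc (e i)))) (v j)) =
        1 := by
      ext i j
      rw [Matrix.of_apply, LinearMap.comp_apply, hd, Matrix.one_apply]
      split_ifs <;> simp
    rw [h1, Matrix.det_one]
    exact one_ne_zero
  · rw [LinearMap.comp_apply, h0, map_zero]

include h2 he hz hQ in
theorem Alg_van {a : Simp X 2 → ℤ} (ha : cobd a = 0) (h0 : ∀ j, ev ℤ (cup a (e j)) z = 0)
    {x : Chn ℚ X 2} (hx : x ∈ cyc ℚ (univ : Set X) 2) : ev ℚ (Algc a) x = 0 := by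
  obtain ⟨v, hv, hd⟩ := Alg_dual he hz hQ
  have h1 : ∀ y ∈ cyc ℚ (univ : Set X) 2,
      ev ℚ (Algc a) y = ∑ i, ev ℚ (Algc a) (v i) * ev ℚ (Algc (e i)) y := by
    intro y hy
    have h3 := Alg_ev_bdy (Algc_closed ha) (Alg_sep h2 he hz hQ
      (x := y - ∑ j, ev ℚ (Algc (e j)) y • v j)
      (sub_mem hy (Submodule.sum_mem _ fun j _ => Submodule.smul_mem _ _ (hv j))) fun i => by
        simp only [map_sub, map_sum, map_smul, hd, smul_eq_mul, mul_ite, mul_one, mul_zero,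
          Finset.sum_ite_eq, Finset.mem_univ, if_true, sub_self])
    rw [map_sub, map_sum, sub_eq_zero] at h3
    rw [h3]
    refine Finset.sum_congr rfl fun i _ => ?_
    rw [map_smul, smul_eq_mul, mul_comm]
  have h4 : (fun i => ev ℚ (Algc a) (v i)) = 0 := by
    refine Alg_indep fun j => ?_
    have h5 := Alg_pair (ι := Option K3Index) hz
      (fun o => o.elim (-1) fun i => ev ℚ (Algc a) (v i)) (fun o => o.elim a e)
      (fun y hy => by
        rw [Fintype.sum_option]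
        simp only [Option.elim]
        rw [← h1 y hy]
        ring) (he j)
    rw [Fintype.sum_option] at h5
    simp only [Option.elim, h0, hQ] at h5
    simpa using h5
  rw [h1 x hx]
  refine Finset.sum_eq_zero fun i _ => ?_
  rw [show ev ℚ (Algc a) (v i) = 0 from congrFun h4 i, zero_mul]

end

/-- An integral chain read as a rational one. -/
def Algz (n : ℕ) : Chn ℤ X n →ₗ[ℤ] Chn ℚ X n :=
  Finsupp.linearCombination ℤ fun σ => Finsupp.single σ 1

theorem Algz_single {n : ℕ} (σ : Simp X n) (r : ℤ) :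
    Algz n (Finsupp.single σ r) = Finsupp.single σ (r : ℚ) := by
  rw [Algz, Finsupp.linearCombination_single, Finsupp.smul_single]
  simp

theorem Algz_bd {n : ℕ} (c : Chn ℤ X (n + 1)) :
    bd ℚ X n (Algz (n + 1) c) = Algz n (bd ℤ X n c) := by
  induction c using Finsupp.induction_linear with
  | zero => simp
  | add c d hc hd => simp only [map_add, hc, hd]
  | single σ r =>
    rw [Algz_single, bd_single, bd_single, map_sum]
    refine Finset.sum_congr rfl fun i _ => ?_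
    rw [map_smul, Algz_single, ← Int.cast_smul_eq_zsmul ℚ]
    simp

theorem Algz_ev {n : ℕ} (a : Simp X n → ℤ) (c : Chn ℤ X n) :
    ev ℚ (Algc a) (Algz n c) = (ev ℤ a c : ℤ) := by
  induction c using Finsupp.induction_linear with
  | zero => simp
  | add c d hc hd => simp only [map_add, hc, hd, Int.cast_add]
  | single σ r =>
    rw [Algz_single, ev_single, ev_single]
    simp [Algc]

theorem Alg_cup_comb {e : K3Index → Simp X 2 → ℤ} {z : Chn ℤ X 4}
    (hQ : ∀ i j, ev ℤ (cup (e i) (e j)) z = k3Form i j) (m : K3Index → ℤ) (j : K3Index) :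
    ev ℤ (cup (∑ i, m i • e i) (e j)) z = ∑ i, m i * k3Form i j := by
  have h := ev_cup_sum Finset.univ {j} m (fun _ => 1) e e z
  simpa [hQ] using h

theorem hasK3Form_of [SimplyConnectedSpace X] (h2 : hb (univ : Set X) 2 ≤ (22 : ℕ))
    (e : K3Index → Simp X 2 → ℤ) (z : Chn ℤ X 4) (he : ∀ i, cobd (e i) = 0) (hz : bd ℤ X 3 z = 0)
    (hQ : ∀ i j, ev ℤ (cup (e i) (e j)) z = k3Form i j) : HasK3Form X := by
  refine ⟨e, z, he, hz, fun a ha => ?_, hQ⟩
  obtain ⟨m, hm⟩ := Alg_solve fun j => ev ℤ (cup a (e j)) z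
  have key : ∀ m' : K3Index → ℤ, (∃ b : Simp X 1 → ℤ, a = (∑ i, m' i • e i) + cobd b) →
      ∀ j, ∑ i, m' i * k3Form i j = ev ℤ (cup a (e j)) z := by
    rintro m' ⟨b, rfl⟩ j
    rw [ev_cup_add_left, ev_cup_cobd_left hz b (he j), add_zero, Alg_cup_comb hQ]
  refine ⟨m, ?_, fun m' hm' => ?_⟩
  · have h1 : cobd (a + ∑ i, (-m i) • e i) = 0 := by
      simp only [cobd_add, cobd_sum, cobd_zsmul, ha, he, smul_zero, Finset.sum_const_zero, add_zero]
    obtain ⟨b, hb⟩ := cob_of_van cyc_one_le (a + ∑ i, (-m i) • e i) fun c hc => by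
      have h3 := Alg_van h2 he hz hQ h1 (fun j => by
        rw [ev_cup_add_left, Alg_cup_comb hQ, ← hm j, ← Finset.sum_add_distrib]
        simp) (x := Algz 2 c) (Alg_mem_cyc.2 (by rw [Algz_bd, Alg_mem_cyc.1 hc, map_zero]))
      rw [Algz_ev] at h3
      exact_mod_cast h3
    refine ⟨b, ?_⟩
    rw [← hb]
    simp only [neg_smul, Finset.sum_neg_distrib]
    abel
  · have h4 := Alg_indep (c := fun i => (m' i : ℚ) - m i) fun j => by
      have h5 := congrArg (Int.cast : ℤ → ℚ) ((key m' hm' j).trans (hm j).symm)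
      push_cast at h5
      simp only [sub_mul, Finset.sum_sub_distrib, h5, sub_self]
    funext i
    have h6 : (m' i : ℚ) - m i = 0 := congrFun h4 i
    exact_mod_cast sub_eq_zero.1 h6

theorem trivialH2_of (h2 : hb (univ : Set X) 2 ≤ (22 : ℕ))
    (e : K3Index → Simp X 2 → ℤ) (z : Chn ℤ X 4) (he : ∀ i, cobd (e i) = 0) (hz : bd ℤ X 3 z = 0)
    (hQ : ∀ i j, ev ℤ (cup (e i) (e j)) z = k3Form i j) (g : C(X, X))
    (hg : ∀ i, Coh ((2 : ℤ) • fun σ => e i (g.comp σ)) ((2 : ℤ) • e i)) : TrivialH2 g := by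
  intro c hc
  have hc' : c ∈ cyc ℚ (univ : Set X) 2 := Alg_mem_cyc.2 hc
  have e1 : Finsupp.mapDomain g.comp c = cmap ℚ g 2 c := by
    have : (smap g : Simp X 2 → Simp X 2) = g.comp := funext fun σ => smap_coe g σ
    rw [cmap, Finsupp.lmapDomain_apply, this]
  have h1 : cmap ℚ g 2 c ∈ cyc ℚ (univ : Set X) 2 :=
    cmap_cyc g.continuous.continuousOn (mapsTo_univ _ _) hc'
  obtain ⟨d, -, hd⟩ := Alg_sep h2 he hz hQ (sub_mem h1 hc') fun i => by
    obtain ⟨b, hb⟩ := hg i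
    have h3 : Algc (cobd b) = ∑ o : Bool, (cond o 2 (-2) : ℚ) •
        cond o (fun σ => Algc (e i) (smap g σ)) (Algc (e i)) := by
      funext σ
      have h4 := congrArg (Int.cast : ℤ → ℚ) (congrFun hb σ)
      simp only [Pi.smul_apply, Pi.add_apply, smul_eq_mul] at h4
      push_cast at h4
      simp only [Fintype.sum_bool, cond_true, cond_false, Pi.add_apply, Pi.smul_apply, Algc,
        smap_coe, smul_eq_mul]
      linarith
    have h5 : ev ℚ (Algc (cobd b)) c = 0 := by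
      rw [← Algc_cobd, ← ev_bd, hc, map_zero]
    rw [h3, Alg_ev_sum] at h5
    simp only [Fintype.sum_bool, cond_true, cond_false] at h5
    rw [map_sub, ev_cmap]
    linarith
  exact ⟨d, hd.trans (by rw [e1])⟩

end HK3
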