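import Pool.Agent.P.MP_9699e0_gt.ChDefs

/-! Real determinants on the model space. -/

set_option autoImplicit false
set_option linter.unusedSectionVars false

noncomputable section

namespace HK3

open Pool.Agent.P.MP_9699e0_gt Set Filter Topology
open scoped ContDiff

theorem det_cplx (D : E →L[ℂ] E) (h : Function.Injective D) :
    0 < (D.restrictScalars ℝ).det := by
  have h1 : LinearMap.det (D : E →ₗ[ℂ] E) ≠ 0 := by
    intro h0
    exact (LinearMap.det_eq_zero_iff_ker_ne_bot.1 h0) (LinearMap.ker_eq_bot.2 h)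
  have h2 : (D.restrictScalars ℝ).det = Algebra.norm ℝ (LinearMap.det (D : E →ₗ[ℂ] E)) :=
    LinearMap.det_restrictScalars (R := ℝ) (f := (D : E →ₗ[ℂ] E))
  rw [h2, Algebra.norm_complex_apply]
  exact Complex.normSq_pos.2 h1

/-- The real basis of the model space. -/
def Det_basis : Module.Basis (Fin 4) ℝ E :=
  (Complex.basisOneI.prod Complex.basisOneI).reindex finSumFinEquiv

theorem Det_basis_apply : (Det_basis : Fin 4 → E) =
    ![(1, 0), (Complex.I, 0), (0, 1), (0, Complex.I)] := by
  funext i
  rw [Det_basis, Module.Basis.reindex_apply]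
  fin_cases i
  · change (Complex.basisOneI.prod Complex.basisOneI) (Sum.inl 0) = _
    simp [Module.Basis.prod_apply]
  · change (Complex.basisOneI.prod Complex.basisOneI) (Sum.inl 1) = _
    simp [Module.Basis.prod_apply]
  · change (Complex.basisOneI.prod Complex.basisOneI) (Sum.inr 0) = _
    simp [Module.Basis.prod_apply]
  · change (Complex.basisOneI.prod Complex.basisOneI) (Sum.inr 1) = _
    simp [Module.Basis.prod_apply]

theorem Det_basis_repr (p : E) : (Det_basis.repr p : Fin 4 → ℝ) =
    ![p.1.re, p.1.im, p.2.re, p.2.im] := by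
  funext i
  rw [Det_basis, Module.Basis.repr_reindex_apply]
  fin_cases i
  · change (Complex.basisOneI.prod Complex.basisOneI).repr p (Sum.inl 0) = _
    simp
  · change (Complex.basisOneI.prod Complex.basisOneI).repr p (Sum.inl 1) = _
    simp
  · change (Complex.basisOneI.prod Complex.basisOneI).repr p (Sum.inr 0) = _
    simp
  · change (Complex.basisOneI.prod Complex.basisOneI).repr p (Sum.inr 1) = _
    simp

/-- The determinant in the basis `(1, 0), (i, 0), (0, 1), (0, i)`. -/
theorem det_eq (D : E →L[ℝ] E) : D.det = Matrix.det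
    !![(D (1, 0)).1.re, (D (Complex.I, 0)).1.re, (D (0, 1)).1.re, (D (0, Complex.I)).1.re;
      (D (1, 0)).1.im, (D (Complex.I, 0)).1.im, (D (0, 1)).1.im, (D (0, Complex.I)).1.im;
      (D (1, 0)).2.re, (D (Complex.I, 0)).2.re, (D (0, 1)).2.re, (D (0, Complex.I)).2.re;
      (D (1, 0)).2.im, (D (Complex.I, 0)).2.im, (D (0, 1)).2.im, (D (0, Complex.I)).2.im] := by
  rw [ContinuousLinearMap.det, ← LinearMap.det_toMatrix Det_basis]
  congr 1
  ext i j
  rw [LinearMap.toMatrix_apply, Det_basis_repr, Det_basis_apply]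
  fin_cases i <;> fin_cases j <;> rfl

/-- Block triangular maps. -/
theorem det_tri (D : E →L[ℝ] E) (h : ∀ u : ℂ, (D (u, 0)).2 = 0) : D.det =
    ((D (1, 0)).1.re * (D (Complex.I, 0)).1.im - (D (Complex.I, 0)).1.re * (D (1, 0)).1.im) *
    ((D (0, 1)).2.re * (D (0, Complex.I)).2.im - (D (0, Complex.I)).2.re * (D (0, 1)).2.im) := by
  rw [det_eq, h 1, h Complex.I]
  simp [Matrix.det_succ_row_zero, Fin.sum_univ_succ, Fin.succAbove]
  ring

theorem det_holo {g : E → E} {a : E} {D : E →L[ℂ] E} (h : HasFDerivAt g D a)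
    (hi : Function.Injective D) : 0 < (fderiv ℝ g a).det := by
  rw [(h.restrictScalars ℝ).fderiv]
  exact det_cplx D hi

end HK3
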