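import Pool.Agent.P.MP_9699e0_gt.Lat
import Pool.Agent.P.MP_9699e0_gt.Det

/-! Smoothness and orientation of the deck transformations and of the tube map. -/

set_option autoImplicit false
set_option linter.unusedSectionVars false

noncomputable section

namespace HK3

open Pool.Agent.P.MP_9699e0_gt Set Filter Topology
open scoped ContDiff

/-- The linear map with given values on the real basis. -/
def ArrA_L (a b c d : E) : E →L[ℝ] E :=
  (Complex.reCLM.comp (ContinuousLinearMap.fst ℝ ℂ ℂ)).smulRight a +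
  (Complex.imCLM.comp (ContinuousLinearMap.fst ℝ ℂ ℂ)).smulRight b +
  (Complex.reCLM.comp (ContinuousLinearMap.snd ℝ ℂ ℂ)).smulRight c +
  (Complex.imCLM.comp (ContinuousLinearMap.snd ℝ ℂ ℂ)).smulRight d

theorem ArrA_L_apply (a b c d p : E) :
    ArrA_L a b c d p = p.1.re • a + p.1.im • b + p.2.re • c + p.2.im • d := rfl

theorem ArrA_L_det (a b c d : E) : (ArrA_L a b c d).det = Matrix.det
    !![a.1.re, b.1.re, c.1.re, d.1.re; a.1.im, b.1.im, c.1.im, d.1.im;
      a.2.re, b.2.re, c.2.re, d.2.re; a.2.im, b.2.im, c.2.im, d.2.im] := by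
  rw [det_eq]
  simp [ArrA_L_apply]

/-- The last real coordinate. -/
def ArrA_t : E →L[ℝ] ℝ := Complex.imCLM.comp (ContinuousLinearMap.snd ℝ ℂ ℂ)

theorem ArrA_t_apply (p : E) : ArrA_t p = p.2.im := rfl

theorem ArrA_gam (n : ℕ) (k e : ℤ) (m : ℤ × ℤ) (l : ℤ) : gam n k e m l = fun ξ =>
    ArrA_L (sg e, 0) (sg e * sg k * Complex.I, 0) (0, sg k) (0, Complex.I) ξ +
      (2 * β (ArrA_t ξ + n * k) m, ⟨2 * l, n * k⟩) := by
  funext ξ
  rw [ArrA_L_apply, ArrA_t_apply]
  refine Prod.ext (Complex.ext ?_ ?_) (Complex.ext ?_ ?_) <;> simp [gam, cj] <;> ring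

theorem contDiff_gam (n : ℕ) (k e : ℤ) (m : ℤ × ℤ) (l : ℤ) : ContDiff ℝ ∞ (gam n k e m l) := by
  rw [ArrA_gam]
  exact (ContinuousLinearMap.contDiff _).add ((contDiff_const.mul ((contDiff_β m).comp
    (ArrA_t.contDiff.add contDiff_const))).prodMk contDiff_const)

theorem det_gam (n : ℕ) (k e : ℤ) (m : ℤ × ℤ) (l : ℤ) (a : E) :
    0 < (fderiv ℝ (gam n k e m l) a).det := by
  have h1 : DifferentiableAt ℝ (fun t : ℝ => 2 * β (t + n * k) m) (ArrA_t a) :=
    (contDiff_const.mul ((contDiff_β m).comp (contDiff_id.add contDiff_const))).differentiable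
      (by simp) _
  obtain ⟨w, hw⟩ : ∃ w, HasDerivAt (fun t : ℝ => 2 * β (t + n * k) m) w (ArrA_t a) :=
    ⟨_, h1.hasDerivAt⟩
  have h2 := (ArrA_L (sg e, 0) (sg e * sg k * Complex.I, 0) (0, sg k)
    (0, Complex.I)).hasFDerivAt.add ((hw.hasFDerivAt.comp a ArrA_t.hasFDerivAt).prodMk
      (hasFDerivAt_const (⟨2 * l, n * k⟩ : ℂ) a))
  have h3 : HasFDerivAt (gam n k e m l) (ArrA_L (sg e, 0) (sg e * sg k * Complex.I, 0) (0, sg k)
      (w, Complex.I)) a := by
    rw [ArrA_gam]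
    refine h2.congr_fderiv ?_
    refine ContinuousLinearMap.ext fun p => ?_
    refine Prod.ext ?_ ?_ <;> simp [ArrA_L_apply, ArrA_t_apply]
  rw [h3.fderiv, ArrA_L_det]
  simp [Matrix.det_succ_row_zero, Fin.sum_univ_succ, Fin.succAbove]
  have h4 := sg_mul_self e
  have h5 := sg_mul_self k
  have h6 : sg e * (sg e * sg k * sg k) = 1 := by
    rw [mul_assoc (sg e), h5, mul_one, h4]
  rw [h6]
  exact one_pos

/-- The logarithm of the position in the tube. -/
def ArrA_l : E →L[ℝ] ℂ :=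
  (Complex.reCLM.comp (ContinuousLinearMap.snd ℝ ℂ ℂ)).smulRight 1 +
  (Complex.reCLM.comp (ContinuousLinearMap.fst ℝ ℂ ℂ)).smulRight (Real.pi / 2 * Complex.I)

theorem ArrA_l_apply (p : E) :
    ArrA_l p = p.2.re • (1 : ℂ) + p.1.re • ((Real.pi : ℂ) / 2 * Complex.I) := rfl

theorem ArrA_tube (n : ℕ) (i : I4) : tube n i = fun α =>
    ArrA_L 0 (0, 1) 0 (0, (n / Real.pi : ℝ) * Complex.I) α +
      (β (n * ArrA_t α / Real.pi) (rep i) + Complex.exp (ArrA_l α), 0) := by
  funext α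
  rw [ArrA_L_apply, ArrA_t_apply, ArrA_l_apply]
  refine Prod.ext ?_ (Complex.ext ?_ ?_)
  · simp only [tube, ex, Prod.fst_add, Prod.smul_fst, Prod.fst_zero, smul_zero, zero_add,
      Complex.exp_add, Complex.real_smul, mul_one, Complex.ofReal_exp]
    congr 3
    push_cast
    ring
  · simp only [tube, Prod.snd_add, Prod.smul_snd, smul_zero, zero_add, add_zero,
      Complex.add_re, Complex.smul_re, Complex.one_re, Complex.mul_re, Complex.ofReal_re,
      Complex.ofReal_im, Complex.I_re, Complex.I_im, smul_eq_mul]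
    ring
  · simp only [tube, Prod.snd_add, Prod.smul_snd, smul_zero, zero_add, add_zero,
      Complex.add_im, Complex.smul_im, Complex.one_im, Complex.mul_im, Complex.ofReal_re,
      Complex.ofReal_im, Complex.I_re, Complex.I_im, smul_eq_mul]
    ring

theorem contDiff_tube (n : ℕ) (i : I4) : ContDiff ℝ ∞ (tube n i) := by
  rw [ArrA_tube]
  exact (ContinuousLinearMap.contDiff _).add ((((contDiff_β (rep i)).comp
    ((contDiff_const.mul ArrA_t.contDiff).div_const _)).add ArrA_l.contDiff.cexp).prodMk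
      contDiff_const)

theorem det_tube {n : ℕ} (hn : n ≠ 0) (i : I4) (a : E) : 0 < (fderiv ℝ (tube n i) a).det := by
  have h1 : DifferentiableAt ℝ (fun t : ℝ => β (n * t / Real.pi) (rep i)) (ArrA_t a) :=
    ((contDiff_β (rep i)).comp ((contDiff_const.mul contDiff_id).div_const _)).differentiable
      (by simp) _
  obtain ⟨w, hw⟩ : ∃ w, HasDerivAt (fun t : ℝ => β (n * t / Real.pi) (rep i)) w (ArrA_t a) :=
    ⟨_, h1.hasDerivAt⟩
  have h2 := (ArrA_L 0 (0, 1) 0 (0, (n / Real.pi : ℝ) * Complex.I)).hasFDerivAt.add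
    (((hw.hasFDerivAt.comp a ArrA_t.hasFDerivAt).add ArrA_l.hasFDerivAt.cexp).prodMk
      (hasFDerivAt_const (0 : ℂ) a))
  obtain ⟨z, hz⟩ : ∃ z, z = Complex.exp (ArrA_l a) := ⟨_, rfl⟩
  have hz0 : z ≠ 0 := hz ▸ Complex.exp_ne_zero _
  rw [← hz] at h2
  obtain ⟨c, hc⟩ : ∃ c : ℝ, c = n / Real.pi := ⟨_, rfl⟩
  have hc0 : 0 < c := by
    rw [hc]
    exact div_pos (Nat.cast_pos.2 (Nat.pos_of_ne_zero hn)) Real.pi_pos
  have h3 : HasFDerivAt (tube n i) (ArrA_L (z * (Real.pi / 2 * Complex.I), 0) (0, 1) (z, 0)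
      (w, c * Complex.I)) a := by
    rw [ArrA_tube]
    refine h2.congr_fderiv ?_
    rw [← hc]
    refine ContinuousLinearMap.ext fun p => ?_
    refine Prod.ext ?_ ?_
    · simp [ArrA_L_apply, ArrA_t_apply, ArrA_l_apply]
      ring
    · simp [ArrA_L_apply]
  rw [h3.fderiv, ArrA_L_det]
  simp [Matrix.det_succ_row_zero, Fin.sum_univ_succ, Fin.succAbove]
  have h4 := Complex.normSq_pos.2 hz0
  rw [Complex.normSq_apply] at h4
  have h5 := mul_pos (mul_pos h4 Real.pi_pos) hc0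
  nlinarith

end HK3
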