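import Pool.Agent.P.MP_9699e0_gt.RelA

/-! Domains of the arrows. -/

set_option autoImplicit false
set_option linter.unusedSectionVars false

noncomputable section

namespace HK3

open Pool.Agent.P.MP_9699e0_gt Set Filter Topology
open scoped ContDiff

theorem ArrB_W2 : IsOpen W2 := by
  have e : W2 = {α : E | ‖α.2‖ < ρ} ∩ ({α : E | α.2 ≠ 0} ∪ Prod.fst ⁻¹' Pn) := by
    ext α
    exact and_congr_right fun _ => imp_iff_not_or
  rw [e]
  exact (isOpen_lt (by fun_prop) continuous_const).inter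
    ((isOpen_ne_fun continuous_snd continuous_const).union (isOpen_Pn.preimage continuous_fst))

theorem ArrB_W3 : IsOpen W3 :=
  (isOpen_lt (f := fun p : E => ‖p.1‖) (by fun_prop) continuous_const).inter
    (isOpen_lt (f := fun p : E => ‖p.1‖ * ‖p.2‖ ^ 2) (by fun_prop) continuous_const)

theorem ArrB_W4 : IsOpen W4 :=
  (isOpen_lt (f := fun p : E => ‖p.2‖) (by fun_prop) continuous_const).inter
    (isOpen_lt (f := fun p : E => ‖p.1‖ ^ 2 * ‖p.2‖) (by fun_prop) continuous_const)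

theorem ArrB_sq {x : ℂ} (h : ‖x‖ < ρ) : ‖x‖ ^ 2 < ρ ^ 2 :=
  pow_lt_pow_left₀ h (norm_nonneg _) two_ne_zero

theorem ArrB_smul {a : ℝ} (h0 : 0 ≤ a) (h1 : a ≤ 1) (x : ℂ) : ‖a • x‖ ≤ ‖x‖ := by
  rw [norm_smul, Real.norm_of_nonneg h0]
  exact mul_le_of_le_one_left (norm_nonneg _) h1

theorem md_opn (n : ℕ) (k : K) : IsOpen ((md n).W k) := by
  cases k
  exacts [isOpen_W0, ArrB_W2, ArrB_W3, ArrB_W4]

theorem md_dopn (n : ℕ) (r : Ar) : IsOpen ((md n).D r) := by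
  cases r with
  | g k e m l => exact isOpen_W0
  | t i e m => exact ArrB_W2
  | u i ϑ =>
    exact (isOpen_lt (f := fun α : E => ‖α.2‖) (by fun_prop) continuous_const).inter
      (Complex.isOpen_slitPlane.preimage
        (f := fun α : E => α.2 * Complex.exp (-(ϑ * Complex.I))) (by fun_prop))
  | v i c =>
    exact (isOpen_lt (f := fun α : E => ‖α.1 - gi (rep c)‖) (by fun_prop) continuous_const).inter
      ((isOpen_lt (f := fun α : E => ‖α.2‖) (by fun_prop) continuous_const).inter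
        (isOpen_ne_fun continuous_fst continuous_const))
  | w i c =>
    exact (isOpen_lt (f := fun α : E => ‖α.1 - gi (rep c)‖) (by fun_prop) continuous_const).inter
      ((isOpen_lt (f := fun α : E => ‖α.2‖) (by fun_prop) continuous_const).inter
        (isOpen_ne_fun continuous_snd continuous_const))
  | x i c => exact ArrB_W3.inter (isOpen_ne_fun continuous_snd continuous_const)

theorem md_dsub (n : ℕ) (r : Ar) : (md n).D r ⊆ (md n).W ((md n).src r) := by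
  cases r with
  | g k e m l => exact Subset.rfl
  | t i e m => exact Subset.rfl
  | u i ϑ =>
    rintro α ⟨h1, h2⟩
    exact ⟨h1, fun h => absurd (by rw [h, zero_mul]) (Complex.slitPlane_ne_zero h2)⟩
  | v i c =>
    rintro α ⟨h1, h2, h3⟩
    refine ⟨h2, fun _ m hm => ?_⟩
    have h4 : m + -rep c ≠ 0 := fun e => h3 (by rw [hm, add_neg_eq_zero.1 e])
    have h5 := one_le_gi h4
    rw [gi_add, gi_neg, ← hm, ← sub_eq_add_neg] at h5
    have h6 : ρ < 1 := by norm_num [ρ]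
    linarith
  | w i c =>
    rintro α ⟨-, h2, h3⟩
    exact ⟨h2, fun h => absurd h h3⟩
  | x i c => exact fun p hp => hp.1

theorem md_maps {n : ℕ} (hn : Odd n) (r : Ar) :
    MapsTo ((md n).g r) ((md n).D r) ((md n).W ((md n).tgt r)) := by
  cases r with
  | g k e m l => exact fun ξ h => gam_mem hn k e m l h
  | t i e m => exact fun α h => trn_mem e m h
  | u i ϑ =>
    rintro α ⟨h1, h2⟩
    refine tube_mem i ?_
    have h3 : ‖Complex.exp (-(ϑ * Complex.I))‖ = 1 := by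
      rw [Complex.norm_exp]
      simp
    have h4 : (Complex.log (α.2 * Complex.exp (-(ϑ * Complex.I))) + ϑ * Complex.I).re =
        Real.log ‖α.2 * Complex.exp (-(ϑ * Complex.I))‖ := by
      rw [Complex.add_re, Complex.log_re]
      simp
    change Real.exp (Complex.log (α.2 * Complex.exp (-(ϑ * Complex.I))) + ϑ * Complex.I).re < ρ
    rw [h4, Real.exp_log (norm_pos_iff.2 (Complex.slitPlane_ne_zero h2)), norm_mul, h3, mul_one]
    exact h1
  | v i c =>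
    rintro α ⟨h1, h2, h3⟩
    have h4 : ‖α.1 - gi (rep c)‖ ≠ 0 := norm_ne_zero_iff.2 (sub_ne_zero.2 h3)
    refine ⟨?_, ?_⟩
    · change ‖(α.1 - gi (rep c)) ^ 2‖ < ρ ^ 2
      rw [norm_pow]
      exact ArrB_sq h1
    · change ‖(α.1 - gi (rep c)) ^ 2‖ * ‖α.2 / (α.1 - gi (rep c))‖ ^ 2 < ρ ^ 2
      rw [norm_pow, norm_div, ← mul_pow, mul_div_cancel₀ _ h4]
      exact ArrB_sq h2
  | w i c =>
    rintro α ⟨h1, h2, h3⟩
    have h4 : ‖α.2‖ ≠ 0 := norm_ne_zero_iff.2 h3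
    refine ⟨?_, ?_⟩
    · change ‖α.2 ^ 2‖ < ρ ^ 2
      rw [norm_pow]
      exact ArrB_sq h2
    · change ‖(α.1 - gi (rep c)) / α.2‖ ^ 2 * ‖α.2 ^ 2‖ < ρ ^ 2
      rw [norm_pow, norm_div, ← mul_pow, div_mul_cancel₀ _ h4]
      exact ArrB_sq h1
  | x i c =>
    rintro p ⟨⟨h1, h2⟩, h3⟩
    have h4 : ‖p.2‖ ≠ 0 := norm_ne_zero_iff.2 h3
    refine ⟨?_, ?_⟩
    · change ‖p.1 * p.2 ^ 2‖ < ρ ^ 2
      rwa [norm_mul, norm_pow]
    · change ‖p.2⁻¹‖ ^ 2 * ‖p.1 * p.2 ^ 2‖ < ρ ^ 2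
      have e : ‖p.2⁻¹‖ ^ 2 * ‖p.1 * p.2 ^ 2‖ = ‖p.1‖ := by
        rw [norm_mul, norm_pow, norm_inv]
        field_simp
      rwa [e]

theorem star_W3 : StarConvex ℝ (0 : E) W3 ∧ (0 : E) ∈ W3 := by
  refine ⟨starConvex_zero_iff.2 fun p hp a h0 h1 => ?_, by constructor <;> simp [ρ]⟩
  have h2 := ArrB_smul h0 h1 p.1
  have h3 := ArrB_smul h0 h1 p.2
  refine ⟨h2.trans_lt hp.1, lt_of_le_of_lt ?_ hp.2⟩
  change ‖a • p.1‖ * ‖a • p.2‖ ^ 2 ≤ _
  gcongr

theorem star_W4 : StarConvex ℝ (0 : E) W4 ∧ (0 : E) ∈ W4 := by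
  refine ⟨starConvex_zero_iff.2 fun p hp a h0 h1 => ?_, by constructor <;> simp [ρ]⟩
  have h2 := ArrB_smul h0 h1 p.1
  have h3 := ArrB_smul h0 h1 p.2
  refine ⟨h3.trans_lt hp.1, lt_of_le_of_lt ?_ hp.2⟩
  change ‖a • p.1‖ ^ 2 * ‖a • p.2‖ ≤ _
  gcongr

end HK3
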