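import Pool.Agent.P.MP_9699e0_gt.ArrA
import Pool.Agent.P.MP_9699e0_gt.ArrB

/-! Smoothness and orientation of the arrows. -/

set_option autoImplicit false
set_option linter.unusedSectionVars false

noncomputable section

namespace HK3

open Pool.Agent.P.MP_9699e0_gt Set Filter Topology
open scoped ContDiff

theorem ArrC_det {g : E → E} {a : E} {D : E →L[ℂ] E} (h : HasFDerivAt g D a) (p q r s : ℂ)
    (e : ∀ x y, D (x, y) = (p * x + q * y, r * x + s * y)) (hd : p * s - q * r ≠ 0) :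
    0 < (fderiv ℝ g a).det := by
  refine det_holo h ((injective_iff_map_eq_zero D).2 ?_)
  rintro ⟨x, y⟩ h0
  rw [e, Prod.mk_eq_zero] at h0
  refine Prod.mk_eq_zero.2 ⟨mul_left_cancel₀ hd ?_, mul_left_cancel₀ hd ?_⟩
  · linear_combination s * h0.1 - q * h0.2
  · linear_combination p * h0.2 - r * h0.1

theorem ArrC_det_comp (A B : E →L[ℝ] E) : (A.comp B).det = A.det * B.det :=
  LinearMap.det_comp (A : E →ₗ[ℝ] E) (B : E →ₗ[ℝ] E)

theorem ArrC_inv {φ : E → ℂ} {D : E →L[ℂ] ℂ} {a : E} (h : HasFDerivAt φ D a) (h0 : φ a ≠ 0) :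
    HasFDerivAt (fun x => (φ x)⁻¹) ((-(φ a ^ 2)⁻¹) • D) a :=
  (hasDerivAt_inv h0).comp_hasFDerivAt a h

theorem ArrC_log_smooth (ϑ : ℝ) {α : E}
    (h : α.2 * Complex.exp (-(ϑ * Complex.I)) ∈ Complex.slitPlane) :
    ContDiffAt ℝ ∞ (fun α : E =>
      (α.1, Complex.log (α.2 * Complex.exp (-(ϑ * Complex.I))) + ϑ * Complex.I)) α := by
  have h1 : ContDiffAt ℂ ∞ (fun α : E => α.2 * Complex.exp (-(ϑ * Complex.I))) α := by fun_prop
  exact (contDiffAt_fst.prodMk (((Complex.contDiffAt_log h).comp α h1).add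
    contDiffAt_const)).restrict_scalars ℝ

theorem md_smooth (n : ℕ) (r : Ar) : ContDiffOn ℝ ∞ ((md n).g r) ((md n).D r) := by
  cases r with
  | g k e m l => exact (contDiff_gam n k e m l).contDiffOn
  | t i e m =>
    have h : ContDiff ℝ ∞ (trn e m) := by unfold trn; fun_prop
    exact h.contDiffOn
  | u i ϑ =>
    intro α hα
    exact ((contDiff_tube n i).contDiffAt.comp α (ArrC_log_smooth ϑ hα.2)).contDiffWithinAt
  | v i c =>
    intro α hα
    have h0 : α.1 - gi (rep c) ≠ 0 := sub_ne_zero.2 hα.2.2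
    have h : ContDiffAt ℂ ∞ (fun α : E =>
        ((α.1 - gi (rep c)) ^ 2, α.2 / (α.1 - gi (rep c)))) α := by fun_prop (disch := assumption)
    exact (h.restrict_scalars ℝ).contDiffWithinAt
  | w i c =>
    intro α hα
    have h0 : α.2 ≠ 0 := hα.2.2
    have h : ContDiffAt ℂ ∞ (fun α : E => ((α.1 - gi (rep c)) / α.2, α.2 ^ 2)) α := by
      fun_prop (disch := assumption)
    exact (h.restrict_scalars ℝ).contDiffWithinAt
  | x i c =>
    intro α hα
    have h0 : α.2 ≠ 0 := hα.2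
    have h : ContDiffAt ℂ ∞ (fun p : E => (p.2⁻¹, p.1 * p.2 ^ 2)) α := by
      fun_prop (disch := assumption)
    exact (h.restrict_scalars ℝ).contDiffWithinAt

theorem md_det {n : ℕ} (hn : Odd n) (r : Ar) :
    ∀ a ∈ (md n).D r, 0 < (fderiv ℝ ((md n).g r) a).det := by
  intro α hα
  have f1 : HasFDerivAt (fun p : E => p.1) (ContinuousLinearMap.fst ℂ ℂ ℂ) α := hasFDerivAt_fst
  have f2 : HasFDerivAt (fun p : E => p.2) (ContinuousLinearMap.snd ℂ ℂ ℂ) α := hasFDerivAt_snd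
  cases r with
  | g k e m l => exact det_gam n k e m l α
  | t i e m =>
    have h0 : ((sg e : ℝ) : ℂ) * sg e = 1 := by exact_mod_cast sg_mul_self e
    refine ArrC_det (((f1.const_mul (sg e : ℂ)).add_const (2 * gi m)).prodMk
      (f2.const_mul (sg e : ℂ))) (sg e) 0 0 (sg e) (fun x y => by simp) ?_
    rw [h0]
    simp
  | u i ϑ =>
    have h0 : α.2 * Complex.exp (-(ϑ * Complex.I)) ∈ Complex.slitPlane := hα.2
    have h1 := Complex.slitPlane_ne_zero h0
    have h2 := f1.prodMk (((f2.mul_const (Complex.exp (-(ϑ * Complex.I)))).clog h0).add_const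
      (ϑ * Complex.I))
    have h3 := ArrC_det h2 1 0 0
      ((α.2 * Complex.exp (-(ϑ * Complex.I)))⁻¹ * Complex.exp (-(ϑ * Complex.I)))
      (fun x y => by simp [mul_assoc]) (by
        rw [one_mul, zero_mul, sub_zero]
        exact mul_ne_zero (inv_ne_zero h1) (Complex.exp_ne_zero _))
    have h4 := fderiv_comp α ((contDiff_tube n i).differentiable (by simp) _)
      (h2.restrictScalars ℝ).differentiableAt
    have h5 : (md n).g (.u i ϑ) = tube n i ∘ fun α : E =>
        (α.1, Complex.log (α.2 * Complex.exp (-(ϑ * Complex.I))) + ϑ * Complex.I) := rfl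
    rw [h5, h4, ArrC_det_comp]
    exact mul_pos (det_tube hn.pos.ne' i _) h3
  | v i c =>
    have h0 : α.1 - gi (rep c) ≠ 0 := sub_ne_zero.2 hα.2.2
    have h1 := f1.sub_const (gi (rep c))
    have h2 := (h1.mul h1).prodMk (f2.mul (ArrC_inv h1 h0))
    have h5 : (md n).g (.v i c) = fun α : E => ((α.1 - gi (rep c)) * (α.1 - gi (rep c)),
        α.2 * (α.1 - gi (rep c))⁻¹) := by
      funext α
      simp only [md, sq, div_eq_mul_inv]
    rw [h5]
    refine ArrC_det h2 (2 * (α.1 - gi (rep c))) 0 (-(α.2 * ((α.1 - gi (rep c)) ^ 2)⁻¹))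
      (α.1 - gi (rep c))⁻¹ (fun x y => ?_) ?_
    · refine Prod.ext ?_ ?_ <;> simp <;> ring
    · rw [zero_mul, sub_zero]
      exact mul_ne_zero (mul_ne_zero two_ne_zero h0) (inv_ne_zero h0)
  | w i c =>
    have h0 : α.2 ≠ 0 := hα.2.2
    have h1 := f1.sub_const (gi (rep c))
    have h2 := (h1.mul (ArrC_inv f2 h0)).prodMk (f2.mul f2)
    have h5 : (md n).g (.w i c) = fun α : E => ((α.1 - gi (rep c)) * α.2⁻¹, α.2 * α.2) := by
      funext α
      simp only [md, sq, div_eq_mul_inv]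
    rw [h5]
    refine ArrC_det h2 α.2⁻¹ (-((α.1 - gi (rep c)) * (α.2 ^ 2)⁻¹)) 0 (2 * α.2) (fun x y => ?_) ?_
    · refine Prod.ext ?_ ?_ <;> simp <;> ring
    · rw [mul_zero, sub_zero]
      exact mul_ne_zero (inv_ne_zero h0) (mul_ne_zero two_ne_zero h0)
  | x i c =>
    have h0 : α.2 ≠ 0 := hα.2
    have h2 := (ArrC_inv f2 h0).prodMk (f1.mul (f2.mul f2))
    have h5 : (md n).g (.x i c) = fun p : E => (p.2⁻¹, p.1 * (p.2 * p.2)) := by
      funext α
      simp only [md, sq]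
    rw [h5]
    refine ArrC_det h2 0 (-(α.2 ^ 2)⁻¹) (α.2 ^ 2) (2 * α.1 * α.2) (fun x y => ?_) ?_
    · refine Prod.ext ?_ ?_ <;> simp <;> ring
    · rw [zero_mul, zero_sub, neg_mul, neg_neg, inv_mul_cancel₀ (pow_ne_zero 2 h0)]
      exact one_ne_zero

theorem md_ok {n : ℕ} (hn : Odd n) : (md n).Ok :=
  ⟨md_opn n, md_dopn n, md_dsub n, md_maps hn, md_smooth n, md_det hn⟩

end HK3
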