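import Pool.Agent.P.MP_9699e0_gt.ChDefs

/-! Faces, boundaries, evaluation of cochains. -/

set_option autoImplicit false
set_option linter.unusedSectionVars false

noncomputable section

namespace HK3

open Pool.Agent.P.MP_9699e0_gt Set Filter Topology
open scoped ContDiff

variable {R : Type} [CommRing R] {X Y Z : Type} [TopologicalSpace X] [TopologicalSpace Y]
  [TopologicalSpace Z]

theorem sub_sub {n k j : ℕ} (σ : Simp X n) (v : Fin (k + 1) → Fin (n + 1))
    (w : Fin (j + 1) → Fin (k + 1)) : sub (sub σ v) w = sub σ (v ∘ w) :=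
  ContinuousMap.ext fun x => congrArg σ (stdSimplex.map_comp_apply w v x)

theorem sub_id {n : ℕ} (σ : Simp X n) : sub σ id = σ :=
  ContinuousMap.ext fun x => congrArg σ (stdSimplex.map_id_apply x)

theorem vtx_sub {n k : ℕ} (σ : Simp X n) (v : Fin (k + 1) → Fin (n + 1)) (i : Fin (k + 1)) :
    vtx (sub σ v) i = vtx σ (v i) :=
  congrArg σ (stdSimplex.map_vertex v i)

theorem range_sub {n k : ℕ} (σ : Simp X n) (v : Fin (k + 1) → Fin (n + 1)) :
    range (sub σ v) ⊆ range σ := by
  rintro _ ⟨x, rfl⟩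
  exact ⟨_, rfl⟩

theorem bd_single (n : ℕ) (σ : Simp X (n + 1)) (r : R) : bd R X n (Finsupp.single σ r) =
    ∑ i : Fin (n + 2), (-1 : R) ^ (i : ℕ) • Finsupp.single (sub σ i.succAbove) r := by
  rw [bd, Finsupp.linearCombination_single, Finset.smul_sum]
  refine Finset.sum_congr rfl fun i _ => ?_
  rw [smul_comm, Finsupp.smul_single, smul_eq_mul, mul_one]

/-- The alternating double sum over the faces of faces vanishes. -/
theorem ChA_alt {A M : Type} [CommRing A] [AddCommGroup M] [Module A M] {n : ℕ}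
    (F : (Fin (n + 1) → Fin (n + 3)) → M) :
    ∑ i : Fin (n + 3), ∑ j : Fin (n + 2),
      (-1 : A) ^ (i : ℕ) • (-1 : A) ^ (j : ℕ) • F (i.succAbove ∘ j.succAbove) = 0 := by
  rw [← Finset.sum_product']
  refine Finset.sum_ninvolution (fun p => (p.1.succAbove p.2, p.2.predAbove p.1)) ?_ ?_ ?_ ?_
  · rintro ⟨i, j⟩
    have e : (i.succAbove j).succAbove ∘ (j.predAbove i).succAbove = i.succAbove ∘ j.succAbove :=
      funext fun k => Fin.succAbove_succAbove_succAbove_predAbove i j k
    simp only [e, smul_smul, ← pow_add]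
    rw [Fin.neg_one_pow_succAbove_add_predAbove, neg_smul, add_neg_cancel]
  · rintro ⟨i, j⟩ _ h
    exact Fin.succAbove_ne i j (congrArg Prod.fst h)
  · intro p
    simp
  · rintro ⟨i, j⟩
    simp only [Fin.succAbove_succAbove_predAbove, Fin.predAbove_predAbove_succAbove]

theorem bd_bd (n : ℕ) (c : Chn R X (n + 2)) : bd R X n (bd R X (n + 1) c) = 0 := by
  induction c using Finsupp.induction_linear with
  | zero => simp
  | add c d hc hd => rw [map_add, map_add, hc, hd, add_zero]
  | single σ r =>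
    rw [bd_single, map_sum]
    simp only [map_smul, bd_single, Finset.smul_sum, sub_sub]
    exact ChA_alt fun v => Finsupp.single (sub σ v) r

theorem aug_bd (c : Chn R X 1) : aug R (bd R X 0 c) = 0 := by
  induction c using Finsupp.induction_linear with
  | zero => simp
  | add c d hc hd => rw [map_add, map_add, hc, hd, add_zero]
  | single σ r =>
    rw [bd_single, map_sum]
    simp only [map_smul, aug, ev, Finsupp.linearCombination_single]
    simp [Fin.sum_univ_succ]

theorem ev_single {M : Type} [AddCommGroup M] [Module R M] {n : ℕ} (a : Simp X n → M)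
    (σ : Simp X n) (r : R) : ev R a (Finsupp.single σ r) = r • a σ :=
  Finsupp.linearCombination_single R r σ

theorem ev_bd {M : Type} [AddCommGroup M] [Module R M] {n : ℕ} (a : Simp X n → M)
    (c : Chn R X (n + 1)) : ev R a (bd R X n c) = ev R (cobd a) c := by
  induction c using Finsupp.induction_linear with
  | zero => simp
  | add c d hc hd => rw [map_add, map_add, map_add, hc, hd]
  | single σ r =>
    rw [bd_single, map_sum, ev_single, cobd, Finset.smul_sum]
    refine Finset.sum_congr rfl fun i _ => ?_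
    rw [map_smul, ev_single, smul_comm r, ← Int.cast_smul_eq_zsmul R]
    simp

theorem ev_add {M : Type} [AddCommGroup M] [Module R M] {n : ℕ} (a b : Simp X n → M)
    (c : Chn R X n) : ev R (a + b) c = ev R a c + ev R b c := by
  simp only [ev, Finsupp.linearCombination_apply, Finsupp.sum, Pi.add_apply, smul_add,
    Finset.sum_add_distrib]

theorem ev_neg {M : Type} [AddCommGroup M] [Module R M] {n : ℕ} (a : Simp X n → M)
    (c : Chn R X n) : ev R (-a) c = -ev R a c := by
  simp only [ev, Finsupp.linearCombination_apply, Finsupp.sum, Pi.neg_apply, smul_neg,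
    Finset.sum_neg_distrib]

theorem ev_cast {n : ℕ} (a : Simp X n → ℤ) (c : Chn ℤ X n) :
    ((ev ℤ a c : ℤ) : ℝ) = ev ℤ (fun σ => (a σ : ℝ)) c := by
  simp only [ev, Finsupp.linearCombination_apply, Finsupp.sum, smul_eq_mul, Int.cast_sum,
    Int.cast_mul, zsmul_eq_mul]

theorem ev_congr {M : Type} [AddCommGroup M] [Module R M] {n : ℕ} {P : ∀ n, Simp X n → Prop}
    {a b : Simp X n → M} {c : Chn R X n} (hc : c ∈ sml R P n) (h : ∀ σ, P n σ → a σ = b σ) :
    ev R a c = ev R b c := by
  simp only [ev, Finsupp.linearCombination_apply, Finsupp.sum]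
  exact Finset.sum_congr rfl fun σ hσ => by rw [h σ ((Finsupp.mem_supported R c).1 hc hσ)]

theorem ev_congr_chn {M : Type} [AddCommGroup M] [Module R M] {n : ℕ} {S : Set X}
    {a b : Simp X n → M} {c : Chn R X n} (hc : c ∈ chn R S n)
    (h : ∀ σ : Simp X n, range σ ⊆ S → a σ = b σ) : ev R a c = ev R b c :=
  ev_congr (P := fun _ σ => range σ ⊆ S) hc h

theorem cobd_cobd {M : Type} [AddCommGroup M] {n : ℕ} (a : Simp X n → M) :
    cobd (cobd a) = 0 := by
  funext σ
  simp only [cobd, Finset.smul_sum, sub_sub]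
  exact ChA_alt fun v => a (sub σ v)

theorem cobd_add {M : Type} [AddCommGroup M] {n : ℕ} (a b : Simp X n → M) :
    cobd (a + b) = cobd a + cobd b := by
  funext σ
  simp only [cobd, Pi.add_apply, smul_add, Finset.sum_add_distrib]

theorem cobd_neg {M : Type} [AddCommGroup M] {n : ℕ} (a : Simp X n → M) :
    cobd (-a) = -cobd a := by
  funext σ
  simp only [cobd, Pi.neg_apply, smul_neg, Finset.sum_neg_distrib]

theorem cobd_zsmul {M : Type} [AddCommGroup M] {n : ℕ} (m : ℤ) (a : Simp X n → M) :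
    cobd (m • a) = m • cobd a := by
  funext σ
  simp only [cobd, Pi.smul_apply, Finset.smul_sum]
  exact Finset.sum_congr rfl fun i _ => smul_comm _ _ _

theorem cobd_sum {M ι : Type} [AddCommGroup M] {n : ℕ} (T : Finset ι) (a : ι → Simp X n → M) :
    cobd (∑ i ∈ T, a i) = ∑ i ∈ T, cobd (a i) := by
  funext σ
  simp only [cobd, Finset.sum_apply, Finset.smul_sum]
  exact Finset.sum_comm

theorem cobd_cast {n : ℕ} (a : Simp X n → ℤ) (σ : Simp X (n + 1)) :
    ((cobd a σ : ℤ) : ℝ) = cobd (fun τ => (a τ : ℝ)) σ := by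
  simp only [cobd, smul_eq_mul, Int.cast_sum, Int.cast_mul, zsmul_eq_mul]

theorem cobd_pt {M : Type} [AddCommGroup M] (a : X → M) (σ : Simp X 1) :
    cobd (pt a) σ = a (vtx σ 1) - a (vtx σ 0) := by
  simp [cobd, pt, vtx_sub, Fin.sum_univ_succ, sub_eq_add_neg]

theorem cobd_congr {M : Type} [AddCommGroup M] {n : ℕ} {S : Set X} {a b : Simp X n → M}
    (h : ∀ σ : Simp X n, range σ ⊆ S → a σ = b σ) {τ : Simp X (n + 1)} (hτ : range τ ⊆ S) :
    cobd a τ = cobd b τ :=
  Finset.sum_congr rfl fun i _ => by rw [h _ ((range_sub τ _).trans hτ)]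

theorem Coh.refl (a : Simp X 2 → ℤ) : Coh a a :=
  ⟨0, by
    funext σ
    simp [cobd]⟩

theorem Coh.symm {a b : Simp X 2 → ℤ} (h : Coh a b) : Coh b a := by
  obtain ⟨u, rfl⟩ := h
  exact ⟨-u, by rw [cobd_neg, add_neg_cancel_right]⟩

theorem Coh.trans {a b c : Simp X 2 → ℤ} (h : Coh a b) (h' : Coh b c) : Coh a c := by
  obtain ⟨u, rfl⟩ := h
  obtain ⟨v, rfl⟩ := h'
  exact ⟨v + u, by rw [cobd_add, add_assoc]⟩

theorem Coh.add {a b a' b' : Simp X 2 → ℤ} (h : Coh a b) (h' : Coh a' b') :
    Coh (a + a') (b + b') := by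
  obtain ⟨u, rfl⟩ := h
  obtain ⟨v, rfl⟩ := h'
  exact ⟨u + v, by rw [cobd_add, add_add_add_comm]⟩

theorem Coh.zsmul {a b : Simp X 2 → ℤ} (m : ℤ) (h : Coh a b) : Coh (m • a) (m • b) := by
  obtain ⟨u, rfl⟩ := h
  exact ⟨m • u, by rw [cobd_zsmul, smul_add]⟩

end HK3
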