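import Pool.Agent.P.MP_9699e0_gt.ChA

/-! Basic properties of chains in subsets and of induced maps. -/

set_option autoImplicit false
set_option linter.unusedSectionVars false

noncomputable section

namespace HK3

open Pool.Agent.P.MP_9699e0_gt Set Filter Topology
open scoped ContDiff

variable {R : Type} [CommRing R] {X Y Z : Type} [TopologicalSpace X] [TopologicalSpace Y]
  [TopologicalSpace Z]

theorem ChB_mem {M : Type} [AddCommGroup M] [Module R M] {S : Set X} {n : ℕ}
    (A : Chn R X n →ₗ[R] M) {N : Submodule R M}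
    (h : ∀ σ : Simp X n, range σ ⊆ S → A (Finsupp.single σ 1) ∈ N) {c : Chn R X n}
    (hc : c ∈ chn R S n) : A c ∈ N := by
  have : chn R S n ≤ N.comap A := by
    rw [chn, Finsupp.supported_eq_span_single, Submodule.span_le]
    rintro _ ⟨σ, hσ, rfl⟩
    exact h σ hσ
  exact this hc

theorem ChB_ext {M : Type} [AddCommGroup M] [Module R M] {S : Set X} {n : ℕ}
    (A B : Chn R X n →ₗ[R] M)
    (h : ∀ σ : Simp X n, range σ ⊆ S → A (Finsupp.single σ 1) = B (Finsupp.single σ 1))
    {c : Chn R X n} (hc : c ∈ chn R S n) : A c = B c := by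
  have := ChB_mem (A - B) (N := ⊥) (fun σ hσ => by
    rw [LinearMap.sub_apply, h σ hσ, sub_self]; exact Submodule.zero_mem _) hc
  rwa [LinearMap.sub_apply, Submodule.mem_bot, sub_eq_zero] at this

theorem ChB_cont {f : X → Y} {S : Set X} (hf : ContinuousOn f S) {n : ℕ} {σ : Simp X n}
    (h : range σ ⊆ S) : Continuous (f ∘ σ) :=
  hf.comp_continuous σ.continuous fun t => h (mem_range_self t)

theorem ChB_smap {f : X → Y} {S : Set X} (hf : ContinuousOn f S) {n : ℕ} {σ : Simp X n}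
    (h : range σ ⊆ S) : smap f σ = ⟨f ∘ σ, ChB_cont hf h⟩ := dif_pos _

theorem single_mem {S : Set X} {n : ℕ} {σ : Simp X n} (h : range σ ⊆ S) (r : R) :
    Finsupp.single σ r ∈ chn R S n :=
  Finsupp.single_mem_supported R r h

theorem mem_chn_iff {S : Set X} {n : ℕ} {c : Chn R X n} :
    c ∈ chn R S n ↔ ∀ σ ∈ c.support, range σ ⊆ S :=
  Finsupp.mem_supported R c

theorem chn_mono {S T : Set X} (h : S ⊆ T) (n : ℕ) : chn R S n ≤ chn R T n :=
  Finsupp.supported_mono fun _ hσ => Subset.trans hσ h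

theorem cyc_mono {S T : Set X} (h : S ⊆ T) (n : ℕ) : cyc R S n ≤ cyc R T n := by
  cases n with
  | zero => exact chn_mono h 0
  | succ n => exact inf_le_inf_right _ (chn_mono h _)

theorem bdy_mono {S T : Set X} (h : S ⊆ T) (n : ℕ) : bdy R S n ≤ bdy R T n :=
  Submodule.map_mono (chn_mono h _)

theorem chn_inter (S T : Set X) (n : ℕ) : chn R (S ∩ T) n = chn R S n ⊓ chn R T n := by
  ext c
  simp only [Submodule.mem_inf, mem_chn_iff, subset_inter_iff]
  exact ⟨fun h => ⟨fun σ hσ => (h σ hσ).1, fun σ hσ => (h σ hσ).2⟩,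
    fun h σ hσ => ⟨h.1 σ hσ, h.2 σ hσ⟩⟩

theorem chn_univ (n : ℕ) : chn R (univ : Set X) n = ⊤ :=
  eq_top_iff.2 fun _ _ => mem_chn_iff.2 fun _ _ => subset_univ _

theorem chn_empty (n : ℕ) : chn R (∅ : Set X) n = ⊥ := by
  refine eq_bot_iff.2 fun c hc => ?_
  rw [Submodule.mem_bot, ← Finsupp.support_eq_empty, Finset.eq_empty_iff_forall_notMem]
  exact fun σ hσ => mem_chn_iff.1 hc σ hσ (mem_range_self (stdSimplex.vertex 0))

theorem bd_mem {S : Set X} {n : ℕ} {c : Chn R X (n + 1)} (h : c ∈ chn R S (n + 1)) :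
    bd R X n c ∈ chn R S n := by
  refine ChB_mem _ (fun σ hσ => ?_) h
  rw [bd_single]
  exact Submodule.sum_mem _ fun i _ =>
    Submodule.smul_mem _ _ (single_mem ((range_sub σ _).trans hσ) 1)

theorem cyc_le (S : Set X) (n : ℕ) : cyc R S n ≤ chn R S n := by
  cases n with
  | zero => exact le_rfl
  | succ n => exact inf_le_left

theorem bdy_le (S : Set X) (n : ℕ) : bdy R S n ≤ cyc R S n := by
  rintro _ ⟨c, hc, rfl⟩
  cases n with
  | zero => exact bd_mem hc
  | succ n => exact ⟨bd_mem hc, bd_bd n c⟩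

theorem mem_cyc {S T : Set X} {n : ℕ} {c : Chn R X n} (h : c ∈ cyc R S n) (h' : c ∈ chn R T n) :
    c ∈ cyc R T n := by
  cases n with
  | zero => exact h'
  | succ n => exact ⟨h', h.2⟩

/-- Every chain lies in a compact set. -/
theorem exists_compact {S : Set X} {n : ℕ} {c : Chn R X n} (h : c ∈ chn R S n) :
    ∃ K, IsCompact K ∧ K ⊆ S ∧ c ∈ chn R K n := by
  refine ⟨⋃ σ ∈ c.support, range σ, c.support.isCompact_biUnion fun σ _ =>
    isCompact_range σ.continuous, iUnion₂_subset (mem_chn_iff.1 h), mem_chn_iff.2 fun σ hσ => ?_⟩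
  exact subset_biUnion_of_mem (u := fun σ : Simp X n => range σ) (Finset.mem_coe.2 hσ)

/-- A chain that is a sum of chains in `A` and in `B` and lies in `S`. -/
theorem mem_sup_inter {A B S : Set X} {n : ℕ} {c : Chn R X n} (h : c ∈ chn R A n ⊔ chn R B n)
    (h' : c ∈ chn R S n) : c ∈ chn R (S ∩ A) n ⊔ chn R (S ∩ B) n := by
  rw [chn, chn, ← Finsupp.supported_union] at h ⊢
  intro σ hσ
  have h1 := mem_chn_iff.1 h' σ hσ
  rcases h hσ with h2 | h2
  · exact Or.inl (subset_inter h1 h2)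
  · exact Or.inr (subset_inter h1 h2)

theorem smap_apply {f : X → Y} {S : Set X} (hf : ContinuousOn f S) {n : ℕ} {σ : Simp X n}
    (h : range σ ⊆ S) (t : Dl n) : smap f σ t = f (σ t) := by
  rw [ChB_smap hf h]
  rfl

theorem smap_coe (g : C(X, Y)) {n : ℕ} (σ : Simp X n) : smap g σ = g.comp σ :=
  ChB_smap g.continuous.continuousOn (subset_univ _)

theorem smap_sub {f : X → Y} {S : Set X} (hf : ContinuousOn f S) {n k : ℕ} {σ : Simp X n}
    (h : range σ ⊆ S) (v : Fin (k + 1) → Fin (n + 1)) : smap f (sub σ v) = sub (smap f σ) v := by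
  rw [ChB_smap hf h, ChB_smap hf ((range_sub σ v).trans h)]
  rfl

theorem cmap_single (f : X → Y) {n : ℕ} (σ : Simp X n) (r : R) :
    cmap R f n (Finsupp.single σ r) = Finsupp.single (smap f σ) r :=
  Finsupp.mapDomain_single

theorem cmap_bd {f : X → Y} {S : Set X} (hf : ContinuousOn f S) {n : ℕ} {c : Chn R X (n + 1)}
    (h : c ∈ chn R S (n + 1)) : bd R Y n (cmap R f (n + 1) c) = cmap R f n (bd R X n c) := by
  refine ChB_ext ((bd R Y n).comp (cmap R f (n + 1))) ((cmap R f n).comp (bd R X n))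
    (fun σ hσ => ?_) h
  simp only [LinearMap.comp_apply, cmap_single, bd_single, map_sum, map_smul, smap_sub hf hσ]

theorem cmap_mem {f : X → Y} {S : Set X} {T : Set Y} (hf : ContinuousOn f S) (hT : MapsTo f S T)
    {n : ℕ} {c : Chn R X n} (h : c ∈ chn R S n) : cmap R f n c ∈ chn R T n := by
  refine ChB_mem _ (fun σ hσ => ?_) h
  rw [cmap_single]
  refine single_mem ?_ 1
  rintro _ ⟨t, rfl⟩
  rw [smap_apply hf hσ]
  exact hT (hσ (mem_range_self t))

theorem cmap_cyc {f : X → Y} {S : Set X} {T : Set Y} (hf : ContinuousOn f S) (hT : MapsTo f S T)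
    {n : ℕ} {c : Chn R X n} (h : c ∈ cyc R S n) : cmap R f n c ∈ cyc R T n := by
  cases n with
  | zero => exact cmap_mem hf hT h
  | succ n =>
    refine ⟨cmap_mem hf hT h.1, ?_⟩
    have h2 : bd R X n c = 0 := h.2
    change bd R Y n _ = 0
    rw [cmap_bd hf h.1, h2, map_zero]

theorem cmap_bdy {f : X → Y} {S : Set X} {T : Set Y} (hf : ContinuousOn f S) (hT : MapsTo f S T)
    {n : ℕ} {c : Chn R X n} (h : c ∈ bdy R S n) : cmap R f n c ∈ bdy R T n := by
  obtain ⟨d, hd, rfl⟩ := h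
  exact ⟨_, cmap_mem hf hT hd, cmap_bd hf hd⟩

theorem cmap_comp {f : X → Y} {g : Y → Z} {S : Set X} (hf : ContinuousOn f S) {n : ℕ}
    {c : Chn R X n} (h : c ∈ chn R S n) : cmap R g n (cmap R f n c) = cmap R (g ∘ f) n c := by
  refine ChB_ext ((cmap R g n).comp (cmap R f n)) _ (fun σ hσ => ?_) h
  rw [LinearMap.comp_apply, cmap_single, cmap_single, cmap_single, ChB_smap hf hσ]
  rfl

theorem cmap_congr {f g : X → Y} {S : Set X} (h : EqOn f g S) {n : ℕ} {c : Chn R X n}
    (hc : c ∈ chn R S n) : cmap R f n c = cmap R g n c := by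
  refine ChB_ext _ _ (fun σ hσ => ?_) hc
  have e : f ∘ σ = g ∘ σ := funext fun t => h (hσ (mem_range_self t))
  have e' : f (σ (stdSimplex.vertex 0)) = g (σ (stdSimplex.vertex 0)) := congrFun e _
  rw [cmap_single, cmap_single]
  congr 1
  unfold smap
  by_cases hc : Continuous (f ∘ σ)
  · rw [dif_pos hc, dif_pos (e ▸ hc)]
    exact ContinuousMap.ext fun t => congrFun e t
  · rw [dif_neg hc, dif_neg (e ▸ hc), e']

theorem cmap_id {n : ℕ} (c : Chn R X n) : cmap R id n c = c := by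
  refine ChB_ext (S := univ) (cmap R id n) (LinearMap.id : Chn R X n →ₗ[R] Chn R X n)
    (fun σ hσ => ?_) (mem_chn_iff.2 fun _ _ => subset_univ _)
  rw [cmap_single, ChB_smap continuousOn_id hσ]
  rfl

theorem ev_cmap {M : Type} [AddCommGroup M] [Module R M] {n : ℕ} (a : Simp Y n → M) (f : X → Y)
    (c : Chn R X n) : ev R a (cmap R f n c) = ev R (fun σ => a (smap f σ)) c := by
  refine ChB_ext (S := univ) ((ev R a).comp (cmap R f n)) _ (fun σ _ => ?_)
    (mem_chn_iff.2 fun _ _ => subset_univ _)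
  rw [LinearMap.comp_apply, cmap_single, ev_single, ev_single]

theorem aug_cmap (f : X → Y) (c : Chn R X 0) : aug R (cmap R f 0 c) = aug R c :=
  ev_cmap _ f c

theorem cobd_smap {M : Type} [AddCommGroup M] {n : ℕ} (a : Simp Y n → M) {f : X → Y} {S : Set X}
    (hf : ContinuousOn f S) {τ : Simp X (n + 1)} (h : range τ ⊆ S) :
    cobd (fun σ => a (smap f σ)) τ = cobd a (smap f τ) := by
  simp only [cobd, smap_sub hf h]

end HK3
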