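import Pool.Agent.P.MP_9699e0_gt.Defs
import Pool.Agent.P.MP_d483fb_an.Rd

/-! Chains in subsets, maps of chains, winding cochains, local orientation classes. -/

set_option autoImplicit false
set_option linter.unusedSectionVars false

noncomputable section

namespace HK3

open Pool.Agent.P.MP_9699e0_gt Set Filter Topology

export Pool.Agent.P.MP_d483fb_an (rd)

/-- The standard simplex. -/
abbrev Dl (n : ℕ) : Type := stdSimplex ℝ (Fin (n + 1))

/-- Singular chains. -/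
abbrev Chn (R : Type) [CommRing R] (X : Type) [TopologicalSpace X] (n : ℕ) : Type :=
  Simp X n →₀ R

/-- The model space. -/
abbrev E : Type := ℂ × ℂ

section

variable (R : Type) [CommRing R] {X Y : Type} [TopologicalSpace X] [TopologicalSpace Y]

/-- Chains of simplices with the property `P`. -/
def sml (P : ∀ n, Simp X n → Prop) (n : ℕ) : Submodule R (Chn R X n) :=
  Finsupp.supported R R {σ | P n σ}

/-- Chains in the subset `S`. -/
def chn (S : Set X) (n : ℕ) : Submodule R (Chn R X n) :=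
  Finsupp.supported R R {σ : Simp X n | range σ ⊆ S}

/-- Cycles in the subset `S`. -/
def cyc (S : Set X) : ∀ n, Submodule R (Chn R X n)
  | 0 => chn R S 0
  | n + 1 => chn R S (n + 1) ⊓ LinearMap.ker (bd R X n)

/-- Boundaries in the subset `S`. -/
def bdy (S : Set X) (n : ℕ) : Submodule R (Chn R X n) := (chn R S (n + 1)).map (bd R X n)

/-- Evaluation of a cochain on chains. -/
def ev {M : Type} [AddCommGroup M] [Module R M] {n : ℕ} (a : Simp X n → M) : Chn R X n →ₗ[R] M :=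
  Finsupp.linearCombination R a

/-- The augmentation. -/
def aug : Chn R X 0 →ₗ[R] R := ev R fun _ => 1

open Classical in
/-- Image of a simplex (a constant simplex if the composite is not continuous). -/
def smap {n : ℕ} (f : X → Y) (σ : Simp X n) : Simp Y n :=
  if h : Continuous (f ∘ σ) then ⟨f ∘ σ, h⟩
  else ContinuousMap.const _ (f (σ (stdSimplex.vertex 0)))

/-- Image of chains. -/
def cmap (f : X → Y) (n : ℕ) : Chn R X n →ₗ[R] Chn R Y n := Finsupp.lmapDomain R R (smap f)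

end

variable {X Y : Type} [TopologicalSpace X] [TopologicalSpace Y]

/-- Rational Betti numbers of a subset. -/
def hb (S : Set X) (n : ℕ) : Cardinal := rd (cyc ℚ S n) (bdy ℚ S n)

/-- A notion of small simplices on `S`. -/
structure Small (P : ∀ n, Simp X n → Prop) (S : Set X) : Prop where
  comp : ∀ n k (σ : Simp X n) (v : C(Dl k, Dl n)), P n σ → P k (σ.comp v)
  loc : ∀ x ∈ S, ∃ U ∈ 𝓝[S] x, ∀ n (σ : Simp X n), range σ ⊆ U → P n σ

/-- `f` embeds `S`. -/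
def Emb (f : X → Y) (S : Set X) : Prop :=
  ContinuousOn f S ∧ ∃ g : Y → X, ContinuousOn g (f '' S) ∧ LeftInvOn g f S

/-- The `i`-th vertex of a simplex. -/
def vtx {n : ℕ} (σ : Simp X n) (i : Fin (n + 1)) : X := σ (stdSimplex.vertex i)

/-- The 0-cochain of a function. -/
def pt {M : Type} (a : X → M) (σ : Simp X 0) : M := a (vtx σ 0)

/-- The point of the unit circle with argument `2 π s`. -/
def ex (s : ℝ) : ℂ := Complex.exp (2 * Real.pi * s * Complex.I)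

open Classical in
/-- Variation of the argument along a path, divided by `2 π`. -/
def wp (γ : Dl 1 → ℂ) : ℝ :=
  if h : ∃ θ : C(Dl 1, ℝ), ∀ t, γ t = ‖γ t‖ * ex (θ t) then
    h.choose (stdSimplex.vertex 1) - h.choose (stdSimplex.vertex 0) else 0

/-- The winding cochain of a function. -/
def wd (g : X → ℂ) (σ : Simp X 1) : ℝ := wp (g ∘ σ)

/-- `g` is continuous and has no zero on `S`. -/
def NZ (g : X → ℂ) (S : Set X) : Prop := ContinuousOn g S ∧ ∀ x ∈ S, g x ≠ 0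

section

variable {M : Type} [Mul M]

/-- Cup product in bidegree `(0, 1)`. -/
def cup01 (a : Simp X 0 → M) (b : Simp X 1 → M) (σ : Simp X 1) : M := a (sub σ ![0]) * b σ

/-- Cup product in bidegree `(1, 1)`. -/
def cup11 (a b : Simp X 1 → M) (σ : Simp X 2) : M := a (sub σ ![0, 1]) * b (sub σ ![1, 2])

/-- Cup product in bidegree `(1, 2)`. -/
def cup12 (a : Simp X 1 → M) (b : Simp X 2 → M) (σ : Simp X 3) : M :=
  a (sub σ ![0, 1]) * b (sub σ ![1, 2, 3])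

/-- Cup product in bidegree `(2, 1)`. -/
def cup21 (a : Simp X 2 → M) (b : Simp X 1 → M) (σ : Simp X 3) : M :=
  a (sub σ ![0, 1, 2]) * b (sub σ ![2, 3])

end

/-- Two integral 2-cochains differ by a coboundary. -/
def Coh (a a' : Simp X 2 → ℤ) : Prop := ∃ b : Simp X 1 → ℤ, a = a' + cobd b

/-- A flow on `O` that rotates the circle valued function `τ`. -/
structure Rot (O : Set X) (τ : X → ℂ) (Θ : ℝ → X → X) : Prop where
  cτ : ContinuousOn τ O
  nτ : ∀ x ∈ O, ‖τ x‖ = 1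
  cΘ : ContinuousOn (fun p : ℝ × X => Θ p.1 p.2) (univ ×ˢ O)
  mem : ∀ s, ∀ x ∈ O, Θ s x ∈ O
  zero : ∀ x ∈ O, Θ 0 x = x
  add : ∀ s s', ∀ x ∈ O, Θ (s + s') x = Θ s (Θ s' x)
  rot : ∀ s, ∀ x ∈ O, τ (Θ s x) = ex s * τ x

/-- The fibre of `τ` over `1`. -/
def fib (O : Set X) (τ : X → ℂ) : Set X := {x | x ∈ O ∧ τ x = 1}

/-- `d` is the image of the cycle `c` under the Wang connecting map. -/
def Conn (R : Type) [CommRing R] (O : Set X) (τ : X → ℂ) (n : ℕ) (c : Chn R X (n + 1))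
    (d : Chn R X n) : Prop :=
  d ∈ cyc R (fib O τ) n ∧ ∃ a ∈ chn R {x | x ∈ O ∧ τ x ≠ Complex.I} (n + 1),
    ∃ b ∈ chn R {x | x ∈ O ∧ τ x ≠ -Complex.I} (n + 1),
    ∃ e ∈ chn R {x | x ∈ O ∧ (τ x).re < 0} n,
      c - a - b ∈ bdy R O (n + 1) ∧ bd R X n a = d + e ∧ bd R X n b = -(d + e)

/-- The generator of the fourth cohomology of `(ℂ², ℂ² \ 0)`. -/
structure IsOm (Ω : Simp E 4 → ℤ) : Prop where
  coc : cobd Ω = 0
  van : ∀ σ : Simp E 4, range σ ⊆ {0}ᶜ → Ω σ = 0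
  val : ∀ ζ : Chn ℤ E 4, ∀ η ∈ chn ℤ {p : E | p.1 ≠ 0} 3, ∀ η' ∈ chn ℤ {p : E | p.2 ≠ 0} 3,
    bd ℤ E 3 ζ = η + η' →
      ((ev ℤ Ω ζ : ℤ) : ℝ) = -ev ℤ (cup11 (wd Prod.fst) (wd Prod.snd)) (bd ℤ E 2 η)

open Classical in
/-- A choice of the generator. -/
def Om : Simp E 4 → ℤ := if h : ∃ Ω, IsOm Ω then h.choose else 0

/-- An oriented family of local parametrisations. -/
structure OAt (X : Type) [TopologicalSpace X] where
  κ : Type
  W : κ → Set E
  f : κ → E → X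
  opn : ∀ k, IsOpen (W k)
  loc : ∀ k, IsLocalHomeomorphOn (f k) (W k)
  surj : ∀ x, ∃ k, ∃ a ∈ W k, f k a = x
  tr : ∀ k l, ∀ a ∈ W k, ∀ b ∈ W l, f k a = f l b → ∃ (γ : E → E) (D : E →L[ℝ] E),
    γ a = b ∧ HasFDerivAt γ D a ∧ 0 < D.det ∧ ∀ᶠ ξ in 𝓝 a, f l (γ ξ) = f k ξ

/-- The chain `ζ` has local degree `m` at `x`. -/
def OAt.Loc (A : OAt X) (ζ : Chn ℤ X 4) (x : X) (m : ℤ) : Prop :=
  ∀ k, ∀ a ∈ A.W k, A.f k a = x → ∀ V : Set E, IsOpen V → a ∈ V → V ⊆ A.W k → InjOn (A.f k) V →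
    ∀ ξ ∈ chn ℤ V 4, bd ℤ E 3 ξ ∈ chn ℤ {a}ᶜ 3 →
      ζ - cmap ℤ (A.f k) 4 ξ ∈ bdy ℤ univ 4 ⊔ chn ℤ {x}ᶜ 4 →
        ev ℤ Om (cmap ℤ (fun p => p - a) 4 ξ) = m

/-- The statement proved for all compact sets in the construction of the fundamental cycle. -/
structure OAt.Good (A : OAt X) (K : Set X) : Prop where
  high : ∀ n, 4 ≤ n → ∀ ζ : Chn ℤ X (n + 1), bd ℤ X n ζ ∈ chn ℤ Kᶜ n →
    ζ ∈ bdy ℤ univ (n + 1) ⊔ chn ℤ Kᶜ (n + 1)
  inj : ∀ ζ : Chn ℤ X 4, bd ℤ X 3 ζ ∈ chn ℤ Kᶜ 3 → (∀ x ∈ K, A.Loc ζ x 0) →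
    ζ ∈ bdy ℤ univ 4 ⊔ chn ℤ Kᶜ 4
  ex : ∃ ζ : Chn ℤ X 4, bd ℤ X 3 ζ ∈ chn ℤ Kᶜ 3 ∧ ∀ x ∈ K, A.Loc ζ x 1

/-- A fundamental cycle. -/
def OAt.Fund (A : OAt X) (z : Chn ℤ X 4) : Prop := bd ℤ X 3 z = 0 ∧ ∀ x, A.Loc z x 1

/-- An open path connected set whose loops contract in the ambient space. -/
structure Null (O : Set X) : Prop where
  opn : IsOpen O
  conn : IsPathConnected O
  loop : ∀ (x : X) (γ : Path x x), range γ ⊆ O → γ.Homotopic (Path.refl x)

end HK3
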