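import Pool.Agent.P.MP_9699e0_gt.Sets

/-! The manifold is compact. -/

set_option autoImplicit false
set_option linter.unusedSectionVars false

noncomputable section

namespace HK3

open Pool.Agent.P.MP_9699e0_gt Set Filter Topology
open scoped ContDiff

theorem mem_W0_of_rr {ξ : E} (h : 0 < rr ξ) : ξ ∈ W0 := RelAmem h

theorem exists_rc_lt {ξ : E} {r : ℝ} (hr : r ≤ ρ) (h : rr ξ < r) : ∃ i, rc i ξ < r := by
  have _ := hr
  rw [RR_inf] at h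
  exact exists_lt_of_ciInf_lt h

/-- The compact pieces. -/
def CptM_K0 (C : ℝ) : Set E := Metric.closedBall 0 C ∩ {ξ | ρ / 2 ≤ rr ξ}

def CptM_K2 : Set E :=
  Metric.closedBall 0 2 ×ˢ Metric.closedBall 0 (ρ / 2) ∩ ⋂ m, {α | ρ / 2 ≤ ‖α.1 - gi m‖}

def CptM_K3 : Set E := Metric.closedBall 0 (ρ ^ 2 / 4) ×ˢ Metric.closedBall 0 1

def CptM_K4 : Set E := Metric.closedBall 0 1 ×ˢ Metric.closedBall 0 (ρ ^ 2 / 4)

def CptM_S (n : ℕ) (C : ℝ) : Set (XX n) :=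
  (f0 n '' CptM_K0 C ∪ ⋃ i, f2 n i '' CptM_K2) ∪
    ((⋃ j : I4 × I4, f3 n j.1 j.2 '' CptM_K3) ∪ ⋃ j : I4 × I4, f4 n j.1 j.2 '' CptM_K4)

theorem CptM_s0 (C : ℝ) : CptM_K0 C ⊆ W0 := fun _ h =>
  mem_W0_of_rr ((half_pos ρ_pos).trans_le h.2)

theorem CptM_s2 : CptM_K2 ⊆ W2 := fun α h => by
  refine ⟨(mem_closedBall_zero_iff.1 h.1.2).trans_lt (half_lt_self ρ_pos), fun _ m hm => ?_⟩
  have h1 : ρ / 2 ≤ ‖α.1 - gi m‖ := mem_iInter.1 h.2 m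
  rw [hm, sub_self, norm_zero] at h1
  exact (half_pos ρ_pos).not_ge h1

theorem CptM_aux {x y : ℂ} (hx : ‖x‖ ≤ ρ ^ 2 / 4) (hy : ‖y‖ ≤ 1) :
    ‖x‖ < ρ ^ 2 ∧ ‖x‖ * ‖y‖ ^ 2 < ρ ^ 2 := by
  have h0 := pow_pos ρ_pos 2
  have h1 := mul_le_of_le_one_right (norm_nonneg x) (pow_le_one₀ (n := 2) (norm_nonneg y) hy)
  constructor <;> linarith

theorem CptM_s3 : CptM_K3 ⊆ W3 := fun _ h =>
  CptM_aux (mem_closedBall_zero_iff.1 h.1) (mem_closedBall_zero_iff.1 h.2)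

theorem CptM_s4 : CptM_K4 ⊆ W4 := fun _ h =>
  (CptM_aux (mem_closedBall_zero_iff.1 h.2) (mem_closedBall_zero_iff.1 h.1)).imp id
    fun h' => (mul_comm _ _).trans_lt h'

theorem CptM_c0 (C : ℝ) : IsCompact (CptM_K0 C) :=
  (isCompact_closedBall (0 : E) C).inter_right (isClosed_le continuous_const continuous_rr)

theorem CptM_c2 : IsCompact CptM_K2 := by
  refine ((isCompact_closedBall (0 : ℂ) 2).prod (isCompact_closedBall (0 : ℂ) (ρ / 2))).inter_right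
    (isClosed_iInter fun m => ?_)
  exact isClosed_le (f := fun _ : E => ρ / 2) (g := fun α : E => ‖α.1 - gi m‖) continuous_const
    (by fun_prop)

theorem CptM_c3 : IsCompact CptM_K3 :=
  (isCompact_closedBall (0 : ℂ) (ρ ^ 2 / 4)).prod (isCompact_closedBall (0 : ℂ) 1)

theorem CptM_c4 : IsCompact CptM_K4 :=
  (isCompact_closedBall (0 : ℂ) 1).prod (isCompact_closedBall (0 : ℂ) (ρ ^ 2 / 4))

theorem CptM_cpt {n : ℕ} (hn : Odd n) (C : ℝ) : IsCompact (CptM_S n C) := by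
  refine (IsCompact.union ?_ (isCompact_iUnion fun i => ?_)).union
    ((isCompact_iUnion fun j => ?_).union (isCompact_iUnion fun j => ?_))
  · exact (CptM_c0 C).image_of_continuousOn ((loc0 hn).continuousOn.mono (CptM_s0 C))
  · exact CptM_c2.image_of_continuousOn ((loc2 hn i).continuousOn.mono CptM_s2)
  · exact CptM_c3.image_of_continuousOn ((loc3 hn j.1 j.2).continuousOn.mono CptM_s3)
  · exact CptM_c4.image_of_continuousOn ((loc4 hn j.1 j.2).continuousOn.mono CptM_s4)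

theorem CptM_m3 {n : ℕ} (C : ℝ) (i c : I4) {p : E} (h1 : ‖p.1‖ ≤ ρ ^ 2 / 4) (h2 : ‖p.2‖ ≤ 1) :
    p ∈ W3 ∧ f3 n i c p ∈ CptM_S n C :=
  have h : p ∈ CptM_K3 := ⟨mem_closedBall_zero_iff.2 h1, mem_closedBall_zero_iff.2 h2⟩
  ⟨CptM_s3 h, Or.inr (Or.inl (mem_iUnion.2 ⟨(i, c), p, h, rfl⟩))⟩

theorem CptM_m4 {n : ℕ} (C : ℝ) (i c : I4) {p : E} (h1 : ‖p.1‖ ≤ 1) (h2 : ‖p.2‖ ≤ ρ ^ 2 / 4) :
    p ∈ W4 ∧ f4 n i c p ∈ CptM_S n C :=
  have h : p ∈ CptM_K4 := ⟨mem_closedBall_zero_iff.2 h1, mem_closedBall_zero_iff.2 h2⟩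
  ⟨CptM_s4 h, Or.inr (Or.inr (mem_iUnion.2 ⟨(i, c), p, h, rfl⟩))⟩

theorem CptM_sq {b : ℂ} (h : ‖b‖ ≤ ρ / 2) : ‖b ^ 2‖ ≤ ρ ^ 2 / 4 := by
  rw [norm_pow]
  have := pow_le_pow_left₀ (norm_nonneg b) h 2
  linarith

theorem CptM_near {n : ℕ} (hn : Odd n) (C : ℝ) (i c : I4) {b z : ℂ}
    (h : (gi (rep c) + b, z) ∈ W2) (hb : ‖b‖ ≤ ρ / 2) (hz : ‖z‖ ≤ ρ / 2) :
    f2 n i (gi (rep c) + b, z) ∈ CptM_S n C := by
  by_cases h1 : ‖z‖ ≤ ‖b‖
  · have hb0 : b ≠ 0 := by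
      rintro rfl
      exact h.2 (norm_le_zero_iff.1 (h1.trans norm_zero.le)) (rep c) (add_zero _)
    obtain ⟨k1, k2⟩ := CptM_m3 (n := n) C i c (p := (b ^ 2, z / b)) (CptM_sq hb)
      (by rw [norm_div]; exact div_le_one_of_le₀ h1 (norm_nonneg _))
    rwa [(f3_eq hn i c hb0 k1).2.2, div_mul_cancel₀ _ hb0] at k2
  · have h2 := (not_le.1 h1)
    have hz0 : z ≠ 0 := norm_pos_iff.1 ((norm_nonneg _).trans_lt h2)
    obtain ⟨k1, k2⟩ := CptM_m4 (n := n) C i c (p := (b / z, z ^ 2))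
      (by rw [norm_div]; exact div_le_one_of_le₀ h2.le (norm_nonneg _)) (CptM_sq hz)
    rwa [(f4_eq hn i c hz0 k1).2.2, div_mul_cancel₀ _ hz0] at k2

theorem CptM_trn (m : ℤ × ℤ) (α : E) : trn 0 m α = (α.1 + 2 * gi m, α.2) := by
  simp only [trn, sg_zero, Complex.ofReal_one, one_mul]

theorem CptM_core {n : ℕ} (hn : Odd n) (C : ℝ) (i : I4) {α : E} (h : α ∈ W2)
    (hz : ‖α.2‖ ≤ ρ / 2) : f2 n i α ∈ CptM_S n C := by
  by_cases h1 : ∀ m, ρ / 2 ≤ ‖α.1 - gi m‖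
  · obtain ⟨m, hm⟩ := trn_bdd α
    rw [← f2_trn hn i 0 m h]
    rw [CptM_trn] at hm ⊢
    refine Or.inl (Or.inr (mem_iUnion.2 ⟨i, _, ⟨⟨mem_closedBall_zero_iff.2 hm,
      mem_closedBall_zero_iff.2 hz⟩, mem_iInter.2 fun m' => ?_⟩, rfl⟩))
    have h2 := h1 (m' + -(2 • m))
    rw [gi_add, gi_neg, gi_two] at h2
    refine h2.trans_eq (congrArg _ ?_)
    ring
  · push Not at h1
    obtain ⟨m, hm⟩ := h1
    obtain ⟨c, m', rfl⟩ := exists_rep m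
    have e : trn 0 (-m') α = (gi (rep c) + (α.1 - gi (rep c + 2 • m')), α.2) := by
      rw [CptM_trn, gi_neg, gi_add, gi_two]
      congr 1
      ring
    rw [← f2_trn hn i 0 (-m') h, e]
    exact CptM_near hn C i c (e ▸ trn_mem 0 (-m') h) hm.le hz

theorem CptM_zero {n : ℕ} (hn : Odd n) {C : ℝ} (hC : ∀ ξ : E, ∃ ξ', RG n ξ ξ' ∧ ‖ξ'‖ ≤ C) {ξ : E}
    (h : ξ ∈ W0) : f0 n ξ ∈ CptM_S n C := by
  by_cases h1 : ρ / 2 ≤ rr ξ
  · obtain ⟨ξ', h2, h3⟩ := hC ξ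
    refine Or.inl (Or.inl ⟨ξ', ⟨mem_closedBall_zero_iff.2 h3, ?_⟩, (f0_gam hn h h2).symm⟩)
    obtain ⟨k, e, m, l, rfl⟩ := h2
    exact h1.trans_eq (rr_gam hn k e m l ξ).symm
  · obtain ⟨i, hi⟩ := exists_rc_lt (half_le_self ρ_pos.le) (not_le.1 h1)
    obtain ⟨α, h2, h3⟩ := tube_surj hn h (hi.trans (half_lt_self ρ_pos))
    obtain ⟨h4, h5⟩ := f2_tube hn i α.1 α.2 h2
    rw [← f0_gam hn (tube_mem i h2) h3, ← h5]
    refine CptM_core hn C i h4 ?_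
    obtain ⟨k, e, m, l, rfl⟩ := h3
    rw [rc_gam hn, rc_tube n i i h2, if_pos rfl] at hi
    exact (Complex.norm_exp _).trans_le hi.le

theorem CptM_two {n : ℕ} (hn : Odd n) {C : ℝ} (hC : ∀ ξ : E, ∃ ξ', RG n ξ ξ' ∧ ‖ξ'‖ ≤ C) (i : I4)
    {α : E} (h : α ∈ W2) : f2 n i α ∈ CptM_S n C := by
  by_cases h0 : α.2 = 0
  · exact CptM_core hn C i h (by rw [h0, norm_zero]; exact (half_pos ρ_pos).le)
  · have hw := Complex.exp_log h0
    have h3 := Sets_exp hw h.1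
    obtain ⟨-, h4⟩ := f2_tube hn i α.1 _ h3
    rw [hw] at h4
    have h5 : f2 n i α = _ := h4
    rw [h5]
    exact CptM_zero hn hC (tube_mem i (α := (α.1, Complex.log α.2)) h3)

theorem compact_XX {n : ℕ} (hn : Odd n) : CompactSpace (XX n) := by
  obtain ⟨C, hC⟩ := RG_bdd hn
  refine ⟨(CptM_cpt hn C).of_isClosed_subset isClosed_univ fun x _ => ?_⟩
  have h0 : ‖(0 : ℂ)‖ ≤ ρ ^ 2 / 4 := by
    rw [norm_zero]
    positivity
  rcases xx_cases x with ⟨ξ, h, rfl⟩ | ⟨i, α, h, rfl⟩ | ⟨i, c, ⟨x, y⟩, h, rfl⟩ | ⟨i, c, ⟨x, y⟩, h, rfl⟩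
  · exact CptM_zero hn hC h
  · exact CptM_two hn hC i h
  · by_cases h1 : x = 0
    · subst h1
      by_cases h2 : ‖y‖ ≤ 1
      · exact (CptM_m3 C i c (p := (0, y)) h0 h2).2
      · have h3 := not_le.1 h2
        rw [(f3_f4 hn i c h (norm_pos_iff.1 (one_pos.trans h3))).2]
        refine (CptM_m4 C i c ?_ ?_).2
        · exact (norm_inv y).trans_le (inv_le_one_of_one_le₀ h3.le)
        · exact (congrArg norm (zero_mul _)).trans_le h0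
    · obtain ⟨b, -, h2, -, h3⟩ := Sets_f3 hn i c h h1
      rw [h3]
      exact CptM_two hn hC i h2
  · by_cases h1 : y = 0
    · subst h1
      by_cases h2 : ‖x‖ ≤ 1
      · exact (CptM_m4 C i c (p := (x, 0)) h2 h0).2
      · have h3 := not_le.1 h2
        obtain ⟨k1, k2⟩ := CptM_m3 (n := n) C i c (p := (0, x⁻¹)) h0
          ((norm_inv x).trans_le (inv_le_one_of_one_le₀ h3.le))
        rwa [(f3_f4 hn i c k1 (inv_ne_zero (norm_pos_iff.1 (one_pos.trans h3)))).2, inv_inv,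
          zero_mul] at k2
    · obtain ⟨b, -, h2, -, h3⟩ := Sets_f4 hn i c h h1
      rw [h3]
      exact CptM_two hn hC i h2

end HK3
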