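import Pool.Agent.P.MP_9699e0_gt.ChDefs

/-! Local homeomorphisms. -/

set_option autoImplicit false
set_option linter.unusedSectionVars false

noncomputable section

namespace HK3

open Pool.Agent.P.MP_9699e0_gt Set Filter Topology
open scoped ContDiff

variable {R : Type} [CommRing R] {X Y Z : Type} [TopologicalSpace X] [TopologicalSpace Y]
  [TopologicalSpace Z]

theorem Lh_loc {f : X → Y} {V : Set X} (hV : IsOpen V) (hf : IsLocalHomeomorphOn f V) {a : X}
    (ha : a ∈ V) : ∃ g : Y → X, ContinuousAt g (f a) ∧ g (f a) = a ∧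
      ∀ᶠ y in 𝓝 (f a), g y ∈ V ∧ f (g y) = y := by
  obtain ⟨e, he, rfl⟩ := hf a ha
  have h1 : e a ∈ e.target := e.map_source he
  have h2 : ContinuousAt e.symm (e a) := e.continuousAt_symm h1
  refine ⟨e.symm, h2, e.left_inv he, ?_⟩
  have h3 : ∀ᶠ y in 𝓝 (e a), e.symm y ∈ V := by
    refine h2.eventually ?_
    rw [e.left_inv he]
    exact hV.mem_nhds ha
  filter_upwards [h3, e.open_target.mem_nhds h1] with y h4 h5
  exact ⟨h4, e.right_inv h5⟩

theorem emb_of_loc [Nonempty X] {f : X → Y} {V : Set X} (hV : IsOpen V) (hf : IsLocalHomeomorphOn f V)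
    (hi : InjOn f V) : Emb f V := by
  refine ⟨hf.continuousOn, Function.invFunOn f V, ?_, fun x hx => hi.leftInvOn_invFunOn hx⟩
  rintro _ ⟨a, ha, rfl⟩
  obtain ⟨g, h1, _, h3⟩ := Lh_loc hV hf ha
  refine (h1.congr ?_).continuousWithinAt
  filter_upwards [h3] with y hy
  have h4 := hi.leftInvOn_invFunOn hy.1
  rw [hy.2] at h4
  exact h4.symm

theorem isOpen_image_of_loc {f : X → Y} {V W : Set X} (hf : IsLocalHomeomorphOn f V)
    (hW : IsOpen W) (h : W ⊆ V) : IsOpen (f '' W) := by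
  rw [isOpen_iff_mem_nhds]
  rintro _ ⟨a, ha, rfl⟩
  obtain ⟨g, _, _, h3⟩ := Lh_loc hW (hf.mono h) ha
  filter_upwards [h3] with y hy
  exact ⟨g y, hy.1, hy.2⟩

theorem exists_injOn_of_loc {f : X → Y} {V : Set X} (hV : IsOpen V)
    (hf : IsLocalHomeomorphOn f V) {a : X} (ha : a ∈ V) :
    ∃ W, IsOpen W ∧ a ∈ W ∧ W ⊆ V ∧ InjOn f W := by
  obtain ⟨e, he, rfl⟩ := hf a ha
  exact ⟨e.source ∩ V, e.open_source.inter hV, ⟨he, ha⟩, inter_subset_right,
    e.injOn.mono inter_subset_left⟩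

/-- Descent of a family of maps along a local homeomorphism. -/
theorem desc {P : Type} [TopologicalSpace P] [Nonempty Z] {f : X → Y} {V : Set X} (hV : IsOpen V)
    (hf : IsLocalHomeomorphOn f V) (G : P → X → Z)
    (hG : ContinuousOn (fun p : P × X => G p.1 p.2) (univ ×ˢ V))
    (h : ∀ s, ∀ a ∈ V, ∀ b ∈ V, f a = f b → G s a = G s b) :
    ∃ G' : P → Y → Z, ContinuousOn (fun p : P × Y => G' p.1 p.2) (univ ×ˢ (f '' V)) ∧
      ∀ s, ∀ a ∈ V, G' s (f a) = G s a := by
  classical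
  have key : ∀ s, ∀ a ∈ V, (if hy : ∃ b ∈ V, f b = f a then G s hy.choose
      else Classical.arbitrary Z) = G s a := by
    intro s a ha
    have hy : ∃ b ∈ V, f b = f a := ⟨a, ha, rfl⟩
    rw [dif_pos hy]
    exact h s _ hy.choose_spec.1 a ha hy.choose_spec.2
  refine ⟨fun s y => if hy : ∃ b ∈ V, f b = y then G s hy.choose else Classical.arbitrary Z,
    ?_, key⟩
  rintro ⟨s, _⟩ ⟨-, a, ha, rfl⟩
  obtain ⟨g, h1, h2, h3⟩ := Lh_loc hV hf ha
  have h4 : ContinuousAt (fun p : P × X => G p.1 p.2) (s, g (f a)) := by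
    rw [h2]
    exact hG.continuousAt ((isOpen_univ.prod hV).mem_nhds ⟨trivial, ha⟩)
  have h5 : ContinuousAt (fun p : P × Y => (p.1, g p.2)) (s, f a) :=
    continuousAt_fst.prodMk (ContinuousAt.comp (f := Prod.snd) (x := (s, f a)) h1 continuousAt_snd)
  have h6 : ContinuousAt (fun p : P × Y => G p.1 (g p.2)) (s, f a) :=
    ContinuousAt.comp (f := fun p : P × Y => (p.1, g p.2)) (x := (s, f a)) h4 h5
  refine (h6.congr ?_).continuousWithinAt
  have h7 : ∀ᶠ p : P × Y in 𝓝 (s, f a), g p.2 ∈ V ∧ f (g p.2) = p.2 :=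
    (continuousAt_snd (p := (s, f a))).eventually h3
  filter_upwards [h7] with p hp
  have h8 := key p.1 _ hp.1
  rw [hp.2] at h8
  exact h8.symm

end HK3
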