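import Pool.Agent.P.MP_9699e0_gt.CvA
import Pool.Agent.P.MP_9699e0_gt.Lh

/-! Acyclic sets, embeddings, local homeomorphisms. -/

set_option autoImplicit false
set_option linter.unusedSectionVars false

noncomputable section

namespace HK3

open Pool.Agent.P.MP_9699e0_gt Set Filter Topology
open scoped ContDiff


end HK3
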