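import Mathlib

/-!
Definitions used in the statement: singular chains and cochains, the cup product of two
2-cochains, and the intersection form of the K3 surface.
-/

set_option autoImplicit false

namespace Pool.Agent.P.MP_9699e0_gt

noncomputable section

/-- Euclidean four-space. -/
def R4 : Type := EuclideanSpace ℝ (Fin 4)

instance R4.group : NormedAddCommGroup R4 :=
  inferInstanceAs (NormedAddCommGroup (EuclideanSpace ℝ (Fin 4)))

instance R4.space : NormedSpace ℝ R4 :=
  inferInstanceAs (NormedSpace ℝ (EuclideanSpace ℝ (Fin 4)))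

/-- Singular `n`-simplices. -/
abbrev Simp (X : Type) [TopologicalSpace X] (n : ℕ) : Type := C(stdSimplex ℝ (Fin (n + 1)), X)

variable {X : Type} [TopologicalSpace X]

/-- The face of `σ` spanned by the vertices `v 0, …, v k`. -/
def sub {n k : ℕ} (σ : Simp X n) (v : Fin (k + 1) → Fin (n + 1)) : Simp X k :=
  σ.comp ⟨stdSimplex.map v, stdSimplex.continuous_map v⟩

/-- The boundary of singular chains with coefficients in `R`. -/
def bd (R : Type) [CommRing R] (X : Type) [TopologicalSpace X] (n : ℕ) :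
    (Simp X (n + 1) →₀ R) →ₗ[R] (Simp X n →₀ R) :=
  Finsupp.linearCombination R fun σ : Simp X (n + 1) =>
    ∑ i : Fin (n + 2), (-1 : R) ^ (i : ℕ) • Finsupp.single (sub σ i.succAbove) (1 : R)

/-- The coboundary of singular cochains. -/
def cobd {M : Type} [AddCommGroup M] {n : ℕ} (a : Simp X n → M) (σ : Simp X (n + 1)) : M :=
  ∑ i : Fin (n + 2), (-1 : ℤ) ^ (i : ℕ) • a (sub σ i.succAbove)

/-- The cup product of two 2-cochains (front face times back face). -/
def cup {M : Type} [Mul M] (a b : Simp X 2 → M) (σ : Simp X 4) : M :=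
  a (sub σ ![0, 1, 2]) * b (sub σ ![2, 3, 4])

/-- Index set of a basis of the K3 lattice. -/
abbrev K3Index : Type := (Fin 3 × Fin 2) ⊕ (Fin 2 × Fin 8)

/-- The K3 lattice: three hyperbolic planes and two copies of the negative definite `E₈`. -/
def k3Form : K3Index → K3Index → ℤ
  | Sum.inl a, Sum.inl b => if a.1 = b.1 ∧ a.2 ≠ b.2 then 1 else 0
  | Sum.inr a, Sum.inr b => if a.1 = b.1 then -CartanMatrix.E₈ a.2 b.2 else 0
  | _, _ => 0

/-- The second integral cohomology of `X` has a basis of 22 classes whose cup products,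
evaluated on a 4-cycle, are the entries of the K3 form. -/
def HasK3Form (X : Type) [TopologicalSpace X] : Prop :=
  ∃ (e : K3Index → Simp X 2 → ℤ) (z : Simp X 4 →₀ ℤ), (∀ i, cobd (e i) = 0) ∧ bd ℤ X 3 z = 0 ∧
    (∀ a : Simp X 2 → ℤ, cobd a = 0 →
      ∃! m : K3Index → ℤ, ∃ b : Simp X 1 → ℤ, a = (∑ i, m i • e i) + cobd b) ∧
    ∀ i j, Finsupp.linearCombination ℤ (cup (e i) (e j)) z = k3Form i j

/-- `g` induces the identity on the second rational homology. -/
def TrivialH2 (g : C(X, X)) : Prop :=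
  ∀ c : Simp X 2 →₀ ℚ, bd ℚ X 1 c = 0 →
    ∃ d : Simp X 3 →₀ ℚ, bd ℚ X 2 d = Finsupp.mapDomain g.comp c - c

end

end Pool.Agent.P.MP_9699e0_gt
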