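import Pool.Agent.P.MP_9699e0_gt.Om1
import Pool.Agent.P.MP_9699e0_gt.Mv

/-! Linear maps and the local orientation class. -/

set_option autoImplicit false
set_option linter.unusedSectionVars false

noncomputable section

namespace HK3

open Pool.Agent.P.MP_9699e0_gt Set Filter Topology
open scoped ContDiff

theorem om_htpy {X : Type} [TopologicalSpace X] (H : ℝ → X → E) {S T : Set X}
    (hH : ContinuousOn (fun p : ℝ × X => H p.1 p.2) (Icc 0 1 ×ˢ S))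
    (hT : ∀ s ∈ Icc (0 : ℝ) 1, ∀ x ∈ S ∩ T, H s x ≠ 0) {ζ : Chn ℤ X 4} (hζ : ζ ∈ chn ℤ S 4)
    (hb : bd ℤ X 3 ζ ∈ chn ℤ T 3) :
    ev ℤ Om (cmap ℤ (H 1) 4 ζ) = ev ℤ Om (cmap ℤ (H 0) 4 ζ) := by
  have h := om_bdy (htpy_rel H (S' := univ) (T' := ({0}ᶜ : Set E)) hH (fun _ _ _ _ => mem_univ _)
    hT hζ hb)
  rwa [map_sub, sub_eq_zero] at h

/-- The map `f` multiplies the local orientation class by `s`. -/
def Deg1Sg (f : E → E) (s : ℝ) : Prop :=
  ∀ ζ : Chn ℤ E 4, bd ℤ E 3 ζ ∈ chn ℤ ({0}ᶜ : Set E) 3 →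
    ((ev ℤ Om (cmap ℤ f 4 ζ) : ℤ) : ℝ) = s * ((ev ℤ Om ζ : ℤ) : ℝ)

theorem deg1_top {n : ℕ} (c : Chn ℤ E n) : c ∈ chn ℤ (univ : Set E) n := by
  rw [chn_univ]; trivial

theorem deg1_id : Deg1Sg id 1 := fun ζ _ => by rw [cmap_id, one_mul]

theorem deg1_comp {f g : E → E} {s t : ℝ} (hf : Continuous f) (h0 : ∀ x, x ≠ 0 → f x ≠ 0)
    (h : Deg1Sg f s) (h' : Deg1Sg g t) : Deg1Sg (g ∘ f) (t * s) := by
  intro ζ hζ
  rw [← cmap_comp hf.continuousOn (deg1_top ζ), h' _ (by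
    rw [cmap_bd hf.continuousOn (deg1_top ζ)]
    exact cmap_mem hf.continuousOn (fun x hx => h0 x hx) hζ), h ζ hζ, mul_assoc]

theorem deg1_seg {f g : E → E} {s : ℝ} (hf : Continuous f) (hg : Continuous g)
    (h0 : ∀ r ∈ Icc (0 : ℝ) 1, ∀ x, x ≠ 0 → f x + r • (g x - f x) ≠ 0) (h : Deg1Sg f s) :
    Deg1Sg g s := by
  intro ζ hζ
  have h1 := om_htpy (fun r x => f x + r • (g x - f x)) (S := univ) (T := ({0}ᶜ : Set E))
    (Continuous.continuousOn (by fun_prop)) (fun r hr x hx => h0 r hr x hx.2) (deg1_top ζ) hζ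
  simp only [one_smul, zero_smul, add_zero, add_sub_cancel] at h1
  rw [← h ζ hζ]
  exact congrArg _ h1

theorem deg1_ev_mul {n : ℕ} (c : ℝ) (a : Simp E n → ℝ) (z : Chn ℤ E n) :
    ev ℤ (fun σ => c * a σ) z = c * ev ℤ a z := by
  simp [ev, Finsupp.linearCombination_apply, Finsupp.sum, Finset.mul_sum, mul_left_comm]

theorem deg1_prod {A B : ℂ → ℂ} {a b : ℝ} (hA : Continuous A) (hB : Continuous B)
    (hA0 : ∀ z, z ≠ 0 → A z ≠ 0) (hB0 : ∀ z, z ≠ 0 → B z ≠ 0)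
    (hwA : ∀ γ : Dl 1 → ℂ, Continuous γ → (∀ t, γ t ≠ 0) → wp (A ∘ γ) = a * wp γ)
    (hwB : ∀ γ : Dl 1 → ℂ, Continuous γ → (∀ t, γ t ≠ 0) → wp (B ∘ γ) = b * wp γ) :
    Deg1Sg (Prod.map A B) (a * b) := by
  intro ζ hζ
  have hf : ContinuousOn (Prod.map A B) univ := (hA.prodMap hB).continuousOn
  have hU : IsOpen {p : E | p.1 ≠ 0} := isOpen_ne_fun continuous_fst continuous_const
  have hV : IsOpen {p : E | p.2 ≠ 0} := isOpen_ne_fun continuous_snd continuous_const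
  have hcov : ({0}ᶜ : Set E) ⊆ {p : E | p.1 ≠ 0} ∪ {p : E | p.2 ≠ 0} := by
    intro p hp
    by_contra hc
    simp only [mem_union, mem_ofPred_eq, not_or, not_not] at hc
    exact hp (Prod.ext hc.1 hc.2)
  have hmap : MapsTo (Prod.map A B) ({0}ᶜ : Set E) ({0}ᶜ : Set E) := by
    intro p hp hc
    rcases hcov hp with h | h
    · exact hA0 _ h (congrArg Prod.fst hc)
    · exact hB0 _ h (congrArg Prod.snd hc)
  have hc : bd ℤ E 3 ζ ∈ cyc ℤ ({0}ᶜ : Set E) 3 := ⟨hζ, bd_bd 2 ζ⟩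
  obtain ⟨η, hη, η', hη', k, hk, e⟩ := mv_split hU hV hcov hc
  have hη1 := chn_mono inter_subset_right 3 hη
  have hη2 := chn_mono inter_subset_right 3 hη'
  have e1 : bd ℤ E 3 (ζ - k) = η + η' := by rw [map_sub, e]; abel
  have e2 : ev ℤ Om ζ = ev ℤ Om (ζ - k) := by
    rw [map_sub, om_bdy (Submodule.mem_sup_right hk), sub_zero]
  have e3 : ev ℤ Om (cmap ℤ (Prod.map A B) 4 ζ) = ev ℤ Om (cmap ℤ (Prod.map A B) 4 (ζ - k)) := by
    rw [map_sub, map_sub,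
      om_bdy (Submodule.mem_sup_right (cmap_mem (hf.mono (subset_univ _)) hmap hk)), sub_zero]
  have e4 : bd ℤ E 2 η = -bd ℤ E 2 η' := by
    rw [eq_neg_iff_add_eq_zero, ← map_add, ← e1, bd_bd]
  have hb : bd ℤ E 2 η ∈ chn ℤ ({p : E | p.1 ≠ 0} ∩ {p : E | p.2 ≠ 0}) 2 := by
    rw [chn_inter]
    exact ⟨bd_mem hη1, e4 ▸ neg_mem (bd_mem hη2)⟩
  rw [e2, e3, isOm.val _ η hη1 η' hη2 e1, isOm.val _ (cmap ℤ (Prod.map A B) 3 η)
    (cmap_mem (hf.mono (subset_univ _)) (fun p hp => hA0 _ hp) hη1) (cmap ℤ (Prod.map A B) 3 η')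
    (cmap_mem (hf.mono (subset_univ _)) (fun p hp => hB0 _ hp) hη2)
    (by rw [cmap_bd hf (deg1_top _), e1, map_add]), cmap_bd hf (deg1_top _), ev_cmap, mul_neg,
    ← deg1_ev_mul]
  refine congrArg _ (ev_congr_chn hb fun σ hσ => ?_)
  unfold cup11
  rw [← smap_sub hf (subset_univ _), ← smap_sub hf (subset_univ _), wd_smap _ hf (subset_univ _),
    wd_smap _ hf (subset_univ _)]
  have h1 := hwA (Prod.fst ∘ sub σ ![0, 1]) (continuous_fst.comp (sub σ ![0, 1]).continuous)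
    fun t => (hσ (range_sub σ _ ⟨t, rfl⟩)).1
  have h2 := hwB (Prod.snd ∘ sub σ ![1, 2]) (continuous_snd.comp (sub σ ![1, 2]).continuous)
    fun t => (hσ (range_sub σ _ ⟨t, rfl⟩)).2
  show wp (A ∘ Prod.fst ∘ sub σ ![0, 1]) * wp (B ∘ Prod.snd ∘ sub σ ![1, 2]) =
    a * b * (wp (Prod.fst ∘ sub σ ![0, 1]) * wp (Prod.snd ∘ sub σ ![1, 2]))
  rw [h1, h2]
  ring

/-- A diagonal map of the plane. -/
def deg1Rf (a b : ℝ) (z : ℂ) : ℂ := a * z.re + b * z.im * Complex.I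

theorem deg1_rf_cont (a b : ℝ) : Continuous (deg1Rf a b) := by unfold deg1Rf; fun_prop

theorem deg1_rf_ne {a b : ℝ} (ha : a ≠ 0) (hb : b ≠ 0) (z : ℂ) (hz : z ≠ 0) :
    deg1Rf a b z ≠ 0 := by
  intro h
  have h1 := congrArg Complex.re h
  have h2 := congrArg Complex.im h
  simp [deg1Rf, ha, hb] at h1 h2
  exact hz (Complex.ext h1 h2)

theorem deg1_rf_wp {a b : ℝ} (ha : a = 1 ∨ a = -1) (hb : b = 1 ∨ b = -1) (γ : Dl 1 → ℂ)
    (hγ : Continuous γ) (h : ∀ t, γ t ≠ 0) : wp (deg1Rf a b ∘ γ) = a * b * wp γ := by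
  have hm : (-1 : ℂ) ≠ 0 := by norm_num
  rcases ha with rfl | rfl <;> rcases hb with rfl | rfl
  · have e : deg1Rf 1 1 ∘ γ = γ := funext fun t => Complex.ext (by simp [deg1Rf]) (by simp [deg1Rf])
    rw [e]; ring
  · have e : deg1Rf 1 (-1) ∘ γ = fun t => (starRingEnd ℂ) (γ t) :=
      funext fun t => Complex.ext (by simp [deg1Rf]) (by simp [deg1Rf])
    rw [e, wp_conj hγ h]; ring
  · have e : deg1Rf (-1) 1 ∘ γ = fun t => (-1 : ℂ) * (starRingEnd ℂ) (γ t) :=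
      funext fun t => Complex.ext (by simp [deg1Rf]) (by simp [deg1Rf])
    rw [e, wp_mul (δ := fun t => (starRingEnd ℂ) (γ t)) continuous_const
      (Complex.continuous_conj.comp hγ) (fun _ => hm) (fun t => (map_ne_zero _).2 (h t)),
      wp_const _ hm, wp_conj hγ h]
    ring
  · have e : deg1Rf (-1) (-1) ∘ γ = fun t => (-1 : ℂ) * γ t :=
      funext fun t => Complex.ext (by simp [deg1Rf]) (by simp [deg1Rf])
    rw [e, wp_mul continuous_const hγ (fun _ => hm) h, wp_const _ hm]; ring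

/-- The real basis of the model space. -/
def deg1B : Module.Basis (Fin 2 ⊕ Fin 2) ℝ E := Complex.basisOneI.prod Complex.basisOneI

/-- The linear map of a matrix. -/
def deg1L (M : Matrix (Fin 2 ⊕ Fin 2) (Fin 2 ⊕ Fin 2) ℝ) : E →ₗ[ℝ] E := Matrix.toLin deg1B deg1B M

theorem deg1L_cont (M : Matrix (Fin 2 ⊕ Fin 2) (Fin 2 ⊕ Fin 2) ℝ) : Continuous (deg1L M) :=
  (deg1L M).continuous_of_finiteDimensional

theorem deg1L_ne {M : Matrix (Fin 2 ⊕ Fin 2) (Fin 2 ⊕ Fin 2) ℝ} (h : M.det ≠ 0) (x : E)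
    (hx : x ≠ 0) : deg1L M x ≠ 0 := by
  intro h0
  have h1 : LinearMap.det (deg1L M) ≠ 0 := by rwa [deg1L, LinearMap.det_toLin]
  exact h1 ((LinearMap.det_eq_zero_iff_ker_ne_bot).2
    ((Submodule.ne_bot_iff _).2 ⟨x, h0, hx⟩))

theorem deg1L_seg {M N : Matrix (Fin 2 ⊕ Fin 2) (Fin 2 ⊕ Fin 2) ℝ} {s : ℝ}
    (h0 : ∀ r ∈ Icc (0 : ℝ) 1, (M + r • (N - M)).det ≠ 0) (h : Deg1Sg (deg1L M) s) :
    Deg1Sg (deg1L N) s := by
  refine deg1_seg (deg1L_cont M) (deg1L_cont N) (fun r hr x hx => ?_) h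
  have := deg1L_ne (h0 r hr) x hx
  simpa [deg1L] using this

theorem deg1L_diag (d : Fin 2 ⊕ Fin 2 → ℝ) : ⇑(deg1L (Matrix.diagonal d)) =
    Prod.map (deg1Rf (d (.inl 0)) (d (.inl 1))) (deg1Rf (d (.inr 0)) (d (.inr 1))) := by
  funext p
  rw [deg1L, Matrix.toLin_apply]
  refine Prod.ext (Complex.ext ?_ ?_) (Complex.ext ?_ ?_) <;>
    simp [Matrix.mulVec_diagonal, deg1B, deg1Rf]

theorem deg1_mat (M : Matrix (Fin 2 ⊕ Fin 2) (Fin 2 ⊕ Fin 2) ℝ) (hM : M.det ≠ 0) :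
    Deg1Sg (deg1L M) (SignType.sign M.det) := by
  refine Matrix.diagonal_transvection_induction_of_det_ne_zero
    (fun M => Deg1Sg (deg1L M) (SignType.sign M.det)) M hM (fun d hd => ?_) (fun t => ?_)
    fun A B hA hB h h' => ?_
  · rw [Matrix.det_diagonal] at hd ⊢
    have h0 : ∀ i, d i ≠ 0 := fun i => Finset.prod_ne_zero_iff.1 hd i (Finset.mem_univ i)
    have h1 : ∀ i, (SignType.sign (d i) : ℝ) = 1 ∨ (SignType.sign (d i) : ℝ) = -1 := fun i => by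
      rcases (h0 i).lt_or_gt with h | h
      · right; simp [sign_neg h]
      · left; simp [sign_pos h]
    have h2 : ∀ i, (SignType.sign (d i) : ℝ) ≠ 0 := fun i => by
      rcases h1 i with h | h <;> rw [h] <;> norm_num
    refine deg1L_seg (M := Matrix.diagonal fun i => (SignType.sign (d i) : ℝ)) (fun r hr => ?_) ?_
    · rw [Matrix.diagonal_sub, ← Matrix.diagonal_smul, Matrix.diagonal_add, Matrix.det_diagonal]
      refine Finset.prod_ne_zero_iff.2 fun i _ => ?_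
      simp only [Pi.smul_apply, smul_eq_mul]
      rcases (h0 i).lt_or_gt with h | h
      · rw [sign_neg h]
        simp only [SignType.coe_neg_one]
        rcases hr.1.eq_or_lt with h3 | h3
        · rw [← h3]; norm_num
        · nlinarith only [hr.2, mul_pos h3 (neg_pos.2 h)]
      · rw [sign_pos h]
        simp only [SignType.coe_one]
        rcases hr.1.eq_or_lt with h3 | h3
        · rw [← h3]; norm_num
        · nlinarith only [hr.2, mul_pos h3 h]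
    · rw [deg1L_diag]
      have h3 := deg1_prod (deg1_rf_cont _ _) (deg1_rf_cont _ _)
        (deg1_rf_ne (h2 (.inl 0)) (h2 (.inl 1))) (deg1_rf_ne (h2 (.inr 0)) (h2 (.inr 1)))
        (deg1_rf_wp (h1 (.inl 0)) (h1 (.inl 1))) (deg1_rf_wp (h1 (.inr 0)) (h1 (.inr 1)))
      simpa only [Fintype.prod_sum_type, Fin.prod_univ_two, sign_mul, SignType.coe_mul] using h3
  · rw [t.det, sign_one, SignType.coe_one]
    refine deg1L_seg (M := 1) (fun r _ => ?_) ?_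
    · have e : (1 : Matrix (Fin 2 ⊕ Fin 2) (Fin 2 ⊕ Fin 2) ℝ) + r • (t.toMatrix - 1) =
          Matrix.transvection t.i t.j (r * t.c) := by
        simp [Matrix.TransvectionStruct.toMatrix, Matrix.transvection]
      rw [e, Matrix.det_transvection_of_ne _ _ t.hij]
      exact one_ne_zero
    · rw [deg1L, Matrix.toLin_one]
      exact deg1_id
  · have e : ⇑(deg1L (A * B)) = deg1L A ∘ deg1L B := by
      rw [deg1L, Matrix.toLin_mul deg1B deg1B deg1B, LinearMap.coe_comp]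
      rfl
    rw [Matrix.det_mul, sign_mul, SignType.coe_mul, e]
    exact deg1_comp (deg1L_cont B) (deg1L_ne hB) h' h

theorem deg1_lin (D : E →L[ℝ] E) (hD : D.det ≠ 0) : Deg1Sg D (SignType.sign D.det) := by
  have e : (LinearMap.toMatrix deg1B deg1B (D : E →ₗ[ℝ] E)).det = D.det :=
    LinearMap.det_toMatrix _ _
  have h := deg1_mat (LinearMap.toMatrix deg1B deg1B (D : E →ₗ[ℝ] E)) (e ▸ hD)
  rw [deg1L, Matrix.toLin_toMatrix, e] at h
  exact h

theorem om_pos (D : E →L[ℝ] E) (hD : 0 < D.det) {ζ : Chn ℤ E 4}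
    (h : bd ℤ E 3 ζ ∈ chn ℤ ({0}ᶜ : Set E) 3) : ev ℤ Om (cmap ℤ D 4 ζ) = ev ℤ Om ζ := by
  have h1 := deg1_lin D hD.ne' ζ h
  rw [sign_pos hD, SignType.coe_one, one_mul] at h1
  exact_mod_cast h1

theorem om_neg (D : E →L[ℝ] E) (hD : D.det < 0) {ζ : Chn ℤ E 4}
    (h : bd ℤ E 3 ζ ∈ chn ℤ ({0}ᶜ : Set E) 3) : ev ℤ Om (cmap ℤ D 4 ζ) = -ev ℤ Om ζ := by
  have h1 := deg1_lin D hD.ne ζ h
  rw [sign_neg hD, SignType.coe_neg_one, neg_one_mul] at h1
  exact_mod_cast h1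

end HK3
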