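import Pool.Agent.P.MP_9699e0_gt.Deg1

/-! Local degree of a differentiable map. -/

set_option autoImplicit false
set_option linter.unusedSectionVars false

noncomputable section

namespace HK3

open Pool.Agent.P.MP_9699e0_gt Set Filter Topology
open scoped ContDiff

theorem deg2_lower {D : E →L[ℝ] E} (hd : D.det ≠ 0) :
    ∃ c : ℝ, 0 < c ∧ ∀ v : E, c * ‖v‖ ≤ ‖D v‖ := by
  have hk : LinearMap.ker (D : E →ₗ[ℝ] E) = ⊥ := by
    by_contra h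
    exact hd (LinearMap.det_eq_zero_iff_ker_ne_bot.mpr h)
  obtain ⟨K, hK, hA⟩ := LinearMap.exists_antilipschitzWith (D : E →ₗ[ℝ] E) hk
  have hK' : (0 : ℝ) < K := by exact_mod_cast hK
  refine ⟨(K : ℝ)⁻¹, inv_pos.mpr hK', fun v => ?_⟩
  have h1 := hA.le_mul_dist v 0
  simp only [dist_zero_right, map_zero] at h1
  rw [inv_mul_le_iff₀ hK']
  exact h1

theorem deg2_near {F : E → E} {a : E} (h0 : F a = 0) {D : E →L[ℝ] E}
    (hD : HasFDerivAt F D a) (hd : D.det ≠ 0) :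
    ∀ᶠ x in 𝓝 a, ∀ s ∈ Icc (0 : ℝ) 1, x ≠ a → D (x - a) + s • (F x - D (x - a)) ≠ 0 := by
  obtain ⟨c, hc, hcD⟩ := deg2_lower hd
  have h1 := hD.isLittleO.bound (half_pos hc)
  filter_upwards [h1] with x hx s hs hxa h
  rw [h0, sub_zero] at hx
  have h2 : D (x - a) = -(s • (F x - D (x - a))) := eq_neg_of_add_eq_zero_left h
  have h3 : ‖D (x - a)‖ ≤ c / 2 * ‖x - a‖ := by
    calc ‖D (x - a)‖ = ‖s • (F x - D (x - a))‖ := by
          conv_lhs => rw [h2]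
          exact norm_neg _
      _ = s * ‖F x - D (x - a)‖ := by rw [norm_smul, Real.norm_of_nonneg hs.1]
      _ ≤ 1 * ‖F x - D (x - a)‖ := mul_le_mul_of_nonneg_right hs.2 (norm_nonneg _)
      _ ≤ c / 2 * ‖x - a‖ := by rw [one_mul]; exact hx
  have h4 := hcD (x - a)
  have h5 : 0 < ‖x - a‖ := norm_pos_iff.mpr (sub_ne_zero.mpr hxa)
  nlinarith

theorem deg2_kill {V : Set E} {a : E} {G : E → E} (hG : ContinuousOn G V)
    (h0 : ∀ x ∈ V, x ≠ a → G x ≠ 0) {ξ α β : Chn ℤ E 4} (hβ : β ∈ chn ℤ (V ∩ {a}ᶜ) 4)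
    (h : ξ - α - β ∈ bdy ℤ V 4) : ev ℤ Om (cmap ℤ G 4 ξ) = ev ℤ Om (cmap ℤ G 4 α) := by
  have h1 : ev ℤ Om (cmap ℤ G 4 (ξ - α - β)) = 0 :=
    om_bdy (Submodule.mem_sup_left (cmap_bdy hG (mapsTo_univ G V) h))
  have h2 : ev ℤ Om (cmap ℤ G 4 β) = 0 := by
    refine om_bdy (Submodule.mem_sup_right (cmap_mem (hG.mono inter_subset_left) ?_ hβ))
    intro x hx
    exact h0 x hx.1 hx.2
  rw [map_sub, map_sub, map_sub, map_sub, h2, sub_zero, sub_eq_zero] at h1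
  exact h1

theorem deg2_shift {V : Set E} {a : E} {ξ : Chn ℤ E 4} (hξ : ξ ∈ chn ℤ V 4)
    (hb : bd ℤ E 3 ξ ∈ chn ℤ {a}ᶜ 3) :
    bd ℤ E 3 (cmap ℤ (fun p => p - a) 4 ξ) ∈ chn ℤ ({0}ᶜ : Set E) 3 := by
  have hc : Continuous (fun p : E => p - a) := continuous_id.sub continuous_const
  rw [cmap_bd hc.continuousOn hξ]
  refine cmap_mem hc.continuousOn ?_ hb
  intro x hx
  exact sub_ne_zero.mpr hx

theorem om_deriv {V : Set E} (hV : IsOpen V) {a : E} (ha : a ∈ V) {F : E → E}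
    (hF : ContinuousOn F V) (h0 : ∀ x ∈ V, F x = 0 ↔ x = a) {D : E →L[ℝ] E}
    (hD : HasFDerivAt F D a) (hd : D.det ≠ 0) {ξ : Chn ℤ E 4} (hξ : ξ ∈ chn ℤ V 4)
    (hb : bd ℤ E 3 ξ ∈ chn ℤ {a}ᶜ 3) :
    ev ℤ Om (cmap ℤ F 4 ξ) = ev ℤ Om (cmap ℤ D 4 (cmap ℤ (fun p => p - a) 4 ξ)) := by
  have hFa : F a = 0 := (h0 a ha).mpr rfl
  obtain ⟨U, hU, hUo, haU⟩ := eventually_nhds_iff.mp (deg2_near hFa hD hd)
  obtain ⟨c, hc, hcD⟩ := deg2_lower hd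
  have hcov : V ⊆ U ∪ {a}ᶜ := by
    intro x _
    by_cases hx : x = a
    · exact Or.inl (hx ▸ haU)
    · exact Or.inr hx
  obtain ⟨α, hα, β, hβ, hr⟩ := mv_rel hUo isOpen_compl_singleton hcov hξ
    (Submodule.mem_sup_right hb)
  have hsc : Continuous (fun p : E => p - a) := continuous_id.sub continuous_const
  have hGc : Continuous (fun p : E => D (p - a)) := D.continuous.comp hsc
  have hG0 : ∀ x ∈ V, x ≠ a → D (x - a) ≠ 0 := by
    intro x _ hxa h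
    have h4 := hcD (x - a)
    have h5 : 0 < ‖x - a‖ := norm_pos_iff.mpr (sub_ne_zero.mpr hxa)
    rw [h, norm_zero] at h4
    nlinarith
  have e1 : cmap ℤ D 4 (cmap ℤ (fun p => p - a) 4 ξ) = cmap ℤ (fun p : E => D (p - a)) 4 ξ :=
    cmap_comp hsc.continuousOn hξ
  rw [e1, deg2_kill hF (fun x hx hxa h => hxa ((h0 x hx).mp h)) hβ hr,
    deg2_kill hGc.continuousOn hG0 hβ hr]
  have hbα : bd ℤ E 3 α ∈ chn ℤ {a}ᶜ 3 := by
    have h1 : bd ℤ E 3 (ξ - α - β) = 0 := (bdy_le V 4 hr).2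
    have h2 : bd ℤ E 3 α = bd ℤ E 3 ξ - bd ℤ E 3 β := by
      rw [map_sub, map_sub, sub_eq_zero] at h1
      rw [← h1]
      abel
    rw [h2]
    exact Submodule.sub_mem _ hb (chn_mono inter_subset_right 3 (bd_mem hβ))
  have hH : ContinuousOn (fun p : ℝ × E => D (p.2 - a) + p.1 • (F p.2 - D (p.2 - a)))
      (Icc 0 1 ×ˢ (V ∩ U)) := by
    have h1 : ContinuousOn (fun p : ℝ × E => F p.2) (Icc 0 1 ×ˢ (V ∩ U)) :=
      hF.comp continuous_snd.continuousOn (fun p hp => hp.2.1)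
    have h2 : Continuous (fun p : ℝ × E => D (p.2 - a)) := hGc.comp continuous_snd
    exact h2.continuousOn.add (continuous_fst.continuousOn.smul (h1.sub h2.continuousOn))
  have key := om_htpy (fun s x => D (x - a) + s • (F x - D (x - a))) (S := V ∩ U) (T := {a}ᶜ) hH
    (fun s hs x hx => hU x hx.1.2 s hs hx.2) hα hbα
  have f1 : (fun x => D (x - a) + (1 : ℝ) • (F x - D (x - a))) = F := by
    funext x
    rw [one_smul]
    abel
  have f0 : (fun x => D (x - a) + (0 : ℝ) • (F x - D (x - a))) = fun x => D (x - a) := by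
    funext x
    rw [zero_smul, add_zero]
  rw [f1, f0] at key
  exact key

theorem om_deriv_pos {V : Set E} (hV : IsOpen V) {a : E} (ha : a ∈ V) {F : E → E}
    (hF : ContinuousOn F V) (h0 : ∀ x ∈ V, F x = 0 ↔ x = a) {D : E →L[ℝ] E}
    (hD : HasFDerivAt F D a) (hd : 0 < D.det) {ξ : Chn ℤ E 4} (hξ : ξ ∈ chn ℤ V 4)
    (hb : bd ℤ E 3 ξ ∈ chn ℤ {a}ᶜ 3) :
    ev ℤ Om (cmap ℤ F 4 ξ) = ev ℤ Om (cmap ℤ (fun p => p - a) 4 ξ) := by
  rw [om_deriv hV ha hF h0 hD hd.ne' hξ hb, om_pos D hd (deg2_shift hξ hb)]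

theorem om_deriv_neg {V : Set E} (hV : IsOpen V) {a : E} (ha : a ∈ V) {F : E → E}
    (hF : ContinuousOn F V) (h0 : ∀ x ∈ V, F x = 0 ↔ x = a) {D : E →L[ℝ] E}
    (hD : HasFDerivAt F D a) (hd : D.det < 0) {ξ : Chn ℤ E 4} (hξ : ξ ∈ chn ℤ V 4)
    (hb : bd ℤ E 3 ξ ∈ chn ℤ {a}ᶜ 3) :
    ev ℤ Om (cmap ℤ F 4 ξ) = -ev ℤ Om (cmap ℤ (fun p => p - a) 4 ξ) := by
  rw [om_deriv hV ha hF h0 hD hd.ne hξ hb, om_neg D hd (deg2_shift hξ hb)]

/-- A map with invertible derivative has an isolated zero. -/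
theorem isolated_zero {F : E → E} {a : E} (h0 : F a = 0) {D : E →L[ℝ] E}
    (hD : HasFDerivAt F D a) (hd : D.det ≠ 0) : ∀ᶠ x in 𝓝 a, F x = 0 → x = a := by
  filter_upwards [deg2_near h0 hD hd] with x hx hF
  by_contra hxa
  refine hx 1 ⟨zero_le_one, le_rfl⟩ hxa ?_
  rw [hF, one_smul]
  abel

end HK3
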