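import Pool.Agent.P.MP_9699e0_gt.FunM

/-! Existence of the global functions. -/

set_option autoImplicit false
set_option linter.unusedSectionVars false

noncomputable section

namespace HK3

open Pool.Agent.P.MP_9699e0_gt Set Filter Topology
open scoped ContDiff

theorem FnA_cj {ψ : Fin 3 → ℂ → ℝ → ℂ} (h : Psi ψ) (a : Fin 3) (k : ℤ) (y : ℂ) (t : ℝ) :
    ψ a (cj k y) (t + k) = cj k (ψ a y t) := by
  induction k using Int.induction_on with
  | zero => simp [cj_zero]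
  | succ k ih =>
    rw [Lat_cj_succ, Lat_cj_succ, ← ih, ← h.cnj]
    congr 1
    push_cast
    ring
  | pred k ih =>
    have e : ∀ z, cj (-(k : ℤ)) z = (starRingEnd ℂ) (cj (-(k : ℤ) - 1) z) := fun z => by
      rw [← Lat_cj_succ, sub_add_cancel]
    have e2 : t + ((-(k : ℤ) : ℤ) : ℝ) = (t + ((-(k : ℤ) - 1 : ℤ) : ℝ)) + 1 := by
      push_cast
      ring
    rw [e, e, e2, h.cnj] at ih
    exact (starRingEnd ℂ).injective ih

theorem FnA_sin (k l : ℤ) (x : ℝ) :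
    Real.sin (Real.pi * (sg k * x + 2 * l)) = sg k * Real.sin (Real.pi * x) := by
  rw [show Real.pi * (sg k * x + 2 * l) = Real.pi * (sg k * x) + l * (2 * Real.pi) by ring,
    Real.sin_add_int_mul_two_pi]
  rcases sg_cases k with g | g <;> simp [g.1]

theorem FnA_cos (k l : ℤ) (x : ℝ) :
    Real.cos (Real.pi * (sg k * x + 2 * l)) = Real.cos (Real.pi * x) := by
  rw [show Real.pi * (sg k * x + 2 * l) = Real.pi * (sg k * x) + l * (2 * Real.pi) by ring,
    Real.cos_add_int_mul_two_pi]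
  rcases sg_cases k with g | g <;> simp [g.1]

theorem FnA_ex (s : ℝ) :
    ex (s / 2) = ⟨Real.cos (Real.pi * s), Real.sin (Real.pi * s)⟩ := by
  have e : ex (s / 2) = Complex.exp (((Real.pi * s : ℝ) : ℂ) * Complex.I) := by
    unfold ex
    congr 1
    push_cast
    ring
  rw [e]
  exact Complex.ext (Complex.exp_ofReal_mul_I_re _) (Complex.exp_ofReal_mul_I_im _)

theorem FnA_im (e : ℤ) (m : ℤ × ℤ) (α : E) : (trn e m α).1.im = sg e * α.1.im + 2 * m.2 := by
  simp [trn, gi]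

theorem FnA_re (c e : ℤ) (m : ℤ × ℤ) (α : E) :
    c * (trn e m α).1.re = sg e * (c * α.1.re) + 2 * ((c * m.1 : ℤ) : ℝ) := by
  simp [trn, gi]
  ring

theorem FnA_tube {ψ : Fin 3 → ℂ → ℝ → ℂ} (h : Psi ψ) (n : ℕ) (a : Fin 3) (i : I4) (u w : ℂ)
    (hw : Real.exp w.re < ρ) : ψ a (tube n i (u, w)).1 (tube n i (u, w)).2.im =
      eps a i * (⟨Real.cos (Real.pi * (mm a i * u.re)),
        Real.sin (Real.pi * (mm a i * u.re))⟩ : ℂ) := by
  rw [← FnA_ex]
  exact h.tub a i _ _ u.re (Real.exp_pos _) hw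

theorem FnA_sq (k : ℤ) (z : ℂ) : ((sg k : ℂ) * z) ^ 2 = z ^ 2 := by
  rcases sg_cases k with g | g <;> simp [g.1]

theorem Psi.cj {ψ : Fin 3 → ℂ → ℝ → ℂ} (h : Psi ψ) (a : Fin 3) (k : ℤ) (y : ℂ) (t : ℝ) :
    ψ a (cj k y) (t + k) = cj k (ψ a y t) := FnA_cj h a k y t

theorem Psi.gam {ψ : Fin 3 → ℂ → ℝ → ℂ} (h : Psi ψ) {n : ℕ} (hn : Odd n) (a : Fin 3) (k e : ℤ)
    (m : ℤ × ℤ) (l : ℤ) (ξ : E) :
    ψ a (gam n k e m l ξ).1 (gam n k e m l ξ).2.im = HK3.cj k (ψ a ξ.1 ξ.2.im) := by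
  show ψ a (sg e * HK3.cj k ξ.1 + 2 * β (ξ.2.im + n * k) m) (ξ.2.im + n * k) = _
  have h1 := FnA_cj h a (n * k) ξ.1 ξ.2.im
  rw [cj_odd_mul hn, cj_odd_mul hn] at h1
  push_cast at h1
  rw [h.per, ← h1]
  rcases sg_cases e with g | g
  · simp [g.1]
  · simp [g.1, h.neg]

theorem ζ0_gam {ψ : Fin 3 → ℂ → ℝ → ℂ} (h : Psi ψ) {n : ℕ} (hn : Odd n) (a : Fin 3) (k e : ℤ)
    (m : ℤ × ℤ) (l : ℤ) (ξ : E) : ζ0 ψ a (gam n k e m l ξ) = sg k * ζ0 ψ a ξ := by
  unfold ζ0
  rw [h.gam hn]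
  apply Complex.ext
  · rw [Complex.re_ofReal_mul]
    exact FnA_sin k l ξ.2.re
  · rw [Complex.im_ofReal_mul]
    rfl

theorem ζ2_trn (a : Fin 3) (i : I4) (e : ℤ) (m : ℤ × ℤ) (α : E) :
    ζ2 a i (trn e m α) = sg e * ζ2 a i α := by
  unfold ζ2
  rw [FnA_im, FnA_re, FnA_sin, FnA_sin]
  apply Complex.ext
  · rw [Complex.re_ofReal_mul]
  · rw [Complex.im_ofReal_mul]
    exact mul_left_comm _ _ _

theorem ζ0_tube {ψ : Fin 3 → ℂ → ℝ → ℂ} (h : Psi ψ) (n : ℕ) (a : Fin 3) (i : I4) (u w z : ℂ)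
    (hw : Real.exp w.re < ρ) : ζ0 ψ a (tube n i (u, w)) = ζ2 a i (u, z) := by
  unfold ζ0 ζ2
  rw [FnA_tube h n a i u w hw, Complex.im_ofReal_mul]
  rfl

theorem σL_gam {n : ℕ} (hn : Odd n) (k e : ℤ) (m : ℤ × ℤ) (l : ℤ) (ξ : E) :
    σL n (.o, gam n k e m l ξ) = sg k * σL n (.o, ξ) := by
  have h0 : (n : ℝ) ≠ 0 := Nat.cast_ne_zero.2 hn.pos.ne'
  show (rr (gam n k e m l ξ) : ℂ) * ex ((ξ.2.im + n * k) / (2 * n)) =
    sg k * (rr ξ * ex (ξ.2.im / (2 * n)))
  rw [rr_gam hn, show (ξ.2.im + n * k) / (2 * n) = ξ.2.im / (2 * n) + k / 2 by field_simp,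
    ex_add, ex_sg]
  ring

theorem σL_tube {n : ℕ} (hn : Odd n) (i : I4) (u w : ℂ) (hw : Real.exp w.re < ρ) :
    σL n (.o, tube n i (u, w)) = Complex.exp w := by
  have h0 : (n : ℂ) ≠ 0 := Nat.cast_ne_zero.2 hn.pos.ne'
  have hp : (Real.pi : ℂ) ≠ 0 := Complex.ofReal_ne_zero.2 Real.pi_ne_zero
  show (rr (tube n i (u, w)) : ℂ) * ex ((n * w.im / Real.pi) / (2 * n)) = _
  rw [rr_tube n i hw, ex, Complex.ofReal_exp, ← Complex.exp_add]
  congr 1
  conv_rhs => rw [← Complex.re_add_im w]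
  push_cast
  field_simp

theorem continuousOn_ζ0 {ψ : Fin 3 → ℂ → ℝ → ℂ} (h : Psi ψ) (a : Fin 3) :
    ContinuousOn (ζ0 ψ a) W0 := by
  have e : ζ0 ψ a = fun ξ : E => ((Real.sin (Real.pi * ξ.2.re) : ℝ) : ℂ) +
      (((ψ a ξ.1 ξ.2.im).im : ℝ) : ℂ) * Complex.I :=
    funext fun ξ => Complex.mk_eq_add_mul_I _ _
  rw [e]
  refine ContinuousOn.add (Continuous.continuousOn (by fun_prop)) (ContinuousOn.mul ?_
    continuousOn_const)
  exact (Complex.continuous_ofReal.comp Complex.continuous_im).comp_continuousOn (h.cont a)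

theorem continuous_ζ2 (a : Fin 3) (i : I4) : Continuous (ζ2 a i) := by
  have e : ζ2 a i = fun α : E => ((Real.sin (Real.pi * α.1.im) : ℝ) : ℂ) +
      ((eps a i * Real.sin (Real.pi * (mm a i * α.1.re)) : ℝ) : ℂ) * Complex.I :=
    funext fun ξ => Complex.mk_eq_add_mul_I _ _
  rw [e]
  fun_prop

theorem continuous_σL (n : ℕ) (k : K) : Continuous fun ξ : E => σL n (k, ξ) := by
  cases k with
  | o =>
    show Continuous fun ξ : E => (rr ξ : ℂ) * ex (ξ.2.im / (2 * n))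
    exact (Complex.continuous_ofReal.comp continuous_rr).mul (continuous_ex.comp (by fun_prop))
  | n i => exact continuous_snd
  | a i c => exact continuous_snd
  | b i c => exact continuous_const

theorem exists_fns {n : ℕ} (hn : Odd n) {ψ : Fin 3 → ℂ → ℝ → ℂ} (h : Psi ψ) :
    Nonempty (Fns n) := by
  obtain ⟨C, hC⟩ := exists_desc hn (fun ξ => Real.cos (Real.pi * ξ.2.re))
    (fun _ α => Real.cos (Real.pi * α.1.im)) (Continuous.continuousOn (by fun_prop))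
    (fun _ => Continuous.continuousOn (by fun_prop))
    (fun k e m l ξ _ => FnA_cos k l ξ.2.re)
    (fun i e m α _ => by rw [FnA_im, FnA_cos]) (fun i a w _ => rfl)
  have hP : ∀ a, ∃ F, Desc n F (fun ξ => (ψ a ξ.1 ξ.2.im).re)
      fun i α => eps a i * Real.cos (Real.pi * (mm a i * α.1.re)) := fun a =>
    exists_desc hn _ _ (Complex.continuous_re.comp_continuousOn (h.cont a))
      (fun _ => Continuous.continuousOn (by fun_prop))
      (fun k e m l ξ _ => by rw [h.gam hn]; rfl)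
      (fun i e m α _ => by rw [FnA_re, FnA_cos])
      (fun i u w hw => by rw [FnA_tube h n a i u w hw, Complex.re_ofReal_mul])
  have hQ : ∀ a, ∃ F, Desc n F (fun ξ => ζ0 ψ a ξ ^ 2) fun i α => ζ2 a i α ^ 2 := fun a =>
    exists_desc hn _ _ ((continuousOn_ζ0 h a).pow 2)
      (fun i => ((continuous_ζ2 a i).pow 2).continuousOn)
      (fun k e m l ξ _ => by rw [ζ0_gam h hn, FnA_sq])
      (fun i e m α _ => by rw [ζ2_trn, FnA_sq])
      (fun i u w hw => by rw [ζ0_tube h n a i u w (Complex.exp w) hw])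
  have hR : ∀ i, ∃ F, Desc n F (rc i) fun j α => if j = i then ‖α.2‖ else ρ := fun i =>
    exists_desc hn _ _ (continuous_rc i).continuousOn
      (fun j => by
        by_cases e : j = i
        · simp only [e, if_true]
          exact continuous_snd.norm.continuousOn
        · simp only [e, if_false]
          exact continuousOn_const)
      (fun k e m l ξ _ => rc_gam hn i k e m l ξ)
      (fun j e m α _ => by
        have : ‖(trn e m α).2‖ = ‖α.2‖ := by
          rcases sg_cases e with g | g <;> simp [trn, g.1]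
        rw [this])
      (fun j u w hw => by rw [rc_tube n j i hw, Complex.norm_exp])
  obtain ⟨Z, hZ⟩ := exists_desc hn (fun ξ => σL n (.o, ξ) ^ 2) (fun _ α => α.2 ^ 2)
    ((continuous_σL n .o).pow 2).continuousOn (fun _ => (continuous_snd.pow 2).continuousOn)
    (fun k e m l ξ _ => by rw [σL_gam hn, FnA_sq])
    (fun i e m α _ => FnA_sq e α.2) (fun i u w hw => by rw [σL_tube hn i u w hw])
  choose P hP using hP
  choose Q hQ using hQ
  choose R hR using hR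
  exact ⟨⟨ψ, h, C, P, Q, R, Z, hC, hP, hQ, hR, hZ⟩⟩

end HK3
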