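import Pool.Agent.P.MP_9699e0_gt.Lb1

/-! Algebra of line bundles. -/

set_option autoImplicit false
set_option linter.unusedSectionVars false

noncomputable section

namespace HK3

open Pool.Agent.P.MP_9699e0_gt Set Filter Topology
open scoped ContDiff

variable {X : Type} [TopologicalSpace X]

variable {L : Et X}

namespace Et

theorem Lb2_symm {a b : L.Ω} (h : L.R a b) : L.R b a := ⟨h.2.1, h.1, h.2.2.symm⟩

theorem Lb2_path {J : L.Ω → L.Ω → ℂ} (h : L.Coc J) {γ γ' : Simp L.Ω 1}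
    (hr : ∀ t, L.R (γ t) (γ' t)) : Continuous fun t => J (γ t) (γ' t) :=
  h.cont.comp_continuous (f := fun t => (γ t, γ' t)) (γ.continuous.prodMk γ'.continuous) hr

theorem Lb2_arg_mul {z z' : ℂ} {s t : ℝ} (h : z = ‖z‖ * ex s) (h' : z' = ‖z'‖ * ex t) :
    z * z' = ‖z * z'‖ * ex (s + t) := by
  rw [ex_add, norm_mul, Complex.ofReal_mul]
  calc z * z' = (‖z‖ * ex s) * (‖z'‖ * ex t) := by rw [← h, ← h']
    _ = _ := by ring

theorem Lb2_arg_eq {z : ℂ} (hz : z ≠ 0) {s t : ℝ} (h : z = ‖z‖ * ex s) (h' : z = ‖z‖ * ex t) :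
    ex s = ex t :=
  mul_left_cancel₀ (Complex.ofReal_ne_zero.2 (norm_ne_zero_iff.2 hz)) (h.symm.trans h')

theorem Lb2_cobd_zero {M : Type} [AddCommGroup M] {Y : Type} [TopologicalSpace Y] {n : ℕ} :
    cobd (0 : Simp Y n → M) = 0 := by
  funext σ
  simp [cobd]

theorem Lb2_cobd_sub {M : Type} [AddCommGroup M] {Y : Type} [TopologicalSpace Y] {n : ℕ}
    (a b : Simp Y n → M) : cobd (a - b) = cobd a - cobd b := by
  rw [sub_eq_add_neg, cobd_add, cobd_neg, ← sub_eq_add_neg]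

/-- Moving the first point along the second one. -/
theorem Lb2_move {a b : L.Ω} (h : L.R a b) : ∃ m : L.Ω → L.Ω, ContinuousAt m b ∧ m b = a ∧
    ∀ᶠ b' in 𝓝 b, L.R (m b') b' := by
  obtain ⟨φ, ha, hφ⟩ := L.loc a h.1
  have hb : ContinuousAt L.f b := L.loc.continuousAt h.2.1
  have e1 : L.f b = φ a := by rw [← h.2.2, hφ]
  have ht : L.f b ∈ φ.target := e1 ▸ φ.map_source ha
  have e2 : φ.symm (L.f b) = a := by rw [e1, φ.left_inv ha]
  have hc : ContinuousAt (fun b' => φ.symm (L.f b')) b :=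
    ContinuousAt.comp (f := L.f) (φ.continuousAt_symm ht) hb
  refine ⟨fun b' => φ.symm (L.f b'), hc, e2, ?_⟩
  have h1 : ∀ᶠ b' in 𝓝 b, φ.symm (L.f b') ∈ L.dom :=
    hc.preimage_mem_nhds (by rw [e2]; exact L.opn.mem_nhds h.1)
  have h2 : ∀ᶠ b' in 𝓝 b, L.f b' ∈ φ.target := hb.preimage_mem_nhds (φ.open_target.mem_nhds ht)
  filter_upwards [h1, h2, L.opn.mem_nhds h.2.1] with b' k1 k2 k3
  refine ⟨k1, k3, ?_⟩
  have := φ.right_inv k2
  rwa [← hφ] at this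


theorem Coc.mul' {J J' : L.Ω → L.Ω → ℂ} (h : L.Coc J) (h' : L.Coc J') :
    L.Coc fun a b => J a b * J' a b := by
  refine ⟨h.cont.mul h'.cont, fun a b r => mul_ne_zero (h.ne a b r) (h'.ne a b r),
    fun a b c r r' => ?_⟩
  rw [← h.mul a b c r r', ← h'.mul a b c r r']
  ring

theorem Coc.prod {ι : Type} (T : Finset ι) {J : ι → L.Ω → L.Ω → ℂ} (h : ∀ i ∈ T, L.Coc (J i)) :
    L.Coc fun a b => ∏ i ∈ T, J i a b := by
  refine ⟨continuousOn_finsetProd T fun i hi => (h i hi).cont,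
    fun a b r => Finset.prod_ne_zero_iff.2 fun i hi => (h i hi).ne a b r, fun a b c r r' => ?_⟩
  rw [← Finset.prod_mul_distrib]
  exact Finset.prod_congr rfl fun i hi => (h i hi).mul a b c r r'

theorem Sec.prod {ι : Type} (T : Finset ι) {J : ι → L.Ω → L.Ω → ℂ} {s : ι → L.Ω → ℂ} {O : Set X}
    (h : ∀ i ∈ T, L.Sec (J i) O (s i)) :
    L.Sec (fun a b => ∏ i ∈ T, J i a b) O fun a => ∏ i ∈ T, s i a := by
  refine ⟨continuousOn_finsetProd T fun i hi => (h i hi).cont, fun a b r ha => ?_⟩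
  rw [← Finset.prod_mul_distrib]
  exact Finset.prod_congr rfl fun i hi => (h i hi).eqv a b r ha

theorem Sec.mono {J : L.Ω → L.Ω → ℂ} {s : L.Ω → ℂ} {O O' : Set X} (h : L.Sec J O s)
    (h' : O' ⊆ O) : L.Sec J O' s := 
  ⟨h.cont.mono fun _ ha => ⟨ha.1, h' ha.2⟩, fun a b r ha => h.eqv a b r (h' ha)⟩

theorem Rep.mul {J J' : L.Ω → L.Ω → ℂ} (h : L.Coc J) (h' : L.Coc J') {c c' : Simp X 2 → ℤ}
    (hc : L.Rep J c) (hc' : L.Rep J' c') : L.Rep (fun a b => J a b * J' a b) (c + c') := by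
  obtain ⟨z, w, e, k⟩ := hc
  obtain ⟨z', w', e', k'⟩ := hc'
  refine ⟨by rw [cobd_add, z, z', add_zero], w + w', fun a => e a * e' a,
    fun a ha => mul_ne_zero (k.ne a ha) (k'.ne a ha), fun a b r => ?_, fun γ hγ => ?_,
    fun γ γ' hr => ?_, fun σ hσ => ?_⟩
  · rw [k.eqv a b r, k'.eqv a b r]
    ring
  · rw [mul_div_mul_comm]
    exact Lb2_arg_mul (k.arg γ hγ) (k'.arg γ hγ)
  · rw [wp_mul (Lb2_path h hr) (Lb2_path h' hr) (fun t => h.ne _ _ (hr t))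
      (fun t => h'.ne _ _ (hr t)), ← k.chg γ γ' hr, ← k'.chg γ γ' hr]
    simp only [Pi.add_apply]
    ring
  · rw [cobd_add, Pi.add_apply, Pi.add_apply, Int.cast_add, k.val σ hσ, k'.val σ hσ]

theorem Rep.prod {ι : Type} (T : Finset ι) {J : ι → L.Ω → L.Ω → ℂ} (h : ∀ i ∈ T, L.Coc (J i))
    {c : ι → Simp X 2 → ℤ} (hc : ∀ i ∈ T, L.Rep (J i) (c i)) :
    L.Rep (fun a b => ∏ i ∈ T, J i a b) (∑ i ∈ T, c i) := by
  classical
  induction T using Finset.induction_on with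
  | empty =>
    simp only [Finset.prod_empty, Finset.sum_empty]
    refine ⟨Lb2_cobd_zero, 0, fun _ => 1, fun _ _ => one_ne_zero, fun _ _ _ => (mul_one _).symm,
      fun γ _ => ?_, fun γ γ' _ => ?_, fun σ _ => ?_⟩
    · simp [ex_zero]
    · rw [wp_const 1 one_ne_zero]
      simp
    · rw [Lb2_cobd_zero]
      simp
  | insert i T hi ih =>
    simp only [Finset.prod_insert hi, Finset.sum_insert hi]
    exact Rep.mul (h i (Finset.mem_insert_self _ _))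
      (Coc.prod T fun j hj => h j (Finset.mem_insert_of_mem hj)) (hc i (Finset.mem_insert_self _ _))
      (ih (fun j hj => h j (Finset.mem_insert_of_mem hj))
        fun j hj => hc j (Finset.mem_insert_of_mem hj))

/-- Isomorphic bundles have cohomologous representatives. -/
theorem Rep.coh {J J' : L.Ω → L.Ω → ℂ} (h : L.Coc J) (h' : L.Coc J') {u : L.Ω → ℂ}
    (hu : NZ u L.dom) (e : ∀ a b, L.R a b → J' a b * u b = u a * J a b) {c c' : Simp X 2 → ℤ}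
    (hc : L.Rep J c) (hc' : L.Rep J' c') : Coh c c' := by
  classical
  obtain ⟨z, w, p, k⟩ := hc
  obtain ⟨z', w', p', k'⟩ := hc'
  choose sc hs1 hs2 using L.surj
  choose ar har using exists_ex
  let κ : L.Ω → ℝ := fun a => ar (p' (sc (L.f a)) / (u (sc (L.f a)) * p (sc (L.f a))))
  have hκ : ∀ a ∈ L.dom, p' a / (u a * p a) = ‖p' a / (u a * p a)‖ * ex (κ a) := by
    intro a ha
    have r : L.R a (sc (L.f a)) := ⟨ha, hs1 _, (hs2 _).symm⟩
    have e1 : p' a / (u a * p a) = p' (sc (L.f a)) / (u (sc (L.f a)) * p (sc (L.f a))) := by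
      rw [k.eqv _ _ r, k'.eqv _ _ r, ← mul_assoc, ← e _ _ r, mul_assoc,
        mul_div_mul_left _ _ (h'.ne _ _ r)]
    rw [e1]
    exact har _
  have hκ' : ∀ a b, L.R a b → κ a = κ b := fun a b r => by simp only [κ, r.2.2]
  let β : Simp L.Ω 1 → ℝ := w' - w - wd u - cobd (pt κ)
  have hβ : ∀ γ, β γ = w' γ - w γ - wd u γ - (κ (vtx γ 1) - κ (vtx γ 0)) := fun γ => by
    simp only [β, Pi.sub_apply, cobd_pt]
  have hu1 : ∀ γ : Simp L.Ω 1, range γ ⊆ L.dom → Continuous fun t => u (γ t) := fun γ hγ =>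
    hu.1.comp_continuous γ.continuous fun t => hγ ⟨t, rfl⟩
  have hint : ∀ γ : Simp L.Ω 1, range γ ⊆ L.dom → ∃ m : ℤ, β γ = m := by
    intro γ hγ
    have m0 : vtx γ 0 ∈ L.dom := hγ ⟨_, rfl⟩
    have m1 : vtx γ 1 ∈ L.dom := hγ ⟨_, rfl⟩
    have a1 := Lb2_arg_mul (k'.arg γ hγ) (hκ _ m0)
    have au : u (vtx γ 1) / u (vtx γ 0) = ‖u (vtx γ 1) / u (vtx γ 0)‖ * ex (wd u γ) :=
      wp_arg (hu1 γ hγ) fun t => hu.2 _ (hγ ⟨t, rfl⟩)
    have a2 := Lb2_arg_mul (Lb2_arg_mul (k.arg γ hγ) au) (hκ _ m1)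
    have n1 := k.ne _ m0
    have n2 := k.ne _ m1
    have n3 := k'.ne _ m0
    have n4 := k'.ne _ m1
    have n5 := hu.2 _ m0
    have n6 := hu.2 _ m1
    have e1 : p (vtx γ 1) / p (vtx γ 0) * (u (vtx γ 1) / u (vtx γ 0)) *
        (p' (vtx γ 1) / (u (vtx γ 1) * p (vtx γ 1))) = p' (vtx γ 1) / p' (vtx γ 0) *
        (p' (vtx γ 0) / (u (vtx γ 0) * p (vtx γ 0))) := by
      field_simp
    rw [e1] at a2
    obtain ⟨m, hm⟩ := ex_eq_iff.1 (Lb2_arg_eq (mul_ne_zero (div_ne_zero n4 n3)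
      (div_ne_zero n3 (mul_ne_zero n5 n1))) a1 a2)
    exact ⟨m, by rw [hβ]; linarith⟩
  have hind : ∀ γ γ' : Simp L.Ω 1, (∀ t, L.R (γ t) (γ' t)) → β γ = β γ' := by
    intro γ γ' hr
    have hγ : range γ ⊆ L.dom := by
      rintro _ ⟨t, rfl⟩
      exact (hr t).1
    have hγ' : range γ' ⊆ L.dom := by
      rintro _ ⟨t, rfl⟩
      exact (hr t).2.1
    have e1 := wp_mul (Lb2_path h' hr) (hu1 γ' hγ') (fun t => h'.ne _ _ (hr t))
      fun t => hu.2 _ (hr t).2.1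
    have e2 := wp_mul (hu1 γ hγ) (Lb2_path h hr) (fun t => hu.2 _ (hr t).1)
      fun t => h.ne _ _ (hr t)
    have e3 : (fun t => J' (γ t) (γ' t) * u (γ' t)) = fun t => u (γ t) * J (γ t) (γ' t) :=
      funext fun t => e _ _ (hr t)
    rw [e3, e2] at e1
    have e4 := k.chg γ γ' hr
    have e5 := k'.chg γ γ' hr
    have e6 : κ (vtx γ 0) = κ (vtx γ' 0) := hκ' _ _ (hr _)
    have e7 : κ (vtx γ 1) = κ (vtx γ' 1) := hκ' _ _ (hr _)
    have e8 : wd u γ = wp fun t => u (γ t) := rfl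
    have e9 : wd u γ' = wp fun t => u (γ' t) := rfl
    rw [hβ, hβ]
    linarith
  have hf : ContinuousOn L.f L.dom := L.loc.continuousOn
  have hb : ∀ τ : Simp X 1, ∃ m : ℤ, ∀ γ : Simp L.Ω 1, range γ ⊆ L.dom → smap L.f γ = τ →
      β γ = m := by
    intro τ
    by_cases hτ : ∃ γ : Simp L.Ω 1, range γ ⊆ L.dom ∧ smap L.f γ = τ
    · obtain ⟨γ', hγ', e'⟩ := hτ
      obtain ⟨m, hm⟩ := hint γ' hγ'
      refine ⟨m, fun γ hγ e'' => (hind γ γ' fun t => ⟨hγ ⟨t, rfl⟩, hγ' ⟨t, rfl⟩, ?_⟩).trans hm⟩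
      rw [← smap_apply hf hγ, ← smap_apply hf hγ', e', e'']
    · exact ⟨0, fun γ hγ e'' => absurd ⟨γ, hγ, e''⟩ hτ⟩
  choose b hb using hb
  obtain ⟨b', hb', -⟩ := L.small_lift.cob (c' - c - cobd b)
    (fun τ _ => by rw [Lb2_cobd_sub, Lb2_cobd_sub, z, z', cobd_cobd]; simp) (by
      rintro _ - ⟨σ, hσ, rfl⟩
      have e1 : ((cobd b (smap L.f σ) : ℤ) : ℝ) = cobd β σ := by
        rw [← cobd_smap b hf hσ, cobd_cast]
        exact cobd_congr (fun γ hγ => (hb _ γ hγ rfl).symm) hσ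
      have e2 : cobd β σ = cobd w' σ - cobd w σ := by
        simp only [β, Lb2_cobd_sub, Pi.sub_apply, cobd_cobd, cobd_wd hu hσ, Pi.zero_apply, sub_zero]
      have e3 : (((c' - c - cobd b) (smap L.f σ) : ℤ) : ℝ) = 0 := by
        rw [Pi.sub_apply, Pi.sub_apply, Int.cast_sub, Int.cast_sub, e1, e2, k.val σ hσ,
          k'.val σ hσ, sub_self]
      exact_mod_cast e3)
  refine ⟨-(b + b'), funext fun σ => ?_⟩
  have e1 := hb' σ (subset_univ _)
  rw [cobd_neg, cobd_add]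
  simp only [Pi.sub_apply, Pi.add_apply, Pi.neg_apply] at e1 ⊢
  linarith

theorem Coc.pull {L' : Et X} {J : L.Ω → L.Ω → ℂ} (h : L.Coc J) (g : X → X) {π : L'.Ω → L.Ω}
    (hπ : ContinuousOn π L'.dom) (hm : MapsTo π L'.dom L.dom)
    (e : ∀ a ∈ L'.dom, L.f (π a) = g (L'.f a)) : L'.Coc fun a b => J (π a) (π b) := by
  have r : ∀ a b, L'.R a b → L.R (π a) (π b) := fun a b r =>
    ⟨hm r.1, hm r.2.1, by rw [e a r.1, e b r.2.1, r.2.2]⟩
  refine ⟨?_, fun a b k => h.ne _ _ (r a b k), fun a b c k k' => h.mul _ _ _ (r a b k) (r b c k')⟩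
  exact h.cont.comp (f := fun p : L'.Ω × L'.Ω => (π p.1, π p.2))
    ((hπ.comp continuous_fst.continuousOn fun p hp => hp.1).prodMk
      (hπ.comp continuous_snd.continuousOn fun p hp => hp.2.1)) fun p hp => r _ _ hp

theorem Rep.pull {L' : Et X} {J : L.Ω → L.Ω → ℂ} (g : C(X, X)) {π : L'.Ω → L.Ω}
    (hπ : ContinuousOn π L'.dom) (hm : MapsTo π L'.dom L.dom)
    (e : ∀ a ∈ L'.dom, L.f (π a) = g (L'.f a)) {c : Simp X 2 → ℤ} (hc : L.Rep J c) :
    L'.Rep (fun a b => J (π a) (π b)) fun σ => c (g.comp σ) := by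
  obtain ⟨z, w, p, k⟩ := hc
  have r : ∀ a b, L'.R a b → L.R (π a) (π b) := fun a b r =>
    ⟨hm r.1, hm r.2.1, by rw [e a r.1, e b r.2.1, r.2.2]⟩
  have hr : ∀ {n : ℕ} (σ : Simp L'.Ω n), range σ ⊆ L'.dom → range (smap π σ) ⊆ L.dom := by
    rintro n σ hσ _ ⟨t, rfl⟩
    rw [smap_apply hπ hσ]
    exact hm (hσ ⟨t, rfl⟩)
  refine ⟨funext fun τ => ?_, fun γ => w (smap π γ), fun a => p (π a), fun a ha => k.ne _ (hm ha),
    fun a b h => k.eqv _ _ (r a b h), fun γ hγ => ?_, fun γ γ' h => ?_, fun σ hσ => ?_⟩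
  · have e1 := cobd_smap c (S := univ) g.continuous.continuousOn (τ := τ) (subset_univ _)
    simp only [smap_coe] at e1
    rw [e1, z]
    rfl
  · have e1 := k.arg _ (hr γ hγ)
    have e2 : ∀ i, vtx (smap π γ) i = π (vtx γ i) := fun i => smap_apply hπ hγ _
    rwa [e2, e2] at e1
  · have hγ : range γ ⊆ L'.dom := by
      rintro _ ⟨t, rfl⟩
      exact (h t).1
    have hγ' : range γ' ⊆ L'.dom := by
      rintro _ ⟨t, rfl⟩
      exact (h t).2.1
    have e1 := k.chg (smap π γ) (smap π γ') fun t => by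
      rw [smap_apply hπ hγ, smap_apply hπ hγ']
      exact r _ _ (h t)
    simpa only [smap_apply hπ hγ, smap_apply hπ hγ'] using e1
  · have e1 : g.comp (smap L'.f σ) = smap L.f (smap π σ) := by
      ext t
      rw [smap_apply L.loc.continuousOn (hr σ hσ), smap_apply hπ hσ, e _ (hσ ⟨t, rfl⟩),
        ContinuousMap.comp_apply, smap_apply L'.loc.continuousOn hσ]
    rw [cobd_smap w hπ hσ, ← k.val _ (hr σ hσ), ← e1]

/-- An identity on the fibre product follows from the identity on a dense set. -/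
theorem eq_of_dense {u v : L.Ω → L.Ω → ℂ}
    (hu : ContinuousOn (fun p : L.Ω × L.Ω => u p.1 p.2) {p | L.R p.1 p.2})
    (hv : ContinuousOn (fun p : L.Ω × L.Ω => v p.1 p.2) {p | L.R p.1 p.2}) {S : Set L.Ω}
    (hS : ∀ a ∈ L.dom, ∃ᶠ b in 𝓝 a, b ∈ S) (h : ∀ a b, L.R a b → b ∈ S → u a b = v a b) :
    ∀ a b, L.R a b → u a b = v a b := by
  intro a b r
  obtain ⟨m, hc, hm, he⟩ := Lb2_move r
  have ht : Tendsto (fun b' => (m b', b')) (𝓝 b) (𝓝[{p | L.R p.1 p.2}] (a, b)) := by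
    refine tendsto_nhdsWithin_iff.2 ⟨?_, he⟩
    have := hc.prodMk continuousAt_id
    rw [ContinuousAt, hm] at this
    exact this
  refine tendsto_nhds_unique_of_frequently_eq ((hu (a, b) r).tendsto.comp ht)
    ((hv (a, b) r).tendsto.comp ht) ?_
  exact ((hS b r.2.1).and_eventually he).mono fun b' k => h _ _ k.2 k.1

/-- Extension of a section from an open part of the cover. -/
theorem exists_ext {J : L.Ω → L.Ω → ℂ} (h : L.Coc J) {V : Set L.Ω} (hV : IsOpen V)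
    (hd : V ⊆ L.dom) {s : L.Ω → ℂ} (hs : ContinuousOn s V)
    (e : ∀ a ∈ V, ∀ b ∈ V, L.f a = L.f b → s a = J a b * s b) :
    ∃ s', L.Sec J (L.f '' V) s' ∧ EqOn s' s V := by
  have h1 : ∀ a : L.Ω, ∃ z : ℂ, a ∈ L.dom → ∀ b ∈ V, L.f a = L.f b → z = J a b * s b := by
    intro a
    by_cases ha : ∃ b ∈ V, L.f a = L.f b
    · obtain ⟨b₀, hb₀, e₀⟩ := ha
      refine ⟨J a b₀ * s b₀, fun ha b hb e₁ => ?_⟩
      rw [e b₀ hb₀ b hb (e₀.symm.trans e₁), ← mul_assoc,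
        h.mul a b₀ b ⟨ha, hd hb₀, e₀⟩ ⟨hd hb₀, hd hb, e₀.symm.trans e₁⟩]
    · exact ⟨0, fun _ b hb e₁ => absurd ⟨b, hb, e₁⟩ ha⟩
  choose s' hs' using h1
  refine ⟨s', ⟨?_, ?_⟩, fun a ha => ?_⟩
  · rintro a ⟨ha, c, hc, e₀⟩
    have r : L.R c a := ⟨hd hc, ha, e₀⟩
    obtain ⟨m, hm, e₁, he⟩ := Lb2_move r
    have ht : Tendsto (fun a' => (a', m a')) (𝓝 a) (𝓝[{p | L.R p.1 p.2}] (a, c)) := by
      refine tendsto_nhdsWithin_iff.2 ⟨?_, he.mono fun _ k => Lb2_symm k⟩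
      have := continuousAt_id.prodMk hm
      rw [ContinuousAt, e₁] at this
      exact this
    have hm' : Tendsto m (𝓝 a) (𝓝 c) := by
      rw [← e₁]
      exact hm
    have t1 := (h.cont (a, c) (Lb2_symm r)).tendsto.comp ht
    have t2 := (hs.continuousAt (hV.mem_nhds hc)).tendsto.comp hm'
    refine ContinuousAt.continuousWithinAt ?_
    rw [ContinuousAt, hs' a ha c hc e₀.symm]
    refine (t1.mul t2).congr' ?_
    filter_upwards [he, hm' (hV.mem_nhds hc)] with a' k1 k2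
    exact (hs' a' k1.2.1 _ k2 k1.2.2.symm).symm
  · rintro a b r ⟨c, hc, e₀⟩
    rw [hs' a r.1 c hc e₀.symm, hs' b r.2.1 c hc (r.2.2.symm.trans e₀.symm), ← mul_assoc,
      h.mul a b c r ⟨r.2.1, hd hc, r.2.2.symm.trans e₀.symm⟩]
  · rw [hs' a (hd ha) a ha rfl]
    exact (e a ha a ha rfl).symm

end Et

end HK3
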