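import Pool.Agent.P.MP_9699e0_gt.GlDefs
import Pool.Agent.P.MP_9699e0_gt.Lb2

/-! Line bundles given by local equations. -/

set_option autoImplicit false
set_option linter.unusedSectionVars false

noncomputable section

namespace HK3

open Pool.Agent.P.MP_9699e0_gt Set Filter Topology
open scoped ContDiff

section generic

variable {X : Type} [TopologicalSpace X] (L : Et X)

theorem Glue3_inj {b : L.Ω} (hb : b ∈ L.dom) : ∃ V ∈ 𝓝 b, InjOn L.f V := by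
  obtain ⟨e, he, hf⟩ := L.loc b hb
  exact ⟨e.source, e.open_source.mem_nhds he, hf ▸ e.injOn⟩

theorem Glue3_sec {a b : L.Ω} (hr : L.R a b) :
    ∃ s : L.Ω → L.Ω, Tendsto s (𝓝 a) (𝓝 b) ∧ ∀ᶠ ξ in 𝓝 a, L.R ξ (s ξ) := by
  obtain ⟨ha, hb, hab⟩ := hr
  obtain ⟨e, he, hf⟩ := L.loc b hb
  have h1 : Tendsto L.f (𝓝 a) (𝓝 (e b)) := by
    rw [← hf, ← hab]
    exact L.loc.continuousAt ha
  have h2 : Tendsto (fun ξ => e.symm (L.f ξ)) (𝓝 a) (𝓝 b) := (e.tendsto_symm he).comp h1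
  refine ⟨_, h2, ?_⟩
  filter_upwards [L.opn.mem_nhds ha, h2.eventually (L.opn.mem_nhds hb),
    h1.eventually (e.open_target.mem_nhds (e.map_source he))] with ξ h3 h4 h5
  refine ⟨h3, h4, ?_⟩
  have := e.right_inv h5
  rw [← hf] at this
  exact this.symm

/-- `z` is the limit of the quotient of the values of `σ` at related points. -/
def Glue3Gd (σ : L.Ω → ℂ) (a b : L.Ω) (z : ℂ) : Prop :=
  ∃ u : L.Ω × L.Ω → ℂ, Tendsto u (𝓝[{p | L.R p.1 p.2}] (a, b)) (𝓝 z) ∧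
    ∀ᶠ p in 𝓝[{p | L.R p.1 p.2}] (a, b), σ p.1 = u p * σ p.2

variable {L} {σ : L.Ω → ℂ}

theorem Glue3_fst (a b : L.Ω) :
    Tendsto (fun p : L.Ω × L.Ω => p.1) (𝓝[{p | L.R p.1 p.2}] (a, b)) (𝓝 a) :=
  (continuous_fst.tendsto (a, b)).mono_left nhdsWithin_le_nhds

theorem Glue3_snd (a b : L.Ω) :
    Tendsto (fun p : L.Ω × L.Ω => p.2) (𝓝[{p | L.R p.1 p.2}] (a, b)) (𝓝 b) :=
  (continuous_snd.tendsto (a, b)).mono_left nhdsWithin_le_nhds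

theorem Glue3_of_graph {a b : L.Ω} (hb : b ∈ L.dom) {s : L.Ω → L.Ω} (hs : Tendsto s (𝓝 a) (𝓝 b))
    {u : L.Ω → ℂ} {z : ℂ} (hu : Tendsto u (𝓝 a) (𝓝 z))
    (h : ∀ᶠ ξ in 𝓝 a, L.f (s ξ) = L.f ξ ∧ σ ξ = u ξ * σ (s ξ)) : Glue3Gd L σ a b z := by
  obtain ⟨V, hV, hi⟩ := Glue3_inj L hb
  refine ⟨fun p => u p.1, hu.comp (Glue3_fst a b), ?_⟩
  filter_upwards [(Glue3_fst a b).eventually h, (hs.comp (Glue3_fst a b)).eventually hV,
    (Glue3_snd a b).eventually hV, self_mem_nhdsWithin] with p h1 h2 h3 h4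
  rw [← hi h2 h3 (h1.1.trans h4.2.2)]
  exact h1.2

theorem Glue3_refl {a : L.Ω} (ha : a ∈ L.dom) : Glue3Gd L σ a a 1 :=
  Glue3_of_graph ha (s := id) tendsto_id (u := fun _ => 1) tendsto_const_nhds
    (Eventually.of_forall fun _ => ⟨rfl, (one_mul _).symm⟩)

theorem Glue3_symm {a b : L.Ω} {z : ℂ} (h : Glue3Gd L σ a b z) (hz : z ≠ 0) :
    Glue3Gd L σ b a z⁻¹ := by
  obtain ⟨u, hu, he⟩ := h
  have hs : Tendsto (fun p : L.Ω × L.Ω => (p.2, p.1)) (𝓝[{p | L.R p.1 p.2}] (b, a))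
      (𝓝[{p | L.R p.1 p.2}] (a, b)) := by
    refine tendsto_nhdsWithin_iff.2 ⟨(Glue3_snd b a).prodMk_nhds (Glue3_fst b a), ?_⟩
    filter_upwards [self_mem_nhdsWithin] with p hp
    exact ⟨hp.2.1, hp.1, hp.2.2.symm⟩
  refine ⟨fun p => (u (p.2, p.1))⁻¹, (hu.comp hs).inv₀ hz, ?_⟩
  filter_upwards [hs.eventually he, (hu.comp hs).eventually_ne hz] with p h1 h2
  have h3 : u (p.2, p.1) ≠ 0 := h2
  have h4 : σ p.2 = u (p.2, p.1) * σ p.1 := h1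
  rw [h4, inv_mul_cancel_left₀ h3]

theorem Glue3_mul {a b c : L.Ω} {z z' : ℂ} (hr : L.R a b) (h : Glue3Gd L σ a b z)
    (h' : Glue3Gd L σ b c z') : Glue3Gd L σ a c (z * z') := by
  obtain ⟨u, hu, he⟩ := h
  obtain ⟨u', hu', he'⟩ := h'
  obtain ⟨s, hs, hR⟩ := Glue3_sec L hr
  have h1 : Tendsto (fun p : L.Ω × L.Ω => (p.1, s p.1)) (𝓝[{p | L.R p.1 p.2}] (a, c))
      (𝓝[{p | L.R p.1 p.2}] (a, b)) :=
    tendsto_nhdsWithin_iff.2 ⟨(Glue3_fst a c).prodMk_nhds (hs.comp (Glue3_fst a c)),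
      (Glue3_fst a c).eventually hR⟩
  have h2 : Tendsto (fun p : L.Ω × L.Ω => (s p.1, p.2)) (𝓝[{p | L.R p.1 p.2}] (a, c))
      (𝓝[{p | L.R p.1 p.2}] (b, c)) := by
    refine tendsto_nhdsWithin_iff.2 ⟨(hs.comp (Glue3_fst a c)).prodMk_nhds (Glue3_snd a c), ?_⟩
    filter_upwards [(Glue3_fst a c).eventually hR, self_mem_nhdsWithin] with p h3 h4
    exact ⟨h3.2.1, h4.2.1, h3.2.2.symm.trans h4.2.2⟩
  refine ⟨fun p => u (p.1, s p.1) * u' (s p.1, p.2), (hu.comp h1).mul (hu'.comp h2), ?_⟩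
  filter_upwards [h1.eventually he, h2.eventually he'] with p h3 h4
  have h5 : σ p.1 = u (p.1, s p.1) * σ (s p.1) := h3
  have h6 : σ (s p.1) = u' (s p.1, p.2) * σ p.2 := h4
  rw [h5, h6, mul_assoc]

theorem Glue3_eqv (hσ : ContinuousOn σ L.dom) {a b : L.Ω} {z : ℂ} (hr : L.R a b)
    (h : Glue3Gd L σ a b z) : σ a = z * σ b := by
  obtain ⟨u, hu, he⟩ := h
  have : (𝓝[{p : L.Ω × L.Ω | L.R p.1 p.2}] (a, b)).NeBot := nhdsWithin_neBot_of_mem hr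
  have h1 := (hσ.continuousAt (L.opn.mem_nhds hr.1)).tendsto.comp (Glue3_fst a b)
  have h2 := hu.mul ((hσ.continuousAt (L.opn.mem_nhds hr.2.1)).tendsto.comp (Glue3_snd a b))
  exact tendsto_nhds_unique (h1.congr' he) h2

theorem Glue3_generic (hσ : ContinuousOn σ L.dom) (hd : ∀ a ∈ L.dom, ∃ᶠ b in 𝓝 a, σ b ≠ 0)
    (hG : ∀ a b, L.R a b → ∃ z ≠ 0, Glue3Gd L σ a b z) :
    ∃ J : L.Ω → L.Ω → ℂ, L.Coc J ∧ L.Sec J univ σ ∧
      ∀ a b z, L.R a b → Glue3Gd L σ a b z → J a b = z := by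
  let A : Set (L.Ω × L.Ω) := {p | L.R p.1 p.2 ∧ σ p.2 ≠ 0}
  have hA : {p : L.Ω × L.Ω | L.R p.1 p.2} ⊆ closure A := by
    rintro ⟨a, b⟩ hr
    obtain ⟨s, hs, hR⟩ := Glue3_sec L (a := b) (b := a) ⟨hr.2.1, hr.1, hr.2.2.symm⟩
    refine mem_closure_iff_frequently.2 (Tendsto.frequently (f := fun ξ => (s ξ, ξ))
      (hs.prodMk_nhds tendsto_id) (((hd b hr.2.1).and_eventually hR).mono fun ξ hξ => ?_))
    exact ⟨⟨hξ.2.2.1, hξ.2.1, hξ.2.2.2.symm⟩, hξ.1⟩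
  have hT : ∀ a b z, Glue3Gd L σ a b z →
      Tendsto (fun p : L.Ω × L.Ω => σ p.1 / σ p.2) (𝓝[A] (a, b)) (𝓝 z) := by
    rintro a b z ⟨u, hu, he⟩
    have hle : 𝓝[A] (a, b) ≤ 𝓝[{p | L.R p.1 p.2}] (a, b) := nhdsWithin_mono _ fun p hp => hp.1
    refine (hu.mono_left hle).congr' ?_
    filter_upwards [hle he, self_mem_nhdsWithin] with p h1 h2
    have h3 : σ p.1 = u p * σ p.2 := h1
    rw [h3, mul_div_cancel_right₀ _ h2.2]
  have hJ : ∀ a b z, L.R a b → Glue3Gd L σ a b z →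
      extendFrom A (fun p : L.Ω × L.Ω => σ p.1 / σ p.2) (a, b) = z := fun a b z hr h =>
    extendFrom_eq (hA hr) (hT a b z h)
  refine ⟨fun a b => extendFrom A (fun p : L.Ω × L.Ω => σ p.1 / σ p.2) (a, b),
    ⟨?_, fun a b hr => ?_, fun a b c hr hr' => ?_⟩, ⟨?_, fun a b hr _ => ?_⟩, hJ⟩
  · refine continuousOn_extendFrom hA fun p hp => ?_
    obtain ⟨z, -, hz⟩ := hG p.1 p.2 hp
    exact ⟨z, hT _ _ _ hz⟩
  · obtain ⟨z, h0, hz⟩ := hG a b hr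
    rwa [hJ a b z hr hz]
  · obtain ⟨z, -, hz⟩ := hG a b hr
    obtain ⟨z', -, hz'⟩ := hG b c hr'
    rw [hJ a b z hr hz, hJ b c z' hr' hz',
      hJ a c _ ⟨hr.1, hr'.2.1, hr.2.2.trans hr'.2.2⟩ (Glue3_mul hr hz hz')]
  · exact hσ.mono inter_subset_left
  · obtain ⟨z, -, hz⟩ := hG a b hr
    rw [hJ a b z hr hz]
    exact Glue3_eqv hσ hr hz

end generic

variable {κ : Type} [TopologicalSpace κ] [DiscreteTopology κ] {G : Gl κ}

namespace Gl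

theorem Glue3_R (h : G.Ok) (hl : G.LInj) {a b : κ × E} (hr : G.Rel a b) (ha : a ∈ G.dom) :
    (h.et hl).R a b :=
  ⟨ha, h.rel_dom hr ha, (f_eq_iff ha (h.rel_dom hr ha)).2 hr⟩

theorem Glue3_ind (h : G.Ok) (hl : G.LInj) {P : κ × E → κ × E → Prop}
    (step : ∀ r, ∀ a ∈ G.D r, P (G.src r, a) (G.tgt r, G.g r a)) (refl : ∀ a ∈ G.dom, P a a)
    (symm : ∀ a b, (h.et hl).R a b → P a b → P b a)
    (trans : ∀ a b c, (h.et hl).R a b → (h.et hl).R b c → P a b → P b c → P a c) :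
    ∀ a b, (h.et hl).R a b → P a b := by
  have key : ∀ a b, G.Rel a b → a ∈ G.dom → P a b := by
    intro a b hr
    induction hr with
    | rel a b hs =>
      obtain ⟨k, a⟩ := a
      obtain ⟨l, b⟩ := b
      obtain ⟨r, h1, h2, h3, h4⟩ := hs
      dsimp only at h1 h2 h3 h4
      subst h1 h2 h4
      exact fun _ => step r a h3
    | refl a => exact refl a
    | symm a b hr ih =>
      intro hb
      have ha : a ∈ G.dom := h.rel_dom (Relation.EqvGen.symm _ _ hr) hb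
      exact symm a b (Glue3_R h hl hr ha) (ih ha)
    | trans a b c hr hr' ih ih' =>
      intro ha
      have hb : b ∈ G.dom := h.rel_dom hr ha
      exact trans a b c (Glue3_R h hl hr ha) (Glue3_R h hl hr' hb) (ih ha) (ih' hb)
  exact fun a b hr => key a b ((f_eq_iff hr.1 hr.2.1).1 hr.2.2) hr.1

theorem Ok.div (h : G.Ok) (hl : G.LInj) (σ : κ × E → ℂ)
    (hσ : ∀ k, ContinuousOn (fun a => σ (k, a)) (G.W k))
    (hd : ∀ k, ∀ a ∈ G.W k, ∃ᶠ b in 𝓝 a, σ (k, b) ≠ 0) (j : G.Ar → E → ℂ)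
    (hj : ∀ r, NZ (j r) (G.D r))
    (e : ∀ r, ∀ a ∈ G.D r, σ (G.src r, a) = j r a * σ (G.tgt r, G.g r a)) :
    ∃ J : κ × E → κ × E → ℂ, (h.et hl).Coc J ∧ (h.et hl).Sec J univ σ ∧
      ∀ r, ∀ a ∈ G.D r, J (G.src r, a) (G.tgt r, G.g r a) = j r a := by
  have step : ∀ r, ∀ a ∈ G.D r,
      Glue3Gd (h.et hl) σ (G.src r, a) (G.tgt r, G.g r a) (j r a) := fun r a ha => by
    have hD : G.D r ∈ 𝓝 a := (h.dopn r).mem_nhds ha
    have h2 : Tendsto (fun p : κ × E => p.2) (𝓝 (G.src r, a)) (𝓝 a) :=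
      continuous_snd.tendsto (G.src r, a)
    have h1 : ∀ᶠ p : κ × E in 𝓝 (G.src r, a), p.1 = G.src r :=
      (continuous_fst.tendsto (G.src r, a)).eventually
        ((isOpen_discrete {G.src r}).mem_nhds rfl)
    refine Glue3_of_graph (L := h.et hl) (h.maps r ha) (s := fun p : κ × E => (G.tgt r, G.g r p.2))
      (tendsto_const_nhds.prodMk_nhds
        (((h.smooth r).continuousOn.continuousAt hD).tendsto.comp h2))
      (u := fun p : κ × E => j r p.2) (((hj r).1.continuousAt hD).tendsto.comp h2) ?_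
    filter_upwards [h1, h2.eventually hD] with p h3 h4
    obtain ⟨k, b⟩ := p
    obtain rfl : k = G.src r := h3
    exact ⟨(h.f_step r h4).symm, e r b h4⟩
  obtain ⟨J, h1, h2, h3⟩ := Glue3_generic (L := h.et hl) (σ := σ) (continuousOn_dom hσ)
    (fun a ha => Tendsto.frequently (f := fun b : E => (a.1, b))
      (tendsto_const_nhds.prodMk_nhds tendsto_id) (hd a.1 a.2 ha))
    (Glue3_ind h hl (P := fun a b => ∃ z ≠ 0, Glue3Gd (h.et hl) σ a b z)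
      (fun r a ha => ⟨_, (hj r).2 a ha, step r a ha⟩)
      (fun a ha => ⟨1, one_ne_zero, Glue3_refl ha⟩)
      (fun a b _ ⟨z, h0, hz⟩ => ⟨z⁻¹, inv_ne_zero h0, Glue3_symm hz h0⟩)
      (fun a b c hr _ ⟨z, h0, hz⟩ ⟨z', h0', hz'⟩ =>
        ⟨z * z', mul_ne_zero h0 h0', Glue3_mul hr hz hz'⟩))
  exact ⟨J, h1, h2, fun r a ha =>
    h3 _ _ _ ⟨h.dsub r ha, h.maps r ha, h.f_step r ha⟩ (step r a ha)⟩

theorem Ok.coc_one (h : G.Ok) (hl : G.LInj) {J : κ × E → κ × E → ℂ} (hJ : (h.et hl).Coc J)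
    (e : ∀ r, ∀ a ∈ G.D r, J (G.src r, a) (G.tgt r, G.g r a) = 1) :
    ∀ a b, (h.et hl).R a b → J a b = 1 := by
  have refl : ∀ a ∈ G.dom, J a a = 1 := fun a ha =>
    mul_left_cancel₀ (hJ.ne a a ⟨ha, ha, rfl⟩)
      ((hJ.mul a a a ⟨ha, ha, rfl⟩ ⟨ha, ha, rfl⟩).trans (mul_one _).symm)
  refine Glue3_ind h hl (P := fun a b => J a b = 1) e refl (fun a b hr h1 => ?_)
    fun a b c hr hr' h1 h2 => ?_
  · have := hJ.mul a b a hr ⟨hr.2.1, hr.1, hr.2.2.symm⟩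
    rwa [h1, one_mul, refl a hr.1] at this
  · rw [← hJ.mul a b c hr hr', h1, h2, one_mul]

end Gl

end HK3
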