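import Pool.Agent.P.MP_9699e0_gt.MDefs2
import Pool.Agent.P.MP_9699e0_gt.Glue3
import Pool.Agent.P.MP_9699e0_gt.FnA

/-! The bundles of the exceptional and binding spheres. -/

set_option autoImplicit false
set_option linter.unusedSectionVars false

noncomputable section

namespace HK3

open Pool.Agent.P.MP_9699e0_gt Set Filter Topology
open scoped ContDiff

variable {n : ℕ}

theorem DivA_ne {ξ : E} (h : ξ ∈ W0) : σL n (.o, ξ) ≠ 0 :=
  mul_ne_zero (Complex.ofReal_ne_zero.2 (rr_pos h).ne') (Complex.exp_ne_zero _)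

theorem DivA_dense (k : K) {a : E} (ha : a ∈ (md n).W k) :
    ∃ᶠ b in 𝓝 a, σL n (k, b) ≠ 0 ∧ ∀ j, σA j (k, b) ≠ 0 := by
  have hd : ∃ᶠ b : E in 𝓝 a, b.1 ≠ 0 ∧ b.2 ≠ 0 :=
    mem_closure_iff_frequently.1
      (((dense_compl_singleton (0 : ℂ)).prod (dense_compl_singleton (0 : ℂ))) a)
  cases k with
  | o =>
    refine (Filter.Eventually.frequently (isOpen_W0.mem_nhds ha)).mono fun b hb => ?_
    exact ⟨DivA_ne hb, fun j => one_ne_zero⟩
  | n i => exact hd.mono fun b hb => ⟨hb.2, fun j => one_ne_zero⟩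
  | a i c =>
    refine hd.mono fun b hb => ⟨hb.2, fun j => ?_⟩
    simp only [σA]
    split_ifs
    exacts [hb.1, one_ne_zero]
  | b i c =>
    refine hd.mono fun b hb => ⟨one_ne_zero, fun j => ?_⟩
    simp only [σA]
    split_ifs
    exacts [hb.2, one_ne_zero]

theorem DivA_const (c : ℂ) (hc : c ≠ 0) (S : Set E) : NZ (fun _ : E => c) S :=
  ⟨continuousOn_const, fun _ _ => hc⟩

theorem DivA_nz {g : E → ℂ} {S : Set E} (hg : Continuous g) (h0 : ∀ x ∈ S, g x ≠ 0) (P : Prop)
    [Decidable P] : NZ (fun x => if P then (g x ^ 2)⁻¹ else 1) S := by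
  split_ifs
  · exact ⟨(hg.pow 2).continuousOn.inv₀ fun x hx => pow_ne_zero 2 (h0 x hx),
      fun x hx => inv_ne_zero (pow_ne_zero 2 (h0 x hx))⟩
  · exact DivA_const 1 one_ne_zero S

/-- The factors for the exceptional spheres. -/
def DivA_jA (j : I4 × I4) : Ar → E → ℂ
  | .v i c => fun α => if (i, c) = j then ((α.1 - gi (rep c)) ^ 2)⁻¹ else 1
  | .w i c => fun α => if (i, c) = j then (α.2 ^ 2)⁻¹ else 1
  | .x i c => fun p => if (i, c) = j then (p.2 ^ 2)⁻¹ else 1
  | _ => fun _ => 1

/-- The factors for the binding spheres. -/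
def DivA_jL : Ar → E → ℂ
  | .g k _ _ _ => fun _ => sg k
  | .t _ e _ => fun _ => sg e
  | .u _ _ => fun _ => 1
  | .v _ c => fun α => α.1 - gi (rep c)
  | .w _ _ => fun α => α.2
  | .x _ _ => fun p => p.2

theorem DivA_cont (j : I4 × I4) (k : K) : Continuous fun a : E => σA j (k, a) := by
  cases k with
  | o => exact continuous_const
  | n i => exact continuous_const
  | a i c =>
    simp only [σA]
    split_ifs
    exacts [continuous_fst, continuous_const]
  | b i c =>
    simp only [σA]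
    split_ifs
    exacts [continuous_snd, continuous_const]

theorem exists_JA (hn : Odd n) (j : I4 × I4) :
    ∃ J : K × E → K × E → ℂ, (etM hn).Coc J ∧ (etM hn).Sec J univ (σA j) := by
  suffices h : (∀ r, NZ (DivA_jA j r) ((md n).D r)) ∧ ∀ r, ∀ a ∈ (md n).D r,
      σA j ((md n).src r, a) = DivA_jA j r a * σA j ((md n).tgt r, (md n).g r a) by
    obtain ⟨J, h1, h2, -⟩ := (md_ok hn).div (md_linj hn) (σA j)
      (fun k => (DivA_cont j k).continuousOn)
      (fun k a ha => (DivA_dense k ha).mono fun b hb => hb.2 j) (DivA_jA j) h.1 h.2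
    exact ⟨J, h1, h2⟩
  refine ⟨fun r => ?_, fun r a ha => ?_⟩
  · cases r with
    | g k e m l => exact DivA_const 1 one_ne_zero _
    | t i e m => exact DivA_const 1 one_ne_zero _
    | u i ϑ => exact DivA_const 1 one_ne_zero _
    | v i c =>
      exact DivA_nz (continuous_fst.sub continuous_const) (fun x hx => sub_ne_zero.2 hx.2.2) _
    | w i c => exact DivA_nz continuous_snd (fun x hx => hx.2.2) _
    | x i c => exact DivA_nz continuous_snd (fun x hx => hx.2) _
  · cases r with
    | g k e m l => exact (mul_one _).symm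
    | t i e m => exact (mul_one _).symm
    | u i ϑ => exact (mul_one _).symm
    | v i c =>
      have h0 : a.1 - gi (rep c) ≠ 0 := sub_ne_zero.2 ha.2.2
      simp only [md, σA, DivA_jA]
      split_ifs
      · rw [inv_mul_cancel₀ (pow_ne_zero 2 h0)]
      · rw [mul_one]
    | w i c =>
      have h0 : a.2 ≠ 0 := ha.2.2
      simp only [md, σA, DivA_jA]
      split_ifs
      · rw [inv_mul_cancel₀ (pow_ne_zero 2 h0)]
      · rw [mul_one]
    | x i c =>
      have h0 : a.2 ≠ 0 := ha.2
      simp only [md, σA, DivA_jA]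
      split_ifs
      · field_simp
      · rw [mul_one]

theorem DivA_sg (k : ℤ) (z : ℂ) : z = sg k * (sg k * z) := by
  rw [← mul_assoc, ← Complex.ofReal_mul, sg_mul_self, Complex.ofReal_one, one_mul]

theorem exists_JL (hn : Odd n) :
    ∃ J : K × E → K × E → ℂ, (etM hn).Coc J ∧ (etM hn).Sec J univ (σL n) ∧
      ∀ i e m, ∀ α ∈ W2, J (.n i, α) (.n i, trn e m α) = sg e := by
  suffices h : (∀ r, NZ (DivA_jL r) ((md n).D r)) ∧ ∀ r, ∀ a ∈ (md n).D r,
      σL n ((md n).src r, a) = DivA_jL r a * σL n ((md n).tgt r, (md n).g r a) by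
    obtain ⟨J, h1, h2, h3⟩ := (md_ok hn).div (md_linj hn) (σL n)
      (fun k => (continuous_σL n k).continuousOn)
      (fun k a ha => (DivA_dense k ha).mono fun b hb => hb.1) DivA_jL h.1 h.2
    exact ⟨J, h1, h2, fun i e m α hα => h3 (.t i e m) α hα⟩
  refine ⟨fun r => ?_, fun r a ha => ?_⟩
  · cases r with
    | g k e m l => exact DivA_const _ (RelB1_sg_ne k) _
    | t i e m => exact DivA_const _ (RelB1_sg_ne e) _
    | u i ϑ => exact DivA_const 1 one_ne_zero _
    | v i c =>
      exact ⟨(continuous_fst.sub continuous_const).continuousOn,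
        fun x hx => sub_ne_zero.2 hx.2.2⟩
    | w i c => exact ⟨continuous_snd.continuousOn, fun x hx => hx.2.2⟩
    | x i c => exact ⟨continuous_snd.continuousOn, fun x hx => hx.2⟩
  · cases r with
    | g k e m l =>
      change σL n (.o, a) = sg k * σL n (.o, gam n k e m l a)
      rw [σL_gam hn]
      exact DivA_sg k _
    | t i e m => exact DivA_sg e _
    | u i ϑ =>
      have h0 : Complex.exp (Complex.log (a.2 * Complex.exp (-(ϑ * Complex.I))) +
          ϑ * Complex.I) = a.2 := by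
        rw [Complex.exp_add, Complex.exp_log (Complex.slitPlane_ne_zero ha.2), mul_assoc,
          ← Complex.exp_add, neg_add_cancel, Complex.exp_zero, mul_one]
      change a.2 = 1 * σL n (.o, tube n i (a.1, _))
      rw [σL_tube hn i _ _ (RelB1_re h0 ha.1), h0, one_mul]
    | v i c =>
      have h0 : a.1 - gi (rep c) ≠ 0 := sub_ne_zero.2 ha.2.2
      change a.2 = (a.1 - gi (rep c)) * (a.2 / (a.1 - gi (rep c)))
      rw [mul_div_cancel₀ _ h0]
    | w i c => exact (mul_one _).symm
    | x i c => exact (mul_one _).symm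

/-- The points where all local equations are non-zero are dense. -/
theorem dense_ne (a : K × E) (ha : a ∈ (md n).dom) :
    ∃ᶠ b in 𝓝 a, b ∈ {b : K × E | σL n b ≠ 0 ∧ ∀ j, σA j b ≠ 0} := by
  obtain ⟨k, a⟩ := a
  rw [Glue1_nhds, frequently_map]
  exact DivA_dense k ha

theorem JL_rel (hn : Odd n) (F : Fns n) {JA : I4 × I4 → K × E → K × E → ℂ}
    {JL : K × E → K × E → ℂ} (cA : ∀ j, (etM hn).Coc (JA j))
    (sA : ∀ j, (etM hn).Sec (JA j) univ (σA j)) (cL : (etM hn).Coc JL)
    (sL : (etM hn).Sec JL univ (σL n)) :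
    ∀ a b, (etM hn).R a b → JL a b ^ 2 * ∏ j, JA j a b = 1 := by
  refine (etM hn).eq_of_dense (u := fun a b => JL a b ^ 2 * ∏ j, JA j a b) (v := fun _ _ => 1)
    ((cL.cont.pow 2).mul (continuousOn_finsetProd _ fun j _ => (cA j).cont)) continuousOn_const
    dense_ne fun a b hr hb => ?_
  have h1 := F.Z_eq (a := a) hr.1
  have h2 := F.Z_eq (a := b) hr.2.1
  have h3 : (md n).f a = (md n).f b := hr.2.2
  have h0 : σL n b ^ 2 * ∏ j, σA j b ≠ 0 :=
    mul_ne_zero (pow_ne_zero 2 hb.1) (Finset.prod_ne_zero_iff.2 fun j _ => hb.2 j)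
  rw [h3, h2, sL.eqv a b hr (mem_univ _),
    Finset.prod_congr rfl fun j _ => (sA j).eqv a b hr (mem_univ _), Finset.prod_mul_distrib] at h1
  refine mul_right_cancel₀ h0 ?_
  rw [one_mul]
  linear_combination -h1

end HK3
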