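import Pool.Agent.P.MP_9699e0_gt.DivA

/-! The odd sections. -/

set_option autoImplicit false
set_option linter.unusedSectionVars false

noncomputable section

namespace HK3

open Pool.Agent.P.MP_9699e0_gt Set Filter Topology
open scoped ContDiff

variable {n : ℕ}

/-- The odd function on the pieces. -/
def DivB_s (F : Fns n) (a : Fin 3) : K × E → ℂ
  | (.o, ξ) => ζ0 F.ψ a ξ
  | (.n i, α) => ζ2 a i α
  | _ => 0

/-- The pieces that cover the complement of the exceptional spheres. -/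
def DivB_V (n : ℕ) : Set (K × E) := (md n).dom ∩ Prod.fst ⁻¹' {k | k = .o ∨ ∃ i, k = .n i}

theorem DivB_image : (md n).f '' DivB_V n = Xp n := by
  ext x
  constructor
  · rintro ⟨⟨k, a⟩, ⟨ha, rfl | ⟨i, rfl⟩⟩, rfl⟩
    · exact Or.inl ⟨a, ha, rfl⟩
    · exact Or.inr (mem_iUnion.2 ⟨i, a, ha, rfl⟩)
  · rintro (⟨a, ha, rfl⟩ | h)
    · exact ⟨(.o, a), ⟨ha, Or.inl rfl⟩, rfl⟩
    · obtain ⟨i, a, ha, rfl⟩ := mem_iUnion.1 h
      exact ⟨(.n i, a), ⟨ha, Or.inr ⟨i, rfl⟩⟩, rfl⟩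

theorem DivB_alg {x y p q J s : ℂ} (h1 : y = s * x) (h2 : q = s * p) (h0 : q ≠ 0)
    (h3 : p = J * q) : x = J * y := by
  have hp : p ≠ 0 := by
    rintro rfl
    exact h0 (by rw [h2, mul_zero])
  have h4 : J * s = 1 := by
    refine mul_right_cancel₀ hp ?_
    rw [one_mul, mul_assoc, ← h2, ← h3]
  rw [h1, ← mul_assoc, h4, one_mul]

theorem DivB_no (hn : Odd n) (F : Fns n) (a : Fin 3) {i : I4} {α ξ : E} (hα : α ∈ W2)
    (hξ : ξ ∈ W0) (h : f2 n i α = f0 n ξ) :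
    ∃ s : ℂ, ζ0 F.ψ a ξ = s * ζ2 a i α ∧ σL n (.o, ξ) = s * α.2 := by
  obtain ⟨w, hw, k, e, m, l, rfl⟩ := (f20 hn hα hξ).1 h
  have hw' := RelB1_re hw hα.1
  exact ⟨sg k, by rw [ζ0_gam F.psi hn, ζ0_tube F.psi n a i _ _ α.2 hw'],
    by rw [σL_gam hn, σL_tube hn i _ _ hw', hw]⟩

theorem exists_odd (hn : Odd n) (F : Fns n) {JL : K × E → K × E → ℂ} (cL : (etM hn).Coc JL)
    (sL : (etM hn).Sec JL univ (σL n))
    (ht : ∀ i e m, ∀ α ∈ W2, JL (.n i, α) (.n i, trn e m α) = sg e) (a : Fin 3) :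
    ∃ s : K × E → ℂ, (etM hn).Sec JL (Xp n) s ∧ (∀ ξ ∈ W0, s (.o, ξ) = ζ0 F.ψ a ξ) ∧
      ∀ i, ∀ α ∈ W2, s (.n i, α) = ζ2 a i α := by
  have hV : IsOpen (DivB_V n) :=
    (md_ok hn).isOpen_dom.inter ((isOpen_discrete _).preimage continuous_fst)
  have hs : ContinuousOn (DivB_s F a) (md n).dom := by
    refine Gl.continuousOn_dom fun k => ?_
    cases k with
    | o => exact continuousOn_ζ0 F.psi a
    | n i => exact (continuous_ζ2 a i).continuousOn
    | a i c => exact continuousOn_const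
    | b i c => exact continuousOn_const
  suffices h : ∀ x ∈ DivB_V n, ∀ y ∈ DivB_V n, (md n).f x = (md n).f y →
      DivB_s F a x = JL x y * DivB_s F a y by
    obtain ⟨s, h1, h2⟩ := (etM hn).exists_ext cL (V := DivB_V n) hV inter_subset_left
      (s := DivB_s F a) (hs.mono inter_subset_left) h
    refine ⟨s, ?_, fun ξ hξ => h2 (x := (.o, ξ)) ⟨hξ, Or.inl rfl⟩,
      fun i α hα => h2 (x := (.n i, α)) ⟨hα, Or.inr ⟨i, rfl⟩⟩⟩
    rw [← DivB_image]
    exact h1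
  · rintro ⟨k, p⟩ ⟨hp, hk⟩ ⟨l, q⟩ ⟨hq, hl⟩ he
    have hJ := sL.eqv (k, p) (l, q) ⟨hp, hq, he⟩ (mem_univ _)
    rcases hk with rfl | ⟨i, rfl⟩ <;> rcases hl with rfl | ⟨j, rfl⟩
    · obtain ⟨k, e, m, l, rfl⟩ := (f00 hn hp hq).1 he
      exact DivB_alg (ζ0_gam F.psi hn a k e m l p) (σL_gam hn k e m l p) (DivA_ne hq) hJ
    · obtain ⟨z, e1, e2⟩ := DivB_no hn F a hq hp he.symm
      have h0 : q.2 ≠ 0 := fun h => DivA_ne (n := n) hp (by rw [e2, h, mul_zero])
      have e3 : z = JL (.o, p) (.n j, q) := mul_right_cancel₀ h0 (e2.symm.trans hJ)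
      rw [← e3]
      exact e1
    · obtain ⟨z, e1, e2⟩ := DivB_no hn F a hp hq he
      exact DivB_alg e1 e2 (DivA_ne hq) hJ
    · obtain ⟨rfl, e, m, rfl⟩ := (f22 hn hp hq).1 he
      change ζ2 a i p = JL (.n i, p) (.n i, trn e m p) * ζ2 a i (trn e m p)
      rw [ht i e m p hp, ζ2_trn]
      exact DivA_sg e _

theorem exists_bun (hn : Odd n) (F : Fns n) : Nonempty (Bun hn F) := by
  choose JA cA sA using exists_JA hn
  obtain ⟨JL, cL, sL, ht⟩ := exists_JL hn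
  choose s hs h0 h2 using exists_odd hn F cL sL ht
  have rel := JL_rel hn F cA sA cL sL
  refine ⟨⟨JA, JL, Sum.elim (fun _ => σL n) fun b => s b.1, cA, sA, cL, sL, rel, ?_, ?_,
    fun _ => rfl⟩⟩
  · rintro (i | b)
    · exact Et.Sec.mono sL (subset_univ _)
    · exact hs b.1
  · rintro (i | ⟨b, e, d⟩) a ha hx
    · exact (F.Z_eq ha).symm
    · have key : ∀ p ∈ (md n).dom, (md n).f p = (md n).f a → (∀ j, σA j p = 1) →
          s b p ^ 2 = F.Q b ((md n).f p) → s b a ^ 2 * ∏ j, σA j a = F.Q b ((md n).f a) := by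
        intro p hp he h1 hq
        have hr : (etM hn).R a p := ⟨ha, hp, he.symm⟩
        have e1 := (hs b).eqv a p hr hx
        have e2 : ∀ j, σA j a = JA j a p := fun j => by
          rw [(sA j).eqv a p hr (mem_univ _), h1, mul_one]
        rw [← he, ← hq, e1, Finset.prod_congr rfl fun j _ => e2 j]
        linear_combination s b p ^ 2 * rel a p hr
      rcases hx with ⟨p, hp, he⟩ | hx
      · exact key (.o, p) hp he (fun _ => rfl) (by rw [h0 b p hp]; exact ((F.hQ b).e0 p hp).symm)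
      · obtain ⟨i, p, hp, he⟩ := mem_iUnion.1 hx
        exact key (.n i, p) hp he (fun _ => rfl)
          (by rw [h2 b i p hp]; exact ((F.hQ b).e2 i p hp).symm)

end HK3
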