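import Pool.Agent.P.MP_9699e0_gt.Pu

/-! Homology of the punctured space. -/

set_option autoImplicit false
set_option linter.unusedSectionVars false

noncomputable section

namespace HK3

open Pool.Agent.P.MP_9699e0_gt Set Filter Topology
open scoped ContDiff

variable {R : Type} [CommRing R] [Algebra R ℝ] [FaithfulSMul R ℝ]

theorem Pu2_sub_fst : {p : E | p.1 ≠ 0} ⊆ ({0}ᶜ : Set E) := by
  intro p hp h
  rw [mem_singleton_iff] at h
  exact hp (by rw [h]; rfl)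

theorem Pu2_sub_snd : {p : E | p.2 ≠ 0} ⊆ ({0}ᶜ : Set E) := by
  intro p hp h
  rw [mem_singleton_iff] at h
  exact hp (by rw [h]; rfl)

/-- The inclusion of `{p.1 ≠ 0}` in the punctured space kills cycles of positive degree. -/
theorem Pu2_fst (n : ℕ) : cyc R {p : E | p.1 ≠ 0} (n + 1) ≤ bdy R ({0}ᶜ : Set E) (n + 1) := by
  intro c hc
  have h1 := htpy_cyc (R := R) (fun (s : ℝ) (p : E) => ((p.1, p.2 + (s : ℂ) * (1 - p.2)) : E))
    (S := {p : E | p.1 ≠ 0}) (S' := {p : E | p.1 ≠ 0}) (by fun_prop) (fun _ _ _ hx => hx) hc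
  have e0 : (fun p : E => ((p.1, p.2 + ((0 : ℝ) : ℂ) * (1 - p.2)) : E)) = id := by
    funext p
    simp
  have hs : StarConvex ℝ ((0, 1) : E) {p : E | p.2 = 1} := by
    intro y hy a b _ _ hab
    have hy' : y.2 = 1 := hy
    change (a • ((0, 1) : E) + b • y).2 = 1
    rw [Prod.snd_add, Prod.smul_snd, Prod.smul_snd, hy', ← add_smul, hab, one_smul]
  have h2 : cmap R (fun p : E => ((p.1, p.2 + ((1 : ℝ) : ℂ) * (1 - p.2)) : E)) (n + 1) c ∈
      cyc R {p : E | p.2 = 1} (n + 1) :=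
    cmap_cyc (by fun_prop) (fun p _ => by simp) hc
  have h3 := bdy_mono (T := ({0}ᶜ : Set E))
    (fun p hp => Pu2_sub_snd (show p.2 ≠ 0 by rw [show p.2 = 1 from hp]; exact one_ne_zero)) _
    (cyc_le_of_star hs n h2)
  rw [e0, cmap_id] at h1
  simpa using sub_mem h3 (bdy_mono Pu2_sub_fst _ h1)

theorem Pu2_snd (n : ℕ) : cyc R {p : E | p.2 ≠ 0} (n + 1) ≤ bdy R ({0}ᶜ : Set E) (n + 1) := by
  intro c hc
  have h1 := htpy_cyc (R := R) (fun (s : ℝ) (p : E) => ((p.1 + (s : ℂ) * (1 - p.1), p.2) : E))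
    (S := {p : E | p.2 ≠ 0}) (S' := {p : E | p.2 ≠ 0}) (by fun_prop) (fun _ _ _ hx => hx) hc
  have e0 : (fun p : E => ((p.1 + ((0 : ℝ) : ℂ) * (1 - p.1), p.2) : E)) = id := by
    funext p
    simp
  have hs : StarConvex ℝ ((1, 0) : E) {p : E | p.1 = 1} := by
    intro y hy a b _ _ hab
    have hy' : y.1 = 1 := hy
    change (a • ((1, 0) : E) + b • y).1 = 1
    rw [Prod.fst_add, Prod.smul_fst, Prod.smul_fst, hy', ← add_smul, hab, one_smul]
  have h2 : cmap R (fun p : E => ((p.1 + ((1 : ℝ) : ℂ) * (1 - p.1), p.2) : E)) (n + 1) c ∈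
      cyc R {p : E | p.1 = 1} (n + 1) :=
    cmap_cyc (by fun_prop) (fun p _ => by simp) hc
  have h3 := bdy_mono (T := ({0}ᶜ : Set E))
    (fun p hp => Pu2_sub_fst (show p.1 ≠ 0 by rw [show p.1 = 1 from hp]; exact one_ne_zero)) _
    (cyc_le_of_star hs n h2)
  rw [e0, cmap_id] at h1
  simpa using sub_mem h3 (bdy_mono Pu2_sub_snd _ h1)

/-- Mayer–Vietoris for the punctured space. -/
theorem Pu2_mv {n : ℕ}
    (h0 : cyc R {p : E | p.1 ≠ 0 ∧ p.2 ≠ 0} n ⊓ bdy R {p : E | p.1 ≠ 0} n ⊓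
      bdy R {p : E | p.2 ≠ 0} n ≤ bdy R {p : E | p.1 ≠ 0 ∧ p.2 ≠ 0} n) :
    cyc R ({0}ᶜ : Set E) (n + 1) ≤ bdy R {0}ᶜ (n + 1) := by
  have e1 : ({0}ᶜ : Set E) ∩ {p : E | p.1 ≠ 0} = {p : E | p.1 ≠ 0} :=
    inter_eq_right.2 Pu2_sub_fst
  have e2 : ({0}ᶜ : Set E) ∩ {p : E | p.2 ≠ 0} = {p : E | p.2 ≠ 0} :=
    inter_eq_right.2 Pu2_sub_snd
  have e3 : {p : E | p.1 ≠ 0} ∩ {p : E | p.2 ≠ 0} = {p : E | p.1 ≠ 0 ∧ p.2 ≠ 0} := rfl
  have h := mv_cyc (R := R) (O := ({0}ᶜ : Set E)) (U := {p : E | p.1 ≠ 0})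
    (V := {p : E | p.2 ≠ 0}) (isOpen_ne_fun continuous_fst continuous_const)
    (isOpen_ne_fun continuous_snd continuous_const) (fun p hp => by
      by_contra h
      rw [mem_union, not_or] at h
      exact hp (Prod.ext (not_not.1 h.1) (not_not.1 h.2))) (n := n)
    (by rw [e1, e2, e3]; exact h0)
  rw [e1, e2] at h
  exact h.trans (sup_le (sup_le (Pu2_fst n) (Pu2_snd n)) le_rfl)

theorem Pu2_rank : 1 < Module.rank ℝ ℂ := by
  rw [Complex.rank_real_complex]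
  exact Cardinal.one_lt_two

theorem punct_one : cyc R ({0}ᶜ : Set E) 1 ≤ bdy R {0}ᶜ 1 := by
  refine Pu2_mv (n := 0) ?_
  rintro c ⟨⟨hc, e, -, rfl⟩, -⟩
  have h := isPathConnected_compl_singleton_of_one_lt_rank Pu2_rank (0 : ℂ)
  exact mem_bdy_zero (h.prod h) hc (aug_bd e)

theorem punct_two : cyc R ({0}ᶜ : Set E) 2 ≤ bdy R {0}ᶜ 2 := by
  refine Pu2_mv (n := 1) ?_
  rintro c ⟨⟨hc, h1⟩, h2⟩
  exact one_tor hc (ev_wd_bdy ⟨continuousOn_fst, fun _ hx => hx⟩ h1)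
    (ev_wd_bdy ⟨continuousOn_snd, fun _ hx => hx⟩ h2)

theorem punct_high (n : ℕ) : cyc R ({0}ᶜ : Set E) (n + 4) ≤ bdy R {0}ᶜ (n + 4) :=
  Pu2_mv (n := n + 3) fun _ hc => cyc_tor n hc.1.1

theorem punct_three {η η' : Chn R E 3} (hη : η ∈ chn R {p : E | p.1 ≠ 0} 3)
    (hη' : η' ∈ chn R {p : E | p.2 ≠ 0} 3) (h : bd R E 2 (η + η') = 0)
    (h0 : ev R (cup11 (wd Prod.fst) (wd Prod.snd)) (bd R E 2 η) = 0) :
    η + η' ∈ bdy R ({0}ᶜ : Set E) 3 := by
  have h1 : bd R E 2 η = -bd R E 2 η' := by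
    rw [map_add] at h
    exact eq_neg_of_add_eq_zero_left h
  have h2 : bd R E 2 η ∈ cyc R {p : E | p.1 ≠ 0 ∧ p.2 ≠ 0} 2 := by
    refine mem_cyc (bdy_le {p : E | p.1 ≠ 0} 2 ⟨η, hη, rfl⟩) ?_
    have e3 : {p : E | p.1 ≠ 0 ∧ p.2 ≠ 0} = {p : E | p.1 ≠ 0} ∩ {p : E | p.2 ≠ 0} := rfl
    rw [e3, chn_inter]
    exact ⟨bd_mem hη, h1 ▸ neg_mem (bd_mem hη')⟩
  obtain ⟨k, hk, hk'⟩ := two_tor h2 h0
  have e : η + η' = (η - k) + (η' + k) := by abel
  rw [e]
  refine add_mem (Pu2_fst 2 ⟨?_, ?_⟩) (Pu2_snd 2 ⟨?_, ?_⟩)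
  · exact sub_mem hη (chn_mono (fun _ hx => hx.1) _ hk)
  · exact LinearMap.mem_ker.2 (by rw [map_sub, hk', sub_self])
  · exact add_mem hη' (chn_mono (fun _ hx => hx.2) _ hk)
  · exact LinearMap.mem_ker.2 (by rw [map_add, hk', h1, add_neg_cancel])

theorem Pu2_image (a : E) {r : ℝ} (hr : 0 < r) :
    (OpenPartialHomeomorph.univBall a r : E → E) '' {0}ᶜ = Metric.ball a r \ {a} := by
  have hs := OpenPartialHomeomorph.univBall_source (E := E) a r
  have ht := OpenPartialHomeomorph.univBall_target (E := E) a hr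
  have h0 := OpenPartialHomeomorph.univBall_apply_zero (E := E) a r
  generalize OpenPartialHomeomorph.univBall (E := E) a r = f at hs ht h0
  have hm : ∀ p, p ∈ f.source := fun p => hs ▸ mem_univ p
  ext y
  constructor
  · rintro ⟨p, hp, rfl⟩
    refine ⟨ht ▸ f.map_source (hm p), fun h => hp ?_⟩
    exact f.injOn (hm p) (hm 0) ((mem_singleton_iff.1 h).trans h0.symm)
  · rintro ⟨hy, hy'⟩
    rw [← ht] at hy
    refine ⟨f.symm y, fun h => hy' ?_, f.right_inv hy⟩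
    rw [mem_singleton_iff] at h ⊢
    rw [← f.right_inv hy, h, h0]

theorem Pu2_emb (a : E) (r : ℝ) : Emb (OpenPartialHomeomorph.univBall a r : E → E) {0}ᶜ := by
  have hs := OpenPartialHomeomorph.univBall_source (E := E) a r
  generalize OpenPartialHomeomorph.univBall (E := E) a r = f at hs
  have hm : ∀ p, p ∈ f.source := fun p => hs ▸ mem_univ p
  refine ⟨f.continuousOn.mono fun p _ => hm p, f.symm, f.continuousOn_symm.mono ?_,
    fun p _ => f.left_inv (hm p)⟩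
  rintro _ ⟨p, -, rfl⟩
  exact f.map_source (hm p)

/-- Punctured balls, in any four dimensional normed space isomorphic to the model. -/
theorem punct_ball (a : E) {r : ℝ} (n : ℕ) (hn : n = 1 ∨ n = 2) :
    cyc R (Metric.ball a r \ {a}) n ≤ bdy R (Metric.ball a r \ {a}) n := by
  rcases le_or_gt r 0 with hr | hr
  · intro c hc
    have h := cyc_le _ _ hc
    rw [Metric.ball_eq_empty.2 hr, empty_sdiff, chn_empty, Submodule.mem_bot] at h
    rw [h]
    exact zero_mem _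
  · rw [← Pu2_image a hr]
    refine (Pu2_emb a r).cyc_le ?_
    rcases hn with rfl | rfl
    · exact punct_one
    · exact punct_two

theorem punct_ball_conn (a : E) {r : ℝ} (hr : 0 < r) :
    IsPathConnected (Metric.ball a r \ {a}) := by
  rw [← Pu2_image a hr]
  refine (isPathConnected_compl_singleton_of_one_lt_rank ?_ (0 : E)).image
    (OpenPartialHomeomorph.continuous_univBall a r)
  rw [rank_prod', Complex.rank_real_complex]
  exact Cardinal.one_lt_two.trans_le (self_le_add_right _ _)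

end HK3
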