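import Pool.Agent.P.MP_9699e0_gt.Om1
import Pool.Agent.P.MP_9699e0_gt.Pu2

/-! The local homology of the model space. -/

set_option autoImplicit false
set_option linter.unusedSectionVars false

noncomputable section

namespace HK3

open Pool.Agent.P.MP_9699e0_gt Set Filter Topology
open scoped ContDiff

theorem Om2_univ {n : ℕ} {c : Chn ℤ E (n + 1)} (h : bd ℤ E n c = 0) : c ∈ bdy ℤ univ (n + 1) :=
  cyc_le_of_star (starConvex_univ (0 : E)) n ⟨by rw [chn_univ]; trivial, h⟩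

theorem Om2_fill {n : ℕ} {ζ : Chn ℤ E (n + 1)} (h : bd ℤ E n ζ ∈ bdy ℤ ({0}ᶜ : Set E) n) :
    ζ ∈ bdy ℤ univ (n + 1) ⊔ chn ℤ ({0}ᶜ : Set E) (n + 1) := by
  obtain ⟨e, he, h⟩ := h
  refine Submodule.mem_sup.2 ⟨ζ - e, Om2_univ ?_, e, he, sub_add_cancel _ _⟩
  rw [map_sub, h, sub_self]

theorem Om2_fst : {p : E | p.1 ≠ 0} ⊆ ({0}ᶜ : Set E) := by
  rintro p hp rfl
  exact hp rfl

theorem Om2_snd : {p : E | p.2 ≠ 0} ⊆ ({0}ᶜ : Set E) := by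
  rintro p hp rfl
  exact hp rfl

theorem Om2_cover : ({0}ᶜ : Set E) ⊆ {p : E | p.1 ≠ 0} ∪ {p : E | p.2 ≠ 0} := by
  intro p hp
  by_contra hn
  rw [mem_union, not_or] at hn
  exact hp (Prod.ext (not_not.1 hn.1) (not_not.1 hn.2))

theorem om_inj {ζ : Chn ℤ E 4} (h : bd ℤ E 3 ζ ∈ chn ℤ ({0}ᶜ : Set E) 3) (h0 : ev ℤ Om ζ = 0) :
    ζ ∈ bdy ℤ univ 4 ⊔ chn ℤ ({0}ᶜ : Set E) 4 := by
  have hc : bd ℤ E 3 ζ ∈ cyc ℤ ({0}ᶜ : Set E) 3 := ⟨h, bd_bd 2 ζ⟩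
  obtain ⟨a, ha, b, hb, f, hf, e⟩ := mv_split (isOpen_ne_fun continuous_fst continuous_const)
    (isOpen_ne_fun continuous_snd continuous_const) Om2_cover hc
  have ha' := chn_mono inter_subset_right 3 ha
  have hb' := chn_mono inter_subset_right 3 hb
  have e1 : bd ℤ E 3 (ζ - f) = a + b := by
    rw [map_sub, e]
    abel
  have e2 : ev ℤ Om (ζ - f) = 0 := by
    rw [map_sub, h0, om_bdy (Submodule.mem_sup_right hf), sub_self]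
  have e3 := isOm.val (ζ - f) a ha' b hb' e1
  rw [e2, Int.cast_zero, eq_comm, neg_eq_zero] at e3
  have e4 : a + b ∈ bdy ℤ ({0}ᶜ : Set E) 3 :=
    punct_three ha' hb' (by rw [← e1]; exact bd_bd 2 _) e3
  refine Om2_fill ?_
  have e5 : bd ℤ E 3 ζ = a + b + bd ℤ E 3 f := by
    rw [← e1, map_sub, sub_add_cancel]
  rw [e5]
  exact add_mem e4 ⟨f, hf, rfl⟩

theorem om_surj : ∃ ζ : Chn ℤ E 4, bd ℤ E 3 ζ ∈ chn ℤ ({0}ᶜ : Set E) 3 ∧ ev ℤ Om ζ = 1 := by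
  obtain ⟨c, hc, h1⟩ := exists_two_tor (R := ℤ)
  obtain ⟨a, ha, ea⟩ := cyc_fst (R := ℤ) 0 (cyc_mono (fun _ h => h.1) 2 hc)
  obtain ⟨b, hb, eb⟩ := cyc_snd (R := ℤ) 0 (cyc_mono (fun _ h => h.2) 2 hc)
  have ea' : bd ℤ E 2 a = c := ea
  have eb' : bd ℤ E 2 b = c := eb
  have h2 : bd ℤ E 2 (a + -b) = 0 := by
    rw [map_add, map_neg, ea', eb', add_neg_cancel]
  obtain ⟨ζ, -, e⟩ := Om2_univ h2
  have e3 := isOm.val ζ a ha (-b) (neg_mem hb) e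
  rw [ea', h1] at e3
  refine ⟨-ζ, ?_, ?_⟩
  · have e' : bd ℤ E 3 ζ = a + -b := e
    rw [map_neg, e']
    exact neg_mem (add_mem (chn_mono Om2_fst 3 ha) (neg_mem (chn_mono Om2_snd 3 hb)))
  · have e4 : ev ℤ Om ζ = -1 := by exact_mod_cast e3
    rw [map_neg, e4, neg_neg]

theorem om_high {n : ℕ} (hn : 4 ≤ n) {ζ : Chn ℤ E (n + 1)}
    (h : bd ℤ E n ζ ∈ chn ℤ ({0}ᶜ : Set E) n) :
    ζ ∈ bdy ℤ univ (n + 1) ⊔ chn ℤ ({0}ᶜ : Set E) (n + 1) := by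
  obtain ⟨m, rfl⟩ : ∃ m, n = m + 4 := ⟨n - 4, by omega⟩
  exact Om2_fill (punct_high m ⟨h, bd_bd (m + 3) ζ⟩)

end HK3
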