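import Pool.Agent.P.MP_9699e0_gt.Deg2
import Pool.Agent.P.MP_9699e0_gt.Om2
import Pool.Agent.P.MP_9699e0_gt.Cv

/-! Local degrees of chains. -/

set_option autoImplicit false
set_option linter.unusedSectionVars false

noncomputable section

namespace HK3

open Pool.Agent.P.MP_9699e0_gt Set Filter Topology
open scoped ContDiff

variable {X : Type} [TopologicalSpace X]

theorem fc1_om {b : E} {ξ : Chn ℤ E 4} (h : ξ ∈ bdy ℤ univ 4 ⊔ chn ℤ {b}ᶜ 4) :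
    ev ℤ Om (cmap ℤ (fun p => p - b) 4 ξ) = 0 := by
  obtain ⟨u, hu, v, hv, rfl⟩ := Submodule.mem_sup.1 h
  have hc : Continuous fun p : E => p - b := continuous_id.sub continuous_const
  rw [map_add]
  exact om_bdy (Submodule.add_mem_sup (cmap_bdy hc.continuousOn (mapsTo_univ _ _) hu)
    (cmap_mem hc.continuousOn (fun p hp => sub_ne_zero.2 hp) hv))

theorem fc1_om_eq {b : E} {ξ ξ' : Chn ℤ E 4} (h : ξ - ξ' ∈ bdy ℤ univ 4 ⊔ chn ℤ {b}ᶜ 4) :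
    ev ℤ Om (cmap ℤ (fun p => p - b) 4 ξ) = ev ℤ Om (cmap ℤ (fun p => p - b) 4 ξ') := by
  have := fc1_om h
  rwa [map_sub, map_sub, sub_eq_zero] at this

theorem fc1_pull [T2Space X] {f : E → X} {V : Set E} (hf : Emb f V) (ho : IsOpen (f '' V)) {b : E}
    (hb : b ∈ V) {n : ℕ} {ξ : Chn ℤ E n} (hξ : ξ ∈ chn ℤ V n)
    (h : cmap ℤ f n ξ ∈ bdy ℤ univ n ⊔ chn ℤ {f b}ᶜ n) : ξ ∈ bdy ℤ univ n ⊔ chn ℤ {b}ᶜ n := by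
  have h1 := exc_inj isClosed_singleton ho (singleton_subset_iff.2 (mem_image_of_mem f hb))
    (cmap_mem hf.1 (mapsTo_image f V) hξ) h
  obtain ⟨u, hu, v, hv, e⟩ := Submodule.mem_sup.1 h1
  obtain ⟨v', hv', rfl⟩ := hf.exists_chn (chn_mono inter_subset_left n hv)
  have h2 : v' ∈ chn ℤ {b}ᶜ n :=
    hf.mem_chn hv' (fun y _ hy e => hy.2 (congrArg f e)) hv
  have h3 : ξ - v' ∈ bdy ℤ V n := by
    refine hf.mem_bdy (sub_mem hξ hv') ?_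
    rw [map_sub, ← e, add_sub_cancel_right]
    exact hu
  rw [← sub_add_cancel ξ v']
  exact Submodule.add_mem_sup (bdy_mono (subset_univ V) n h3) h2

variable [T2Space X] (A : OAt X)

namespace OAt

theorem fc1_emb {k : A.κ} {V : Set E} (hV : IsOpen V) (hW : V ⊆ A.W k) (hi : InjOn (A.f k) V) :
    Emb (A.f k) V := emb_of_loc hV ((A.loc k).mono hW) hi

theorem fc1_chart (x : X) : ∃ k a V, A.f k a = x ∧ IsOpen V ∧ a ∈ V ∧ V ⊆ A.W k ∧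
    InjOn (A.f k) V := by
  obtain ⟨k, a, ha, rfl⟩ := A.surj x
  obtain ⟨V, h1, h2, h3, h4⟩ := exists_injOn_of_loc (A.opn k) (A.loc k) ha
  exact ⟨k, a, V, rfl, h1, h2, h3, h4⟩

/-- Every relative cycle has a representative in a small chart. -/
theorem exists_rep {k : A.κ} {a : E} {V : Set E} (hV : IsOpen V) (ha : a ∈ V) (hW : V ⊆ A.W k)
    (hi : InjOn (A.f k) V) {n : ℕ} {ζ : Chn ℤ X (n + 1)} (hζ : bd ℤ X n ζ ∈ chn ℤ {A.f k a}ᶜ n) :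
    ∃ ξ ∈ chn ℤ V (n + 1), bd ℤ E n ξ ∈ chn ℤ {a}ᶜ n ∧
      ζ - cmap ℤ (A.f k) (n + 1) ξ ∈ bdy ℤ univ (n + 1) ⊔ chn ℤ {A.f k a}ᶜ (n + 1) := by
  have hE := A.fc1_emb hV hW hi
  obtain ⟨ξ', h1, h2, h3⟩ := exc_surj isClosed_singleton (isOpen_image_of_loc (A.loc k) hV hW)
    (singleton_subset_iff.2 (mem_image_of_mem _ ha)) hζ
  obtain ⟨ξ, hξ, rfl⟩ := hE.exists_chn h1
  rw [cmap_bd hE.1 hξ] at h2
  exact ⟨ξ, hξ, hE.mem_chn (T' := {A.f k a}ᶜ) (bd_mem hξ)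
    (fun y _ hy e => hy (congrArg (A.f k) e)) h2, h3⟩

/-- One chart determines the local degree. -/
theorem loc_of_chart {k : A.κ} {a : E} {V : Set E} (hV : IsOpen V) (ha : a ∈ V) (hW : V ⊆ A.W k)
    (hi : InjOn (A.f k) V) {ζ : Chn ℤ X 4} {ξ : Chn ℤ E 4} (hξ : ξ ∈ chn ℤ V 4)
    (hb : bd ℤ E 3 ξ ∈ chn ℤ {a}ᶜ 3)
    (h : ζ - cmap ℤ (A.f k) 4 ξ ∈ bdy ℤ univ 4 ⊔ chn ℤ {A.f k a}ᶜ 4) :
    A.Loc ζ (A.f k a) (ev ℤ Om (cmap ℤ (fun p => p - a) 4 ξ)) := by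
  intro l b hbW e V2 hV2 hb2 hW2 hi2 ξ2 hξ2 _ h2
  have hE := A.fc1_emb hV hW hi
  have hE2 := A.fc1_emb hV2 hW2 hi2
  obtain ⟨γ, D, hγ, hD, hd, hev⟩ := A.tr k l a (hW ha) b hbW e.symm
  have hev2 : ∀ᶠ y in 𝓝 a, γ y ∈ V2 :=
    hD.continuousAt.preimage_mem_nhds (hV2.mem_nhds (hγ ▸ hb2))
  obtain ⟨V1, p1, hV1, ha1⟩ := eventually_nhds_iff.1 (hev.and hev2)
  obtain ⟨g, hg, hg'⟩ := hE2.2
  have hγc : ContinuousOn γ (V ∩ V1) := by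
    refine ContinuousOn.congr (f := g ∘ A.f k) (hg.comp (hE.1.mono inter_subset_left)
      fun y hy => ⟨γ y, (p1 y hy.2).2, (p1 y hy.2).1⟩) fun y hy => ?_
    rw [Function.comp_apply, ← (p1 y hy.2).1, hg' (p1 y hy.2).2]
  obtain ⟨ξ1, q1, β, q2, q3⟩ := mv_rel (O := V) hV1 isClosed_singleton.isOpen_compl
    (fun y _ => by
      by_cases hy : y = a
      · exact .inl (hy ▸ ha1)
      · exact .inr hy) hξ (Submodule.mem_sup_right hb)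
  have q2' : β ∈ chn ℤ {a}ᶜ 4 := chn_mono inter_subset_right 4 q2
  have r1 : bd ℤ E 3 ξ1 ∈ chn ℤ {a}ᶜ 3 := by
    have h0 : bd ℤ E 3 (ξ - ξ1 - β) = 0 := (bdy_le V 4 q3).2
    have h1 : bd ℤ E 3 ξ1 = bd ℤ E 3 ξ - bd ℤ E 3 β := by
      rw [map_sub, map_sub] at h0
      rw [← sub_eq_zero, ← neg_eq_zero, ← h0]
      abel
    rw [h1]
    exact sub_mem hb (bd_mem q2')
  have r2 : ξ - ξ1 ∈ bdy ℤ univ 4 ⊔ chn ℤ {a}ᶜ 4 := by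
    rw [← sub_add_cancel (ξ - ξ1) β]
    exact Submodule.add_mem_sup (bdy_mono (subset_univ V) 4 q3) q2'
  have r3 : cmap ℤ (A.f k) 4 (ξ - ξ1) ∈ bdy ℤ univ 4 ⊔ chn ℤ {A.f k a}ᶜ 4 := by
    rw [← sub_add_cancel (ξ - ξ1) β, map_add]
    exact Submodule.add_mem_sup (cmap_bdy hE.1 (mapsTo_univ _ _) q3)
      (cmap_mem (S := V ∩ {a}ᶜ) (T := {A.f k a}ᶜ) (hE.1.mono inter_subset_left)
        (fun y hy e => hy.2 (hi hy.1 ha e)) q2)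
  have r4 := om_deriv_pos (F := fun y => γ y - b) (hV.inter hV1) ⟨ha, ha1⟩
    (hγc.sub continuousOn_const) (fun y hy => by
      rw [sub_eq_zero]
      refine ⟨fun h0 => hi hy.1 ha ?_, fun h0 => h0 ▸ hγ⟩
      rw [← (p1 y hy.2).1, h0, e]) (hD.sub_const b) hd q1 r1
  have r5 : cmap ℤ γ 4 ξ1 - ξ2 ∈ bdy ℤ univ 4 ⊔ chn ℤ {b}ᶜ 4 := by
    refine fc1_pull hE2 (isOpen_image_of_loc (A.loc l) hV2 hW2) hb2
      (sub_mem (cmap_mem hγc (fun y hy => (p1 y hy.2).2) q1) hξ2) ?_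
    have e1 : cmap ℤ (A.f l) 4 (cmap ℤ γ 4 ξ1) = cmap ℤ (A.f k) 4 ξ1 := by
      rw [cmap_comp hγc q1]
      exact cmap_congr (fun y hy => (p1 y hy.2).1) q1
    have e2 : cmap ℤ (A.f l) 4 (cmap ℤ γ 4 ξ1 - ξ2) = (ζ - cmap ℤ (A.f l) 4 ξ2) -
        (ζ - cmap ℤ (A.f k) 4 ξ) - cmap ℤ (A.f k) 4 (ξ - ξ1) := by
      rw [map_sub, map_sub, e1]
      abel
    rw [e2, e]
    exact sub_mem (sub_mem h2 h) r3
  rw [fc1_om_eq r2, ← r4, ← fc1_om_eq r5, cmap_comp hγc q1]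
  rfl

theorem exists_loc {ζ : Chn ℤ X 4} {x : X} (hζ : bd ℤ X 3 ζ ∈ chn ℤ {x}ᶜ 3) :
    ∃ m, A.Loc ζ x m := by
  obtain ⟨k, a, V, rfl, h1, h2, h3, h4⟩ := A.fc1_chart x
  obtain ⟨ξ, p1, p2, p3⟩ := A.exists_rep h1 h2 h3 h4 hζ
  exact ⟨_, A.loc_of_chart h1 h2 h3 h4 p1 p2 p3⟩

theorem Loc.unique {A : OAt X} {ζ : Chn ℤ X 4} {x : X} (hζ : bd ℤ X 3 ζ ∈ chn ℤ {x}ᶜ 3) {m m' : ℤ}
    (h : A.Loc ζ x m) (h' : A.Loc ζ x m') : m = m' := by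
  obtain ⟨k, a, V, rfl, h1, h2, h3, h4⟩ := A.fc1_chart x
  obtain ⟨ξ, p1, p2, p3⟩ := A.exists_rep h1 h2 h3 h4 hζ
  exact (h k a (h3 h2) rfl V h1 h2 h3 h4 ξ p1 p2 p3).symm.trans
    (h' k a (h3 h2) rfl V h1 h2 h3 h4 ξ p1 p2 p3)

theorem Loc.sub {A : OAt X} {ζ ζ' : Chn ℤ X 4} {x : X} (hζ : bd ℤ X 3 ζ ∈ chn ℤ {x}ᶜ 3)
    (hζ' : bd ℤ X 3 ζ' ∈ chn ℤ {x}ᶜ 3) {m m' : ℤ} (h : A.Loc ζ x m) (h' : A.Loc ζ' x m') :
    A.Loc (ζ - ζ') x (m - m') := by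
  obtain ⟨k, a, V, rfl, h1, h2, h3, h4⟩ := A.fc1_chart x
  obtain ⟨ξ, p1, p2, p3⟩ := A.exists_rep h1 h2 h3 h4 hζ
  obtain ⟨ξ', q1, q2, q3⟩ := A.exists_rep h1 h2 h3 h4 hζ'
  have e : ζ - ζ' - cmap ℤ (A.f k) 4 (ξ - ξ') =
      (ζ - cmap ℤ (A.f k) 4 ξ) - (ζ' - cmap ℤ (A.f k) 4 ξ') := by
    rw [map_sub]
    abel
  have := A.loc_of_chart (ζ := ζ - ζ') h1 h2 h3 h4 (sub_mem p1 q1)
    (by rw [map_sub]; exact sub_mem p2 q2) (by rw [e]; exact sub_mem p3 q3)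
  rwa [map_sub, map_sub, h k a (h3 h2) rfl V h1 h2 h3 h4 ξ p1 p2 p3,
    h' k a (h3 h2) rfl V h1 h2 h3 h4 ξ' q1 q2 q3] at this

theorem Loc.congr {A : OAt X} {ζ ζ' : Chn ℤ X 4} {x : X} {m : ℤ} (h : A.Loc ζ x m)
    (h' : ζ' - ζ ∈ bdy ℤ univ 4 ⊔ chn ℤ {x}ᶜ 4) : A.Loc ζ' x m := by
  intro k a ha e V h1 h2 h3 h4 ξ p1 p2 p3
  refine h k a ha e V h1 h2 h3 h4 ξ p1 p2 ?_
  have := sub_mem p3 h'
  rwa [sub_sub_sub_cancel_left] at this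

theorem loc_zero {ζ : Chn ℤ X 4} {x : X} (h : ζ ∈ bdy ℤ univ 4 ⊔ chn ℤ {x}ᶜ 4) :
    A.Loc ζ x 0 := by
  intro k a _ e V h1 h2 h3 h4 ξ p1 _ p3
  subst e
  refine fc1_om (fc1_pull (A.fc1_emb h1 h3 h4) (isOpen_image_of_loc (A.loc k) h1 h3) h2 p1 ?_)
  have := sub_mem h p3
  rwa [sub_sub_cancel] at this

end OAt

end HK3
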