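import Pool.Agent.P.MP_9699e0_gt.Fc1

/-! Unions and limits of good sets. -/

set_option autoImplicit false
set_option linter.unusedSectionVars false

noncomputable section

namespace HK3

open Pool.Agent.P.MP_9699e0_gt Set Filter Topology
open scoped ContDiff

variable {X : Type} [TopologicalSpace X]

variable [T2Space X] (A : OAt X)

theorem Fc2_bd_bdy {S : Set X} {n : ℕ} {c : Chn ℤ X (n + 1)} (h : c ∈ bdy ℤ S (n + 1)) :
    bd ℤ X n c = 0 := by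
  obtain ⟨s, -, rfl⟩ := h
  exact bd_bd n s

theorem Fc2_bd_mem {n : ℕ} (u : Chn ℤ X (n + 1)) : bd ℤ X n u ∈ bdy ℤ (univ : Set X) n :=
  ⟨u, by rw [chn_univ]; trivial, rfl⟩

theorem Fc2_split {K K' : Set X} (hK : IsClosed K) (hK' : IsClosed K') {n : ℕ}
    {t : Chn ℤ X (n + 1)} (ht : t ∈ chn ℤ (K ∩ K')ᶜ (n + 1))
    (hb : bd ℤ X n t ∈ chn ℤ Kᶜ n ⊔ chn ℤ K'ᶜ n) :
    ∃ a ∈ chn ℤ Kᶜ (n + 1), ∃ b ∈ chn ℤ K'ᶜ (n + 1), t - a - b ∈ bdy ℤ (univ : Set X) (n + 1) := by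
  obtain ⟨a, ha, b, hb', h⟩ := mv_rel hK.isOpen_compl hK'.isOpen_compl
    (O := (K ∩ K')ᶜ) (by rw [compl_inter]) ht hb
  exact ⟨a, chn_mono inter_subset_right _ ha, b, chn_mono inter_subset_right _ hb',
    bdy_mono (subset_univ _) _ h⟩

theorem Fc2_sup_le (K K' : Set X) (n : ℕ) :
    chn ℤ Kᶜ n ⊔ chn ℤ K'ᶜ n ≤ chn ℤ (K ∩ K')ᶜ n :=
  sup_le (chn_mono (compl_subset_compl.2 inter_subset_left) n)
    (chn_mono (compl_subset_compl.2 inter_subset_right) n)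

theorem Fc2_mem_union {K K' : Set X} {n : ℕ} {c : Chn ℤ X n} (h : c ∈ chn ℤ Kᶜ n)
    (h' : c ∈ chn ℤ K'ᶜ n) : c ∈ chn ℤ (K ∪ K')ᶜ n := by
  rw [compl_union, chn_inter]
  exact ⟨h, h'⟩

theorem Fc2_step {K K' : Set X} (hK : IsClosed K) (hK' : IsClosed K') {n : ℕ}
    (hi : ∀ ζ : Chn ℤ X (n + 1), bd ℤ X n ζ ∈ chn ℤ (K ∩ K')ᶜ n →
      ζ ∈ bdy ℤ univ (n + 1) ⊔ chn ℤ (K ∩ K')ᶜ (n + 1))
    {ζ : Chn ℤ X n} (h : ζ ∈ bdy ℤ univ n ⊔ chn ℤ Kᶜ n) (h' : ζ ∈ bdy ℤ univ n ⊔ chn ℤ K'ᶜ n) :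
    ζ ∈ bdy ℤ univ n ⊔ chn ℤ (K ∪ K')ᶜ n := by
  obtain ⟨_, ⟨u, -, rfl⟩, v, hv, e⟩ := Submodule.mem_sup.1 h
  obtain ⟨_, ⟨u', -, rfl⟩, v', hv', e'⟩ := Submodule.mem_sup.1 h'
  have e1 : bd ℤ X n (u - u') = v' - v := by
    rw [map_sub, sub_eq_sub_iff_add_eq_add, e, add_comm, e']
  have m1 : v' - v ∈ chn ℤ Kᶜ n ⊔ chn ℤ K'ᶜ n :=
    Submodule.sub_mem _ (Submodule.mem_sup_right hv') (Submodule.mem_sup_left hv)
  obtain ⟨s, hs, t, ht, e2⟩ := Submodule.mem_sup.1 (hi (u - u') (e1 ▸ Fc2_sup_le K K' n m1))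
  have e3 : bd ℤ X n t = v' - v := by
    rw [← e1, ← e2, map_add, Fc2_bd_bdy hs, zero_add]
  obtain ⟨a, ha, b, hb, hab⟩ := Fc2_split hK hK' ht (e3 ▸ m1)
  have e4 := Fc2_bd_bdy hab
  rw [map_sub, map_sub, e3] at e4
  have e5 : v + bd ℤ X n a = v' - bd ℤ X n b := by
    rw [← sub_eq_zero, ← neg_eq_zero, ← e4]; abel
  refine Submodule.mem_sup.2 ⟨bd ℤ X n (u - a), Fc2_bd_mem _, v + bd ℤ X n a,
    Fc2_mem_union (Submodule.add_mem _ hv (bd_mem ha))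
      (e5 ▸ Submodule.sub_mem _ hv' (bd_mem hb)), ?_⟩
  rw [← e, map_sub]; abel

theorem Fc2_pt {K : Set X} {x : X} (hx : x ∈ K) (n : ℕ) : chn ℤ Kᶜ n ≤ chn ℤ {x}ᶜ n :=
  chn_mono (compl_subset_compl.2 (singleton_subset_iff.2 hx)) n

namespace OAt

theorem good_empty : A.Good ∅ := by
  refine ⟨fun n _ ζ _ => Submodule.mem_sup_right ?_, fun ζ _ _ => Submodule.mem_sup_right ?_,
    0, by rw [map_zero]; exact Submodule.zero_mem _, fun x hx => hx.elim⟩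
  all_goals rw [compl_empty, chn_univ]; trivial

theorem Good.union {A : OAt X} {K K' : Set X} (hK : IsClosed K) (hK' : IsClosed K') (h : A.Good K)
    (h' : A.Good K') (h'' : A.Good (K ∩ K')) : A.Good (K ∪ K') := by
  have l1 : ∀ n, chn ℤ (K ∪ K')ᶜ n ≤ chn ℤ Kᶜ n := fun n =>
    chn_mono (compl_subset_compl.2 subset_union_left) n
  have l2 : ∀ n, chn ℤ (K ∪ K')ᶜ n ≤ chn ℤ K'ᶜ n := fun n =>
    chn_mono (compl_subset_compl.2 subset_union_right) n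
  refine ⟨fun n hn ζ hζ => ?_, fun ζ hζ h0 => ?_, ?_⟩
  · exact Fc2_step hK hK' (h''.high (n + 1) (by omega)) (h.high n hn ζ (l1 n hζ))
      (h'.high n hn ζ (l2 n hζ))
  · exact Fc2_step hK hK' (h''.high 4 le_rfl) (h.inj ζ (l1 3 hζ) fun x hx => h0 x (Or.inl hx))
      (h'.inj ζ (l2 3 hζ) fun x hx => h0 x (Or.inr hx))
  obtain ⟨ζ, hζ, hl⟩ := h.ex
  obtain ⟨ζ', hζ', hl'⟩ := h'.ex
  have m1 : bd ℤ X 3 (ζ - ζ') ∈ chn ℤ Kᶜ 3 ⊔ chn ℤ K'ᶜ 3 := by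
    rw [map_sub]
    exact Submodule.sub_mem _ (Submodule.mem_sup_left hζ) (Submodule.mem_sup_right hζ')
  obtain ⟨s, hs, t, ht, e⟩ := Submodule.mem_sup.1 (h''.inj (ζ - ζ') (Fc2_sup_le K K' 3 m1)
    fun x hx => by
      simpa using Loc.sub (Fc2_pt hx.1 3 hζ) (Fc2_pt hx.2 3 hζ') (hl x hx.1) (hl' x hx.2))
  have e3 : bd ℤ X 3 t = bd ℤ X 3 (ζ - ζ') := by
    rw [← e, map_add, Fc2_bd_bdy hs, zero_add]
  obtain ⟨a, ha, b, hb, hab⟩ := Fc2_split hK hK' ht (e3 ▸ m1)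
  have e4 : ζ - a - ζ' = (s + (t - a - b)) + b := by
    rw [sub_right_comm, ← e]; abel
  have m2 : s + (t - a - b) ∈ bdy ℤ (univ : Set X) 4 := Submodule.add_mem _ hs hab
  refine ⟨ζ - a, Fc2_mem_union ?_ ?_, fun x hx => ?_⟩
  · rw [map_sub]
    exact Submodule.sub_mem _ hζ (bd_mem ha)
  · rw [sub_eq_iff_eq_add.1 e4, map_add, map_add, Fc2_bd_bdy m2, zero_add]
    exact Submodule.add_mem _ (bd_mem hb) hζ'
  · rcases hx with hx | hx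
    · refine (hl x hx).congr (Submodule.mem_sup_right ?_)
      rw [sub_sub_cancel_left]
      exact Submodule.neg_mem _ (Fc2_pt hx 4 ha)
    · refine (hl' x hx).congr ?_
      rw [e4]
      exact Submodule.add_mem_sup m2 (Fc2_pt hx 4 hb)

/-- The local degree of a relative cycle is locally constant. -/
theorem loc_nhds {ζ : Chn ℤ X 4} {x : X} (hζ : bd ℤ X 3 ζ ∈ chn ℤ {x}ᶜ 3) {m : ℤ}
    (h : A.Loc ζ x m) : ∀ᶠ y in 𝓝 x, A.Loc ζ y m := by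
  obtain ⟨k, a, haW, rfl⟩ := A.surj x
  obtain ⟨V, hV, ha, hW, hi⟩ := exists_injOn_of_loc (A.opn k) (A.loc k) haW
  obtain ⟨ξ, hξ, hb, hr⟩ := A.exists_rep hV ha hW hi hζ
  have hm := h k a haW rfl V hV ha hW hi ξ hξ hb hr
  obtain ⟨s, hs, t, ht, e⟩ := Submodule.mem_sup.1 hr
  obtain ⟨C, hC, hCx, htC⟩ := exists_compact ht
  obtain ⟨C', hC', hCa, hbC⟩ := exists_compact hb
  have haC : a ∈ V ∩ C'ᶜ := ⟨ha, fun h => hCa h rfl⟩
  obtain ⟨r, hr0, hrs⟩ := Metric.isOpen_iff.1 (hV.inter hC'.isClosed.isOpen_compl) a haC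
  have ho : IsOpen (A.f k '' Metric.ball a r ∩ Cᶜ) :=
    (isOpen_image_of_loc (A.loc k) Metric.isOpen_ball fun p hp => hW (hrs hp).1).inter
      hC.isClosed.isOpen_compl
  have hx : A.f k a ∈ A.f k '' Metric.ball a r ∩ Cᶜ :=
    ⟨⟨a, Metric.mem_ball_self hr0, rfl⟩, fun h => hCx h rfl⟩
  filter_upwards [ho.mem_nhds hx] with y hy
  obtain ⟨⟨b, hbr, rfl⟩, hyC⟩ := hy
  have h1 := A.loc_of_chart hV (hrs hbr).1 hW hi (ζ := ζ) hξ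
    (chn_mono (subset_compl_singleton_iff.2 (hrs hbr).2) 3 hbC)
    (e ▸ Submodule.add_mem_sup hs (chn_mono (subset_compl_singleton_iff.2 hyC) 4 htC))
  have h2 := om_htpy (fun (s : ℝ) (p : E) => p - (a + s • (b - a))) (S := V) (T := C')
    (by fun_prop) (fun s hs p hp h0 => by
      have hs' : a + s • (b - a) ∈ Metric.ball a r :=
        (convex_ball a r).add_smul_sub_mem (Metric.mem_ball_self hr0) hbr hs
      exact (hrs hs').2 (sub_eq_zero.1 h0 ▸ hp.2)) hξ hbC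
  simp only [one_smul, add_sub_cancel, zero_smul, add_zero] at h2
  rw [← hm, ← h2]
  exact h1

end OAt

end HK3
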