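import Pool.Agent.P.MP_9699e0_gt.Fc2

/-! Compact convex sets in a chart are good. -/

set_option autoImplicit false
set_option linter.unusedSectionVars false

noncomputable section

namespace HK3

open Pool.Agent.P.MP_9699e0_gt Set Filter Topology
open scoped ContDiff

variable {X : Type} [TopologicalSpace X]

variable [T2Space X] (A : OAt X)

namespace OAt

theorem Fc3_sup {R : Type} [CommRing R] {Y Z : Type} [TopologicalSpace Y] [TopologicalSpace Z]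
    {f : Y → Z} {S T : Set Y} {T' : Set Z} (hf : ContinuousOn f S) (hTS : T ⊆ S)
    (hT : MapsTo f T T') {n : ℕ} {c : Chn R Y n} (h : c ∈ bdy R S n ⊔ chn R T n) :
    cmap R f n c ∈ bdy R univ n ⊔ chn R T' n := by
  obtain ⟨u, hu, v, hv, rfl⟩ := Submodule.mem_sup.1 h
  rw [map_add]
  exact Submodule.add_mem_sup (cmap_bdy hf (mapsTo_univ _ _) hu) (cmap_mem (hf.mono hTS) hT hv)

theorem Fc3_mono {R : Type} [CommRing R] {Y : Type} [TopologicalSpace Y] {S T T' : Set Y}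
    (hT : T ⊆ T') {n : ℕ} {c : Chn R Y n} (h : c ∈ bdy R S n ⊔ chn R T n) :
    c ∈ bdy R S n ⊔ chn R T' n := by
  obtain ⟨u, hu, v, hv, rfl⟩ := Submodule.mem_sup.1 h
  exact Submodule.add_mem_sup hu (chn_mono hT n hv)

theorem Fc3_top {R : Type} [CommRing R] {Y : Type} [TopologicalSpace Y] {n : ℕ} (c : Chn R Y n) :
    c ∈ chn R (univ : Set Y) n := by
  rw [chn_univ]
  exact Submodule.mem_top

theorem Fc3_far {a : E} {n : ℕ} {c : Chn ℤ E n} (h : c ∈ chn ℤ {a}ᶜ n) :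
    ∃ δ : ℝ, 0 < δ ∧ c ∈ chn ℤ {p | δ ≤ ‖p - a‖} n := by
  obtain ⟨C, hC, hCa, hc⟩ := exists_compact h
  obtain ⟨δ, hδ, hb⟩ := Metric.isOpen_iff.1 hC.isClosed.isOpen_compl a fun ha => hCa ha rfl
  refine ⟨δ, hδ, chn_mono (fun p hp => ?_) n hc⟩
  by_contra hlt
  exact hb (mem_ball_iff_norm.2 (not_le.1 hlt)) hp

theorem Fc3_bd_sub {a : E} {n : ℕ} {ξ : Chn ℤ E (n + 1)} (h : bd ℤ E n ξ ∈ chn ℤ {a}ᶜ n) :
    bd ℤ E n (cmap ℤ (fun p => p - a) (n + 1) ξ) ∈ chn ℤ ({0}ᶜ : Set E) n := by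
  have hc : Continuous fun p : E => p - a := continuous_id.sub continuous_const
  rw [cmap_bd hc.continuousOn (Fc3_top ξ)]
  exact cmap_mem (S := {a}ᶜ) (T := {0}ᶜ) hc.continuousOn
    (fun p hp h0 => hp (sub_eq_zero.1 h0)) h

theorem Fc3_of_sub {a : E} {n : ℕ} {ξ : Chn ℤ E n}
    (h : cmap ℤ (fun p => p - a) n ξ ∈ bdy ℤ univ n ⊔ chn ℤ ({0}ᶜ : Set E) n) :
    ξ ∈ bdy ℤ univ n ⊔ chn ℤ {a}ᶜ n := by
  have hc : Continuous fun p : E => p - a := continuous_id.sub continuous_const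
  have hc' : Continuous fun p : E => p + a := continuous_id.add continuous_const
  have h1 := Fc3_sup (T := {0}ᶜ) (T' := {a}ᶜ) hc'.continuousOn (subset_univ _)
    (fun p hp h0 => hp (add_eq_right.1 h0)) h
  rw [cmap_comp hc.continuousOn (Fc3_top ξ)] at h1
  have e : ((fun p : E => p + a) ∘ fun p => p - a) = id := funext fun p => sub_add_cancel p a
  rwa [e, cmap_id] at h1

/-- Radial deformation of the complement of a point into the complement of a convex set. -/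
theorem rel_convex {K : Set E} (hK : IsCompact K) (hc : Convex ℝ K) {a : E} (ha : a ∈ K) {n : ℕ}
    {ξ : Chn ℤ E (n + 1)} (hb : bd ℤ E n ξ ∈ chn ℤ Kᶜ n)
    (h : ξ ∈ bdy ℤ univ (n + 1) ⊔ chn ℤ {a}ᶜ (n + 1)) :
    ξ ∈ bdy ℤ univ (n + 1) ⊔ chn ℤ Kᶜ (n + 1) := by
  obtain ⟨u, hu, t, ht, hξ⟩ := Submodule.mem_sup.1 h
  obtain ⟨δ, hδ, ht'⟩ := Fc3_far ht
  obtain ⟨r, hr0, hr⟩ := hK.isBounded.subset_closedBall_lt 0 a
  have hμ : 0 < r / δ := div_pos hr0 hδ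
  obtain ⟨H, hH⟩ : ∃ H : ℝ → E → E, H = fun s x => a + (1 + s * (r / δ)) • (x - a) := ⟨_, rfl⟩
  have hcont : Continuous fun p : ℝ × E => H p.1 p.2 := by
    rw [hH]; fun_prop
  have hcont1 : Continuous (H 1) := by
    rw [hH]; fun_prop
  have h1 := htpy_rel H (S := univ) (T := Kᶜ) (S' := univ) (T' := Kᶜ) hcont.continuousOn
    (fun _ _ _ _ => mem_univ _) (fun s hs x hx hK' => hx.2 ?_) (Fc3_top ξ) hb
  · have e0 : H 0 = id := by
      rw [hH]; funext x; simp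
    rw [e0, cmap_id] at h1
    have h2 : cmap ℤ (H 1) (n + 1) ξ ∈ bdy ℤ univ (n + 1) ⊔ chn ℤ Kᶜ (n + 1) := by
      refine Fc3_sup (T := {p | δ ≤ ‖p - a‖}) (T' := Kᶜ) hcont1.continuousOn (subset_univ _)
        (fun p hp hK' => ?_) (hξ ▸ Submodule.add_mem_sup hu ht')
      have h3 := mem_closedBall_iff_norm.1 (hr hK')
      rw [hH] at h3
      simp only [add_sub_cancel_left, one_mul, norm_smul] at h3
      rw [Real.norm_of_nonneg (by positivity)] at h3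
      have h4 : (1 + r / δ) * δ ≤ (1 + r / δ) * ‖p - a‖ :=
        mul_le_mul_of_nonneg_left hp (by positivity)
      have h5 : (1 + r / δ) * δ = δ + r := by field_simp
      linarith
    have := Submodule.sub_mem _ h2 h1
    rwa [sub_sub_cancel] at this
  · have hl : 1 ≤ 1 + s * (r / δ) := le_add_of_nonneg_right (mul_nonneg hs.1 hμ.le)
    have hl0 : 0 < 1 + s * (r / δ) := zero_lt_one.trans_le hl
    have := hc.add_smul_sub_mem ha hK' (t := (1 + s * (r / δ))⁻¹)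
      ⟨inv_nonneg.2 hl0.le, inv_le_one_of_one_le₀ hl⟩
    rw [hH] at this
    simp only [add_sub_cancel_left, smul_smul, inv_mul_cancel₀ hl0.ne', one_smul,
      add_sub_cancel] at this
    exact this

theorem exists_convex {K : Set E} (hK : IsCompact K) (hc : Convex ℝ K) :
    ∃ ξ : Chn ℤ E 4, bd ℤ E 3 ξ ∈ chn ℤ Kᶜ 3 ∧
      ∀ a ∈ K, ev ℤ Om (cmap ℤ (fun p => p - a) 4 ξ) = 1 := by
  obtain ⟨ζ, hζ, h1⟩ := om_surj
  obtain ⟨δ, hδ, ht⟩ := Fc3_far hζ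
  obtain ⟨r, hr0, hr⟩ := hK.isBounded.subset_closedBall_lt 0 (0 : E)
  have hμ : 0 < 1 + r / δ := by positivity
  obtain ⟨D, hD⟩ : ∃ D : E →L[ℝ] E, D = (1 + r / δ) • ContinuousLinearMap.id ℝ E := ⟨_, rfl⟩
  have hdet : 0 < D.det := by
    rw [hD, ContinuousLinearMap.det, ContinuousLinearMap.toLinearMap_smul, LinearMap.det_smul,
      ContinuousLinearMap.coe_id, LinearMap.det_id, mul_one]
    positivity
  have hb : bd ℤ E 3 (cmap ℤ D 4 ζ) ∈ chn ℤ {p : E | r < ‖p‖} 3 := by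
    rw [cmap_bd D.continuous.continuousOn (Fc3_top ζ)]
    refine cmap_mem D.continuous.continuousOn (fun p hp => ?_) ht
    have h3 : ‖D p‖ = (1 + r / δ) * ‖p‖ := by
      rw [hD, smul_apply, ContinuousLinearMap.id_apply, norm_smul, Real.norm_of_nonneg hμ.le]
    have hp' : δ ≤ ‖p‖ := by simpa using hp
    have h4 : (1 + r / δ) * δ ≤ (1 + r / δ) * ‖p‖ := mul_le_mul_of_nonneg_left hp' hμ.le
    have h5 : (1 + r / δ) * δ = δ + r := by field_simp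
    change r < ‖D p‖
    linarith
  refine ⟨cmap ℤ D 4 ζ, chn_mono (fun p hp hK' => ?_) 3 hb, fun a ha => ?_⟩
  · exact absurd (mem_closedBall_zero_iff.1 (hr hK')) (not_le.2 hp)
  · have h2 := om_htpy (fun (s : ℝ) (p : E) => p - s • a) (S := univ) (T := {p : E | r < ‖p‖})
      (by fun_prop) (fun s hs p hp h0 => ?_) (Fc3_top _) hb
    · have e0 : (fun p : E => p - (0 : ℝ) • a) = id := funext fun p => by simp
      have e1 : (fun p : E => p - (1 : ℝ) • a) = fun p => p - a := funext fun p => by simp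
      rw [e0, e1, cmap_id, om_pos D hdet hζ, h1] at h2
      exact h2
    · have h3 : r < ‖p‖ := hp.2
      rw [sub_eq_zero.1 h0, norm_smul, Real.norm_of_nonneg hs.1] at h3
      have h4 := mem_closedBall_zero_iff.1 (hr ha)
      have h5 : s * ‖a‖ ≤ 1 * ‖a‖ := mul_le_mul_of_nonneg_right hs.2 (norm_nonneg a)
      linarith

theorem Fc3_maps {k : A.κ} {V K : Set E} (hi : InjOn (A.f k) V) (hKV : K ⊆ V) :
    MapsTo (A.f k) (V ∩ Kᶜ) (A.f k '' K)ᶜ := by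
  rintro p hp ⟨q, hq, e⟩
  exact hp.2 (hi (hKV hq) hp.1 e ▸ hq)

theorem Fc3_rep {k : A.κ} {V K : Set E} (hV : IsOpen V) (hW : V ⊆ A.W k)
    (hi : InjOn (A.f k) V) (hKV : K ⊆ V) (hK : IsCompact K) {n : ℕ} {ζ : Chn ℤ X (n + 1)}
    (hζ : bd ℤ X n ζ ∈ chn ℤ (A.f k '' K)ᶜ n) :
    ∃ ξ ∈ chn ℤ V (n + 1), bd ℤ E n ξ ∈ chn ℤ Kᶜ n ∧
      ζ - cmap ℤ (A.f k) (n + 1) ξ ∈ bdy ℤ univ (n + 1) ⊔ chn ℤ (A.f k '' K)ᶜ (n + 1) := by
  have he : Emb (A.f k) V := emb_of_loc hV ((A.loc k).mono hW) hi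
  obtain ⟨ξ', h1, h2, h3⟩ := exc_surj (hK.image_of_continuousOn (he.1.mono hKV)).isClosed
    (isOpen_image_of_loc (A.loc k) hV hW) (image_mono hKV) hζ
  obtain ⟨ξ, hξ, rfl⟩ := he.exists_chn h1
  rw [cmap_bd he.1 hξ] at h2
  exact ⟨ξ, hξ, he.mem_chn (T' := (A.f k '' K)ᶜ) (bd_mem hξ)
    (fun p _ hp hK' => hp (mem_image_of_mem _ hK')) h2, h3⟩

theorem Fc3_push {k : A.κ} {V K : Set E} (hV : IsOpen V) (hW : V ⊆ A.W k)
    (hi : InjOn (A.f k) V) (hKV : K ⊆ V) (hK : IsCompact K) {n : ℕ} {ξ : Chn ℤ E n}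
    (hξ : ξ ∈ chn ℤ V n) (h : ξ ∈ bdy ℤ univ n ⊔ chn ℤ Kᶜ n) :
    cmap ℤ (A.f k) n ξ ∈ bdy ℤ univ n ⊔ chn ℤ (A.f k '' K)ᶜ n :=
  Fc3_sup ((A.loc k).continuousOn.mono hW) inter_subset_left (A.Fc3_maps hi hKV)
    (exc_inj hK.isClosed hV hKV hξ h)

theorem good_convex {k : A.κ} {V K : Set E} (hV : IsOpen V) (hW : V ⊆ A.W k)
    (hi : InjOn (A.f k) V) (hKV : K ⊆ V) (hK : IsCompact K) (hc : Convex ℝ K) :
    A.Good (A.f k '' K) := by
  rcases K.eq_empty_or_nonempty with rfl | ⟨a, ha⟩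
  · rw [image_empty]
    exact A.good_empty
  have hf : ContinuousOn (A.f k) V := (A.loc k).continuousOn.mono hW
  have hsub : ∀ b ∈ K, Kᶜ ⊆ {b}ᶜ := fun b hb => compl_subset_compl.2 (singleton_subset_iff.2 hb)
  refine ⟨fun n hn ζ hζ => ?_, fun ζ hζ h0 => ?_, ?_⟩
  · obtain ⟨ξ, hξ, hb, h⟩ := A.Fc3_rep hV hW hi hKV hK hζ
    have h1 := A.Fc3_push hV hW hi hKV hK hξ (rel_convex hK hc ha hb
      (Fc3_of_sub (om_high hn (Fc3_bd_sub (chn_mono (hsub a ha) n hb)))))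
    have := Submodule.add_mem _ h h1
    rwa [sub_add_cancel] at this
  · obtain ⟨ξ, hξ, hb, h⟩ := A.Fc3_rep hV hW hi hKV hK hζ
    have hb' := chn_mono (hsub a ha) 3 hb
    have h2 := h0 _ (mem_image_of_mem _ ha) k a (hW (hKV ha)) rfl V hV (hKV ha) hW hi ξ hξ hb'
      (Fc3_mono (compl_subset_compl.2 (singleton_subset_iff.2 (mem_image_of_mem _ ha))) h)
    have h1 := A.Fc3_push hV hW hi hKV hK hξ (rel_convex hK hc ha hb
      (Fc3_of_sub (om_inj (Fc3_bd_sub hb') h2)))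
    have := Submodule.add_mem _ h h1
    rwa [sub_add_cancel] at this
  · obtain ⟨ξ0, hb0, h0⟩ := exists_convex hK hc
    obtain ⟨ξ, hξ, hb, h⟩ := exc_surj hK.isClosed hV hKV hb0
    refine ⟨cmap ℤ (A.f k) 4 ξ, ?_, ?_⟩
    · rw [cmap_bd hf hξ]
      refine cmap_mem (hf.mono inter_subset_left) (A.Fc3_maps hi hKV) ?_
      rw [chn_inter]
      exact ⟨bd_mem hξ, hb⟩
    · rintro _ ⟨b, hbK, rfl⟩
      have h1 := A.loc_of_chart hV (hKV hbK) hW hi (ζ := cmap ℤ (A.f k) 4 ξ) hξ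
        (chn_mono (hsub b hbK) 3 hb) (by rw [sub_self]; exact Submodule.zero_mem _)
      have hc' : Continuous fun p : E => p - b := continuous_id.sub continuous_const
      have h2 := om_bdy (Fc3_sup (T' := {0}ᶜ) hc'.continuousOn (subset_univ _)
        (fun p hp e => hsub b hbK hp (sub_eq_zero.1 e)) h)
      rw [map_sub, map_sub, h0 b hbK, sub_eq_zero] at h2
      rwa [← h2] at h1

end OAt

end HK3
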