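import Pool.Agent.P.MP_9699e0_gt.Fc3

/-! The fundamental cycle. -/

set_option autoImplicit false
set_option linter.unusedSectionVars false

noncomputable section

namespace HK3

open Pool.Agent.P.MP_9699e0_gt Set Filter Topology
open scoped ContDiff

variable {X : Type} [TopologicalSpace X]

variable [T2Space X] (A : OAt X)

namespace OAt

theorem Fc4_compact (l : List (Set E)) (hl : ∀ K ∈ l, IsCompact K) :
    IsCompact (⋃ K ∈ l, K) :=
  l.finite_toSet.isCompact_biUnion hl

theorem good_finite {k : A.κ} {V : Set E} (hV : IsOpen V) (hW : V ⊆ A.W k) (hi : InjOn (A.f k) V)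
    (l : List (Set E)) (hl : ∀ K ∈ l, K ⊆ V ∧ IsCompact K ∧ Convex ℝ K) :
    A.Good (A.f k '' ⋃ K ∈ l, K) := by
  have hf : ContinuousOn (A.f k) V := (A.loc k).continuousOn.mono hW
  obtain ⟨n, hn⟩ : ∃ n, l.length = n := ⟨_, rfl⟩
  induction n generalizing l with
  | zero =>
    obtain rfl := List.eq_nil_of_length_eq_zero hn
    simpa using A.good_empty
  | succ n ih =>
    obtain ⟨K, l', rfl⟩ := List.exists_cons_of_length_eq_add_one hn
    have hn' : l'.length = n := by simpa using hn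
    have hK := hl K List.mem_cons_self
    have hl' : ∀ L ∈ l', L ⊆ V ∧ IsCompact L ∧ Convex ℝ L :=
      fun L hL => hl L (List.mem_cons_of_mem _ hL)
    have hU : (⋃ L ∈ l', L) ⊆ V := iUnion₂_subset fun L hL => (hl' L hL).1
    have hUc : IsCompact (⋃ L ∈ l', L) := Fc4_compact l' fun L hL => (hl' L hL).2.1
    have e1 : (⋃ L ∈ K :: l', L) = K ∪ ⋃ L ∈ l', L := by
      ext x; simp
    have e2 : K ∩ (⋃ L ∈ l', L) = ⋃ L ∈ l'.map (K ∩ ·), L := by
      ext x
      simp only [mem_inter_iff, mem_iUnion, List.mem_map, exists_prop]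
      constructor
      · rintro ⟨hx, L, hL, hxL⟩
        exact ⟨_, ⟨L, hL, rfl⟩, hx, hxL⟩
      · rintro ⟨_, ⟨L, hL, rfl⟩, hx, hxL⟩
        exact ⟨hx, L, hL, hxL⟩
    rw [e1, image_union]
    refine Good.union (hK.2.1.image_of_continuousOn (hf.mono hK.1)).isClosed
      (hUc.image_of_continuousOn (hf.mono hU)).isClosed
      (A.good_convex hV hW hi hK.1 hK.2.1 hK.2.2) (ih l' hl' hn') ?_
    rw [← hi.image_inter hK.1 hU, e2]
    refine ih _ (fun L hL => ?_) (by simpa using hn')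
    obtain ⟨L', hL', rfl⟩ := List.mem_map.1 hL
    exact ⟨inter_subset_left.trans hK.1, hK.2.1.inter (hl' L' hL').2.1,
      hK.2.2.inter (hl' L' hL').2.2⟩

theorem Fc4_cover {k : A.κ} {V K : Set E} (hV : IsOpen V) (hW : V ⊆ A.W k)
    (hi : InjOn (A.f k) V) (hKV : K ⊆ V) (hK : IsCompact K) {N : Set X}
    (hN : ∀ x ∈ A.f k '' K, N ∈ 𝓝 x) : ∃ U, A.f k '' K ⊆ U ∧ U ⊆ N ∧ A.Good U := by
  have hf : ContinuousOn (A.f k) V := (A.loc k).continuousOn.mono hW
  have h1 : ∀ a ∈ K, ∃ r, 0 < r ∧ Metric.closedBall a r ⊆ V ∩ A.f k ⁻¹' N := fun a ha =>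
    Metric.nhds_basis_closedBall.mem_iff.1 (inter_mem (hV.mem_nhds (hKV ha))
      (hf.continuousAt (hV.mem_nhds (hKV ha)) (hN _ (mem_image_of_mem _ ha))))
  choose! r hr0 hr using h1
  obtain ⟨t, ht, hcov⟩ := hK.elim_nhds_subcover (fun a => Metric.closedBall a (r a))
    fun a ha => Metric.closedBall_mem_nhds a (hr0 a ha)
  refine ⟨_, image_mono fun x hx => ?_, ?_, A.good_finite hV hW hi
    (t.toList.map fun a => Metric.closedBall a (r a)) fun L hL => ?_⟩
  · obtain ⟨a, ha, hxa⟩ := mem_iUnion₂.1 (hcov hx)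
    exact mem_iUnion₂.2 ⟨_, List.mem_map.2 ⟨a, Finset.mem_toList.2 ha, rfl⟩, hxa⟩
  · rintro _ ⟨x, hx, rfl⟩
    obtain ⟨L, hL, hxL⟩ := mem_iUnion₂.1 hx
    obtain ⟨a, ha, rfl⟩ := List.mem_map.1 hL
    exact (hr a (ht a (Finset.mem_toList.1 ha)) hxL).2
  · obtain ⟨a, ha, rfl⟩ := List.mem_map.1 hL
    exact ⟨(hr a (ht a (Finset.mem_toList.1 ha))).trans inter_subset_left,
      isCompact_closedBall _ _, convex_closedBall _ _⟩

theorem good_chart {k : A.κ} {V K : Set E} (hV : IsOpen V) (hW : V ⊆ A.W k)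
    (hi : InjOn (A.f k) V) (hKV : K ⊆ V) (hK : IsCompact K) : A.Good (A.f k '' K) := by
  refine ⟨fun n hn ζ hζ => ?_, fun ζ hζ h0 => ?_, ?_⟩
  · obtain ⟨C, hC, hCK, hc⟩ := exists_compact hζ
    obtain ⟨U, hKU, hUN, hU⟩ := A.Fc4_cover hV hW hi hKV hK (N := Cᶜ) fun x hx =>
      hC.isClosed.isOpen_compl.mem_nhds fun h => hCK h hx
    exact Fc3_mono (compl_subset_compl.2 hKU)
      (hU.high n hn ζ (chn_mono (subset_compl_comm.1 hUN) n hc))
  · obtain ⟨C, hC, hCK, hc⟩ := exists_compact hζ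
    obtain ⟨U, hKU, hUN, hU⟩ := A.Fc4_cover hV hW hi hKV hK (N := Cᶜ ∩ {y | A.Loc ζ y 0})
      fun x hx => inter_mem (hC.isClosed.isOpen_compl.mem_nhds fun h => hCK h hx)
        (A.loc_nhds (chn_mono (compl_subset_compl.2 (singleton_subset_iff.2 hx)) 3 hζ) (h0 x hx))
    exact Fc3_mono (compl_subset_compl.2 hKU)
      (hU.inj ζ (chn_mono (subset_compl_comm.1 (hUN.trans inter_subset_left)) 3 hc)
        fun x hx => (hUN hx).2)
  · obtain ⟨U, hKU, -, hU⟩ := A.Fc4_cover hV hW hi hKV hK (N := univ) fun _ _ => univ_mem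
    obtain ⟨ζ, h1, h2⟩ := hU.ex
    exact ⟨ζ, chn_mono (compl_subset_compl.2 hKU) 3 h1, fun x hx => h2 x (hKU hx)⟩

theorem good_compact {K : Set X} (hK : IsCompact K) : A.Good K := by
  have key : ∃ T, IsClosed T ∧ K ⊆ T ∧ ∀ L, IsCompact L → L ⊆ T → A.Good L := by
    refine hK.induction_on (p := fun S => ∃ T, IsClosed T ∧ S ⊆ T ∧
      ∀ L, IsCompact L → L ⊆ T → A.Good L) ?_ ?_ ?_ ?_
    · refine ⟨∅, isClosed_empty, Subset.rfl, fun L _ hL => ?_⟩
      rw [subset_empty_iff.1 hL]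
      exact A.good_empty
    · rintro s t hst ⟨T, h1, h2, h3⟩
      exact ⟨T, h1, hst.trans h2, h3⟩
    · rintro s t ⟨T, h1, h2, h3⟩ ⟨T', h1', h2', h3'⟩
      refine ⟨T ∪ T', h1.union h1', union_subset_union h2 h2', fun L hL hLT => ?_⟩
      have e : L = L ∩ T ∪ L ∩ T' := by
        rw [← inter_union_distrib_left, inter_eq_left.2 hLT]
      have c1 := hL.inter_right h1
      have c2 := hL.inter_right h1'
      rw [e]
      exact Good.union c1.isClosed c2.isClosed (h3 _ c1 inter_subset_right)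
        (h3' _ c2 inter_subset_right)
        (h3 _ (c1.inter c2) (inter_subset_left.trans inter_subset_right))
    · intro x _
      obtain ⟨k, a, ha, rfl⟩ := A.surj x
      obtain ⟨V, hV, haV, hW, hi⟩ := exists_injOn_of_loc (A.opn k) (A.loc k) ha
      obtain ⟨r, hr0, hr⟩ := Metric.nhds_basis_closedBall.mem_iff.1 (hV.mem_nhds haV)
      have hf : ContinuousOn (A.f k) (Metric.closedBall a r) :=
        (A.loc k).continuousOn.mono (hr.trans hW)
      refine ⟨A.f k '' Metric.closedBall a r, mem_nhdsWithin_of_mem_nhds ?_, _,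
        ((isCompact_closedBall a r).image_of_continuousOn hf).isClosed, Subset.rfl,
        fun L hL hLT => ?_⟩
      · exact mem_of_superset ((isOpen_image_of_loc (A.loc k) Metric.isOpen_ball
          (Metric.ball_subset_closedBall.trans (hr.trans hW))).mem_nhds
          (mem_image_of_mem _ (Metric.mem_ball_self hr0))) (image_mono Metric.ball_subset_closedBall)
      · have e : L = A.f k '' (Metric.closedBall a r ∩ A.f k ⁻¹' L) := by
          rw [image_inter_preimage, inter_eq_right.2 hLT]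
        rw [e]
        exact A.good_chart hV hW hi (inter_subset_left.trans hr)
          ((isCompact_closedBall a r).of_isClosed_subset
            (hf.preimage_isClosed_of_isClosed Metric.isClosed_closedBall hL.isClosed)
            inter_subset_left)
  obtain ⟨T, -, h1, h2⟩ := key
  exact h2 K hK h1

theorem exists_fund [CompactSpace X] : ∃ z, A.Fund z := by
  obtain ⟨z, h1, h2⟩ := (A.good_compact isCompact_univ).ex
  rw [compl_univ, chn_empty] at h1
  exact ⟨z, h1, fun x => h2 x (mem_univ x)⟩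

end OAt

end HK3
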