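import Pool.Agent.P.MP_9699e0_gt.Glue1

/-! The smooth structure of a glued space. -/

set_option autoImplicit false
set_option linter.unusedSectionVars false

noncomputable section

namespace HK3

open Pool.Agent.P.MP_9699e0_gt Set Filter Topology
open scoped ContDiff

open scoped Manifold

variable {κ : Type} [TopologicalSpace κ] [DiscreteTopology κ] {G : Gl κ}

theorem Glue2_tr (h : G.Ok) {k l : κ} {a b : E} (ha : a ∈ G.W k) (hb : b ∈ G.W l)
    (e : G.f (k, a) = G.f (l, b)) : ∃ γ : E → E, γ a = b ∧ ContDiffAt ℝ ∞ γ a ∧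
      ∀ᶠ ξ in 𝓝 a, G.f (k, ξ) = G.f (l, γ ξ) := by
  obtain ⟨γ, h1, h2, -, h3⟩ := h.graph ((Gl.f_eq_iff (G := G) (a := (k, a)) (b := (l, b)) ha hb).1 e) ha
  refine ⟨γ, h1, h2, ?_⟩
  filter_upwards [h3, (h.opn k).mem_nhds ha] with ξ hξ hW
  exact (Gl.f_eq_iff (G := G) (a := (k, ξ)) hW (h.rel_dom hξ hW)).2 hξ

/-- A parametrisation by a piece of one of the open sets. -/
def Glue2_par (G : Gl κ) (e : OpenPartialHomeomorph E G.T) : Prop :=
  ∃ k, e.source ⊆ G.W k ∧ ∀ a, e a = G.f (k, a)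

theorem Glue2_ex (h : G.Ok) (hl : G.LInj) (x : G.T) :
    ∃ e : OpenPartialHomeomorph E G.T, Glue2_par G e ∧ x ∈ e.target := by
  obtain ⟨⟨k, a⟩, ha, rfl⟩ := Gl.f_surj x
  obtain ⟨e, h1, h2⟩ := h.loc_k hl k a ha
  refine ⟨e.restrOpen (G.W k) (h.opn k), ⟨k, fun b hb => hb.2, fun b => (congrFun h2 b).symm⟩, ?_⟩
  have := (e.restrOpen (G.W k) (h.opn k)).map_source (x := a) ⟨h1, ha⟩
  rwa [show (e.restrOpen (G.W k) (h.opn k)) a = G.f (k, a) from (congrFun h2 a).symm] at this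

theorem Glue2_key (h : G.Ok) (hl : G.LInj) {φ : G.T → G.T}
    (hφ : ∀ k, ∀ a ∈ G.W k, ∃ (l : κ) (γ : E → E), ContDiffAt ℝ ∞ γ a ∧ γ a ∈ G.W l ∧
        ∀ᶠ ξ in 𝓝 a, φ (G.f (k, ξ)) = G.f (l, γ ξ))
    {e e' : OpenPartialHomeomorph E G.T} (he : Glue2_par G e) (he' : Glue2_par G e') {a : E}
    (ha : a ∈ e.source) (hb : φ (e a) ∈ e'.target) :
    ContinuousAt φ (e a) ∧ ContDiffAt ℝ ∞ (fun ξ => e'.symm (φ (e ξ))) a := by
  obtain ⟨k, hk, ek⟩ := he
  obtain ⟨k', hk', ek'⟩ := he'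
  obtain ⟨l, γ, h1, h2, h3⟩ := hφ k a (hk ha)
  constructor
  · have c1 : ContinuousAt e.symm (e a) := e.continuousAt_symm (e.map_source ha)
    have t1 : Tendsto e.symm (𝓝 (e a)) (𝓝 a) := by
      have := c1.tendsto
      rwa [e.left_inv ha] at this
    have c2 : ContinuousAt (fun y => G.f (l, γ (e.symm y))) (e a) := by
      have c3 := (h.loc_k hl l).continuousAt h2
      have t2 := c3.tendsto.comp (h1.continuousAt.tendsto.comp t1)
      show Tendsto _ _ (𝓝 (G.f (l, γ (e.symm (e a)))))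
      rw [e.left_inv ha]
      exact t2
    refine c2.congr ?_
    filter_upwards [t1.eventually h3, e.open_target.mem_nhds (e.map_source ha)] with y hy hy'
    rw [← hy, ← ek, e.right_inv hy']
  · have hb' := e'.map_target hb
    have e1 : G.f (l, γ a) = G.f (k', e'.symm (φ (e a))) := by
      rw [← ek', e'.right_inv hb, ek, h3.self_of_nhds]
    obtain ⟨δ, d1, d2, d3⟩ := Glue2_tr h h2 (hk' hb') e1
    refine (d2.comp a h1).congr_of_eventuallyEq ?_
    have t : Tendsto (fun ξ => δ (γ ξ)) (𝓝 a) (𝓝 (e'.symm (φ (e a)))) := by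
      rw [← d1]
      exact (d2.comp a h1).continuousAt.tendsto
    filter_upwards [h3, h1.continuousAt.tendsto.eventually d3,
      t.eventually (e'.open_source.mem_nhds hb')] with ξ k1 k2 k3
    show _ = δ (γ ξ)
    rw [ek, k1, k2, ← ek', e'.left_inv k3]

theorem Glue2_lin : Nonempty (E ≃L[ℝ] R4) := by
  have : Module.finrank ℝ E = Module.finrank ℝ (EuclideanSpace ℝ (Fin 4)) := by
    simp [E, Module.finrank_prod]
  exact ⟨(ContinuousLinearEquiv.ofFinrankEq this : E ≃L[ℝ] EuclideanSpace ℝ (Fin 4))⟩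

theorem Gl.Ok.manifold (h : G.Ok) (hl : G.LInj) : ∃ _ : ChartedSpace R4 G.T,
    IsManifold 𝓘(ℝ, R4) ∞ G.T ∧ ∀ φ : G.T → G.T,
      (∀ k, ∀ a ∈ G.W k, ∃ (l : κ) (γ : E → E), ContDiffAt ℝ ∞ γ a ∧ γ a ∈ G.W l ∧
        ∀ᶠ ξ in 𝓝 a, φ (G.f (k, ξ)) = G.f (l, γ ξ)) →
      ContMDiff 𝓘(ℝ, R4) 𝓘(ℝ, R4) ∞ φ := by
  obtain ⟨L⟩ := Glue2_lin
  choose e he hx using Glue2_ex h hl
  let c : G.T → OpenPartialHomeomorph G.T R4 := fun x =>
    (e x).symm.transHomeomorph L.toHomeomorph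
  let cs : ChartedSpace R4 G.T :=
    { atlas := range c
      chartAt := c
      mem_chart_source := hx
      chart_mem_atlas := fun x => ⟨x, rfl⟩ }
  have key : ∀ {φ : G.T → G.T}, (∀ k, ∀ a ∈ G.W k, ∃ (l : κ) (γ : E → E),
      ContDiffAt ℝ ∞ γ a ∧ γ a ∈ G.W l ∧ ∀ᶠ ξ in 𝓝 a, φ (G.f (k, ξ)) = G.f (l, γ ξ)) →
      ∀ x y z, z ∈ (e x).target → φ z ∈ (e y).target →
      ContinuousAt φ z ∧ ContDiffAt ℝ ∞ (fun v => c y (φ ((c x).symm v))) (c x z) := by
    intro φ hφ x y z hz hz'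
    have hr := (e x).right_inv hz
    obtain ⟨k1, k2⟩ := Glue2_key h hl hφ (he x) (he y) ((e x).map_target hz) (by rwa [hr])
    refine ⟨by rwa [hr] at k1, ?_⟩
    have k3 : ContDiffAt ℝ ∞ (fun ξ => (e y).symm (φ (e x ξ))) (L.symm (L ((e x).symm z))) := by
      rwa [L.symm_apply_apply]
    exact L.contDiff.contDiffAt.comp _ (k3.comp (L ((e x).symm z)) L.symm.contDiff.contDiffAt)
  refine ⟨cs, ?_, fun φ hφ x => ?_⟩
  · refine isManifold_of_contDiffOn _ _ _ ?_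
    rintro _ _ ⟨x, rfl⟩ ⟨y, rfl⟩
    simp only [modelWithCornersSelf_coe, modelWithCornersSelf_coe_symm, Function.comp_id,
      Function.id_comp, range_id, preimage_id, inter_univ]
    intro v hv
    have hv1 : v ∈ (c x).target := hv.1
    have k := (key (φ := id) (fun k a ha => ⟨k, id, contDiffAt_id, ha, .of_forall fun _ => rfl⟩)
      x y ((c x).symm v) ((c x).map_target hv1) hv.2).2
    rw [(c x).right_inv hv1] at k
    exact k.contDiffWithinAt
  · obtain ⟨k1, k2⟩ := key hφ x (φ x) x (hx x) (hx _)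
    rw [contMDiffAt_iff]
    exact ⟨k1, k2.contDiffWithinAt⟩

end HK3
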