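import Pool.Agent.P.MP_9699e0_gt.LatM
import Pool.Agent.P.MP_9699e0_gt.Cup

/-! From intersection numbers to the basis. -/

set_option autoImplicit false
set_option linter.unusedSectionVars false

noncomputable section

namespace HK3

open Pool.Agent.P.MP_9699e0_gt Set Filter Topology
open scoped ContDiff

variable {X : Type} [TopologicalSpace X]

theorem Coh.pull {a b : Simp X 2 → ℤ} (h : Coh a b) (g : C(X, X)) :
    Coh (fun σ => a (g.comp σ)) fun σ => b (g.comp σ) := by
  obtain ⟨u, rfl⟩ := h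
  exact ⟨fun σ => u (g.comp σ), rfl⟩

theorem Coh.sum {ι : Type} (T : Finset ι) {a b : ι → Simp X 2 → ℤ} (h : ∀ i ∈ T, Coh (a i) (b i)) :
    Coh (∑ i ∈ T, a i) (∑ i ∈ T, b i) := by
  classical
  induction T using Finset.induction_on with
  | empty => exact Coh.refl _
  | insert i T hi ih =>
    rw [Finset.sum_insert hi, Finset.sum_insert hi]
    exact (h i (Finset.mem_insert_self _ _)).add (ih fun j hj => h j (Finset.mem_insert_of_mem hj))

theorem Gram_sum {ι : Type} (T : Finset ι) (a : Simp X 2 → ℤ) (b : ι → Simp X 2 → ℤ)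
    (z : Chn ℤ X 4) : ev ℤ (cup a (∑ j ∈ T, b j)) z = ∑ j ∈ T, ev ℤ (cup a (b j)) z := by
  simpa using ev_cup_sum {()} T 1 1 (fun _ => a) b z

theorem Gram_two (a b : Simp X 2 → ℤ) (z : Chn ℤ X 4) :
    ev ℤ (cup ((2 : ℤ) • a) ((2 : ℤ) • b)) z = 4 * ev ℤ (cup a b) z := by
  rw [two_smul, two_smul, ev_cup_add_left, ev_cup_add_right]
  ring

theorem gram {z : Chn ℤ X 4} (hz : bd ℤ X 3 z = 0) (cA : I4 × I4 → Simp X 2 → ℤ)
    (cG cB : HI → Simp X 2 → ℤ) (hA : ∀ j, cobd (cA j) = 0) (hG : ∀ b, cobd (cG b) = 0)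
    (hB : ∀ b, cobd (cB b) = 0)
    (hh : ∀ b, Coh (cG b) (cB b + cB b + ∑ j ∈ Finset.univ.filter (inK b), cA j))
    (mAA : ∀ j j', j ≠ j' → Meet z (cA j) (cA j') 0) (mAG : ∀ j b, Meet z (cA j) (cG b) 0)
    (mGG : ∀ b b', Meet z (cG b) (cG b') (gG b b'))
    (mAB : ∀ i c, Meet z (cA (i, c)) (cB (.inl i)) 1) (g : C(X, X))
    (iA : ∀ j, Coh (fun σ => cA j (g.comp σ)) (cA j))
    (iG : ∀ b, Coh (fun σ => cG b (g.comp σ)) (cG b)) :
    ∃ e : K3Index → Simp X 2 → ℤ, (∀ i, cobd (e i) = 0) ∧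
      (∀ i j, ev ℤ (cup (e i) (e j)) z = k3Form i j) ∧
      ∀ i, Coh ((2 : ℤ) • fun σ => e i (g.comp σ)) ((2 : ℤ) • e i) := by
  have AA : ∀ j, ev ℤ (cup (cA j) (cA j)) z = -2 := by
    rintro ⟨i, c⟩
    have h1 := ev_cup_coh hz (hA (i, c)) (by
      rw [cobd_add, cobd_add, cobd_sum, hB]
      simp [hA]) (Coh.refl _) (hh (.inl i))
    rw [(mAG _ _).1, ev_cup_add_right, ev_cup_add_right, (mAB i c).1, Gram_sum,
      Finset.sum_eq_single_of_mem (s := Finset.univ.filter (inK (.inl i))) (i, c)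
        (Finset.mem_filter.2 ⟨Finset.mem_univ _, rfl⟩) fun j _ hj => (mAA _ _ hj.symm).1] at h1
    omega
  obtain ⟨M, hM⟩ := exists_latM
  obtain ⟨cls, hcls⟩ : ∃ cls : GI → Simp X 2 → ℤ, cls = Sum.elim cA cB := ⟨_, rfl⟩
  obtain ⟨bas, hbas⟩ : ∃ bas : GI → Simp X 2 → ℤ, bas = Sum.elim cA cG := ⟨_, rfl⟩
  have c1 : ∀ x, cobd (cls x) = 0 := by
    rw [hcls]
    rintro (j | b)
    exacts [hA j, hB b]
  have c2 : ∀ x, cobd (bas x) = 0 := by
    rw [hbas]
    rintro (j | b)
    exacts [hA j, hG b]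
  have c3 : ∀ x, Coh (fun σ => bas x (g.comp σ)) (bas x) := by
    rw [hbas]
    rintro (j | b)
    exacts [iA j, iG b]
  have hQ : ∀ y w, ev ℤ (cup (bas y) (bas w)) z = G0 y w := by
    rw [hbas]
    rintro (j | b) (j' | b')
    · by_cases e : j = j'
      · subst e
        exact (AA j).trans (if_pos rfl).symm
      · exact (mAA j j' e).1.trans (if_neg e).symm
    · exact (mAG j b').1
    · exact (mAG j' b).2
    · exact (mGG b b').1
  have hC : ∀ x, Coh ((2 : ℤ) • cls x) (∑ y, dbl x y • bas y) := by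
    rw [hcls, hbas]
    rintro (j | b)
    · have e : ∑ y, dbl (.inl j) y • Sum.elim cA cG y = (2 : ℤ) • cA j := by
        simp [Fintype.sum_sum_type, dbl]
      rw [e]
      exact Coh.refl _
    · have e : ∑ y, dbl (.inr b) y • Sum.elim cA cG y =
          cG b + -∑ j ∈ Finset.univ.filter (inK b), cA j := by
        rw [Finset.sum_filter, ← Finset.sum_neg_distrib, add_comm, Fintype.sum_sum_type]
        congr 1
        · refine Finset.sum_congr rfl fun j _ => ?_
          by_cases h : inK b j <;> simp [dbl, h]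
        · simp [dbl]
      have := (hh b).symm.add (Coh.refl (-∑ j ∈ Finset.univ.filter (inK b), cA j))
      rw [add_neg_cancel_right] at this
      rw [e, two_smul]
      exact this
  have hE : ∀ k, Coh ((2 : ℤ) • ∑ x, M k x • cls x) (∑ y, (∑ x, M k x * dbl x y) • bas y) := by
    intro k
    have := Coh.sum Finset.univ fun x _ => (hC x).zsmul (M k x)
    simp only [Finset.smul_sum, smul_smul] at this
    rw [Finset.sum_comm] at this
    simp only [Finset.smul_sum, Finset.sum_smul, smul_smul, mul_comm (2 : ℤ)]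
    exact this
  have c4 : ∀ k, cobd (∑ x, M k x • cls x) = 0 := fun k => by
    simp only [cobd_sum, cobd_zsmul, c1, smul_zero, Finset.sum_const_zero]
  refine ⟨fun k => ∑ x, M k x • cls x, c4, fun k l => ?_, fun k => ?_⟩
  · have h1 := ev_cup_coh hz (by rw [cobd_zsmul, c4, smul_zero])
      (by simp only [cobd_sum, cobd_zsmul, c2, smul_zero, Finset.sum_const_zero]) (hE k) (hE l)
    rw [Gram_two, ev_cup_sum _ _ _ _ bas bas] at h1
    simp only [hQ] at h1
    exact mul_left_cancel₀ (by norm_num) (h1.trans (hM k l))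
  · refine (((hE k).pull g).trans ?_).trans (hE k).symm
    have := Coh.sum Finset.univ fun y _ => (c3 y).zsmul (∑ x, M k x * dbl x y)
    have e : (fun σ : Simp X 2 => (∑ y, (∑ x, M k x * dbl x y) • bas y) (g.comp σ)) =
        ∑ y, (∑ x, M k x * dbl x y) • fun σ : Simp X 2 => bas y (g.comp σ) := by
      funext σ
      simp only [Finset.sum_apply, Pi.smul_apply]
    rw [e]
    exact this

end HK3
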