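import Pool.Agent.P.MP_9699e0_gt.HF
import Pool.Agent.P.MP_9699e0_gt.FnA

/-! The return map reverses the winding numbers. -/

set_option autoImplicit false
set_option linter.unusedSectionVars false

noncomputable section

namespace HK3

open Pool.Agent.P.MP_9699e0_gt Set Filter Topology
open scoped ContDiff

variable {n : ℕ}

theorem HNa_cj (y : ℂ) : cj (-1) y = (starRingEnd ℂ) y := by
  apply Complex.ext <;> simp [cj, sg_neg, sg_one]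

theorem HNa_sg (s : ℝ) (e : ℤ) (m : ℤ × ℤ) (y : ℂ) :
    dg s (sg e * y + 2 * β 0 m) = sg e * dg s y + 2 * β s m := by
  have h := dg_mul s 2 (β 0 m)
  rw [dg_β, zero_add] at h
  rw [dg_add, dg_mul]
  exact congrArg _ (by simpa using h)

theorem ret_eq (hn : Odd n) {ξ : E} (h : ξ ∈ W0) (h0 : ξ.2.im = 0) :
    ((starRingEnd ℂ) (dg n ξ.1), -ξ.2) ∈ W0 ∧
      f0 n (dg n ξ.1, ξ.2 + (n : ℝ) * Complex.I) = f0 n ((starRingEnd ℂ) (dg n ξ.1), -ξ.2) := by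
  have h1 := flow_mem n h
  have e : gam n (-1) 0 0 0 (dg n ξ.1, ξ.2 + (n : ℝ) * Complex.I) =
      ((starRingEnd ℂ) (dg n ξ.1), -ξ.2) := by
    refine Prod.ext ?_ (Complex.ext ?_ ?_)
    · simp [gam, sg_zero, β_zero, HNa_cj]
    · simp [gam, sg_neg, sg_one]
    · simp [gam, h0]
  rw [← e]
  exact ⟨gam_mem hn _ _ _ _ h1, f0_gam hn h1 ⟨_, _, _, _, rfl⟩⟩

theorem ev_ret_tau (hn : Odd n) {T : XX n → XX n} (hT : ContinuousOn T (Φ n))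
    (eT : ∀ ξ ∈ W0, ξ.2.im = 0 → T (f0 n ξ) = f0 n (dg n ξ.1, ξ.2 + (n : ℝ) * Complex.I))
    {τ : XX n → ℂ} (hτ : ContinuousOn τ (Φ n))
    (eτ : ∀ ξ ∈ W0, ξ.2.im = 0 → τ (f0 n ξ) = ex (ξ.2.re / 2)) {d : Chn ℚ (XX n) 1}
    (hd : d ∈ cyc ℚ (Φ n) 1) : ev ℚ (wd τ) (cmap ℚ T 1 d) = -ev ℚ (wd τ) d := by
  have hz : NZ τ (Φ n) := ⟨hτ, by
    rintro _ ⟨ξ, ⟨h, h0⟩, rfl⟩
    rw [eτ ξ h h0]
    exact ex_ne _⟩
  rw [ev_wd_cmap τ hT hd.1, ← ev_wd_conj hz hd.1]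
  refine ev_congr_chn hd.1 fun σ hσ => wd_congr (S := Φ n) ?_ hσ
  rintro _ ⟨ξ, ⟨h, h0⟩, rfl⟩
  obtain ⟨r1, r2⟩ := ret_eq hn h h0
  show τ (T (f0 n ξ)) = (starRingEnd ℂ) (τ (f0 n ξ))
  rw [eT ξ h h0, r2, eτ _ r1 (by simp [h0]), eτ ξ h h0, ← ex_neg]
  simp [neg_div]

theorem exists_psi_Φ (hn : Odd n) {ψ : Fin 3 → ℂ → ℝ → ℂ} (h : Psi ψ) (a : Fin 3) :
    ∃ G : XX n → ℂ, NZ G (Φ n) ∧ (∀ ξ ∈ W0, ξ.2.im = 0 → G (f0 n ξ) = ψ a ξ.1 0) ∧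
      ∀ T : XX n → XX n, ContinuousOn T (Φ n) →
        (∀ ξ ∈ W0, ξ.2.im = 0 → T (f0 n ξ) = f0 n (dg n ξ.1, ξ.2 + (n : ℝ) * Complex.I)) →
        ∀ d ∈ cyc ℚ (Φ n) 1, ev ℚ (wd G) (cmap ℚ T 1 d) = -ev ℚ (wd G) d := by
  obtain ⟨H, hc, hH⟩ := desc_Φ hn (fun s ξ => ψ a (dg (n * s) ξ.1) (n * s))
    (by
      have h1 : ContinuousOn (fun p : ℝ × E => ((dg (n * p.1) p.2.1,
          p.2.2 + (n * p.1 : ℝ) * Complex.I) : E)) (univ ×ˢ {ξ | ξ ∈ W0 ∧ ξ.2.im = 0}) := by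
        refine Continuous.continuousOn (Continuous.prodMk ?_ (by fun_prop))
        exact contDiff_dg.continuous.comp
          (f := fun p : ℝ × E => ((n * p.1, p.2.1) : ℝ × ℂ)) (by fun_prop)
      refine ((h.cont a).comp h1 fun p hp => flow_mem _ hp.2.1).congr fun p hp => ?_
      simp [hp.2.2])
    (fun s e m l ξ _ _ => by
      show ψ a (dg (n * s) (sg e * ξ.1 + 2 * β 0 m)) (n * s) = _
      rw [HNa_sg, h.per]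
      rcases sg_cases e with g | g
      · simp [g.1]
      · simp [g.1, h.neg])
  have hz : NZ (fun p : ℝ × XX n => H p.1 p.2) (univ ×ˢ Φ n) := ⟨hc, by
    rintro ⟨s, _⟩ ⟨-, ξ, ⟨h1, h0⟩, rfl⟩ e
    have := h.norm a (dg (n * s) ξ.1) (n * s)
    rw [← hH s ξ h1 h0, show H s (f0 n ξ) = 0 from e, norm_zero] at this
    exact zero_ne_one this⟩
  have hs : ∀ s, NZ (H s) (Φ n) := fun s =>
    ⟨hc.comp (f := fun x => (s, x)) (by fun_prop) fun x hx => ⟨mem_univ _, hx⟩,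
      fun x hx => hz.2 (s, x) ⟨mem_univ _, hx⟩⟩
  have e0 : ∀ ξ ∈ W0, ξ.2.im = 0 → H 0 (f0 n ξ) = ψ a ξ.1 0 := fun ξ h1 h0 => by
    rw [hH 0 ξ h1 h0, mul_zero, dg_zero]
  refine ⟨H 0, hs 0, e0, fun T hT eT d hd => ?_⟩
  rw [ev_wd_cmap _ hT hd.1, ← ev_wd_htpy H ⟨hc.mono (prod_mono (subset_univ _) Subset.rfl),
    fun p hp => hz.2 p ⟨mem_univ _, hp.2⟩⟩ hd, ← ev_wd_conj (hs 1) hd.1]
  refine ev_congr_chn hd.1 fun σ hσ => wd_congr (S := Φ n) ?_ hσ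
  rintro _ ⟨ξ, ⟨h1, h0⟩, rfl⟩
  obtain ⟨r1, r2⟩ := ret_eq hn h1 h0
  show H 0 (T (f0 n ξ)) = (starRingEnd ℂ) (H 1 (f0 n ξ))
  have k := h.cj a (n * (-1)) (dg n ξ.1) n
  rw [cj_odd_mul hn, cj_odd_mul hn, HNa_cj, HNa_cj] at k
  rw [eT ξ h1 h0, r2, e0 _ r1 (by simp [h0]), hH 1 ξ h1 h0, mul_one, ← k]
  simp

end HK3
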