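import Pool.Agent.P.MP_9699e0_gt.MDefs2

/-! Four loops in the fibre. -/

set_option autoImplicit false
set_option linter.unusedSectionVars false

noncomputable section

namespace HK3

open Pool.Agent.P.MP_9699e0_gt Set Filter Topology
open scoped ContDiff

variable {n : ℕ}

theorem HNb_loop (hn : Odd n) {c : ℝ → E} (hc : Continuous c) (hW : ∀ t, c t ∈ W0)
    (h0 : ∀ t, (c t).2.im = 0) (hR : RG n (c 0) (c 1)) :
    ∃ v ∈ cyc ℚ (Φ n) 1, ∀ (g : XX n → ℂ) (θ : ℝ → ℝ), Continuous θ →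
      (∀ t, g (f0 n (c t)) = ex (θ t)) → ev ℚ (wd g) v = θ 1 - θ 0 := by
  obtain ⟨v, hv, hv'⟩ := exists_loop (R := ℚ) (fun t => f0 n (c t))
    ((loc0 hn).continuousOn.comp hc.continuousOn fun t _ => hW t) ((f00 hn (hW 0) (hW 1)).2 hR)
  refine ⟨v, cyc_mono ?_ 1 hv, fun g θ hθ e => hv' g θ hθ.continuousOn fun t _ => ?_⟩
  · rintro _ ⟨t, -, rfl⟩
    exact ⟨c t, ⟨hW t, h0 t⟩, rfl⟩
  · simp only [e t, norm_ex, Complex.ofReal_one, one_mul, and_true]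
    exact ex_ne _

theorem HNb_mem (m : ℤ × ℤ) (u : ℝ) {v : ℂ} (hv : v.im = 0) :
    ((β 0 m + (ρ / 2 : ℝ) * ex u, v) : E) ∈ W0 := by
  intro m' h
  simp only [hv] at h
  have h1 : ((ρ / 2 : ℝ) : ℂ) * ex u = β 0 (m' + -m) := by
    rw [β_add, β_neg, ← h]
    ring
  have h2 : ‖β 0 (m' + -m)‖ = ρ / 2 := by
    rw [← h1, norm_mul, norm_ex, mul_one, Complex.norm_real, Real.norm_eq_abs,
      abs_of_pos (half_pos ρ_pos)]
  by_cases h3 : m' + -m = 0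
  · rw [h3, β_zero, norm_zero] at h2
    linarith [ρ_pos]
  · have := one_le_β 0 h3
    rw [h2] at this
    norm_num [ρ] at this

theorem HNb_mm : ∀ a b : Fin 3, mm a (cl b) = if b = a then -1 else 0 := by decide

theorem HNb_none (hn : Odd n) {ψ : Fin 3 → ℂ → ℝ → ℂ} (h : Psi ψ) :
    ∃ v ∈ cyc ℚ (Φ n) 1,
      (∀ τ : XX n → ℂ, (∀ ξ ∈ W0, ξ.2.im = 0 → τ (f0 n ξ) = ex (ξ.2.re / 2)) →
        ev ℚ (wd τ) v = 1) ∧
      ∀ (a : Fin 3) (G : XX n → ℂ), (∀ ξ ∈ W0, ξ.2.im = 0 → G (f0 n ξ) = ψ a ξ.1 0) →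
        ev ℚ (wd G) v = 0 := by
  have hW : ∀ t : ℝ, ((β 0 0 + (ρ / 2 : ℝ) * ex 0, ((2 * t : ℝ) : ℂ)) : E) ∈ W0 := fun t =>
    HNb_mem 0 0 (Complex.ofReal_im _)
  obtain ⟨v, hv, hv'⟩ := HNb_loop hn
    (c := fun t : ℝ => (β 0 0 + (ρ / 2 : ℝ) * ex 0, ((2 * t : ℝ) : ℂ))) (by fun_prop) hW
    (fun t => Complex.ofReal_im _) (by
      have := RG_of_zero (n := n) 0 0 1 (β 0 0 + (ρ / 2 : ℝ) * ex 0, ((2 * 0 : ℝ) : ℂ))
      simpa [sg_zero, β_zero] using this)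
  refine ⟨v, hv, fun τ hτ => ?_, fun a G hG => ?_⟩
  · rw [hv' τ (fun t => t) continuous_id fun t => ?_, sub_zero]
    rw [hτ _ (hW t) (Complex.ofReal_im _)]
    simp
  · obtain ⟨s, hs⟩ := exists_ex (ψ a (β 0 0 + (ρ / 2 : ℝ) * ex 0) 0)
    rw [h.norm, Complex.ofReal_one, one_mul] at hs
    rw [hv' G (fun _ => s) continuous_const fun t => ?_, sub_self]
    rw [hG _ (hW t) (Complex.ofReal_im _)]
    exact hs

theorem HNb_some (hn : Odd n) {ψ : Fin 3 → ℂ → ℝ → ℂ} (h : Psi ψ) (b : Fin 3) :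
    ∃ v ∈ cyc ℚ (Φ n) 1,
      (∀ τ : XX n → ℂ, (∀ ξ ∈ W0, ξ.2.im = 0 → τ (f0 n ξ) = ex (ξ.2.re / 2)) →
        ev ℚ (wd τ) v = 0) ∧
      ∀ (a : Fin 3) (G : XX n → ℂ), (∀ ξ ∈ W0, ξ.2.im = 0 → G (f0 n ξ) = ψ a ξ.1 0) →
        ev ℚ (wd G) v = mm a (cl b) := by
  have hW : ∀ t : ℝ, ((β 0 (rep (cl b)) + (ρ / 2 : ℝ) * ex (2 * t / 4), 0) : E) ∈ W0 := fun t =>
    HNb_mem _ _ Complex.zero_im
  have hex := continuous_ex
  obtain ⟨v, hv, hv'⟩ := HNb_loop hn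
    (c := fun t : ℝ => (β 0 (rep (cl b)) + (ρ / 2 : ℝ) * ex (2 * t / 4), 0)) (by fun_prop) hW
    (fun t => Complex.zero_im) (by
      have := RG_of_zero (n := n) 1 (rep (cl b)) 0
        (β 0 (rep (cl b)) + (ρ / 2 : ℝ) * ex (2 * 0 / 4), 0)
      have e1 : ex (2 * 1 / 4) = -1 := by
        have := ex_half 1
        rw [zpow_one] at this
        rw [← this]
        congr 1
        norm_num
      have e0 : ex (2 * 0 / 4) = 1 := by
        rw [← ex_zero]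
        congr 1
        norm_num
      simp only [e0, e1, sg_one, Complex.zero_im] at this ⊢
      have e2 : ((((-1 : ℝ) : ℂ) * (β 0 (rep (cl b)) + ((ρ / 2 : ℝ) : ℂ) * 1) +
          2 * β 0 (rep (cl b)), (0 : ℂ) + 2 * ((0 : ℤ) : ℂ)) : E) =
          (β 0 (rep (cl b)) + ((ρ / 2 : ℝ) : ℂ) * -1, 0) := by
        refine Prod.ext ?_ ?_
        · push_cast
          ring
        · simp
      rwa [e2] at this)
  refine ⟨v, hv, fun τ hτ => ?_, fun a G hG => ?_⟩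
  · rw [hv' τ (fun _ => 0) continuous_const fun t => ?_, sub_zero]
    rw [hτ _ (hW t) Complex.zero_im]
    simp
  · obtain ⟨k, hk⟩ : ∃ k : ℤ, eps a (cl b) = sg k := ⟨_, rfl⟩
    rw [hv' G (fun t => k / 2 + mm a (cl b) * (2 * t) / 2) (by fun_prop) fun t => ?_]
    · ring
    · rw [hG _ (hW t) Complex.zero_im, h.tub a (cl b) 0 (ρ / 2) (2 * t) (half_pos ρ_pos)
        (half_lt_self ρ_pos), ex_add, ex_sg, hk]

theorem exists_loops (hn : Odd n) {ψ : Fin 3 → ℂ → ℝ → ℂ} (h : Psi ψ) :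
    ∃ v : Option (Fin 3) → Chn ℚ (XX n) 1, (∀ j, v j ∈ cyc ℚ (Φ n) 1) ∧
      (∀ τ : XX n → ℂ, (∀ ξ ∈ W0, ξ.2.im = 0 → τ (f0 n ξ) = ex (ξ.2.re / 2)) →
        ∀ j, ev ℚ (wd τ) (v j) = if j = none then 1 else 0) ∧
      ∀ (a : Fin 3) (G : XX n → ℂ), (∀ ξ ∈ W0, ξ.2.im = 0 → G (f0 n ξ) = ψ a ξ.1 0) →
        ∀ j, ev ℚ (wd G) (v j) = if j = some a then -1 else 0 := by
  obtain ⟨v0, h1, h2, h3⟩ := HNb_none hn h
  choose w k1 k2 k3 using HNb_some hn h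
  refine ⟨fun j => j.elim v0 w, ?_, fun τ hτ => ?_, fun a G hG => ?_⟩
  · rintro (_ | b)
    · exact h1
    · exact k1 b
  · rintro (_ | b)
    · rw [if_pos rfl]
      exact h2 τ hτ
    · rw [if_neg (Option.some_ne_none b)]
      exact k2 b τ hτ
  · rintro (_ | b)
    · rw [if_neg (Option.some_ne_none a).symm]
      exact h3 a G hG
    · refine (k3 b a G hG).trans ?_
      rw [HNb_mm]
      by_cases e : b = a <;> simp [e]

end HK3
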