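import Pool.Agent.P.MP_9699e0_gt.HS
import Pool.Agent.P.MP_9699e0_gt.HNa
import Pool.Agent.P.MP_9699e0_gt.HNb

/-! The second Betti number of the open part. -/

set_option autoImplicit false
set_option linter.unusedSectionVars false

noncomputable section

namespace HK3

open Pool.Agent.P.MP_9699e0_gt Set Filter Topology
open scoped ContDiff

variable {n : ℕ}

theorem ret_neg (hn : Odd n) {ψ : Fin 3 → ℂ → ℝ → ℂ} (h : Psi ψ) {T : XX n → XX n}
    (hT : ContinuousOn T (Φ n))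
    (eT : ∀ ξ ∈ W0, ξ.2.im = 0 → T (f0 n ξ) = f0 n (dg n ξ.1, ξ.2 + (n : ℝ) * Complex.I))
    {d : Chn ℚ (XX n) 1} (hd : d ∈ cyc ℚ (Φ n) 1) : cmap ℚ T 1 d + d ∈ bdy ℚ (Φ n) 1 := by
  obtain ⟨τ, Θ, hr, -, eτ⟩ := exists_rot_Φ hn
  choose G hG eG rG using exists_psi_Φ hn h
  obtain ⟨v, hv, v1, v2⟩ := exists_loops hn h
  have hm : MapsTo T (Φ n) (Φ n) := by
    rintro _ ⟨ξ, ⟨h1, h2⟩, rfl⟩
    rw [eT ξ h1 h2, (ret_eq hn h1 h2).2]
    exact ⟨_, ⟨(ret_eq hn h1 h2).1, by simp [h2]⟩, rfl⟩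
  have hτ : NZ τ (Φ n) := ⟨hr.cτ, fun x hx h0 => by simpa [h0] using hr.nτ x hx⟩
  let l : Option (Fin 3) → Chn ℚ (XX n) 1 →ₗ[ℚ] ℝ := fun j =>
    Option.casesOn j (ev ℚ (wd τ)) fun a => ev ℚ (wd (G a))
  refine mem_of_sep (ι := Option (Fin 3)) (le_trans (hb_Φ_one hn) (by simp)) l ?_ v hv ?_
    (add_mem (cmap_cyc hT hm hd) hd) ?_
  · rintro (_ | a) x hx
    · exact ev_wd_bdy hτ hx
    · exact ev_wd_bdy (hG a) hx
  · have e : (Matrix.of fun i j => l i (v j)) =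
        Matrix.diagonal fun i => Option.casesOn i (1 : ℝ) fun _ => -1 := by
      ext i j
      rcases i with _ | a
      · simp only [Matrix.of_apply, l, v1 τ eτ j, Matrix.diagonal_apply]
        simp [eq_comm]
      · simp only [Matrix.of_apply, l, v2 a (G a) (eG a) j, Matrix.diagonal_apply]
        simp [eq_comm]
    rw [e, Matrix.det_diagonal]
    refine Finset.prod_ne_zero_iff.2 ?_
    rintro (_ | a) - <;> simp
  · rintro (_ | a)
    · simp only [l, map_add, ev_ret_tau hn hT eT hr.cτ eτ hd, neg_add_cancel]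
    · simp only [l, map_add, rG a T hT eT d hd, neg_add_cancel]

theorem hb_Z0 (hn : Odd n) {ψ : Fin 3 → ℂ → ℝ → ℂ} (h : Psi ψ) : hb (Z0 n) 2 ≤ (3 : ℕ) := by
  obtain ⟨τ, Θ, hr, hf, e⟩ := exists_rot_Z0 hn
  have hs : Φ n ⊆ Z0 n := image_mono fun _ hξ => hξ.1
  have hc : ContinuousOn (Θ 1) (Φ n) :=
    hr.cΘ.comp (continuous_const.prodMk continuous_id).continuousOn fun x hx => ⟨trivial, hs hx⟩
  have h1 := hr.hb_le_neg 1 (by
    rw [hf]
    exact fun d hd => ret_neg hn h hc (fun ξ hξ _ => by simpa using e 1 ξ hξ) hd)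
  rw [hf] at h1
  exact h1.trans (hb_Φ_two hn)

end HK3
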