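import Pool.Agent.P.MP_9699e0_gt.HY
import Pool.Agent.P.MP_9699e0_gt.HZ

/-! The second Betti number. -/

set_option autoImplicit false
set_option linter.unusedSectionVars false

noncomputable section

namespace HK3

open Pool.Agent.P.MP_9699e0_gt Set Filter Topology
open scoped ContDiff

variable {n : ℕ}

theorem HX_disj (hn : Odd n) (i j : I4) (h : i ≠ j) : Disjoint (N2 n i) (N2 n j) :=
  (disj_Nb hn h).mono subset_union_left subset_union_left

theorem hb_Xp (hn : Odd n) (F : Fns n) : hb (Xp n) 2 ≤ (6 : ℕ) := by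
  have hV : IsOpen (⋃ i, N2 n i) := isOpen_iUnion (isOpen_N2 hn)
  have h := mv_rank (O := Xp n) (isOpen_Z0 hn) hV subset_rfl 1
  have e1 : Xp n ∩ Z0 n = Z0 n := inter_eq_right.2 subset_union_left
  have e2 : Xp n ∩ ⋃ i, N2 n i = ⋃ i, N2 n i := inter_eq_right.2 subset_union_right
  have e3 : Z0 n ∩ ⋃ i, N2 n i = ⋃ i, Z0 n ∩ N2 n i := inter_iUnion _ _
  rw [e1, e2, e3] at h
  have h1 : rd (cyc ℚ (Z0 n) 2 ⊔ cyc ℚ (⋃ i, N2 n i) 2) (bdy ℚ (Xp n) 2) ≤ (3 : ℕ) := by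
    refine le_trans (rd_mono ?_ (bdy_mono subset_union_left 2)) (hb_Z0 hn F.psi)
    refine sup_le le_sup_left ?_
    rw [cyc_disj (isOpen_N2 hn) (fun _ => subset_rfl) (HX_disj hn)]
    refine iSup_le fun i => (cyc_N2 hn i).trans (sup_le_sup (cyc_mono inter_subset_left 2) ?_)
    exact bdy_mono ((subset_iUnion (N2 n) i).trans subset_union_right) 2
  choose s hs hs0 hle using cyc_Y hn F
  have hNZ : NZ F.Z (Z0 n) := ⟨F.hZ.cont.continuousOn, fun x hx => (F.mem_Z0 hn x).1 hx⟩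
  have hY : (⋃ i, Z0 n ∩ N2 n i) ⊆ Z0 n := iUnion_subset fun _ => inter_subset_left
  have h4 : rd (cyc ℚ (⋃ i, Z0 n ∩ N2 n i) 1) (bdy ℚ (⋃ i, Z0 n ∩ N2 n i) 1) ≤ (3 + 1 : ℕ) := by
    refine le_trans (rd_le_of_span s ?_) (by simp)
    rw [cyc_disj (isOpen_N2 hn) (fun _ => inter_subset_right)
      fun i j hij => (HX_disj hn i j hij).mono_left inter_subset_right]
    refine iSup_le fun i => (hle i).trans (sup_le_sup (Submodule.span_mono ?_) ?_)
    · exact singleton_subset_iff.2 (mem_range_self i)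
    · exact bdy_mono (subset_iUnion (fun i => Z0 n ∩ N2 n i) i) 1
  have h2 := rd_ker_le (Z' := cyc ℚ (⋃ i, Z0 n ∩ N2 n i) 1 ⊓ bdy ℚ (Z0 n) 1 ⊓
      bdy ℚ (⋃ i, N2 n i) 1) h4 (ev ℚ (wd F.Z))
    (fun x hx => ev_wd_bdy hNZ (bdy_mono hY 1 hx)) (inf_le_left.trans inf_le_left)
    (fun x hx => ev_wd_bdy hNZ hx.1.2)
    (cyc_mono (subset_iUnion (fun i => Z0 n ∩ N2 n i) 0) 1 (hs 0)) (hs0 0)
  refine h.trans ((add_le_add h1 h2).trans ?_)
  norm_num

theorem hb_univ (hn : Odd n) (F : Fns n) : hb (univ : Set (XX n)) 2 ≤ (22 : ℕ) := by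
  have hE : ∀ j : I4 × I4, IsOpen (Ec n j.1 j.2) := fun j => isOpen_Ec hn j.1 j.2
  have h := mv_crude (O := univ) (isOpen_Xp hn) (isOpen_iUnion hE) cover_Xp 1
  rw [univ_inter, univ_inter, inter_iUnion] at h
  have h1 : hb (⋃ j : I4 × I4, Ec n j.1 j.2) 2 ≤ (16 : ℕ) := by
    refine (hb_disj hE (fun _ => subset_rfl) (fun i j hij => disj_Ec hn hij) 2).trans ?_
    refine (Finset.sum_le_sum fun j _ => hb_Ec hn j.1 j.2).trans ?_
    simp
  have h2 : hb (⋃ j : I4 × I4, Xp n ∩ Ec n j.1 j.2) 1 ≤ 0 := by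
    refine (hb_disj hE (fun _ => inter_subset_right)
      (fun i j hij => (disj_Ec hn hij).mono_left inter_subset_right) 1).trans ?_
    simp [hb_Xp_Ec hn]
  refine h.trans ((add_le_add (add_le_add (hb_Xp hn F) h1) h2).trans ?_)
  norm_num

end HK3
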