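import Pool.Agent.P.MP_9699e0_gt.Lb2

/-! Bundles glued from two pieces. -/

set_option autoImplicit false
set_option linter.unusedSectionVars false

noncomputable section

namespace HK3

open Pool.Agent.P.MP_9699e0_gt Set Filter Topology
open scoped ContDiff

variable {X : Type} [TopologicalSpace X]

variable (L : Et X) (h : HD X)

theorem Half_disc {A D Y : Type} [TopologicalSpace A] [TopologicalSpace D] [DiscreteTopology D]
    [TopologicalSpace Y] {β : A → D} (hβ : Continuous β) (F : D → A → Y) {S : Set A}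
    (hF : ∀ d, ContinuousOn (F d) {x | x ∈ S ∧ β x = d}) : ContinuousOn (fun x => F (β x) x) S := by
  intro x hx
  have hn : {y | β y = β x} ∈ 𝓝 x := (hβ.isOpen_preimage _ (isOpen_discrete {β x})).mem_nhds rfl
  rw [← continuousWithinAt_inter hn]
  exact (hF (β x) x ⟨hx, rfl⟩).congr (fun y hy => by rw [show β y = β x from hy.2]) rfl

theorem Half_one {A Y : Type} [TopologicalSpace A] [TopologicalSpace Y] (f : A × Bool → Y)
    {S : Set (A × Bool)} (hf : ∀ d, ContinuousOn (fun a => f (a, d)) {a | (a, d) ∈ S}) :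
    ContinuousOn f S :=
  Half_disc continuous_snd (fun d p => f (p.1, d)) fun d =>
    (hf d).comp continuous_fst.continuousOn fun p hp => by
      obtain ⟨h1, rfl⟩ := hp
      exact h1

theorem Half_two {A Y : Type} [TopologicalSpace A] [TopologicalSpace Y]
    (f : A × Bool → A × Bool → Y) {S : A × Bool → A × Bool → Prop}
    (hf : ∀ d d', ContinuousOn (fun p : A × A => f (p.1, d) (p.2, d'))
      {p | S (p.1, d) (p.2, d')}) :
    ContinuousOn (fun p : (A × Bool) × (A × Bool) => f p.1 p.2) {p | S p.1 p.2} :=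
  Half_disc (β := fun p : (A × Bool) × (A × Bool) => (p.1.2, p.2.2)) (by fun_prop)
    (fun d p => f (p.1.1, d.1) (p.2.1, d.2)) fun d =>
      (hf d.1 d.2).comp (f := fun p : (A × Bool) × (A × Bool) => (p.1.1, p.2.1))
        (Continuous.continuousOn (by fun_prop)) fun p hp => by
          obtain ⟨h1, rfl⟩ := hp
          exact h1

theorem Half_ne {x : X} (h1 : x ∈ h.O) (h2 : x ∉ h.K) : h.q x ≠ 0 := fun h3 => h2 ⟨h1, h3⟩

theorem Half_q : ContinuousOn (fun a => h.q (L.f a)) (L.dom ∩ L.f ⁻¹' h.O) :=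
  h.cont.comp (L.loc.continuousOn.mono inter_subset_left) fun _ ha => ha.2

theorem Half_R {a b : L.Ω} {d d' : Bool} (r : (L.two h).R (a, d) (b, d')) : L.R a b :=
  ⟨r.1.1, r.2.1.1, r.2.2⟩

theorem Half_tf {a b : L.Ω} (r : (L.two h).R (a, true) (b, false)) :
    L.f a ∈ h.O \ h.K ∧ L.f b ∈ h.O \ h.K := by
  have e : L.f a = L.f b := r.2.2
  have h1 : L.f a ∈ h.O := r.1.2.1 rfl
  have h2 : L.f b ∉ h.K := r.2.1.2.2 rfl
  exact ⟨⟨h1, e ▸ h2⟩, e ▸ h1, h2⟩

theorem Half_ft {a b : L.Ω} (r : (L.two h).R (a, false) (b, true)) :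
    L.f a ∈ h.O \ h.K ∧ L.f b ∈ h.O \ h.K :=
  (Half_tf L h (show (L.two h).R (b, true) (a, false) from ⟨r.2.1, r.1, r.2.2.symm⟩)).symm

/-- A cutoff function. -/
def Half_cut (η r : ℝ) : ℝ := max 0 (min 1 (2 - 2 * r / η))

theorem Half_cut_cont (η : ℝ) : Continuous (Half_cut η) := by
  unfold Half_cut
  fun_prop

theorem Half_cut_one {η r : ℝ} (hη : 0 < η) (hr : r ≤ η / 2) : Half_cut η r = 1 := by
  have : 2 * r / η ≤ 1 := by
    rw [div_le_one hη]
    linarith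
  rw [Half_cut, min_eq_left (by linarith), max_eq_right zero_le_one]

theorem Half_cut_zero {η r : ℝ} (hη : 0 < η) (hr : η ≤ r) : Half_cut η r = 0 := by
  have : 2 ≤ 2 * r / η := by
    rw [le_div_iff₀ hη]
    linarith
  exact max_eq_left ((min_le_right _ _).trans (by linarith))

theorem Half_cut_eq {η : ℝ} (hη : 0 < η) {w z : ℂ} (hw : ‖w‖ < η / 2)
    (e : z = w * Half_cut η ‖z‖) : z = w := by
  have h1 : |Half_cut η ‖z‖| ≤ 1 := by
    rw [abs_of_nonneg (le_max_left _ _)]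
    exact max_le zero_le_one (min_le_left _ _)
  have h2 : ‖z‖ ≤ ‖w‖ := by
    conv_lhs => rw [e]
    rw [norm_mul, Complex.norm_real, Real.norm_eq_abs]
    exact mul_le_of_le_one_right (norm_nonneg _) h1
  rw [Half_cut_one hη (by linarith)] at e
  simpa using e

open Classical in
/-- The section in the trivialisation outside the zero set. -/
def Half_out (w : ℂ) (x : X) : ℂ :=
  if x ∈ h.O then 1 - w * Half_cut h.η ‖h.q x‖ / h.q x else 1

theorem Half_out_mem (w : ℂ) {x : X} (hx : x ∈ h.O) :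
    Half_out h w x = 1 - w * Half_cut h.η ‖h.q x‖ / h.q x := if_pos hx

theorem Half_out_not (w : ℂ) {x : X} (hx : x ∉ h.O) : Half_out h w x = 1 := if_neg hx

theorem Half_in_cont (w : ℂ) :
    ContinuousOn (fun x => w * (Half_cut h.η ‖h.q x‖ : ℂ)) h.O :=
  continuousOn_const.mul
    ((Complex.continuous_ofReal.comp (Half_cut_cont h.η)).comp_continuousOn h.cont.norm)

theorem Half_out_cont (w : ℂ) : ContinuousOn (Half_out h w) h.Kᶜ := by
  intro x hx
  refine ContinuousAt.continuousWithinAt ?_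
  by_cases hO : x ∈ h.O
  · have hn := h.opn.mem_nhds hO
    have h1 : ContinuousAt (fun x => 1 - w * Half_cut h.η ‖h.q x‖ / h.q x) x :=
      continuousAt_const.sub (((Half_in_cont h w).continuousAt hn).div (h.cont.continuousAt hn)
        (Half_ne h hO hx))
    exact h1.congr (Filter.mem_of_superset hn fun y hy => (Half_out_mem h w hy).symm)
  · have hn := h.cls.isOpen_compl.mem_nhds (x := x) fun hx => hO hx.1
    refine (continuousAt_const (y := (1 : ℂ))).congr (Filter.mem_of_superset hn fun y hy => ?_)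
    by_cases hy' : y ∈ h.O
    · have : h.η ≤ ‖h.q y‖ := le_of_not_ge fun h2 => hy ⟨hy', h2⟩
      change 1 = Half_out h w y
      rw [Half_out_mem h w hy', Half_cut_zero h.pos this]
      simp
    · exact (Half_out_not h w hy').symm

namespace Et

theorem coc_G : (L.two h).Coc (L.JG h) := by
  refine ⟨Half_two _ ?_, ?_, ?_⟩
  · rintro (_ | _) (_ | _)
    · exact continuousOn_const
    · exact ((Half_q L h).comp continuous_fst.continuousOn fun p hp =>
        ⟨hp.1.1, (Half_ft L h hp).1.1⟩).inv₀ fun p hp =>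
          Half_ne h (Half_ft L h hp).1.1 (Half_ft L h hp).1.2
    · exact (Half_q L h).comp continuous_fst.continuousOn fun p hp =>
        ⟨hp.1.1, (Half_tf L h hp).1.1⟩
    · exact continuousOn_const
  · rintro ⟨a, _ | _⟩ ⟨b, _ | _⟩ r
    · exact one_ne_zero
    · exact inv_ne_zero (Half_ne h (Half_ft L h r).1.1 (Half_ft L h r).1.2)
    · exact Half_ne h (Half_tf L h r).1.1 (Half_tf L h r).1.2
    · exact one_ne_zero
  · rintro ⟨a, d⟩ ⟨b, d'⟩ ⟨c, d''⟩ r r'
    have e : L.f a = L.f b := r.2.2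
    cases d <;> cases d' <;> cases d''
    · exact one_mul _
    · exact (one_mul _).trans (congrArg (fun x => (h.q x)⁻¹) e.symm)
    · change (h.q (L.f a))⁻¹ * h.q (L.f b) = 1
      rw [← e]
      exact inv_mul_cancel₀ (Half_ne h (Half_ft L h r).1.1 (Half_ft L h r).1.2)
    · exact mul_one _
    · exact mul_one _
    · change h.q (L.f a) * (h.q (L.f b))⁻¹ = 1
      rw [← e]
      exact mul_inv_cancel₀ (Half_ne h (Half_tf L h r).1.1 (Half_tf L h r).1.2)
    · exact (one_mul _).trans (congrArg h.q e.symm)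
    · exact one_mul _

theorem coc_B {J : L.Ω → L.Ω → ℂ} (hJ : L.Coc J) {s : L.Ω → ℂ} (hs : L.Sec J (h.O \ h.K) s)
    (h0 : ∀ a ∈ L.dom, L.f a ∈ h.O \ h.K → s a ≠ 0) : (L.two h).Coc (L.JB J s) := by
  refine ⟨Half_two _ ?_, ?_, ?_⟩
  · rintro (_ | _) (_ | _)
    · exact continuousOn_const
    · exact (hs.cont.comp continuous_snd.continuousOn fun p hp =>
        ⟨hp.2.1.1, (Half_ft L h hp).2⟩).inv₀ fun p hp => h0 _ hp.2.1.1 (Half_ft L h hp).2
    · exact hs.cont.comp continuous_fst.continuousOn fun p hp => ⟨hp.1.1, (Half_tf L h hp).1⟩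
    · exact hJ.cont.mono fun p hp => Half_R L h hp
  · rintro ⟨a, _ | _⟩ ⟨b, _ | _⟩ r
    · exact one_ne_zero
    · exact inv_ne_zero (h0 _ r.2.1.1 (Half_ft L h r).2)
    · exact h0 _ r.1.1 (Half_tf L h r).1
    · exact hJ.ne _ _ (Half_R L h r)
  · rintro ⟨a, d⟩ ⟨b, d'⟩ ⟨c, d''⟩ r r'
    have r1 := Half_R L h r
    have r2 := Half_R L h r'
    cases d <;> cases d' <;> cases d''
    · exact one_mul _
    · exact one_mul _
    · exact inv_mul_cancel₀ (h0 _ r.2.1.1 (Half_ft L h r).2)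
    · change (s b)⁻¹ * J b c = (s c)⁻¹
      have n1 := hJ.ne _ _ r2
      rw [hs.eqv b c r2 (Half_ft L h r).2, mul_inv, mul_comm (J b c)⁻¹, mul_assoc,
        inv_mul_cancel₀ n1, mul_one]
    · exact mul_one _
    · change s a * (s c)⁻¹ = J a c
      have r3 : L.R a c := ⟨r1.1, r2.2.1, r1.2.2.trans r2.2.2⟩
      rw [hs.eqv a c r3 (Half_tf L h r).1,
        mul_inv_cancel_right₀ (h0 _ r2.2.1 (Half_ft L h r').2)]
    · change J a b * s b = s a
      exact (hs.eqv a b r1 (r1.2.2 ▸ (Half_tf L h r').1)).symm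
    · exact hJ.mul _ _ _ r1 r2

theorem sec_G (w : ℂ) (hw : ‖w‖ < h.η / 2) : ∃ s : L.Ω × Bool → ℂ, (L.two h).Sec (L.JG h) univ s ∧
    (∀ a ∈ (L.two h).dom, s a = 0 → L.f a.1 ∈ h.O ∧ h.q (L.f a.1) = w) ∧
    ∀ a : L.Ω, ‖h.q (L.f a)‖ < h.η / 2 → s (a, true) = h.q (L.f a) - w := by
  refine ⟨fun a => if a.2 = true then h.q (L.f a.1) - w * Half_cut h.η ‖h.q (L.f a.1)‖ else
    Half_out h w (L.f a.1), ⟨Half_one _ ?_, ?_⟩, ?_, fun a ha => ?_⟩
  · rintro (_ | _)
    · exact (Half_out_cont h w).comp (L.loc.continuousOn.mono fun a ha => ha.1.1)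
        fun a ha => ha.1.2.2 rfl
    · exact (h.cont.sub (Half_in_cont h w)).comp (L.loc.continuousOn.mono fun a ha => ha.1.1)
        fun a ha => ha.1.2.1 rfl
  · rintro ⟨a, d⟩ ⟨b, d'⟩ r -
    have e : L.f a = L.f b := r.2.2
    cases d <;> cases d'
    · exact (congrArg (Half_out h w) e).trans (one_mul _).symm
    · change Half_out h w (L.f a) =
        (h.q (L.f a))⁻¹ * (h.q (L.f b) - w * Half_cut h.η ‖h.q (L.f b)‖)
      have n := Half_ne h (Half_ft L h r).1.1 (Half_ft L h r).1.2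
      rw [← e, Half_out_mem h w (Half_ft L h r).1.1]
      field_simp
    · change h.q (L.f a) - w * Half_cut h.η ‖h.q (L.f a)‖ = h.q (L.f a) * Half_out h w (L.f b)
      have n := Half_ne h (Half_tf L h r).1.1 (Half_tf L h r).1.2
      rw [← e, Half_out_mem h w (Half_tf L h r).1.1]
      field_simp
    · exact (congrArg (fun x => h.q x - w * Half_cut h.η ‖h.q x‖) e).trans (one_mul _).symm
  · rintro ⟨a, _ | _⟩ ha h0
    · change Half_out h w (L.f a) = 0 at h0
      by_cases hO : L.f a ∈ h.O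
      · have n := Half_ne h hO (ha.2.2 rfl)
        rw [Half_out_mem h w hO, sub_eq_zero, eq_div_iff n, one_mul] at h0
        exact ⟨hO, Half_cut_eq h.pos hw h0⟩
      · rw [Half_out_not h w hO] at h0
        exact absurd h0 one_ne_zero
    · exact ⟨ha.2.1 rfl, Half_cut_eq h.pos hw (sub_eq_zero.1 h0)⟩
  · change h.q (L.f a) - w * Half_cut h.η ‖h.q (L.f a)‖ = _
    rw [Half_cut_one h.pos ha.le, Complex.ofReal_one, mul_one]

theorem sec_B {J : L.Ω → L.Ω → ℂ} {s : L.Ω → ℂ} (hs : L.Sec J h.O s)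
    (h0 : ∀ a ∈ L.dom, L.f a ∈ h.O \ h.K → s a ≠ 0) :
    (L.two h).Sec (L.JB J s) univ fun a : L.Ω × Bool => if a.2 = true then s a.1 else 1 := by
  refine ⟨Half_one _ ?_, ?_⟩
  · rintro (_ | _)
    · exact continuousOn_const
    · exact hs.cont.mono fun a ha => ⟨ha.1.1, ha.1.2.1 rfl⟩
  · rintro ⟨a, _ | _⟩ ⟨b, _ | _⟩ r -
    · exact (one_mul _).symm
    · exact (inv_mul_cancel₀ (h0 _ r.2.1.1 (Half_ft L h r).2)).symm
    · exact (mul_one _).symm
    · exact hs.eqv a b (Half_R L h r) (r.1.2.1 rfl)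

/-- Twice the class of the half bundle. -/
theorem half {J J₁ J₂ : L.Ω → L.Ω → ℂ} (hJ : L.Coc J) (h₁ : L.Coc J₁) (h₂ : L.Coc J₂)
    (e : ∀ a b, L.R a b → J a b ^ 2 * J₁ a b * J₂ a b = 1) {s σ₁ σ₂ : L.Ω → ℂ}
    (hs : L.Sec J (h.O \ h.K) s) (s₁ : L.Sec J₁ univ σ₁) (s₂ : L.Sec J₂ univ σ₂)
    (n₁ : ∀ a ∈ L.dom, L.f a ∉ h.K → σ₁ a ≠ 0) (n₂ : ∀ a ∈ L.dom, L.f a ∈ h.O → σ₂ a ≠ 0)
    (eq : ∀ a ∈ L.dom, L.f a ∈ h.O \ h.K → s a ^ 2 * σ₁ a * σ₂ a = h.q (L.f a))
    {cB c₁ cG : Simp X 2 → ℤ} (rB : (L.two h).Rep (L.JB J s) cB) (r₁ : L.Rep J₁ c₁)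
    (rG : (L.two h).Rep (L.JG h) cG) : Coh cG (cB + cB + c₁) := by
  have h0 : ∀ a ∈ L.dom, L.f a ∈ h.O \ h.K → s a ≠ 0 := fun a ha hx hs0 => by
    have := eq a ha hx
    rw [hs0] at this
    exact Half_ne h hx.1 hx.2 (this.symm.trans (by simp))
  have hB := coc_B L h hJ hs h0
  have hm : MapsTo (Prod.fst : L.Ω × Bool → L.Ω) (L.two h).dom L.dom := fun _ ha => ha.1
  have h₁' := h₁.pull (L' := L.two h) id continuous_fst.continuousOn hm fun _ _ => rfl
  have r₁' : (L.two h).Rep (fun a b => J₁ a.1 b.1) c₁ :=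
    r₁.pull (L' := L.two h) (ContinuousMap.id X) continuous_fst.continuousOn hm fun _ _ => rfl
  refine Rep.coh (coc_G L h) ((hB.mul' hB).mul' h₁')
    (u := fun a : L.Ω × Bool => if a.2 = true then (σ₂ a.1)⁻¹ else σ₁ a.1) ⟨Half_one _ ?_, ?_⟩ ?_ rG
    (Rep.mul (hB.mul' hB) h₁' (Rep.mul hB hB rB rB) r₁')
  · rintro (_ | _)
    · exact s₁.cont.mono fun a ha => ⟨ha.1, mem_univ _⟩
    · exact (s₂.cont.mono fun a ha => ⟨ha.1, mem_univ _⟩).inv₀ fun a ha => n₂ a ha.1 (ha.2.1 rfl)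
  · rintro ⟨a, _ | _⟩ ha
    · exact n₁ a ha.1 (ha.2.2 rfl)
    · exact inv_ne_zero (n₂ a ha.1 (ha.2.1 rfl))
  · rintro ⟨a, d⟩ ⟨b, d'⟩ r
    have r1 := Half_R L h r
    have e1 := s₁.eqv a b r1 (mem_univ _)
    have e2 := s₂.eqv a b r1 (mem_univ _)
    cases d <;> cases d'
    · change 1 * 1 * J₁ a b * σ₁ b = σ₁ a * 1
      rw [e1]
      ring
    · change (s b)⁻¹ * (s b)⁻¹ * J₁ a b * (σ₂ b)⁻¹ = σ₁ a * (h.q (L.f a))⁻¹
      have hb := (Half_ft L h r).2
      have m0 := h0 b r1.2.1 hb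
      have m1 := n₁ b r1.2.1 hb.2
      have m2 := n₂ b r1.2.1 hb.1
      rw [r1.2.2, ← eq b r1.2.1 hb, e1]
      field_simp
    · change s a * s a * J₁ a b * σ₁ b = (σ₂ a)⁻¹ * h.q (L.f a)
      have ha := (Half_tf L h r).1
      have m2 := n₂ a r1.1 ha.1
      rw [← eq a r1.1 ha, e1]
      field_simp
    · change J a b * J a b * J₁ a b * (σ₂ b)⁻¹ = (σ₂ a)⁻¹ * 1
      have m2 := n₂ b r1.2.1 (r.2.1.2.1 rfl)
      have m3 := h₂.ne a b r1
      have e3 := e a b r1
      rw [e2]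
      field_simp
      linear_combination e3

/-- Invariance under a map that multiplies the gluing function by a constant. -/
theorem inv_G (g : C(X, X)) {π : L.Ω → L.Ω} (hπ : ContinuousOn π L.dom)
    (hm : MapsTo π L.dom L.dom) (e : ∀ a ∈ L.dom, L.f (π a) = g (L.f a))
    (hO : ∀ x, g x ∈ h.O ↔ x ∈ h.O) {u : ℂ} (hu : u ≠ 0) (hq : ∀ x ∈ h.O, h.q (g x) = u * h.q x)
    {c : Simp X 2 → ℤ} (hc : (L.two h).Rep (L.JG h) c) : Coh (fun σ => c (g.comp σ)) c := by
  have hπ' : ContinuousOn (fun a : L.Ω × Bool => (π a.1, a.2)) (L.two h).dom :=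
    (hπ.comp continuous_fst.continuousOn fun _ ha => ha.1).prodMk continuous_snd.continuousOn
  have hm' : MapsTo (fun a : L.Ω × Bool => (π a.1, a.2)) (L.two h).dom (L.two h).dom := by
    intro a ha
    refine ⟨hm ha.1, fun hd => ?_, fun hd hk => ha.2.2 hd ?_⟩
    · change L.f (π a.1) ∈ h.O
      rw [e _ ha.1, hO]
      exact ha.2.1 hd
    · change L.f (π a.1) ∈ h.K at hk
      rw [e _ ha.1] at hk
      have h1 := (hO _).1 hk.1
      exact ⟨h1, (mul_eq_zero.1 ((hq _ h1).symm.trans hk.2)).resolve_left hu⟩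
  have e' : ∀ a ∈ (L.two h).dom, (L.two h).f (π a.1, a.2) = g ((L.two h).f a) :=
    fun a ha => e a.1 ha.1
  refine Rep.coh ((coc_G L h).pull (L' := L.two h) g hπ' hm' e') (coc_G L h)
    (u := fun a : L.Ω × Bool => if a.2 = true then 1 else u) ⟨Half_one _ ?_, ?_⟩ ?_
    (hc.pull (L' := L.two h) g hπ' hm' e') hc
  · rintro (_ | _) <;> exact continuousOn_const
  · rintro ⟨a, _ | _⟩ -
    · exact hu
    · exact one_ne_zero
  · rintro ⟨a, d⟩ ⟨b, d'⟩ r
    cases d <;> cases d'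
    · exact mul_comm _ _
    · change (h.q (L.f a))⁻¹ * 1 = u * (h.q (L.f (π a)))⁻¹
      rw [e a r.1.1, hq _ (Half_ft L h r).1.1, mul_inv, mul_inv_cancel_left₀ hu, mul_one]
    · change h.q (L.f a) * u = 1 * h.q (L.f (π a))
      rw [e a r.1.1, hq _ (Half_tf L h r).1.1, one_mul, mul_comm]
    · rfl

end Et

end HK3
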