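import Pool.Agent.P.MP_9699e0_gt.It2
import Pool.Agent.P.MP_9699e0_gt.Lb2
import Pool.Agent.P.MP_9699e0_gt.Fc1

/-! The intersection formula. -/

set_option autoImplicit false
set_option linter.unusedSectionVars false

noncomputable section

namespace HK3

open Pool.Agent.P.MP_9699e0_gt Set Filter Topology
open scoped ContDiff

variable {X : Type} [TopologicalSpace X]

theorem det_swap (D : E →L[ℝ] E) :
    ((ContinuousLinearEquiv.prodComm ℝ ℂ ℂ : E →L[ℝ] E).comp D).det = D.det := by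
  let S : E →ₗ[ℂ] E := (LinearEquiv.prodComm ℂ ℂ ℂ).toLinearMap
  have h1 : S.det * S.det = 1 := by
    rw [← LinearMap.det_comp, show S ∘ₗ S = LinearMap.id from rfl, LinearMap.det_id]
  have h2 : (S.restrictScalars ℝ).det = 1 := by
    rw [LinearMap.det_restrictScalars, Algebra.norm_complex_apply]
    have h3 := congrArg Complex.normSq h1
    rw [map_mul, map_one] at h3
    nlinarith [Complex.normSq_nonneg S.det]
  change LinearMap.det (S.restrictScalars ℝ ∘ₗ (D : E →ₗ[ℝ] E)) = LinearMap.det (D : E →ₗ[ℝ] E)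
  rw [LinearMap.det_comp, h2, one_mul]

theorem It3_cobd {a b : Simp X 2 → ℤ} (ha : cobd a = 0) (hb : cobd b = 0) :
    cobd (cup a b) = 0 := by
  funext σ
  have h1 := congrFun ha (sub σ ![0, 1, 2, 3])
  have h2 := congrFun hb (sub σ ![2, 3, 4, 5])
  have e1 : ∀ i : Fin 4, (![0, 1, 2, 3] : Fin 4 → Fin 6) ∘ i.succAbove =
      ![![1, 2, 3], ![0, 2, 3], ![0, 1, 3], ![0, 1, 2]] i := by decide
  have e2 : ∀ i : Fin 4, (![2, 3, 4, 5] : Fin 4 → Fin 6) ∘ i.succAbove =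
      ![![3, 4, 5], ![2, 4, 5], ![2, 3, 5], ![2, 3, 4]] i := by decide
  have e3 : ∀ i : Fin 6, i.succAbove ∘ (![0, 1, 2] : Fin 3 → Fin 5) =
      ![![1, 2, 3], ![0, 2, 3], ![0, 1, 3], ![0, 1, 2], ![0, 1, 2], ![0, 1, 2]] i := by decide
  have e4 : ∀ i : Fin 6, i.succAbove ∘ (![2, 3, 4] : Fin 3 → Fin 5) =
      ![![3, 4, 5], ![3, 4, 5], ![3, 4, 5], ![2, 4, 5], ![2, 3, 5], ![2, 3, 4]] i := by decide
  simp only [cobd, cup, sub_sub, e1, e2, e3, e4, Pi.zero_apply] at h1 h2 ⊢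
  simp only [Fin.sum_univ_succ, Matrix.cons_val_zero, Matrix.cons_val_succ, Fin.val_succ,
    Fin.val_zero, Fin.sum_univ_zero, smul_eq_mul] at h1 h2 ⊢
  linear_combination b (sub σ ![3, 4, 5]) * h1 + a (sub σ ![0, 1, 2]) * h2

/-- The cocycle `c` is adapted to the section `s`. -/
def It3Ad (L : Et X) (s : L.Ω → ℂ) (c : Simp X 2 → ℤ) : Prop := ∃ w : Simp L.Ω 1 → ℝ,
  (∀ σ : Simp L.Ω 2, range σ ⊆ L.dom → ((c (smap L.f σ) : ℤ) : ℝ) = cobd w σ) ∧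
    ∀ γ : Simp L.Ω 1, range γ ⊆ L.dom → (∀ t, s (γ t) ≠ 0) → w γ = wd s γ

/-- The set where the section does not vanish. -/
def It3U (L : Et X) (s : L.Ω → ℂ) : Set X := L.f '' (L.dom ∩ s ⁻¹' {0}ᶜ)

section
variable {L : Et X} {J : L.Ω → L.Ω → ℂ} {s : L.Ω → ℂ} {c : Simp X 2 → ℤ}

theorem It3_cont (hs : L.Sec J univ s) : ContinuousOn s L.dom := by
  simpa using hs.cont

theorem It3_open (hs : L.Sec J univ s) : IsOpen (It3U L s) :=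
  isOpen_image_of_loc L.loc ((It3_cont hs).isOpen_inter_preimage L.opn isOpen_compl_singleton)
    inter_subset_left

theorem It3_ne (hJ : L.Coc J) (hs : L.Sec J univ s) {u : L.Ω} (hu : u ∈ L.dom)
    (h : L.f u ∈ It3U L s) : s u ≠ 0 := by
  obtain ⟨v, ⟨hv, hv0⟩, e⟩ := h
  have hR : L.R u v := ⟨hu, hv, e.symm⟩
  rw [hs.eqv u v hR trivial]
  exact mul_ne_zero (hJ.ne u v hR) hv0

theorem It3_ad (hJ : L.Coc J) (hs : L.Sec J univ s) (hc : L.Rep J c) :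
    ∃ c0, cobd c0 = 0 ∧ Coh c c0 ∧ It3Ad L s c0 := by
  obtain ⟨c0, w, e, h1, h2, h3⟩ := L.exists_rep_sec hJ hs
  exact ⟨c0, h1, Et.Rep.coh hJ hJ (u := fun _ => 1) ⟨continuousOn_const, fun _ _ => one_ne_zero⟩
    (fun a b _ => by rw [mul_one, one_mul]) hc ⟨h1, w, e, h2⟩, w, h2.val, h3⟩

theorem It3_van (hJ : L.Coc J) (hs : L.Sec J univ s) (hc : It3Ad L s c) {τ : Simp X 4}
    (h : ∃ σ' : Simp L.Ω 4, range σ' ⊆ L.dom ∧ smap L.f σ' = τ) (hU : range τ ⊆ It3U L s)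
    (v : Fin 3 → Fin 5) : c (sub τ v) = 0 := by
  obtain ⟨w, h1, h2⟩ := hc
  obtain ⟨σ, hσ, rfl⟩ := h
  have hD : range (sub σ v) ⊆ L.dom ∩ s ⁻¹' {0}ᶜ := (range_sub σ v).trans <| by
    rintro _ ⟨t, rfl⟩
    refine ⟨hσ ⟨t, rfl⟩, It3_ne hJ hs (hσ ⟨t, rfl⟩) (hU ⟨t, ?_⟩)⟩
    exact smap_apply L.loc.continuousOn hσ t
  have h3 := h1 (sub σ v) ((range_sub σ v).trans hσ)
  rw [cobd_congr (b := wd s) (fun γ hγ => h2 γ (hγ.trans inter_subset_left)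
    fun t => (hγ ⟨t, rfl⟩).2) hD, cobd_wd ⟨(It3_cont hs).mono inter_subset_left,
      fun x hx => hx.2⟩ hD, smap_sub L.loc.continuousOn hσ] at h3
  exact_mod_cast h3

theorem It3_side (hc : It3Ad L s c) {B : Set X} {m : X → L.Ω} (hm : ContinuousOn m B)
    (hd : MapsTo m B L.dom) (e : ∀ x ∈ B, L.f (m x) = x) : ∃ w : Simp X 1 → ℝ,
      (∀ σ : Simp X 2, range σ ⊆ B → (c σ : ℝ) = cobd w σ) ∧
      ∀ γ : Simp X 1, range γ ⊆ B ∩ {x | s (m x) ≠ 0} → w γ = wd (fun x => s (m x)) γ := by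
  obtain ⟨w, h1, h2⟩ := hc
  have hr : ∀ {n : ℕ} {σ : Simp X n}, range σ ⊆ B → range (smap m σ) ⊆ L.dom := fun h => by
    rintro _ ⟨t, rfl⟩
    rw [smap_apply hm h]
    exact hd (h ⟨t, rfl⟩)
  refine ⟨fun γ => w (smap m γ), fun σ hσ => ?_, fun γ hγ => ?_⟩
  · rw [cobd_smap w hm hσ, ← h1 _ (hr hσ)]
    congr 2
    ext t
    rw [smap_apply L.loc.continuousOn (hr hσ), smap_apply hm hσ, e _ (hσ ⟨t, rfl⟩)]
  · have hB := hγ.trans inter_subset_left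
    refine (h2 _ (hr hB) fun t => ?_).trans (wd_smap s hm hB)
    rw [smap_apply hm hB]
    exact (hγ ⟨t, rfl⟩).2

theorem It3_zero {a : Simp X 4 → ℤ} {P : ∀ n, Simp X n → Prop} {U : Set X} {r : Chn ℤ X 4}
    (hr : r ∈ sml ℤ P 4 ⊓ chn ℤ U 4) (h : ∀ τ, P 4 τ → range τ ⊆ U → a τ = 0) : ev ℤ a r = 0 := by
  rw [ev, Finsupp.linearCombination_apply]
  exact Finset.sum_eq_zero fun τ hτ => smul_eq_zero_of_right _ (h τ (hr.1 hτ) (hr.2 hτ))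

theorem It3_small (L : Et X) (U : Set X) :
    Small (fun n σ => ∃ σ' : Simp L.Ω n, range σ' ⊆ L.dom ∧ smap L.f σ' = σ) U :=
  ⟨L.small_lift.comp, fun x _ => (L.small_lift.loc x trivial).imp fun _ h =>
    ⟨nhdsWithin_mono _ (subset_univ _) h.1, h.2⟩⟩

end

section
variable [T2Space X] (A : OAt X) {z : Chn ℤ X 4} {L L' : Et X} {J : L.Ω → L.Ω → ℂ}
  {J' : L'.Ω → L'.Ω → ℂ} {s : L.Ω → ℂ} {s' : L'.Ω → ℂ} {c c' : Simp X 2 → ℤ}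

/-- A transverse common zero. -/
def It3Tr (L L' : Et X) (s : L.Ω → ℂ) (s' : L'.Ω → ℂ) (k : A.κ) (a : E) (ε : ℤ) : Prop :=
  a ∈ A.W k ∧ ∃ (l : E → L.Ω) (l' : E → L'.Ω) (D : E →L[ℝ] E),
    (∀ᶠ ξ in 𝓝 a, ContinuousAt l ξ ∧ ContinuousAt l' ξ ∧ l ξ ∈ L.dom ∧ l' ξ ∈ L'.dom ∧
      L.f (l ξ) = A.f k ξ ∧ L'.f (l' ξ) = A.f k ξ) ∧ s (l a) = 0 ∧ s' (l' a) = 0 ∧
    HasFDerivAt (fun ξ => (s (l ξ), s' (l' ξ))) D a ∧ (ε = 1 ∧ 0 < D.det ∨ ε = -1 ∧ D.det < 0)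

theorem It3_loc (hz : A.Fund z) (hJ : L.Coc J) (hJ' : L'.Coc J') (hs : L.Sec J univ s)
    (hs' : L'.Sec J' univ s') (hc : It3Ad L s c) (hc' : It3Ad L' s' c') {k : A.κ} {a : E} {ε : ℤ}
    (hl : It3Tr A L L' s s' k a ε) {O : Set X} (hO : IsOpen O) (ha : A.f k a ∈ O) :
    ∃ B, IsOpen B ∧ B ⊆ O ∧ A.f k a ∈ B ∧ It3U L s ⊆ {A.f k a}ᶜ ∧ It3U L' s' ⊆ {A.f k a}ᶜ ∧
      ∀ ζ ∈ chn ℤ B 4, bd ℤ X 3 ζ ∈ chn ℤ (B ∩ It3U L s) 3 ⊔ chn ℤ (B ∩ It3U L' s') 3 →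
        z - ζ ∈ bdy ℤ univ 4 ⊔ chn ℤ {A.f k a}ᶜ 4 → ev ℤ (cup c c') ζ = ε := by
  obtain ⟨haW, l, l', D, h1, h2, h2', h3, h4⟩ := hl
  have hd : D.det ≠ 0 := h4.elim (fun h => h.2.ne') fun h => h.2.ne
  have hF0 : (s (l a), s' (l' a)) = 0 := Prod.ext h2 h2'
  obtain ⟨W, hW, haW', hWs, hWi⟩ := exists_injOn_of_loc (A.opn k) (A.loc k) haW
  have h5 : ∀ᶠ ξ in 𝓝 a, A.f k ξ ∈ O :=
    ((A.loc k).continuousOn.continuousAt ((A.opn k).mem_nhds haW)) (hO.mem_nhds ha)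
  obtain ⟨V, hV, hVo, haV⟩ := eventually_nhds_iff.1
    ((h1.and (isolated_zero hF0 h3 hd)).and (h5.and (hW.mem_nhds haW')))
  have hVW : V ⊆ W := fun x hx => (hV x hx).2.2
  have hVi := hWi.mono hVW
  have hE := emb_of_loc hVo ((A.loc k).mono (hVW.trans hWs)) hVi
  obtain ⟨hf, g, hg, hgl⟩ := id hE
  have hgV : MapsTo g (A.f k '' V) V := by
    rintro _ ⟨x, hx, rfl⟩
    rwa [hgl hx]
  have hlc : ContinuousOn l V := fun x hx => (hV x hx).1.1.1.continuousWithinAt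
  have hlc' : ContinuousOn l' V := fun x hx => (hV x hx).1.1.2.1.continuousWithinAt
  have hG : ContinuousOn (fun ξ => (s (l ξ), s' (l' ξ))) V :=
    ((It3_cont hs).comp hlc fun x hx => (hV x hx).1.1.2.2.1).prodMk
      ((It3_cont hs').comp hlc' fun x hx => (hV x hx).1.1.2.2.2.1)
  have e : ∀ x ∈ A.f k '' V, L.f (l (g x)) = x := by
    rintro _ ⟨x, hx, rfl⟩
    rw [hgl hx, (hV x hx).1.1.2.2.2.2.1]
  have e' : ∀ x ∈ A.f k '' V, L'.f (l' (g x)) = x := by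
    rintro _ ⟨x, hx, rfl⟩
    rw [hgl hx, (hV x hx).1.1.2.2.2.2.2]
  have hm : MapsTo (fun x => l (g x)) (A.f k '' V) L.dom := fun x hx => (hV _ (hgV hx)).1.1.2.2.1
  have hm' : MapsTo (fun x => l' (g x)) (A.f k '' V) L'.dom := fun x hx =>
    (hV _ (hgV hx)).1.1.2.2.2.1
  have hU : It3U L s ⊆ {A.f k a}ᶜ := fun x hx e => It3_ne hJ hs (hV a haV).1.1.2.2.1
    (by rw [(hV a haV).1.1.2.2.2.2.1, ← show x = _ from e]; exact hx) h2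
  have hU' : It3U L' s' ⊆ {A.f k a}ᶜ := fun x hx e => It3_ne hJ' hs' (hV a haV).1.1.2.2.2.1
    (by rw [(hV a haV).1.1.2.2.2.2.2, ← show x = _ from e]; exact hx) h2'
  refine ⟨A.f k '' V, isOpen_image_of_loc (A.loc k) hVo (hVW.trans hWs), ?_, ⟨a, haV, rfl⟩, hU, hU',
    fun ζ hζ hb hzζ => ?_⟩
  · rintro _ ⟨x, hx, rfl⟩
    exact (hV x hx).2.1
  obtain ⟨w, hw1, hw2⟩ := It3_side hc (hlc.comp hg hgV) hm e
  obtain ⟨w', hw1', hw2'⟩ := It3_side hc' (hlc'.comp hg hgV) hm' e'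
  have i1 : A.f k '' V ∩ It3U L s ⊆ A.f k '' V ∩ {x | s (l (g x)) ≠ 0} := fun x hx =>
    ⟨hx.1, It3_ne hJ hs (hm hx.1) ((e x hx.1).symm ▸ hx.2)⟩
  have i2 : A.f k '' V ∩ It3U L' s' ⊆ A.f k '' V ∩ {x | s' (l' (g x)) ≠ 0} := fun x hx =>
    ⟨hx.1, It3_ne hJ' hs' (hm' hx.1) ((e' x hx.1).symm ▸ hx.2)⟩
  rw [cup_local (F := fun x => (s (l (g x)), s' (l' (g x)))) (hG.comp hg hgV) c c' w w' hw1 hw1'
    hw2 hw2' hζ ((sup_le_sup (chn_mono (R := ℤ) i1 3) (chn_mono i2 3) :) hb)]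
  obtain ⟨ξ, hξ, rfl⟩ := hE.exists_chn hζ
  have hbξ : bd ℤ E 3 ξ ∈ chn ℤ {a}ᶜ 3 := hE.mem_chn (bd_mem hξ) (T' := {A.f k a}ᶜ)
    (fun x _ h e => h (congrArg (A.f k) e)) (cmap_bd hf hξ ▸ (sup_le (chn_mono (R := ℤ)
      (inter_subset_right.trans hU) 3) (chn_mono (inter_subset_right.trans hU') 3) :) hb)
  have h6 := hz.2 _ k a haW rfl V hVo haV (hVW.trans hWs) hVi ξ hξ hbξ hzζ
  have h7 : ∀ x ∈ V, (s (l x), s' (l' x)) = 0 ↔ x = a := fun x hx =>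
    ⟨(hV x hx).1.2, fun e => e ▸ hF0⟩
  rw [cmap_comp hf hξ, cmap_congr (g := fun ξ => (s (l ξ), s' (l' ξ)))
    (fun x hx => by simp only [Function.comp, hgl hx]) hξ]
  rcases h4 with ⟨rfl, h4⟩ | ⟨rfl, h4⟩
  · rw [om_deriv_pos hVo haV hG h7 h3 h4 hξ hbξ, h6]
  · rw [om_deriv_neg hVo haV hG h7 h3 h4 hξ hbξ, h6]

theorem It3_half (hz : A.Fund z) (hJ : L.Coc J) (hJ' : L'.Coc J') (hs : L.Sec J univ s)
    (hs' : L'.Sec J' univ s') {ι : Type} (T : Finset ι) (k : ι → A.κ) (a : ι → E) (ε : ι → ℤ)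
    (hi : InjOn (fun j => A.f (k j) (a j)) T)
    (h0 : ∀ u ∈ L.dom, ∀ u' ∈ L'.dom, L.f u = L'.f u' → s u = 0 → s' u' = 0 →
      ∃ j ∈ T, L.f u = A.f (k j) (a j))
    (hl : ∀ j ∈ T, It3Tr A L L' s s' (k j) (a j) (ε j)) (hc : L.Rep J c) (hc' : L'.Rep J' c') :
    ev ℤ (cup c c') z = ∑ j ∈ T, ε j := by
  classical
  obtain ⟨c0, h1, h2, h3⟩ := It3_ad hJ hs hc
  obtain ⟨c0', h1', h2', h3'⟩ := It3_ad hJ' hs' hc'
  rw [ev_cup_coh hz.1 hc.1 h1' h2 h2']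
  obtain ⟨O, hO, hOd⟩ := (T.finite_toSet.image fun j => A.f (k j) (a j)).t2_separation
  choose! B hB hBO hp hU hU' hv using fun j (hj : j ∈ T) =>
    It3_loc A hz hJ hJ' hs hs' h3 h3' (hl j hj) (hO _).2 (hO _).1
  have hd : ∀ i ∈ T, ∀ j ∈ T, i ≠ j → Disjoint (B i) (B j) := fun i hi' j hj hij =>
    (hOd ⟨i, hi', rfl⟩ ⟨j, hj, rfl⟩ fun e => hij (hi hi' hj e)).mono (hBO i hi') (hBO j hj)
  obtain ⟨ζ, r, r', h4, h5, h5', h6⟩ := split_cycle T (fun j => interior (B j))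
    (fun _ => isOpen_interior) (fun i hi j hj hij => (hd i hi j hj hij).mono interior_subset
      interior_subset) (It3_open hs) (It3_open hs') (It3_small L _) (It3_small L' _) (fun x => by
      obtain ⟨u, hu, rfl⟩ := L.surj x
      obtain ⟨u', hu', e⟩ := L'.surj (L.f u)
      by_cases h : s u = 0
      · by_cases h' : s' u' = 0
        · obtain ⟨j, hj, e'⟩ := h0 u hu u' hu' e.symm h h'
          exact Or.inr (Or.inr ⟨j, hj, by rw [(hB j hj).interior_eq, e']; exact hp j hj⟩)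
        · exact Or.inr (Or.inl ⟨u', ⟨hu', h'⟩, e⟩)
      · exact Or.inl ⟨u, ⟨hu, h⟩, rfl⟩) hz.1
  replace h4 := fun j hj => (hB j hj).interior_eq ▸ h4 j hj
  have h7 : ev ℤ (cup c0 c0') (z - (∑ j ∈ T, ζ j + r + r')) = 0 := by
    obtain ⟨d, -, e⟩ := h6
    rw [← e, ev_bd, It3_cobd h1 h1', ev, Finsupp.linearCombination_zero_apply]
  rw [map_sub, map_add, map_add, map_sum, sub_eq_zero,
    It3_zero h5 fun τ h h' => by rw [cup, It3_van hJ hs h3 h h', zero_mul],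
    It3_zero h5' fun τ h h' => by rw [cup, It3_van hJ' hs' h3' h h', mul_zero],
    add_zero, add_zero] at h7
  rw [h7]
  refine Finset.sum_congr rfl fun j hj => hv j hj _ (h4 j hj).1 (h4 j hj).2 ?_
  have e : z - ζ j = z - (∑ j ∈ T, ζ j + r + r') + (∑ i ∈ T.erase j, ζ i + r + r') := by
    rw [← Finset.add_sum_erase T ζ hj]
    abel
  rw [e]
  refine Submodule.add_mem_sup h6 (add_mem (add_mem (Submodule.sum_mem _ fun i hi => ?_)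
    (chn_mono (hU j hj) 4 h5.2)) (chn_mono (hU' j hj) 4 h5'.2))
  obtain ⟨hij, hi⟩ := Finset.mem_erase.1 hi
  exact chn_mono (fun x hx e => disjoint_left.1 (hd i hi j hj hij) hx
    ((show x = _ from e) ▸ hp j hj)) 4 (h4 i hi).1

end

theorem OAt.inter [T2Space X] (A : OAt X) {z : Chn ℤ X 4} (hz : A.Fund z) {L L' : Et X}
    {J : L.Ω → L.Ω → ℂ} {J' : L'.Ω → L'.Ω → ℂ} (hJ : L.Coc J) (hJ' : L'.Coc J') {s : L.Ω → ℂ}
    {s' : L'.Ω → ℂ} (hs : L.Sec J univ s) (hs' : L'.Sec J' univ s') {ι : Type} (T : Finset ι)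
    (k : ι → A.κ) (a : ι → E) (ε : ι → ℤ) (hi : InjOn (fun j => A.f (k j) (a j)) T)
    (h0 : ∀ u ∈ L.dom, ∀ u' ∈ L'.dom, L.f u = L'.f u' → s u = 0 → s' u' = 0 →
      ∃ j ∈ T, L.f u = A.f (k j) (a j))
    (hl : ∀ j ∈ T, a j ∈ A.W (k j) ∧ ∃ (l : E → L.Ω) (l' : E → L'.Ω) (D : E →L[ℝ] E),
      (∀ᶠ ξ in 𝓝 (a j), ContinuousAt l ξ ∧ ContinuousAt l' ξ ∧ l ξ ∈ L.dom ∧ l' ξ ∈ L'.dom ∧
        L.f (l ξ) = A.f (k j) ξ ∧ L'.f (l' ξ) = A.f (k j) ξ) ∧ s (l (a j)) = 0 ∧ s' (l' (a j)) = 0 ∧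
      HasFDerivAt (fun ξ => (s (l ξ), s' (l' ξ))) D (a j) ∧
      (ε j = 1 ∧ 0 < D.det ∨ ε j = -1 ∧ D.det < 0))
    {c c' : Simp X 2 → ℤ} (hc : L.Rep J c) (hc' : L'.Rep J' c') : Meet z c c' (∑ j ∈ T, ε j) := by
  refine ⟨It3_half A hz hJ hJ' hs hs' T k a ε hi h0 hl hc hc',
    It3_half A hz hJ' hJ hs' hs T k a ε hi (fun u hu u' hu' e h h' => ?_) (fun j hj => ?_) hc' hc⟩
  · rw [e]
    exact h0 u' hu' u hu e.symm h' h
  · obtain ⟨h1, l, l', D, h2, h3, h4, h5, h6⟩ := hl j hj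
    refine ⟨h1, l', l, (ContinuousLinearEquiv.prodComm ℝ ℂ ℂ : E →L[ℝ] E).comp D,
      h2.mono fun ξ h => ⟨h.2.1, h.1, h.2.2.2.1, h.2.2.1, h.2.2.2.2.2, h.2.2.2.2.1⟩, h4, h3,
      (ContinuousLinearEquiv.prodComm ℝ ℂ ℂ : E →L[ℝ] E).hasFDerivAt.comp _ h5, ?_⟩
    rwa [det_swap]

theorem OAt.inter_zero [T2Space X] (A : OAt X) {z : Chn ℤ X 4} (hz : A.Fund z) {L L' : Et X}
    {J : L.Ω → L.Ω → ℂ} {J' : L'.Ω → L'.Ω → ℂ} (hJ : L.Coc J) (hJ' : L'.Coc J') {s : L.Ω → ℂ}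
    {s' : L'.Ω → ℂ} (hs : L.Sec J univ s) (hs' : L'.Sec J' univ s')
    (h0 : ∀ u ∈ L.dom, ∀ u' ∈ L'.dom, L.f u = L'.f u' → s u = 0 → s' u' ≠ 0)
    {c c' : Simp X 2 → ℤ} (hc : L.Rep J c) (hc' : L'.Rep J' c') : Meet z c c' 0 := by
  exact A.inter hz hJ hJ' hs hs' (∅ : Finset Empty) Empty.elim Empty.elim Empty.elim
    (fun j => j.elim) (fun u hu u' hu' e h h' => (h0 u hu u' hu' e h h').elim) (fun j => j.elim)
    hc hc'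

end HK3
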