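import Pool.Agent.P.MP_9699e0_gt.MDefs2
import Pool.Agent.P.MP_9699e0_gt.Half
import Pool.Agent.P.MP_9699e0_gt.It3

/-! Vanishing intersection numbers. -/

set_option autoImplicit false
set_option linter.unusedSectionVars false

noncomputable section

namespace HK3

open Pool.Agent.P.MP_9699e0_gt Set Filter Topology
open scoped ContDiff

variable {n : ℕ} {hn : Odd n} {F : Fns n} [T2Space (XX n)] {z : Chn ℤ (XX n) 4}

theorem IntA_Ec {j : I4 × I4} {u : K × E} (hu : u ∈ (md n).dom) (h : σA j u = 0) :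
    (md n).f u ∈ Ec n j.1 j.2 := by
  obtain ⟨k, p⟩ := u
  cases k with
  | o => exact absurd h one_ne_zero
  | n i => exact absurd h one_ne_zero
  | a i c =>
    obtain rfl : (i, c) = j := by_contra fun e => one_ne_zero ((if_neg e).symm.trans h)
    exact Or.inl ⟨p, hu, rfl⟩
  | b i c =>
    obtain rfl : (i, c) = j := by_contra fun e => one_ne_zero ((if_neg e).symm.trans h)
    exact Or.inr ⟨p, hu, rfl⟩

theorem IntA_GG (hz : (oatM hn).Fund z) {b b' : HI} {c c' : Simp (XX n) 2 → ℤ}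
    (hc : F.RG hn b c) (hc' : F.RG hn b' c') {w w' : ℂ} (hw : ‖w‖ < eta b / 2)
    (hw' : ‖w'‖ < eta b' / 2) (h : ∀ x, F.q b x = w → F.q b' x = w' → False) :
    Meet z c c' 0 := by
  obtain ⟨s, hs, h0, -⟩ := (etM hn).sec_G (F.hd b) w hw
  obtain ⟨s', hs', h0', -⟩ := (etM hn).sec_G (F.hd b') w' hw'
  refine (oatM hn).inter_zero hz ((etM hn).coc_G _) ((etM hn).coc_G _) hs hs'
    (fun u hu u' hu' e h1 h2 => h _ (h0 u hu h1).2 ?_) hc hc'
  exact (congrArg (F.q b') e).trans (h0' u' hu' h2).2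

theorem IntA_norm {s : ℝ} (h : s ^ 2 < 1 / 16) :
    ‖((s : ℂ) * (1 + Complex.I)) ^ 2‖ < 1 / 4 / 2 := by
  rw [norm_pow, Complex.sq_norm, map_mul, Complex.normSq_ofReal, Complex.normSq_apply]
  simp only [Complex.add_re, Complex.one_re, Complex.I_re, Complex.add_im, Complex.one_im,
    Complex.I_im]
  linarith

theorem Bun.meet_AA (B : Bun hn F) (hz : (oatM hn).Fund z) {j j' : I4 × I4} (h : j ≠ j')
    {c c' : Simp (XX n) 2 → ℤ} (hc : B.RA j c) (hc' : B.RA j' c') : Meet z c c' 0 :=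
  (oatM hn).inter_zero hz (B.cA j) (B.cA j') (B.sA j) (B.sA j')
    (fun u hu u' hu' e h1 h2 => disjoint_left.1 (disj_Ec hn h) (IntA_Ec hu h1)
      ((show (md n).f u = (md n).f u' from e) ▸ IntA_Ec hu' h2)) hc hc'

theorem Bun.meet_AG (B : Bun hn F) (hz : (oatM hn).Fund z) {j : I4 × I4} {b : HI}
    {c c' : Simp (XX n) 2 → ℤ} (hc : B.RA j c) (hc' : F.RG hn b c') : Meet z c c' 0 := by
  have hp := eta_pos b
  obtain ⟨s, hs, h0, -⟩ := (etM hn).sec_G (F.hd b) ((eta b / 4 : ℝ) : ℂ) (by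
    rw [Complex.norm_real, Real.norm_of_nonneg (by positivity)]
    change eta b / 4 < eta b / 2
    linarith)
  refine (oatM hn).inter_zero hz (B.cA j) ((etM hn).coc_G _) (B.sA j) hs
    (fun u hu u' hu' e h1 h2 => ?_) hc hc'
  have h3 := ((F.on_A hu h1).1 b).symm.trans ((congrArg (F.q b) e).trans (h0 u' hu' h2).2)
  exact (by positivity : eta b / 4 ≠ 0) (Complex.ofReal_eq_zero.1 h3.symm)

theorem Fns.meet_ll (hz : (oatM hn).Fund z) {i i' : I4} {c c' : Simp (XX n) 2 → ℤ}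
    (hc : F.RG hn (.inl i) c) (hc' : F.RG hn (.inl i') c') : Meet z c c' 0 := by
  have hp := eta_pos (.inl i')
  refine IntA_GG hz hc hc' (w := 0) (w' := ((eta (.inl i') / 4 : ℝ) : ℂ))
    (by rw [norm_zero]; exact half_pos (eta_pos _))
    (by rw [Complex.norm_real, Real.norm_of_nonneg (by positivity)]; linarith) fun x h1 h2 => ?_
  exact (by positivity : eta (.inl i') / 4 ≠ 0) (Complex.ofReal_eq_zero.1 (h2.symm.trans h1))

theorem Fns.meet_rr (hz : (oatM hn).Fund z) {p p' : Fin 3 × Bool × Bool}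
    {c c' : Simp (XX n) 2 → ℤ} (hc : F.RG hn (.inr p) c) (hc' : F.RG hn (.inr p') c') :
    Meet z c c' 0 := by
  refine IntA_GG hz hc hc' (IntA_norm (s := 0) (by norm_num)) (IntA_norm (s := 1 / 8) (by norm_num))
    fun x h1 h2 => ?_
  have h3 := (F.C_of_Q (a := p.1) h1).symm.trans (F.C_of_Q (a := p'.1) h2)
  norm_num at h3

end HK3
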