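import Pool.Agent.P.MP_9699e0_gt.Hal
import Pool.Agent.P.MP_9699e0_gt.It3

/-! An exceptional sphere meets the binding sphere once. -/

set_option autoImplicit false
set_option linter.unusedSectionVars false

noncomputable section

namespace HK3

open Pool.Agent.P.MP_9699e0_gt Set Filter Topology
open scoped ContDiff

variable {n : ℕ} {hn : Odd n} {F : Fns n} [T2Space (XX n)] {z : Chn ℤ (XX n) 4}

theorem IntC_zero {i c₀ : I4} {u : K × E} (h : σA (i, c₀) u = 0) (h' : σL n u = 0) :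
    u = (.a i c₀, 0) := by
  obtain ⟨k, p⟩ := u
  cases k with
  | o => exact absurd h one_ne_zero
  | n j => exact absurd h one_ne_zero
  | b j d => exact absurd h' one_ne_zero
  | a j d =>
    change (if (j, d) = (i, c₀) then p.1 else 1) = 0 at h
    split_ifs at h with e
    · obtain ⟨rfl, rfl⟩ := Prod.mk.inj e
      exact Prod.ext rfl (Prod.ext h h')
    · exact absurd h one_ne_zero

theorem Bun.meet_AB (B : Bun hn F) (hz : (oatM hn).Fund z) {i c₀ : I4}
    {c c' : Simp (XX n) 2 → ℤ} (hc : B.RA (i, c₀) c) (hc' : B.RB (.inl i) c') :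
    Meet z c c' 1 := by
  have hs : (etM hn).Sec B.JL (F.hd (.inl i)).O (B.s (.inl i)) := by
    rw [B.sl]
    exact B.sL.mono (subset_univ _)
  have h0 : (0 : E) ∈ W3 := by
    have := ρ_pos
    constructor <;> simp [this.ne', pow_pos this]
  have hA : ∀ ξ : E, σA (i, c₀) (.a i c₀, ξ) = ξ.1 := fun ξ => if_pos rfl
  have hB : ∀ ξ : E, B.s (.inl i) (.a i c₀, ξ) = ξ.2 := fun ξ => by
    rw [B.sl]
    rfl
  refine (oatM hn).inter hz (B.cA (i, c₀)) (B.coc_B (.inl i)) (B.sA (i, c₀))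
    ((etM hn).sec_B (F.hd (.inl i)) hs (B.s_ne (.inl i))) (Finset.univ : Finset Unit)
    (fun _ => K.a i c₀) (fun _ => 0) (fun _ => 1) (fun _ _ _ _ _ => rfl) ?_ ?_ hc hc'
  · rintro u hu ⟨u', _ | _⟩ hu' e h h'
    · exact absurd h' one_ne_zero
    · have h1 : B.s (.inl i) u' = 0 := h'
      rw [B.sl] at h1
      have h2 : σL n u = 0 := by
        rw [B.sL.eqv u u' ⟨hu, hu'.1, e⟩ trivial, h1, mul_zero]
      exact ⟨(), Finset.mem_univ _, by rw [IntC_zero h h2]; rfl⟩
  · refine fun _ _ => ⟨h0, fun ξ => (K.a i c₀, ξ), fun ξ => ((K.a i c₀, ξ), true),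
      ContinuousLinearMap.id ℝ E, ?_, hA 0, hB 0, ?_, Or.inl ⟨rfl, ?_⟩⟩
    · refine Eventually.mono ((md_opn n (.a i c₀)).mem_nhds h0) fun ξ hξ =>
        ⟨(continuous_const.prodMk continuous_id).continuousAt,
          ((continuous_const.prodMk continuous_id).prodMk continuous_const).continuousAt, hξ,
          ⟨hξ, fun _ => ?_, fun h => absurd h (by simp)⟩, rfl, rfl⟩
      exact (F.mem_Nb hn i _).1 (Or.inr (mem_iUnion.2 ⟨c₀, Or.inl ⟨ξ, hξ, rfl⟩⟩))
    · refine (hasFDerivAt_id (0 : E)).congr_of_eventuallyEq (Eventually.of_forall fun ξ => ?_)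
      exact Prod.ext (hA ξ) (hB ξ)
    · have e : (ContinuousLinearMap.id ℝ E).det = 1 := LinearMap.det_id
      rw [e]
      exact one_pos

end HK3
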