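import Pool.Agent.P.MP_9699e0_gt.Lat
import Pool.Agent.P.MP_9699e0_gt.Det

/-! The intersection points of two kinds of fibres. -/

set_option autoImplicit false
set_option linter.unusedSectionVars false

noncomputable section

namespace HK3

open Pool.Agent.P.MP_9699e0_gt Set Filter Topology
open scoped ContDiff

private theorem IntD1_ex {s t : ℝ} (hs : s = 1 ∨ s = -1) (h1 : -1 < t) (h2 : t < 1) :
    ∃ x : ℝ, Real.sin (Real.pi * x) = t ∧ 0 < s * Real.cos (Real.pi * x) := by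
  have hc : 0 < Real.cos (Real.arcsin t) := by
    rw [Real.cos_arcsin]
    exact Real.sqrt_pos.2 (by nlinarith)
  have hs' := Real.sin_arcsin h1.le h2.le
  rcases hs with rfl | rfl
  · refine ⟨Real.arcsin t / Real.pi, ?_⟩
    rw [mul_div_cancel₀ _ Real.pi_ne_zero, one_mul]
    exact ⟨hs', hc⟩
  · refine ⟨1 - Real.arcsin t / Real.pi, ?_⟩
    rw [mul_sub, mul_one, mul_div_cancel₀ _ Real.pi_ne_zero, Real.sin_pi_sub, Real.cos_pi_sub,
      neg_one_mul, neg_neg]
    exact ⟨hs', hc⟩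

private theorem IntD1_uniq {s x y : ℝ} (h : Real.sin (Real.pi * y) = Real.sin (Real.pi * x))
    (hx : 0 < s * Real.cos (Real.pi * x)) (hy : 0 < s * Real.cos (Real.pi * y)) :
    ∃ k : ℤ, y = x + 2 * k := by
  have h1 : Real.cos (Real.pi * y) ^ 2 = Real.cos (Real.pi * x) ^ 2 := by
    rw [Real.cos_sq', Real.cos_sq', h]
  have h2 : Real.cos (Real.pi * y) = Real.cos (Real.pi * x) := by
    rcases sq_eq_sq_iff_eq_or_eq_neg.1 h1 with h2 | h2
    · exact h2
    · rw [h2] at hy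
      linarith
  obtain ⟨k, hk⟩ := Real.Angle.angle_eq_iff_two_pi_dvd_sub.1 (Real.Angle.cos_sin_inj h2 h)
  refine ⟨k, mul_left_cancel₀ Real.pi_ne_zero ?_⟩
  linarith

private theorem IntD1_sb (e : Bool) : (sb e : ℝ) = 1 ∨ (sb e : ℝ) = -1 := by
  cases e <;> simp [sb]

private theorem IntD1_eps (a : Fin 3) (i : I4) : eps a i = 1 ∨ eps a i = -1 := by
  rcases sg_cases ((rep (cl a)).1 * (rep i).1 - (rep (cl a)).2 * ((rep i).1 + (rep i).2)) with
    h | h
  · exact Or.inl h.1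
  · exact Or.inr h.1

private theorem IntD1_mm {a : Fin 3} {i : I4} (hm : mm a i ≠ 0) :
    (mm a i : ℝ) * mm a i = 1 := by
  unfold mm at hm ⊢
  split_ifs at hm ⊢
  · simp
  · simp
  · exact absurd rfl hm

private theorem IntD1_eq (a : Fin 3) (i : I4) (u : ℂ) :
    ζ2 a i (u, 0) = (1 / 8 : ℝ) * (1 + Complex.I) ↔ Real.sin (Real.pi * u.im) = 1 / 8 ∧
      eps a i * Real.sin (Real.pi * (mm a i * u.re)) = 1 / 8 := by
  rw [Complex.ext_iff]
  simp [ζ2]

theorem exists_pt {a : Fin 3} {i : I4} (hm : mm a i ≠ 0) (e d : Bool) : ∃ u : ℂ,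
    ζ2 a i (u, 0) = (1 / 8 : ℝ) * (1 + Complex.I) ∧ 0 < sb e * Real.cos (Real.pi * u.im) ∧
    0 < sb d * (eps a i * Real.cos (Real.pi * (mm a i * u.re))) ∧
    ∀ u' : ℂ, ζ2 a i (u', 0) = (1 / 8 : ℝ) * (1 + Complex.I) →
      0 < sb e * Real.cos (Real.pi * u'.im) →
      0 < sb d * (eps a i * Real.cos (Real.pi * (mm a i * u'.re))) →
      ∃ m, u' = u + 2 * gi m := by
  have hm2 := IntD1_mm hm
  have he := IntD1_eps a i
  have he2 : eps a i * eps a i = 1 := by rcases he with h | h <;> simp [h]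
  obtain ⟨x, hx1, hx2⟩ := IntD1_ex (t := 1 / 8) (IntD1_sb e) (by norm_num) (by norm_num)
  obtain ⟨y, hy1, hy2⟩ := IntD1_ex (s := sb d * eps a i) (t := eps a i / 8)
    (by rcases he with h | h <;> rcases IntD1_sb d with h' | h' <;> simp [h, h'])
    (by rcases he with h | h <;> rw [h] <;> norm_num)
    (by rcases he with h | h <;> rw [h] <;> norm_num)
  have hy : (mm a i : ℝ) * (mm a i * y) = y := by rw [← mul_assoc, hm2, one_mul]
  refine ⟨⟨mm a i * y, x⟩, (IntD1_eq a i _).2 ⟨hx1, ?_⟩, hx2, ?_, fun u' h1 h2 h3 => ?_⟩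
  · simp only
    rw [hy, hy1]
    linear_combination (1 / 8 : ℝ) * he2
  · simp only
    rwa [hy, ← mul_assoc]
  · obtain ⟨h4, h5⟩ := (IntD1_eq a i _).1 h1
    obtain ⟨k, hk⟩ := IntD1_uniq (h4.trans hx1.symm) hx2 h2
    have h6 : Real.sin (Real.pi * (mm a i * u'.re)) = Real.sin (Real.pi * y) := by
      rw [hy1]
      linear_combination eps a i * h5 - Real.sin (Real.pi * (mm a i * u'.re)) * he2
    obtain ⟨l, hl⟩ := IntD1_uniq h6 hy2 (by rwa [mul_assoc])
    refine ⟨(mm a i * l, k), Complex.ext ?_ ?_⟩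
    · simp only [gi, Complex.add_re, Complex.mul_re, Complex.re_ofNat, Complex.im_ofNat]
      push_cast
      linear_combination (mm a i : ℝ) * hl - u'.re * hm2
    · simp only [gi, Complex.add_im, Complex.mul_im, Complex.re_ofNat, Complex.im_ofNat]
      linear_combination hk

theorem no_pt {a : Fin 3} {i : I4} (hm : mm a i = 0) (α : E) :
    ζ2 a i α ^ 2 ≠ (((1 / 8 : ℝ) : ℂ) * (1 + Complex.I)) ^ 2 := by
  intro h
  have h1 := congrArg Complex.im h
  simp [ζ2, hm, sq] at h1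
  norm_num at h1

theorem det_QZ (a : Fin 3) (i : I4) {α : E} (hζ : ζ2 a i α ≠ 0) (hz : α.2 ≠ 0) (w w' : ℂ) :
    ∃ D : E →L[ℝ] E, HasFDerivAt (fun ξ : E => (ζ2 a i ξ ^ 2 - w, ξ.2 ^ 2 - w')) D α ∧
      ∃ r : ℝ, 0 < r ∧ D.det = -r * (mm a i * Real.cos (Real.pi * α.1.im) *
        (eps a i * Real.cos (Real.pi * (mm a i * α.1.re)))) := by
  have hA : HasFDerivAt (fun ξ : E => ξ.1.im) _ α :=
    (Complex.imCLM.comp (ContinuousLinearMap.fst ℝ ℂ ℂ)).hasFDerivAt
  have hB : HasFDerivAt (fun ξ : E => ξ.1.re) _ α :=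
    (Complex.reCLM.comp (ContinuousLinearMap.fst ℝ ℂ ℂ)).hasFDerivAt
  have h1 := (hA.const_mul Real.pi).sin
  have h2 := (((hB.const_mul (mm a i : ℝ)).const_mul Real.pi).sin).const_mul (eps a i)
  have h3 : HasFDerivAt (ζ2 a i) _ α :=
    (Complex.equivRealProdCLM.symm : ℝ × ℝ →L[ℝ] ℂ).hasFDerivAt.comp α (h1.prodMk h2)
  have h4 : HasFDerivAt (fun ξ : E => ξ.2) _ α := (ContinuousLinearMap.snd ℝ ℂ ℂ).hasFDerivAt
  refine ⟨_, ((h3.pow 2).sub_const w).prodMk ((h4.pow 2).sub_const w'),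
    16 * Real.pi ^ 2 * Complex.normSq (ζ2 a i α) * Complex.normSq α.2, ?_, ?_⟩
  · have := Complex.normSq_pos.2 hζ
    have := Complex.normSq_pos.2 hz
    have := Real.pi_pos
    positivity
  · rw [det_tri _ (fun u => by simp)]
    simp [Complex.normSq_apply]
    ring

end HK3
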