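import Pool.Agent.P.MP_9699e0_gt.MDefs2
import Pool.Agent.P.MP_9699e0_gt.Half
import Pool.Agent.P.MP_9699e0_gt.It3
import Pool.Agent.P.MP_9699e0_gt.IntD1
import Pool.Agent.P.MP_9699e0_gt.FnA

/-! Intersection numbers of the two kinds of fibres. -/

set_option autoImplicit false
set_option linter.unusedSectionVars false

noncomputable section

namespace HK3

open Pool.Agent.P.MP_9699e0_gt Set Filter Topology
open scoped ContDiff

variable {n : ℕ} {hn : Odd n} {F : Fns n} [T2Space (XX n)] {z : Chn ℤ (XX n) 4}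

/-- The second coordinate of the intersection points. -/
def IntD2_r : ℂ := ((ρ / 4 : ℝ) : ℂ)

/-- The value of the odd function at the first intersection point. -/
def IntD2_s : ℂ := ((1 / 8 : ℝ) : ℂ) * (1 + Complex.I)

theorem IntD2_norm_r : ‖IntD2_r‖ = ρ / 4 := by
  rw [IntD2_r, Complex.norm_real, Real.norm_eq_abs, abs_of_pos (by linarith [ρ_pos])]

theorem IntD2_r_ne : IntD2_r ≠ 0 := by
  rw [← norm_pos_iff, IntD2_norm_r]
  linarith [ρ_pos]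

theorem IntD2_mem (u : ℂ) : ((u, IntD2_r) : E) ∈ W2 :=
  ⟨by rw [IntD2_norm_r]; linarith [ρ_pos], fun h => (IntD2_r_ne h).elim⟩

theorem IntD2_r_sq : ‖IntD2_r ^ 2‖ < ρ ^ 2 / 4 / 2 := by
  rw [norm_pow, IntD2_norm_r]
  nlinarith [ρ_pos]

theorem IntD2_s_sq : IntD2_s ^ 2 = ((1 / 32 : ℝ) : ℂ) * Complex.I := by
  apply Complex.ext <;> simp [IntD2_s, pow_two] <;> norm_num

theorem IntD2_s_norm : ‖IntD2_s ^ 2‖ < 1 / 4 / 2 := by
  rw [IntD2_s_sq, norm_mul, Complex.norm_I, Complex.norm_real, Real.norm_eq_abs,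
    abs_of_pos (by norm_num)]
  norm_num

theorem IntD2_s_ne : IntD2_s ≠ 0 := by
  intro h
  have h1 := congrArg Complex.re h
  simp [IntD2_s] at h1

theorem IntD2_trn_one (u y : ℂ) : trn 1 0 (u, y) = (-u, -y) := by
  simp [trn, sg_one, gi_zero]

theorem IntD2_neg (a : Fin 3) (i : I4) (u y y' : ℂ) : ζ2 a i (-u, y') = -ζ2 a i (u, y) := by
  have h := ζ2_trn a i 1 0 (u, y)
  rw [IntD2_trn_one, sg_one] at h
  have h1 : ζ2 a i (-u, y') = ζ2 a i (-u, -y) := rfl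
  rw [h1, h]
  simp

theorem IntD2_pt (hn : Odd n) (F : Fns n) {i : I4} {x : XX n} (h : F.R i x < ρ)
    (h' : F.Z x = IntD2_r ^ 2) : ∃ u : ℂ, x = f2 n i (u, IntD2_r) := by
  obtain ⟨ξ, hξ, rfl⟩ : x ∈ Z0 n := (F.mem_Z0 hn x).2 (h' ▸ pow_ne_zero 2 IntD2_r_ne)
  rw [(F.hR i).e0 ξ hξ] at h
  obtain ⟨α, h1, h2⟩ := tube_surj hn hξ h
  have h3 : ((α.1, Complex.exp α.2) : E) ∈ W2 :=
    ⟨by rwa [Complex.norm_exp], fun h => (Complex.exp_ne_zero _ h).elim⟩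
  have h4 : f2 n i (α.1, Complex.exp α.2) = f0 n ξ := (f20 hn h3 hξ).2 ⟨α.2, rfl, h2⟩
  rw [← h4] at h' ⊢
  rw [F.hZ.e2 i _ h3] at h'
  rcases sq_eq_sq_iff_eq_or_eq_neg.1 h' with h5 | h5
  · exact ⟨α.1, by rw [show Complex.exp α.2 = IntD2_r from h5]⟩
  · refine ⟨-α.1, (f22 hn h3 (IntD2_mem _)).2 ⟨rfl, 1, 0, ?_⟩⟩
    rw [IntD2_trn_one, show Complex.exp α.2 = -IntD2_r from h5, neg_neg]

theorem IntD2_near (hn : Odd n) (F : Fns n) (b : HI) {i : I4} {α : E} (h : α ∈ W2)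
    (h1 : f2 n i α ∈ F.O b) (h2 : ‖F.q b (f2 n i α)‖ < eta b / 2) :
    ∀ᶠ ξ in 𝓝 α, ξ ∈ W2 ∧ f2 n i ξ ∈ F.O b ∧ ‖F.q b (f2 n i ξ)‖ < eta b / 2 := by
  have hW : W2 ∈ 𝓝 α := (md_opn n (.n i)).mem_nhds h
  have hc : ContinuousAt (f2 n i) α := (loc2 hn i).continuousOn.continuousAt hW
  have h3 : ∀ᶠ ξ in 𝓝 α, f2 n i ξ ∈ F.O b := hc.eventually ((F.isOpen_O b).mem_nhds h1)
  have h4 : ContinuousAt (fun ξ => ‖F.q b (f2 n i ξ)‖) α :=
    ((F.continuous_q b).continuousAt.comp hc).norm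
  filter_upwards [hW, h3, h4.eventually_lt_const h2] with ξ a1 a2 a3 using ⟨a1, a2, a3⟩

theorem IntD2_sb (e : Bool) : sb e = 1 ∨ sb e = -1 := by
  cases e <;> simp [sb]

theorem IntD2_mm {a : Fin 3} {i : I4} (hm : mm a i ≠ 0) : mm a i = 1 ∨ mm a i = -1 := by
  unfold mm at hm ⊢
  split_ifs at hm ⊢ <;> simp_all

theorem IntD2_sign {m s t : ℤ} {x y r D : ℝ} (hm : m = 1 ∨ m = -1) (hs : s = 1 ∨ s = -1)
    (ht : t = 1 ∨ t = -1) (hx : 0 < s * x) (hy : 0 < t * y) (hr : 0 < r)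
    (hD : D = -r * (m * x * y)) :
    -m * s * t = 1 ∧ 0 < D ∨ -m * s * t = -1 ∧ D < 0 := by
  have h := mul_pos hr (mul_pos hx hy)
  rcases hm with rfl | rfl <;> rcases hs with rfl | rfl <;> rcases ht with rfl | rfl <;>
    push_cast at h hD <;> first
      | exact Or.inl ⟨by norm_num, by rw [hD]; linarith⟩
      | exact Or.inr ⟨by norm_num, by rw [hD]; linarith⟩

theorem Fns.meet_rl (hz : (oatM hn).Fund z) {a : Fin 3} {e d : Bool} {i : I4}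
    {c c' : Simp (XX n) 2 → ℤ} (hc : F.RG hn (.inr (a, e, d)) c) (hc' : F.RG hn (.inl i) c') :
    Meet z c c' (-2 * mm a i * sb e * sb d) := by
  obtain ⟨s, hs, hs0, hs1⟩ :=
    (etM hn).sec_G (F.hd (.inr (a, e, d))) (IntD2_s ^ 2) IntD2_s_norm
  obtain ⟨s', hs', hs0', hs1'⟩ := (etM hn).sec_G (F.hd (.inl i)) (IntD2_r ^ 2) IntD2_r_sq
  have key : ∀ v ∈ ((etM hn).two (F.hd (.inr (a, e, d)))).dom,
      ∀ v' ∈ ((etM hn).two (F.hd (.inl i))).dom,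
      ((etM hn).two (F.hd (.inr (a, e, d)))).f v = ((etM hn).two (F.hd (.inl i))).f v' →
      s v = 0 → s' v' = 0 → ∃ u : ℂ,
        ((etM hn).two (F.hd (.inr (a, e, d)))).f v = f2 n i (u, IntD2_r) ∧
        ζ2 a i (u, 0) ^ 2 = IntD2_s ^ 2 ∧ 0 < sb e * Real.cos (Real.pi * u.im) ∧
        0 < sb d * (eps a i * Real.cos (Real.pi * (mm a i * u.re))) := by
    intro v hv v' hv' h h1 h2
    obtain ⟨h3, h4⟩ := hs0 v hv h1
    obtain ⟨h5, h6⟩ := hs0' v' hv' h2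
    have h7 : (etM hn).f v.1 = (etM hn).f v'.1 := h
    rw [← h7] at h5 h6
    obtain ⟨u, hu⟩ := IntD2_pt hn F (i := i) h5 h6
    refine ⟨u, hu, ?_⟩
    rw [hu] at h3 h4
    have h8 : F.Q a (f2 n i (u, IntD2_r)) = IntD2_s ^ 2 := h4
    have h9 : 0 < sb e * F.C (f2 n i (u, IntD2_r)) ∧ 0 < sb d * F.P a (f2 n i (u, IntD2_r)) := h3
    rw [(F.hQ a).e2 i _ (IntD2_mem u)] at h8
    rw [F.hC.e2 i _ (IntD2_mem u), (F.hP a).e2 i _ (IntD2_mem u)] at h9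
    exact ⟨h8, h9⟩
  by_cases hm : mm a i = 0
  · have h := (oatM hn).inter_zero hz ((etM hn).coc_G _) ((etM hn).coc_G _) hs hs'
      (fun v hv v' hv' h h1 h2 => by
        obtain ⟨u, -, hu, -⟩ := key v hv v' hv' h h1 h2
        exact no_pt hm _ hu) hc hc'
    rw [hm]
    simpa using h
  obtain ⟨u, hu1, hu2, hu3, hu4⟩ := exists_pt hm e d
  have hu1' : ζ2 a i (u, 0) = IntD2_s := hu1
  have loc : ∀ v : ℂ, ζ2 a i (v, 0) ^ 2 = IntD2_s ^ 2 → 0 < sb e * Real.cos (Real.pi * v.im) →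
      0 < sb d * (eps a i * Real.cos (Real.pi * (mm a i * v.re))) →
      ∃ (l : E → ((etM hn).two (F.hd (.inr (a, e, d)))).Ω)
        (l' : E → ((etM hn).two (F.hd (.inl i))).Ω) (D : E →L[ℝ] E),
      (∀ᶠ ξ in 𝓝 ((v, IntD2_r) : E), ContinuousAt l ξ ∧ ContinuousAt l' ξ ∧
        l ξ ∈ ((etM hn).two (F.hd (.inr (a, e, d)))).dom ∧
        l' ξ ∈ ((etM hn).two (F.hd (.inl i))).dom ∧
        ((etM hn).two (F.hd (.inr (a, e, d)))).f (l ξ) = f2 n i ξ ∧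
        ((etM hn).two (F.hd (.inl i))).f (l' ξ) = f2 n i ξ) ∧ s (l (v, IntD2_r)) = 0 ∧
        s' (l' (v, IntD2_r)) = 0 ∧
      HasFDerivAt (fun ξ => (s (l ξ), s' (l' ξ))) D (v, IntD2_r) ∧
      (-mm a i * sb e * sb d = 1 ∧ 0 < D.det ∨ -mm a i * sb e * sb d = -1 ∧ D.det < 0) := by
    intro v h1 h2 h3
    have h1' : ζ2 a i (v, IntD2_r) ^ 2 = IntD2_s ^ 2 := h1
    have hζ : ζ2 a i (v, IntD2_r) ≠ 0 := fun h => by
      rw [h, zero_pow two_ne_zero] at h1'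
      exact pow_ne_zero 2 IntD2_s_ne h1'.symm
    obtain ⟨D, hD, r, hr, hdet⟩ := det_QZ a i hζ IntD2_r_ne (IntD2_s ^ 2) (IntD2_r ^ 2)
    have n1 := IntD2_near hn F (.inr (a, e, d)) (i := i) (IntD2_mem v)
      (show 0 < sb e * F.C (f2 n i (v, IntD2_r)) ∧ 0 < sb d * F.P a (f2 n i (v, IntD2_r)) by
        rw [F.hC.e2 i _ (IntD2_mem v), (F.hP a).e2 i _ (IntD2_mem v)]
        exact ⟨h2, h3⟩)
      (show ‖F.Q a (f2 n i (v, IntD2_r))‖ < 1 / 4 / 2 by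
        rw [(F.hQ a).e2 i _ (IntD2_mem v), h1']
        exact IntD2_s_norm)
    have n2 := IntD2_near hn F (.inl i) (i := i) (IntD2_mem v)
      (show F.R i (f2 n i (v, IntD2_r)) < ρ by
        rw [(F.hR i).e2 i _ (IntD2_mem v), if_pos rfl]
        exact (IntD2_mem v).1)
      (show ‖F.Z (f2 n i (v, IntD2_r))‖ < ρ ^ 2 / 4 / 2 by
        rw [F.hZ.e2 i _ (IntD2_mem v)]
        exact IntD2_r_sq)
    have hl : Continuous fun ξ : E => (((K.n i, ξ), true) : (K × E) × Bool) := by fun_prop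
    have ev : ∀ᶠ ξ in 𝓝 ((v, IntD2_r) : E), (s ((K.n i, ξ), true), s' ((K.n i, ξ), true)) =
        (ζ2 a i ξ ^ 2 - IntD2_s ^ 2, ξ.2 ^ 2 - IntD2_r ^ 2) := by
      filter_upwards [n1, n2] with ξ a1 a2
      have b1 := hs1 (K.n i, ξ) a1.2.2
      have b2 := hs1' (K.n i, ξ) a2.2.2
      have b3 : F.Q a (f2 n i ξ) = ζ2 a i ξ ^ 2 := (F.hQ a).e2 i _ a1.1
      have b4 : F.Z (f2 n i ξ) = ξ.2 ^ 2 := F.hZ.e2 i _ a1.1
      rw [b1, b2, ← b3, ← b4]
      rfl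
    have ev0 := ev.self_of_nhds
    refine ⟨fun ξ => ((K.n i, ξ), true), fun ξ => ((K.n i, ξ), true), D, ?_, ?_, ?_,
      hD.congr_of_eventuallyEq ev,
      IntD2_sign (IntD2_mm hm) (IntD2_sb e) (IntD2_sb d) h2 h3 hr hdet⟩
    · filter_upwards [n1, n2] with ξ a1 a2
      exact ⟨hl.continuousAt, hl.continuousAt, ⟨a1.1, fun _ => a1.2.1, fun h => by simp at h⟩,
        ⟨a1.1, fun _ => a2.2.1, fun h => by simp at h⟩, rfl, rfl⟩
    · exact (congrArg Prod.fst ev0).trans (sub_eq_zero.2 h1')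
    · exact (congrArg Prod.snd ev0).trans (sub_self _)
  have hne : f2 n i (u, IntD2_r) ≠ f2 n i (-u, IntD2_r) := fun h => by
    obtain ⟨-, k, m, h1⟩ := (f22 hn (IntD2_mem u) (IntD2_mem (-u))).1 h
    have h2 : IntD2_r = sg k * IntD2_r := congrArg Prod.snd h1
    have h3 : (sg k : ℂ) = 1 := by
      have := mul_right_cancel₀ IntD2_r_ne ((one_mul _).trans h2)
      exact this.symm
    have h4 := ζ2_trn a i k m (u, IntD2_r)
    rw [← h1, h3, one_mul, IntD2_neg a i u 0, hu1'] at h4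
    have h5 : ζ2 a i (u, IntD2_r) = IntD2_s := hu1'
    rw [h5] at h4
    exact IntD2_s_ne (by linear_combination (-1 / 2 : ℂ) * h4)
  have h := (oatM hn).inter hz ((etM hn).coc_G _) ((etM hn).coc_G _) hs hs'
    (Finset.univ : Finset Bool) (fun _ => K.n i)
    (fun j => ((if j = true then u else -u, IntD2_r) : E)) (fun _ => -mm a i * sb e * sb d)
    (fun j _ j' _ h => by
      cases j <;> cases j'
      · rfl
      · exact (hne (Eq.symm h)).elim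
      · exact (hne h).elim
      · rfl)
    (fun v hv v' hv' h h1 h2 => by
      obtain ⟨w, hw1, hw2, hw3, hw4⟩ := key v hv v' hv' h h1 h2
      rcases sq_eq_sq_iff_eq_or_eq_neg.1 hw2 with h3 | h3
      · obtain ⟨m, hm'⟩ := hu4 w h3 hw3 hw4
        refine ⟨true, Finset.mem_univ _, hw1.trans (Eq.symm ?_)⟩
        refine (f22 hn (IntD2_mem u) (IntD2_mem w)).2 ⟨rfl, 0, m, ?_⟩
        simp [trn, sg_zero, hm']
      · obtain ⟨m, hm'⟩ := hu4 (-w) (by rw [IntD2_neg a i w 0, h3, neg_neg]; rfl)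
          (by simpa using hw3) (by simpa using hw4)
        refine ⟨false, Finset.mem_univ _, hw1.trans ?_⟩
        refine (f22 hn (IntD2_mem w) (IntD2_mem (-u))).2 ⟨rfl, 0, m, ?_⟩
        have h4 : -u = w + 2 * gi m := by linear_combination hm'
        simp [trn, sg_zero, h4])
    (fun j _ => by
      cases j
      · exact ⟨IntD2_mem _, loc (-u) (by rw [IntD2_neg a i u 0, hu1', neg_sq])
          (by simpa using hu2) (by simpa using hu3)⟩
      · exact ⟨IntD2_mem _, loc u (by rw [hu1']) hu2 hu3⟩) hc hc'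
  have e1 : ∑ _j ∈ (Finset.univ : Finset Bool), -mm a i * sb e * sb d =
      -2 * mm a i * sb e * sb d := by
    rw [Finset.sum_const, Finset.card_univ, Fintype.card_bool]
    ring
  rwa [e1] at h

end HK3
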