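import Pool.Agent.P.MP_9699e0_gt.GactB
import Pool.Agent.P.MP_9699e0_gt.DivA
import Pool.Agent.P.MP_9699e0_gt.Half

/-! Invariance of the classes. -/

set_option autoImplicit false
set_option linter.unusedSectionVars false

noncomputable section

namespace HK3

open Pool.Agent.P.MP_9699e0_gt Set Filter Topology
open scoped ContDiff

variable {n : ℕ} {hn : Odd n} {F : Fns n}

/-- The factor by which the rotation changes the local equations. -/
def Inv_u (n : ℕ) (j : I4 × I4) : K → ℂ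
  | .b i c => if (i, c) = j then ex (1 / n) ^ 2 else 1
  | _ => 1

theorem Inv_u_ne (n : ℕ) (j : I4 × I4) (k : K) : Inv_u n j k ≠ 0 := by
  cases k <;> simp only [Inv_u, ne_eq, one_ne_zero, not_false_eq_true]
  split_ifs
  · exact pow_ne_zero _ (ex_ne _)
  · exact one_ne_zero

theorem Inv_σ (n : ℕ) (j : I4 × I4) (a : K × E) : σA j (gk n a) = Inv_u n j a.1 * σA j a := by
  obtain ⟨k, p⟩ := a
  cases k <;> simp only [gk, σA, Inv_u, one_mul]
  split_ifs <;> simp

theorem Bun.inv_A (B : Bun hn F) (g : C(XX n, XX n)) (hg : IsG n g) {j : I4 × I4}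
    {c : Simp (XX n) 2 → ℤ} (hc : B.RA j c) : Coh (fun σ => c (g.comp σ)) c := by
  have hπ : ContinuousOn (gk n) (etM hn).dom := continuous_gk.continuousOn
  have hm : MapsTo (gk n) (etM hn).dom (etM hn).dom := gk_dom
  have e : ∀ a ∈ (etM hn).dom, (etM hn).f (gk n a) = g ((etM hn).f a) := fun a ha =>
    (hg.eq a ha).symm
  have h1 := (B.cA j).pull (L' := etM hn) g hπ hm e
  have h2 := Et.Rep.pull (L' := etM hn) g hπ hm e hc
  have cu : Continuous fun a : K × E => Inv_u n j a.1 :=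
    (continuous_of_discreteTopology (f := Inv_u n j)).comp continuous_fst
  refine (Et.Rep.coh (B.cA j) h1 (u := fun a : K × E => Inv_u n j a.1)
    ⟨cu.continuousOn, fun a _ => Inv_u_ne n j a.1⟩ ?_ hc h2).symm
  refine Et.eq_of_dense (L := etM hn)
    (u := fun a b : K × E => B.JA j (gk n a) (gk n b) * Inv_u n j b.1)
    (v := fun a b : K × E => Inv_u n j a.1 * B.JA j a b)
    (h1.cont.mul (cu.comp continuous_snd).continuousOn)
    ((cu.comp continuous_fst).continuousOn.mul (B.cA j).cont) (fun a ha => dense_ne a ha) ?_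
  intro a b r hb
  have r' : (etM hn).R (gk n a) (gk n b) :=
    ⟨hm r.1, hm r.2.1, by rw [e a r.1, e b r.2.1, r.2.2]⟩
  have h3 := (B.sA j).eqv _ _ r (mem_univ _)
  have h4 := (B.sA j).eqv _ _ r' (mem_univ _)
  rw [Inv_σ, Inv_σ, h3] at h4
  refine mul_right_cancel₀ (hb.2 j) ?_
  linear_combination -h4

theorem Fns.inv_G (F : Fns n) (hn : Odd n) (g : C(XX n, XX n)) (hg : IsG n g) {b : HI}
    {c : Simp (XX n) 2 → ℤ} (hc : F.RG hn b c) : Coh (fun σ => c (g.comp σ)) c := by
  have hπ : ContinuousOn (gk n) (etM hn).dom := continuous_gk.continuousOn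
  have hm : MapsTo (gk n) (etM hn).dom (etM hn).dom := gk_dom
  have e : ∀ a ∈ (etM hn).dom, (etM hn).f (gk n a) = g ((etM hn).f a) := fun a ha =>
    (hg.eq a ha).symm
  rcases b with i | ⟨a, d, d'⟩
  · refine Et.inv_G (etM hn) (F.hd (.inl i)) g hπ hm e (fun x => ?_) (u := ex (1 / n) ^ 2)
      (pow_ne_zero _ (ex_ne _)) (fun x _ => hg.Z_eq F x) hc
    change F.R i (g x) < ρ ↔ F.R i x < ρ
    rw [hg.R_eq]
  · refine Et.inv_G (etM hn) (F.hd (.inr (a, d, d'))) g hπ hm e (fun x => ?_) (u := 1)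
      one_ne_zero (fun x _ => (hg.Q_eq F a x).trans (one_mul _).symm) hc
    change (0 < sb d * F.C (g x) ∧ 0 < sb d' * F.P a (g x)) ↔
      (0 < sb d * F.C x ∧ 0 < sb d' * F.P a x)
    rw [hg.C_eq, hg.P_eq]

end HK3
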