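import Pool.Agent.P.MP_9699e0_gt.PDefs
import Pool.Agent.P.MP_9699e0_gt.Mv
import Pool.Agent.P.MP_9699e0_gt.Cv

/-! Homology of the four times punctured sphere. -/

set_option autoImplicit false
set_option linter.unusedSectionVars false

noncomputable section

namespace HK3

open Pool.Agent.P.MP_9699e0_gt Set Filter Topology
open scoped ContDiff

variable {X : Type} [TopologicalSpace X] {F : ℂ → X}

theorem isPathConnected_Pn : IsPathConnected Pn := by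
  have h : Pn = (range gi)ᶜ := by
    ext x
    simp only [Pn, mem_setOf_eq, mem_compl_iff, mem_range, not_exists]
    exact forall_congr' fun m => ne_comm
  rw [h]
  refine (countable_range gi).isPathConnected_compl_of_one_lt_rank ?_
  rw [Complex.rank_real_complex]
  exact Cardinal.one_lt_two

/-- An open half plane. -/
def Pil2hp (a b c : ℝ) : Set ℂ := {x | a * x.re + b * x.im < c}

theorem Pil2hp_open (a b c : ℝ) : IsOpen (Pil2hp a b c) :=
  isOpen_lt (by fun_prop) continuous_const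

theorem Pil2hp_convex (a b c : ℝ) : Convex ℝ (Pil2hp a b c) := by
  refine convex_halfSpace_lt (f := fun x : ℂ => a * x.re + b * x.im) ⟨?_, ?_⟩ c
  · intro x y
    simp only [Complex.add_re, Complex.add_im]
    ring
  · intro r x
    simp only [Complex.real_smul, Complex.mul_re, Complex.mul_im, Complex.ofReal_re,
      Complex.ofReal_im, smul_eq_mul]
    ring

/-- The big cell. -/
def Pil2D : Set ℂ := Pil2hp (-1) 0 1 ∩ Pil2hp 1 0 1 ∩ Pil2hp 0 (-1) 0 ∩ Pil2hp 0 1 1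

theorem Pil2D_mem {x : ℂ} : x ∈ Pil2D ↔ -1 < x.re ∧ x.re < 1 ∧ 0 < x.im ∧ x.im < 1 := by
  simp only [Pil2D, Pil2hp, mem_inter_iff, mem_setOf_eq]
  constructor
  · rintro ⟨⟨⟨h1, h2⟩, h3⟩, h4⟩
    exact ⟨by linarith, by linarith, by linarith, by linarith⟩
  · rintro ⟨h1, h2, h3, h4⟩
    exact ⟨⟨⟨by linarith, by linarith⟩, by linarith⟩, by linarith⟩

/-- Lower bounds of `re + im` on the diamonds. -/
def Pil2i : Fin 3 → ℤ := ![0, 1, 1]

/-- Lower bounds of `re - im` on the diamonds. -/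
def Pil2j : Fin 3 → ℤ := ![0, 0, -1]

/-- The diamonds. -/
def Pil2e (k : Fin 3) : Set ℂ :=
  Pil2hp (-1) (-1) (-Pil2i k) ∩ Pil2hp 1 1 (Pil2i k + 1) ∩ Pil2hp (-1) 1 (-Pil2j k) ∩
    Pil2hp 1 (-1) (Pil2j k + 1)

theorem Pil2e_mem {k : Fin 3} {x : ℂ} : x ∈ Pil2e k ↔ (Pil2i k : ℝ) < x.re + x.im ∧
    x.re + x.im < Pil2i k + 1 ∧ (Pil2j k : ℝ) < x.re - x.im ∧ x.re - x.im < Pil2j k + 1 := by
  simp only [Pil2e, Pil2hp, mem_inter_iff, mem_setOf_eq]
  constructor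
  · rintro ⟨⟨⟨h1, h2⟩, h3⟩, h4⟩
    exact ⟨by linarith, by linarith, by linarith, by linarith⟩
  · rintro ⟨h1, h2, h3, h4⟩
    exact ⟨⟨⟨by linarith, by linarith⟩, by linarith⟩, by linarith⟩

/-- The two sides of the diagonals. -/
def Pil2s : Fin 3 × Bool → Set ℂ
  | (0, true) => Pil2hp 0 (-1) 0
  | (0, false) => Pil2hp 0 1 0
  | (1, true) => Pil2hp 1 0 1
  | (1, false) => Pil2hp (-1) 0 (-1)
  | (2, true) => Pil2hp 0 1 1
  | (2, false) => Pil2hp 0 (-1) (-1)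

/-- The triangles. -/
def Pil2T (j : Fin 3 × Bool) : Set ℂ := Pil2e j.1 ∩ Pil2s j

theorem Pil2D_open : IsOpen Pil2D :=
  (((Pil2hp_open _ _ _).inter (Pil2hp_open _ _ _)).inter (Pil2hp_open _ _ _)).inter
    (Pil2hp_open _ _ _)

theorem Pil2D_convex : Convex ℝ Pil2D :=
  (((Pil2hp_convex _ _ _).inter (Pil2hp_convex _ _ _)).inter (Pil2hp_convex _ _ _)).inter
    (Pil2hp_convex _ _ _)

theorem Pil2e_open (k : Fin 3) : IsOpen (Pil2e k) :=
  (((Pil2hp_open _ _ _).inter (Pil2hp_open _ _ _)).inter (Pil2hp_open _ _ _)).inter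
    (Pil2hp_open _ _ _)

theorem Pil2e_convex (k : Fin 3) : Convex ℝ (Pil2e k) :=
  (((Pil2hp_convex _ _ _).inter (Pil2hp_convex _ _ _)).inter (Pil2hp_convex _ _ _)).inter
    (Pil2hp_convex _ _ _)

theorem Pil2T_open (j : Fin 3 × Bool) : IsOpen (Pil2T j) := by
  refine (Pil2e_open _).inter ?_
  obtain ⟨k, b⟩ := j
  fin_cases k <;> cases b <;> exact Pil2hp_open _ _ _

theorem Pil2T_convex (j : Fin 3 × Bool) : Convex ℝ (Pil2T j) := by
  refine (Pil2e_convex _).inter ?_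
  obtain ⟨k, b⟩ := j
  fin_cases k <;> cases b <;> exact Pil2hp_convex _ _ _

theorem Pil2T_ne (j : Fin 3 × Bool) : (Pil2T j).Nonempty := by
  obtain ⟨k, b⟩ := j
  fin_cases k <;> cases b
  · exact ⟨⟨1 / 2, -1 / 4⟩, Pil2e_mem.2 (by norm_num [Pil2i, Pil2j]), by
      norm_num [Pil2s, Pil2hp]⟩
  · exact ⟨⟨1 / 2, 1 / 4⟩, Pil2e_mem.2 (by norm_num [Pil2i, Pil2j]), by
      norm_num [Pil2s, Pil2hp]⟩
  · exact ⟨⟨5 / 4, 1 / 2⟩, Pil2e_mem.2 (by norm_num [Pil2i, Pil2j]), by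
      norm_num [Pil2s, Pil2hp]⟩
  · exact ⟨⟨3 / 4, 1 / 2⟩, Pil2e_mem.2 (by norm_num [Pil2i, Pil2j]), by
      norm_num [Pil2s, Pil2hp]⟩
  · exact ⟨⟨1 / 2, 5 / 4⟩, Pil2e_mem.2 (by norm_num [Pil2i, Pil2j]), by
      norm_num [Pil2s, Pil2hp]⟩
  · exact ⟨⟨1 / 2, 3 / 4⟩, Pil2e_mem.2 (by norm_num [Pil2i, Pil2j]), by
      norm_num [Pil2s, Pil2hp]⟩

theorem Pil2D_sub : Pil2D ⊆ Pn := by
  rintro x hx m rfl
  obtain ⟨-, -, h1, h2⟩ := Pil2D_mem.1 hx
  simp only [gi] at h1 h2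
  have a1 : 0 < m.2 := by exact_mod_cast h1
  have a2 : m.2 < 1 := by exact_mod_cast h2
  omega

theorem Pil2e_sub (k : Fin 3) : Pil2e k ⊆ Pn := by
  rintro x hx m rfl
  obtain ⟨h1, h2, -, -⟩ := Pil2e_mem.1 hx
  simp only [gi] at h1 h2
  have a1 : Pil2i k < m.1 + m.2 := by exact_mod_cast h1
  have a2 : m.1 + m.2 < Pil2i k + 1 := by exact_mod_cast h2
  omega

/-- The orbit relation in coordinates. -/
def Pil2R (x y : ℂ) : Prop := ∃ a b : ℤ, (y.re = x.re + 2 * a ∧ y.im = x.im + 2 * b) ∨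
  (y.re = -x.re + 2 * a ∧ y.im = -x.im + 2 * b)

theorem Pil2R_iff (x y : ℂ) :
    (∃ m, y = x + 2 * gi m ∨ y = -x + 2 * gi m) ↔ Pil2R x y := by
  constructor
  · rintro ⟨m, h | h⟩
    · exact ⟨m.1, m.2, Or.inl ⟨by simp [h, gi], by simp [h, gi]⟩⟩
    · exact ⟨m.1, m.2, Or.inr ⟨by simp [h, gi], by simp [h, gi]⟩⟩
  · rintro ⟨a, b, ⟨h1, h2⟩ | ⟨h1, h2⟩⟩
    · exact ⟨(a, b), Or.inl (Complex.ext (by simp [h1, gi]) (by simp [h2, gi]))⟩
    · exact ⟨(a, b), Or.inr (Complex.ext (by simp [h1, gi]) (by simp [h2, gi]))⟩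

theorem Pil2R_D {x y : ℂ} (hx : x ∈ Pil2D) (hy : y ∈ Pil2D) (h : Pil2R x y) : x = y := by
  obtain ⟨x1, x2, x3, x4⟩ := Pil2D_mem.1 hx
  obtain ⟨y1, y2, y3, y4⟩ := Pil2D_mem.1 hy
  obtain ⟨a, b, ⟨h1, h2⟩ | ⟨h1, h2⟩⟩ := h
  · have a1 : (-1 : ℤ) < a := by exact_mod_cast (show (-1 : ℝ) < a by linarith)
    have a2 : a < 1 := by exact_mod_cast (show (a : ℝ) < 1 by linarith)
    have b1 : (-1 : ℤ) < b := by exact_mod_cast (show (-1 : ℝ) < b by linarith)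
    have b2 : b < 1 := by exact_mod_cast (show (b : ℝ) < 1 by linarith)
    obtain rfl : a = 0 := by omega
    obtain rfl : b = 0 := by omega
    exact Complex.ext (by simp [h1]) (by simp [h2])
  · have b1 : (0 : ℤ) < b := by exact_mod_cast (show (0 : ℝ) < b by linarith)
    have b2 : b < 1 := by exact_mod_cast (show (b : ℝ) < 1 by linarith)
    omega

theorem Pil2R_e {k l : Fin 3} {x y : ℂ} (hx : x ∈ Pil2e k) (hy : y ∈ Pil2e l) (h : Pil2R x y) :
    k = l ∧ x = y := by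
  obtain ⟨x1, x2, x3, x4⟩ := Pil2e_mem.1 hx
  obtain ⟨y1, y2, y3, y4⟩ := Pil2e_mem.1 hy
  obtain ⟨a, b, ⟨h1, h2⟩ | ⟨h1, h2⟩⟩ := h
  · have a1 : Pil2i l - Pil2i k - 1 < 2 * (a + b) := by
      exact_mod_cast (show (Pil2i l : ℝ) - Pil2i k - 1 < 2 * (a + b) by linarith)
    have a2 : 2 * (a + b) < Pil2i l - Pil2i k + 1 := by
      exact_mod_cast (show 2 * ((a : ℝ) + b) < Pil2i l - Pil2i k + 1 by linarith)
    have b1 : Pil2j l - Pil2j k - 1 < 2 * (a - b) := by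
      exact_mod_cast (show (Pil2j l : ℝ) - Pil2j k - 1 < 2 * (a - b) by linarith)
    have b2 : 2 * (a - b) < Pil2j l - Pil2j k + 1 := by
      exact_mod_cast (show 2 * ((a : ℝ) - b) < Pil2j l - Pil2j k + 1 by linarith)
    have hkl : k = l := by
      fin_cases k <;> fin_cases l <;> simp [Pil2i, Pil2j] at a1 a2 b1 b2 ⊢ <;> omega
    subst hkl
    obtain rfl : a = 0 := by omega
    obtain rfl : b = 0 := by omega
    exact ⟨rfl, Complex.ext (by simp [h1]) (by simp [h2])⟩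
  · have a1 : Pil2i l + Pil2i k < 2 * (a + b) := by
      exact_mod_cast (show (Pil2i l : ℝ) + Pil2i k < 2 * (a + b) by linarith)
    have a2 : 2 * (a + b) < Pil2i l + Pil2i k + 2 := by
      exact_mod_cast (show 2 * ((a : ℝ) + b) < Pil2i l + Pil2i k + 2 by linarith)
    have b1 : Pil2j l + Pil2j k < 2 * (a - b) := by
      exact_mod_cast (show (Pil2j l : ℝ) + Pil2j k < 2 * (a - b) by linarith)
    have b2 : 2 * (a - b) < Pil2j l + Pil2j k + 2 := by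
      exact_mod_cast (show 2 * ((a : ℝ) - b) < Pil2j l + Pil2j k + 2 by linarith)
    exfalso
    fin_cases k <;> fin_cases l <;> simp [Pil2i, Pil2j] at a1 a2 b1 b2 <;> omega

theorem Pil2_cover {x : ℂ} (hx : x ∈ Pn) :
    (∃ y ∈ Pil2D, Pil2R x y) ∨ ∃ k, ∃ y ∈ Pil2e k, Pil2R x y := by
  obtain ⟨a, a1, a2⟩ : ∃ a : ℤ, -1 ≤ x.re - 2 * a ∧ x.re - 2 * a < 1 :=
    ⟨⌊(x.re + 1) / 2⌋, by linarith [Int.floor_le ((x.re + 1) / 2)],
      by linarith [Int.lt_floor_add_one ((x.re + 1) / 2)]⟩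
  obtain ⟨b, b1, b2⟩ : ∃ b : ℤ, -1 ≤ x.im - 2 * b ∧ x.im - 2 * b < 1 :=
    ⟨⌊(x.im + 1) / 2⌋, by linarith [Int.floor_le ((x.im + 1) / 2)],
      by linarith [Int.lt_floor_add_one ((x.im + 1) / 2)]⟩
  have hn : ∀ c d : ℤ, x.re = c → x.im = d → False := fun c d h1 h2 =>
    hx (c, d) (Complex.ext h1 h2)
  have P : ∀ (c d : ℤ) (y : ℂ), y.re = x.re + 2 * c → y.im = x.im + 2 * d → Pil2R x y :=
    fun c d y h1 h2 => ⟨c, d, Or.inl ⟨h1, h2⟩⟩
  have N : ∀ (c d : ℤ) (y : ℂ), y.re = -x.re + 2 * c → y.im = -x.im + 2 * d → Pil2R x y :=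
    fun c d y h1 h2 => ⟨c, d, Or.inr ⟨h1, h2⟩⟩
  rcases b1.eq_or_lt with b1 | b1
  · have r1 : x.re - 2 * a ≠ -1 := fun h => hn (2 * a - 1) (2 * b - 1) (by push_cast; linarith)
      (by push_cast; linarith)
    have r0 : x.re - 2 * a ≠ 0 := fun h => hn (2 * a) (2 * b - 1) (by push_cast; linarith)
      (by push_cast; linarith)
    have r1' := lt_of_le_of_ne a1 r1.symm
    rcases r0.lt_or_gt with r | r
    · refine Or.inr ⟨2, ⟨-x.re + 2 * a, 1⟩, Pil2e_mem.2 ?_, N a b _ rfl (by simp only; linarith)⟩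
      simp only [Pil2i, Pil2j, Matrix.cons_val, Int.cast_one, Int.cast_neg]
      exact ⟨by linarith, by linarith, by linarith, by linarith⟩
    · refine Or.inr ⟨2, ⟨x.re - 2 * a, 1⟩, Pil2e_mem.2 ?_,
        P (-a) (1 - b) _ (by push_cast; ring) (by push_cast; linarith)⟩
      simp only [Pil2i, Pil2j, Matrix.cons_val, Int.cast_one, Int.cast_neg]
      exact ⟨by linarith, by linarith, by linarith, by linarith⟩
  rcases lt_trichotomy (x.im - 2 * b) 0 with s | s | s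
  · rcases a1.eq_or_lt with a1 | a1
    · refine Or.inr ⟨1, ⟨1, -x.im + 2 * b⟩, Pil2e_mem.2 ?_, N a b _ (by simp only; linarith) rfl⟩
      simp only [Pil2i, Pil2j, Matrix.cons_val, Int.cast_one, Int.cast_zero]
      exact ⟨by linarith, by linarith, by linarith, by linarith⟩
    · refine Or.inl ⟨⟨-x.re + 2 * a, -x.im + 2 * b⟩, Pil2D_mem.2 ?_, N a b _ rfl rfl⟩
      simp only
      exact ⟨by linarith, by linarith, by linarith, by linarith⟩
  · have r1 : x.re - 2 * a ≠ -1 := fun h => hn (2 * a - 1) (2 * b) (by push_cast; linarith)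
      (by push_cast; linarith)
    have r0 : x.re - 2 * a ≠ 0 := fun h => hn (2 * a) (2 * b) (by push_cast; linarith)
      (by push_cast; linarith)
    have r1' := lt_of_le_of_ne a1 r1.symm
    rcases r0.lt_or_gt with r | r
    · refine Or.inr ⟨0, ⟨-x.re + 2 * a, 0⟩, Pil2e_mem.2 ?_, N a b _ rfl (by simp only; linarith)⟩
      simp only [Pil2i, Pil2j, Matrix.cons_val, Int.cast_zero]
      exact ⟨by linarith, by linarith, by linarith, by linarith⟩
    · refine Or.inr ⟨0, ⟨x.re - 2 * a, 0⟩, Pil2e_mem.2 ?_,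
        P (-a) (-b) _ (by push_cast; ring) (by push_cast; linarith)⟩
      simp only [Pil2i, Pil2j, Matrix.cons_val, Int.cast_zero]
      exact ⟨by linarith, by linarith, by linarith, by linarith⟩
  · rcases a1.eq_or_lt with a1 | a1
    · refine Or.inr ⟨1, ⟨1, x.im - 2 * b⟩, Pil2e_mem.2 ?_,
        P (1 - a) (-b) _ (by push_cast; linarith) (by push_cast; ring)⟩
      simp only [Pil2i, Pil2j, Matrix.cons_val, Int.cast_one, Int.cast_zero]
      exact ⟨by linarith, by linarith, by linarith, by linarith⟩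
    · refine Or.inl ⟨⟨x.re - 2 * a, x.im - 2 * b⟩, Pil2D_mem.2 ?_,
        P (-a) (-b) _ (by push_cast; ring) (by push_cast; ring)⟩
      simp only
      exact ⟨by linarith, by linarith, by linarith, by linarith⟩

theorem Pil2_side {k : Fin 3} {x y : ℂ} (hx : x ∈ Pil2D) (hy : y ∈ Pil2e k) (h : Pil2R x y) :
    ∃ b, y ∈ Pil2T (k, b) := by
  obtain ⟨x1, x2, x3, x4⟩ := Pil2D_mem.1 hx
  have i0 : ∀ b : ℤ, ¬ ((0 : ℝ) < b ∧ (b : ℝ) < 1) := fun b ⟨h1, h2⟩ => by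
    have b1 : (0 : ℤ) < b := by exact_mod_cast h1
    have b2 : b < 1 := by exact_mod_cast h2
    omega
  have n0 : y.im ≠ 0 := by
    intro h0
    obtain ⟨a, b, ⟨h1, h2⟩ | ⟨h1, h2⟩⟩ := h
    · exact i0 (-b) ⟨by push_cast; linarith, by push_cast; linarith⟩
    · exact i0 b ⟨by linarith, by linarith⟩
  have n1 : y.im ≠ 1 := by
    intro h0
    obtain ⟨a, b, ⟨h1, h2⟩ | ⟨h1, h2⟩⟩ := h
    · exact i0 b ⟨by linarith, by linarith⟩
    · exact i0 b ⟨by linarith, by linarith⟩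
  have n2 : y.re ≠ 1 := by
    intro h0
    obtain ⟨a, b, ⟨h1, h2⟩ | ⟨h1, h2⟩⟩ := h
    · exact i0 a ⟨by linarith, by linarith⟩
    · exact i0 a ⟨by linarith, by linarith⟩
  fin_cases k
  · rcases n0.lt_or_gt with r | r
    · exact ⟨false, hy, by simp [Pil2s, Pil2hp, r]⟩
    · exact ⟨true, hy, by simp [Pil2s, Pil2hp, r]⟩
  · rcases n2.lt_or_gt with r | r
    · exact ⟨true, hy, by simp [Pil2s, Pil2hp, r]⟩
    · exact ⟨false, hy, by simpa [Pil2s, Pil2hp] using r⟩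
  · rcases n1.lt_or_gt with r | r
    · exact ⟨true, hy, by simp [Pil2s, Pil2hp, r]⟩
    · exact ⟨false, hy, by simpa [Pil2s, Pil2hp] using r⟩

theorem Pil2_inD {j : Fin 3 × Bool} {y : ℂ} (hy : y ∈ Pil2T j) : ∃ x ∈ Pil2D, Pil2R x y := by
  obtain ⟨k, b⟩ := j
  obtain ⟨h, h5⟩ := hy
  obtain ⟨h1, h2, h3, h4⟩ := Pil2e_mem.1 h
  have P0 : Pil2R y y := ⟨0, 0, Or.inl ⟨by simp, by simp⟩⟩
  fin_cases k <;> cases b <;> simp [Pil2s, Pil2hp, Pil2i, Pil2j] at h1 h2 h3 h4 h5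
  · exact ⟨-y, Pil2D_mem.2 ⟨by simp; linarith, by simp; linarith, by simp; linarith,
      by simp; linarith⟩, 0, 0, Or.inr ⟨by simp, by simp⟩⟩
  · exact ⟨y, Pil2D_mem.2 ⟨by linarith, by linarith, by linarith, by linarith⟩, P0⟩
  · exact ⟨⟨y.re - 2, y.im⟩, Pil2D_mem.2 ⟨by simp only; linarith, by simp only; linarith,
      by simp only; linarith, by simp only; linarith⟩, 1, 0, Or.inl ⟨by simp, by simp⟩⟩
  · exact ⟨y, Pil2D_mem.2 ⟨by linarith, by linarith, by linarith, by linarith⟩, P0⟩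
  · exact ⟨⟨-y.re, 2 - y.im⟩, Pil2D_mem.2 ⟨by simp only; linarith, by simp only; linarith,
      by simp only; linarith, by simp only; linarith⟩, 0, 1, Or.inr ⟨by simp, by simp⟩⟩
  · exact ⟨y, Pil2D_mem.2 ⟨by linarith, by linarith, by linarith, by linarith⟩, P0⟩

theorem Pil2T_disj (k : Fin 3) {y : ℂ} (h : y ∈ Pil2T (k, true)) (h' : y ∈ Pil2T (k, false)) :
    False := by
  have h1 := h.2
  have h2 := h'.2
  fin_cases k <;> simp [Pil2s, Pil2hp] at h1 h2 <;> linarith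

theorem Pil2_emb (hF : ContinuousOn F Pn)
    (ho : ∀ W, IsOpen W → W ⊆ Pn → ∃ U, IsOpen U ∧ F '' W = F '' Pn ∩ U) {W : Set ℂ}
    (hW : IsOpen W) (hs : W ⊆ Pn) (hi : InjOn F W) : Emb F W := by
  refine ⟨hF.mono hs, Function.invFunOn F W, ?_, hi.leftInvOn_invFunOn⟩
  rw [continuousOn_iff']
  intro t ht
  obtain ⟨U, hU, h⟩ := ho (W ∩ t) (hW.inter ht) (inter_subset_left.trans hs)
  refine ⟨U, hU, ?_⟩
  ext y
  constructor
  · rintro ⟨h1, x, hx, rfl⟩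
    rw [mem_preimage, hi.leftInvOn_invFunOn hx] at h1
    have : F x ∈ F '' Pn ∩ U := h ▸ mem_image_of_mem F ⟨hx, h1⟩
    exact ⟨this.2, x, hx, rfl⟩
  · rintro ⟨h1, x, hx, rfl⟩
    have : F x ∈ F '' (W ∩ t) := h ▸ ⟨mem_image_of_mem F (hs hx), h1⟩
    obtain ⟨z, hz, e⟩ := this
    refine ⟨?_, x, hx, rfl⟩
    rw [mem_preimage, hi.leftInvOn_invFunOn hx, ← hi hz.1 hx e]
    exact hz.2

theorem Pil2_acyc {W : Set ℂ} (h : Emb F W) (hc : Convex ℝ W) (hn : W.Nonempty) (n : ℕ) :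
    cyc ℚ (F '' W) (n + 1) ≤ bdy ℚ (F '' W) (n + 1) := by
  obtain ⟨x, hx⟩ := hn
  exact h.cyc_le (cyc_le_of_star (hc.starConvex hx) n)

theorem Pil2_acyc_union {ι : Type} {O U : ι → Set X} (hU : ∀ i, IsOpen (U i))
    (h : ∀ i, O i ⊆ U i) (hd : ∀ i j, i ≠ j → Disjoint (O i) (U j)) (n : ℕ)
    (h0 : ∀ i, cyc ℚ (O i) n ≤ bdy ℚ (O i) n) : cyc ℚ (⋃ i, O i) n ≤ bdy ℚ (⋃ i, O i) n := by
  rw [cyc_disj hU h hd]
  exact iSup_le fun i => (h0 i).trans (bdy_mono (subset_iUnion O i) n)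

theorem Pil2_zero {ι : Type} [Fintype ι] {O U : ι → Set X} (hU : ∀ i, IsOpen (U i))
    (h : ∀ i, O i ⊆ U i) (hd : ∀ i j, i ≠ j → Disjoint (O i) (U j))
    {T U' : ι × Bool → Set X} (hU' : ∀ i, IsOpen (U' i))
    (h' : ∀ i, T i ⊆ U' i) (hd' : ∀ i j, i ≠ j → Disjoint (T i) (U' j))
    (hT : ∀ j, T j ⊆ O j.1) (hp : ∀ j, IsPathConnected (T j)) :
    rd (cyc ℚ (⋃ j, T j) 0 ⊓ bdy ℚ (⋃ i, O i) 0) (bdy ℚ (⋃ j, T j) 0) ≤ Fintype.card ι := by
  classical
  choose p hp0 using fun j => (hp j).nonempty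
  let s : ι × Bool → Chn ℚ X 0 := fun j => Finsupp.single (ContinuousMap.const _ (p j)) 1
  have hs : ∀ j, s j ∈ chn ℚ (T j) 0 := fun j => single_mem (by
    rintro _ ⟨t, rfl⟩
    exact hp0 j) 1
  have hs1 : ∀ j, aug ℚ (s j) = 1 := fun j => by simp [s, aug, ev_single]
  let l : ι → Chn ℚ X 0 →ₗ[ℚ] ℚ := fun i => ev ℚ (pt fun x => if x ∈ O i then (1 : ℚ) else 0)
  have hO : ∀ i i', i' ≠ i → ∀ x ∈ O i', x ∉ O i := fun i i' e x hx hx' =>
    disjoint_left.1 (hd i' i e) hx (h i hx')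
  have hl : ∀ i, ∀ c ∈ bdy ℚ (⋃ i, O i) 0, l i c = 0 := by
    rintro i _ ⟨b, hb, rfl⟩
    rw [chn_disj hU h hd] at hb
    refine Submodule.iSup_induction _ (motive := fun b => l i (bd ℚ X 0 b) = 0) hb ?_ ?_ ?_
    · intro i' b hb
      simp only [l]
      rw [ev_bd, ev_congr_chn (b := 0) hb]
      · simp [ev]
      · intro σ hσ
        rw [cobd_pt]
        have v0 : vtx σ 0 ∈ O i' := hσ (mem_range_self _)
        have v1 : vtx σ 1 ∈ O i' := hσ (mem_range_self _)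
        by_cases e : i' = i
        · subst e
          simp [v0, v1]
        · simp [hO i i' e _ v0, hO i i' e _ v1]
    · simp
    · intro a b ha hb
      rw [map_add, map_add, ha, hb, add_zero]
  have hl2 : ∀ i j, ∀ c ∈ chn ℚ (T j) 0, l i c = if j.1 = i then aug ℚ c else 0 := by
    intro i j c hc
    simp only [l]
    split_ifs with e
    · refine ev_congr_chn hc fun σ hσ => ?_
      have v0 : vtx σ 0 ∈ O i := e ▸ hT j (hσ (mem_range_self _))
      simp [pt, v0]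
    · rw [ev_congr_chn (b := 0) hc]
      · simp [ev]
      · intro σ hσ
        have v0 : vtx σ 0 ∉ O i := hO i j.1 e _ (hT j (hσ (mem_range_self _)))
        simp [pt, v0]
  refine rd_le_of_span (fun i => s (i, true) - s (i, false)) ?_
  rintro c ⟨hc, hb⟩
  have hc' : c ∈ ⨆ j, chn ℚ (T j) 0 := by
    rw [← chn_disj hU' h' hd']
    exact hc
  obtain ⟨f, hf, rfl⟩ := (Submodule.mem_iSup_iff_exists_finsupp _ _).1 hc'
  rw [Finsupp.sum_fintype _ _ (fun _ => rfl)] at hb ⊢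
  have e0 : ∀ i, aug ℚ (f (i, false)) = -aug ℚ (f (i, true)) := by
    intro i
    have := hl i _ hb
    rw [map_sum, Finset.sum_congr rfl fun j _ => hl2 i j _ (hf j), Fintype.sum_prod_type,
      Finset.sum_eq_single i] at this
    · simp only [Fintype.sum_bool, if_true] at this
      linarith
    · intro i' _ e
      simp [e]
    · simp
  have e1 : ∑ j, f j = ∑ i, aug ℚ (f (i, true)) • (s (i, true) - s (i, false)) +
      ∑ j, (f j - aug ℚ (f j) • s j) := by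
    rw [Finset.sum_sub_distrib, Fintype.sum_prod_type (fun j => aug ℚ (f j) • s j)]
    simp only [Fintype.sum_bool, e0, smul_sub, neg_smul, ← sub_eq_add_neg]
    abel
  rw [e1]
  refine Submodule.add_mem_sup (Submodule.sum_mem _ fun i _ =>
    Submodule.smul_mem _ _ (Submodule.subset_span ⟨i, rfl⟩)) (Submodule.sum_mem _ fun j _ => ?_)
  refine bdy_mono (subset_iUnion T j) 0 (mem_bdy_zero (hp j)
    (sub_mem (hf j) (Submodule.smul_mem _ _ (hs j))) ?_)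
  rw [map_sub, map_smul, hs1, smul_eq_mul, mul_one, sub_self]

theorem pillow_hb (hF : ContinuousOn F Pn)
    (he : ∀ x ∈ Pn, ∀ y ∈ Pn, F x = F y ↔ ∃ m, y = x + 2 * gi m ∨ y = -x + 2 * gi m)
    (ho : ∀ W, IsOpen W → W ⊆ Pn → ∃ U, IsOpen U ∧ F '' W = F '' Pn ∩ U) :
    hb (F '' Pn) 2 = 0 ∧ hb (F '' Pn) 1 ≤ (3 : ℕ) := by
  simp only [Pil2R_iff] at he
  have Ts : ∀ j, Pil2T j ⊆ Pn := fun j => inter_subset_left.trans (Pil2e_sub j.1)
  obtain ⟨U, hU, eU⟩ := ho _ Pil2D_open Pil2D_sub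
  choose V hV eV using fun k => ho _ (Pil2e_open k) (Pil2e_sub k)
  choose V' hV' eV' using fun j => ho _ (Pil2T_open j) (Ts j)
  have mD : Emb F Pil2D := Pil2_emb hF ho Pil2D_open Pil2D_sub fun x hx y hy e =>
    Pil2R_D hx hy ((he x (Pil2D_sub hx) y (Pil2D_sub hy)).1 e)
  have key : ∀ k l, ∀ x ∈ Pil2e k, ∀ y ∈ Pil2e l, F x = F y → k = l ∧ x = y :=
    fun k l x hx y hy e => Pil2R_e hx hy ((he x (Pil2e_sub k hx) y (Pil2e_sub l hy)).1 e)
  have me : ∀ k, Emb F (Pil2e k) := fun k => Pil2_emb hF ho (Pil2e_open k) (Pil2e_sub k)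
    fun x hx y hy e => (key k k x hx y hy e).2
  have s1 : ∀ k, F '' Pil2e k ⊆ V k := fun k => by rw [eV]; exact inter_subset_right
  have s2 : ∀ j, F '' Pil2T j ⊆ V' j := fun j => by rw [eV']; exact inter_subset_right
  have d1 : ∀ k l, k ≠ l → Disjoint (F '' Pil2e k) (V l) := by
    intro k l hkl
    rw [disjoint_left]
    rintro _ ⟨x, hx, rfl⟩ h
    have : F x ∈ F '' Pil2e l := by
      rw [eV]
      exact ⟨mem_image_of_mem F (Pil2e_sub k hx), h⟩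
    obtain ⟨y, hy, e⟩ := this
    exact hkl (key k l x hx y hy e.symm).1
  have d2 : ∀ i j, i ≠ j → Disjoint (F '' Pil2T i) (V' j) := by
    rintro ⟨k, b⟩ ⟨l, c⟩ hkl
    rw [disjoint_left]
    rintro _ ⟨x, hx, rfl⟩ h
    have : F x ∈ F '' Pil2T (l, c) := by
      rw [eV']
      exact ⟨mem_image_of_mem F (Ts _ hx), h⟩
    obtain ⟨y, hy, e⟩ := this
    obtain ⟨rfl, rfl⟩ := key k l x hx.1 y hy.1 e.symm
    cases b <;> cases c
    · exact hkl rfl
    · exact Pil2T_disj k hy hx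
    · exact Pil2T_disj k hx hy
    · exact hkl rfl
  have hW : IsOpen (⋃ k, V k) := isOpen_iUnion hV
  have eW : F '' Pn ∩ ⋃ k, V k = ⋃ k, F '' Pil2e k := by
    rw [inter_iUnion]
    simp only [eV]
  have cov : F '' Pn ⊆ U ∪ ⋃ k, V k := by
    rintro _ ⟨x, hx, rfl⟩
    rcases Pil2_cover hx with ⟨y, hy, h⟩ | ⟨k, y, hy, h⟩
    · left
      rw [(he x hx y (Pil2D_sub hy)).2 h]
      have : F y ∈ F '' Pn ∩ U := eU ▸ mem_image_of_mem F hy
      exact this.2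
    · right
      rw [(he x hx y (Pil2e_sub k hy)).2 h]
      exact mem_iUnion.2 ⟨k, s1 k (mem_image_of_mem F hy)⟩
  have eI : F '' Pn ∩ U ∩ ⋃ k, V k = ⋃ j, F '' Pil2T j := by
    have : F '' Pn ∩ U ∩ ⋃ k, V k = (F '' Pn ∩ U) ∩ (F '' Pn ∩ ⋃ k, V k) := by
      ext z
      simp only [mem_inter_iff]
      tauto
    rw [this, ← eU, eW]
    ext z
    simp only [mem_inter_iff, mem_iUnion]
    constructor
    · rintro ⟨⟨x, hx, rfl⟩, k, y, hy, e⟩
      obtain ⟨b, hb⟩ := Pil2_side hx hy ((he x (Pil2D_sub hx) y (Pil2e_sub k hy)).1 e.symm)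
      exact ⟨(k, b), y, hb, e⟩
    · rintro ⟨j, y, hy, rfl⟩
      obtain ⟨x, hx, h⟩ := Pil2_inD hy
      exact ⟨⟨x, hx, (he x (Pil2D_sub hx) y (Ts j hy)).2 h⟩, j.1, y, hy.1, rfl⟩
  have Dne : Pil2D.Nonempty := ⟨⟨0, 1 / 2⟩, Pil2D_mem.2 (by norm_num)⟩
  have aD := fun n => Pil2_acyc mD Pil2D_convex Dne n
  have aE := fun n => Pil2_acyc_union hV s1 d1 (n + 1) fun k =>
    Pil2_acyc (me k) (Pil2e_convex k) ((Pil2T_ne (k, true)).mono inter_subset_left) n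
  have aT := fun n => Pil2_acyc_union hV' s2 d2 (n + 1) fun j =>
    Pil2_acyc ((me j.1).mono inter_subset_left) (Pil2T_convex j) (Pil2T_ne j) n
  constructor
  · have := mv_crude hU hW cov 1
    rw [eI, ← eU, eW] at this
    unfold hb at this ⊢
    rw [rd_eq_zero.2 (aD 1), rd_eq_zero.2 (aE 1), rd_eq_zero.2 (aT 0)] at this
    simpa using this
  · have := mv_rank hU hW cov 0
    rw [eI, ← eU, eW] at this
    refine this.trans ?_
    have z : rd (cyc ℚ (F '' Pil2D) (0 + 1) ⊔ cyc ℚ (⋃ k, F '' Pil2e k) (0 + 1))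
        (bdy ℚ (F '' Pn) (0 + 1)) = 0 :=
      rd_eq_zero.2 (sup_le ((aD 0).trans (bdy_mono (image_mono Pil2D_sub) _))
        ((aE 0).trans (bdy_mono (iUnion_subset fun k => image_mono (Pil2e_sub k)) _)))
    rw [z, zero_add]
    have w := Pil2_zero hV s1 d1 hV' s2 d2 (fun j => image_mono inter_subset_left) fun j =>
      ((Pil2T_convex j).isPathConnected (Pil2T_ne j)).image' (hF.mono (Ts j))
    rw [Fintype.card_fin] at w
    refine (rd_mono ?_ le_rfl).trans w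
    exact le_sup_of_le_left (inf_le_inf_right _ inf_le_left)

end HK3
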