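import Pool.Agent.P.MP_9699e0_gt.PiX1
import Pool.Agent.P.MP_9699e0_gt.Pil2

/-! The manifold is simply connected. -/

set_option autoImplicit false
set_option linter.unusedSectionVars false

noncomputable section

namespace HK3

open Pool.Agent.P.MP_9699e0_gt Set Filter Topology
open scoped ContDiff

variable {n : ℕ}

theorem SS_eq (v : ℂ) : SS n v = (fun x => f0 n (Bm v.im x, v)) '' Pn := by
  refine Subset.antisymm ?_ ?_
  · rintro _ ⟨⟨y, w⟩, ⟨h1, rfl⟩, rfl⟩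
    exact ⟨Bi w.im y, (mem_W0_iff _).1 h1, by simp only [Bm_Bi]⟩
  · rintro _ ⟨x, hx, rfl⟩
    exact ⟨(Bm v.im x, v), ⟨(mem_W0_iff _).2 (by rwa [Bi_Bm]), rfl⟩, rfl⟩

theorem isPathConnected_SS (hn : Odd n) (v : ℂ) : IsPathConnected (SS n v) := by
  rw [SS_eq]
  have h1 : Continuous fun x : ℂ => ((Bm v.im x, v) : E) :=
    (contDiff_Bm.continuous.comp (continuous_const.prodMk continuous_id)).prodMk continuous_const
  exact isPathConnected_Pn.image' ((loc0 hn).continuousOn.comp h1.continuousOn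
    fun x hx => (mem_W0_iff _).2 (by rwa [Bi_Bm]))

theorem PiX2_sub (hn : Odd n) {p q : ℂ} {x : XX n} (h : x ∈ SS n p) (h' : x ∈ SS n q) :
    SS n p ⊆ SS n q := by
  obtain ⟨ξ, ⟨h1, rfl⟩, rfl⟩ := h
  obtain ⟨ξ', ⟨h2, rfl⟩, e⟩ := h'
  obtain ⟨k, e', m, l, rfl⟩ := (f00 hn h1 h2).1 e.symm
  rintro _ ⟨η, ⟨h3, h4⟩, rfl⟩
  refine ⟨gam n k e' m l η, ⟨gam_mem hn k e' m l h3, ?_⟩, (f0_gam hn h3 ⟨k, e', m, l, rfl⟩).symm⟩
  simp only [gam, h4]

theorem SS_eq_or (hn : Odd n) (p q : ℂ) : SS n p = SS n q ∨ Disjoint (SS n p) (SS n q) := by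
  rw [or_iff_not_imp_right]
  intro h
  obtain ⟨x, h1, h2⟩ := not_disjoint_iff.1 h
  exact Subset.antisymm (PiX2_sub hn h1 h2) (PiX2_sub hn h2 h1)

theorem PiX2_meet (hn : Odd n) (p : ℂ) (i : I4) : (SS n p ∩ Nb n i).Nonempty := by
  have h1 : ‖((β p.im (rep i + 2 • (0 : ℤ × ℤ)) + ((ρ / 2 : ℝ) : ℂ), p) : E).1 -
      β p.im (rep i + 2 • (0 : ℤ × ℤ))‖ = ρ / 2 := by
    rw [add_sub_cancel_left, Complex.norm_real, Real.norm_eq_abs, abs_of_pos (half_pos ρ_pos)]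
  have h2 := h1.trans_lt (half_lt_self ρ_pos)
  have h3 : ((β p.im (rep i + 2 • (0 : ℤ × ℤ)) + ((ρ / 2 : ℝ) : ℂ), p) : E) ∈ W0 :=
    RelAmem (by rw [rr_eq h2]; exact (half_pos ρ_pos).trans_eq h1.symm)
  refine ⟨_, ⟨_, ⟨h3, rfl⟩, rfl⟩, (f0_mem_Nb_iff hn i h3).2 ?_⟩
  rw [rc_eq h2 i, if_pos rfl]
  exact h2

theorem PiX2_union {X ι : Type} [TopologicalSpace X] {A : Set X} {B : ι → Set X}
    (hA : IsPathConnected A) (hB : ∀ i, IsPathConnected (B i)) (h : ∀ i, (A ∩ B i).Nonempty) :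
    IsPathConnected (A ∪ ⋃ i, B i) := by
  obtain ⟨a, ha⟩ := hA.nonempty
  refine ⟨a, Or.inl ha, fun y hy => ?_⟩
  rcases hy with hy | hy
  · exact (hA.joinedIn a ha y hy).mono subset_union_left
  · obtain ⟨i, hi⟩ := mem_iUnion.1 hy
    exact ((hA.union (hB i) (h i)).joinedIn a (Or.inl ha) y (Or.inr hi)).mono
      (union_subset_union_right _ (subset_iUnion B i))

theorem null_univ (hn : Odd n) : Null (univ : Set (XX n)) := by
  have e : (univ : Set (XX n)) = (⋃ i, Nb n i) ∪ ⋃ p, SS n p := by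
    refine Subset.antisymm (cover_Z0.trans (union_subset_union_right _ ?_)) (subset_univ _)
    rintro _ ⟨ξ, hξ, rfl⟩
    exact mem_iUnion.2 ⟨ξ.2, ξ, ⟨hξ, rfl⟩, rfl⟩
  rw [e]
  refine null_sweep _ _ (SS_eq_or hn) ?_
    fun p => ⟨_, Metric.ball_mem_nhds p (by norm_num), null_slab hn p⟩
  rintro T ⟨p, hp⟩
  have h1 := PiX2_union (isPathConnected_SS hn p) (fun i => (null_Nb hn i).conn) (PiX2_meet hn p)
  have h2 := PiX2_union h1 (B := fun q : T => SS n q) (fun q => isPathConnected_SS hn q) fun q => by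
    obtain ⟨x, h2, h3⟩ := PiX2_meet hn q 0
    exact ⟨x, Or.inr (mem_iUnion.2 ⟨0, h3⟩), h2⟩
  have e2 : ((⋃ i, Nb n i) ∪ ⋃ q ∈ T, SS n q) = (SS n p ∪ ⋃ i, Nb n i) ∪ ⋃ q : T, SS n q := by
    rw [biUnion_eq_iUnion]
    refine Subset.antisymm (union_subset_union_left _ subset_union_right) ?_
    refine union_subset (union_subset ?_ subset_union_left) subset_union_right
    exact (subset_iUnion (fun q : T => SS n q) ⟨p, hp⟩).trans subset_union_right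
  rwa [e2]

end HK3
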