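import Pool.Agent.P.MP_9699e0_gt.FnB

/-! The manifold is Hausdorff. -/

set_option autoImplicit false
set_option linter.unusedSectionVars false

noncomputable section

namespace HK3

open Pool.Agent.P.MP_9699e0_gt Set Filter Topology
open scoped ContDiff

theorem T2M_loc {X : Type} [TopologicalSpace X] {f g : E → X} {V W : Set E} (hV : IsOpen V)
    (hW : IsOpen W) (hf : IsLocalHomeomorphOn f V) (hg : IsLocalHomeomorphOn g W) {a b : E}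
    (ha : a ∈ V) (hb : b ∈ W)
    (h : ∀ᶠ z : E × E in 𝓝 (a, b), z.1 ∈ V → z.2 ∈ W → f z.1 ≠ g z.2) :
    Disjoint (𝓝 (f a)) (𝓝 (g b)) := by
  obtain ⟨U, hU, U', hU', hs⟩ := mem_nhds_prod_iff.1 h
  rw [← hf.map_nhds_eq ha, ← hg.map_nhds_eq hb, Filter.disjoint_iff]
  refine ⟨_, image_mem_map (inter_mem hU (hV.mem_nhds ha)), _,
    image_mem_map (inter_mem hU' (hW.mem_nhds hb)), Set.disjoint_left.2 ?_⟩
  rintro _ ⟨p, hp, rfl⟩ ⟨q, hq, e⟩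
  exact hs (mk_mem_prod hp.1 hq.1) hp.2 hq.2 e.symm

theorem T2M_fun {X : Type} [TopologicalSpace X] {f : X → ℂ} (hf : Continuous f) {x y : X}
    (h : f x ≠ f y) : Disjoint (𝓝 x) (𝓝 y) :=
  hf.continuousAt.tendsto.disjoint (disjoint_nhds_nhds.2 h) hf.continuousAt.tendsto

theorem T2M_ne {c : Prop} {a b : E} (h : ¬(c ∧ a = b)) :
    ∀ᶠ z : E × E in 𝓝 (a, b), ¬(c ∧ z.1 = z.2) := by
  by_cases hc : c
  · filter_upwards [(isOpen_ne_fun continuous_fst continuous_snd).mem_nhds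
      (show ((a, b) : E × E).1 ≠ (a, b).2 from fun e => h ⟨hc, e⟩)] with z hz hz'
    exact hz hz'.2
  · exact Eventually.of_forall fun z hz => hc hz.1

theorem T2M_mm : ∀ i : I4, ∃ a : Fin 3, mm a i = 1 ∨ mm a i = -1 := by decide

theorem T2M_zeta (i : I4) {α : E} (h : ∀ m, α.1 ≠ gi m) : ∃ a, ζ2 a i α ≠ 0 := by
  obtain ⟨a, ha⟩ := T2M_mm i
  refine ⟨a, fun e => ?_⟩
  have h1 : Real.sin (Real.pi * α.1.im) = 0 := congrArg Complex.re e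
  have h2 : eps a i * Real.sin (Real.pi * (mm a i * α.1.re)) = 0 := congrArg Complex.im e
  have h3 : Real.sin (Real.pi * α.1.re) = 0 := by
    have h4 := (mul_eq_zero.1 h2).resolve_left fun h0 => by
      have := eps_sq a i
      rw [h0, mul_zero] at this
      exact zero_ne_one this
    rcases ha with ha | ha <;> simpa [ha] using h4
  obtain ⟨k, hk⟩ := Real.sin_eq_zero_iff.1 h1
  obtain ⟨l, hl⟩ := Real.sin_eq_zero_iff.1 h3
  refine h (l, k) (Complex.ext ?_ ?_)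
  · exact mul_left_cancel₀ Real.pi_ne_zero (hl.symm.trans (mul_comm _ _))
  · exact mul_left_cancel₀ Real.pi_ne_zero (hk.symm.trans (mul_comm _ _))

variable {n : ℕ}

theorem T2M_cases (hn : Odd n) {x : XX n} (hx : x ∉ Z0 n) :
    (∃ i, ∃ α ∈ W2, α.2 = 0 ∧ x = f2 n i α) ∨ (∃ i c, ∃ p ∈ W3, p.1 = 0 ∧ x = f3 n i c p) ∨
      ∃ i c, ∃ p ∈ W4, p.2 = 0 ∧ x = f4 n i c p := by
  have h2 : ∀ i, ∀ α ∈ W2, x = f2 n i α → ∃ i, ∃ α ∈ W2, α.2 = 0 ∧ x = f2 n i α := by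
    intro i α hα e
    refine ⟨i, α, hα, by_contra fun h0 => hx ?_, e⟩
    have h1 : x ∈ Z0 n ∩ N2 n i := by
      rw [Z0_inter_N2 hn]
      exact ⟨α, ⟨hα.1, h0⟩, e.symm⟩
    exact h1.1
  rcases xx_cases x with ⟨ξ, hξ, e⟩ | ⟨i, α, hα, e⟩ | ⟨i, c, p, hp, e⟩ | ⟨i, c, p, hp, e⟩
  · exact absurd ⟨ξ, hξ, e.symm⟩ hx
  · exact Or.inl (h2 i α hα e)
  · by_cases h0 : p.1 = 0
    · exact Or.inr (Or.inl ⟨i, c, p, hp, h0, e⟩)
    · obtain ⟨b, -, h1, -, e'⟩ := Sets_f3 hn i c hp h0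
      exact Or.inl (h2 i _ h1 (e.trans e'))
  · by_cases h0 : p.2 = 0
    · exact Or.inr (Or.inr ⟨i, c, p, hp, h0, e⟩)
    · obtain ⟨b, -, h1, -, e'⟩ := Sets_f4 hn i c hp h0
      exact Or.inl (h2 i _ h1 (e.trans e'))

theorem T2M_00 (hn : Odd n) {ξ ξ' : E} (h : ξ ∈ W0) (h' : ξ' ∈ W0) (hne : f0 n ξ ≠ f0 n ξ') :
    Disjoint (𝓝 (f0 n ξ)) (𝓝 (f0 n ξ')) := by
  obtain ⟨V, hV, V', hV', hs⟩ := RG_sep hn fun e => hne ((f00 hn h h').2 e)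
  refine T2M_loc isOpen_W0 isOpen_W0 (loc0 hn) (loc0 hn) h h' ?_
  filter_upwards [prod_mem_nhds hV hV'] with z hz h1 h2 e
  exact hs _ hz.1 _ hz.2 ((f00 hn h1 h2).1 e)

theorem T2M_22 (hn : Odd n) {i j : I4} {α α' : E} (h : α ∈ W2) (h' : α' ∈ W2)
    (hne : f2 n i α ≠ f2 n j α') : Disjoint (𝓝 (f2 n i α)) (𝓝 (f2 n j α')) := by
  refine T2M_loc ArrB_W2 ArrB_W2 (loc2 hn i) (loc2 hn j) h h' ?_
  by_cases hij : i = j
  · obtain ⟨V, hV, V', hV', hs⟩ := trn_sep fun e m he => hne ((f22 hn h h').2 ⟨hij, e, m, he⟩)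
    filter_upwards [prod_mem_nhds hV hV'] with z hz h1 h2 e
    obtain ⟨-, e, m, he⟩ := (f22 hn h1 h2).1 e
    exact hs _ hz.1 e m (he ▸ hz.2)
  · exact Eventually.of_forall fun z h1 h2 e => hij ((f22 hn h1 h2).1 e).1

theorem T2M_33 (hn : Odd n) {i j c c' : I4} {p p' : E} (h : p ∈ W3) (h' : p' ∈ W3)
    (hne : f3 n i c p ≠ f3 n j c' p') : Disjoint (𝓝 (f3 n i c p)) (𝓝 (f3 n j c' p')) := by
  refine T2M_loc ArrB_W3 ArrB_W3 (loc3 hn i c) (loc3 hn j c') h h' ?_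
  filter_upwards [T2M_ne (c := i = j ∧ c = c') (a := p) (b := p') fun e => hne (by
    rw [e.1.1, e.1.2, e.2])] with z hz h1 h2 e
  exact hz (and_assoc.2 (f33 hn h1 h2 e))

theorem T2M_44 (hn : Odd n) {i j c c' : I4} {p p' : E} (h : p ∈ W4) (h' : p' ∈ W4)
    (hne : f4 n i c p ≠ f4 n j c' p') : Disjoint (𝓝 (f4 n i c p)) (𝓝 (f4 n j c' p')) := by
  refine T2M_loc ArrB_W4 ArrB_W4 (loc4 hn i c) (loc4 hn j c') h h' ?_
  filter_upwards [T2M_ne (c := i = j ∧ c = c') (a := p) (b := p') fun e => hne (by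
    rw [e.1.1, e.1.2, e.2])] with z hz h1 h2 e
  exact hz (and_assoc.2 (f44 hn h1 h2 e))

theorem T2M_34 (hn : Odd n) {i j c c' : I4} {p p' : E} (h : p ∈ W3) (h' : p' ∈ W4) (h0 : p.1 = 0)
    (h0' : p'.2 = 0) (hne : f3 n i c p ≠ f4 n j c' p') :
    Disjoint (𝓝 (f3 n i c p)) (𝓝 (f4 n j c' p')) := by
  refine T2M_loc ArrB_W3 ArrB_W4 (loc3 hn i c) (loc4 hn j c') h h' ?_
  by_cases hij : i = j ∧ c = c'
  · have h1 : p.2 * p'.1 ≠ 1 := fun e => hne (by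
      have e1 : p' = (p.2⁻¹, p.1 * p.2 ^ 2) :=
        Prod.ext (eq_inv_of_mul_eq_one_right e) (by rw [h0', h0, zero_mul])
      rw [← hij.1, ← hij.2, e1]
      exact (f3_f4 hn i c h (left_ne_zero_of_mul_eq_one e)).2)
    have h2 : IsOpen {z : E × E | z.1.2 * z.2.1 ≠ 1} :=
      isOpen_ne_fun (by fun_prop) continuous_const
    filter_upwards [h2.mem_nhds (show (p, p') ∈ _ from h1)] with z hz h3 h4 e
    obtain ⟨-, -, h5, h6⟩ := f34 hn h3 h4 e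
    exact hz (by rw [h6]; exact mul_inv_cancel₀ h5)
  · exact Eventually.of_forall fun z h1 h2 e =>
      hij ⟨(f34 hn h1 h2 e).1, (f34 hn h1 h2 e).2.1⟩

theorem T2M_2A (F : Fns n) {i : I4} {α : E} (h : α ∈ W2) (h0 : α.2 = 0) {a : K × E}
    (ha : a ∈ (md n).dom) {j : I4 × I4} (hj : σA j a = 0) :
    Disjoint (𝓝 (f2 n i α)) (𝓝 ((md n).f a)) := by
  obtain ⟨b, hb⟩ := T2M_zeta i (h.2 h0)
  refine T2M_fun (F.hQ b).cont ?_
  have e : F.Q b ((md n).f a) = 0 := (F.on_A ha hj).1 (.inr (b, true, true))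
  rw [e, (F.hQ b).e2 i α h]
  exact pow_ne_zero 2 hb

theorem t2_XX {n : ℕ} (hn : Odd n) (F : Fns n) : T2Space (XX n) := by
  refine t2Space_iff_disjoint_nhds.2 fun x y hne => ?_
  by_cases hx : x ∈ Z0 n <;> by_cases hy : y ∈ Z0 n
  · obtain ⟨ξ, hξ, rfl⟩ := hx
    obtain ⟨ξ', hξ', rfl⟩ := hy
    exact T2M_00 hn hξ hξ' hne
  · exact T2M_fun F.hZ.cont fun e => hy ((F.mem_Z0 hn y).2 (e ▸ (F.mem_Z0 hn x).1 hx))
  · exact T2M_fun F.hZ.cont fun e => hx ((F.mem_Z0 hn x).2 (e ▸ (F.mem_Z0 hn y).1 hy))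
  have h3 : ∀ {i : I4} {α : E}, α ∈ W2 → α.2 = 0 → ∀ {j c : I4} {p : E}, p ∈ W3 → p.1 = 0 →
      Disjoint (𝓝 (f2 n i α)) (𝓝 (f3 n j c p)) := fun h h0 j c p hp hp0 =>
    T2M_2A F h h0 (a := (.a j c, p)) hp (j := (j, c)) ((if_pos rfl).trans hp0)
  have h4 : ∀ {i : I4} {α : E}, α ∈ W2 → α.2 = 0 → ∀ {j c : I4} {p : E}, p ∈ W4 → p.2 = 0 →
      Disjoint (𝓝 (f2 n i α)) (𝓝 (f4 n j c p)) := fun h h0 j c p hp hp0 =>
    T2M_2A F h h0 (a := (.b j c, p)) hp (j := (j, c)) ((if_pos rfl).trans hp0)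
  rcases T2M_cases hn hx with ⟨i, p, h, h0, rfl⟩ | ⟨i, c, p, h, h0, rfl⟩ | ⟨i, c, p, h, h0, rfl⟩ <;>
    rcases T2M_cases hn hy with ⟨j, q, h', h0', rfl⟩ | ⟨j, c', q, h', h0', rfl⟩ |
      ⟨j, c', q, h', h0', rfl⟩
  · exact T2M_22 hn h h' hne
  · exact h3 h h0 h' h0'
  · exact h4 h h0 h' h0'
  · exact (h3 h' h0' h h0).symm
  · exact T2M_33 hn h h' hne
  · exact T2M_34 hn h h' h0 h0' hne
  · exact (h4 h' h0' h h0).symm
  · exact (T2M_34 hn h' h h0' h0 hne.symm).symm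
  · exact T2M_44 hn h h' hne

end HK3
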