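import Pool.Agent.P.MP_9699e0_gt.Psi3b
import Pool.Agent.P.MP_9699e0_gt.T2M
import Pool.Agent.P.MP_9699e0_gt.CptM
import Pool.Agent.P.MP_9699e0_gt.DivB
import Pool.Agent.P.MP_9699e0_gt.Inv
import Pool.Agent.P.MP_9699e0_gt.IntA
import Pool.Agent.P.MP_9699e0_gt.IntC
import Pool.Agent.P.MP_9699e0_gt.IntD2
import Pool.Agent.P.MP_9699e0_gt.Gram
import Pool.Agent.P.MP_9699e0_gt.PiX2
import Pool.Agent.P.MP_9699e0_gt.HX
import Pool.Agent.P.MP_9699e0_gt.Alg
import Pool.Agent.P.MP_9699e0_gt.Fc4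
import Pool.Agent.P.MP_9699e0_gt.Glue2

/-! Assembly of the topological properties. -/

set_option autoImplicit false
set_option linter.unusedSectionVars false

noncomputable section

namespace HK3

open Pool.Agent.P.MP_9699e0_gt Set Filter Topology
open scoped ContDiff

variable {n : ℕ}

theorem Meet.symm {X : Type} [TopologicalSpace X] {z : Chn ℤ X 4} {c c' : Simp X 2 → ℤ} {m : ℤ}
    (h : Meet z c c' m) : Meet z c' c m := ⟨h.2, h.1⟩

theorem final (hn : Odd n) (F : Fns n) (g : C(XX n, XX n)) (hg : IsG n g) :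
    T2Space (XX n) ∧ CompactSpace (XX n) ∧ SimplyConnectedSpace (XX n) ∧ HasK3Form (XX n) ∧
      TrivialH2 g := by
  have h1 := t2_XX hn F
  have h2 := compact_XX hn
  have h3 := (null_univ hn).simplyConnected
  obtain ⟨z, hz⟩ := (oatM hn).exists_fund
  obtain ⟨B⟩ := exists_bun hn F
  choose cA hA using B.exists_RA
  choose cG hG using F.exists_RG hn
  choose cB hB using B.exists_RB
  have mGG : ∀ b b', Meet z (cG b) (cG b') (gG b b') := by
    rintro (i | ⟨a, e, d⟩) (i' | ⟨a', e', d'⟩)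
    · exact Fns.meet_ll hz (hG _) (hG _)
    · exact (Fns.meet_rl hz (hG _) (hG _)).symm
    · exact Fns.meet_rl hz (hG _) (hG _)
    · exact Fns.meet_rr hz (hG _) (hG _)
  obtain ⟨e, he, hQ, hi⟩ := gram hz.1 cA cG cB (fun j => (hA j).1) (fun b => (hG b).1)
    (fun b => (hB b).1) (fun b => B.half hA (hG b) (hB b))
    (fun j j' h => B.meet_AA hz h (hA j) (hA j')) (fun j b => B.meet_AG hz (hA j) (hG b)) mGG
    (fun i c => B.meet_AB hz (hA _) (hB _)) g (fun j => B.inv_A g hg (hA j))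
    fun b => F.inv_G hn g hg (hG b)
  exact ⟨h1, h2, h3, hasK3Form_of (hb_univ hn F) e z he hz.1 hQ,
    trivialH2_of (hb_univ hn F) e z he hz.1 hQ g hi⟩

end HK3
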