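import Pool.Agent.P.MP_9699e0_gt.Sets

/-! Properties of the global functions. -/

set_option autoImplicit false
set_option linter.unusedSectionVars false

noncomputable section

namespace HK3

open Pool.Agent.P.MP_9699e0_gt Set Filter Topology
open scoped ContDiff

variable {n : ℕ}

/-- A point lies in the open part or is described by a point near a binding. -/
theorem desc_cases (x : XX n) : (∃ ξ ∈ W0, x = f0 n ξ) ∨ ∃ (i : I4) (α : E), x ∈ Nb n i ∧
    ‖α.2‖ < ρ ∧ ∀ (Y : Type) [TopologicalSpace Y] (F : XX n → Y) (F0 : E → Y) (F2 : I4 → E → Y),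
      Desc n F F0 F2 → F x = F2 i α := by
  rcases xx_cases x with h | ⟨i, α, h, rfl⟩ | ⟨i, c, ⟨p, y⟩, h, rfl⟩ | ⟨i, c, ⟨y, p⟩, h, rfl⟩
  · exact Or.inl h
  · exact Or.inr ⟨i, α, Or.inl ⟨α, h, rfl⟩, h.1, fun Y _ F F0 F2 d => d.e2 i α h⟩
  · obtain ⟨b, rfl⟩ := IsAlgClosed.exists_pow_nat_eq p two_pos
    refine Or.inr ⟨i, (gi (rep c) + b, y * b), Or.inr (mem_iUnion.2 ⟨c, Or.inl ⟨_, h, rfl⟩⟩),
      Sets_sq ?_, fun Y _ F F0 F2 d => d.e3 i c b y h⟩
    have h2 : ‖b ^ 2‖ * ‖y‖ ^ 2 < ρ ^ 2 := h.2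
    rw [norm_pow] at h2
    rwa [norm_mul, mul_pow, mul_comm]
  · obtain ⟨z, rfl⟩ := IsAlgClosed.exists_pow_nat_eq p two_pos
    refine Or.inr ⟨i, (gi (rep c) + y * z, z), Or.inr (mem_iUnion.2 ⟨c, Or.inr ⟨_, h, rfl⟩⟩),
      Sets_sq ?_, fun Y _ F F0 F2 d => d.e4 i c y z h⟩
    have h2 : ‖z ^ 2‖ < ρ ^ 2 := h.1
    rwa [norm_pow] at h2

theorem eps_sq (a : Fin 3) (i : I4) : eps a i * eps a i = 1 := sg_mul_self _

namespace Fns

variable (F : Fns n)

theorem R_le (i : I4) (x : XX n) : F.R i x ≤ ρ := by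
  rcases desc_cases x with ⟨ξ, h, rfl⟩ | ⟨j, α, -, h, e⟩
  · rw [(F.hR i).e0 ξ h]
    exact rc_le i ξ
  · rw [e _ _ _ _ (F.hR i)]
    split_ifs
    · exact h.le
    · exact le_rfl

theorem R_nonneg (i : I4) (x : XX n) : 0 ≤ F.R i x := by
  rcases desc_cases x with ⟨ξ, h, rfl⟩ | ⟨j, α, -, h, e⟩
  · rw [(F.hR i).e0 ξ h]
    exact (rc_pos i h).le
  · rw [e _ _ _ _ (F.hR i)]
    split_ifs
    · exact norm_nonneg _
    · exact ρ_pos.le

theorem mem_Nb (hn : Odd n) (i : I4) (x : XX n) : x ∈ Nb n i ↔ F.R i x < ρ := by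
  rcases desc_cases x with ⟨ξ, h, rfl⟩ | ⟨j, α, hx, h, e⟩
  · rw [(F.hR i).e0 ξ h]
    exact f0_mem_Nb_iff hn i h
  · rw [e _ _ _ _ (F.hR i)]
    split_ifs with hj
    · exact iff_of_true (hj ▸ hx) h
    · exact iff_of_false (disjoint_left.1 (disj_Nb hn hj) hx) (lt_irrefl _)

theorem norm_Z {i : I4} {x : XX n} (h : F.R i x < ρ) : ‖F.Z x‖ = F.R i x ^ 2 := by
  rcases desc_cases x with ⟨ξ, h', rfl⟩ | ⟨j, α, -, h', e⟩
  · rw [(F.hR i).e0 ξ h'] at h ⊢
    obtain ⟨m, hm⟩ := exists_of_rc_lt h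
    rw [F.hZ.e0 ξ h', norm_pow, σL, norm_mul, norm_ex, mul_one, Complex.norm_real,
      Real.norm_of_nonneg (rr_pos h').le, rr_eq hm, rc_eq hm i, if_pos rfl]
  · rw [e _ _ _ _ (F.hR i)] at h ⊢
    rw [e _ _ _ _ F.hZ]
    split_ifs at h ⊢
    · exact norm_pow _ _
    · exact absurd h (lt_irrefl _)

theorem Z_eq {a : K × E} (ha : a ∈ (md n).dom) :
    F.Z ((md n).f a) = σL n a ^ 2 * ∏ j, σA j a := by
  obtain ⟨k, p, q⟩ := a
  cases k with
  | o =>
    refine (F.hZ.e0 (p, q) ha).trans ?_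
    simp [σA]
  | n i =>
    refine (F.hZ.e2 i (p, q) ha).trans ?_
    simp [σA, σL]
  | a i c =>
    obtain ⟨b, rfl⟩ := IsAlgClosed.exists_pow_nat_eq p two_pos
    refine (F.hZ.e3 i c b q ha).trans ?_
    simp only [σA, σL, Finset.prod_ite_eq, Finset.mem_univ, if_true, mul_pow]
  | b i c =>
    obtain ⟨b, rfl⟩ := IsAlgClosed.exists_pow_nat_eq q two_pos
    refine (F.hZ.e4 i c p b ha).trans ?_
    simp only [σA, σL, Finset.prod_ite_eq, Finset.mem_univ, if_true, one_pow, one_mul]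

theorem mem_Z0 (hn : Odd n) (x : XX n) : x ∈ Z0 n ↔ F.Z x ≠ 0 := by
  have key : ∀ i, ∀ α ∈ W2, F.Z (f2 n i α) ≠ 0 → f2 n i α ∈ Z0 n := fun i α h h0 => by
    rw [F.hZ.e2 i α h] at h0
    have : f2 n i α ∈ Z0 n ∩ N2 n i := by
      rw [Z0_inter_N2 hn]
      exact ⟨α, ⟨h.1, fun e => h0 (by simp [e])⟩, rfl⟩
    exact this.1
  constructor
  · rintro ⟨ξ, h, rfl⟩
    rw [F.hZ.e0 ξ h]
    exact pow_ne_zero 2 (mul_ne_zero (Complex.ofReal_ne_zero.2 (rr_pos h).ne') (ex_ne _))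
  · intro h0
    rcases xx_cases x with ⟨ξ, h, rfl⟩ | ⟨i, α, h, rfl⟩ | ⟨i, c, p, h, rfl⟩ | ⟨i, c, p, h, rfl⟩
    · exact ⟨ξ, h, rfl⟩
    · exact key i α h h0
    · have h1 : p.1 ≠ 0 := fun e => h0 (by
        refine (F.Z_eq (a := (.a i c, p)) h).trans ?_
        simp [σA, e])
      obtain ⟨b, -, h2, -, h3⟩ := Sets_f3 hn i c h h1
      rw [h3] at h0 ⊢
      exact key i _ h2 h0
    · have h1 : p.2 ≠ 0 := fun e => h0 (by
        refine (F.Z_eq (a := (.b i c, p)) h).trans ?_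
        simp [σA, e])
      obtain ⟨b, -, h2, -, h3⟩ := Sets_f4 hn i c h h1
      rw [h3] at h0 ⊢
      exact key i _ h2 h0

theorem FnB_sq (a : Fin 3) (x : XX n) : ∃ ζ : ℂ, F.Q a x = ζ ^ 2 ∧
    ζ.re * ζ.re + F.C x ^ 2 = 1 ∧ ζ.im * ζ.im + F.P a x ^ 2 = 1 := by
  rcases desc_cases x with ⟨ξ, h, rfl⟩ | ⟨j, α, -, -, e⟩
  · rw [(F.hQ a).e0 ξ h, F.hC.e0 ξ h, (F.hP a).e0 ξ h]
    refine ⟨_, rfl, ?_, ?_⟩
    · rw [← pow_two]
      exact Real.sin_sq_add_cos_sq _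
    · have h1 := Complex.sq_norm (F.ψ a ξ.1 ξ.2.im)
      rw [F.psi.norm, Complex.normSq_apply] at h1
      change (F.ψ a ξ.1 ξ.2.im).im * (F.ψ a ξ.1 ξ.2.im).im + _ = 1
      linarith
  · rw [e _ _ _ _ (F.hQ a), e _ _ _ _ F.hC, e _ _ _ _ (F.hP a)]
    refine ⟨_, rfl, ?_, ?_⟩
    · rw [← pow_two]
      exact Real.sin_sq_add_cos_sq _
    · have h1 := Real.sin_sq_add_cos_sq (Real.pi * (mm a j * α.1.re))
      have h2 := eps_sq a j
      change eps a j * Real.sin (Real.pi * (mm a j * α.1.re)) *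
        (eps a j * Real.sin (Real.pi * (mm a j * α.1.re))) + _ = 1
      linear_combination (eps a j * eps a j) * h1 + h2

theorem norm_Q (a : Fin 3) (x : XX n) : ‖F.Q a x‖ = (1 - F.C x ^ 2) + (1 - F.P a x ^ 2) := by
  obtain ⟨ζ, e, h1, h2⟩ := F.FnB_sq a x
  rw [e, norm_pow, Complex.sq_norm, Complex.normSq_apply]
  linarith

theorem C_sq_le (x : XX n) : F.C x ^ 2 ≤ 1 := by
  obtain ⟨ζ, -, h1, -⟩ := F.FnB_sq 0 x
  linarith [mul_self_nonneg ζ.re]

theorem P_sq_le (a : Fin 3) (x : XX n) : F.P a x ^ 2 ≤ 1 := by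
  obtain ⟨ζ, -, -, h1⟩ := F.FnB_sq a x
  linarith [mul_self_nonneg ζ.im]

theorem C_of_Q {a : Fin 3} {x : XX n} {s : ℝ} (h : F.Q a x = (s * (1 + Complex.I)) ^ 2) :
    F.C x ^ 2 = 1 - s ^ 2 := by
  obtain ⟨ζ, e, h1, -⟩ := F.FnB_sq a x
  rcases sq_eq_sq_iff_eq_or_eq_neg.1 (e.symm.trans h) with rfl | rfl
  · simp only [Complex.mul_re, Complex.ofReal_re, Complex.add_re, Complex.one_re, Complex.I_re,
      Complex.ofReal_im, zero_mul] at h1
    linarith
  · simp only [Complex.neg_re, Complex.mul_re, Complex.ofReal_re, Complex.add_re, Complex.one_re,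
      Complex.I_re, Complex.ofReal_im, zero_mul] at h1
    linarith

theorem FnB_val {a : K × E} (ha : a ∈ (md n).dom) {i c : I4} (h : σA (i, c) a = 0)
    (Y : Type) [TopologicalSpace Y] (F : XX n → Y) (F0 : E → Y) (F2 : I4 → E → Y)
    (d : Desc n F F0 F2) : F ((md n).f a) = F2 i (gi (rep c), 0) := by
  obtain ⟨k, p, q⟩ := a
  cases k with
  | o => exact absurd h one_ne_zero
  | n i => exact absurd h one_ne_zero
  | a i' c' =>
    change (if (i', c') = (i, c) then p else 1) = 0 at h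
    split_ifs at h with hj
    · obtain ⟨rfl, rfl⟩ := Prod.mk.inj hj
      have e : p = 0 ^ 2 := by simp [h]
      subst e
      exact (d.e3 i' c' 0 q ha).trans (by simp)
    · exact absurd h one_ne_zero
  | b i' c' =>
    change (if (i', c') = (i, c) then q else 1) = 0 at h
    split_ifs at h with hj
    · obtain ⟨rfl, rfl⟩ := Prod.mk.inj hj
      have e : q = 0 ^ 2 := by simp [h]
      subst e
      exact (d.e4 i' c' p 0 ha).trans (by simp)
    · exact absurd h one_ne_zero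

theorem FnB_sign (e : Bool) {k k' : ℤ} (h : Even (k - k')) :
    0 < (sb e : ℝ) * sg k ↔ sb e = (-1) ^ k'.natAbs := by
  rcases sg_cases k with ⟨h1, h2⟩ | ⟨h1, h2⟩
  · have h3 : Even k'.natAbs := Int.natAbs_even.2 ((Int.even_sub.1 h).1 h2)
    rw [h1, h3.neg_one_pow]
    cases e <;> simp [sb]
  · have h3 : Odd k'.natAbs := Int.natAbs_odd.2 (Int.not_even_iff_odd.1 fun h4 =>
      Int.not_even_iff_odd.2 h2 ((Int.even_sub.1 h).2 h4))
    rw [h1, h3.neg_one_pow]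
    cases e <;> simp [sb]

/-- Values on the exceptional spheres. -/
theorem on_A {a : K × E} (ha : a ∈ (md n).dom) {j : I4 × I4} (h : σA j a = 0) :
    (∀ b, F.q b ((md n).f a) = 0) ∧ ∀ b, (md n).f a ∈ F.O b ↔ inK b j := by
  obtain ⟨i, c⟩ := j
  have e := FnB_val ha h
  have hs : ∀ k : ℤ, Real.sin (Real.pi * k) = 0 := fun k => by
    rw [mul_comm, Real.sin_int_mul_pi]
  have hc : ∀ k : ℤ, Real.cos (Real.pi * k) = sg k := fun k => by
    rw [mul_comm, Real.cos_int_mul_pi, sg]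
  refine ⟨fun b => ?_, fun b => ?_⟩
  · rcases b with i' | ⟨a', e', d'⟩
    · refine (e _ _ _ _ F.hZ).trans ?_
      simp
    · refine (e _ _ _ _ (F.hQ a')).trans (pow_eq_zero_iff two_ne_zero |>.2 (Complex.ext ?_ ?_))
      · exact hs (rep c).2
      · change eps a' i * Real.sin (Real.pi * (mm a' i * ((rep c).1 : ℝ))) = 0
        rw [← Int.cast_mul, hs, mul_zero]
  · rcases b with i' | ⟨a', e', d'⟩
    · change F.R i' _ < ρ ↔ i = i'
      rw [e _ _ _ _ (F.hR i')]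
      split_ifs with hi
      · exact iff_of_true (by simpa using ρ_pos) hi
      · exact iff_of_false (lt_irrefl _) hi
    · change 0 < sb e' * F.C _ ∧ 0 < sb d' * F.P a' _ ↔ _
      rw [e _ _ _ _ F.hC, e _ _ _ _ (F.hP a')]
      refine and_congr ?_ ?_
      · change 0 < sb e' * Real.cos (Real.pi * ((rep c).2 : ℝ)) ↔ _
        rw [hc, FnB_sign e' (k' := (rep c).2) (by simp)]
        rfl
      · change 0 < sb d' * (eps a' i * Real.cos (Real.pi * (mm a' i * ((rep c).1 : ℝ)))) ↔ _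
        rw [← Int.cast_mul, hc, eps, χ, ← sg_add]
        exact FnB_sign d' ⟨-((rep (cl a')).2 * ((rep i).1 + (rep i).2)), by ring⟩

theorem isOpen_O (b : HI) : IsOpen (F.O b) := by
  rcases b with i | ⟨a, e, d⟩
  · exact isOpen_lt (F.hR i).cont continuous_const
  · exact (isOpen_lt continuous_const (continuous_const.mul F.hC.cont)).inter
      (isOpen_lt continuous_const (continuous_const.mul (F.hP a).cont))

theorem continuous_q (b : HI) : Continuous (F.q b) := by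
  rcases b with i | ⟨a, e, d⟩
  · exact F.hZ.cont
  · exact (F.hQ a).cont

theorem isClosed_O (b : HI) : IsClosed {x | x ∈ F.O b ∧ ‖F.q b x‖ ≤ eta b} := by
  rcases b with i | ⟨a, e, d⟩
  · have e : {x | x ∈ F.O (.inl i) ∧ ‖F.q (.inl i) x‖ ≤ eta (.inl i)} = {x | F.R i x ≤ ρ / 2} := by
      ext x
      change F.R i x < ρ ∧ ‖F.Z x‖ ≤ ρ ^ 2 / 4 ↔ F.R i x ≤ ρ / 2
      have h0 := F.R_nonneg i x
      have h1 := ρ_pos
      constructor
      · rintro ⟨h2, h3⟩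
        rw [F.norm_Z h2] at h3
        nlinarith
      · intro h2
        have h3 : F.R i x < ρ := by linarith
        rw [F.norm_Z h3]
        exact ⟨h3, by nlinarith⟩
    rw [e]
    exact isClosed_le (F.hR i).cont continuous_const
  · have hs : ∀ b : Bool, (sb b : ℝ) ≠ 0 := fun b => by cases b <;> simp [sb]
    have e' : {x | x ∈ F.O (.inr (a, e, d)) ∧ ‖F.q (.inr (a, e, d)) x‖ ≤ eta (.inr (a, e, d))} =
        ({x | 0 ≤ sb e * F.C x} ∩ {x | 0 ≤ sb d * F.P a x}) ∩ {x | ‖F.Q a x‖ ≤ 1 / 4} := by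
      ext x
      change (0 < sb e * F.C x ∧ 0 < sb d * F.P a x) ∧ ‖F.Q a x‖ ≤ 1 / 4 ↔
        (0 ≤ sb e * F.C x ∧ 0 ≤ sb d * F.P a x) ∧ ‖F.Q a x‖ ≤ 1 / 4
      refine and_congr_left fun h => ⟨fun h' => ⟨h'.1.le, h'.2.le⟩, fun h' => ?_⟩
      rw [F.norm_Q] at h
      have h1 := F.C_sq_le x
      have h2 := F.P_sq_le a x
      refine ⟨h'.1.lt_of_ne' (mul_ne_zero (hs e) fun h0 => ?_),
        h'.2.lt_of_ne' (mul_ne_zero (hs d) fun h0 => ?_)⟩
      · rw [h0] at h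
        linarith
      · rw [h0] at h
        linarith
    rw [e']
    exact ((isClosed_le continuous_const (continuous_const.mul F.hC.cont)).inter
      (isClosed_le continuous_const (continuous_const.mul (F.hP a).cont))).inter
        (isClosed_le (F.hQ a).cont.norm continuous_const)

end Fns

theorem eta_pos (b : HI) : 0 < eta b := by
  rcases b with i | b
  · exact div_pos (pow_pos ρ_pos 2) four_pos
  · exact one_div_pos.2 four_pos

end HK3
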