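import Pool.Agent.P.MP_9699e0_gt.LbDefs
import Pool.Agent.P.MP_9699e0_gt.Cv

/-! Topology of glued spaces. -/

set_option autoImplicit false
set_option linter.unusedSectionVars false

noncomputable section

namespace HK3

open Pool.Agent.P.MP_9699e0_gt Set Filter Topology
open scoped ContDiff

variable {κ : Type} [TopologicalSpace κ] [DiscreteTopology κ] {G : Gl κ}

theorem Glue1_nhds (k : κ) (a : E) : 𝓝 ((k, a) : κ × E) = map (Prod.mk k) (𝓝 a) := by
  rw [nhds_prod_eq, nhds_discrete, pure_prod]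

theorem Glue1_mk (k : κ) : IsOpenEmbedding (Prod.mk k : E → κ × E) := by
  refine IsOpenEmbedding.of_continuous_injective_isOpenMap (Continuous.prodMk_right k)
    (fun a b h => (Prod.ext_iff.1 h).2) fun s hs => ?_
  rw [← singleton_prod]
  exact (isOpen_discrete _).prod hs

theorem Glue1_inv {γ : E → E} {a : E} (h1 : ContDiffAt ℝ ∞ γ a) (h2 : 0 < (fderiv ℝ γ a).det) :
    ∃ δ : E → E, δ (γ a) = a ∧ ContDiffAt ℝ ∞ δ (γ a) ∧ 0 < (fderiv ℝ δ (γ a)).det ∧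
      ∀ᶠ ξ in 𝓝 (γ a), γ (δ ξ) = ξ := by
  have hn : (∞ : WithTop ℕ∞) ≠ 0 := by simp
  set A := (fderiv ℝ γ a).toContinuousLinearEquivOfDetNeZero h2.ne' with hA
  have hAc : (A : E →L[ℝ] E) = fderiv ℝ γ a :=
    ContinuousLinearMap.coe_toContinuousLinearEquivOfDetNeZero _ _
  have hd : HasFDerivAt γ (A : E →L[ℝ] E) a := by
    rw [hAc]
    exact (h1.differentiableAt hn).hasFDerivAt
  have hs := h1.hasStrictFDerivAt' hd hn
  refine ⟨h1.localInverse hd hn, h1.localInverse_apply_image hd hn, h1.to_localInverse hd hn, ?_,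
    hs.eventually_right_inverse⟩
  have e : fderiv ℝ (h1.localInverse hd hn) (γ a) = (A.symm : E →L[ℝ] E) :=
    hs.to_localInverse.hasFDerivAt.fderiv
  rw [e, ContinuousLinearEquiv.det_coe_symm, hAc]
  exact inv_pos.2 h2

namespace Gl

theorem Glue1_val (p : G.dom) : G.f p.1 = Quotient.mk G.setoid p := by
  unfold f
  exact dif_pos p.2

theorem Glue1_graph (h : G.Ok) {p q : κ × E} (hr : G.Rel p q) :
    ∃ γ : E → E, γ p.2 = q.2 ∧ ContDiffAt ℝ ∞ γ p.2 ∧ 0 < (fderiv ℝ γ p.2).det ∧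
      ∀ᶠ ξ in 𝓝 p.2, G.Rel (p.1, ξ) (q.1, γ ξ) := by
  induction hr with
  | rel p q hpq =>
    obtain ⟨r, h1, h2, h3, h4⟩ := hpq
    have hn := (h.dopn r).mem_nhds h3
    refine ⟨G.g r, h4.symm, (h.smooth r).contDiffAt hn, h.det r _ h3, ?_⟩
    filter_upwards [hn] with ξ hξ
    exact Relation.EqvGen.rel _ _ ⟨r, h1, h2, hξ, rfl⟩
  | refl p =>
    refine ⟨id, rfl, contDiffAt_id, ?_, Eventually.of_forall fun ξ => Relation.EqvGen.refl _⟩
    rw [fderiv_id]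
    simp [ContinuousLinearMap.det]
  | symm p q _ ih =>
    obtain ⟨γ, h1, h2, h3, h4⟩ := ih
    obtain ⟨δ, d1, d2, d3, d4⟩ := Glue1_inv h2 h3
    rw [h1] at d1 d2 d3 d4
    refine ⟨δ, d1, d2, d3, ?_⟩
    have ht : Tendsto δ (𝓝 q.2) (𝓝 p.2) := d1 ▸ d2.continuousAt.tendsto
    filter_upwards [d4, ht.eventually h4] with ξ e1 e2
    rw [e1] at e2
    exact Relation.EqvGen.symm _ _ e2
  | trans p q r _ _ ih1 ih2 =>
    obtain ⟨γ, h1, h2, h3, h4⟩ := ih1
    obtain ⟨δ, d1, d2, d3, d4⟩ := ih2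
    have hn : (∞ : WithTop ℕ∞) ≠ 0 := by simp
    have ht : Tendsto γ (𝓝 p.2) (𝓝 q.2) := h1 ▸ h2.continuousAt.tendsto
    rw [← h1] at d1 d2 d3
    refine ⟨δ ∘ γ, d1, d2.comp _ h2, ?_, ?_⟩
    · rw [fderiv_comp _ (d2.differentiableAt hn) (h2.differentiableAt hn)]
      have e : ((fderiv ℝ δ (γ p.2)).comp (fderiv ℝ γ p.2)).det =
          (fderiv ℝ δ (γ p.2)).det * (fderiv ℝ γ p.2).det :=
        LinearMap.det_comp (fderiv ℝ δ (γ p.2) : E →ₗ[ℝ] E) (fderiv ℝ γ p.2 : E →ₗ[ℝ] E)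
      rw [e]
      exact mul_pos d3 h3
    · filter_upwards [h4, ht.eventually d4] with ξ e1 e2
      exact Relation.EqvGen.trans _ _ _ e1 e2

theorem Glue1_dom (h : G.Ok) {a b : κ × E} (hr : G.Rel a b) : a ∈ G.dom ↔ b ∈ G.dom := by
  induction hr with
  | rel p q hpq =>
    obtain ⟨r, h1, h2, h3, h4⟩ := hpq
    have e1 : p ∈ G.dom := by
      show p.2 ∈ G.W p.1
      rw [h1]
      exact h.dsub r h3
    have e2 : q ∈ G.dom := by
      show q.2 ∈ G.W q.1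
      rw [h2, h4]
      exact h.maps r h3
    exact iff_of_true e1 e2
  | refl p => exact Iff.rfl
  | symm p q _ ih => exact ih.symm
  | trans p q r _ _ ih1 ih2 => exact ih1.trans ih2

theorem Glue1_cont : ContinuousOn G.f G.dom := by
  rw [continuousOn_iff_continuous_domRestrict]
  have e : G.dom.domRestrict G.f = Quotient.mk G.setoid := funext fun p => Glue1_val p
  rw [e]
  exact continuous_quotient_mk'

theorem f_eq_iff {a b : κ × E} (ha : a ∈ G.dom) (hb : b ∈ G.dom) : G.f a = G.f b ↔ G.Rel a b := by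
  rw [Glue1_val ⟨a, ha⟩, Glue1_val ⟨b, hb⟩]
  exact Quotient.eq

theorem f_surj (x : G.T) : ∃ a ∈ G.dom, G.f a = x := by
  obtain ⟨p, rfl⟩ := Quotient.exists_rep x
  exact ⟨p.1, p.2, Glue1_val p⟩

theorem Ok.isOpen_dom (h : G.Ok) : IsOpen G.dom := by
  rw [isOpen_iff_mem_nhds]
  rintro ⟨k, a⟩ ha
  rw [Glue1_nhds, mem_map]
  exact (h.opn k).mem_nhds ha

theorem Ok.rel_dom (h : G.Ok) {a b : κ × E} (hr : G.Rel a b) (ha : a ∈ G.dom) : b ∈ G.dom :=
  (Glue1_dom h hr).1 ha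

theorem Ok.f_step (h : G.Ok) (r : G.Ar) {a : E} (ha : a ∈ G.D r) :
    G.f (G.src r, a) = G.f (G.tgt r, G.g r a) :=
  (f_eq_iff (a := (G.src r, a)) (b := (G.tgt r, G.g r a)) (h.dsub r ha) (h.maps r ha)).2
    (Relation.EqvGen.rel _ _ ⟨r, rfl, rfl, ha, rfl⟩)

/-- Near related points the relation contains the graph of a local diffeomorphism. -/
theorem Ok.graph (h : G.Ok) {k l : κ} {a b : E} (hr : G.Rel (k, a) (l, b)) (ha : a ∈ G.W k) :
    ∃ γ : E → E, γ a = b ∧ ContDiffAt ℝ ∞ γ a ∧ 0 < (fderiv ℝ γ a).det ∧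
      ∀ᶠ ξ in 𝓝 a, G.Rel (k, ξ) (l, γ ξ) := by
  have _ := ha
  exact Glue1_graph h hr

theorem Glue1_open (h : G.Ok) {U : Set (κ × E)} (hU : IsOpen U) (hs : U ⊆ G.dom) :
    IsOpen (G.f '' U) := by
  have hS : IsOpen {p : κ × E | ∃ a ∈ U, G.Rel p a} := by
    rw [isOpen_iff_mem_nhds]
    rintro ⟨k, b⟩ ⟨⟨l, a⟩, ha, hr⟩
    obtain ⟨γ, h1, h2, -, h4⟩ := Glue1_graph h hr
    have ht : Tendsto (fun ξ => ((l, γ ξ) : κ × E)) (𝓝 b) (𝓝 (l, a)) := by
      have h5 : Tendsto γ (𝓝 b) (𝓝 a) := by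
        have h6 := h2.continuousAt.tendsto
        rw [h1] at h6
        exact h6
      exact tendsto_const_nhds.prodMk_nhds h5
    rw [Glue1_nhds, mem_map]
    filter_upwards [h4, ht.eventually (hU.mem_nhds ha)] with ξ e1 e2
    exact ⟨_, e2, e1⟩
  have e : (Quotient.mk G.setoid) ⁻¹' (G.f '' U) =
      Subtype.val ⁻¹' {p : κ × E | ∃ a ∈ U, G.Rel p a} := by
    ext p
    constructor
    · rintro ⟨a, ha, e1⟩
      rw [← Glue1_val] at e1
      exact ⟨a, ha, (f_eq_iff p.2 (hs ha)).1 e1.symm⟩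
    · rintro ⟨a, ha, e1⟩
      exact ⟨a, ha, ((f_eq_iff p.2 (hs ha)).2 e1).symm.trans (Glue1_val p)⟩
  have h2 : IsOpen ((Quotient.mk G.setoid) ⁻¹' (G.f '' U)) := by
    rw [e]
    exact hS.preimage continuous_subtype_val
  exact isOpen_coinduced.2 h2

theorem Ok.loc (h : G.Ok) (hl : G.LInj) : IsLocalHomeomorphOn G.f G.dom := by
  rw [isLocalHomeomorphOn_iff_isOpenEmbedding_restrict]
  rintro ⟨k, a⟩ ha
  obtain ⟨V, hV, hi⟩ := hl k a ha
  have hU : IsOpen (({k} : Set κ) ×ˢ (interior V ∩ G.W k)) :=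
    (isOpen_discrete _).prod (isOpen_interior.inter (h.opn k))
  have hs : ({k} : Set κ) ×ˢ (interior V ∩ G.W k) ⊆ G.dom := by
    rintro ⟨l, b⟩ ⟨h1, h2⟩
    have h3 : l = k := h1
    subst h3
    exact h2.2
  refine ⟨_, hU.mem_nhds ⟨rfl, mem_interior_iff_mem_nhds.2 hV, ha⟩, ?_⟩
  refine IsOpenEmbedding.of_continuous_injective_isOpenMap
    (Glue1_cont.mono hs).domRestrict ?_ fun s hs' => ?_
  · rintro ⟨⟨l, b⟩, hb⟩ ⟨⟨l', b'⟩, hb'⟩ e
    have e1 := (f_eq_iff (hs hb) (hs hb')).1 e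
    have h3 : l = k := hb.1
    have h4 : l' = k := hb'.1
    subst h3 h4
    have h5 : b = b' := hi b (interior_subset hb.2.1) b' (interior_subset hb'.2.1) e1
    subst h5
    rfl
  · have h6 := Glue1_open h (hU.isOpenMap_subtype_val s hs')
      ((Subtype.coe_image_subset _ s).trans hs)
    rw [image_image] at h6
    exact h6

theorem Ok.loc_k (h : G.Ok) (hl : G.LInj) (k : κ) :
    IsLocalHomeomorphOn (fun a => G.f (k, a)) (G.W k) :=
  (h.loc hl).comp ((Glue1_mk k).isLocalHomeomorph.isLocalHomeomorphOn.mono (subset_univ _))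
    fun _ ha => ha

theorem Ok.tr (h : G.Ok) (k l : κ) : ∀ a ∈ G.W k, ∀ b ∈ G.W l, G.f (k, a) = G.f (l, b) →
    ∃ (γ : E → E) (D : E →L[ℝ] E), γ a = b ∧ HasFDerivAt γ D a ∧ 0 < D.det ∧
      ∀ᶠ ξ in 𝓝 a, G.f (l, γ ξ) = G.f (k, ξ) := by
  intro a ha b hb e
  have hr := (f_eq_iff (a := (k, a)) (b := (l, b)) ha hb).1 e
  obtain ⟨γ, h1, h2, h3, h4⟩ := h.graph hr ha
  refine ⟨γ, fderiv ℝ γ a, h1, (h2.differentiableAt (by simp)).hasFDerivAt, h3, ?_⟩
  filter_upwards [h4, (h.opn k).mem_nhds ha] with ξ e1 e2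
  exact ((f_eq_iff (a := (k, ξ)) e2 (h.rel_dom e1 e2)).2 e1).symm

theorem continuousOn_dom {Y : Type} [TopologicalSpace Y] {F : κ × E → Y}
    (hF : ∀ k, ContinuousOn (fun a => F (k, a)) (G.W k)) : ContinuousOn F G.dom := by
  rintro ⟨k, a⟩ ha
  have h1 := hF k a ha
  have e : 𝓝[G.dom] ((k, a) : κ × E) = map (Prod.mk k) (𝓝[G.W k] a) := by
    unfold nhdsWithin
    rw [Glue1_nhds, ← Filter.push_pull, comap_principal]
    rfl
  unfold ContinuousWithinAt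
  rw [e, tendsto_map'_iff]
  exact h1

theorem Ok.lift (h : G.Ok) {Y : Type} [TopologicalSpace Y] (F : κ × E → Y)
    (hF : ∀ k, ContinuousOn (fun a => F (k, a)) (G.W k))
    (e : ∀ r, ∀ a ∈ G.D r, F (G.src r, a) = F (G.tgt r, G.g r a)) :
    ∃ F' : G.T → Y, Continuous F' ∧ ∀ a ∈ G.dom, F' (G.f a) = F a := by
  have _ := h
  have key : ∀ p q : κ × E, G.Rel p q → F p = F q := by
    intro p q hr
    induction hr with
    | rel p q hpq =>
      obtain ⟨r, h1, h2, h3, h4⟩ := hpq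
      have e1 : p = (G.src r, p.2) := Prod.ext h1 rfl
      have e2 : q = (G.tgt r, G.g r p.2) := Prod.ext h2 h4
      rw [e1, e2]
      exact e r _ h3
    | refl p => rfl
    | symm p q _ ih => exact ih.symm
    | trans p q r _ _ ih1 ih2 => exact ih1.trans ih2
  refine ⟨Quotient.lift (s := G.setoid) (fun p => F p.1) fun p q hr => key _ _ hr,
    Continuous.quotient_lift (continuousOn_dom hF).domRestrict _, fun a ha => ?_⟩
  rw [Glue1_val ⟨a, ha⟩]
  rfl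

end Gl

end HK3
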