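import Pool.Agent.P.MP_9699e0_gt.ArrC
import Pool.Agent.P.MP_9699e0_gt.Glue1

/-! Identifications given by the arrows. -/

set_option autoImplicit false
set_option linter.unusedSectionVars false

noncomputable section

namespace HK3

open Pool.Agent.P.MP_9699e0_gt Set Filter Topology
open scoped ContDiff

variable {n : ℕ}

theorem f0_gam (hn : Odd n) {ξ ξ' : E} (h : ξ ∈ W0) (hr : RG n ξ ξ') : f0 n ξ = f0 n ξ' := by
  obtain ⟨k, e, m, l, rfl⟩ := hr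
  exact (md_ok hn).f_step (.g k e m l) h

theorem f2_trn (hn : Odd n) (i : I4) (e : ℤ) (m : ℤ × ℤ) {α : E} (h : α ∈ W2) :
    f2 n i (trn e m α) = f2 n i α := by
  exact ((md_ok hn).f_step (.t i e m) h).symm

theorem f2_tube (hn : Odd n) (i : I4) (a w : ℂ) (h : Real.exp w.re < ρ) :
    (a, Complex.exp w) ∈ W2 ∧ f2 n i (a, Complex.exp w) = f0 n (tube n i (a, w)) := by
  have e1 : Complex.exp w * Complex.exp (-(w.im * Complex.I)) = (Real.exp w.re : ℝ) := by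
    rw [← Complex.exp_add, Complex.ofReal_exp]
    congr 1
    linear_combination -Complex.re_add_im w
  have hD : (a, Complex.exp w) ∈ (md n).D (.u i w.im) := by
    refine ⟨by rwa [Complex.norm_exp], ?_⟩
    change Complex.exp w * Complex.exp (-(w.im * Complex.I)) ∈ Complex.slitPlane
    rw [e1]
    exact Complex.ofReal_mem_slitPlane.2 (Real.exp_pos _)
  refine ⟨md_dsub n (.u i w.im) hD, ((md_ok hn).f_step (.u i w.im) hD).trans ?_⟩
  change f0 n (tube n i (a, Complex.log (Complex.exp w * Complex.exp (-(w.im * Complex.I))) +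
    w.im * Complex.I)) = _
  rw [e1, ← Complex.ofReal_log (Real.exp_pos _).le, Real.log_exp, Complex.re_add_im]

theorem f3_eq (hn : Odd n) (i c : I4) {b y : ℂ} (hb : b ≠ 0) (h : (b ^ 2, y) ∈ W3) :
    (gi (rep c) + b, y * b) ∈ W2 ∧ ‖b‖ < ρ ∧
      f3 n i c (b ^ 2, y) = f2 n i (gi (rep c) + b, y * b) := by
  have h1 : ‖b‖ < ρ := by
    refine lt_of_pow_lt_pow_left₀ 2 ρ_pos.le ?_
    rw [← norm_pow]
    exact h.1
  have h2 : ‖y * b‖ < ρ := by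
    refine lt_of_pow_lt_pow_left₀ 2 ρ_pos.le ?_
    rw [norm_mul, mul_pow, mul_comm, ← norm_pow b]
    exact h.2
  have hD : (gi (rep c) + b, y * b) ∈ (md n).D (.v i c) :=
    ⟨by rwa [add_sub_cancel_left], h2, fun e => hb (add_eq_left.1 e)⟩
  refine ⟨md_dsub n (.v i c) hD, h1, Eq.trans ?_ ((md_ok hn).f_step (.v i c) hD).symm⟩
  change _ = f3 n i c ((gi (rep c) + b - gi (rep c)) ^ 2, y * b / (gi (rep c) + b - gi (rep c)))
  rw [add_sub_cancel_left, mul_div_cancel_right₀ _ hb]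

theorem f4_eq (hn : Odd n) (i c : I4) {x z : ℂ} (hz : z ≠ 0) (h : (x, z ^ 2) ∈ W4) :
    (gi (rep c) + x * z, z) ∈ W2 ∧ ‖x * z‖ < ρ ∧
      f4 n i c (x, z ^ 2) = f2 n i (gi (rep c) + x * z, z) := by
  have h1 : ‖z‖ < ρ := by
    refine lt_of_pow_lt_pow_left₀ 2 ρ_pos.le ?_
    rw [← norm_pow]
    exact h.1
  have h2 : ‖x * z‖ < ρ := by
    refine lt_of_pow_lt_pow_left₀ 2 ρ_pos.le ?_
    rw [norm_mul, mul_pow, ← norm_pow z]
    exact h.2
  have hD : (gi (rep c) + x * z, z) ∈ (md n).D (.w i c) :=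
    ⟨by rwa [add_sub_cancel_left], h1, hz⟩
  refine ⟨md_dsub n (.w i c) hD, h2, Eq.trans ?_ ((md_ok hn).f_step (.w i c) hD).symm⟩
  change _ = f4 n i c ((gi (rep c) + x * z - gi (rep c)) / z, z ^ 2)
  rw [add_sub_cancel_left, mul_div_cancel_right₀ _ hz]

theorem f3_f4 (hn : Odd n) (i c : I4) {p : E} (h : p ∈ W3) (hp : p.2 ≠ 0) :
    (p.2⁻¹, p.1 * p.2 ^ 2) ∈ W4 ∧ f3 n i c p = f4 n i c (p.2⁻¹, p.1 * p.2 ^ 2) := by
  have hD : p ∈ (md n).D (.x i c) := ⟨h, hp⟩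
  exact ⟨md_maps hn (.x i c) hD, (md_ok hn).f_step (.x i c) hD⟩

theorem f2_mem_Ec (hn : Odd n) (i c : I4) {α : E} (h : α ∈ W2) (hc : ‖α.1 - gi (rep c)‖ < ρ) :
    f2 n i α ∈ Ec n i c := by
  by_cases h1 : α.1 = gi (rep c)
  · have hD : α ∈ (md n).D (.w i c) := ⟨hc, h.1, fun e => h.2 e _ h1⟩
    exact .inr ⟨_, md_maps hn (.w i c) hD, ((md_ok hn).f_step (.w i c) hD).symm⟩
  · have hD : α ∈ (md n).D (.v i c) := ⟨hc, h.1, h1⟩
    exact .inl ⟨_, md_maps hn (.v i c) hD, ((md_ok hn).f_step (.v i c) hD).symm⟩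

theorem xx_cases (x : XX n) : (∃ ξ ∈ W0, x = f0 n ξ) ∨ (∃ i, ∃ α ∈ W2, x = f2 n i α) ∨
    (∃ i c, ∃ p ∈ W3, x = f3 n i c p) ∨ ∃ i c, ∃ p ∈ W4, x = f4 n i c p := by
  obtain ⟨⟨k, a⟩, ha, rfl⟩ := Gl.f_surj x
  cases k with
  | o => exact .inl ⟨a, ha, rfl⟩
  | n i => exact .inr (.inl ⟨i, a, ha, rfl⟩)
  | a i c => exact .inr (.inr (.inl ⟨i, c, a, ha, rfl⟩))
  | b i c => exact .inr (.inr (.inr ⟨i, c, a, ha, rfl⟩))

end HK3
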