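import Pool.Agent.P.MP_9699e0_gt.ArrC
import Pool.Agent.P.MP_9699e0_gt.RelB2

/-! Construction of functions on the manifold. -/

set_option autoImplicit false
set_option linter.unusedSectionVars false

noncomputable section

namespace HK3

open Pool.Agent.P.MP_9699e0_gt Set Filter Topology
open scoped ContDiff

/-- A chosen square root. -/
def FunM_rt (z : ℂ) : ℂ := (IsAlgClosed.exists_pow_nat_eq z two_pos).choose

theorem FunM_rt_spec (z : ℂ) : FunM_rt z ^ 2 = z :=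
  (IsAlgClosed.exists_pow_nat_eq z two_pos).choose_spec

theorem FunM_rt_cases (b : ℂ) : FunM_rt (b ^ 2) = b ∨ FunM_rt (b ^ 2) = -b :=
  sq_eq_sq_iff_eq_or_eq_neg.1 (FunM_rt_spec (b ^ 2))

theorem FunM_desc {Y : Type} [TopologicalSpace Y] {π : E → E} (hπ : IsOpenQuotientMap π)
    {W : Set E} (hW : IsOpen W) {H G : E → Y} (hG : ContinuousOn G (π ⁻¹' W))
    (e : ∀ x, π x ∈ W → H (π x) = G x) : ContinuousOn H W := by
  intro p hp
  obtain ⟨x, rfl⟩ := hπ.surjective p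
  have h1 : π ⁻¹' W ∈ 𝓝 x := (hW.preimage hπ.continuous).mem_nhds hp
  refine (hπ.continuousAt_comp_iff.1 ?_).continuousWithinAt
  refine (hG.continuousAt h1).congr ?_
  filter_upwards [h1] with y hy
  exact (e y hy).symm

theorem FunM_lt3 {b y : ℂ} (h : (b ^ 2, y) ∈ W3) : ‖y * b‖ < ρ := by
  refine lt_of_pow_lt_pow_left₀ 2 ρ_pos.le ?_
  rw [norm_mul, mul_pow, mul_comm, ← norm_pow b]
  exact h.2

theorem FunM_lt4 {x z : ℂ} (h : (x, z ^ 2) ∈ W4) : ‖z‖ < ρ := by
  refine lt_of_pow_lt_pow_left₀ 2 ρ_pos.le ?_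
  rw [← norm_pow]
  exact h.1

theorem FunM_flip {Y : Type} {F2 : I4 → E → Y}
    (ht : ∀ i e m α, ‖α.2‖ < ρ → F2 i (trn e m α) = F2 i α) (i c : I4) (u z : ℂ) (h : ‖z‖ < ρ) :
    F2 i (gi (rep c) + -u, -z) = F2 i (gi (rep c) + u, z) := by
  rw [← ht i 1 (rep c) (gi (rep c) + u, z) h]
  congr 1
  unfold trn
  rw [sg_one]
  refine Prod.ext ?_ ?_
  · push_cast
    ring
  · push_cast
    ring

theorem FunM_e3 {Y : Type} {F2 : I4 → E → Y}
    (ht : ∀ i e m α, ‖α.2‖ < ρ → F2 i (trn e m α) = F2 i α) (i c : I4) {b y : ℂ}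
    (h : (b ^ 2, y) ∈ W3) :
    F2 i (gi (rep c) + FunM_rt (b ^ 2), y * FunM_rt (b ^ 2)) = F2 i (gi (rep c) + b, y * b) := by
  rcases FunM_rt_cases b with e | e
  · rw [e]
  · rw [e, mul_neg]
    exact FunM_flip ht i c b (y * b) (FunM_lt3 h)

theorem FunM_e4 {Y : Type} {F2 : I4 → E → Y}
    (ht : ∀ i e m α, ‖α.2‖ < ρ → F2 i (trn e m α) = F2 i α) (i c : I4) {x z : ℂ}
    (h : (x, z ^ 2) ∈ W4) :
    F2 i (gi (rep c) + x * FunM_rt (z ^ 2), FunM_rt (z ^ 2)) = F2 i (gi (rep c) + x * z, z) := by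
  rcases FunM_rt_cases z with e | e
  · rw [e]
  · rw [e, mul_neg]
    exact FunM_flip ht i c (x * z) z (FunM_lt4 h)

/-- The function on the disjoint union of the pieces. -/
def FunM_F {Y : Type} (F0 : E → Y) (F2 : I4 → E → Y) : K × E → Y
  | (.o, ξ) => F0 ξ
  | (.n i, α) => F2 i α
  | (.a i c, p) => F2 i (gi (rep c) + FunM_rt p.1, p.2 * FunM_rt p.1)
  | (.b i c, p) => F2 i (gi (rep c) + p.1 * FunM_rt p.2, FunM_rt p.2)

theorem exists_desc {n : ℕ} (hn : Odd n) {Y : Type} [TopologicalSpace Y] (F0 : E → Y)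
    (F2 : I4 → E → Y) (h0 : ContinuousOn F0 W0) (h2 : ∀ i, ContinuousOn (F2 i) {α | ‖α.2‖ < ρ})
    (hg : ∀ k e m l, ∀ ξ ∈ W0, F0 (gam n k e m l ξ) = F0 ξ)
    (ht : ∀ i e m α, ‖α.2‖ < ρ → F2 i (trn e m α) = F2 i α)
    (hu : ∀ i (a w : ℂ), Real.exp w.re < ρ → F0 (tube n i (a, w)) = F2 i (a, Complex.exp w)) :
    ∃ F, Desc n F F0 F2 := by
  have hq := Complex.isOpenQuotientMap_pow 2
  have hc : ∀ k, ContinuousOn (fun a => FunM_F F0 F2 (k, a)) ((md n).W k) := by
    intro k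
    cases k with
    | o => exact h0
    | n i => exact (h2 i).mono fun α hα => hα.1
    | a i c =>
      refine FunM_desc (hq.prodMap (IsOpenQuotientMap.id (X := ℂ))) (md_opn n (.a i c))
        (G := fun x => F2 i (gi (rep c) + x.1, x.2 * x.1)) ?_ fun x hx => FunM_e3 ht i c hx
      exact (h2 i).comp (f := fun x : E => ((gi (rep c) + x.1, x.2 * x.1) : E)) (by fun_prop)
        fun x hx => FunM_lt3 hx
    | b i c =>
      refine FunM_desc ((IsOpenQuotientMap.id (X := ℂ)).prodMap hq) (md_opn n (.b i c))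
        (G := fun x => F2 i (gi (rep c) + x.1 * x.2, x.2)) ?_ fun x hx => FunM_e4 ht i c hx
      exact (h2 i).comp (f := fun x : E => ((gi (rep c) + x.1 * x.2, x.2) : E)) (by fun_prop)
        fun x hx => FunM_lt4 (x := x.1) hx
  have he : ∀ r, ∀ a ∈ (md n).D r,
      FunM_F F0 F2 ((md n).src r, a) = FunM_F F0 F2 ((md n).tgt r, (md n).g r a) := by
    intro r α hα
    cases r with
    | g k e m l => exact (hg k e m l α hα).symm
    | t i e m => exact (ht i e m α hα.1).symm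
    | u i ϑ =>
      have h1 := Complex.slitPlane_ne_zero hα.2
      have h3 : Complex.exp (Complex.log (α.2 * Complex.exp (-(ϑ * Complex.I))) + ϑ * Complex.I) =
          α.2 := by
        rw [Complex.exp_add, Complex.exp_log h1, mul_assoc, ← Complex.exp_add, neg_add_cancel,
          Complex.exp_zero, mul_one]
      have h4 := hu i α.1 (Complex.log (α.2 * Complex.exp (-(ϑ * Complex.I))) + ϑ * Complex.I) (by
        rw [← Complex.norm_exp, h3]
        exact hα.1)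
      rw [h3] at h4
      exact h4.symm
    | v i c =>
      have h1 : α.1 - gi (rep c) ≠ 0 := sub_ne_zero.2 hα.2.2
      have h3 := FunM_e3 ht i c (b := α.1 - gi (rep c)) (y := α.2 / (α.1 - gi (rep c)))
        (md_maps hn (.v i c) hα)
      rw [add_sub_cancel, div_mul_cancel₀ _ h1] at h3
      exact h3.symm
    | w i c =>
      have h1 : α.2 ≠ 0 := hα.2.2
      have h3 := FunM_e4 ht i c (x := (α.1 - gi (rep c)) / α.2) (z := α.2)
        (md_maps hn (.w i c) hα)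
      rw [div_mul_cancel₀ _ h1, add_sub_cancel] at h3
      exact h3.symm
    | x i c =>
      have h1 : α.2 ≠ 0 := hα.2
      have h3 : α.1 * α.2 ^ 2 = (α.2 * FunM_rt α.1) ^ 2 := by
        rw [mul_pow, FunM_rt_spec, mul_comm]
      have h4 : (α.2⁻¹, α.1 * α.2 ^ 2) ∈ W4 := md_maps hn (.x i c) hα
      rw [h3] at h4
      have h5 := FunM_e4 ht i c h4
      rw [← mul_assoc, inv_mul_cancel₀ h1, one_mul, ← h3] at h5
      exact h5.symm
  obtain ⟨F, hF, e⟩ := (md_ok hn).lift (FunM_F F0 F2) hc he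
  exact ⟨F, hF, fun ξ h => e (.o, ξ) h, fun i α h => e (.n i, α) h,
    fun i c b y h => (e (.a i c, (b ^ 2, y)) h).trans (FunM_e3 ht i c h),
    fun i c x z h => (e (.b i c, (x, z ^ 2)) h).trans (FunM_e4 ht i c h)⟩

end HK3
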