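import Pool.Agent.P.MP_9699e0_gt.MDefs

/-! The lattice of classes. -/

set_option autoImplicit false
set_option linter.unusedSectionVars false

noncomputable section

namespace HK3

open Pool.Agent.P.MP_9699e0_gt Set Filter Topology
open scoped ContDiff

/-- Index set of the generators. -/
abbrev GI : Type := (I4 × I4) ⊕ HI

/-- Twice a generator in terms of the basic classes. -/
def dbl : GI → GI → ℤ
  | .inl j, .inl j' => if j = j' then 2 else 0
  | .inl _, .inr _ => 0
  | .inr b, .inl j => if inK b j then -1 else 0
  | .inr b, .inr b' => if b = b' then 1 else 0

/-- The intersection numbers of the basic classes. -/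
def G0 : GI → GI → ℤ
  | .inl j, .inl j' => if j = j' then -2 else 0
  | .inr b, .inr b' => gG b b'
  | _, _ => 0

end HK3
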