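import Pool.Agent.P.MP_9699e0_gt.MDefs2

/-! The rotation exists. -/

set_option autoImplicit false
set_option linter.unusedSectionVars false

noncomputable section

namespace HK3

open Pool.Agent.P.MP_9699e0_gt Set Filter Topology
open scoped ContDiff

variable {n : ℕ}

theorem GactA_lat (t : ℝ) (m : ℤ × ℤ) : ∃ m', β t m = β (t + 2) (m + 2 • m') := by
  obtain ⟨m', hm⟩ := β_shift 2 t m
  have h1 : cj 2 (β t m) = β t m := by
    have h2 : sg 2 = 1 := by
      unfold sg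
      norm_num
    unfold cj
    rw [h2, one_mul]
  rw [h1] at hm
  exact ⟨m', by exact_mod_cast hm⟩

theorem GactA_neg (s : ℝ) : ex (-s) = (ex s)⁻¹ := by
  refine eq_inv_of_mul_eq_one_left ?_
  rw [← ex_add, neg_add_cancel, ex_zero]

theorem W0_two {ξ : E} (h : ξ ∈ W0) : (ξ.1, ξ.2 + 2 * Complex.I) ∈ W0 :=
  RelAmem (by rw [rr_two]; exact rr_pos h)

theorem RG_two (hn : Odd n) {ξ ξ' : E} (h : RG n ξ ξ') :
    RG n (ξ.1, ξ.2 + 2 * Complex.I) (ξ'.1, ξ'.2 + 2 * Complex.I) := by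
  have _ := hn
  obtain ⟨k, e, m, l, rfl⟩ := h
  obtain ⟨m', hm⟩ := GactA_lat (ξ.2.im + n * k) m
  refine ⟨k, e, m + 2 • m', l, ?_⟩
  have h1 : (ξ.2 + 2 * Complex.I).im + n * k = ξ.2.im + n * k + 2 := by
    simp only [Complex.add_im, Complex.mul_im, Complex.re_ofNat, Complex.I_im, mul_one,
      Complex.im_ofNat, Complex.I_re, mul_zero, add_zero]
    ring
  unfold gam
  refine Prod.ext ?_ (Complex.ext ?_ ?_)
  · dsimp only
    rw [h1, ← hm]
  · simp
  · dsimp only
    rw [h1]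
    simp

theorem gk_dom : MapsTo (gk n) (md n).dom (md n).dom := by
  rintro ⟨k, a⟩ ha
  cases k with
  | o => exact W0_two ha
  | n i =>
    have h : a ∈ W2 := ha
    refine ⟨?_, fun h0 => h.2 ((mul_eq_zero.1 h0).resolve_left (ex_ne _))⟩
    change ‖ex (1 / n) * a.2‖ < ρ
    rw [norm_mul, norm_ex, one_mul]
    exact h.1
  | a i c =>
    have h : a ∈ W3 := ha
    refine ⟨h.1, ?_⟩
    change ‖a.1‖ * ‖ex (1 / n) * a.2‖ ^ 2 < ρ ^ 2
    rw [norm_mul, norm_ex, one_mul]
    exact h.2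
  | b i c =>
    have h : a ∈ W4 := ha
    constructor
    · change ‖ex (1 / n) ^ 2 * a.2‖ < ρ ^ 2
      rw [norm_mul, norm_pow, norm_ex, one_pow, one_mul]
      exact h.1
    · change ‖ex (-(1 / n)) * a.1‖ ^ 2 * ‖ex (1 / n) ^ 2 * a.2‖ < ρ ^ 2
      rw [norm_mul, norm_mul, norm_pow, norm_ex, norm_ex, one_pow, one_mul, one_mul]
      exact h.2

theorem continuous_gk : Continuous (gk n) := by
  rw [continuous_prod_of_discrete_left]
  intro k
  cases k with
  | o =>
    change Continuous fun ξ : E => ((K.o, (ξ.1, ξ.2 + 2 * Complex.I)) : K × E)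
    fun_prop
  | n i =>
    change Continuous fun α : E => ((K.n i, (α.1, ex (1 / n) * α.2)) : K × E)
    fun_prop
  | a i c =>
    change Continuous fun p : E => ((K.a i c, (p.1, ex (1 / n) * p.2)) : K × E)
    fun_prop
  | b i c =>
    change Continuous fun p : E =>
      ((K.b i c, (ex (-(1 / n)) * p.1, ex (1 / n) ^ 2 * p.2)) : K × E)
    fun_prop

theorem GactA_tube (hn : Odd n) (i : I4) (a w : ℂ) (h : Real.exp w.re < ρ) :
    f2 n i (a, ex (1 / n) * Complex.exp w) =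
      f0 n ((tube n i (a, w)).1, (tube n i (a, w)).2 + 2 * Complex.I) := by
  have hn0 : (n : ℝ) ≠ 0 := by exact_mod_cast hn.pos.ne'
  set w' : ℂ := w + ((2 * Real.pi * (1 / n) : ℝ) : ℂ) * Complex.I with hw'
  have h1 : w'.re = w.re := by
    rw [hw', Complex.add_re, Complex.re_ofReal_mul, Complex.I_re, mul_zero, add_zero]
  have h2 : n * w'.im / Real.pi = n * w.im / Real.pi + 2 := by
    rw [hw', Complex.add_im, Complex.im_ofReal_mul, Complex.I_im, mul_one]
    field_simp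
  have h3 : ex (1 / n) * Complex.exp w = Complex.exp w' := by
    rw [hw', Complex.exp_add, mul_comm]
    unfold ex
    push_cast
    rfl
  have h4 : Real.exp w'.re < ρ := by rwa [h1]
  obtain ⟨m', hm⟩ := GactA_lat (n * w.im / Real.pi) (rep i)
  rw [h3, (f2_tube hn i a w' h4).2,
    f0_gam hn (tube_mem i (α := (a, w')) h4) (RG_of_zero 0 m' 0 _)]
  congr 1
  unfold tube
  refine Prod.ext ?_ (Complex.ext ?_ ?_)
  · dsimp only
    rw [h1, h2, hm, β_add, β_two, sg_zero]
    push_cast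
    ring
  · simp
  · dsimp only
    rw [h2]
    simp

theorem exists_g (hn : Odd n) : ∃ g, IsG n g := by
  have he := ex_ne (1 / n : ℝ)
  have hnorm : ∀ z : ℂ, ‖ex (1 / n) * z‖ = ‖z‖ := fun z => by rw [norm_mul, norm_ex, one_mul]
  obtain ⟨g, hg, hg'⟩ := (md_ok hn).lift (fun a => (md n).f (gk n a))
    (fun k => Gl.Glue1_cont.comp (continuous_gk.comp (Continuous.prodMk_right k)).continuousOn
      fun a ha => gk_dom ha) (by
    intro r a ha
    cases r with
    | g k e m l => exact f0_gam hn (W0_two ha) (RG_two hn ⟨k, e, m, l, rfl⟩)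
    | t i e m =>
      have h1 : (a.1, ex (1 / n) * a.2) ∈ W2 := gk_dom (n := n) (x := (K.n i, a)) ha
      refine (f2_trn hn i e m h1).symm.trans ?_
      change f2 n i _ = f2 n i ((trn e m a).1, ex (1 / n) * (trn e m a).2)
      congr 1
      unfold trn
      refine Prod.ext rfl ?_
      dsimp only
      ring
    | u i ϑ =>
      have h1 : a.2 * Complex.exp (-(ϑ * Complex.I)) ≠ 0 := Complex.slitPlane_ne_zero ha.2
      have h2 : Complex.exp (Complex.log (a.2 * Complex.exp (-(ϑ * Complex.I))) +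
          ϑ * Complex.I) = a.2 := by
        rw [Complex.exp_add, Complex.exp_log h1, mul_assoc, ← Complex.exp_add, neg_add_cancel,
          Complex.exp_zero, mul_one]
      have h3 := GactA_tube hn i a.1 _ (Sets_exp h2 ha.1)
      rw [h2] at h3
      exact h3
    | v i c =>
      have h1 : (a.1, ex (1 / n) * a.2) ∈ (md n).D (.v i c) :=
        ⟨ha.1, by rw [hnorm]; exact ha.2.1, ha.2.2⟩
      refine ((md_ok hn).f_step (.v i c) h1).trans ?_
      change f3 n i c ((a.1 - gi (rep c)) ^ 2, ex (1 / n) * a.2 / (a.1 - gi (rep c))) =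
        f3 n i c ((a.1 - gi (rep c)) ^ 2, ex (1 / n) * (a.2 / (a.1 - gi (rep c))))
      rw [mul_div_assoc]
    | w i c =>
      have h1 : (a.1, ex (1 / n) * a.2) ∈ (md n).D (.w i c) :=
        ⟨ha.1, by rw [hnorm]; exact ha.2.1, mul_ne_zero he ha.2.2⟩
      refine ((md_ok hn).f_step (.w i c) h1).trans ?_
      change f4 n i c ((a.1 - gi (rep c)) / (ex (1 / n) * a.2), (ex (1 / n) * a.2) ^ 2) =
        f4 n i c (ex (-(1 / n)) * ((a.1 - gi (rep c)) / a.2), ex (1 / n) ^ 2 * a.2 ^ 2)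
      rw [GactA_neg, mul_pow, div_mul_eq_div_div_swap, div_eq_inv_mul _ (ex _)]
    | x i c =>
      have h1 : (a.1, ex (1 / n) * a.2) ∈ (md n).D (.x i c) :=
        ⟨gk_dom (n := n) (x := (K.a i c, a)) ha.1, mul_ne_zero he ha.2⟩
      refine ((md_ok hn).f_step (.x i c) h1).trans ?_
      change f4 n i c ((ex (1 / n) * a.2)⁻¹, a.1 * (ex (1 / n) * a.2) ^ 2) =
        f4 n i c (ex (-(1 / n)) * a.2⁻¹, ex (1 / n) ^ 2 * (a.1 * a.2 ^ 2))
      rw [GactA_neg, mul_inv, mul_pow, mul_left_comm])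
  exact ⟨g, hg, hg'⟩

theorem IsG.smooth {g : XX n → XX n} (h : IsG n g) (k : K) : ∀ a ∈ (md n).W k,
    ∃ (l : K) (γ : E → E), ContDiffAt ℝ ∞ γ a ∧ γ a ∈ (md n).W l ∧
      ∀ᶠ ξ in 𝓝 a, g ((md n).f (k, ξ)) = (md n).f (l, γ ξ) := by
  intro a ha
  have h1 : ∀ ξ, gk n (k, ξ) = (k, (gk n (k, ξ)).2) := fun ξ => by cases k <;> rfl
  refine ⟨k, fun ξ => (gk n (k, ξ)).2, ?_, ?_, ?_⟩
  · cases k with
    | o =>
      change ContDiffAt ℝ ∞ (fun ξ : E => ((ξ.1, ξ.2 + 2 * Complex.I) : E)) a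
      fun_prop
    | n i =>
      change ContDiffAt ℝ ∞ (fun α : E => ((α.1, ex (1 / n) * α.2) : E)) a
      fun_prop
    | a i c =>
      change ContDiffAt ℝ ∞ (fun p : E => ((p.1, ex (1 / n) * p.2) : E)) a
      fun_prop
    | b i c =>
      change ContDiffAt ℝ ∞
        (fun p : E => ((ex (-(1 / n)) * p.1, ex (1 / n) ^ 2 * p.2) : E)) a
      fun_prop
  · have h2 : gk n (k, a) ∈ (md n).dom := gk_dom (x := (k, a)) ha
    rw [h1] at h2
    exact h2
  · filter_upwards [(md_opn n k).mem_nhds ha] with ξ hξ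
    rw [h.eq (k, ξ) hξ, ← h1]

end HK3
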