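import Pool.Agent.P.MP_9699e0_gt.MDefs

/-! A complete invariant of the gluing relation. -/

set_option autoImplicit false
set_option linter.unusedSectionVars false

noncomputable section

namespace HK3

open Pool.Agent.P.MP_9699e0_gt Set Filter Topology
open scoped ContDiff

/-- A square root. -/
def sq (z : ℂ) : ℂ := (IsAlgClosed.exists_pow_nat_eq z two_pos).choose

theorem sq_spec (z : ℂ) : sq z ^ 2 = z := (IsAlgClosed.exists_pow_nat_eq z two_pos).choose_spec

/-- The orbit relation on a binding sphere. -/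
def RT (a a' : ℂ) : Prop := ∃ (e : ℤ) (m : ℤ × ℤ), a' = sg e * a + 2 * gi m

/-- Labels. -/
abbrev Lab (n : ℕ) : Type := Quot (RG n) ⊕ (I4 × Quot RT) ⊕ (I4 × I4 × Option ℂ)

open Classical in
/-- The label of a point near a binding. -/
def lab2 (n : ℕ) (i : I4) (α : E) : Lab n :=
  if α.2 = 0 then .inr (.inl (i, Quot.mk _ α.1))
  else .inl (Quot.mk _ (tube n i (α.1, Complex.log α.2)))

open Classical in
/-- The label of a point. -/
def lab (n : ℕ) : K × E → Lab n
  | (.o, ξ) => .inl (Quot.mk _ ξ)
  | (.n i, α) => lab2 n i α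
  | (.a i c, p) => if p.1 = 0 then .inr (.inr (i, c, some p.2))
      else lab2 n i (gi (rep c) + sq p.1, p.2 * sq p.1)
  | (.b i c, p) => if p.2 = 0 then .inr (.inr (i, c, if p.1 = 0 then none else some p.1⁻¹))
      else lab2 n i (gi (rep c) + p.1 * sq p.2, sq p.2)

end HK3
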