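import Pool.Agent.P.MP_9699e0_gt.GactA
import Pool.Agent.P.MP_9699e0_gt.FnA
import Pool.Agent.P.MP_9699e0_gt.LabDefs

/-! The order of the rotation and invariant functions. -/

set_option autoImplicit false
set_option linter.unusedSectionVars false

noncomputable section

namespace HK3

open Pool.Agent.P.MP_9699e0_gt Set Filter Topology
open scoped ContDiff

variable {n : ℕ} {g : XX n → XX n}

theorem GactB_pow (s : ℝ) (k : ℕ) : ex s ^ k = ex (k * s) := by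
  induction k with
  | zero => simp [ex_zero]
  | succ k ih => rw [pow_succ, ih, ← ex_add, Nat.cast_succ, add_mul, one_mul]

theorem GactB_sg : sg 2 = 1 := by
  rw [show (2 : ℤ) = 1 + 1 from rfl, sg_add, sg_mul_self]

theorem GactB_cj (y : ℂ) : cj 2 y = y := by
  simp [cj, GactB_sg]

theorem GactB_iter (h : IsG n g) (k : ℕ) {a : K × E} (ha : a ∈ (md n).dom) :
    g^[k] ((md n).f a) = (md n).f ((gk n)^[k] a) := by
  induction k with
  | zero => rfl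
  | succ k ih =>
    rw [Function.iterate_succ_apply', Function.iterate_succ_apply', ih, h.eq _ (gk_dom.iterate k ha)]

theorem GactB_o (k : ℕ) (ξ : E) :
    (gk n)^[k] (.o, ξ) = (.o, (ξ.1, ξ.2 + k * (2 * Complex.I))) := by
  induction k with
  | zero => simp
  | succ k ih => rw [Function.iterate_succ_apply', ih, gk, Nat.cast_succ, add_mul, one_mul, add_assoc]

theorem GactB_n (k : ℕ) (i : I4) (α : E) :
    (gk n)^[k] (.n i, α) = (.n i, (α.1, ex (1 / n) ^ k * α.2)) := by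
  induction k with
  | zero => simp
  | succ k ih => rw [Function.iterate_succ_apply', ih, gk, pow_succ', mul_assoc]

theorem GactB_a (k : ℕ) (i c : I4) (p : E) :
    (gk n)^[k] (.a i c, p) = (.a i c, (p.1, ex (1 / n) ^ k * p.2)) := by
  induction k with
  | zero => simp
  | succ k ih => rw [Function.iterate_succ_apply', ih, gk, pow_succ', mul_assoc]

theorem GactB_b (k : ℕ) (i c : I4) (p : E) : (gk n)^[k] (.b i c, p) =
    (.b i c, (ex (-(1 / n)) ^ k * p.1, (ex (1 / n) ^ k) ^ 2 * p.2)) := by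
  induction k with
  | zero => simp
  | succ k ih =>
    rw [Function.iterate_succ_apply', ih, gk, pow_succ' (ex (-(1 / n))), pow_succ' (ex (1 / n)) k,
      mul_pow, mul_assoc, mul_assoc]

theorem GactB_cases (h : IsG n g) (x : XX n) :
    (∃ ξ ∈ W0, x = f0 n ξ ∧ g x = f0 n (ξ.1, ξ.2 + 2 * Complex.I)) ∨ ∃ (i : I4) (α : E),
      ∀ (Y : Type) [TopologicalSpace Y] (F : XX n → Y) (F0 : E → Y) (F2 : I4 → E → Y),
        Desc n F F0 F2 → F x = F2 i α ∧ F (g x) = F2 i (α.1, ex (1 / n) * α.2) := by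
  rcases xx_cases x with ⟨ξ, hξ, rfl⟩ | ⟨i, α, hα, rfl⟩ | ⟨i, c, ⟨b, y⟩, hp, rfl⟩ |
    ⟨i, c, ⟨y, z⟩, hp, rfl⟩
  · exact .inl ⟨ξ, hξ, rfl, h.eq (.o, ξ) hξ⟩
  · exact .inr ⟨i, α, fun Y _ F F0 F2 d => ⟨d.e2 i α hα,
      (congrArg F (h.eq (.n i, α) hα)).trans (d.e2 i _ (gk_dom (n := n) (x := (.n i, α)) hα))⟩⟩
  · obtain ⟨b, rfl⟩ : ∃ b' : ℂ, b = b' ^ 2 := ⟨sq b, (sq_spec b).symm⟩
    refine .inr ⟨i, (gi (rep c) + b, y * b), fun Y _ F F0 F2 d => ⟨d.e3 i c b y hp,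
      (congrArg F (h.eq (.a i c, b ^ 2, y) hp)).trans
        ((d.e3 i c b _ (gk_dom (n := n) (x := (.a i c, b ^ 2, y)) hp)).trans ?_)⟩⟩
    rw [mul_assoc]
  · obtain ⟨z, rfl⟩ : ∃ z' : ℂ, z = z' ^ 2 := ⟨sq z, (sq_spec z).symm⟩
    have h1 : (ex (-(1 / n)) * y, ex (1 / n) ^ 2 * z ^ 2) ∈ W4 :=
      gk_dom (n := n) (x := (.b i c, y, z ^ 2)) hp
    have h2 : g (f4 n i c (y, z ^ 2)) = f4 n i c (ex (-(1 / n)) * y, ex (1 / n) ^ 2 * z ^ 2) :=
      h.eq (.b i c, y, z ^ 2) hp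
    rw [← mul_pow] at h1 h2
    refine .inr ⟨i, (gi (rep c) + y * z, z), fun Y _ F F0 F2 d => ⟨d.e4 i c y z hp, ?_⟩⟩
    rw [h2, d.e4 i c _ _ h1, mul_mul_mul_comm, ← ex_add, neg_add_cancel, ex_zero, one_mul]

theorem GactB_inv (h : IsG n g) {Y : Type} [TopologicalSpace Y] {F : XX n → Y} {F0 : E → Y}
    {F2 : I4 → E → Y} (d : Desc n F F0 F2)
    (h0 : ∀ ξ : E, F0 (ξ.1, ξ.2 + 2 * Complex.I) = F0 ξ)
    (h2 : ∀ (i : I4) (α : E), F2 i (α.1, ex (1 / n) * α.2) = F2 i α) (x : XX n) :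
    F (g x) = F x := by
  rcases GactB_cases h x with ⟨ξ, hξ, e, e'⟩ | ⟨i, α, e⟩
  · rw [e', e, d.e0 _ (W0_two hξ), d.e0 _ hξ, h0]
  · rw [(e Y F F0 F2 d).1, (e Y F F0 F2 d).2, h2]

theorem GactB_psi (F : Fns n) (a : Fin 3) (ξ : E) :
    F.ψ a ξ.1 (ξ.2 + 2 * Complex.I).im = F.ψ a ξ.1 ξ.2.im := by
  simpa [GactB_cj] using F.psi.cj a 2 ξ.1 ξ.2.im

theorem IsG.iter_self (hn : Odd n) (h : IsG n g) : g^[n] = id := by
  have h0 : (n : ℝ) ≠ 0 := Nat.cast_ne_zero.2 hn.pos.ne'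
  have e1 : ex (1 / n) ^ n = 1 := by
    rw [GactB_pow, mul_one_div_cancel h0]
    simpa using ex_int 1
  have e2 : ex (-(1 / n)) ^ n = 1 := by
    rw [ex_neg, ← map_pow, e1, map_one]
  funext x
  obtain ⟨⟨k, ξ⟩, ha, rfl⟩ := Gl.f_surj x
  rw [GactB_iter h n ha, id]
  cases k with
  | o =>
    rw [GactB_o]
    refine (f0_gam hn ha ⟨2, 0, 0, 0, ?_⟩).symm
    simp [gam, GactB_cj, GactB_sg, sg_zero, β_zero, Complex.ext_iff]
  | n i => rw [GactB_n, e1, one_mul]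
  | a i c => rw [GactB_a, e1, one_mul]
  | b i c => rw [GactB_b, e1, e2, one_pow, one_mul, one_mul]

theorem IsG.Z_eq (h : IsG n g) (F : Fns n) (x : XX n) : F.Z (g x) = ex (1 / n) ^ 2 * F.Z x := by
  rcases GactB_cases h x with ⟨ξ, hξ, e, e'⟩ | ⟨i, α, e⟩
  · have e1 : (ξ.2 + 2 * Complex.I).im / (2 * n) = 1 / n + ξ.2.im / (2 * n) := by
      simp only [Complex.add_im, Complex.mul_im, Complex.re_ofNat, Complex.im_ofNat, Complex.I_re,
        Complex.I_im]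
      ring
    rw [e', e, F.hZ.e0 _ (W0_two hξ), F.hZ.e0 _ hξ]
    simp only [σL]
    rw [rr_two, e1, ex_add]
    ring
  · rw [(e _ _ _ _ F.hZ).1, (e _ _ _ _ F.hZ).2, mul_pow]

theorem IsG.C_eq (h : IsG n g) (F : Fns n) (x : XX n) : F.C (g x) = F.C x :=
  GactB_inv h F.hC (fun ξ => by simp) (fun _ _ => rfl) x

theorem IsG.P_eq (h : IsG n g) (F : Fns n) (a : Fin 3) (x : XX n) : F.P a (g x) = F.P a x :=
  GactB_inv h (F.hP a) (fun ξ => congrArg Complex.re (GactB_psi F a ξ)) (fun _ _ => rfl) x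

theorem IsG.Q_eq (h : IsG n g) (F : Fns n) (a : Fin 3) (x : XX n) : F.Q a (g x) = F.Q a x := by
  refine GactB_inv h (F.hQ a) (fun ξ => ?_) (fun _ _ => rfl) x
  simp only [ζ0]
  rw [GactB_psi]
  simp

theorem IsG.R_eq (h : IsG n g) (F : Fns n) (i : I4) (x : XX n) : F.R i (g x) = F.R i x := by
  refine GactB_inv h (F.hR i) (fun ξ => ?_) (fun j α => ?_) x
  · simpa [GactB_cj] using rc_cj i 2 ξ.1 ξ.2 (ξ.2 + 2 * Complex.I) (by simp)
  · simp only [norm_mul, norm_ex, one_mul]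

theorem IsG.iter_iff (hn : Odd n) (h : IsG n g) (F : Fns n) (k : ℕ) : g^[k] = id ↔ n ∣ k := by
  refine ⟨fun e => ?_, ?_⟩
  · have h0 : (n : ℝ) ≠ 0 := Nat.cast_ne_zero.2 hn.pos.ne'
    have hz : ∀ (j : ℕ) (x : XX n), F.Z (g^[j] x) = ex (1 / n) ^ (2 * j) * F.Z x := fun j x => by
      induction j with
      | zero => simp
      | succ j ih =>
        rw [Function.iterate_succ_apply', h.Z_eq, ih]
        ring
    have hρ : ((ρ / 2 : ℝ) : ℂ) ≠ 0 := Complex.ofReal_ne_zero.2 (half_pos ρ_pos).ne'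
    have hW : ((0, ((ρ / 2 : ℝ) : ℂ)) : E) ∈ W2 := ⟨by
      rw [Complex.norm_real, Real.norm_of_nonneg (half_pos ρ_pos).le]
      exact half_lt_self ρ_pos, fun h => absurd h hρ⟩
    have h1 := hz k (f2 n 0 (0, ((ρ / 2 : ℝ) : ℂ)))
    rw [e, id, F.hZ.e2 _ _ hW, GactB_pow] at h1
    obtain ⟨m, hm⟩ := ex_eq_iff.1 ((mul_right_cancel₀ (pow_ne_zero 2 hρ)
      (h1.symm.trans (one_mul _).symm)).trans ex_zero.symm)
    rw [zero_add, mul_one_div, div_eq_iff h0] at hm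
    have h2 : ((2 * k : ℕ) : ℤ) = m * n := by exact_mod_cast hm
    exact (Nat.coprime_two_right.2 hn).dvd_of_dvd_mul_left
      (Int.natCast_dvd_natCast.1 (Dvd.intro_left m h2.symm))
  · rintro ⟨j, rfl⟩
    rw [Function.iterate_mul, h.iter_self hn, Function.iterate_id]

end HK3
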