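import Pool.Agent.P.MP_9699e0_gt.Glue1

/-! The atlas and the etale cover of a glued space. -/

set_option autoImplicit false
set_option linter.unusedSectionVars false

noncomputable section

namespace HK3

open Pool.Agent.P.MP_9699e0_gt Set Filter Topology
open scoped ContDiff

variable {κ : Type} [TopologicalSpace κ] [DiscreteTopology κ] {G : Gl κ}

namespace Gl

/-- The oriented atlas. -/
def Ok.oat (h : G.Ok) (hl : G.LInj) : OAt G.T where
  κ := κ
  W := G.W
  f := fun k a => G.f (k, a)
  opn := h.opn
  loc := h.loc_k hl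
  surj := fun x => by
    obtain ⟨a, ha, rfl⟩ := f_surj x
    exact ⟨a.1, a.2, ha, rfl⟩
  tr := h.tr

/-- The etale cover. -/
def Ok.et (h : G.Ok) (hl : G.LInj) : Et G.T where
  Ω := κ × E
  dom := G.dom
  f := G.f
  opn := h.isOpen_dom
  loc := h.loc hl
  surj := f_surj

end Gl

end HK3
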