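import Pool.Agent.P.MP_9699e0_gt.Sm
import Pool.Agent.P.MP_9699e0_gt.Cv

/-! Transfer for double coverings. -/

set_option autoImplicit false
set_option linter.unusedSectionVars false

noncomputable section

namespace HK3

open Pool.Agent.P.MP_9699e0_gt Set Filter Topology
open scoped ContDiff

variable {X Y : Type} [TopologicalSpace X] [TopologicalSpace Y]

theorem tr_ind {R : Type} [CommRing R] {P : ∀ n, Simp X n → Prop} {n : ℕ}
    (N : Submodule R (Chn R X n)) (h : ∀ σ, P n σ → Finsupp.single σ (1 : R) ∈ N) :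
    sml R P n ≤ N := by
  rw [sml, Finsupp.supported_eq_span_single, Submodule.span_le]
  rintro _ ⟨σ, hσ, rfl⟩
  exact h σ hσ

theorem tr_lift [T2Space Y] {p : Y → X} {V : Set Y} {j : Y → Y} (hj : ContinuousOn j V)
    (hf : ∀ y ∈ V, j y ≠ y) (he : ∀ y ∈ V, ∀ y' ∈ V, p y = p y' ↔ y' = y ∨ y' = j y) {n : ℕ}
    {a b : Simp Y n} (ha : range a ⊆ V) (hb : range b ⊆ V) (h : ∀ t, p (a t) = p (b t)) :
    b = a ∨ b = smap j a := by
  have h1 : IsClosed {t | b t = a t} := isClosed_eq b.continuous a.continuous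
  have h2 : IsClosed {t | b t = smap j a t} := isClosed_eq b.continuous (smap j a).continuous
  have h3 := isPreconnected_iff_subset_of_disjoint_closed.1
    (isPreconnected_univ (α := Dl n)) _ _ h1 h2 (fun t _ => by
      have := (he _ (ha ⟨t, rfl⟩) _ (hb ⟨t, rfl⟩)).1 (h t)
      rwa [← smap_apply hj ha] at this) (by
      refine eq_empty_of_forall_notMem fun t ht => hf _ (ha ⟨t, rfl⟩) ?_
      rw [← smap_apply hj ha]
      exact ht.2.2.symm.trans ht.2.1)
  exact h3.imp (fun h => ContinuousMap.ext fun t => h (mem_univ t))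
    (fun h => ContinuousMap.ext fun t => h (mem_univ t))

/-- `p` restricted to `V` is the quotient by the free involution `j`. -/
theorem transfer [T2Space Y] {p : Y → X} {V : Set Y} {j : Y → Y} (hp : ContinuousOn p V)
    (hj : ContinuousOn j V) (hm : MapsTo j V V) (hjj : ∀ y ∈ V, j (j y) = y)
    (hf : ∀ y ∈ V, j y ≠ y) (he : ∀ y ∈ V, ∀ y' ∈ V, p y = p y' ↔ y' = y ∨ y' = j y)
    (ho : ∀ y ∈ V, ∃ U ⊆ V, y ∈ U ∧ Emb p U ∧ p '' U ∈ 𝓝[p '' V] (p y)) {n : ℕ} {c : Chn ℚ X n}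
    (hc : c ∈ cyc ℚ (p '' V) n) :
    ∃ c' ∈ cyc ℚ V n, c - cmap ℚ p n c' ∈ bdy ℚ (p '' V) n := by
  classical
  let P : ∀ n, Simp X n → Prop := fun n σ => ∃ a : Simp Y n, range a ⊆ V ∧ ∀ t, p (a t) = σ t
  have hP : Small P (p '' V) := by
    constructor
    · rintro n k σ v ⟨a, h1, h2⟩
      exact ⟨a.comp v, (range_comp_subset_range v a).trans h1, fun t => h2 _⟩
    · rintro _ ⟨y, hy, rfl⟩
      obtain ⟨U, h1, -, ⟨-, g, h2, h3⟩, h4⟩ := ho y hy
      refine ⟨_, h4, fun n σ hσ => ⟨smap g σ, ?_, fun t => ?_⟩⟩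
      · rintro _ ⟨t, rfl⟩
        obtain ⟨u, hu, e⟩ := hσ ⟨t, rfl⟩
        rw [smap_apply h2 hσ, ← e, h3 hu]
        exact h1 hu
      · obtain ⟨u, hu, e⟩ := hσ ⟨t, rfl⟩
        rw [smap_apply h2 hσ, ← e, h3 hu]
  have hjr : ∀ {n : ℕ} {a : Simp Y n}, range a ⊆ V → range (smap j a) ⊆ V := by
    rintro n a ha _ ⟨t, rfl⟩
    rw [smap_apply hj ha]
    exact hm (ha ⟨t, rfl⟩)
  let τ : ∀ n, Simp X n → Chn ℚ Y n := fun n σ =>
    if h : P n σ then Finsupp.single h.choose 1 + Finsupp.single (smap j h.choose) 1 else 0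
  have hτ : ∀ n (σ : Simp X n) (a : Simp Y n), range a ⊆ V → (∀ t, p (a t) = σ t) →
      τ n σ = Finsupp.single a 1 + Finsupp.single (smap j a) 1 := by
    intro n σ a h1 h2
    have h : P n σ := ⟨a, h1, h2⟩
    simp only [τ, dif_pos h]
    rcases tr_lift hj hf he h1 h.choose_spec.1 (fun t => (h2 t).trans (h.choose_spec.2 t).symm)
      with e | e
    · rw [e]
    · rw [e, add_comm]
      congr 2
      ext t
      rw [smap_apply hj (hjr h1), smap_apply hj h1, hjj _ (h1 ⟨t, rfl⟩)]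
  have t1 : ∀ n, ∀ c ∈ sml ℚ P n, ev ℚ (τ n) c ∈ chn ℚ V n := by
    intro n
    refine tr_ind ((chn ℚ V n).comap (ev ℚ (τ n))) ?_
    rintro σ ⟨a, h1, h2⟩
    rw [Submodule.mem_comap, ev_single, one_smul, hτ n σ a h1 h2]
    exact add_mem (single_mem h1 _) (single_mem (hjr h1) _)
  have t2 : ∀ n, ∀ c ∈ sml ℚ P n, cmap ℚ p n (ev ℚ (τ n) c) = (2 : ℚ) • c := by
    intro n
    refine tr_ind (LinearMap.eqLocus (cmap ℚ p n ∘ₗ ev ℚ (τ n)) ((2 : ℚ) • LinearMap.id)) ?_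
    rintro σ ⟨a, h1, h2⟩
    have e1 : smap p a = σ := by
      ext t
      rw [smap_apply hp h1, h2]
    have e2 : smap p (smap j a) = σ := by
      ext t
      rw [smap_apply hp (hjr h1), smap_apply hj h1, ← h2]
      exact ((he _ (h1 ⟨t, rfl⟩) _ (hm (h1 ⟨t, rfl⟩))).2 (Or.inr rfl)).symm
    rw [LinearMap.mem_eqLocus, LinearMap.comp_apply, ev_single, one_smul, hτ n σ a h1 h2, map_add,
      cmap_single, cmap_single, e1, e2, LinearMap.smul_apply, LinearMap.id_apply, two_smul]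
  have t3 : ∀ n, ∀ c ∈ sml ℚ P (n + 1),
      bd ℚ Y n (ev ℚ (τ (n + 1)) c) = ev ℚ (τ n) (bd ℚ X n c) := by
    intro n
    refine tr_ind (LinearMap.eqLocus (bd ℚ Y n ∘ₗ ev ℚ (τ (n + 1))) (ev ℚ (τ n) ∘ₗ bd ℚ X n)) ?_
    rintro σ ⟨a, h1, h2⟩
    rw [LinearMap.mem_eqLocus, LinearMap.comp_apply, LinearMap.comp_apply, ev_single, one_smul,
      hτ _ σ a h1 h2, map_add, bd_single, bd_single, bd_single, map_sum, ← Finset.sum_add_distrib]
    refine Finset.sum_congr rfl fun i _ => ?_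
    rw [map_smul, ev_single, one_smul, hτ n _ (sub a i.succAbove) ((range_sub _ _).trans h1)
      (fun t => h2 _), smap_sub hj h1, smul_add]
  obtain ⟨ρ, D, r1, r2, r3, r4, -, r6⟩ := hP.exists_retr (R := ℚ)
  have hc' := cyc_le _ _ hc
  have hs := r4 n c hc'
  refine ⟨(1 / 2 : ℚ) • ev ℚ (τ n) (ρ n c), Submodule.smul_mem _ _ ?_, ?_⟩
  · cases n with
    | zero => exact t1 0 _ hs
    | succ n =>
      refine ⟨t1 _ _ hs, ?_⟩
      have h0 : bd ℚ X n c = 0 := hc.2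
      change bd ℚ Y n _ = 0
      rw [t3 n _ hs, r1, h0, map_zero, map_zero]
  · rw [map_smul, t2 n _ hs, smul_smul, show (1 / 2 : ℚ) * 2 = 1 by norm_num, one_smul]
    refine ⟨D n c, (r6 _ n c hc').2, ?_⟩
    cases n with
    | zero => exact r2 c
    | succ n =>
      have h0 : bd ℚ X n c = 0 := hc.2
      rw [← r3, h0, map_zero, add_zero]

end HK3
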