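import Pool.Agent.P.MP_9699e0_gt.PiN
import Pool.Agent.P.MP_9699e0_gt.Tr
import Pool.Agent.P.MP_9699e0_gt.Pu2

/-! Homology near the exceptional spheres. -/

set_option autoImplicit false
set_option linter.unusedSectionVars false

noncomputable section

namespace HK3

open Pool.Agent.P.MP_9699e0_gt Set Filter Topology
open scoped ContDiff

variable {n : ℕ}

theorem hb_zero_le {X : Type} [TopologicalSpace X] {S : Set X} (h : IsPathConnected S) :
    hb S 0 ≤ (1 : ℕ) := by
  obtain ⟨x, hx⟩ := h.nonempty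
  let v : Chn ℚ X 0 := Finsupp.single (ContinuousMap.const _ x) 1
  have hv : v ∈ chn ℚ S 0 := by
    refine Finsupp.single_mem_supported ℚ _ ?_
    rintro _ ⟨t, rfl⟩
    exact hx
  have ha : aug ℚ v = 1 := by
    unfold aug ev
    rw [Finsupp.linearCombination_single, one_smul]
  have h1 := rd_le_of_span (ι := Unit) (Z := cyc ℚ S 0) (B := bdy ℚ S 0) (fun _ => v) (by
    intro c hc
    have h2 : c - aug ℚ c • v ∈ bdy ℚ S 0 :=
      mem_bdy_zero h (sub_mem hc (Submodule.smul_mem _ _ hv))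
        (by rw [map_sub, map_smul, ha, smul_eq_mul, mul_one, sub_self])
    rw [← add_sub_cancel (aug ℚ c • v) c]
    exact Submodule.add_mem_sup
      (Submodule.smul_mem _ _ (Submodule.subset_span ⟨(), rfl⟩)) h2)
  rwa [Fintype.card_unit] at h1

theorem hb_W3_punct : hb {p : E | p ∈ W3 ∧ p.2 ≠ 0} 1 ≤ (1 : ℕ) := by
  have hn : ∀ (s : ℝ) (z : ℂ), ‖ex s * z‖ = ‖z‖ := fun s z => by rw [norm_mul, norm_ex, one_mul]
  have hR : Rot {p : E | p ∈ W3 ∧ p.2 ≠ 0} (fun p => p.2 / (‖p.2‖ : ℂ))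
      (fun s p => (p.1, ex s * p.2)) :=
    { cτ := ContinuousOn.div (by fun_prop) (by fun_prop) fun p hp =>
        Complex.ofReal_ne_zero.2 (norm_ne_zero_iff.2 hp.2)
      nτ := fun p hp => by
        rw [norm_div, Complex.norm_real, norm_norm, div_self (norm_ne_zero_iff.2 hp.2)]
      cΘ := Continuous.continuousOn (by
        have := continuous_ex
        fun_prop)
      mem := fun s p hp => ⟨⟨hp.1.1, by
        change ‖p.1‖ * ‖ex s * p.2‖ ^ 2 < ρ ^ 2
        rw [hn]
        exact hp.1.2⟩, mul_ne_zero (ex_ne s) hp.2⟩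
      zero := fun p _ => by rw [ex_zero, one_mul]
      add := fun s s' p _ => by rw [ex_add, mul_assoc]
      rot := fun s p _ => by
        change ex s * p.2 / (‖ex s * p.2‖ : ℂ) = _
        rw [hn, mul_div_assoc] }
  have hmem : ∀ (u : ℂ) (r : ℝ), 0 < r → ‖u‖ < ρ ^ 2 → ‖u‖ * r ^ 2 < ρ ^ 2 →
      ((u, r) : E) ∈ fib {p : E | p ∈ W3 ∧ p.2 ≠ 0} (fun p => p.2 / (‖p.2‖ : ℂ)) := by
    intro u r hr h1 h2
    have h3 : ‖(r : ℂ)‖ = r := by rw [Complex.norm_real, Real.norm_of_nonneg hr.le]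
    have h4 : (r : ℂ) ≠ 0 := Complex.ofReal_ne_zero.2 hr.ne'
    refine ⟨⟨⟨h1, ?_⟩, h4⟩, ?_⟩
    · change ‖u‖ * ‖(r : ℂ)‖ ^ 2 < ρ ^ 2
      rwa [h3]
    · change (r : ℂ) / (‖(r : ℂ)‖ : ℂ) = 1
      rw [h3, div_self h4]
  have hρ : 0 < ρ ^ 2 := pow_pos ρ_pos 2
  have h0 : ((0, 1) : E) ∈ fib {p : E | p ∈ W3 ∧ p.2 ≠ 0} (fun p => p.2 / (‖p.2‖ : ℂ)) :=
    hmem 0 1 one_pos (by simpa using hρ) (by simpa using hρ)
  have hS : StarConvex ℝ ((0, 1) : E)
      (fib {p : E | p ∈ W3 ∧ p.2 ≠ 0} fun p => p.2 / (‖p.2‖ : ℂ)) := by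
    intro p hp a b ha hb hab
    have hr : 0 < ‖p.2‖ := norm_pos_iff.2 hp.1.2
    have h1 : p.2 = (‖p.2‖ : ℂ) := by
      have h2 : p.2 / (‖p.2‖ : ℂ) = 1 := hp.2
      rwa [div_eq_one_iff_eq (Complex.ofReal_ne_zero.2 hr.ne')] at h2
    have e : a • ((0, 1) : E) + b • p = (b • p.1, ((a + b * ‖p.2‖ : ℝ) : ℂ)) := by
      refine Prod.ext (by simp) ?_
      change a • (1 : ℂ) + b • p.2 = _
      push_cast
      rw [← h1]
      simp
    have hb1 : b ≤ 1 := by linarith
    have h3 := ArrB_smul hb hb1 p.1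
    have h4 : ‖p.1‖ < ρ ^ 2 := hp.1.1.1
    have h5 : ‖p.1‖ * ‖p.2‖ ^ 2 < ρ ^ 2 := hp.1.1.2
    rw [e]
    refine hmem _ _ ?_ (h3.trans_lt h4) ?_
    · rcases ha.eq_or_lt with h6 | h6
      · have h7 : b = 1 := by linarith
        rw [← h6, h7]
        simpa using hr
      · positivity
    · have h6 : (a + b * ‖p.2‖) ^ 2 ≤ max 1 (‖p.2‖ ^ 2) := by
        rcases le_total ‖p.2‖ 1 with h7 | h7
        · refine le_max_of_le_left (pow_le_one₀ (by positivity) ?_)
          nlinarith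
        · refine le_max_of_le_right (pow_le_pow_left₀ (by positivity) ?_ 2)
          nlinarith
      refine lt_of_le_of_lt (mul_le_mul h3 h6 (sq_nonneg _) (norm_nonneg _)) ?_
      rw [mul_max_of_nonneg _ _ (norm_nonneg _), mul_one]
      exact max_lt h4 h5
  refine (hR.hb_le 0).trans ?_
  rw [hb, rd_eq_zero.2 (cyc_le_of_star hS 0), zero_add]
  exact hb_zero_le (hS.isPathConnected h0)

theorem hb_Ec (hn : Odd n) (i c : I4) : hb (Ec n i c) 2 ≤ (1 : ℕ) := by
  have h := mv_crude (O := Ec n i c)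
    (isOpen_image_of_loc (loc3 hn i c) (md_opn n (.a i c)) subset_rfl)
    (isOpen_image_of_loc (loc4 hn i c) (md_opn n (.b i c)) subset_rfl) subset_rfl 1
  have e3 : Ec n i c ∩ f3 n i c '' W3 = f3 n i c '' W3 := union_inter_cancel_left
  have e4 : Ec n i c ∩ f4 n i c '' W4 = f4 n i c '' W4 := union_inter_cancel_right
  change hb (Ec n i c) 2 ≤ hb (Ec n i c ∩ f3 n i c '' W3) 2 + hb (Ec n i c ∩ f4 n i c '' W4) 2 +
    hb (Ec n i c ∩ f3 n i c '' W3 ∩ f4 n i c '' W4) 1 at h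
  rw [e3, e4, f3_inter_f4 hn] at h
  have h3 : hb (f3 n i c '' W3) 2 = 0 :=
    rd_eq_zero.2 ((emb_f3 hn i c).cyc_le (cyc_le_of_star star_W3.1 1))
  have h4 : hb (f4 n i c '' W4) 2 = 0 :=
    rd_eq_zero.2 ((emb_f4 hn i c).cyc_le (cyc_le_of_star star_W4.1 1))
  rw [h3, h4, zero_add, zero_add] at h
  exact h.trans ((((emb_f3 hn i c).mono fun p hp => hp.1).hb_le 1).trans hb_W3_punct)

theorem hb_Xp_Ec (hn : Odd n) (i c : I4) : hb (Xp n ∩ Ec n i c) 1 = 0 := by
  rw [Xp_inter_Ec hn]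
  set a : E := (gi (rep c), 0) with ha
  set V : Set E := Metric.ball a ρ \ {a} with hV
  have hj : ∀ y : E, trn 1 (rep c) y = a + (a - y) := by
    intro y
    unfold trn
    rw [sg_one, ha]
    refine Prod.ext ?_ ?_
    · simp only [Prod.fst_add, Prod.fst_sub]
      push_cast
      ring
    · simp
  have ho : IsOpen V := Metric.isOpen_ball.sdiff isClosed_singleton
  have hl : IsLocalHomeomorphOn (f2 n i) V := (loc2 hn i).mono (ball_sub c)
  have hf : ∀ y ∈ V, trn 1 (rep c) y ≠ a := by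
    intro y hy e
    rw [hj, add_eq_left, sub_eq_zero] at e
    exact hy.2 e.symm
  refine rd_eq_zero.2 fun d hd => ?_
  obtain ⟨d', hd', h⟩ := transfer (p := f2 n i) (V := V) (j := trn 1 (rep c)) hl.continuousOn
    (RelC_trn 1 _).continuousOn
    (fun y hy => ⟨by
      rw [mem_ball_iff_norm, hj, add_sub_cancel_left]
      exact mem_ball_iff_norm'.1 hy.1, hf y hy⟩)
    (fun y _ => by rw [hj, hj]; abel)
    (fun y hy e => by
      rw [hj] at e
      have h1 : (2 : ℝ) • (a - y) = 0 := by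
        rw [two_smul]
        linear_combination (exp := 1) e
      exact hy.2 (sub_eq_zero.1 ((smul_eq_zero.1 h1).resolve_left two_ne_zero)).symm)
    (fun y hy y' hy' => by
      rw [f22 hn (ball_sub c hy) (ball_sub c hy')]
      constructor
      · rintro ⟨-, e, m, h1⟩
        have h2 : ((gi (rep c) + (y'.1 - gi (rep c)), y'.2) : E) =
            trn e m (gi (rep c) + (y.1 - gi (rep c)), y.2) := by
          rwa [add_sub_cancel, add_sub_cancel]
        obtain ⟨-, s, hs, h3, h4⟩ := RelB_core (Sets_ball.1 hy.1).1 (Sets_ball.1 hy'.1).1 h2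
        rcases mul_self_eq_one_iff.1 hs with rfl | rfl
        · left
          exact Prod.ext (by linear_combination h3) (by linear_combination h4)
        · right
          unfold trn
          rw [sg_one]
          refine Prod.ext ?_ ?_
          · dsimp only
            push_cast
            linear_combination h3
          · dsimp only
            push_cast
            linear_combination h4
      · rintro (rfl | rfl)
        · exact ⟨rfl, 0, 0, (trn_zero _).symm⟩
        · exact ⟨rfl, 1, rep c, rfl⟩)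
    (fun y hy => by
      obtain ⟨W, h1, h2, h3, h4⟩ := exists_injOn_of_loc ho hl hy
      exact ⟨W, h3, h2, emb_of_loc h1 (hl.mono h3) h4, mem_nhdsWithin_of_mem_nhds
        ((isOpen_image_of_loc hl h1 h3).mem_nhds ⟨y, h2, rfl⟩)⟩) hd
  have h5 := cmap_bdy hl.continuousOn (mapsTo_image _ V) (punct_ball a 1 (Or.inl rfl) hd')
  have h6 := add_mem h h5
  rwa [sub_add_cancel] at h6

end HK3
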