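import Pool.Agent.P.MP_9699e0_gt.MDefs2

/-! Two flows. -/

set_option autoImplicit false
set_option linter.unusedSectionVars false

noncomputable section

namespace HK3

open Pool.Agent.P.MP_9699e0_gt Set Filter Topology
open scoped ContDiff

variable {n : ℕ}

theorem HF_im (v : ℂ) (s : ℝ) : (v + s * Complex.I).im = v.im + s := by simp

theorem HF_re (v : ℂ) (s : ℝ) : (v + s * Complex.I).re = v.re := by simp

theorem flow_mem (s : ℝ) {ξ : E} (h : ξ ∈ W0) : (dg s ξ.1, ξ.2 + s * Complex.I) ∈ W0 := by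
  intro m hm
  refine h m ?_
  have h1 : dg s ξ.1 = β (ξ.2.im + s) m := by rw [← HF_im]; exact hm
  have h2 := congrArg (dg (-s)) h1
  rwa [dg_dg, neg_add_cancel, dg_zero, dg_β, add_neg_cancel_right] at h2

theorem flow_RG (s : ℝ) {ξ ξ' : E} (h : RG n ξ ξ') :
    RG n (dg s ξ.1, ξ.2 + s * Complex.I) (dg s ξ'.1, ξ'.2 + s * Complex.I) := by
  obtain ⟨k, e, m, l, rfl⟩ := h
  refine ⟨k, e, m, l, Prod.ext ?_ ?_⟩
  · change dg s (sg e * cj k ξ.1 + 2 * β (ξ.2.im + n * k) m) =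
      sg e * cj k (dg s ξ.1) + 2 * β ((ξ.2 + s * Complex.I).im + n * k) m
    have h2 := dg_mul s 2 (β (ξ.2.im + n * k) m)
    rw [Complex.ofReal_ofNat] at h2
    rw [dg_add, dg_mul, dg_cj, h2, dg_β, HF_im, add_right_comm]
  · apply Complex.ext <;> simp [gam]
    ring

theorem HF_cont {P : Type} [TopologicalSpace P] {s : P → ℝ} {ξ : P → E} (hs : Continuous s)
    (hξ : Continuous ξ) :
    Continuous fun p => ((dg (s p) (ξ p).1, (ξ p).2 + s p * Complex.I) : E) :=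
  (contDiff_dg.continuous.comp (hs.prodMk hξ.fst)).prodMk
    (hξ.snd.add ((Complex.continuous_ofReal.comp hs).mul continuous_const))

theorem HF_slice {Y : Type} [TopologicalSpace Y] {O : Set (XX n)} {G : ℝ → XX n → Y}
    (h : ContinuousOn (fun p : ℝ × XX n => G p.1 p.2) (univ ×ˢ O)) : ContinuousOn (G 0) O :=
  h.comp (f := fun x => ((0 : ℝ), x)) (by fun_prop) fun _ hx => ⟨mem_univ _, hx⟩

theorem exists_rot_Z0 (hn : Odd n) : ∃ τ Θ, Rot (Z0 n) τ Θ ∧ fib (Z0 n) τ = Φ n ∧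
    ∀ s, ∀ ξ ∈ W0, Θ s (f0 n ξ) = f0 n (dg (n * s) ξ.1, ξ.2 + (n * s : ℝ) * Complex.I) := by
  have h0 : (n : ℝ) ≠ 0 := by exact_mod_cast hn.pos.ne'
  have : Nonempty (XX n) := ⟨f0 n 0⟩
  obtain ⟨τ, c1, e1⟩ := desc isOpen_W0 (loc0 hn) (fun (_ : ℝ) (ξ : E) => ex (ξ.2.im / n))
    (continuous_ex.comp (by fun_prop)).continuousOn (by
      intro _ a ha b hb e
      obtain ⟨k, e, m, l, rfl⟩ := (f00 hn ha hb).1 e
      refine Eq.symm (ex_eq_iff.2 ⟨k, ?_⟩)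
      change (a.2.im + n * k) / n = _
      field_simp)
  obtain ⟨Θ, c2, e2⟩ := desc isOpen_W0 (loc0 hn)
    (fun (s : ℝ) (ξ : E) => f0 n (dg (n * s) ξ.1, ξ.2 + (n * s : ℝ) * Complex.I))
    ((loc0 hn).continuousOn.comp
      (HF_cont (s := fun p : ℝ × E => n * p.1) (ξ := Prod.snd) (by fun_prop)
        continuous_snd).continuousOn fun p hp => flow_mem _ hp.2)
    fun s a ha b hb e => f0_gam hn (flow_mem _ ha) (flow_RG _ ((f00 hn ha hb).1 e))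
  refine ⟨τ 0, Θ, ⟨HF_slice c1, ?_, c2, ?_, ?_, ?_, ?_⟩, Subset.antisymm ?_ ?_, e2⟩
  · rintro _ ⟨ξ, h, rfl⟩
    rw [e1 0 ξ h, norm_ex]
  · rintro s _ ⟨ξ, h, rfl⟩
    exact ⟨_, flow_mem _ h, (e2 s ξ h).symm⟩
  · rintro _ ⟨ξ, h, rfl⟩
    rw [e2 0 ξ h]
    simp [dg_zero]
  · rintro s s' _ ⟨ξ, h, rfl⟩
    rw [e2 _ ξ h, e2 s' ξ h, e2 s _ (flow_mem _ h), dg_dg, mul_add]
    congr 2
    push_cast
    ring
  · rintro s _ ⟨ξ, h, rfl⟩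
    rw [e2 s ξ h, e1 0 _ (flow_mem _ h), e1 0 ξ h, ← ex_add, HF_im]
    congr 1
    field_simp
    ring
  · rintro _ ⟨⟨ξ, h, rfl⟩, h1⟩
    rw [e1 0 ξ h, ← ex_zero] at h1
    obtain ⟨m, hm⟩ := ex_eq_iff.1 h1
    refine ⟨gam n (-m) 0 0 0 ξ, ⟨gam_mem hn _ _ _ _ h, ?_⟩,
      (f0_gam hn h ⟨_, _, _, _, rfl⟩).symm⟩
    change ξ.2.im + n * ((-m : ℤ) : ℝ) = 0
    rw [zero_add, div_eq_iff h0] at hm
    rw [hm]
    push_cast
    ring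
  · rintro _ ⟨ξ, ⟨h, h1⟩, rfl⟩
    refine ⟨⟨ξ, h, rfl⟩, ?_⟩
    rw [e1 0 ξ h, h1, zero_div, ex_zero]

/-- Descent of a family of functions to the fibre. -/
theorem desc_Φ (hn : Odd n) {Y : Type} [TopologicalSpace Y] [Nonempty Y] (G : ℝ → E → Y)
    (hG : ContinuousOn (fun p : ℝ × E => G p.1 p.2) (univ ×ˢ {ξ | ξ ∈ W0 ∧ ξ.2.im = 0}))
    (h : ∀ s (e : ℤ) (m : ℤ × ℤ) (l : ℤ), ∀ ξ ∈ W0, ξ.2.im = 0 →
      G s (sg e * ξ.1 + 2 * β 0 m, ξ.2 + 2 * l) = G s ξ) :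
    ∃ G' : ℝ → XX n → Y, ContinuousOn (fun p : ℝ × XX n => G' p.1 p.2) (univ ×ˢ Φ n) ∧
      ∀ s, ∀ ξ ∈ W0, ξ.2.im = 0 → G' s (f0 n ξ) = G s ξ := by
  have hV : IsOpen {ξ : E | ξ ∈ W0 ∧ |ξ.2.im| < 1 / 2} :=
    isOpen_W0.inter (isOpen_lt (f := fun ξ : E => |ξ.2.im|) (by fun_prop) continuous_const)
  have h0 : ∀ ξ : E, (ξ.2 + (-ξ.2.im : ℝ) * Complex.I).im = 0 := fun ξ => by
    rw [HF_im, add_neg_cancel]
  obtain ⟨G', c, e⟩ := desc hV ((loc0 hn).mono fun _ hx => hx.1)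
    (fun (s : ℝ) (ξ : E) => G s (dg (-ξ.2.im) ξ.1, ξ.2 + (-ξ.2.im : ℝ) * Complex.I))
    (hG.comp (f := fun p : ℝ × E =>
        (p.1, ((dg (-p.2.2.im) p.2.1, p.2.2 + (-p.2.2.im : ℝ) * Complex.I) : E)))
      (continuous_fst.prodMk (HF_cont (s := fun p : ℝ × E => -p.2.2.im) (ξ := Prod.snd)
        (by fun_prop) continuous_snd)).continuousOn
      fun p hp => ⟨mem_univ _, flow_mem _ hp.2.1, h0 _⟩) (by
      intro s a ha b hb e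
      have h1 := (f00 hn ha.1 hb.1).1 e
      have h2 : b.2.im = a.2.im := by
        obtain ⟨e, m, l, h2⟩ := h1.zero hn (by
          have := abs_sub b.2.im a.2.im
          linarith [ha.2, hb.2])
        rw [h2]
        simp
      have h3 := h0 b
      rw [h2] at h3 ⊢
      obtain ⟨e, m, l, h4⟩ := (flow_RG (-a.2.im) h1).zero hn (by
        dsimp only
        rw [h3, h0 a]
        simp)
      rw [h4]
      dsimp only
      rw [h0 a]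
      exact (h s e m l _ (flow_mem _ ha.1) (h0 a)).symm)
  refine ⟨G', c.mono (prod_mono_right (image_mono fun ξ hξ => ⟨hξ.1, ?_⟩)), fun s ξ h1 h2 => ?_⟩
  · rw [hξ.2]
    norm_num
  · rw [e s ξ ⟨h1, by rw [h2]; norm_num⟩, h2]
    simp [dg_zero]

theorem HF_mem (s : ℝ) {ξ : E} (h : ξ ∈ W0) : ((ξ.1, ξ.2 + 2 * s) : E) ∈ W0 := by
  intro m hm
  refine h m ?_
  simpa using hm

theorem exists_rot_Φ (hn : Odd n) : ∃ τ Θ, Rot (Φ n) τ Θ ∧ fib (Φ n) τ = SS n 0 ∧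
    ∀ ξ ∈ W0, ξ.2.im = 0 → τ (f0 n ξ) = ex (ξ.2.re / 2) := by
  have : Nonempty (XX n) := ⟨f0 n 0⟩
  have h0 : ∀ (s : ℝ) (ξ : E), ξ.2.im = 0 → (ξ.2 + 2 * s).im = 0 := fun s ξ h => by simpa using h
  obtain ⟨τ, c1, e1⟩ := desc_Φ hn (fun (_ : ℝ) (ξ : E) => ex (ξ.2.re / 2))
    (continuous_ex.comp (by fun_prop)).continuousOn (by
      intro _ e m l ξ _ _
      refine ex_eq_iff.2 ⟨l, ?_⟩
      simp
      ring)
  obtain ⟨Θ, c2, e2⟩ := desc_Φ hn (fun (s : ℝ) (ξ : E) => f0 n (ξ.1, ξ.2 + 2 * s))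
    ((loc0 hn).continuousOn.comp (f := fun p : ℝ × E => ((p.2.1, p.2.2 + 2 * p.1) : E))
      (by fun_prop) fun p hp => HF_mem _ hp.2.1) (by
      intro s e m l ξ h1 h2
      have h3 := f0_gam hn (HF_mem s h1) (RG_of_zero e m l _)
      dsimp only at h3 ⊢
      rw [h3, h0 s ξ h2, add_right_comm])
  refine ⟨τ 0, Θ, ⟨HF_slice c1, ?_, c2, ?_, ?_, ?_, ?_⟩, Subset.antisymm ?_ ?_, e1 0⟩
  · rintro _ ⟨ξ, h, rfl⟩
    rw [e1 0 ξ h.1 h.2, norm_ex]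
  · rintro s _ ⟨ξ, h, rfl⟩
    exact ⟨_, ⟨HF_mem s h.1, h0 s ξ h.2⟩, (e2 s ξ h.1 h.2).symm⟩
  · rintro _ ⟨ξ, h, rfl⟩
    rw [e2 0 ξ h.1 h.2]
    simp
  · rintro s s' _ ⟨ξ, h, rfl⟩
    rw [e2 _ ξ h.1 h.2, e2 s' ξ h.1 h.2, e2 s _ (HF_mem s' h.1) (h0 s' ξ h.2)]
    congr 2
    push_cast
    ring
  · rintro s _ ⟨ξ, h, rfl⟩
    rw [e2 s ξ h.1 h.2, e1 0 _ (HF_mem s h.1) (h0 s ξ h.2), e1 0 ξ h.1 h.2, ← ex_add]
    congr 1
    simp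
    ring
  · rintro _ ⟨⟨ξ, h, rfl⟩, h1⟩
    rw [e1 0 ξ h.1 h.2, ← ex_zero] at h1
    obtain ⟨m, hm⟩ := ex_eq_iff.1 h1
    have h2 : RG n ξ _ := RG_of_zero 0 0 (-m) ξ
    obtain ⟨k, e, m', l, h3⟩ := id h2
    refine ⟨_, ⟨h3 ▸ gam_mem hn k e m' l h.1, ?_⟩, (f0_gam hn h.1 h2).symm⟩
    apply Complex.ext
    · simp
      linarith
    · simpa using h.2
  · rintro _ ⟨ξ, ⟨h, h1⟩, rfl⟩
    have h2 : ξ.2.im = 0 := by rw [h1]; rfl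
    refine ⟨⟨ξ, ⟨h, h2⟩, rfl⟩, ?_⟩
    rw [e1 0 ξ h h2, h1]
    simp [ex_zero]

end HK3
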