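import Pool.Agent.P.MP_9699e0_gt.HF
import Pool.Agent.P.MP_9699e0_gt.HE
import Pool.Agent.P.MP_9699e0_gt.PiX2

/-! Homology of the fibre. -/

set_option autoImplicit false
set_option linter.unusedSectionVars false

noncomputable section

namespace HK3

open Pool.Agent.P.MP_9699e0_gt Set Filter Topology
open scoped ContDiff

variable {n : ℕ}

theorem HS_mem {x : ℂ} (hx : x ∈ Pn) : ((Bm 0 x, 0) : E) ∈ W0 := by
  rw [mem_W0_iff]
  simpa [Bi_Bm] using hx

theorem HS_two (x : ℂ) (e : ℤ) (m : ℤ × ℤ) :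
    (sg e : ℂ) * Bm 0 x + 2 * β 0 m = Bm 0 (sg e * x + 2 * gi m) := by
  have h := Bm_mul 0 2 (gi m)
  rw [Bm_add, Bm_mul]
  push_cast at h
  rw [h]
  rfl

theorem hb_SS (hn : Odd n) : hb (SS n 0) 2 = 0 ∧ hb (SS n 0) 1 ≤ (3 : ℕ) := by
  have hB : Continuous fun x : ℂ => ((Bm 0 x, 0) : E) :=
    (contDiff_Bm.continuous.comp (continuous_const.prodMk continuous_id)).prodMk continuous_const
  rw [SS_eq]
  simp only [Complex.zero_im]
  refine pillow_hb ((loc0 hn).continuousOn.comp hB.continuousOn fun x hx => HS_mem hx) ?_ ?_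
  · intro x hx y hy
    rw [f00 hn (HS_mem hx) (HS_mem hy)]
    constructor
    · intro h
      obtain ⟨e, m, l, h⟩ := h.zero hn (by simp)
      have h1 := congrArg (fun p : E => Bi 0 p.1) h
      simp only [Complex.zero_im, HS_two, Bi_Bm] at h1
      refine ⟨m, ?_⟩
      rcases sg_cases e with ⟨h2, -⟩ | ⟨h2, -⟩ <;> simp [h1, h2]
    · rintro ⟨m, rfl | rfl⟩
      · have h := RG_of_zero (n := n) 0 m 0 (Bm 0 x, 0)
        have h2 := HS_two x 0 m
        simp only [Complex.zero_im, h2] at h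
        simpa [sg_zero] using h
      · have h := RG_of_zero (n := n) 1 m 0 (Bm 0 x, 0)
        have h2 := HS_two x 1 m
        simp only [Complex.zero_im, h2] at h
        simpa [sg_one] using h
  · intro W hW hP
    have ho : IsOpen {ξ : E | ξ ∈ W0 ∧ Bi ξ.2.im ξ.1 ∈ W ∧ ‖ξ.2‖ < 1 / 2} := by
      have c1 : Continuous fun ξ : E => Bi ξ.2.im ξ.1 := contDiff_Bi.continuous.comp
          ((Complex.continuous_im.comp continuous_snd).prodMk continuous_fst)
      have c2 : IsOpen {ξ : E | ‖ξ.2‖ < 1 / 2} := isOpen_lt (by fun_prop) continuous_const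
      exact isOpen_W0.inter ((hW.preimage c1).inter c2)
    refine ⟨_, isOpen_image_of_loc (loc0 hn) ho fun _ h => h.1, ?_⟩
    refine Subset.antisymm ?_ ?_
    · rintro _ ⟨x, hx, rfl⟩
      exact ⟨⟨x, hP hx, rfl⟩, _, ⟨HS_mem (hP hx), by simpa [Bi_Bm] using hx, by simp⟩, rfl⟩
    · rintro _ ⟨⟨x, hx, rfl⟩, ξ, ⟨h1, h2, h3⟩, h⟩
      have hr := (f00 hn (HS_mem hx) h1).1 h.symm
      have h4 : |ξ.2.im| < 1 := (Complex.abs_im_le_norm _).trans_lt (h3.trans (by norm_num))
      obtain ⟨e, m, l, h5⟩ := hr.zero hn (by simpa using h4)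
      have h6 : ξ.2 = 2 * l := by simpa using congrArg Prod.snd h5
      have h7 : l = 0 := by
        rw [h6] at h3
        simp only [norm_mul, Complex.norm_ofNat, Complex.norm_intCast] at h3
        have : |(l : ℝ)| < 1 := by linarith
        exact Int.abs_lt_one_iff.1 (by exact_mod_cast this)
      have h8 : ξ.2 = 0 := by simp [h6, h7]
      refine ⟨Bi 0 ξ.1, by simpa [h8] using h2, ?_⟩
      rw [← h]
      simp only [Bm_Bi]
      rw [← h8]

theorem hb_Φ_one (hn : Odd n) : hb (Φ n) 1 ≤ (4 : ℕ) := by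
  obtain ⟨τ, Θ, hr, hf, -⟩ := exists_rot_Φ hn
  have h := hr.hb_le 0
  rw [hf] at h
  refine h.trans ((add_le_add (hb_SS hn).2 (hb_zero_le (isPathConnected_SS hn 0))).trans ?_)
  norm_num

theorem hb_Φ_two (hn : Odd n) : hb (Φ n) 2 ≤ (3 : ℕ) := by
  obtain ⟨τ, Θ, hr, hf, -⟩ := exists_rot_Φ hn
  have h := hr.hb_le 1
  rw [hf, (hb_SS hn).1, zero_add] at h
  exact h.trans (hb_SS hn).2

end HK3
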