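import Pool.Agent.P.MP_9699e0_gt.PQ
import Pool.Agent.P.MP_9699e0_gt.Tr
import Pool.Agent.P.MP_9699e0_gt.FnB

/-! Homology near a binding. -/

set_option autoImplicit false
set_option linter.unusedSectionVars false

noncomputable section

namespace HK3

open Pool.Agent.P.MP_9699e0_gt Set Filter Topology
open scoped ContDiff

variable {n : ℕ}

theorem HY_jj (y : E × ℂ) : jq (jq y) = y := by
  simp [jq]

theorem HY_mq : MapsTo jq (Tq (Metric.ball 0 ρ \ {0})) (Tq (Metric.ball 0 ρ \ {0})) := by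
  intro y hy
  simpa [jq, Tq] using hy

theorem HY_mf : MapsTo jq (Tf ρ) (Tf ρ) := fun y hy =>
  ⟨by simpa [jq, Tq] using hy.1, by rw [HY_jj]; exact hy.2.symm⟩

theorem HY_tr (hn : Odd n) (i : I4) {V : Set (E × ℂ)} (hV : V ⊆ Tf ρ) (hm : MapsTo jq V V) {k : ℕ}
    {c : Chn ℚ (XX n) k} (hc : c ∈ cyc ℚ (pq n i '' V) k) :
    ∃ c' ∈ cyc ℚ V k, c - cmap ℚ (pq n i) k c' ∈ bdy ℚ (pq n i '' V) k := by
  refine transfer ((continuousOn_pq hn i).mono hV) Tor_jq_cont.continuousOn hm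
    (fun y _ => HY_jj y) (fun y hy => (hV hy).2)
    (fun y hy y' hy' => pq_eq_iff hn i y (hV hy) y' (hV hy')) (fun y hy => ?_) hc
  obtain ⟨U, h1, h2, h3, h4⟩ := pq_loc hn i y (hV hy)
  refine ⟨U ∩ V, inter_subset_right, ⟨h2, hy⟩, h3.mono inter_subset_left,
    mem_of_superset (inter_mem_nhdsWithin _ (h4.mem_nhds (mem_image_of_mem _ h2))) ?_⟩
  rintro _ ⟨⟨v, hv, rfl⟩, u, hu, e⟩
  refine ⟨u, ⟨hu, ?_⟩, e⟩
  rcases (pq_eq_iff hn i v (hV hv) u (h1 hu)).1 e.symm with rfl | rfl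
  · exact hv
  · exact hm hv

theorem HY_Z (hn : Odd n) (F : Fns n) (i : I4) {y : E × ℂ} (hy : y ∈ Tf ρ) :
    F.Z (pq n i y) = y.2 * y.2 := by
  obtain ⟨α, rfl⟩ := eq2_surj (y := y) ⟨hy.1.1, hy.1.2.1, mem_univ _⟩
  rw [pq_eq2 hn i (eq2_mem.1 hy), F.hZ.e2 i α (eq2_mem.1 hy), pow_two]
  rfl

theorem cyc_Y (hn : Odd n) (F : Fns n) (i : I4) : ∃ s ∈ cyc ℚ (Z0 n ∩ N2 n i) 1,
    ev ℚ (wd F.Z) s ≠ 0 ∧
      cyc ℚ (Z0 n ∩ N2 n i) 1 ≤ Submodule.span ℚ {s} ⊔ bdy ℚ (Z0 n ∩ N2 n i) 1 := by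
  rw [← pq_image' hn i]
  obtain ⟨s, hs, h1, h2⟩ := tor_one ρ_pos
  have hp := (continuousOn_pq hn i).mono Tq_sub
  have hz : NZ (fun p : E × ℂ => p.2) (Tq (Metric.ball 0 ρ \ {0})) :=
    ⟨continuousOn_snd, fun p hp => hp.2.2.2⟩
  refine ⟨cmap ℚ (pq n i) 1 s, cmap_cyc hp (mapsTo_image _ _) hs, ?_, fun c hc => ?_⟩
  · rw [ev_wd_cmap _ hp (cyc_le _ _ hs), ev_congr_chn (cyc_le _ _ hs) fun σ hσ =>
      wd_congr (g := F.Z ∘ pq n i) (g' := fun p => p.2 * p.2) (fun y hy => HY_Z hn F i (Tq_sub hy)) hσ,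
      ev_wd_mul hz hz (cyc_le _ _ hs), h1]
    norm_num
  · obtain ⟨c', hc', h3⟩ := HY_tr hn i Tq_sub HY_mq hc
    obtain ⟨q, hq⟩ := h2 c' hc'
    have h4 := cmap_bdy hp (mapsTo_image _ _) hq
    rw [map_sub, map_add, map_smul, cmap_comp Tor_jq_cont.continuousOn (cyc_le _ _ hc'),
      cmap_congr (f := pq n i ∘ jq) (g := pq n i) (fun y hy => ((pq_eq_iff hn i y (Tq_sub hy) _
        (Tq_sub (HY_mq hy))).2 (Or.inr rfl)).symm) (cyc_le _ _ hc')] at h4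
    refine Submodule.mem_sup.2 ⟨_, Submodule.smul_mem _ (q / 2) (Submodule.mem_span_singleton_self _),
      _, add_mem h3 (Submodule.smul_mem _ (1 / 2 : ℚ) h4), ?_⟩
    module

theorem cyc_N2 (hn : Odd n) (i : I4) :
    cyc ℚ (N2 n i) 2 ≤ cyc ℚ (Z0 n ∩ N2 n i) 2 ⊔ bdy ℚ (N2 n i) 2 := by
  rw [← pq_image' hn i, ← pq_image hn i]
  intro c hc
  obtain ⟨c', hc', h1⟩ := HY_tr hn i Subset.rfl HY_mf hc
  obtain ⟨a, ha, b, hb, rfl⟩ := Submodule.mem_sup.1 (tor_two ρ_pos hc')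
  refine Submodule.mem_sup.2 ⟨_, cmap_cyc ((continuousOn_pq hn i).mono Tq_sub) (mapsTo_image _ _) ha,
    _, add_mem h1 (cmap_bdy (continuousOn_pq hn i) (mapsTo_image _ _) hb), ?_⟩
  rw [map_add]
  abel

end HK3
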