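import Pool.Agent.P.MP_9699e0_gt.MDefs2
import Pool.Agent.P.MP_9699e0_gt.Half

/-! The half classes. -/

set_option autoImplicit false
set_option linter.unusedSectionVars false

noncomputable section

namespace HK3

open Pool.Agent.P.MP_9699e0_gt Set Filter Topology
open scoped ContDiff

variable {n : ℕ} {hn : Odd n} {F : Fns n}

theorem O_diff_K (hn : Odd n) (F : Fns n) (b : HI) : (F.hd b).O \ (F.hd b).K ⊆ Xp n := by
  rintro x ⟨h1, h2⟩
  obtain ⟨a, ha, rfl⟩ := (etM hn).surj x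
  exact (mem_Xp_iff hn ha).2 fun j hj => h2 ⟨h1, (F.on_A ha hj).1 b⟩

theorem Bun.s_ne (B : Bun hn F) (b : HI) : ∀ a ∈ (md n).dom,
    (md n).f a ∈ (F.hd b).O \ (F.hd b).K → B.s b a ≠ 0 := by
  intro a ha h h0
  have e := B.sq b a ha (O_diff_K hn F b h)
  rw [h0, zero_pow two_ne_zero, zero_mul] at e
  exact h.2 ⟨h.1, e.symm⟩

theorem Bun.coc_B (B : Bun hn F) (b : HI) :
    ((etM hn).two (F.hd b)).Coc ((etM hn).JB B.JL (B.s b)) :=
  (etM hn).coc_B (F.hd b) B.cL ((B.ss b).mono (O_diff_K hn F b)) (B.s_ne b)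

theorem Bun.exists_RA (B : Bun hn F) (j : I4 × I4) : ∃ c, B.RA j c :=
  (etM hn).exists_rep (B.cA j)

theorem Fns.exists_RG (F : Fns n) (hn : Odd n) (b : HI) : ∃ c, F.RG hn b c :=
  Et.exists_rep _ ((etM hn).coc_G (F.hd b))

theorem Bun.exists_RB (B : Bun hn F) (b : HI) : ∃ c, B.RB b c :=
  Et.exists_rep _ (B.coc_B b)

theorem Bun.half (B : Bun hn F) {cA : I4 × I4 → Simp (XX n) 2 → ℤ} (hA : ∀ j, B.RA j (cA j))
    {b : HI} {cG cB : Simp (XX n) 2 → ℤ} (hG : F.RG hn b cG) (hB : B.RB b cB) :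
    Coh cG (cB + cB + ∑ j ∈ Finset.univ.filter (inK b), cA j) := by
  refine (etM hn).half (F.hd b) B.cL
    (Et.Coc.prod (Finset.univ.filter (inK b)) fun j _ => B.cA j)
    (Et.Coc.prod (Finset.univ.filter fun j => ¬inK b j) fun j _ => B.cA j) (fun a a' r => ?_)
    ((B.ss b).mono (O_diff_K hn F b)) (Et.Sec.prod _ fun j _ => B.sA j)
    (Et.Sec.prod _ fun j _ => B.sA j) (fun a ha h => ?_) (fun a ha h => ?_) (fun a ha h => ?_) hB
    (Et.Rep.prod _ (fun j _ => B.cA j) fun j _ => hA j) hG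
  · rw [mul_assoc, Finset.prod_filter_mul_prod_filter_not]
    exact B.rel a a' r
  · refine Finset.prod_ne_zero_iff.2 fun j hj h0 => h ?_
    exact ⟨((F.on_A ha h0).2 b).2 (Finset.mem_filter.1 hj).2, (F.on_A ha h0).1 b⟩
  · exact Finset.prod_ne_zero_iff.2 fun j hj h0 =>
      (Finset.mem_filter.1 hj).2 (((F.on_A ha h0).2 b).1 h)
  · rw [mul_assoc, Finset.prod_filter_mul_prod_filter_not]
    exact B.sq b a ha (O_diff_K hn F b h)

end HK3
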