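import Pool.Agent.P.MP_9699e0_gt.ChB

/-! The prism operator. -/

set_option autoImplicit false
set_option linter.unusedSectionVars false

noncomputable section

namespace HK3

open Pool.Agent.P.MP_9699e0_gt Set Filter Topology
open scoped ContDiff

variable {R : Type} [CommRing R] {X Y Z : Type} [TopologicalSpace X] [TopologicalSpace Y]
  [TopologicalSpace Z]

section formal

variable (R) in
/-- Formal chains of ordered simplices. -/
abbrev HtC (P : Type) (k : ℕ) : Type := (Fin (k + 1) → P) →₀ R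

variable (R) in
/-- Boundary of formal chains. -/
def htBd (P : Type) (k : ℕ) : HtC R P (k + 1) →ₗ[R] HtC R P k :=
  Finsupp.linearCombination R fun v : Fin (k + 2) → P =>
    ∑ i : Fin (k + 2), (-1 : R) ^ (i : ℕ) • Finsupp.single (v ∘ i.succAbove) (1 : R)

variable (R) in
/-- Cone with apex `p`. -/
def htCone {P : Type} (k : ℕ) (p : P) : HtC R P k →ₗ[R] HtC R P (k + 1) :=
  Finsupp.lmapDomain R R fun v : Fin (k + 1) → P => (Fin.cons p v : Fin (k + 2) → P)

variable (R) in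
/-- Image of formal chains under a map of the vertices. -/
def htMap {P P' : Type} (k : ℕ) (φ : P → P') : HtC R P k →ₗ[R] HtC R P' k :=
  Finsupp.lmapDomain R R fun v : Fin (k + 1) → P => φ ∘ v

variable (R) in
/-- The formal prism. -/
def htPr (P : Type) : ∀ k, HtC R P k →ₗ[R] HtC R (Fin 2 × P) (k + 1)
  | 0 => Finsupp.linearCombination R fun v : Fin 1 → P => htCone R 0 (0, v 0)
      (Finsupp.single (Prod.mk 1 ∘ v) 1 - Finsupp.single (Prod.mk 0 ∘ v) 1)
  | k + 1 => Finsupp.linearCombination R fun v : Fin (k + 2) → P => htCone R (k + 1) (0, v 0)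
      (Finsupp.single (Prod.mk 1 ∘ v) 1 - Finsupp.single (Prod.mk 0 ∘ v) 1 -
        htPr P k (htBd R P k (Finsupp.single v 1)))

variable {P P' : Type}

theorem ht_bd_single (k : ℕ) (v : Fin (k + 2) → P) : htBd R P k (Finsupp.single v 1) =
    ∑ i : Fin (k + 2), (-1 : R) ^ (i : ℕ) • Finsupp.single (v ∘ i.succAbove) (1 : R) := by
  simp [htBd]

theorem ht_cone_single (k : ℕ) (p : P) (v : Fin (k + 1) → P) :
    htCone R k p (Finsupp.single v 1) = Finsupp.single (Fin.cons p v : Fin (k + 2) → P) 1 := by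
  simp [htCone]

theorem ht_map_single (k : ℕ) (φ : P → P') (v : Fin (k + 1) → P) :
    htMap R k φ (Finsupp.single v 1) = Finsupp.single (φ ∘ v) 1 := by
  simp [htMap]

theorem ht_pr_zero (v : Fin 1 → P) : htPr R P 0 (Finsupp.single v 1) = htCone R 0 (0, v 0)
    (Finsupp.single (Prod.mk 1 ∘ v) 1 - Finsupp.single (Prod.mk 0 ∘ v) 1) := by
  rw [htPr, Finsupp.linearCombination_single, one_smul]

theorem ht_pr_succ (k : ℕ) (v : Fin (k + 2) → P) :
    htPr R P (k + 1) (Finsupp.single v 1) = htCone R (k + 1) (0, v 0)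
      (Finsupp.single (Prod.mk 1 ∘ v) 1 - Finsupp.single (Prod.mk 0 ∘ v) 1 -
        htPr R P k (htBd R P k (Finsupp.single v 1))) := by
  rw [htPr, Finsupp.linearCombination_single, one_smul]

theorem ht_ext {ι W : Type} [AddCommGroup W] [Module R W] {f g : (ι →₀ R) →ₗ[R] W}
    (h : ∀ v, f (Finsupp.single v 1) = g (Finsupp.single v 1)) (c : ι →₀ R) : f c = g c := by
  have : f = g := Finsupp.lhom_ext' fun v => LinearMap.ext_ring (h v)
  rw [this]

theorem ht_ext_on {ι W : Type} [AddCommGroup W] [Module R W] {f g : (ι →₀ R) →ₗ[R] W} {A : Set ι}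
    (h : ∀ v ∈ A, f (Finsupp.single v 1) = g (Finsupp.single v 1)) {c : ι →₀ R}
    (hc : c ∈ Finsupp.supported R R A) : f c = g c := by
  rw [Finsupp.supported_eq_span_single] at hc
  refine LinearMap.eqOn_span' ?_ hc
  rintro _ ⟨v, hv, rfl⟩
  exact h v hv

theorem ht_mem_on {ι W : Type} [AddCommGroup W] [Module R W] {f : (ι →₀ R) →ₗ[R] W} {A : Set ι}
    {K : Submodule R W} (h : ∀ v ∈ A, f (Finsupp.single v 1) ∈ K) {c : ι →₀ R}
    (hc : c ∈ Finsupp.supported R R A) : f c ∈ K := by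
  rw [Finsupp.supported_eq_span_single] at hc
  refine (Submodule.span_le (p := K.comap f)).2 ?_ hc
  rintro _ ⟨v, hv, rfl⟩
  exact h v hv

theorem ht_cons_zero {k : ℕ} (p : P) (v : Fin (k + 1) → P) :
    (Fin.cons p v : Fin (k + 2) → P) ∘ (0 : Fin (k + 2)).succAbove = v := by
  funext j
  simp

theorem ht_cons_succ {k : ℕ} (p : P) (v : Fin (k + 2) → P) (i : Fin (k + 2)) :
    (Fin.cons p v : Fin (k + 3) → P) ∘ i.succ.succAbove =
      (Fin.cons p (v ∘ i.succAbove) : Fin (k + 2) → P) := by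
  funext j
  refine Fin.cases ?_ (fun j => ?_) j
  · simp
  · simp [Fin.succ_succAbove_succ]

theorem ht_bd_cone (k : ℕ) (p : P) (c : HtC R P (k + 1)) :
    htBd R P (k + 1) (htCone R (k + 1) p c) = c - htCone R k p (htBd R P k c) := by
  refine ht_ext (f := htBd R P (k + 1) ∘ₗ htCone R (k + 1) p)
    (g := LinearMap.id - htCone R k p ∘ₗ htBd R P k) (fun v => ?_) c
  simp only [LinearMap.comp_apply, LinearMap.sub_apply, LinearMap.id_apply]
  rw [ht_cone_single, ht_bd_single, ht_bd_single, Fin.sum_univ_succ, ht_cons_zero, map_sum,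
    sub_eq_add_neg, ← Finset.sum_neg_distrib]
  simp only [Fin.val_zero, pow_zero, one_smul, add_right_inj]
  refine Finset.sum_congr rfl fun i _ => ?_
  rw [ht_cons_succ, map_smul, ht_cone_single, Fin.val_succ, pow_succ, mul_neg_one, neg_smul]

theorem ht_bd_cone_zero (p : P) (v : Fin 1 → P) : htBd R P 0 (htCone R 0 p (Finsupp.single v 1)) =
    Finsupp.single v 1 - Finsupp.single (fun _ => p) 1 := by
  have h : (Fin.cons p v : Fin 2 → P) ∘ (1 : Fin 2).succAbove = fun _ => p := by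
    funext j
    fin_cases j
    rfl
  rw [ht_cone_single, ht_bd_single, Fin.sum_univ_two, ht_cons_zero, h]
  simp [sub_eq_add_neg]

theorem ht_bd_cone_bd (p : P) (c : HtC R P 1) :
    htBd R P 0 (htCone R 0 p (htBd R P 0 c)) = htBd R P 0 c := by
  refine ht_ext (f := htBd R P 0 ∘ₗ htCone R 0 p ∘ₗ htBd R P 0) (g := htBd R P 0) (fun v => ?_) c
  rw [LinearMap.comp_apply, LinearMap.comp_apply, ht_bd_single, Fin.sum_univ_two]
  simp only [map_add, map_smul, ht_bd_cone_zero]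
  simp [← sub_eq_add_neg]

theorem ht_bd_bd (k : ℕ) (c : HtC R P (k + 2)) : htBd R P k (htBd R P (k + 1) c) = 0 := by
  induction k with
  | zero =>
    refine ht_ext (f := htBd R P 0 ∘ₗ htBd R P 1) (g := 0) (fun v => ?_) c
    rw [← Fin.cons_self_tail v, ← ht_cone_single, LinearMap.comp_apply, ht_bd_cone, map_sub,
      ht_bd_cone_bd]
    simp
  | succ k ih =>
    refine ht_ext (f := htBd R P (k + 1) ∘ₗ htBd R P (k + 2)) (g := 0) (fun v => ?_) c
    rw [← Fin.cons_self_tail v, ← ht_cone_single, LinearMap.comp_apply, ht_bd_cone, map_sub,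
      ht_bd_cone, ih]
    simp

theorem ht_map_bd (φ : P → P') (k : ℕ) (c : HtC R P (k + 1)) :
    htMap R k φ (htBd R P k c) = htBd R P' k (htMap R (k + 1) φ c) := by
  refine ht_ext (f := htMap R k φ ∘ₗ htBd R P k) (g := htBd R P' k ∘ₗ htMap R (k + 1) φ)
    (fun v => ?_) c
  rw [LinearMap.comp_apply, LinearMap.comp_apply, ht_map_single, ht_bd_single, ht_bd_single,
    map_sum]
  refine Finset.sum_congr rfl fun i _ => ?_
  rw [map_smul, ht_map_single]
  rfl

theorem ht_map_cone (φ : P → P') (k : ℕ) (p : P) (c : HtC R P k) :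
    htMap R (k + 1) φ (htCone R k p c) = htCone R k (φ p) (htMap R k φ c) := by
  refine ht_ext (f := htMap R (k + 1) φ ∘ₗ htCone R k p) (g := htCone R k (φ p) ∘ₗ htMap R k φ)
    (fun v => ?_) c
  rw [LinearMap.comp_apply, LinearMap.comp_apply, ht_cone_single, ht_map_single,
    ht_map_single, ht_cone_single, Fin.comp_cons]

theorem ht_map_pr (φ : P → P') (k : ℕ) (c : HtC R P k) :
    htMap R (k + 1) (Prod.map id φ) (htPr R P k c) = htPr R P' k (htMap R k φ c) := by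
  induction k with
  | zero =>
    refine ht_ext (f := htMap R 1 (Prod.map id φ) ∘ₗ htPr R P 0) (g := htPr R P' 0 ∘ₗ htMap R 0 φ)
      (fun v => ?_) c
    rw [LinearMap.comp_apply, LinearMap.comp_apply, ht_pr_zero, ht_map_cone, map_sub,
      ht_map_single, ht_map_single, ht_map_single, ht_pr_zero]
    rfl
  | succ k ih =>
    refine ht_ext (f := htMap R (k + 2) (Prod.map id φ) ∘ₗ htPr R P (k + 1))
      (g := htPr R P' (k + 1) ∘ₗ htMap R (k + 1) φ) (fun v => ?_) c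
    rw [LinearMap.comp_apply, LinearMap.comp_apply, ht_pr_succ, ht_map_cone,
      map_sub (htMap R _ _), map_sub (htMap R _ _), ih, ht_map_bd, ht_map_single, ht_map_single, ht_map_single, ht_pr_succ]
    rfl

theorem ht_bd_pr_zero (c : HtC R P 0) : htBd R _ 0 (htPr R P 0 c) =
    htMap R 0 (Prod.mk 1) c - htMap R 0 (Prod.mk 0) c := by
  refine ht_ext (f := htBd R _ 0 ∘ₗ htPr R P 0) (g := htMap R 0 (Prod.mk 1) - htMap R 0 (Prod.mk 0))
    (fun v => ?_) c
  rw [LinearMap.comp_apply, LinearMap.sub_apply, ht_pr_zero, map_sub, map_sub, ht_bd_cone_zero,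
    ht_bd_cone_zero, ht_map_single, ht_map_single, sub_sub_sub_cancel_right]

theorem ht_bd_pr (k : ℕ) (c : HtC R P (k + 1)) :
    htBd R _ (k + 1) (htPr R P (k + 1) c) + htPr R P k (htBd R P k c) =
      htMap R (k + 1) (Prod.mk 1) c - htMap R (k + 1) (Prod.mk 0) c := by
  induction k with
  | zero =>
    refine ht_ext (f := htBd R _ 1 ∘ₗ htPr R P 1 + htPr R P 0 ∘ₗ htBd R P 0)
      (g := htMap R 1 (Prod.mk 1) - htMap R 1 (Prod.mk 0)) (fun v => ?_) c
    simp only [LinearMap.comp_apply, LinearMap.add_apply, LinearMap.sub_apply]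
    rw [ht_pr_succ, ht_bd_cone, map_sub (htBd R _ 0), map_sub (htBd R _ 0), ht_bd_pr_zero,
      ht_map_bd, ht_map_bd, ht_map_single, ht_map_single, sub_self, map_zero, sub_zero,
      sub_add_cancel]
  | succ k ih =>
    refine ht_ext (f := htBd R _ (k + 2) ∘ₗ htPr R P (k + 2) + htPr R P (k + 1) ∘ₗ htBd R P (k + 1))
      (g := htMap R (k + 2) (Prod.mk 1) - htMap R (k + 2) (Prod.mk 0)) (fun v => ?_) c
    simp only [LinearMap.comp_apply, LinearMap.add_apply, LinearMap.sub_apply]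
    have h := ih (htBd R P (k + 1) (Finsupp.single v 1))
    rw [ht_bd_bd, map_zero, add_zero] at h
    rw [ht_pr_succ, ht_bd_cone, map_sub (htBd R _ (k + 1)), map_sub (htBd R _ (k + 1)), h,
      ht_map_bd, ht_map_bd, ht_map_single, ht_map_single, sub_self, map_zero, sub_zero,
      sub_add_cancel]

end formal

/-- The affine simplex in the prism with the given vertices. -/
def htRho {n k : ℕ} (w : Fin (k + 1) → Fin 2 × Fin (n + 1)) : Simp (ℝ × Dl n) k :=
  ⟨fun t => (stdSimplex.map (Prod.fst ∘ w) t 1, stdSimplex.map (Prod.snd ∘ w) t),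
    ((continuous_apply (1 : Fin 2)).comp (continuous_subtype_val.comp
      (stdSimplex.continuous_map _))).prodMk (stdSimplex.continuous_map _)⟩

theorem ht_rho_range {n k : ℕ} (w : Fin (k + 1) → Fin 2 × Fin (n + 1)) :
    range (htRho w) ⊆ Icc (0 : ℝ) 1 ×ˢ univ := by
  rintro _ ⟨t, rfl⟩
  exact ⟨⟨stdSimplex.zero_le _ _, stdSimplex.le_one _ _⟩, mem_univ _⟩

theorem ht_sub_rho {n k j : ℕ} (w : Fin (k + 1) → Fin 2 × Fin (n + 1))
    (v : Fin (j + 1) → Fin (k + 1)) : sub (htRho w) v = htRho (w ∘ v) := by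
  refine ContinuousMap.ext fun t => ?_
  change (stdSimplex.map (Prod.fst ∘ w) (stdSimplex.map v t) 1,
    stdSimplex.map (Prod.snd ∘ w) (stdSimplex.map v t)) = _
  rw [stdSimplex.map_comp_apply, stdSimplex.map_comp_apply]
  rfl

variable (R) in
/-- Realisation of formal chains in the prism over `σ`. -/
def htRe (H : ℝ → X → Y) {n : ℕ} (σ : Simp X n) (k : ℕ) :
    HtC R (Fin 2 × Fin (n + 1)) k →ₗ[R] Chn R Y k :=
  Finsupp.lmapDomain R R fun w => smap (fun p : ℝ × Dl n => H p.1 (σ p.2)) (htRho w)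

section real

variable {H : ℝ → X → Y} {S : Set X}

theorem ht_re_single {n : ℕ} (σ : Simp X n) (k : ℕ) (w : Fin (k + 1) → Fin 2 × Fin (n + 1)) :
    htRe R H σ k (Finsupp.single w 1) =
      Finsupp.single (smap (fun p : ℝ × Dl n => H p.1 (σ p.2)) (htRho w)) 1 := by
  simp [htRe]

theorem ht_cont (hH : ContinuousOn (fun p : ℝ × X => H p.1 p.2) (Icc 0 1 ×ˢ S)) {n : ℕ}
    {σ : Simp X n} (hσ : range σ ⊆ S) :
    ContinuousOn (fun p : ℝ × Dl n => H p.1 (σ p.2)) (Icc 0 1 ×ˢ univ) :=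
  hH.comp (f := fun p : ℝ × Dl n => (p.1, σ p.2)) (by fun_prop)
    fun p hp => ⟨hp.1, hσ ⟨p.2, rfl⟩⟩

theorem ht_bd_re (hH : ContinuousOn (fun p : ℝ × X => H p.1 p.2) (Icc 0 1 ×ˢ S)) {n : ℕ}
    {σ : Simp X n} (hσ : range σ ⊆ S) (k : ℕ) (c : HtC R (Fin 2 × Fin (n + 1)) (k + 1)) :
    bd R Y k (htRe R H σ (k + 1) c) = htRe R H σ k (htBd R _ k c) := by
  refine ht_ext (f := bd R Y k ∘ₗ htRe R H σ (k + 1)) (g := htRe R H σ k ∘ₗ htBd R _ k)
    (fun w => ?_) c
  rw [LinearMap.comp_apply, LinearMap.comp_apply, ht_re_single, bd_single, ht_bd_single, map_sum]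
  refine Finset.sum_congr rfl fun i _ => ?_
  rw [map_smul, ht_re_single, ← ht_sub_rho, smap_sub (ht_cont hH hσ) (ht_rho_range w)]

theorem ht_re_sub (hH : ContinuousOn (fun p : ℝ × X => H p.1 p.2) (Icc 0 1 ×ˢ S)) {n m : ℕ}
    {σ : Simp X n} (hσ : range σ ⊆ S) (v : Fin (m + 1) → Fin (n + 1)) (k : ℕ)
    (c : HtC R (Fin 2 × Fin (m + 1)) k) :
    htRe R H (sub σ v) k c = htRe R H σ k (htMap R k (Prod.map id v) c) := by
  refine ht_ext (f := htRe R H (sub σ v) k) (g := htRe R H σ k ∘ₗ htMap R k (Prod.map id v))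
    (fun w => ?_) c
  rw [LinearMap.comp_apply, ht_map_single, ht_re_single, ht_re_single]
  congr 1
  refine ContinuousMap.ext fun t => ?_
  rw [smap_apply (ht_cont hH ((range_sub σ v).trans hσ)) (ht_rho_range w),
    smap_apply (ht_cont hH hσ) (ht_rho_range _)]
  change H _ (σ (stdSimplex.map v (stdSimplex.map (Prod.snd ∘ w) t))) = _
  rw [stdSimplex.map_comp_apply]
  rfl

theorem ht_re_end (hH : ContinuousOn (fun p : ℝ × X => H p.1 p.2) (Icc 0 1 ×ˢ S)) {n : ℕ}
    {σ : Simp X n} (hσ : range σ ⊆ S) (j : Fin 2) {s : ℝ} (hs : s ∈ Icc (0 : ℝ) 1)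
    (e : ∀ t : Dl n, stdSimplex.map (fun _ => j) t 1 = s) :
    htRe R H σ n (htMap R n (Prod.mk j) (Finsupp.single id 1)) =
      cmap R (H s) n (Finsupp.single σ 1) := by
  have hc : ContinuousOn (H s) S :=
    hH.comp (f := fun x : X => (s, x)) (by fun_prop) fun x hx => ⟨hs, hx⟩
  rw [ht_map_single, ht_re_single, cmap_single]
  congr 1
  refine ContinuousMap.ext fun t => ?_
  rw [smap_apply (ht_cont hH hσ) (ht_rho_range _), smap_apply hc hσ]
  change H (stdSimplex.map (fun _ => j) t 1) (σ (stdSimplex.map id t)) = _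
  rw [e, stdSimplex.map_id_apply]

theorem ht_re_ends (hH : ContinuousOn (fun p : ℝ × X => H p.1 p.2) (Icc 0 1 ×ˢ S)) {n : ℕ}
    {σ : Simp X n} (hσ : range σ ⊆ S) :
    htRe R H σ n (htMap R n (Prod.mk 1) (Finsupp.single id 1) -
      htMap R n (Prod.mk 0) (Finsupp.single id 1)) =
      cmap R (H 1) n (Finsupp.single σ 1) - cmap R (H 0) n (Finsupp.single σ 1) := by
  rw [map_sub, ht_re_end hH hσ 1 (s := 1) ⟨zero_le_one, le_rfl⟩ fun t => by
      simp [FunOnFinite.linearMap_apply_apply],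
    ht_re_end hH hσ 0 (s := 0) ⟨le_rfl, zero_le_one⟩ fun t => by
      simp [FunOnFinite.linearMap_apply_apply]]

end real

theorem exists_prism (H : ℝ → X → Y) (S : Set X)
    (hH : ContinuousOn (fun p : ℝ × X => H p.1 p.2) (Icc 0 1 ×ˢ S)) :
    ∃ P : ∀ n, Chn R X n →ₗ[R] Chn R Y (n + 1),
    (∀ c ∈ chn R S 0, bd R Y 0 (P 0 c) = cmap R (H 1) 0 c - cmap R (H 0) 0 c) ∧
    (∀ n, ∀ c ∈ chn R S (n + 1), bd R Y (n + 1) (P (n + 1) c) + P n (bd R X n c) =
      cmap R (H 1) (n + 1) c - cmap R (H 0) (n + 1) c) ∧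
    ∀ (T : Set X) (T' : Set Y), T ⊆ S → (∀ s ∈ Icc (0 : ℝ) 1, ∀ x ∈ T, H s x ∈ T') →
      ∀ n, ∀ c ∈ chn R T n, P n c ∈ chn R T' (n + 1) := by
  let P : ∀ n, Chn R X n →ₗ[R] Chn R Y (n + 1) := fun n => Finsupp.linearCombination R
    fun σ : Simp X n => htRe R H σ (n + 1) (htPr R _ n (Finsupp.single id 1))
  have hP : ∀ n (σ : Simp X n), P n (Finsupp.single σ 1) =
      htRe R H σ (n + 1) (htPr R _ n (Finsupp.single id 1)) := fun n σ => by
    rw [Finsupp.linearCombination_single, one_smul]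
  refine ⟨P, fun c hc => ?_, fun n c hc => ?_, fun T T' hT hT' n c hc => ?_⟩
  · refine ht_ext_on (f := bd R Y 0 ∘ₗ P 0) (g := cmap R (H 1) 0 - cmap R (H 0) 0)
      (fun σ hσ => ?_) hc
    rw [LinearMap.comp_apply, LinearMap.sub_apply, hP, ht_bd_re hH hσ, ht_bd_pr_zero,
      ht_re_ends hH hσ]
  · refine ht_ext_on (f := bd R Y (n + 1) ∘ₗ P (n + 1) + P n ∘ₗ bd R X n)
      (g := cmap R (H 1) (n + 1) - cmap R (H 0) (n + 1)) (fun σ hσ => ?_) hc
    rw [LinearMap.add_apply, LinearMap.comp_apply, LinearMap.comp_apply, LinearMap.sub_apply, hP,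
      ht_bd_re hH hσ, ← ht_re_ends hH hσ, ← ht_bd_pr, map_add, bd_single, ht_bd_single, map_sum,
      map_sum, map_sum]
    congr 1
    refine Finset.sum_congr rfl fun i _ => ?_
    rw [map_smul, map_smul, map_smul, hP, ht_re_sub hH hσ, ht_map_pr, ht_map_single]
    rfl
  · refine ht_mem_on (fun σ hσ => ?_) hc
    rw [hP]
    refine ht_mem_on (A := univ) (fun w _ => ?_) (by rw [Finsupp.supported_univ]; trivial)
    rw [ht_re_single]
    refine single_mem ?_ 1
    rintro _ ⟨t, rfl⟩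
    rw [smap_apply (ht_cont hH (Subset.trans hσ hT)) (ht_rho_range w)]
    exact hT' _ (ht_rho_range w ⟨t, rfl⟩).1 _ (hσ ⟨_, rfl⟩)

theorem htpy_cyc (H : ℝ → X → Y) {S : Set X} {S' : Set Y}
    (hH : ContinuousOn (fun p : ℝ × X => H p.1 p.2) (Icc 0 1 ×ˢ S))
    (hS : ∀ s ∈ Icc (0 : ℝ) 1, ∀ x ∈ S, H s x ∈ S') {n : ℕ} {c : Chn R X n} (hc : c ∈ cyc R S n) :
    cmap R (H 1) n c - cmap R (H 0) n c ∈ bdy R S' n := by
  obtain ⟨P, h0, h1, h2⟩ := exists_prism (R := R) H S hH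
  refine ⟨P n c, h2 S S' Subset.rfl hS n c (cyc_le S n hc), ?_⟩
  cases n with
  | zero => exact h0 c hc
  | succ n =>
    have := h1 n c hc.1
    rwa [show bd R X n c = 0 from hc.2, map_zero, add_zero] at this

theorem htpy_rel (H : ℝ → X → Y) {S T : Set X} {S' T' : Set Y}
    (hH : ContinuousOn (fun p : ℝ × X => H p.1 p.2) (Icc 0 1 ×ˢ S))
    (hS : ∀ s ∈ Icc (0 : ℝ) 1, ∀ x ∈ S, H s x ∈ S')
    (hT : ∀ s ∈ Icc (0 : ℝ) 1, ∀ x ∈ S ∩ T, H s x ∈ T') {n : ℕ} {c : Chn R X (n + 1)}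
    (hc : c ∈ chn R S (n + 1)) (hb : bd R X n c ∈ chn R T n) :
    cmap R (H 1) (n + 1) c - cmap R (H 0) (n + 1) c ∈ bdy R S' (n + 1) ⊔ chn R T' (n + 1) := by
  obtain ⟨P, -, h1, h2⟩ := exists_prism (R := R) H S hH
  rw [← h1 n c hc]
  refine Submodule.add_mem_sup ⟨_, h2 S S' Subset.rfl hS _ c hc, rfl⟩
    (h2 (S ∩ T) T' inter_subset_left hT n _ ?_)
  rw [chn_inter]
  exact ⟨bd_mem hc, hb⟩

end HK3
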