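import Pool.Agent.P.MP_9699e0_gt.Ht

/-! Winding cochains. -/

set_option autoImplicit false
set_option linter.unusedSectionVars false

noncomputable section

namespace HK3

open Pool.Agent.P.MP_9699e0_gt Set Filter Topology
open scoped ContDiff

variable {R : Type} [CommRing R] {X Y Z : Type} [TopologicalSpace X] [TopologicalSpace Y]
  [TopologicalSpace Z]

theorem ex_add (s t : ℝ) : ex (s + t) = ex s * ex t := by
  unfold ex
  rw [← Complex.exp_add]
  congr 1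
  push_cast
  ring

theorem ex_zero : ex 0 = 1 := by
  simp [ex]

theorem norm_ex (s : ℝ) : ‖ex s‖ = 1 := by
  unfold ex
  have h : (2 * Real.pi * s * Complex.I : ℂ) = ((2 * Real.pi * s : ℝ) : ℂ) * Complex.I := by
    push_cast
    ring
  rw [h, Complex.norm_exp_ofReal_mul_I]

theorem ex_ne (s : ℝ) : ex s ≠ 0 := Complex.exp_ne_zero _

theorem ex_neg (s : ℝ) : ex (-s) = (starRingEnd ℂ) (ex s) := by
  unfold ex
  rw [← Complex.exp_conj]
  congr 1
  simp only [map_mul, Complex.conj_ofReal, Complex.conj_I, map_ofNat]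
  push_cast
  ring

theorem ex_int (m : ℤ) : ex m = 1 := by
  unfold ex
  rw [← Complex.exp_int_mul_two_pi_mul_I m]
  congr 1
  push_cast
  ring

theorem ex_half (m : ℤ) : ex (m / 2) = (-1 : ℂ) ^ m := by
  unfold ex
  rw [← Complex.exp_pi_mul_I, ← Complex.exp_int_mul]
  congr 1
  push_cast
  ring

theorem ex_eq_iff {s t : ℝ} : ex s = ex t ↔ ∃ m : ℤ, s = t + m := by
  constructor
  · intro h
    unfold ex at h
    obtain ⟨m, hm⟩ := Complex.exp_eq_exp_iff_exists_int.1 h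
    refine ⟨m, ?_⟩
    have h2 : (2 * Real.pi * Complex.I : ℂ) ≠ 0 := Complex.two_pi_I_ne_zero
    have h3 : (s : ℂ) = t + m := by
      apply mul_left_cancel₀ h2
      linear_combination hm
    exact_mod_cast h3
  · rintro ⟨m, rfl⟩
    rw [ex_add, ex_int, mul_one]

theorem continuous_ex : Continuous ex := by
  unfold ex
  fun_prop

theorem exists_ex (z : ℂ) : ∃ s : ℝ, z = ‖z‖ * ex s := by
  refine ⟨Complex.arg z / (2 * Real.pi), ?_⟩
  unfold ex
  have h : (2 * Real.pi * ((Complex.arg z / (2 * Real.pi) : ℝ) : ℂ) * Complex.I : ℂ) =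
      Complex.arg z * Complex.I := by
    have : (Real.pi : ℂ) ≠ 0 := by exact_mod_cast Real.pi_ne_zero
    push_cast
    field_simp
  rw [h]
  exact (Complex.norm_mul_exp_arg_mul_I z).symm

/-- Two continuous arguments of the same function differ by a constant. -/
theorem Wd_diff {A : Type} [TopologicalSpace A] [PreconnectedSpace A] {θ φ : A → ℝ}
    (hθ : Continuous θ) (hφ : Continuous φ) (e : ∀ t, ex (θ t) = ex (φ t)) (s t : A) :
    θ s - θ t = φ s - φ t := by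
  choose m hm using fun t => ex_eq_iff.1 (e t)
  have hc : Continuous fun t => ((m t : ℤ) : ℝ) := by
    have : (fun t => ((m t : ℤ) : ℝ)) = fun t => θ t - φ t := by
      funext t
      rw [hm t]
      ring
    rw [this]
    exact hθ.sub hφ
  have hm' : Continuous m := Int.isClosedEmbedding_coe_real.isEmbedding.continuous_iff.2 hc
  have : m s = m t := PreconnectedSpace.constant inferInstance hm'
  rw [hm s, hm t, this]
  ring

theorem wp_eq {γ : Dl 1 → ℂ} (h : ∀ t, γ t ≠ 0) {θ : Dl 1 → ℝ} (hθ : Continuous θ)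
    (e : ∀ t, γ t = ‖γ t‖ * ex (θ t)) :
    wp γ = θ (stdSimplex.vertex 1) - θ (stdSimplex.vertex 0) := by
  have hx : ∃ θ : C(Dl 1, ℝ), ∀ t, γ t = ‖γ t‖ * ex (θ t) := ⟨⟨θ, hθ⟩, e⟩
  unfold wp
  rw [dif_pos hx]
  refine Wd_diff hx.choose.continuous hθ (fun t => ?_) _ _
  have h1 := hx.choose_spec t
  have h2 : ((‖γ t‖ : ℝ) : ℂ) ≠ 0 := by exact_mod_cast norm_ne_zero_iff.2 (h t)
  exact mul_left_cancel₀ h2 (h1.symm.trans (e t))

/-- Continuous arguments on simplices. -/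
theorem exists_arg {n : ℕ} {γ : Dl n → ℂ} (hc : Continuous γ) (h : ∀ t, γ t ≠ 0) :
    ∃ θ : Dl n → ℝ, Continuous θ ∧ ∀ t, γ t = ‖γ t‖ * ex (θ t) := by
  have : ContractibleSpace (Dl n) :=
    (convex_stdSimplex ℝ (Fin (n + 1))).contractibleSpace ⟨_, (stdSimplex.vertex 0).2⟩
  have : LocallyPathConnectedSpace (Dl n) :=
    (convex_stdSimplex ℝ (Fin (n + 1))).locallyPathConnectedSpace
  obtain ⟨F, ⟨-, hF⟩, -⟩ := Complex.isCoveringMapOn_exp.existsUnique_continuousMap_lifts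
    (⟨γ, hc⟩ : C(Dl n, ℂ)) (a₀ := stdSimplex.vertex 0) (Complex.exp_log (h _)) (fun t => h t)
  refine ⟨fun t => (F t).im / (2 * Real.pi), by fun_prop, fun t => ?_⟩
  have h1 : Complex.exp (F t) = γ t := congrFun hF t
  have h2 : (2 * Real.pi * (((F t).im / (2 * Real.pi) : ℝ) : ℂ) * Complex.I : ℂ) =
      (F t).im * Complex.I := by
    have : (Real.pi : ℂ) ≠ 0 := by exact_mod_cast Real.pi_ne_zero
    push_cast
    field_simp
  unfold ex
  rw [h2, ← h1, Complex.norm_exp, Complex.ofReal_exp, ← Complex.exp_add, Complex.re_add_im]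

theorem wp_mul {γ δ : Dl 1 → ℂ} (hγ : Continuous γ) (hδ : Continuous δ) (h : ∀ t, γ t ≠ 0)
    (h' : ∀ t, δ t ≠ 0) : wp (fun t => γ t * δ t) = wp γ + wp δ := by
  obtain ⟨θ, hθ, e⟩ := exists_arg hγ h
  obtain ⟨φ, hφ, e'⟩ := exists_arg hδ h'
  rw [wp_eq h hθ e, wp_eq h' hφ e', wp_eq (γ := fun t => γ t * δ t) (θ := fun t => θ t + φ t)
    (fun t => mul_ne_zero (h t) (h' t)) (hθ.add hφ)]
  · ring
  · intro t
    rw [ex_add, norm_mul]
    push_cast
    linear_combination (δ t) * e t + (‖γ t‖ * ex (θ t)) * e' t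

theorem wp_inv {γ : Dl 1 → ℂ} (hγ : Continuous γ) (h : ∀ t, γ t ≠ 0) :
    wp (fun t => (γ t)⁻¹) = -wp γ := by
  obtain ⟨θ, hθ, e⟩ := exists_arg hγ h
  rw [wp_eq h hθ e, wp_eq (γ := fun t => (γ t)⁻¹) (θ := fun t => -θ t)
    (fun t => inv_ne_zero (h t)) hθ.neg]
  · ring
  · intro t
    have h1 : ex (-θ t) = (ex (θ t))⁻¹ := by
      apply eq_inv_of_mul_eq_one_left
      rw [← ex_add, neg_add_cancel, ex_zero]
    rw [h1, norm_inv]
    push_cast
    rw [← mul_inv, ← e t]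

theorem wp_conj {γ : Dl 1 → ℂ} (hγ : Continuous γ) (h : ∀ t, γ t ≠ 0) :
    wp (fun t => (starRingEnd ℂ) (γ t)) = -wp γ := by
  obtain ⟨θ, hθ, e⟩ := exists_arg hγ h
  rw [wp_eq h hθ e, wp_eq (γ := fun t => (starRingEnd ℂ) (γ t)) (θ := fun t => -θ t)
    (fun t => (map_ne_zero _).2 (h t)) hθ.neg]
  · ring
  · intro t
    rw [ex_neg, Complex.norm_conj]
    conv_lhs => rw [e t]
    rw [map_mul, Complex.conj_ofReal]

theorem wp_const (z : ℂ) (hz : z ≠ 0) : wp (fun _ => z) = 0 := by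
  obtain ⟨s, hs⟩ := exists_ex z
  rw [wp_eq (γ := fun _ => z) (θ := fun _ => s) (fun _ => hz) continuous_const (fun _ => hs)]
  exact sub_self _

theorem wp_arg {γ : Dl 1 → ℂ} (hγ : Continuous γ) (h : ∀ t, γ t ≠ 0) :
    γ (stdSimplex.vertex 1) / γ (stdSimplex.vertex 0) =
      ‖γ (stdSimplex.vertex 1) / γ (stdSimplex.vertex 0)‖ * ex (wp γ) := by
  obtain ⟨θ, hθ, e⟩ := exists_arg hγ h
  rw [wp_eq h hθ e, norm_div]
  have h0 : ((‖γ (stdSimplex.vertex 0)‖ : ℝ) : ℂ) ≠ 0 := by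
    exact_mod_cast norm_ne_zero_iff.2 (h _)
  have h1 : ex (θ (stdSimplex.vertex 1)) =
      ex (θ (stdSimplex.vertex 1) - θ (stdSimplex.vertex 0)) * ex (θ (stdSimplex.vertex 0)) := by
    rw [← ex_add, sub_add_cancel]
  have h2 := ex_ne (θ (stdSimplex.vertex 0))
  conv_lhs => rw [e (stdSimplex.vertex 1), e (stdSimplex.vertex 0), h1]
  push_cast
  field_simp

/-- The cocycle identity on a triangle. -/
theorem wp_tri {γ : Dl 2 → ℂ} (hγ : Continuous γ) (h : ∀ t, γ t ≠ 0) :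
    ∑ i : Fin 3, (-1 : ℤ) ^ (i : ℕ) • wp (fun t => γ (stdSimplex.map i.succAbove t)) = 0 := by
  obtain ⟨θ, hθ, e⟩ := exists_arg hγ h
  have key : ∀ i : Fin 3, wp (fun t => γ (stdSimplex.map i.succAbove t)) =
      θ (stdSimplex.vertex (i.succAbove 1)) - θ (stdSimplex.vertex (i.succAbove 0)) := by
    intro i
    rw [wp_eq (γ := fun t => γ (stdSimplex.map i.succAbove t))
      (θ := fun t => θ (stdSimplex.map i.succAbove t)) (fun t => h _)
      (hθ.comp (stdSimplex.continuous_map _)) (fun t => e _), stdSimplex.map_vertex,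
      stdSimplex.map_vertex]
  have a1 : (0 : Fin 3).succAbove 1 = 2 := by decide
  have a2 : (0 : Fin 3).succAbove 0 = 1 := by decide
  have a3 : (1 : Fin 3).succAbove 1 = 2 := by decide
  have a4 : (1 : Fin 3).succAbove 0 = 0 := by decide
  have a5 : (2 : Fin 3).succAbove 1 = 1 := by decide
  have a6 : (2 : Fin 3).succAbove 0 = 0 := by decide
  rw [Fin.sum_univ_three, key, key, key, a1, a2, a3, a4, a5, a6]
  simp

theorem cobd_wd {g : X → ℂ} {S : Set X} (h : NZ g S) {σ : Simp X 2} (hσ : range σ ⊆ S) :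
    cobd (wd g) σ = 0 :=
  wp_tri (γ := g ∘ σ) (h.1.comp_continuous σ.continuous fun t => hσ ⟨t, rfl⟩)
    fun t => h.2 _ (hσ ⟨t, rfl⟩)

theorem wd_eq {g : X → ℂ} {S : Set X} (h : ∀ x ∈ S, g x ≠ 0) {a : X → ℝ} (ha : ContinuousOn a S)
    (e : ∀ x ∈ S, g x = ‖g x‖ * ex (a x)) {σ : Simp X 1} (hσ : range σ ⊆ S) :
    wd g σ = cobd (pt a) σ := by
  rw [cobd_pt]
  exact wp_eq (γ := g ∘ σ) (θ := a ∘ σ) (fun t => h _ (hσ ⟨t, rfl⟩))
    (ha.comp_continuous σ.continuous fun t => hσ ⟨t, rfl⟩) fun t => e _ (hσ ⟨t, rfl⟩)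

theorem wd_smap (g : Y → ℂ) {f : X → Y} {S : Set X} (hf : ContinuousOn f S) {σ : Simp X 1}
    (hσ : range σ ⊆ S) : wd g (smap f σ) = wd (g ∘ f) σ := by
  unfold wd
  congr 1
  funext t
  exact congrArg g (smap_apply hf hσ t)

theorem wd_congr {g g' : X → ℂ} {S : Set X} (h : EqOn g g' S) {σ : Simp X 1} (hσ : range σ ⊆ S) :
    wd g σ = wd g' σ := by
  unfold wd
  congr 1
  funext t
  exact h (hσ ⟨t, rfl⟩)

variable [Module R ℝ]

theorem ev_wd_bdy {g : X → ℂ} {S : Set X} (h : NZ g S) {c : Chn R X 1} (hc : c ∈ bdy R S 1) :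
    ev R (wd g) c = 0 := by
  obtain ⟨d, hd, rfl⟩ := Submodule.mem_map.1 hc
  rw [ev_bd, ev_congr_chn (b := -cobd (wd g)) hd, ev_neg]
  · have h1 : ev R (cobd (wd g)) d = ev R (cobd (wd g) + cobd (wd g)) d :=
      ev_congr_chn hd fun σ hσ => by rw [Pi.add_apply, cobd_wd h hσ, add_zero]
    rw [ev_add] at h1
    linarith
  · intro σ hσ
    rw [Pi.neg_apply, cobd_wd h hσ, neg_zero]

theorem ev_wd_cmap (g : Y → ℂ) {f : X → Y} {S : Set X} (hf : ContinuousOn f S) {c : Chn R X 1}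
    (hc : c ∈ chn R S 1) : ev R (wd g) (cmap R f 1 c) = ev R (wd (g ∘ f)) c := by
  rw [ev_cmap]
  exact ev_congr_chn hc fun σ hσ => wd_smap g hf hσ

theorem ev_wd_conj {g : X → ℂ} {S : Set X} (h : NZ g S) {c : Chn R X 1} (hc : c ∈ chn R S 1) :
    ev R (wd fun x => (starRingEnd ℂ) (g x)) c = -ev R (wd g) c := by
  rw [← ev_neg]
  exact ev_congr_chn hc fun σ hσ =>
    wp_conj (γ := g ∘ σ) (h.1.comp_continuous σ.continuous fun t => hσ ⟨t, rfl⟩)
      fun t => h.2 _ (hσ ⟨t, rfl⟩)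

theorem ev_wd_mul {g g' : X → ℂ} {S : Set X} (h : NZ g S) (h' : NZ g' S) {c : Chn R X 1}
    (hc : c ∈ chn R S 1) : ev R (wd fun x => g x * g' x) c = ev R (wd g) c + ev R (wd g') c := by
  rw [← ev_add]
  exact ev_congr_chn hc fun σ hσ =>
    wp_mul (γ := g ∘ σ) (δ := g' ∘ σ) (h.1.comp_continuous σ.continuous fun t => hσ ⟨t, rfl⟩)
      (h'.1.comp_continuous σ.continuous fun t => hσ ⟨t, rfl⟩)
      (fun t => h.2 _ (hσ ⟨t, rfl⟩)) fun t => h'.2 _ (hσ ⟨t, rfl⟩)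

theorem ev_wd_htpy (H : ℝ → X → ℂ) {S : Set X}
    (hH : NZ (fun p : ℝ × X => H p.1 p.2) (Icc 0 1 ×ˢ S)) {c : Chn R X 1} (hc : c ∈ cyc R S 1) :
    ev R (wd (H 1)) c = ev R (wd (H 0)) c := by
  have h1 := htpy_cyc (R := R) (fun (s : ℝ) (x : X) => (s, x)) (S := S) (S' := Icc 0 1 ×ˢ S)
    continuousOn_id (fun s hs x hx => ⟨hs, hx⟩) hc
  have h2 := ev_wd_bdy hH h1
  have hc' := cyc_le S 1 hc
  rw [map_sub, ev_wd_cmap _ (S := S) (Continuous.prodMk_right (1 : ℝ)).continuousOn hc',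
    ev_wd_cmap _ (S := S) (Continuous.prodMk_right (0 : ℝ)).continuousOn hc'] at h2
  exact sub_eq_zero.1 h2

/-- The cycle of a loop. -/
theorem exists_loop (γ : ℝ → X) (hγ : ContinuousOn γ (Icc 0 1)) (h : γ 0 = γ 1) :
    ∃ c ∈ cyc R (γ '' Icc 0 1) 1, ∀ (g : X → ℂ) (θ : ℝ → ℝ), ContinuousOn θ (Icc 0 1) →
      (∀ t ∈ Icc (0 : ℝ) 1, g (γ t) ≠ 0 ∧ g (γ t) = ‖g (γ t)‖ * ex (θ t)) →
      ev R (wd g) c = θ 1 - θ 0 := by
  have hm : ∀ t : Dl 1, (t : Fin 2 → ℝ) 1 ∈ Icc (0 : ℝ) 1 := fun t =>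
    ⟨stdSimplex.zero_le t 1, stdSimplex.le_one t 1⟩
  have hc1 : Continuous fun t : Dl 1 => (t : Fin 2 → ℝ) 1 :=
    (continuous_apply 1).comp continuous_subtype_val
  have v1 : ((stdSimplex.vertex 1 : Dl 1) : Fin 2 → ℝ) 1 = 1 := by
    rw [stdSimplex.vertex_coe]
    simp
  have v0 : ((stdSimplex.vertex 0 : Dl 1) : Fin 2 → ℝ) 1 = 0 := by
    rw [stdSimplex.vertex_coe]
    simp
  let σ : Simp X 1 := ⟨fun t => γ ((t : Fin 2 → ℝ) 1), hγ.comp_continuous hc1 hm⟩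
  have hσ : range σ ⊆ γ '' Icc 0 1 := by
    rintro _ ⟨t, rfl⟩
    exact ⟨_, hm t, rfl⟩
  refine ⟨Finsupp.single σ 1, ⟨single_mem hσ 1, ?_⟩, fun g θ hθ e => ?_⟩
  · have hs : sub σ (0 : Fin 2).succAbove = sub σ (1 : Fin 2).succAbove := by
      ext t
      have ht : t = stdSimplex.vertex 0 := Subsingleton.elim _ _
      rw [ht]
      change vtx (sub σ (0 : Fin 2).succAbove) 0 = vtx (sub σ (1 : Fin 2).succAbove) 0
      rw [vtx_sub, vtx_sub]
      have a1 : (0 : Fin 2).succAbove 0 = 1 := by decide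
      have a2 : (1 : Fin 2).succAbove 0 = 0 := by decide
      rw [a1, a2]
      change γ (((stdSimplex.vertex 1 : Dl 1) : Fin 2 → ℝ) 1) =
        γ (((stdSimplex.vertex 0 : Dl 1) : Fin 2 → ℝ) 1)
      rw [v1, v0, h]
    change bd R X 0 (Finsupp.single σ 1) = 0
    rw [bd_single, Fin.sum_univ_two, hs]
    simp
  · rw [ev_single, one_smul]
    have := wp_eq (γ := g ∘ σ) (θ := fun t => θ ((t : Fin 2 → ℝ) 1)) (fun t => (e _ (hm t)).1)
      (hθ.comp_continuous hc1 hm) fun t => (e _ (hm t)).2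
    rw [v1, v0] at this
    exact this

end HK3
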