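import Pool.Agent.P.MP_9699e0_gt.Sm
import Pool.Agent.P.MP_9699e0_gt.Wd
import Pool.Agent.P.MP_9699e0_gt.Cup

/-! Existence of the local orientation class. -/

set_option autoImplicit false
set_option linter.unusedSectionVars false

noncomputable section

namespace HK3

open Pool.Agent.P.MP_9699e0_gt Set Filter Topology
open scoped ContDiff

theorem Om1_ev_zero {X M : Type} [TopologicalSpace X] [AddCommGroup M] {n : ℕ} (c : Chn ℤ X n) :
    ev ℤ (0 : Simp X n → M) c = 0 := by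
  have h := ev_add (R := ℤ) (0 : Simp X n → M) 0 c
  rw [add_zero] at h
  exact left_eq_add.1 h

theorem Om1_ex {x y : ℂ} {a b r : ℝ} (hx : x ≠ 0) (hy : y ≠ 0) (h1 : x = ‖x‖ * ex a)
    (h2 : y = ‖y‖ * ex b) (h3 : x / y = ‖x / y‖ * ex r) : ∃ m : ℤ, r = a - b + m := by
  refine ex_eq_iff.1 ?_
  have e1 : ex a = ex (a - b) * ex b := by rw [← ex_add, sub_add_cancel]
  have hx' : ((‖x‖ : ℝ) : ℂ) ≠ 0 := by exact_mod_cast norm_ne_zero_iff.2 hx
  have hy' : ((‖y‖ : ℝ) : ℂ) ≠ 0 := by exact_mod_cast norm_ne_zero_iff.2 hy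
  rw [norm_div, Complex.ofReal_div] at h3
  generalize ((‖x‖ : ℝ) : ℂ) = p at *
  generalize ((‖y‖ : ℝ) : ℂ) = q at *
  have hb := ex_ne b
  rw [h1, h2, e1] at h3
  field_simp at h3
  exact h3.symm

theorem Om1_cochain {X : Type} [TopologicalSpace X] {g : X → ℂ} (hg : Continuous g) :
    ∃ (w : Simp X 1 → ℝ) (m : Simp X 1 → ℤ), (∀ σ, ((cobd m σ : ℤ) : ℝ) = cobd w σ) ∧
      (∀ γ : Simp X 1, range γ ⊆ {x | g x ≠ 0} → w γ = wd g γ) ∧
      ∀ σ : Simp X 2, range σ ⊆ {x | g x ≠ 0} → cobd w σ = 0 := by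
  choose a ha using fun x => exists_ex (g x)
  have h : ∀ γ : Simp X 1, ∃ m : ℤ, range γ ⊆ {x | g x ≠ 0} → cobd (pt a) γ + m = wd g γ := by
    intro γ
    by_cases hγ : range γ ⊆ {x | g x ≠ 0}
    · have h0 : ∀ t, (g ∘ γ) t ≠ 0 := fun t => hγ (mem_range_self t)
      obtain ⟨m, hm⟩ := Om1_ex (h0 _) (h0 _) (ha _) (ha _) (wp_arg (hg.comp γ.continuous) h0)
      exact ⟨m, fun _ => by rw [cobd_pt]; exact hm.symm⟩
    · exact ⟨0, fun h => absurd h hγ⟩
  choose m hm using h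
  refine ⟨cobd (pt a) + fun γ => (m γ : ℝ), m, fun σ => ?_, hm, fun σ hσ => ?_⟩
  · rw [cobd_add, cobd_cobd, zero_add, cobd_cast]
  · exact (cobd_congr (b := wd g) hm hσ).trans (cobd_wd ⟨hg.continuousOn, fun x hx => hx⟩ hσ)

theorem exists_isOm : ∃ Ω, IsOm Ω := by
  obtain ⟨w, m, h1, h2, h3⟩ := Om1_cochain (X := E) continuous_fst
  obtain ⟨w', m', h1', h2', h3'⟩ := Om1_cochain (X := E) continuous_snd
  have hU : IsOpen {p : E | p.1 ≠ 0} := isOpen_ne_fun continuous_fst continuous_const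
  have hV : IsOpen {p : E | p.2 ≠ 0} := isOpen_ne_fun continuous_snd continuous_const
  have hS : ({0}ᶜ : Set E) ⊆ {p : E | p.1 ≠ 0} ∪ {p : E | p.2 ≠ 0} := by
    intro p hp
    by_contra h
    simp only [mem_union, mem_ofPred_eq, not_or, not_not] at h
    exact hp (Prod.ext h.1 h.2)
  have e0 : cup (cobd m) (cobd m') = cobd (cup12 m (cobd m')) := by
    funext σ
    rw [cobd_cup12, cobd_cobd, Pi.zero_apply, mul_zero, sub_zero]
  have hc : cobd (cup (cobd m) (cobd m')) = 0 := by rw [e0, cobd_cobd]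
  obtain ⟨b, hb, hb0⟩ := (small_two hU hV hS).cob (cup (cobd m) (cobd m'))
    (fun τ _ => congrFun hc τ) (by
      rintro σ - (hσ | hσ)
      · have h4 := (h1 _).trans (h3 (sub σ ![0, 1, 2]) ((range_sub σ _).trans hσ))
        rw [cup, Int.cast_eq_zero.1 h4, zero_mul]
      · have h4 := (h1' _).trans (h3' (sub σ ![2, 3, 4]) ((range_sub σ _).trans hσ))
        rw [cup, Int.cast_eq_zero.1 h4, mul_zero])
  refine ⟨cup (cobd m) (cobd m') + -cobd b, ?_, fun σ hσ => ?_, fun ζ η hη η' hη' h => ?_⟩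
  · rw [cobd_add, cobd_neg, cobd_cobd, hc, neg_zero, add_zero]
  · rw [Pi.add_apply, Pi.neg_apply, hb σ hσ, add_neg_cancel]
  · have b1 : ev ℤ b η = 0 :=
      (ev_congr_chn hη fun σ hσ => hb0 σ (Or.inl hσ)).trans (Om1_ev_zero η)
    have b2 : ev ℤ b η' = 0 :=
      (ev_congr_chn hη' fun σ hσ => hb0 σ (Or.inr hσ)).trans (Om1_ev_zero η')
    have e1 : (fun σ => ((cup (cobd m) (cobd m') σ : ℤ) : ℝ)) = cup (cobd w) (cobd w') := by
      funext σ
      rw [cup, cup, Int.cast_mul, h1, h1']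
    have e2 : bd ℤ E 2 η = -bd ℤ E 2 η' := by
      rw [eq_neg_iff_add_eq_zero, ← map_add, ← h, bd_bd]
    have e3 : bd ℤ E 2 η ∈ chn ℤ ({p : E | p.1 ≠ 0} ∩ {p : E | p.2 ≠ 0}) 2 := by
      rw [chn_inter]
      exact ⟨bd_mem hη, by rw [e2]; exact neg_mem (bd_mem hη')⟩
    rw [ev_add, ev_neg, ← ev_bd, h, map_add, b1, b2, add_zero, neg_zero, add_zero, ev_cast, e1,
      ev_cup_local (B := univ) (U := {p : E | p.1 ≠ 0}) (V := {p : E | p.2 ≠ 0}) w w'
        (fun σ hσ => h3 σ (hσ.trans inter_subset_right))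
        (fun σ hσ => h3' σ (hσ.trans inter_subset_right))
        (by rwa [univ_inter]) (by rwa [univ_inter]) h]
    refine congrArg Neg.neg (ev_congr_chn e3 fun σ hσ => ?_)
    rw [cup11, cup11, h2 _ ((range_sub σ _).trans (hσ.trans inter_subset_left)),
      h2' _ ((range_sub σ _).trans (hσ.trans inter_subset_right))]

theorem isOm : IsOm Om := by
  rw [Om, dif_pos exists_isOm]
  exact exists_isOm.choose_spec

theorem om_bdy {ζ : Chn ℤ E 4} (h : ζ ∈ bdy ℤ univ 4 ⊔ chn ℤ ({0}ᶜ : Set E) 4) :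
    ev ℤ Om ζ = 0 := by
  obtain ⟨_, ⟨u, -, rfl⟩, v, hv, rfl⟩ := Submodule.mem_sup.1 h
  rw [map_add, ev_bd, isOm.coc, Om1_ev_zero, zero_add]
  exact (ev_congr_chn hv isOm.van).trans (Om1_ev_zero v)

end HK3
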