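import Pool.Agent.P.MP_9699e0_gt.Lb1
import Pool.Agent.P.MP_9699e0_gt.Cup
import Pool.Agent.P.MP_9699e0_gt.Om1
import Pool.Agent.P.MP_9699e0_gt.Mv

/-! The local contribution to a cup product. -/

set_option autoImplicit false
set_option linter.unusedSectionVars false

noncomputable section

namespace HK3

open Pool.Agent.P.MP_9699e0_gt Set Filter Topology
open scoped ContDiff

variable {X : Type} [TopologicalSpace X]

/-- On `B` the two cocycles are coboundaries of cochains that extend winding cochains. -/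
theorem cup_local {B : Set X} {F : X → E} (hF : ContinuousOn F B) (c c' : Simp X 2 → ℤ)
    (w w' : Simp X 1 → ℝ) (hc : ∀ σ : Simp X 2, range σ ⊆ B → (c σ : ℝ) = cobd w σ)
    (hc' : ∀ σ : Simp X 2, range σ ⊆ B → (c' σ : ℝ) = cobd w' σ)
    (hw : ∀ γ : Simp X 1, range γ ⊆ B ∩ {x | (F x).1 ≠ 0} → w γ = wd (fun x => (F x).1) γ)
    (hw' : ∀ γ : Simp X 1, range γ ⊆ B ∩ {x | (F x).2 ≠ 0} → w' γ = wd (fun x => (F x).2) γ)
    {ζ : Chn ℤ X 4} (hζ : ζ ∈ chn ℤ B 4)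
    (hb : bd ℤ X 3 ζ ∈ chn ℤ (B ∩ {x | (F x).1 ≠ 0}) 3 ⊔ chn ℤ (B ∩ {x | (F x).2 ≠ 0}) 3) :
    ev ℤ (cup c c') ζ = ev ℤ Om (cmap ℤ F 4 ζ) := by
  obtain ⟨η, hη, η', hη', h⟩ := Submodule.mem_sup.1 hb
  have hw0 : ∀ σ : Simp X 2, range σ ⊆ B ∩ {x | (F x).1 ≠ 0} → cobd w σ = 0 := by
    intro σ hσ
    rw [cobd_congr hw hσ]
    exact cobd_wd ⟨hF.fst.mono inter_subset_left, fun x hx => hx.2⟩ hσ
  have hw0' : ∀ σ : Simp X 2, range σ ⊆ B ∩ {x | (F x).2 ≠ 0} → cobd w' σ = 0 := by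
    intro σ hσ
    rw [cobd_congr hw' hσ]
    exact cobd_wd ⟨hF.snd.mono inter_subset_left, fun x hx => hx.2⟩ hσ
  have hηB : η ∈ chn ℤ B 3 := chn_mono inter_subset_left 3 hη
  have e1 : ((ev ℤ (cup c c') ζ : ℤ) : ℝ) = ev ℤ (cup (cobd w) (cobd w')) ζ := by
    rw [ev_cast]
    refine ev_congr_chn hζ fun σ hσ => ?_
    simp only [cup, Int.cast_mul]
    rw [hc _ ((range_sub σ _).trans hσ), hc' _ ((range_sub σ _).trans hσ)]
  have e2 := ev_cup_local w w' hw0 hw0' hη hη' h.symm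
  have m1 : cmap ℤ F 3 η ∈ chn ℤ {p : E | p.1 ≠ 0} 3 :=
    cmap_mem (hF.mono inter_subset_left) (fun x hx => hx.2) hη
  have m2 : cmap ℤ F 3 η' ∈ chn ℤ {p : E | p.2 ≠ 0} 3 :=
    cmap_mem (hF.mono inter_subset_left) (fun x hx => hx.2) hη'
  have e3 := isOm.val (cmap ℤ F 4 ζ) _ m1 _ m2 (by rw [cmap_bd hF hζ, ← h, map_add])
  have hb2 : bd ℤ X 2 η ∈ chn ℤ ((B ∩ {x | (F x).1 ≠ 0}) ∩ (B ∩ {x | (F x).2 ≠ 0})) 2 := by
    rw [chn_inter]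
    refine ⟨bd_mem hη, ?_⟩
    have h0 : bd ℤ X 2 η + bd ℤ X 2 η' = 0 := by rw [← map_add, h, bd_bd]
    rw [eq_neg_of_add_eq_zero_left h0]
    exact Submodule.neg_mem _ (bd_mem hη')
  have e4 : ev ℤ (cup11 (wd Prod.fst) (wd Prod.snd)) (bd ℤ E 2 (cmap ℤ F 3 η)) =
      ev ℤ (cup11 w w') (bd ℤ X 2 η) := by
    rw [cmap_bd hF hηB, ev_cmap]
    refine ev_congr_chn hb2 fun σ hσ => ?_
    have hσB : range σ ⊆ B := fun x hx => (hσ hx).1.1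
    simp only [cup11]
    rw [← smap_sub hF hσB, ← smap_sub hF hσB, wd_smap _ hF ((range_sub σ _).trans hσB),
      wd_smap _ hF ((range_sub σ _).trans hσB),
      hw _ ((range_sub σ _).trans fun x hx => (hσ hx).1),
      hw' _ ((range_sub σ _).trans fun x hx => (hσ hx).2)]
    rfl
  have e5 : ((ev ℤ (cup c c') ζ : ℤ) : ℝ) = ((ev ℤ Om (cmap ℤ F 4 ζ) : ℤ) : ℝ) := by
    rw [e1, e2, e3, e4]
  exact_mod_cast e5

theorem It2_range_ne {n : ℕ} (σ : Simp X n) : (range σ).Nonempty :=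
  ⟨σ (stdSimplex.vertex 0), mem_range_self _⟩

theorem It2_cut {S U U' : Set X} {n : ℕ} {c a b : Chn ℤ X n} (hc : c ∈ chn ℤ S n)
    (ha : a ∈ chn ℤ Sᶜ n) (hb : b ∈ chn ℤ U n ⊔ chn ℤ U' n) (h : c = a + b) :
    c ∈ chn ℤ (S ∩ U) n ⊔ chn ℤ (S ∩ U') n := by
  refine mem_sup_inter ?_ hc
  rw [← sml_two] at hb ⊢
  intro σ hσ
  have hσ' : σ ∈ c.support := hσ
  have h1 : range σ ⊆ S := mem_chn_iff.1 hc σ hσ'
  have h2 : a σ = 0 := by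
    by_contra h0
    obtain ⟨x, hx⟩ := It2_range_ne σ
    exact mem_chn_iff.1 ha σ (Finsupp.mem_support_iff.2 h0) hx (h1 hx)
  have h3 : b σ ≠ 0 := by
    have h4 := Finsupp.mem_support_iff.1 hσ'
    rw [h, Finsupp.add_apply, h2, zero_add] at h4
    exact h4
  exact hb (Finsupp.mem_support_iff.2 h3)

theorem It2_small {ι : Type} (T : Finset ι) (B : ι → Set X) (hB : ∀ j, IsOpen (B j))
    {P P' : ∀ n, Simp X n → Prop}
    {U U' : Set X} (hU : IsOpen U) (hU' : IsOpen U') (hP : Small P U) (hP' : Small P' U')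
    (hc : ∀ x, x ∈ U ∨ x ∈ U' ∨ ∃ j ∈ T, x ∈ B j) :
    Small (fun n (σ : Simp X n) => (P n σ ∧ range σ ⊆ U) ∨ (P' n σ ∧ range σ ⊆ U') ∨
      ∃ j ∈ T, range σ ⊆ B j) univ := by
  constructor
  · intro n k σ v h
    have hr : range (σ.comp v) ⊆ range σ := by
      rintro _ ⟨t, rfl⟩
      exact ⟨v t, rfl⟩
    rcases h with h | h | ⟨j, hj, h⟩
    · exact Or.inl ⟨hP.comp n k σ v h.1, hr.trans h.2⟩
    · exact Or.inr (Or.inl ⟨hP'.comp n k σ v h.1, hr.trans h.2⟩)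
    · exact Or.inr (Or.inr ⟨j, hj, hr.trans h⟩)
  · intro x _
    rw [nhdsWithin_univ]
    rcases hc x with hx | hx | ⟨j, hj, hx⟩
    · obtain ⟨W, hW, h⟩ := hP.loc x hx
      rw [hU.nhdsWithin_eq hx] at hW
      exact ⟨W ∩ U, inter_mem hW (hU.mem_nhds hx), fun n σ hσ =>
        Or.inl ⟨h n σ (hσ.trans inter_subset_left), hσ.trans inter_subset_right⟩⟩
    · obtain ⟨W, hW, h⟩ := hP'.loc x hx
      rw [hU'.nhdsWithin_eq hx] at hW
      exact ⟨W ∩ U', inter_mem hW (hU'.mem_nhds hx), fun n σ hσ =>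
        Or.inr (Or.inl ⟨h n σ (hσ.trans inter_subset_left), hσ.trans inter_subset_right⟩)⟩
    · exact ⟨B j, (hB j).mem_nhds hx, fun n σ hσ => Or.inr (Or.inr ⟨j, hj, hσ⟩)⟩

theorem It2_split {ι : Type} (T : Finset ι) (B : ι → Set X)
    (hd : ∀ i ∈ T, ∀ j ∈ T, i ≠ j → Disjoint (B i) (B j)) {n : ℕ} (p q : Simp X n → Prop)
    {y : Chn ℤ X n} (hy : ∀ σ ∈ y.support, p σ ∨ q σ ∨ ∃ j ∈ T, range σ ⊆ B j) :
    ∃ (ζ : ι → Chn ℤ X n) (r r' : Chn ℤ X n), (∀ j, ζ j ∈ chn ℤ (B j) n) ∧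
      (∀ σ ∈ r.support, p σ) ∧ (∀ σ ∈ r'.support, q σ) ∧ y = ∑ j ∈ T, ζ j + r + r' := by
  classical
  refine ⟨fun j => y.filter fun σ => ¬p σ ∧ ¬q σ ∧ range σ ⊆ B j, y.filter p,
    y.filter fun σ => ¬p σ ∧ q σ, fun j => mem_chn_iff.2 fun σ hσ => ?_, fun σ hσ => ?_,
    fun σ hσ => ?_, ?_⟩
  · rw [Finsupp.support_filter, Finset.mem_filter] at hσ
    exact hσ.2.2.2
  · rw [Finsupp.support_filter, Finset.mem_filter] at hσ
    exact hσ.2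
  · rw [Finsupp.support_filter, Finset.mem_filter] at hσ
    exact hσ.2.2
  · ext σ
    simp only [Finsupp.add_apply, Finsupp.finsetSum_apply, Finsupp.filter_apply]
    by_cases h0 : y σ = 0
    · simp [h0]
    by_cases hp : p σ
    · simp [hp]
    by_cases hq : q σ
    · simp [hp, hq]
    rcases hy σ (Finsupp.mem_support_iff.2 h0) with h | h | ⟨j, hj, h⟩
    · exact absurd h hp
    · exact absurd h hq
    rw [Finset.sum_eq_single_of_mem j hj]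
    · simp [hp, hq, h]
    · intro i hi hij
      have h1 : ¬range σ ⊆ B i := by
        intro h2
        obtain ⟨x, hx⟩ := It2_range_ne σ
        exact Set.disjoint_left.1 (hd i hi j hj hij) (h2 hx) (h hx)
      simp [h1]

/-- Splitting a cycle along finitely many disjoint open sets. -/
theorem split_cycle {ι : Type} (T : Finset ι) (B : ι → Set X) (hB : ∀ j, IsOpen (B j))
    (hd : ∀ i ∈ T, ∀ j ∈ T, i ≠ j → Disjoint (B i) (B j)) {P P' : ∀ n, Simp X n → Prop}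
    {U U' : Set X} (hU : IsOpen U) (hU' : IsOpen U') (hP : Small P U) (hP' : Small P' U')
    (hc : ∀ x, x ∈ U ∨ x ∈ U' ∨ ∃ j ∈ T, x ∈ B j) {z : Chn ℤ X 4} (hz : bd ℤ X 3 z = 0) :
    ∃ (ζ : ι → Chn ℤ X 4) (r r' : Chn ℤ X 4), (∀ j ∈ T, ζ j ∈ chn ℤ (B j) 4 ∧
      bd ℤ X 3 (ζ j) ∈ chn ℤ (B j ∩ U) 3 ⊔ chn ℤ (B j ∩ U') 3) ∧
      r ∈ sml ℤ P 4 ⊓ chn ℤ U 4 ∧ r' ∈ sml ℤ P' 4 ⊓ chn ℤ U' 4 ∧
      z - (∑ j ∈ T, ζ j + r + r') ∈ bdy ℤ univ 4 := by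
  classical
  obtain ⟨ρ, D, h1, -, h3, h4, -, -⟩ :=
    (It2_small T B hB hU hU' hP hP' hc).exists_retr (R := ℤ)
  have hu : ∀ n (c : Chn ℤ X n), c ∈ chn ℤ (univ : Set X) n := fun n c => by
    rw [chn_univ]; trivial
  have hy := h4 4 z (hu 4 z)
  have hy0 : bd ℤ X 3 (ρ 4 z) = 0 := by rw [h1, hz, map_zero]
  have hzy : z - ρ 4 z ∈ bdy ℤ univ 4 := by
    have h5 := h3 3 z
    rw [hz, map_zero, add_zero] at h5
    exact ⟨D 4 z, hu _ _, h5⟩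
  obtain ⟨ζ, r, r', hζ, hr, hr', e⟩ := It2_split T B hd (fun σ => P 4 σ ∧ range σ ⊆ U)
    (fun σ => P' 4 σ ∧ range σ ⊆ U') (y := ρ 4 z) fun σ hσ => hy hσ
  have hrU : r ∈ chn ℤ U 4 := mem_chn_iff.2 fun σ hσ => (hr σ hσ).2
  have hrU' : r' ∈ chn ℤ U' 4 := mem_chn_iff.2 fun σ hσ => (hr' σ hσ).2
  refine ⟨ζ, r, r', fun j hj => ⟨hζ j, ?_⟩, ⟨fun σ hσ => (hr σ hσ).1, hrU⟩,
    ⟨fun σ hσ => (hr' σ hσ).1, hrU'⟩, e ▸ hzy⟩
  refine It2_cut (a := -bd ℤ X 3 (∑ i ∈ T.erase j, ζ i)) (b := -(bd ℤ X 3 r + bd ℤ X 3 r'))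
    (bd_mem (hζ j)) (Submodule.neg_mem _ (bd_mem (Submodule.sum_mem _ fun i hi => ?_)))
    (Submodule.neg_mem _ (Submodule.add_mem_sup (bd_mem hrU) (bd_mem hrU'))) ?_
  · refine chn_mono ?_ 4 (hζ i)
    exact (hd i (Finset.mem_of_mem_erase hi) j hj (Finset.ne_of_mem_erase hi)).subset_compl_right
  · rw [e, ← Finset.add_sum_erase T ζ hj, map_add, map_add, map_add] at hy0
    rw [← sub_eq_zero, ← hy0]
    abel

end HK3
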