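import Pool.Agent.P.MP_9699e0_gt.MDefs
import Pool.Agent.P.MP_9699e0_gt.Wd

/-! The moving lattice. -/

set_option autoImplicit false
set_option linter.unusedSectionVars false

noncomputable section

namespace HK3

open Pool.Agent.P.MP_9699e0_gt Set Filter Topology
open scoped ContDiff

theorem ρ_pos : 0 < ρ := by
  unfold ρ
  norm_num

theorem dg_dg (s t : ℝ) (y : ℂ) : dg s (dg t y) = dg (s + t) y := by
  apply Complex.ext
  · simp only [dg]
    rw [← mul_assoc, ← Real.exp_add]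
    congr 2
    ring
  · simp only [dg]
    rw [← mul_assoc, ← Real.exp_add]
    congr 2
    ring

theorem dg_zero (y : ℂ) : dg 0 y = y := by
  apply Complex.ext <;> simp [dg]

theorem dg_add (s : ℝ) (y y' : ℂ) : dg s (y + y') = dg s y + dg s y' := by
  apply Complex.ext <;> simp [dg, mul_add]

theorem dg_mul (s r : ℝ) (y : ℂ) : dg s (r * y) = r * dg s y := by
  apply Complex.ext
  · simp [dg]
    ring
  · simp [dg]
    ring

theorem dg_cj (s : ℝ) (k : ℤ) (y : ℂ) : dg s (cj k y) = cj k (dg s y) := by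
  apply Complex.ext
  · simp [dg, cj]
  · simp only [dg, cj]
    ring

theorem Lat_dg_eq (s : ℝ) (y : ℂ) : dg s y =
    (Real.exp (-(hh * s)) * Complex.reCLM y) • (1 : ℂ) +
      (Real.exp (hh * s) * Complex.imCLM y) • Complex.I := by
  apply Complex.ext <;> simp [dg, -Complex.ofReal_exp]

theorem contDiff_dg : ContDiff ℝ ∞ fun p : ℝ × ℂ => dg p.1 p.2 := by
  simp only [Lat_dg_eq]
  refine ContDiff.add (ContDiff.fun_smul (ContDiff.mul ?_ ?_) contDiff_const)
    (ContDiff.fun_smul (ContDiff.mul ?_ ?_) contDiff_const)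
  · exact Real.contDiff_exp.comp (contDiff_const.mul contDiff_fst).neg
  · exact Complex.reCLM.contDiff.comp contDiff_snd
  · exact Real.contDiff_exp.comp (contDiff_const.mul contDiff_fst)
  · exact Complex.imCLM.contDiff.comp contDiff_snd

theorem Bm_add (t : ℝ) (x x' : ℂ) : Bm t (x + x') = Bm t x + Bm t x' := by
  rw [Bm, mul_add, dg_add]
  rfl

theorem Bm_mul (t r : ℝ) (x : ℂ) : Bm t (r * x) = r * Bm t x := by
  rw [Bm, mul_left_comm, dg_mul]
  rfl

theorem Bm_neg (t : ℝ) (x : ℂ) : Bm t (-x) = -Bm t x := by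
  have h := Bm_mul t (-1) x
  simpa using h

theorem Lat_ne : ((Real.goldenRatio : ℂ) - Complex.I) ≠ 0 := by
  intro h
  have := congrArg Complex.im h
  simp at this

theorem Bm_Bi (t : ℝ) (y : ℂ) : Bm t (Bi t y) = y := by
  rw [Bm, Bi, mul_div_cancel₀ _ Lat_ne, dg_dg, add_neg_cancel, dg_zero]

theorem Bi_Bm (t : ℝ) (x : ℂ) : Bi t (Bm t x) = x := by
  rw [Bm, Bi, dg_dg, neg_add_cancel, dg_zero, mul_div_cancel_left₀ _ Lat_ne]

theorem dg_Bm (s t : ℝ) (x : ℂ) : dg s (Bm t x) = Bm (t + s) x := by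
  rw [Bm, Bm, dg_dg, add_comm]

theorem contDiff_Bm : ContDiff ℝ ∞ fun p : ℝ × ℂ => Bm p.1 p.2 :=
  contDiff_dg.comp (contDiff_fst.prodMk (contDiff_const.mul contDiff_snd))

theorem contDiff_Bi : ContDiff ℝ ∞ fun p : ℝ × ℂ => Bi p.1 p.2 := by
  have h : ContDiff ℝ ∞ fun p : ℝ × ℂ => dg (-p.1) p.2 :=
    contDiff_dg.comp (contDiff_fst.neg.prodMk contDiff_snd)
  exact h.div_const _

theorem Lat_hh : 0 ≤ hh :=
  mul_nonneg (by norm_num) (Real.log_nonneg Real.one_lt_goldenRatio.le)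

theorem Lat_norm_dg (s : ℝ) (y : ℂ) : ‖dg s y‖ ≤ Real.exp (hh * |s|) * ‖y‖ := by
  have h1 : Real.exp (-(hh * s)) ≤ Real.exp (hh * |s|) := by
    apply Real.exp_le_exp.2
    have := mul_le_mul_of_nonneg_left (neg_le_abs s) Lat_hh
    linarith
  have h2 : Real.exp (hh * s) ≤ Real.exp (hh * |s|) :=
    Real.exp_le_exp.2 (mul_le_mul_of_nonneg_left (le_abs_self s) Lat_hh)
  have p1 := Real.exp_pos (-(hh * s))
  have p2 := Real.exp_pos (hh * s)
  apply le_of_sq_le_sq _ (by positivity)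
  rw [mul_pow, Complex.sq_norm, Complex.sq_norm, Complex.normSq_apply, Complex.normSq_apply]
  simp only [dg]
  have q1 := mul_le_mul_of_nonneg_right (pow_le_pow_left₀ p1.le h1 2) (mul_self_nonneg y.re)
  have q2 := mul_le_mul_of_nonneg_right (pow_le_pow_left₀ p2.le h2 2) (mul_self_nonneg y.im)
  nlinarith

theorem Lat_sq : ‖(Real.goldenRatio : ℂ) - Complex.I‖ ^ 2 = Real.goldenRatio + 2 := by
  rw [Complex.sq_norm, Complex.normSq_apply]
  have := Real.goldenRatio_sq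
  simp only [Complex.sub_re, Complex.sub_im, Complex.ofReal_re, Complex.ofReal_im, Complex.I_re,
    Complex.I_im]
  nlinarith

theorem Lat_low (t : ℝ) (x : ℂ) :
    ‖(Real.goldenRatio : ℂ) - Complex.I‖ * ‖x‖ ≤ Real.exp (hh * |t|) * ‖Bm t x‖ := by
  have h := Lat_norm_dg (-t) (Bm t x)
  rw [abs_neg] at h
  rw [← norm_mul]
  refine le_trans (le_of_eq ?_) h
  rw [Bm, dg_dg, neg_add_cancel, dg_zero]

theorem norm_le_Bm (t : ℝ) (x : ℂ) : ‖x‖ ≤ Real.exp (hh * |t|) * ‖Bm t x‖ := by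
  refine le_trans ?_ (Lat_low t x)
  have h : 1 ≤ ‖(Real.goldenRatio : ℂ) - Complex.I‖ := by
    apply le_of_sq_le_sq _ (norm_nonneg _)
    rw [Lat_sq]
    have := Real.goldenRatio_pos
    linarith
  exact le_mul_of_one_le_left (norm_nonneg _) h

theorem norm_Bm_le (t : ℝ) (x : ℂ) : ‖Bm t x‖ ≤ 2 * Real.exp (hh * |t|) * ‖x‖ := by
  refine le_trans (Lat_norm_dg t _) ?_
  have h : ‖(Real.goldenRatio : ℂ) - Complex.I‖ ≤ 2 := by
    apply le_of_sq_le_sq _ (by norm_num)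
    rw [Lat_sq]
    have := Real.goldenRatio_lt_two
    linarith
  rw [norm_mul]
  have := mul_le_mul_of_nonneg_left (mul_le_mul_of_nonneg_right h (norm_nonneg x))
    (Real.exp_pos (hh * |t|)).le
  linarith

theorem Lat_bounds : 8 / 5 ≤ Real.goldenRatio ∧ Real.goldenRatio ≤ 5 / 3 := by
  have h := Real.goldenRatio_sq
  have h1 := Real.one_lt_goldenRatio
  constructor
  · by_contra hc
    rw [not_le] at hc
    nlinarith
  · by_contra hc
    rw [not_le] at hc
    nlinarith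

theorem norm_le_three {t : ℝ} (ht : |t| ≤ 11 / 10) (x : ℂ) : ‖x‖ ≤ 3 * ‖Bm t x‖ := by
  have h := Lat_low t x
  have hs := Lat_sq
  obtain ⟨b1, b2⟩ := Lat_bounds
  have g2 := Real.goldenRatio_sq
  have g0 := Real.goldenRatio_pos
  have hl : 0 ≤ Real.log Real.goldenRatio := Real.log_nonneg Real.one_lt_goldenRatio.le
  have e1 : Real.exp (hh * |t|) ^ 2 ≤ Real.goldenRatio ^ 7 := by
    have e2 : Real.goldenRatio ^ 7 = Real.exp ((7 : ℕ) * Real.log Real.goldenRatio) := by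
      rw [Real.exp_nat_mul, Real.exp_log g0]
    rw [e2, ← Real.exp_nat_mul]
    apply Real.exp_le_exp.2
    have := mul_le_mul_of_nonneg_left ht hl
    unfold hh
    push_cast
    nlinarith
  have e3 : Real.goldenRatio ^ 7 = 13 * Real.goldenRatio + 8 := by
    generalize Real.goldenRatio = g at g2
    linear_combination (g ^ 5 + g ^ 4 + 2 * g ^ 3 + 3 * g ^ 2 + 5 * g + 8) * g2
  have h2 := pow_le_pow_left₀ (by positivity) h 2
  rw [mul_pow, mul_pow, hs] at h2
  apply le_of_sq_le_sq _ (by positivity)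
  have h3 := mul_le_mul_of_nonneg_right e1 (sq_nonneg ‖Bm t x‖)
  have h4 := mul_le_mul_of_nonneg_right b1 (sq_nonneg ‖x‖)
  have h5 := mul_le_mul_of_nonneg_right b2 (sq_nonneg ‖Bm t x‖)
  have h6 := sq_nonneg ‖Bm t x‖
  rw [e3] at h3
  rw [mul_pow]
  nlinarith

/-- The frame composed with its adjoint is positive. -/
theorem Bm_pos (t : ℝ) {v : ℂ} (hv : v ≠ 0) :
    0 < (((Real.goldenRatio : ℂ) + Complex.I) * Bm t v * (starRingEnd ℂ) v).re := by
  have hp : ((Real.goldenRatio : ℂ) - Complex.I) * v ≠ 0 := mul_ne_zero Lat_ne hv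
  have e : ((Real.goldenRatio : ℂ) + Complex.I) * Bm t v * (starRingEnd ℂ) v =
      Bm t v * (starRingEnd ℂ) (((Real.goldenRatio : ℂ) - Complex.I) * v) := by
    rw [map_mul, map_sub, Complex.conj_ofReal, Complex.conj_I]
    ring
  rw [e, Bm]
  generalize ((Real.goldenRatio : ℂ) - Complex.I) * v = p at hp
  have h := Complex.normSq_pos.2 hp
  rw [Complex.normSq_apply] at h
  have p1 := Real.exp_pos (-(hh * t))
  have p2 := Real.exp_pos (hh * t)
  simp only [dg, Complex.mul_re, Complex.conj_re, Complex.conj_im]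
  have q1 := mul_self_nonneg p.re
  have q2 := mul_self_nonneg p.im
  rcases q1.eq_or_lt with h1 | h1
  · have := mul_pos p2 (show 0 < p.im * p.im by linarith)
    have := mul_nonneg p1.le q1
    nlinarith
  · have := mul_pos p1 h1
    have := mul_nonneg p2.le q2
    nlinarith

theorem gi_add (m m' : ℤ × ℤ) : gi (m + m') = gi m + gi m' := by
  apply Complex.ext <;> simp [gi]

theorem gi_neg (m : ℤ × ℤ) : gi (-m) = -gi m := by
  apply Complex.ext <;> simp [gi]

theorem gi_zero : gi 0 = 0 := by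
  apply Complex.ext <;> simp [gi]

theorem gi_two (m : ℤ × ℤ) : gi (2 • m) = 2 * gi m := by
  rw [two_nsmul, gi_add, two_mul]

theorem one_le_gi {m : ℤ × ℤ} (h : m ≠ 0) : 1 ≤ ‖gi m‖ := by
  by_cases h1 : m.1 = 0
  · have h2 : m.2 ≠ 0 := fun h2 => h (Prod.ext h1 h2)
    have h3 : (1 : ℝ) ≤ |(m.2 : ℝ)| := by exact_mod_cast Int.one_le_abs h2
    exact h3.trans (Complex.abs_im_le_norm (gi m))
  · have h3 : (1 : ℝ) ≤ |(m.1 : ℝ)| := by exact_mod_cast Int.one_le_abs h1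
    exact h3.trans (Complex.abs_re_le_norm (gi m))

theorem β_add (t : ℝ) (m m' : ℤ × ℤ) : β t (m + m') = β t m + β t m' := by
  rw [β, gi_add, Bm_add]
  rfl

theorem β_neg (t : ℝ) (m : ℤ × ℤ) : β t (-m) = -β t m := by
  rw [β, gi_neg, Bm_neg]
  rfl

theorem β_zero (t : ℝ) : β t 0 = 0 := by
  apply Complex.ext <;> simp [β, Bm, gi_zero, dg]

theorem β_two (t : ℝ) (m : ℤ × ℤ) : β t (2 • m) = 2 * β t m := by
  rw [two_nsmul, β_add, two_mul]

theorem dg_β (s t : ℝ) (m : ℤ × ℤ) : dg s (β t m) = β (t + s) m := dg_Bm s t _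

theorem Lat_re (t : ℝ) (m : ℤ × ℤ) :
    (β t m).re = Real.exp (-(hh * t)) * (Real.goldenRatio * m.1 + m.2) := by
  simp only [β, Bm, dg, gi, Complex.mul_re, Complex.sub_re, Complex.sub_im, Complex.ofReal_re,
    Complex.ofReal_im, Complex.I_re, Complex.I_im]
  ring

theorem Lat_im (t : ℝ) (m : ℤ × ℤ) :
    (β t m).im = Real.exp (hh * t) * (Real.goldenRatio * m.2 - m.1) := by
  simp only [β, Bm, dg, gi, Complex.mul_im, Complex.sub_re, Complex.sub_im, Complex.ofReal_re,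
    Complex.ofReal_im, Complex.I_re, Complex.I_im]
  ring

theorem Lat_exp : Real.exp hh = 2 * Real.goldenRatio + 1 := by
  have e2 : Real.exp hh = Real.goldenRatio ^ 3 := by
    rw [show hh = (3 : ℕ) * Real.log Real.goldenRatio by simp [hh], Real.exp_nat_mul,
      Real.exp_log Real.goldenRatio_pos]
  have g2 := Real.goldenRatio_sq
  rw [e2]
  generalize Real.goldenRatio = g at g2
  linear_combination (g + 1) * g2

theorem β_conj (t : ℝ) (m : ℤ × ℤ) :
    (starRingEnd ℂ) (β t m) = β (t + 1) (m + 2 • (m.1 + m.2, m.1)) := by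
  have g2 := Real.goldenRatio_sq
  have e1 : Real.exp (hh * (t + 1)) = Real.exp (hh * t) * (2 * Real.goldenRatio + 1) := by
    rw [← Lat_exp, ← Real.exp_add]
    congr 1
    ring
  have e2 : Real.exp (-(hh * t)) = Real.exp (-(hh * (t + 1))) * (2 * Real.goldenRatio + 1) := by
    rw [← Lat_exp, ← Real.exp_add]
    congr 1
    ring
  have c1 : (((m + 2 • (m.1 + m.2, m.1)).1 : ℤ) : ℝ) = 3 * m.1 + 2 * m.2 := by
    simp only [Prod.fst_add, two_nsmul]
    push_cast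
    ring
  have c2 : (((m + 2 • (m.1 + m.2, m.1)).2 : ℤ) : ℝ) = 2 * m.1 + m.2 := by
    simp only [Prod.snd_add, two_nsmul]
    push_cast
    ring
  apply Complex.ext
  · rw [Complex.conj_re, Lat_re, Lat_re, c1, c2, e2]
    generalize Real.goldenRatio = g at g2
    linear_combination (2 * Real.exp (-(hh * (t + 1))) * m.1) * g2
  · rw [Complex.conj_im, Lat_im, Lat_im, c1, c2, e1]
    generalize Real.goldenRatio = g at g2
    linear_combination (-Real.exp (hh * t) * (4 * m.1 + 2 * m.2)) * g2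

theorem Lat_cj_succ (k : ℤ) (y : ℂ) : cj (k + 1) y = (starRingEnd ℂ) (cj k y) := by
  apply Complex.ext
  · simp [cj]
  · simp only [cj, sg, Complex.conj_im]
    rw [zpow_add_one₀ (by norm_num)]
    ring

theorem Lat_conj' (t : ℝ) (m : ℤ × ℤ) :
    (starRingEnd ℂ) (β t m) = β (t - 1) (m + 2 • (m.2 - m.1, m.1 - 2 * m.2)) := by
  have h := β_conj (t - 1) (m + 2 • (m.2 - m.1, m.1 - 2 * m.2))
  have e : (m + 2 • (m.2 - m.1, m.1 - 2 * m.2)) +
      2 • ((m + 2 • (m.2 - m.1, m.1 - 2 * m.2)).1 + (m + 2 • (m.2 - m.1, m.1 - 2 * m.2)).2,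
        (m + 2 • (m.2 - m.1, m.1 - 2 * m.2)).1) = m := by
    apply Prod.ext
    · simp only [Prod.fst_add, Prod.snd_add, two_nsmul]
      ring
    · simp only [Prod.fst_add, Prod.snd_add, two_nsmul]
      ring
  rw [e, sub_add_cancel] at h
  rw [← h, Complex.conj_conj]

theorem β_shift (k : ℤ) (t : ℝ) (m : ℤ × ℤ) : ∃ m', cj k (β t m) = β (t + k) (m + 2 • m') := by
  induction k using Int.induction_on with
  | zero =>
    refine ⟨0, ?_⟩
    apply Complex.ext <;> simp [cj, sg]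
  | succ k ih =>
    obtain ⟨m', h⟩ := ih
    refine ⟨m' + ((m + 2 • m').1 + (m + 2 • m').2, (m + 2 • m').1), ?_⟩
    rw [Lat_cj_succ, h, β_conj, smul_add, add_assoc m]
    congr 1
    push_cast
    ring
  | pred k ih =>
    obtain ⟨m', h⟩ := ih
    refine ⟨m' + ((m + 2 • m').2 - (m + 2 • m').1, (m + 2 • m').1 - 2 * (m + 2 • m').2), ?_⟩
    have e := Lat_cj_succ (-(k : ℤ) - 1) (β t m)
    rw [sub_add_cancel, h] at e
    rw [← Complex.conj_conj (cj _ _), ← e, Lat_conj', smul_add, add_assoc m]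
    congr 1
    push_cast
    ring

theorem Lat_irr {a b : ℤ} (h : Real.goldenRatio * a + b = 0) : a = 0 ∧ b = 0 := by
  by_cases ha : a = 0
  · subst ha
    refine ⟨rfl, ?_⟩
    have : (b : ℝ) = 0 := by simpa using h
    exact_mod_cast this
  · exact absurd h ((Real.goldenRatio_irrational.mul_intCast ha).add_intCast b).ne_zero

theorem one_le_β (t : ℝ) {m : ℤ × ℤ} (h : m ≠ 0) : 1 ≤ ‖β t m‖ := by
  have g2 := Real.goldenRatio_sq
  have g1 := Real.one_lt_goldenRatio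
  have e : (Real.goldenRatio * m.1 + m.2) * (Real.goldenRatio * m.2 - m.1) =
      Real.goldenRatio * ((m.2 ^ 2 + m.1 * m.2 - m.1 ^ 2 : ℤ) : ℝ) := by
    push_cast
    generalize Real.goldenRatio = g at g2
    linear_combination ((m.1 : ℝ) * m.2) * g2
  have hN : m.2 ^ 2 + m.1 * m.2 - m.1 ^ 2 ≠ 0 := by
    intro h0
    rw [h0, Int.cast_zero, mul_zero] at e
    rcases mul_eq_zero.1 e with h1 | h1
    · exact h (Prod.ext (Lat_irr h1).1 (Lat_irr h1).2)
    · have h2 : Real.goldenRatio * m.2 + ((-m.1 : ℤ) : ℝ) = 0 := by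
        push_cast
        linarith
      exact h (Prod.ext (neg_eq_zero.1 (Lat_irr h2).2) (Lat_irr h2).1)
  have h3 : (1 : ℝ) ≤ |((m.2 ^ 2 + m.1 * m.2 - m.1 ^ 2 : ℤ) : ℝ)| := by
    exact_mod_cast Int.one_le_abs hN
  have e2 : (β t m).re * (β t m).im =
      Real.goldenRatio * ((m.2 ^ 2 + m.1 * m.2 - m.1 ^ 2 : ℤ) : ℝ) := by
    have e3 : Real.exp (-(hh * t)) * Real.exp (hh * t) = 1 := by
      rw [← Real.exp_add, neg_add_cancel, Real.exp_zero]
    rw [Lat_re, Lat_im, ← e]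
    linear_combination
      ((Real.goldenRatio * m.1 + m.2) * (Real.goldenRatio * m.2 - m.1)) * e3
  have h4 : 1 ≤ |(β t m).re * (β t m).im| := by
    rw [e2, abs_mul, abs_of_pos Real.goldenRatio_pos]
    exact one_le_mul_of_one_le_of_one_le g1.le h3
  apply le_of_sq_le_sq _ (norm_nonneg _)
  rw [Complex.sq_norm, Complex.normSq_apply]
  have q1 := sq_nonneg ((β t m).re - (β t m).im)
  have q2 := sq_nonneg ((β t m).re + (β t m).im)
  rcases le_abs.1 h4 with h5 | h5 <;> nlinarith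

theorem finite_β (T C : ℝ) : {m : ℤ × ℤ | ∃ t, |t| ≤ T ∧ ‖β t m‖ ≤ C}.Finite := by
  obtain ⟨N, hN⟩ := exists_nat_ge (Real.exp (hh * T) * C)
  refine ((Set.finite_Icc (-(N : ℤ)) N).prod (Set.finite_Icc (-(N : ℤ)) N)).subset ?_
  rintro m ⟨t, ht, hm⟩
  have h1 : ‖gi m‖ ≤ N := by
    refine (norm_le_Bm t _).trans (le_trans ?_ hN)
    exact mul_le_mul (Real.exp_le_exp.2 (mul_le_mul_of_nonneg_left ht Lat_hh)) hm (norm_nonneg _)
      (Real.exp_pos _).le
  have h2 : |(m.1 : ℝ)| ≤ N := (Complex.abs_re_le_norm (gi m)).trans h1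
  have h3 : |(m.2 : ℝ)| ≤ N := (Complex.abs_im_le_norm (gi m)).trans h1
  have h4 : |m.1| ≤ (N : ℤ) := by exact_mod_cast h2
  have h5 : |m.2| ≤ (N : ℤ) := by exact_mod_cast h3
  exact ⟨abs_le.1 h4, abs_le.1 h5⟩

theorem contDiff_β (m : ℤ × ℤ) : ContDiff ℝ ∞ fun t => β t m :=
  contDiff_Bm.comp (contDiff_id.prodMk contDiff_const)

theorem exists_rep (m : ℤ × ℤ) : ∃ (i : I4) (m' : ℤ × ℤ), m = rep i + 2 • m' := by
  have h : ∀ a : ℤ, ∃ (i : Fin 2) (b : ℤ), a = ((i : ℕ) : ℤ) + (b + b) := by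
    intro a
    rcases Int.emod_two_eq_zero_or_one a with h | h
    · exact ⟨0, a / 2, by simp only [Fin.val_zero]; omega⟩
    · exact ⟨1, a / 2, by simp only [Fin.val_one]; omega⟩
  obtain ⟨i, a, h1⟩ := h m.1
  obtain ⟨j, b, h2⟩ := h m.2
  refine ⟨(i, j), (a, b), ?_⟩
  rw [two_nsmul]
  exact Prod.ext h1 h2

theorem rep_unique {i j : I4} {m m' : ℤ × ℤ} (h : rep i + 2 • m = rep j + 2 • m') : i = j := by
  have h1 := congrArg Prod.fst h
  have h2 := congrArg Prod.snd h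
  simp only [rep, two_nsmul, Prod.fst_add, Prod.snd_add] at h1 h2
  have a1 := i.1.2
  have a2 := i.2.2
  have a3 := j.1.2
  have a4 := j.2.2
  exact Prod.ext (Fin.ext (by omega)) (Fin.ext (by omega))

theorem sg_add (k l : ℤ) : sg (k + l) = sg k * sg l := zpow_add₀ (by norm_num) k l

theorem sg_zero : sg 0 = 1 := zpow_zero _

theorem sg_one : sg 1 = -1 := zpow_one _

theorem sg_neg (k : ℤ) : sg (-k) = sg k := by
  rcases Int.even_or_odd k with h | h
  · rw [sg, sg, h.neg.neg_one_zpow, h.neg_one_zpow]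
  · rw [sg, sg, h.neg.neg_one_zpow, h.neg_one_zpow]

theorem sg_mul_self (k : ℤ) : sg k * sg k = 1 := by
  rcases Int.even_or_odd k with h | h
  · rw [sg, h.neg_one_zpow, mul_one]
  · rw [sg, h.neg_one_zpow]
    norm_num

theorem sg_cases (k : ℤ) : sg k = 1 ∧ Even k ∨ sg k = -1 ∧ Odd k := by
  rcases Int.even_or_odd k with h | h
  · exact Or.inl ⟨h.neg_one_zpow, h⟩
  · exact Or.inr ⟨h.neg_one_zpow, h⟩

theorem sg_odd_mul {n : ℕ} (hn : Odd n) (k : ℤ) : sg (n * k) = sg k := by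
  have hn' : Odd (n : ℤ) := by exact_mod_cast hn
  rcases Int.even_or_odd k with h | h
  · rw [sg, sg, h.neg_one_zpow, (h.mul_left _).neg_one_zpow]
  · rw [sg, sg, h.neg_one_zpow, (hn'.mul h).neg_one_zpow]

theorem ex_sg (k : ℤ) : ex (k / 2) = sg k := by
  rw [ex_half, sg]
  push_cast
  rfl

theorem cj_cj (k l : ℤ) (y : ℂ) : cj k (cj l y) = cj (k + l) y := by
  apply Complex.ext
  · rfl
  · simp only [cj, sg_add, mul_assoc]

theorem cj_zero (y : ℂ) : cj 0 y = y := by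
  apply Complex.ext <;> simp [cj, sg_zero]

theorem cj_one (y : ℂ) : cj 1 y = (starRingEnd ℂ) y := by
  apply Complex.ext <;> simp [cj, sg_one]

theorem cj_add (k : ℤ) (y y' : ℂ) : cj k (y + y') = cj k y + cj k y' := by
  apply Complex.ext <;> simp [cj, mul_add]

theorem cj_mul (k : ℤ) (r : ℝ) (y : ℂ) : cj k (r * y) = r * cj k y := by
  apply Complex.ext
  · simp [cj]
  · simp [cj, mul_left_comm]

theorem Lat_cj_cases (k : ℤ) : (sg k = 1 ∧ ∀ y, cj k y = y) ∨
    (sg k = -1 ∧ ∀ y, cj k y = (starRingEnd ℂ) y) := by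
  rcases sg_cases k with ⟨h, -⟩ | ⟨h, -⟩
  · exact Or.inl ⟨h, fun y => by apply Complex.ext <;> simp [cj, h]⟩
  · exact Or.inr ⟨h, fun y => by apply Complex.ext <;> simp [cj, h]⟩

theorem cj_ex (k : ℤ) (s : ℝ) : cj k (ex s) = ex (sg k * s) := by
  rcases Lat_cj_cases k with ⟨h, e⟩ | ⟨h, e⟩
  · rw [h, e, one_mul]
  · rw [h, e, neg_one_mul, ex_neg]

theorem norm_cj (k : ℤ) (y : ℂ) : ‖cj k y‖ = ‖y‖ := by
  rcases Lat_cj_cases k with ⟨-, e⟩ | ⟨-, e⟩
  · rw [e]
  · rw [e, Complex.norm_conj]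

theorem cj_odd_mul {n : ℕ} (hn : Odd n) (k : ℤ) (y : ℂ) : cj (n * k) y = cj k y := by
  rw [cj, cj, sg_odd_mul hn]

theorem χ_add (a : Fin 3) (m m' : ℤ × ℤ) : χ a (m + m') = χ a m * χ a m' := by
  rw [χ, χ, χ, ← sg_add]
  congr 1
  simp only [Prod.fst_add, Prod.snd_add]
  ring

theorem χ_rep (a : Fin 3) (i : I4) : χ a (rep i) = if mm a i = 0 then -1 else 1 := by
  have key : ∀ (a : Fin 3) (i : I4), (mm a i = 0 ↔
      Odd ((rep (cl a)).1 * (rep i).2 - (rep (cl a)).2 * (rep i).1)) := by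
    decide
  rw [χ]
  rcases sg_cases ((rep (cl a)).1 * (rep i).2 - (rep (cl a)).2 * (rep i).1) with ⟨h, p⟩ | ⟨h, p⟩
  · rw [h, if_neg fun h0 => (Int.not_odd_iff_even.2 p) ((key a i).1 h0)]
  · rw [h, if_pos ((key a i).2 p)]

theorem Lat_Pn : IsOpen Pn := by
  have h : Pn = (range gi)ᶜ := by
    ext x
    simp only [Pn, mem_ofPred_eq, mem_compl_iff, mem_range, not_exists]
    exact forall_congr' fun m => ne_comm
  rw [h, isOpen_compl_iff]
  refine Metric.isClosed_of_pairwise_le_dist (ε := 1) one_pos ?_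
  rintro _ ⟨m, rfl⟩ _ ⟨m', rfl⟩ hne
  have h1 : m + -m' ≠ 0 := fun h0 => hne (by rw [add_neg_eq_zero.1 h0])
  have h2 := one_le_gi h1
  rw [gi_add, gi_neg, ← sub_eq_add_neg] at h2
  rwa [dist_eq_norm]

theorem Lat_W0 (ξ : E) : ξ ∈ W0 ↔ Bi ξ.2.im ξ.1 ∈ Pn := by
  refine forall_congr' fun m => not_congr ⟨fun h => ?_, fun h => ?_⟩
  · rw [h, β, Bi_Bm]
  · rw [β, ← h, Bm_Bi]

theorem isOpen_W0 : IsOpen W0 := by
  have h : W0 = (fun ξ : E => Bi ξ.2.im ξ.1) ⁻¹' Pn := Set.ext Lat_W0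
  rw [h]
  refine Lat_Pn.preimage ?_
  exact contDiff_Bi.continuous.comp
    ((Complex.continuous_im.comp continuous_snd).prodMk continuous_fst)

theorem isOpen_Pn : IsOpen Pn := Lat_Pn

theorem mem_W0_iff (ξ : E) : ξ ∈ W0 ↔ Bi ξ.2.im ξ.1 ∈ Pn := Lat_W0 ξ

end HK3
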