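import Pool.Agent.P.MP_9699e0_gt.GDefs

/-! The K3 lattice inside the lattice of classes. -/

set_option autoImplicit false
set_option linter.unusedSectionVars false

noncomputable section

namespace HK3

open Pool.Agent.P.MP_9699e0_gt Set Filter Topology
open scoped ContDiff

/-- The table of coefficients. -/
def LatM_ML : List (List ℤ) :=
  [[0, 1, 0, 0, 0, 0, 0, 0, 1, 1, 0, 0, 1, 0, 0, 0, 0, 0, 0, 0, 0, 0, 0, 0, 0, 0, 0, 0, 0, 2, 0, 0],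
   [0, 2, 0, 0, 0, 0, 0, 0, 1, 2, 0, 0, 2, 0, 0, 0, 1, 0, 0, 0, 0, 0, 0, 0, 0, 0, 0, 0, 0, 4, 0, 0],
   [0, 0, 0, 0, 1, 0, 0, 0, -1, -1, 0, 0, 0, 1, 0, 0, 0, 0, 0, 0, 0, 2, 0, 0, 0, 0, 0, 0, 0, -2, 0, 0],
   [0, 0, 0, 0, 3, 0, 0, 0, -3, -3, 0, 0, 0, 3, 0, 0, 0, -1, 0, 0, 0, 5, 0, 0, 0, 0, 0, 0, 0, -6, 0, 0],
   [0, 1, 0, 1, 0, 0, 1, 1, 1, 1, 1, 0, 1, 0, 0, 0, 0, 0, 0, 0, 0, 0, 0, 0, 0, 0, 0, 2, 0, 2, 0, 0],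
   [0, 0, 0, 4, 4, 0, 4, 4, -3, -4, 4, 0, 0, 4, 0, 0, -1, -1, 0, -1, 0, 8, 0, 0, 0, 0, 0, 8, 0, -8, 0, 0],
   [0, 0, 0, 1, -1, 0, 1, 1, 0, 0, 1, 0, -1, -1, 0, 0, 0, 0, 0, 0, 0, -1, 0, 0, -1, 0, 0, 2, 0, 0, 0, 0],
   [0, -1, 0, 0, -1, -1, 0, 0, -1, -1, 0, 0, -1, 0, 0, 0, 0, 0, 0, 0, -1, -1, 0, 0, 2, 0, 0, 0, -1, -2, 0, 0],
   [0, 0, 0, -2, 0, 0, -2, -2, 0, 0, -2, 0, 0, 0, 0, 0, 0, 0, 0, 0, 1, 0, 0, 0, 0, 0, 0, -4, 0, 0, 0, 0],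
   [1, 1, 0, 1, 1, 1, 1, 1, 1, 1, 1, 0, 2, 1, 0, 0, 0, 0, 0, 0, 0, 1, 0, 0, 0, 0, 0, 2, 1, 2, 0, 0],
   [-1, -1, 0, -1, -1, 0, -1, -1, 0, 0, -1, 0, -2, -2, 0, 0, 0, 0, 0, 0, 0, -2, 0, 0, -1, 0, 0, -2, 0, 0, 0, 0],
   [0, 2, 0, 2, 3, 0, 2, 2, -1, -1, 2, 0, 2, 3, 0, 0, 0, 0, 0, 0, 0, 5, 0, 0, 0, 0, 0, 4, 0, -2, 0, 0],
   [0, -2, 0, -1, -3, -1, -1, -1, 1, 1, -1, 0, -1, -2, 0, 0, 0, 0, 0, 0, -1, -5, 0, 0, 1, 0, 0, -2, 0, 2, 0, 0],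
   [0, 0, 0, 0, 1, 0, 0, 0, -1, -1, 0, 0, -1, 0, 0, 0, 0, 0, 0, 0, 1, 2, 0, 0, -1, 0, 0, 0, -1, -2, 0, 0],
   [0, -1, -1, -1, -1, -1, -2, -2, -1, 0, -2, 0, 0, 0, 0, 0, 1, 1, 1, 1, -3, -3, -1, 0, 2, 0, -1, -4, 0, 0, 0, 0],
   [0, 0, -1, -2, 0, -1, -2, -2, -1, 0, -2, 0, 1, 1, 0, 0, 1, 1, 1, 1, -3, -1, -1, 0, 2, 0, 0, -4, 0, 0, -1, 0],
   [0, 0, 0, -1, -1, -1, -1, -1, 0, 1, -1, 0, 1, 0, 0, 0, 1, 1, 1, 1, -3, -3, 0, 0, 2, 0, -1, -2, 0, 2, -1, 0],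
   [0, 0, 1, 1, 1, 2, 2, 2, 1, -1, 2, 0, -2, -1, 0, 0, -2, -2, -2, -2, 6, 4, 1, 0, -4, 0, 1, 4, 0, -2, 2, 0],
   [0, 0, 0, 1, 0, -1, 0, 0, -1, 0, 0, 0, 1, 1, 0, 0, 1, 1, 1, 1, -3, -1, -1, 0, 2, 0, 0, 0, 0, 0, -1, 0],
   [0, 2, 0, 2, 1, 2, 2, 3, 3, 1, 3, 0, 0, -1, 0, 0, -2, -2, -2, -2, 6, 4, 2, 0, -4, 0, 1, 6, 0, 2, 0, 0],
   [0, -3, 0, -3, -2, -2, -3, -4, -3, -1, -4, 0, -1, 0, 0, 0, 2, 2, 2, 2, -6, -6, -1, 0, 4, 0, -1, -8, 0, -2, 0, 0],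
   [0, 1, 0, 1, 1, 0, 2, 2, 0, 0, 1, 0, 1, 1, 0, 0, 0, 0, 0, 0, 0, 2, 0, 0, 0, 0, -1, 2, 0, 0, 1, 0]]

/-- The table of the doubled classes. -/
def LatM_NL : List (List ℤ) :=
  [[0, 0, 0, 0, 0, 0, 0, 0, 0, 0, 0, 0, 0, 0, 0, 0, 0, 0, 0, 0, 0, 0, 0, 0, 0, 0, 0, 0, 0, 2, 0, 0],
   [-1, -1, -1, -1, 0, 0, 0, 0, -2, 0, 0, 0, 0, 0, 0, 0, 1, 0, 0, 0, 0, 0, 0, 0, 0, 0, 0, 0, 0, 4, 0, 0],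
   [0, 0, 0, 0, 0, 0, 0, 0, 0, 0, 0, 0, 0, 0, 0, 0, 0, 0, 0, 0, 0, 2, 0, 0, 0, 0, 0, 0, 0, -2, 0, 0],
   [0, 1, 0, 0, 2, 1, 1, 1, 0, 0, 0, 0, 1, 1, 0, 0, 0, -1, 0, 0, 0, 5, 0, 0, 0, 0, 0, 0, 0, -6, 0, 0],
   [0, 0, 0, 0, 0, 0, 0, 0, 0, 0, 0, 0, 0, 0, 0, 0, 0, 0, 0, 0, 0, 0, 0, 0, 0, 0, 0, 2, 0, 2, 0, 0],
   [1, 1, 1, 1, 1, 1, 1, 1, 2, 0, 0, 0, 1, 1, 1, 1, -1, -1, 0, -1, 0, 8, 0, 0, 0, 0, 0, 8, 0, -8, 0, 0],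
   [1, 1, 0, 0, -1, 0, 0, 0, 0, 1, 0, 0, 0, 0, 0, 0, 0, 0, 0, 0, 0, -1, 0, 0, -1, 0, 0, 2, 0, 0, 0, 0],
   [0, 1, 0, 0, 0, 0, 0, 0, 1, -1, 0, 0, -1, 0, 0, 0, 0, 0, 0, 0, -1, -1, 0, 0, 2, 0, 0, 0, -1, -2, 0, 0],
   [-1, 0, 0, 0, 0, -1, 0, 0, -1, -1, 0, 0, 0, 0, 0, 0, 0, 0, 0, 0, 1, 0, 0, 0, 0, 0, 0, -4, 0, 0, 0, 0],
   [1, -1, 0, 0, 0, 1, 0, 0, 0, 0, 0, 0, 1, 0, 0, 0, 0, 0, 0, 0, 0, 1, 0, 0, 0, 0, 0, 2, 1, 2, 0, 0],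
   [-1, 0, 0, 0, 0, 0, 0, 0, 0, 1, 0, 0, -1, -1, 0, 0, 0, 0, 0, 0, 0, -2, 0, 0, -1, 0, 0, -2, 0, 0, 0, 0],
   [0, 1, 0, 0, 1, 0, 0, 0, 0, 0, 0, 0, 1, 1, 0, 0, 0, 0, 0, 0, 0, 5, 0, 0, 0, 0, 0, 4, 0, -2, 0, 0],
   [0, -1, 0, 0, -1, -1, 0, 0, 1, 0, 0, 0, 0, 0, 0, 0, 0, 0, 0, 0, -1, -5, 0, 0, 1, 0, 0, -2, 0, 2, 0, 0],
   [1, 0, 0, 0, 1, 0, 0, 0, -1, 0, 0, 0, -1, 0, 0, 0, 0, 0, 0, 0, 1, 2, 0, 0, -1, 0, 0, 0, -1, -2, 0, 0],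
   [0, 0, -1, 1, 0, 0, -1, 0, 0, 0, 0, 1, 0, 0, 0, 0, 1, 1, 1, 1, -3, -3, -1, 0, 2, 0, -1, -4, 0, 0, 0, 0],
   [0, 0, -1, -1, 0, 0, 0, 1, 0, 0, 0, 0, 0, 0, -1, 0, 1, 1, 1, 1, -3, -1, -1, 0, 2, 0, 0, -4, 0, 0, -1, 0],
   [0, 0, 1, -1, 0, 0, 0, 0, 0, 0, -1, 0, 0, 0, 0, 1, 1, 1, 1, 1, -3, -3, 0, 0, 2, 0, -1, -2, 0, 2, -1, 0],
   [0, 0, 0, 0, 0, 0, 0, -1, 0, 0, 1, 0, 0, 0, 1, -1, -2, -2, -2, -2, 6, 4, 1, 0, -4, 0, 1, 4, 0, -2, 2, 0],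
   [0, 0, 1, 1, 0, 0, 0, 1, 0, 0, 0, 0, 0, 0, -1, 0, 1, 1, 1, 1, -3, -1, -1, 0, 2, 0, 0, 0, 0, 0, -1, 0],
   [0, 0, -1, 0, 0, 0, 0, 0, 0, 0, 0, -1, 0, 0, 1, 1, -2, -2, -2, -2, 6, 4, 2, 0, -4, 0, 1, 6, 0, 2, 0, 0],
   [0, 0, 0, 0, 0, 0, 0, -1, 0, 0, -1, 0, 0, 0, -1, -1, 2, 2, 2, 2, -6, -6, -1, 0, 4, 0, -1, -8, 0, -2, 0, 0],
   [0, 0, 0, 0, 0, 0, 1, 1, 0, 0, 0, 1, 0, 0, 1, 0, 0, 0, 0, 0, 0, 2, 0, 0, 0, 0, -1, 2, 0, 0, 1, 0]]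

/-- The table of the pairings with the basic classes. -/
def LatM_PL : List (List ℤ) :=
  [[0, 0, 0, 0, 0, 0, 0, 0, 0, 0, 0, 0, 0, 0, 0, 0, 4, 0, 0, -4, 0, 0, 0, 0, 0, 0, 0, 0, 0, 0, 0, 0],
   [2, 2, 2, 2, 0, 0, 0, 0, 4, 0, 0, 0, 0, 0, 0, 0, 8, 0, 0, -8, -2, 2, 2, -2, -2, 2, 2, -2, -2, 2, 2, -2],
   [0, 0, 0, 0, 0, 0, 0, 0, 0, 0, 0, 0, 0, 0, 0, 0, 0, -4, 0, 4, 0, 0, 0, 0, 0, 0, 0, 0, 0, 0, 0, 0],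
   [0, -2, 0, 0, -4, -2, -2, -2, 0, 0, 0, 0, -2, -2, 0, 0, -2, -10, 0, 12, -2, 2, 2, -2, 0, 0, 0, 0, 0, 0, 0, 0],
   [0, 0, 0, 0, 0, 0, 0, 0, 0, 0, 0, 0, 0, 0, 0, 0, 0, 0, 4, -4, 0, 0, 0, 0, 0, 0, 0, 0, 0, 0, 0, 0],
   [-2, -2, -2, -2, -2, -2, -2, -2, -4, 0, 0, 0, -2, -2, -2, -2, -16, -16, 16, 16, 0, 0, 0, 0, 2, -2, -2, 2, 0, 0, 0, 0],
   [-2, -2, 0, 0, 2, 0, 0, 0, 0, -2, 0, 0, 0, 0, 0, 0, -4, 2, 2, 0, 0, 0, 0, 0, 0, 0, 0, 0, 0, 0, 0, 0],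
   [0, -2, 0, 0, 0, 0, 0, 0, -2, 2, 0, 0, 2, 0, 0, 0, -6, 0, 4, 2, 0, 0, 0, 0, 0, 0, 0, 0, 0, 0, 0, 0],
   [2, 0, 0, 0, 0, 2, 0, 0, 2, 2, 0, 0, 0, 0, 0, 0, 6, 2, -8, 0, 0, 0, 0, 0, 0, 0, 0, 0, 0, 0, 0, 0],
   [-2, 2, 0, 0, 0, -2, 0, 0, 0, 0, 0, 0, -2, 0, 0, 0, 0, -2, 4, -2, 0, 0, 0, 0, 0, 0, 0, 0, 0, 0, 0, 0],
   [2, 0, 0, 0, 0, 0, 0, 0, 0, -2, 0, 0, 2, 2, 0, 0, 2, 4, -6, 0, 0, 0, 0, 0, 0, 0, 0, 0, 0, 0, 0, 0],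
   [0, -2, 0, 0, -2, 0, 0, 0, 0, 0, 0, 0, -2, -2, 0, 0, -2, -10, 8, 4, 0, 0, 0, 0, 0, 0, 0, 0, 0, 0, 0, 0],
   [0, 2, 0, 0, 2, 2, 0, 0, -2, 0, 0, 0, 0, 0, 0, 0, -2, 8, -2, -4, 0, 0, 0, 0, 0, 0, 0, 0, 0, 0, 0, 0],
   [-2, 0, 0, 0, -2, 0, 0, 0, 2, 0, 0, 0, 2, 0, 0, 0, 2, -2, -2, 2, 0, 0, 0, 0, 0, 0, 0, 0, 0, 0, 0, 0],
   [0, 0, 2, -2, 0, 0, 2, 0, 0, 0, 0, -2, 0, 0, 0, 0, 0, 2, -2, 0, 0, 0, 0, 0, 0, 0, 0, 0, 0, 0, 0, 0],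
   [0, 0, 2, 2, 0, 0, 0, -2, 0, 0, 0, 0, 0, 0, 2, 0, 4, -2, -4, 2, 0, 0, 0, 0, 0, 0, 0, 0, 0, 0, 0, 0],
   [0, 0, -2, 2, 0, 0, 0, 0, 0, 0, 2, 0, 0, 0, 0, -2, 0, 0, 2, -2, 0, 0, 0, 0, 0, 0, 0, 0, 0, 0, 0, 0],
   [0, 0, 0, 0, 0, 0, 0, 2, 0, 0, -2, 0, 0, 0, -2, 2, 0, 2, -2, 0, 0, 0, 0, 0, 0, 0, 0, 0, 0, 0, 0, 0],
   [0, 0, -2, -2, 0, 0, 0, -2, 0, 0, 0, 0, 0, 0, 2, 0, -4, -2, 4, 2, 0, 0, 0, 0, 0, 0, 0, 0, 0, 0, 0, 0],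
   [0, 0, 2, 0, 0, 0, 0, 0, 0, 0, 0, 2, 0, 0, -2, -2, 2, 0, 2, -4, 0, 0, 0, 0, 0, 0, 0, 0, 0, 0, 0, 0],
   [0, 0, 0, 0, 0, 0, 0, 2, 0, 0, 2, 0, 0, 0, 2, 2, 0, 2, -6, 4, 0, 0, 0, 0, 0, 0, 0, 0, 0, 0, 0, 0],
   [0, 0, 0, 0, 0, 0, -2, -2, 0, 0, 0, -2, 0, 0, -2, 0, 0, -4, 6, -2, 0, 0, 0, 0, 0, 0, 0, 0, 0, 0, 0, 0]]

/-- Column index. -/
def LatM_col : GI → ℕ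
  | .inl (i, c) => 4 * (i.1.val + 2 * i.2.val) + (c.1.val + 2 * c.2.val)
  | .inr (.inl i) => 16 + (i.1.val + 2 * i.2.val)
  | .inr (.inr (a, e, d)) => 20 + 4 * a.val + 2 * (cond e 0 1) + cond d 0 1

/-- Row index. -/
def LatM_row : K3Index → ℕ
  | .inl (a, b) => 2 * a.val + b.val
  | .inr (a, b) => 6 + 8 * a.val + b.val

/-- Reading a table. -/
def LatM_tb (L : List (List ℤ)) (k : K3Index) (x : GI) : ℤ :=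
  (L.getD (LatM_row k) []).getD (LatM_col x) 0

theorem LatM_h1 : ∀ k y, ∑ x, LatM_tb LatM_ML k x * dbl x y = LatM_tb LatM_NL k y := by
  decide +kernel

theorem LatM_h2 : ∀ k w, ∑ y, LatM_tb LatM_NL k y * G0 y w = LatM_tb LatM_PL k w := by
  decide +kernel

theorem LatM_h3 : ∀ k l, ∑ w, LatM_tb LatM_PL k w * LatM_tb LatM_NL l w = 4 * k3Form k l := by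
  decide +kernel

theorem exists_latM : ∃ M : K3Index → GI → ℤ, ∀ k l,
    ∑ y, ∑ w, (∑ x, M k x * dbl x y) * (∑ x, M l x * dbl x w) * G0 y w = 4 * k3Form k l := by
  refine ⟨LatM_tb LatM_ML, fun k l => ?_⟩
  rw [← LatM_h3 k l, Finset.sum_comm]
  refine Finset.sum_congr rfl fun w _ => ?_
  rw [← LatM_h2 k w, Finset.sum_mul]
  refine Finset.sum_congr rfl fun y _ => ?_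
  rw [LatM_h1, LatM_h1]
  ring

end HK3
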