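import Pool.Agent.P.MP_9699e0_gt.Sd

/-! The retraction onto small chains. -/

set_option autoImplicit false
set_option linter.unusedSectionVars false

noncomputable section

namespace HK3

open Pool.Agent.P.MP_9699e0_gt Set Filter Topology
open scoped ContDiff

variable {R : Type} [CommRing R] {X Y Z : Type} [TopologicalSpace X] [TopologicalSpace Y]
  [TopologicalSpace Z]

theorem Sm_map_mem {M : Type} [AddCommGroup M] [Module R M] {n : ℕ} {Q : Set (Simp X n)}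
    (L : Chn R X n →ₗ[R] M) (N : Submodule R M)
    (h : ∀ σ ∈ Q, L (Finsupp.single σ 1) ∈ N) {c : Chn R X n}
    (hc : c ∈ Finsupp.supported R R Q) : L c ∈ N := by
  rw [Finsupp.supported_eq_span_single] at hc
  have : Submodule.span R ((fun i => Finsupp.single i (1 : R)) '' Q) ≤ N.comap L := by
    rw [Submodule.span_le]
    rintro _ ⟨σ, hσ, rfl⟩
    exact h σ hσ
  exact this hc

theorem Sm_single {P : ∀ n, Simp X n → Prop} {n : ℕ} {σ : Simp X n} (h : P n σ) (r : R) :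
    Finsupp.single σ r ∈ sml R P n := Finsupp.single_mem_supported R r h

theorem Sm_bd {P : ∀ n, Simp X n → Prop}
    (hP : ∀ n k (σ : Simp X n) (v : C(Dl k, Dl n)), P n σ → P k (σ.comp v)) {n : ℕ}
    {c : Chn R X (n + 1)} (hc : c ∈ sml R P (n + 1)) : bd R X n c ∈ sml R P n := by
  refine Sm_map_mem (bd R X n) _ (fun σ hσ => ?_) hc
  rw [bd_single]
  exact Submodule.sum_mem _ fun i _ => Submodule.smul_mem _ _ (Sm_single (hP _ _ σ _ hσ) 1)

theorem Sm_pow {M : Type} [AddCommGroup M] [Module R M] {L : M →ₗ[R] M} {N : Submodule R M}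
    (h : ∀ c ∈ N, L c ∈ N) (i : ℕ) {c : M} (hc : c ∈ N) : (L ^ i) c ∈ N := by
  induction i with
  | zero => exact hc
  | succ i ih =>
    rw [pow_succ', Module.End.mul_apply]
    exact h _ ih

theorem Sm_pow_le {M : Type} [AddCommGroup M] [Module R M] {L : M →ₗ[R] M} {N : Submodule R M}
    (h : ∀ c ∈ N, L c ∈ N) {i j : ℕ} (hij : i ≤ j) {c : M} (hc : (L ^ i) c ∈ N) :
    (L ^ j) c ∈ N := by
  obtain ⟨k, rfl⟩ := Nat.exists_eq_add_of_le' hij
  rw [pow_add, Module.End.mul_apply]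
  exact Sm_pow h k hc

/-- Number of subdivisions, monotone with respect to faces. -/
def SmNum (m0 : ∀ n, Simp X n → ℕ) : ∀ n, Simp X n → ℕ
  | 0, σ => m0 0 σ
  | n + 1, σ => max (m0 (n + 1) σ)
      (Finset.univ.sup fun i : Fin (n + 2) => SmNum m0 n (sub σ i.succAbove))

theorem SmNum_ge (m0 : ∀ n, Simp X n → ℕ) : ∀ n (σ : Simp X n), m0 n σ ≤ SmNum m0 n σ
  | 0, _ => le_rfl
  | _ + 1, _ => le_max_left _ _

theorem SmNum_face (m0 : ∀ n, Simp X n → ℕ) (n : ℕ) (σ : Simp X (n + 1)) (i : Fin (n + 2)) :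
    SmNum m0 n (sub σ i.succAbove) ≤ SmNum m0 (n + 1) σ :=
  (Finset.le_sup (f := fun i : Fin (n + 2) => SmNum m0 n (sub σ i.succAbove))
    (Finset.mem_univ i)).trans (le_max_right _ _)

theorem SmNum_zero {m0 : ∀ n, Simp X n → ℕ} {P : ∀ n, Simp X n → Prop}
    (hP : ∀ n k (σ : Simp X n) (v : C(Dl k, Dl n)), P n σ → P k (σ.comp v))
    (h0 : ∀ n σ, P n σ → m0 n σ = 0) : ∀ n (σ : Simp X n), P n σ → SmNum m0 n σ = 0
  | 0, σ, h => h0 0 σ h
  | n + 1, σ, h => by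
    refine Nat.max_eq_zero_iff.2 ⟨h0 _ σ h, Nat.le_zero.1 (Finset.sup_le fun i _ => ?_)⟩
    exact (SmNum_zero hP h0 n _ (hP _ _ σ _ h)).le

/-- The retraction defined by a homotopy. -/
def SmRho (D : ∀ n, Chn R X n →ₗ[R] Chn R X (n + 1)) : ∀ n, Chn R X n →ₗ[R] Chn R X n
  | 0 => LinearMap.id - bd R X 0 ∘ₗ D 0
  | n + 1 => LinearMap.id - bd R X (n + 1) ∘ₗ D (n + 1) - D n ∘ₗ bd R X n

theorem SmRho_zero (D : ∀ n, Chn R X n →ₗ[R] Chn R X (n + 1)) (c : Chn R X 0) :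
    SmRho D 0 c = c - bd R X 0 (D 0 c) := rfl

theorem SmRho_succ (D : ∀ n, Chn R X n →ₗ[R] Chn R X (n + 1)) (n : ℕ) (c : Chn R X (n + 1)) :
    SmRho D (n + 1) c = c - bd R X (n + 1) (D (n + 1) c) - D n (bd R X n c) := rfl

theorem Sm_comp_range (T : Set X) (n k : ℕ) (σ : Simp X n) (v : C(Dl k, Dl n))
    (h : range σ ⊆ T) : range (σ.comp v) ⊆ T := by
  rintro _ ⟨t, rfl⟩
  exact h ⟨v t, rfl⟩

theorem Small.exists_retr {P : ∀ n, Simp X n → Prop} {S : Set X} (h : Small P S) :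
    ∃ (ρ : ∀ n, Chn R X n →ₗ[R] Chn R X n) (D : ∀ n, Chn R X n →ₗ[R] Chn R X (n + 1)),
    (∀ n c, bd R X n (ρ (n + 1) c) = ρ n (bd R X n c)) ∧
    (∀ c, bd R X 0 (D 0 c) = c - ρ 0 c) ∧
    (∀ n c, bd R X (n + 1) (D (n + 1) c) + D n (bd R X n c) = c - ρ (n + 1) c) ∧
    (∀ n, ∀ c ∈ chn R S n, ρ n c ∈ sml R P n) ∧
    (∀ n, ∀ c ∈ sml R P n, D n c = 0 ∧ ρ n c = c) ∧
    ∀ (T : Set X) n, ∀ c ∈ chn R T n, ρ n c ∈ chn R T n ∧ D n c ∈ chn R T (n + 1) := by
  classical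
  obtain ⟨Sd, T, h1, h2, h3, h4, h5⟩ := exists_sd R X
  have p1 : ∀ n i c, bd R X n ((Sd (n + 1) ^ i) c) = (Sd n ^ i) (bd R X n c) := by
    intro n i c
    induction i with
    | zero => rfl
    | succ i ih => rw [pow_succ', pow_succ', Module.End.mul_apply, Module.End.mul_apply, h1, ih]
  let Dm : ∀ n, ℕ → Chn R X n →ₗ[R] Chn R X (n + 1) := fun n m =>
    ∑ i ∈ Finset.range m, T n ∘ₗ (Sd n ^ i)
  have q0 : ∀ n m c, Dm n m c = ∑ i ∈ Finset.range m, T n ((Sd n ^ i) c) := fun n m c => by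
    simp only [Dm, LinearMap.sum_apply, LinearMap.comp_apply]
  have q1 : ∀ m c, bd R X 0 (Dm 0 m c) = c - (Sd 0 ^ m) c := by
    intro m c
    rw [q0]
    induction m with
    | zero => simp
    | succ m ih =>
      rw [Finset.sum_range_succ, map_add, ih, h2, pow_succ', Module.End.mul_apply]
      abel
  have q2 : ∀ n m c, bd R X (n + 1) (Dm (n + 1) m c) + Dm n m (bd R X n c) =
      c - (Sd (n + 1) ^ m) c := by
    intro n m c
    rw [q0, q0]
    induction m with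
    | zero => simp
    | succ m ih =>
      have := h3 n ((Sd (n + 1) ^ m) c)
      rw [Finset.sum_range_succ, Finset.sum_range_succ, map_add, add_add_add_comm, ih, ← p1, this,
        pow_succ', Module.End.mul_apply]
      abel
  let m0 : ∀ n, Simp X n → ℕ := fun n σ =>
    if h : ∃ m : ℕ, (Sd n ^ m) (Finsupp.single σ 1) ∈ sml R P n then Nat.find h else 0
  have r1 : ∀ n (σ : Simp X n), range σ ⊆ S → ∀ j, SmNum m0 n σ ≤ j →
      (Sd n ^ j) (Finsupp.single σ 1) ∈ sml R P n := by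
    intro n σ hσ j hj
    have hex := h5 P S h n σ hσ
    refine Sm_pow_le (fun c hc => (h4 P h.comp n c hc).1) ((SmNum_ge m0 n σ).trans hj) ?_
    simp only [m0, dif_pos hex]
    exact Nat.find_spec hex
  have r2 : ∀ n σ, P n σ → m0 n σ = 0 := by
    intro n σ hσ
    have hex : ∃ m : ℕ, (Sd n ^ m) (Finsupp.single σ 1) ∈ sml R P n := ⟨0, Sm_single hσ 1⟩
    simp only [m0, dif_pos hex]
    exact (Nat.find_eq_zero hex).2 (Sm_single hσ 1)
  let D : ∀ n, Chn R X n →ₗ[R] Chn R X (n + 1) := fun n =>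
    Finsupp.linearCombination R fun σ => Dm n (SmNum m0 n σ) (Finsupp.single σ 1)
  have d0 : ∀ n σ, D n (Finsupp.single σ 1) = Dm n (SmNum m0 n σ) (Finsupp.single σ 1) := by
    intro n σ
    simp only [D, Finsupp.linearCombination_single, one_smul]
  have d1 : ∀ n, ∀ c ∈ sml R P n, D n c = 0 := by
    intro n c hc
    refine (Submodule.mem_bot R).1 (Sm_map_mem (D n) ⊥ (fun σ hσ => ?_) hc)
    rw [d0, SmNum_zero h.comp r2 n σ hσ, q0, Finset.sum_range_zero]
    exact Submodule.zero_mem _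
  have d2 : ∀ (U : Set X) n, ∀ c ∈ chn R U n, D n c ∈ chn R U (n + 1) := by
    intro U n c hc
    refine Sm_map_mem (D n) _ (fun σ hσ => ?_) hc
    rw [d0, q0]
    have hU := h4 (fun _ σ => range σ ⊆ U) (Sm_comp_range U) n
    exact Submodule.sum_mem _ fun i _ =>
      (hU _ (Sm_pow (fun c hc => (hU c hc).1) i (single_mem hσ 1))).2
  refine ⟨SmRho D, D, fun n c => ?_, fun c => ?_, fun n c => ?_, fun n c hc => ?_,
    fun n c hc => ⟨d1 n c hc, ?_⟩, fun U n c hc => ⟨?_, d2 U n c hc⟩⟩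
  · cases n with
    | zero => rw [SmRho_succ, SmRho_zero, map_sub, map_sub, bd_bd, sub_zero]
    | succ n =>
      rw [SmRho_succ, SmRho_succ, map_sub, map_sub, bd_bd, bd_bd, map_zero, sub_zero, sub_zero]
  · rw [SmRho_zero, sub_sub_cancel]
  · rw [SmRho_succ]
    abel
  · refine Sm_map_mem (SmRho D n) _ (fun σ hσ => ?_) hc
    cases n with
    | zero =>
      rw [SmRho_zero, d0, q1, sub_sub_cancel]
      exact r1 0 σ hσ _ le_rfl
    | succ n =>
      have e : SmRho D (n + 1) (Finsupp.single σ 1) =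
          (Sd (n + 1) ^ SmNum m0 (n + 1) σ) (Finsupp.single σ 1) +
          (Dm n (SmNum m0 (n + 1) σ) (bd R X n (Finsupp.single σ 1)) -
            D n (bd R X n (Finsupp.single σ 1))) := by
        rw [SmRho_succ, d0, eq_sub_of_add_eq (q2 n _ _)]
        abel
      rw [e, bd_single, map_sum, map_sum, ← Finset.sum_sub_distrib]
      refine Submodule.add_mem _ (r1 _ σ hσ _ le_rfl) (Submodule.sum_mem _ fun i _ => ?_)
      rw [map_smul, map_smul, ← smul_sub, d0, q0, q0,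
        ← Finset.sum_Ico_eq_sub _ (SmNum_face m0 n σ i)]
      refine Submodule.smul_mem _ _ (Submodule.sum_mem _ fun j hj => ?_)
      exact (h4 P h.comp n _ (r1 n _ ((range_sub σ _).trans hσ) j (Finset.mem_Ico.1 hj).1)).2
  · cases n with
    | zero => rw [SmRho_zero, d1 0 c hc, map_zero, sub_zero]
    | succ n =>
      rw [SmRho_succ, d1 _ c hc, d1 n _ (Sm_bd h.comp hc), map_zero, sub_zero, sub_zero]
  · cases n with
    | zero => exact Submodule.sub_mem _ hc (bd_mem (d2 U 0 c hc))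
    | succ n =>
      exact Submodule.sub_mem _ (Submodule.sub_mem _ hc (bd_mem (d2 U _ c hc)))
        (d2 U n _ (bd_mem hc))

/-- A cocycle on small simplices extends. -/
theorem Small.extend {P : ∀ n, Simp X n → Prop} (h : Small P univ) {n : ℕ} (a : Simp X n → ℤ)
    (ha : ∀ τ, P (n + 1) τ → cobd a τ = 0) :
    ∃ a' : Simp X n → ℤ, cobd a' = 0 ∧ ∀ σ, P n σ → a' σ = a σ := by
  obtain ⟨ρ, D, h1, -, -, h4, h5, -⟩ := h.exists_retr (R := ℤ)
  have e : ∀ c, ev ℤ (fun σ => ev ℤ a (ρ n (Finsupp.single σ 1))) c = ev ℤ a (ρ n c) := by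
    intro c
    induction c using Finsupp.induction_linear with
    | zero => simp
    | add f g hf hg => simp only [map_add, hf, hg]
    | single σ r => rw [ev_single, ← map_smul, ← map_smul, Finsupp.smul_single_one]
  refine ⟨fun σ => ev ℤ a (ρ n (Finsupp.single σ 1)), funext fun τ => ?_, fun σ hσ => ?_⟩
  · have := ev_single (R := ℤ) (cobd fun σ => ev ℤ a (ρ n (Finsupp.single σ 1))) τ 1
    rw [one_smul] at this
    rw [← this, ← ev_bd, e, ← h1, ev_bd,
      ev_congr (b := 0) (h4 _ _ (single_mem (subset_univ _) 1)) ha]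
    simp [ev]
  · beta_reduce
    rw [(h5 n _ (Sm_single hσ 1)).2, ev_single, one_smul]

/-- A cocycle on `S` that vanishes on small simplices is a coboundary on `S`. -/
theorem Small.cob {P : ∀ n, Simp X n → Prop} {S : Set X} (h : Small P S) {n : ℕ}
    (a : Simp X (n + 1) → ℤ) (ha : ∀ τ : Simp X (n + 2), range τ ⊆ S → cobd a τ = 0)
    (h0 : ∀ σ : Simp X (n + 1), range σ ⊆ S → P (n + 1) σ → a σ = 0) :
    ∃ b : Simp X n → ℤ, (∀ σ : Simp X (n + 1), range σ ⊆ S → a σ = cobd b σ) ∧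
      ∀ τ, P n τ → b τ = 0 := by
  obtain ⟨ρ, D, -, -, h3, h4, h5, h6⟩ := h.exists_retr (R := ℤ)
  have e : ∀ c, ev ℤ (fun σ => ev ℤ a (D n (Finsupp.single σ 1))) c = ev ℤ a (D n c) := by
    intro c
    induction c using Finsupp.induction_linear with
    | zero => simp
    | add f g hf hg => simp only [map_add, hf, hg]
    | single σ r => rw [ev_single, ← map_smul, ← map_smul, Finsupp.smul_single_one]
  have z : ∀ {k : ℕ} (c : Chn ℤ X k), ev ℤ (0 : Simp X k → ℤ) c = 0 := fun c => by simp [ev]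
  refine ⟨fun σ => ev ℤ a (D n (Finsupp.single σ 1)), fun σ hσ => ?_, fun τ hτ => ?_⟩
  · have e1 := ev_single (R := ℤ) (cobd fun σ => ev ℤ a (D n (Finsupp.single σ 1))) σ 1
    have e2 := ev_single (R := ℤ) a σ 1
    rw [one_smul] at e1 e2
    have m1 := single_mem (R := ℤ) hσ 1
    have e3 : ev ℤ a (ρ (n + 1) (Finsupp.single σ 1)) = 0 := by
      have : ρ (n + 1) (Finsupp.single σ 1) ∈
          sml ℤ (fun n σ => range σ ⊆ S ∧ P n σ) (n + 1) := fun τ hτ =>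
        ⟨(h6 S _ _ m1).1 hτ, h4 _ _ m1 hτ⟩
      rw [ev_congr (b := 0) this fun τ hτ => h0 τ hτ.1 hτ.2, z]
    have e4 : ev ℤ a (bd ℤ X (n + 1) (D (n + 1) (Finsupp.single σ 1))) = 0 := by
      rw [ev_bd, ev_congr_chn (b := 0) (h6 S _ _ m1).2 ha, z]
    have e5 := congrArg (ev ℤ a) (h3 n (Finsupp.single σ 1))
    rw [map_add, map_sub, e3, e4, e2, zero_add, sub_zero] at e5
    rw [← e1, ← ev_bd, e, e5]
  · beta_reduce
    rw [(h5 n _ (Sm_single hτ 1)).1, map_zero]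

/-- Two open sets. -/
theorem small_two {O U V : Set X} (hU : IsOpen U) (hV : IsOpen V) (h : O ⊆ U ∪ V) :
    Small (fun _ σ => range σ ⊆ U ∨ range σ ⊆ V) O := by
  refine ⟨fun n k σ v hσ => hσ.imp (Sm_comp_range U n k σ v) (Sm_comp_range V n k σ v),
    fun x hx => ?_⟩
  rcases h hx with hx' | hx'
  · exact ⟨U, mem_nhdsWithin_of_mem_nhds (hU.mem_nhds hx'), fun n σ hσ => Or.inl hσ⟩
  · exact ⟨V, mem_nhdsWithin_of_mem_nhds (hV.mem_nhds hx'), fun n σ hσ => Or.inr hσ⟩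

theorem sml_two (U V : Set X) (n : ℕ) :
    sml R (fun _ σ => range σ ⊆ U ∨ range σ ⊆ V) n = chn R U n ⊔ chn R V n := by
  unfold sml chn
  rw [← Finsupp.supported_union]
  rfl

/-- Excision: a chain with boundary away from the closed set `K` can be pushed into any open
neighbourhood of `K`. -/
theorem exc_surj {K V : Set X} (hK : IsClosed K) (hV : IsOpen V) (h : K ⊆ V) {n : ℕ}
    {ζ : Chn R X (n + 1)} (hζ : bd R X n ζ ∈ chn R Kᶜ n) :
    ∃ ξ ∈ chn R V (n + 1), bd R X n ξ ∈ chn R Kᶜ n ∧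
      ζ - ξ ∈ bdy R univ (n + 1) ⊔ chn R Kᶜ (n + 1) := by
  have hs : Small (fun _ σ => range σ ⊆ V ∨ range σ ⊆ Kᶜ) (univ : Set X) :=
    small_two hV hK.isOpen_compl fun x _ => (em (x ∈ K)).imp (fun hx => h hx) id
  obtain ⟨ρ, D, h1, -, h3, h4, h5, -⟩ := hs.exists_retr (R := R)
  have u : ∀ {k : ℕ} (c : Chn R X k), c ∈ chn R univ k := fun c => by
    rw [chn_univ]
    exact Submodule.mem_top
  have m1 := h4 _ ζ (u ζ)
  rw [sml_two] at m1
  obtain ⟨ξ, hξ, η, hη, e⟩ := Submodule.mem_sup.1 m1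
  have m2 := h5 n (bd R X n ζ) (by
    rw [sml_two]
    exact Submodule.mem_sup_right hζ)
  refine ⟨ξ, hξ, ?_, ?_⟩
  · have : bd R X n ξ = bd R X n ζ - bd R X n η := by
      rw [← m2.2, ← h1, ← e, map_add, add_sub_cancel_right]
    rw [this]
    exact Submodule.sub_mem _ hζ (bd_mem hη)
  · have e2 := h3 n ζ
    rw [m2.1, add_zero, ← e] at e2
    have : ζ - ξ = bd R X (n + 1) (D (n + 1) ζ) + η := by
      rw [e2]
      abel
    rw [this]
    exact Submodule.add_mem_sup ⟨_, u _, rfl⟩ hη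

theorem exc_inj {K V : Set X} (hK : IsClosed K) (hV : IsOpen V) (h : K ⊆ V) {n : ℕ}
    {ξ : Chn R X n} (hξ : ξ ∈ chn R V n) (h0 : ξ ∈ bdy R univ n ⊔ chn R Kᶜ n) :
    ξ ∈ bdy R V n ⊔ chn R (V ∩ Kᶜ) n := by
  have hs : Small (fun _ σ => range σ ⊆ V ∨ range σ ⊆ Kᶜ) (univ : Set X) :=
    small_two hV hK.isOpen_compl fun x _ => (em (x ∈ K)).imp (fun hx => h hx) id
  obtain ⟨ρ, D, h1, -, -, h4, h5, -⟩ := hs.exists_retr (R := R)
  obtain ⟨_, ⟨ζ, hζ, rfl⟩, η, hη, e⟩ := Submodule.mem_sup.1 h0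
  have m1 := h4 _ ζ hζ
  rw [sml_two] at m1
  obtain ⟨a, ha, b, hb, e1⟩ := Submodule.mem_sup.1 m1
  have m2 := h5 n (bd R X n ζ) (by
    rw [sml_two, eq_sub_of_add_eq e]
    exact Submodule.sub_mem _ (Submodule.mem_sup_left hξ) (Submodule.mem_sup_right hη))
  have e2 : ξ - bd R X n a = bd R X n b + η := by
    rw [← e, ← m2.2, ← h1, ← e1, map_add]
    abel
  have m3 : ξ - bd R X n a ∈ chn R (V ∩ Kᶜ) n := by
    rw [chn_inter]
    refine ⟨Submodule.sub_mem _ hξ (bd_mem ha), ?_⟩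
    rw [e2]
    exact Submodule.add_mem _ (bd_mem hb) hη
  rw [← add_sub_cancel (bd R X n a) ξ]
  exact Submodule.add_mem_sup ⟨a, ha, rfl⟩ m3

end HK3
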