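import Pool.Agent.P.MP_9699e0_gt.LbDefs
import Pool.Agent.P.MP_9699e0_gt.Sm
import Pool.Agent.P.MP_9699e0_gt.Wd
import Pool.Agent.P.MP_9699e0_gt.Cv

/-! Existence of representing cocycles. -/

set_option autoImplicit false
set_option linter.unusedSectionVars false

noncomputable section

namespace HK3

open Pool.Agent.P.MP_9699e0_gt Set Filter Topology
open scoped ContDiff

variable {X : Type} [TopologicalSpace X]

variable (L : Et X)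

namespace Et

/-- Liftable simplices are small. -/
theorem small_lift : Small (fun n σ => ∃ σ' : Simp L.Ω n, range σ' ⊆ L.dom ∧ smap L.f σ' = σ)
    (univ : Set X) := by
  constructor
  · rintro n k σ v ⟨σ', h1, rfl⟩
    have h2 : range (σ'.comp v) ⊆ L.dom := by
      rintro _ ⟨t, rfl⟩
      exact h1 ⟨v t, rfl⟩
    refine ⟨σ'.comp v, h2, ContinuousMap.ext fun t => ?_⟩
    rw [smap_apply L.loc.continuousOn h2, ContinuousMap.comp_apply, ContinuousMap.comp_apply,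
      smap_apply L.loc.continuousOn h1]
  · intro x _
    obtain ⟨a, ha, rfl⟩ := L.surj x
    obtain ⟨e, hae, he⟩ := L.loc a ha
    refine ⟨e.target ∩ e.symm ⁻¹' L.dom, mem_nhdsWithin_of_mem_nhds
      ((e.isOpen_inter_preimage_symm L.opn).mem_nhds ?_), fun n σ hσ => ?_⟩
    · rw [he]
      exact ⟨e.map_source hae, by rw [mem_preimage, e.left_inv hae]; exact ha⟩
    · have hc : Continuous fun t => e.symm (σ t) :=
        e.continuousOn_symm.comp_continuous σ.continuous fun t => (hσ ⟨t, rfl⟩).1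
      have h2 : range (⟨_, hc⟩ : Simp L.Ω n) ⊆ L.dom := by
        rintro _ ⟨t, rfl⟩
        exact (hσ ⟨t, rfl⟩).2
      refine ⟨⟨_, hc⟩, h2, ContinuousMap.ext fun t => ?_⟩
      rw [smap_apply L.loc.continuousOn h2, he]
      exact e.right_inv (hσ ⟨t, rfl⟩).1

theorem Coc.self {L : Et X} {J : L.Ω → L.Ω → ℂ} (h : L.Coc J) {a : L.Ω} (ha : a ∈ L.dom) :
    J a a = 1 := by
  have hr : L.R a a := ⟨ha, ha, rfl⟩
  exact mul_left_cancel₀ (h.ne a a hr) ((h.mul a a a hr hr).trans (mul_one _).symm)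

theorem Lb1_polar_mul {z z' : ℂ} {a b : ℝ} (h : z = ‖z‖ * ex a) (h' : z' = ‖z'‖ * ex b) :
    z * z' = ‖z * z'‖ * ex (a + b) := by
  rw [norm_mul, ex_add, Complex.ofReal_mul, mul_mul_mul_comm, ← h, ← h']

theorem Lb1_rel {n : ℕ} {σ σ' : Simp L.Ω n} (h : range σ ⊆ L.dom) (h' : range σ' ⊆ L.dom)
    (e : smap L.f σ = smap L.f σ') (t : Dl n) : L.R (σ t) (σ' t) :=
  ⟨h ⟨t, rfl⟩, h' ⟨t, rfl⟩, by
    rw [← smap_apply L.loc.continuousOn h, e, smap_apply L.loc.continuousOn h']⟩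

theorem Lb1_smap_eq {n : ℕ} {σ σ' : Simp L.Ω n} (h : ∀ t, L.R (σ t) (σ' t)) :
    range σ ⊆ L.dom ∧ range σ' ⊆ L.dom ∧ smap L.f σ = smap L.f σ' := by
  have h1 : range σ ⊆ L.dom := by
    rintro _ ⟨t, rfl⟩
    exact (h t).1
  have h2 : range σ' ⊆ L.dom := by
    rintro _ ⟨t, rfl⟩
    exact (h t).2.1
  refine ⟨h1, h2, ContinuousMap.ext fun t => ?_⟩
  rw [smap_apply L.loc.continuousOn h1, smap_apply L.loc.continuousOn h2]
  exact (h t).2.2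

theorem Lb1_cont {L : Et X} {J : L.Ω → L.Ω → ℂ} (h : L.Coc J) {n : ℕ} {σ σ' : Simp L.Ω n}
    (hr : ∀ t, L.R (σ t) (σ' t)) : Continuous fun t => J (σ t) (σ' t) :=
  h.cont.comp_continuous (σ.continuous.prodMk σ'.continuous) hr

theorem Lb1_lift (n : ℕ) : ∃ l : Simp X n → Simp L.Ω n, ∀ σ : Simp L.Ω n, range σ ⊆ L.dom →
    ∀ t, L.R (σ t) (l (smap L.f σ) t) := by
  have h : ∀ τ : Simp X n, ∃ τ' : Simp L.Ω n, ∀ σ : Simp L.Ω n, range σ ⊆ L.dom →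
      smap L.f σ = τ → ∀ t, L.R (σ t) (τ' t) := by
    intro τ
    by_cases h : ∃ σ' : Simp L.Ω n, range σ' ⊆ L.dom ∧ smap L.f σ' = τ
    · obtain ⟨σ', h1, h2⟩ := h
      exact ⟨σ', fun σ h3 h4 => L.Lb1_rel h3 h1 (h4.trans h2.symm)⟩
    · obtain ⟨a, -⟩ := L.surj (vtx τ 0)
      exact ⟨ContinuousMap.const _ a, fun σ h3 h4 => absurd ⟨σ, h3, h4⟩ h⟩
  choose l hl using h
  exact ⟨l, fun σ hσ => hl _ σ hσ rfl⟩

theorem Lb1_vtx_mem {n : ℕ} {σ : Simp L.Ω n} (h : range σ ⊆ L.dom) (i : Fin (n + 1)) :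
    vtx σ i ∈ L.dom := h ⟨_, rfl⟩

theorem Lb1_exists_e {L : Et X} {J : L.Ω → L.Ω → ℂ} (h : L.Coc J) {s : L.Ω → ℂ}
    (hs : L.Sec J univ s) : ∃ e : L.Ω → ℂ, (∀ a ∈ L.dom, e a ≠ 0) ∧
      (∀ a b, L.R a b → e a = J a b * e b) ∧ ∀ a, s a ≠ 0 → e a = s a := by
  classical
  choose p hp hp' using L.surj
  refine ⟨fun a => if s a = 0 then J a (p (L.f a)) else s a, fun a ha => ?_, fun a b hab => ?_,
    fun a ha => if_neg ha⟩
  · simp only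
    split_ifs with h0
    · exact h.ne _ _ ⟨ha, hp _, (hp' _).symm⟩
    · exact h0
  · have h1 := hs.eqv a b hab (mem_univ _)
    simp only
    by_cases h0 : s b = 0
    · rw [if_pos h0, if_pos (by rw [h1, h0, mul_zero]), hab.2.2]
      exact (h.mul _ _ _ hab ⟨hab.2.1, hp _, (hp' _).symm⟩).symm
    · rw [if_neg h0, if_neg (by rw [h1]; exact mul_ne_zero (h.ne _ _ hab) h0)]
      exact h1

theorem Lb1_exists_w {L : Et X} {J : L.Ω → L.Ω → ℂ} (h : L.Coc J) {s e : L.Ω → ℂ}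
    (hs : L.Sec J univ s) (he : ∀ a b, L.R a b → e a = J a b * e b)
    (hes : ∀ a, s a ≠ 0 → e a = s a) : ∃ w : Simp L.Ω 1 → ℝ,
      (∀ γ : Simp L.Ω 1, range γ ⊆ L.dom →
        e (vtx γ 1) / e (vtx γ 0) = ‖e (vtx γ 1) / e (vtx γ 0)‖ * ex (w γ)) ∧
      (∀ γ γ' : Simp L.Ω 1, (∀ t, L.R (γ t) (γ' t)) →
        w γ - w γ' = wp fun t => J (γ t) (γ' t)) ∧
      ∀ γ : Simp L.Ω 1, range γ ⊆ L.dom → (∀ t, s (γ t) ≠ 0) → w γ = wd s γ := by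
  have hsc : ∀ γ : Simp L.Ω 1, range γ ⊆ L.dom → Continuous (s ∘ γ) := fun γ hγ =>
    hs.cont.comp_continuous γ.continuous fun t => ⟨hγ ⟨t, rfl⟩, mem_univ _⟩
  have h0 : ∀ γ : Simp L.Ω 1, ∃ r : ℝ, range γ ⊆ L.dom →
      e (vtx γ 1) / e (vtx γ 0) = ‖e (vtx γ 1) / e (vtx γ 0)‖ * ex r ∧
        ((∀ t, s (γ t) ≠ 0) → r = wd s γ) := by
    intro γ
    by_cases hz : ∀ t, s (γ t) ≠ 0
    · refine ⟨wd s γ, fun hγ => ⟨?_, fun _ => rfl⟩⟩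
      rw [hes (vtx γ 1) (hz _), hes (vtx γ 0) (hz _)]
      exact wp_arg (hsc γ hγ) hz
    · obtain ⟨r, hr⟩ := exists_ex (e (vtx γ 1) / e (vtx γ 0))
      exact ⟨r, fun _ => ⟨hr, fun h => absurd h hz⟩⟩
  choose w0 hw0 using h0
  obtain ⟨l, hl⟩ := L.Lb1_lift 1
  refine ⟨fun γ => (wp fun t => J (γ t) (l (smap L.f γ) t)) + w0 (l (smap L.f γ)),
    fun γ hγ => ?_, fun γ γ' hr => ?_, fun γ hγ hz => ?_⟩
  · have hr := hl γ hγ
    have h1 := (hw0 _ (L.Lb1_smap_eq hr).2.1).1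
    have h2 := wp_arg (Lb1_cont h hr) fun t => h.ne _ _ (hr t)
    have h3 := Lb1_polar_mul h2 h1
    have h4 : e (vtx γ 1) / e (vtx γ 0) =
        J (γ (stdSimplex.vertex 1)) (l (smap L.f γ) (stdSimplex.vertex 1)) /
          J (γ (stdSimplex.vertex 0)) (l (smap L.f γ) (stdSimplex.vertex 0)) *
          (e (vtx (l (smap L.f γ)) 1) / e (vtx (l (smap L.f γ)) 0)) := by
      rw [div_mul_div_comm]
      exact congrArg₂ (· / ·) (he _ _ (hr _)) (he _ _ (hr _))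
    rw [h4]
    exact h3
  · obtain ⟨h1, h2, h3⟩ := L.Lb1_smap_eq hr
    have hr' := hl γ' h2
    simp only [h3]
    have h4 : (fun t => J (γ t) (l (smap L.f γ') t)) =
        fun t => J (γ t) (γ' t) * J (γ' t) (l (smap L.f γ') t) :=
      funext fun t => (h.mul _ _ _ (hr t) (hr' t)).symm
    rw [h4, wp_mul (Lb1_cont h hr) (Lb1_cont h hr') (fun t => h.ne _ _ (hr t))
      fun t => h.ne _ _ (hr' t)]
    ring
  · have hr := hl γ hγ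
    have h1 := (L.Lb1_smap_eq hr).2.1
    have h2 : ∀ t, s (γ t) = J (γ t) (l (smap L.f γ) t) * s (l (smap L.f γ) t) := fun t =>
      hs.eqv _ _ (hr t) (mem_univ _)
    have h3 : ∀ t, s (l (smap L.f γ) t) ≠ 0 := fun t h0 => hz t (by rw [h2, h0, mul_zero])
    simp only
    rw [(hw0 _ h1).2 h3, wd, wd, ← wp_mul (Lb1_cont h hr) (hsc _ h1) (fun t => h.ne _ _ (hr t)) h3]
    exact congrArg wp (funext fun t => (h2 t).symm)

theorem Lb1_int {L : Et X} {e : L.Ω → ℂ} {w : Simp L.Ω 1 → ℝ} (he : ∀ a ∈ L.dom, e a ≠ 0)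
    (hw : ∀ γ : Simp L.Ω 1, range γ ⊆ L.dom →
      e (vtx γ 1) / e (vtx γ 0) = ‖e (vtx γ 1) / e (vtx γ 0)‖ * ex (w γ))
    {σ : Simp L.Ω 2} (hσ : range σ ⊆ L.dom) : ∃ m : ℤ, cobd w σ = m := by
  have h0 := hw _ ((range_sub σ (0 : Fin 3).succAbove).trans hσ)
  have h1 := hw _ ((range_sub σ (1 : Fin 3).succAbove).trans hσ)
  have h2 := hw _ ((range_sub σ (2 : Fin 3).succAbove).trans hσ)
  rw [vtx_sub, vtx_sub] at h0 h1 h2
  change e (vtx σ 2) / e (vtx σ 1) = ‖e (vtx σ 2) / e (vtx σ 1)‖ * _ at h0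
  change e (vtx σ 2) / e (vtx σ 0) = ‖e (vtx σ 2) / e (vtx σ 0)‖ * _ at h1
  change e (vtx σ 1) / e (vtx σ 0) = ‖e (vtx σ 1) / e (vtx σ 0)‖ * _ at h2
  have n0 := he _ (L.Lb1_vtx_mem hσ 0)
  have n1 := he _ (L.Lb1_vtx_mem hσ 1)
  have n2 := he _ (L.Lb1_vtx_mem hσ 2)
  have h3 := Lb1_polar_mul h0 h2
  rw [div_mul_div_cancel₀ n1] at h3
  have h4 : ((‖e (vtx σ 2) / e (vtx σ 0)‖ : ℝ) : ℂ) ≠ 0 :=
    Complex.ofReal_ne_zero.2 (norm_ne_zero_iff.2 (div_ne_zero n2 n0))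
  obtain ⟨m, hm⟩ := ex_eq_iff.1 (mul_left_cancel₀ h4 (h3.symm.trans h1))
  refine ⟨m, ?_⟩
  rw [cobd, Fin.sum_univ_three]
  simp only [Fin.val_zero, Fin.val_one, Fin.val_two, pow_zero, pow_one, neg_one_sq, one_smul,
    neg_smul]
  linarith only [hm]

theorem Lb1_indep {L : Et X} {J : L.Ω → L.Ω → ℂ} (h : L.Coc J) {w : Simp L.Ω 1 → ℝ}
    (hw : ∀ γ γ' : Simp L.Ω 1, (∀ t, L.R (γ t) (γ' t)) → w γ - w γ' = wp fun t => J (γ t) (γ' t))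
    {σ σ' : Simp L.Ω 2} (hr : ∀ t, L.R (σ t) (σ' t)) : cobd w σ = cobd w σ' := by
  rw [← sub_eq_zero, cobd, cobd, ← Finset.sum_sub_distrib,
    ← wp_tri (Lb1_cont h hr) fun t => h.ne _ _ (hr t)]
  refine Finset.sum_congr rfl fun i _ => ?_
  rw [← smul_sub, hw (sub σ i.succAbove) (sub σ' i.succAbove) fun t => hr _]
  rfl

/-- A representing cocycle adapted to a section. -/
theorem exists_rep_sec {J : L.Ω → L.Ω → ℂ} (h : L.Coc J) {s : L.Ω → ℂ} (hs : L.Sec J univ s) :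
    ∃ c w e, cobd c = 0 ∧ L.Wit J c w e ∧
      ∀ γ : Simp L.Ω 1, range γ ⊆ L.dom → (∀ t, s (γ t) ≠ 0) → w γ = wd s γ := by
  obtain ⟨e, he0, he1, he2⟩ := Lb1_exists_e h hs
  obtain ⟨w, hw1, hw2, hw3⟩ := Lb1_exists_w h hs he1 he2
  obtain ⟨l, hl⟩ := L.Lb1_lift 2
  have ha : ∀ σ : Simp L.Ω 2, range σ ⊆ L.dom →
      ((⌊cobd w (l (smap L.f σ))⌋ : ℤ) : ℝ) = cobd w σ := fun σ hσ => by
    obtain ⟨m, hm⟩ := Lb1_int he0 hw1 hσ
    rw [← Lb1_indep h hw2 (hl σ hσ), hm, Int.floor_intCast]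
  obtain ⟨c, hc, hc'⟩ := L.small_lift.extend (fun σ => ⌊cobd w (l σ)⌋) (by
    rintro _ ⟨τ, hτ, rfl⟩
    apply Int.cast_injective (α := ℝ)
    rw [cobd_cast, ← cobd_smap _ L.loc.continuousOn hτ, cobd_congr ha hτ, cobd_cobd]
    simp)
  refine ⟨c, w, e, hc, ⟨he0, he1, hw1, hw2, fun σ hσ => ?_⟩, hw3⟩
  rw [hc' _ ⟨σ, hσ, rfl⟩]
  exact ha σ hσ

theorem exists_rep {J : L.Ω → L.Ω → ℂ} (h : L.Coc J) : ∃ c, L.Rep J c := by
  obtain ⟨c, w, e, hc, hw, -⟩ := L.exists_rep_sec h (s := fun _ => 0)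
    ⟨continuousOn_const, fun _ _ _ _ => (mul_zero _).symm⟩
  exact ⟨c, hc, w, e, hw⟩

end Et

end HK3
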