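import Pool.Agent.P.MP_9699e0_gt.ChDefs

/-! Line bundles given by cocycles on an etale cover, their classes, glued spaces. -/

set_option autoImplicit false
set_option linter.unusedSectionVars false

noncomputable section

namespace HK3

open Pool.Agent.P.MP_9699e0_gt Set Filter Topology
open scoped ContDiff

/-- An etale cover. -/
structure Et (X : Type) [TopologicalSpace X] where
  Ω : Type
  [top : TopologicalSpace Ω]
  dom : Set Ω
  f : Ω → X
  opn : IsOpen dom
  loc : IsLocalHomeomorphOn f dom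
  surj : ∀ x, ∃ a ∈ dom, f a = x

attribute [instance] Et.top

variable {X : Type} [TopologicalSpace X]

namespace Et

variable (L : Et X)

/-- Two points with the same image. -/
def R (a b : L.Ω) : Prop := a ∈ L.dom ∧ b ∈ L.dom ∧ L.f a = L.f b

/-- The cocycle of a line bundle. -/
structure Coc (J : L.Ω → L.Ω → ℂ) : Prop where
  cont : ContinuousOn (fun p : L.Ω × L.Ω => J p.1 p.2) {p | L.R p.1 p.2}
  ne : ∀ a b, L.R a b → J a b ≠ 0
  mul : ∀ a b c, L.R a b → L.R b c → J a b * J b c = J a c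

/-- A section over `O`. -/
structure Sec (J : L.Ω → L.Ω → ℂ) (O : Set X) (s : L.Ω → ℂ) : Prop where
  cont : ContinuousOn s (L.dom ∩ L.f ⁻¹' O)
  eqv : ∀ a b, L.R a b → L.f a ∈ O → s a = J a b * s b

/-- The data that tie the integral cocycle `c` to the bundle. -/
structure Wit (J : L.Ω → L.Ω → ℂ) (c : Simp X 2 → ℤ) (w : Simp L.Ω 1 → ℝ) (e : L.Ω → ℂ) : Prop where
  ne : ∀ a ∈ L.dom, e a ≠ 0
  eqv : ∀ a b, L.R a b → e a = J a b * e b
  arg : ∀ γ : Simp L.Ω 1, range γ ⊆ L.dom →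
    e (vtx γ 1) / e (vtx γ 0) = ‖e (vtx γ 1) / e (vtx γ 0)‖ * ex (w γ)
  chg : ∀ γ γ' : Simp L.Ω 1, (∀ t, L.R (γ t) (γ' t)) → w γ - w γ' = wp fun t => J (γ t) (γ' t)
  val : ∀ σ : Simp L.Ω 2, range σ ⊆ L.dom → ((c (smap L.f σ) : ℤ) : ℝ) = cobd w σ

/-- The integral cocycle `c` represents the first Chern class of the bundle. -/
def Rep (J : L.Ω → L.Ω → ℂ) (c : Simp X 2 → ℤ) : Prop := cobd c = 0 ∧ ∃ w e, L.Wit J c w e

end Et

/-- An open set with a function whose small values stay inside. -/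
structure HD (X : Type) [TopologicalSpace X] where
  O : Set X
  q : X → ℂ
  η : ℝ
  opn : IsOpen O
  cont : ContinuousOn q O
  pos : 0 < η
  cls : IsClosed {x | x ∈ O ∧ ‖q x‖ ≤ η}

/-- The zero set. -/
def HD.K (h : HD X) : Set X := {x | x ∈ h.O ∧ h.q x = 0}

theorem HD.isClosed_K (h : HD X) : IsClosed h.K := by
  have e : h.K = {x | x ∈ h.O ∧ ‖h.q x‖ ≤ h.η} ∩ h.q ⁻¹' {0} := by
    ext x
    constructor
    · rintro ⟨h1, h2⟩
      exact ⟨⟨h1, by rw [h2, norm_zero]; exact h.pos.le⟩, h2⟩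
    · rintro ⟨⟨h1, -⟩, h2⟩
      exact ⟨h1, h2⟩
  rw [e]
  exact (h.cont.mono fun x hx => hx.1).preimage_isClosed_of_isClosed h.cls isClosed_singleton

theorem locHomeo_fst {Ω : Type} [TopologicalSpace Ω] :
    IsLocalHomeomorph (Prod.fst : Ω × Bool → Ω) := by
  refine isLocalHomeomorph_iff_isOpenEmbedding_restrict.2 fun x => ?_
  refine ⟨univ ×ˢ {x.2}, prod_mem_nhds univ_mem ((isOpen_discrete _).mem_nhds rfl), ?_⟩
  refine IsOpenEmbedding.of_continuous_injective_isOpenMap
    (continuous_fst.comp continuous_subtype_val) ?_ ?_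
  · rintro ⟨⟨a, b⟩, ha, hb⟩ ⟨⟨a', b'⟩, ha', hb'⟩ h
    have h1 : a = a' := h
    have h2 : b = b' := (show b = x.2 from hb).trans (show b' = x.2 from hb').symm
    subst h1 h2
    rfl
  · exact isOpenMap_fst.comp (isOpen_univ.prod (isOpen_discrete _)).isOpenMap_subtype_val

/-- The cover refined by the two open sets `O` and the complement of `K`. -/
def Et.two (L : Et X) (h : HD X) : Et X where
  Ω := L.Ω × Bool
  dom := {p | p.1 ∈ L.dom ∧ (p.2 = true → L.f p.1 ∈ h.O) ∧ (p.2 = false → L.f p.1 ∉ h.K)}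
  f := fun p => L.f p.1
  opn := by
    have e : {p : L.Ω × Bool | p.1 ∈ L.dom ∧ (p.2 = true → L.f p.1 ∈ h.O) ∧
        (p.2 = false → L.f p.1 ∉ h.K)} = ((L.dom ∩ L.f ⁻¹' h.O) ×ˢ {true}) ∪
          ((L.dom ∩ L.f ⁻¹' h.Kᶜ) ×ˢ {false}) := by
      ext ⟨a, b⟩
      cases b <;> simp
    rw [e]
    exact ((L.loc.continuousOn.isOpen_inter_preimage L.opn h.opn).prod (isOpen_discrete _)).union
      ((L.loc.continuousOn.isOpen_inter_preimage L.opn h.isClosed_K.isOpen_compl).prod
        (isOpen_discrete _))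
  loc := L.loc.comp (locHomeo_fst.isLocalHomeomorphOn.mono (subset_univ _)) fun _ hp => hp.1
  surj := fun x => by
    obtain ⟨a, ha, rfl⟩ := L.surj x
    by_cases hx : L.f a ∈ h.O
    · exact ⟨(a, true), ⟨ha, fun _ => hx, by simp⟩, rfl⟩
    · exact ⟨(a, false), ⟨ha, by simp, fun _ hk => hx hk.1⟩, rfl⟩

/-- The bundle obtained by gluing two trivial bundles with the function `q`. -/
def Et.JG (L : Et X) (h : HD X) : L.Ω × Bool → L.Ω × Bool → ℂ
  | (_, true), (_, true) => 1
  | (_, false), (_, false) => 1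
  | (a, true), (_, false) => h.q (L.f a)
  | (a, false), (_, true) => (h.q (L.f a))⁻¹

/-- The bundle obtained by gluing `J` and the trivial bundle with the section `s`. -/
def Et.JB (L : Et X) (J : L.Ω → L.Ω → ℂ) (s : L.Ω → ℂ) : L.Ω × Bool → L.Ω × Bool → ℂ
  | (a, true), (b, true) => J a b
  | (_, false), (_, false) => 1
  | (a, true), (_, false) => s a
  | (_, false), (b, true) => (s b)⁻¹

/-- Both cup products take the value `m` on `z`. -/
def Meet (z : Chn ℤ X 4) (c c' : Simp X 2 → ℤ) (m : ℤ) : Prop :=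
  ev ℤ (cup c c') z = m ∧ ev ℤ (cup c' c) z = m

/-- Gluing data: open sets of the model space and partial maps between them. -/
structure Gl (κ : Type) where
  W : κ → Set E
  Ar : Type
  src : Ar → κ
  tgt : Ar → κ
  D : Ar → Set E
  g : Ar → E → E
  k0 : κ
  a0 : E
  h0 : a0 ∈ W k0

namespace Gl

variable {κ : Type} [TopologicalSpace κ] [DiscreteTopology κ] (G : Gl κ)

/-- One arrow. -/
def Step (a b : κ × E) : Prop :=
  ∃ r, a.1 = G.src r ∧ b.1 = G.tgt r ∧ a.2 ∈ G.D r ∧ b.2 = G.g r a.2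

/-- The equivalence relation generated by the arrows. -/
def Rel : κ × E → κ × E → Prop := Relation.EqvGen G.Step

/-- The disjoint union of the open sets. -/
def dom : Set (κ × E) := {p | p.2 ∈ G.W p.1}

/-- The regularity of the data. -/
structure Ok : Prop where
  opn : ∀ k, IsOpen (G.W k)
  dopn : ∀ r, IsOpen (G.D r)
  dsub : ∀ r, G.D r ⊆ G.W (G.src r)
  maps : ∀ r, MapsTo (G.g r) (G.D r) (G.W (G.tgt r))
  smooth : ∀ r, ContDiffOn ℝ ∞ (G.g r) (G.D r)
  det : ∀ r, ∀ a ∈ G.D r, 0 < (fderiv ℝ (G.g r) a).det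

/-- Nearby points of one piece are not identified. -/
def LInj : Prop :=
  ∀ k, ∀ a ∈ G.W k, ∃ V ∈ 𝓝 a, ∀ b ∈ V, ∀ b' ∈ V, G.Rel (k, b) (k, b') → b = b'

/-- The relation on the disjoint union. -/
def setoid : Setoid G.dom := (Relation.EqvGen.setoid G.Step).comap Subtype.val

/-- The glued space. -/
def T : Type := Quotient G.setoid

instance : TopologicalSpace G.T := inferInstanceAs (TopologicalSpace (Quotient G.setoid))

open Classical in
/-- The parametrisation of the glued space. -/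
def f (p : κ × E) : G.T :=
  if h : p ∈ G.dom then Quotient.mk G.setoid ⟨p, h⟩ else Quotient.mk G.setoid ⟨(G.k0, G.a0), G.h0⟩

end Gl

end HK3
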