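import Pool.Agent.P.MP_9699e0_gt.ChDefs

/-! Pillow cases. -/

set_option autoImplicit false
set_option linter.unusedSectionVars false

noncomputable section

namespace HK3

open Pool.Agent.P.MP_9699e0_gt Set Filter Topology
open scoped ContDiff

/-- Gaussian integers. -/
def gi (m : ℤ × ℤ) : ℂ := ⟨m.1, m.2⟩

/-- The four classes of the lattice modulo two. -/
abbrev I4 : Type := Fin 2 × Fin 2

/-- The representative of a class. -/
def rep (i : I4) : ℤ × ℤ := (((i.1 : ℕ) : ℤ), ((i.2 : ℕ) : ℤ))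

/-- The plane without the lattice. -/
def Pn : Set ℂ := {x | ∀ m, x ≠ gi m}

/-- A family of pillow cases over the convex set `P`, with neighbourhoods `V` of the corners. -/
structure Pil {X : Type} [TopologicalSpace X] {W : Type} [NormedAddCommGroup W] [NormedSpace ℝ W]
    (F : ℂ × W → X) (P : Set W) (j : W → W) (V : I4 → Set X) (Tb : Set (ℂ × W)) : Prop where
  opn : IsOpen P
  conv : Convex ℝ P
  ne : P.Nonempty
  loc : IsLocalHomeomorphOn F (Pn ×ˢ P)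
  jm : MapsTo j P P
  eq : ∀ p ∈ Pn ×ˢ P, ∀ q ∈ Pn ×ˢ P, F p = F q ↔
    ∃ m, q = (p.1 + 2 * gi m, p.2) ∨ q = (-p.1 + 2 * gi m, j p.2)
  null : ∀ c, Null (V c)
  disj : Pairwise (Function.onFun Disjoint V)
  mem : ∀ c, ∀ p ∈ Pn ×ˢ P, F p ∈ V c ↔ ∃ m, (p.1 - gi (rep c) - 2 * gi m, p.2) ∈ Tb
  big : ∃ r > 0, ∀ x : ℂ, ∀ w ∈ P, ‖x‖ < r → (x, w) ∈ Tb
  small : ∀ p ∈ Tb, ‖p.1‖ < 1 / 4
  star : ∀ p ∈ Tb, ∀ s ∈ Icc (0 : ℝ) 1, ((s : ℂ) * p.1, p.2) ∈ Tb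

end HK3
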