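import Pool.Agent.P.MP_9699e0_gt.LbDefs
import Pool.Agent.P.MP_9699e0_gt.PDefs

/-! The model: lattices, gluing data, functions. -/

set_option autoImplicit false
set_option linter.unusedSectionVars false

noncomputable section

namespace HK3

open Pool.Agent.P.MP_9699e0_gt Set Filter Topology
open scoped ContDiff

/-- The radius of the tubes. -/
def ρ : ℝ := 1 / 100

/-- The logarithm of the stretching factor. -/
def hh : ℝ := 3 * Real.log Real.goldenRatio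

/-- The diagonal flow. -/
def dg (s : ℝ) (y : ℂ) : ℂ := ⟨Real.exp (-(hh * s)) * y.re, Real.exp (hh * s) * y.im⟩

/-- The frame of the lattice at time `t`. -/
def Bm (t : ℝ) (x : ℂ) : ℂ := dg t (((Real.goldenRatio : ℂ) - Complex.I) * x)

/-- The inverse frame. -/
def Bi (t : ℝ) (y : ℂ) : ℂ := dg (-t) y / ((Real.goldenRatio : ℂ) - Complex.I)

/-- Lattice points at time `t`. -/
def β (t : ℝ) (m : ℤ × ℤ) : ℂ := Bm t (gi m)

/-- The sign `(-1) ^ k`. -/
def sg (k : ℤ) : ℝ := (-1) ^ k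

/-- Iterated conjugation. -/
def cj (k : ℤ) (y : ℂ) : ℂ := ⟨y.re, sg k * y.im⟩

/-- The deck transformations of the open part. -/
def gam (n : ℕ) (k e : ℤ) (m : ℤ × ℤ) (l : ℤ) (ξ : E) : E :=
  (sg e * cj k ξ.1 + 2 * β (ξ.2.im + n * k) m, ⟨sg k * ξ.2.re + 2 * l, ξ.2.im + n * k⟩)

/-- The orbit relation. -/
def RG (n : ℕ) (ξ ξ' : E) : Prop := ∃ k e m l, ξ' = gam n k e m l ξ

/-- The deck transformations near the binding. -/
def trn (e : ℤ) (m : ℤ × ℤ) (α : E) : E := (sg e * α.1 + 2 * gi m, sg e * α.2)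

/-- Logarithmic coordinates of a tube. -/
def tube (n : ℕ) (i : I4) (α : E) : E :=
  (β (n * α.2.im / Real.pi) (rep i) + Real.exp α.2.re * ex (α.1.re / 4),
    ⟨α.1.im, n * α.2.im / Real.pi⟩)

def W0 : Set E := {ξ | ∀ m, ξ.1 ≠ β ξ.2.im m}

def W2 : Set E := {α | ‖α.2‖ < ρ ∧ (α.2 = 0 → ∀ m, α.1 ≠ gi m)}

def W3 : Set E := {p | ‖p.1‖ < ρ ^ 2 ∧ ‖p.1‖ * ‖p.2‖ ^ 2 < ρ ^ 2}

def W4 : Set E := {p | ‖p.2‖ < ρ ^ 2 ∧ ‖p.1‖ ^ 2 * ‖p.2‖ < ρ ^ 2}

/-- The pieces. -/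
inductive K : Type
  | o : K
  | n (i : I4) : K
  | a (i c : I4) : K
  | b (i c : I4) : K

instance : TopologicalSpace K := ⊥

instance : DiscreteTopology K := ⟨rfl⟩

/-- The arrows. -/
inductive Ar : Type
  | g (k e : ℤ) (m : ℤ × ℤ) (l : ℤ) : Ar
  | t (i : I4) (e : ℤ) (m : ℤ × ℤ) : Ar
  | u (i : I4) (ϑ : ℝ) : Ar
  | v (i c : I4) : Ar
  | w (i c : I4) : Ar
  | x (i c : I4) : Ar

/-- The gluing data. -/
def md (n : ℕ) : Gl K where
  W
    | .o => W0
    | .n _ => W2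
    | .a _ _ => W3
    | .b _ _ => W4
  Ar := Ar
  src
    | .g _ _ _ _ => .o
    | .t i _ _ => .n i
    | .u i _ => .n i
    | .v i _ => .n i
    | .w i _ => .n i
    | .x i c => .a i c
  tgt
    | .g _ _ _ _ => .o
    | .t i _ _ => .n i
    | .u _ _ => .o
    | .v i c => .a i c
    | .w i c => .b i c
    | .x i c => .b i c
  D
    | .g _ _ _ _ => W0
    | .t _ _ _ => W2
    | .u _ ϑ => {α | ‖α.2‖ < ρ ∧ α.2 * Complex.exp (-(ϑ * Complex.I)) ∈ Complex.slitPlane}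
    | .v _ c => {α | ‖α.1 - gi (rep c)‖ < ρ ∧ ‖α.2‖ < ρ ∧ α.1 ≠ gi (rep c)}
    | .w _ c => {α | ‖α.1 - gi (rep c)‖ < ρ ∧ ‖α.2‖ < ρ ∧ α.2 ≠ 0}
    | .x _ _ => {p | p ∈ W3 ∧ p.2 ≠ 0}
  g
    | .g k e m l => gam n k e m l
    | .t _ e m => trn e m
    | .u i ϑ => fun α => tube n i
        (α.1, Complex.log (α.2 * Complex.exp (-(ϑ * Complex.I))) + ϑ * Complex.I)
    | .v _ c => fun α => ((α.1 - gi (rep c)) ^ 2, α.2 / (α.1 - gi (rep c)))
    | .w _ c => fun α => ((α.1 - gi (rep c)) / α.2, α.2 ^ 2)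
    | .x _ _ => fun p => (p.2⁻¹, p.1 * p.2 ^ 2)
  k0 := .a 0 0
  a0 := 0
  h0 := by
    constructor <;> simp [ρ]

/-- The manifold. -/
abbrev XX (n : ℕ) : Type := (md n).T

/-- The four kinds of parametrisations. -/
def f0 (n : ℕ) (ξ : E) : XX n := (md n).f (.o, ξ)

def f2 (n : ℕ) (i : I4) (α : E) : XX n := (md n).f (.n i, α)

def f3 (n : ℕ) (i c : I4) (p : E) : XX n := (md n).f (.a i c, p)

def f4 (n : ℕ) (i c : I4) (p : E) : XX n := (md n).f (.b i c, p)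

/-- The open part. -/
def Z0 (n : ℕ) : Set (XX n) := f0 n '' W0

/-- The neighbourhood of a binding sphere without the exceptional spheres. -/
def N2 (n : ℕ) (i : I4) : Set (XX n) := f2 n i '' W2

/-- The neighbourhood of an exceptional sphere. -/
def Ec (n : ℕ) (i c : I4) : Set (XX n) := f3 n i c '' W3 ∪ f4 n i c '' W4

/-- The neighbourhood of a singular fibre. -/
def Nb (n : ℕ) (i : I4) : Set (XX n) := N2 n i ∪ ⋃ c, Ec n i c

/-- The complement of the exceptional spheres. -/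
def Xp (n : ℕ) : Set (XX n) := Z0 n ∪ ⋃ i, N2 n i

/-- Truncated distance to the lattice points of one class. -/
def rc (i : I4) (ξ : E) : ℝ := ⨅ m : ℤ × ℤ, min ρ ‖ξ.1 - β ξ.2.im (rep i + 2 • m)‖

/-- Truncated distance to the lattice. -/
def rr (ξ : E) : ℝ := ⨅ m : ℤ × ℤ, min ρ ‖ξ.1 - β ξ.2.im m‖

/-- The local form of the rotation. -/
def gk (n : ℕ) : K × E → K × E
  | (.o, ξ) => (.o, (ξ.1, ξ.2 + 2 * Complex.I))
  | (.n i, α) => (.n i, (α.1, ex (1 / n) * α.2))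
  | (.a i c, p) => (.a i c, (p.1, ex (1 / n) * p.2))
  | (.b i c, p) => (.b i c, (ex (-(1 / n)) * p.1, ex (1 / n) ^ 2 * p.2))

/-- Local equations of the exceptional spheres. -/
def σA (j : I4 × I4) : K × E → ℂ
  | (.a i c, p) => if (i, c) = j then p.1 else 1
  | (.b i c, p) => if (i, c) = j then p.2 else 1
  | _ => 1

/-- Local equations of the binding spheres. -/
def σL (n : ℕ) : K × E → ℂ
  | (.o, ξ) => rr ξ * ex (ξ.2.im / (2 * n))
  | (.n _, α) => α.2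
  | (.a _ _, p) => p.2
  | (.b _ _, _) => 1

/-- The non-zero classes. -/
def cl : Fin 3 → I4 := ![(1, 0), (0, 1), (1, 1)]

/-- Winding numbers around the punctures. -/
def mm (a : Fin 3) (i : I4) : ℤ := if i = 0 then 1 else if i = cl a then -1 else 0

/-- The character of the translations. -/
def χ (a : Fin 3) (m : ℤ × ℤ) : ℝ := sg ((rep (cl a)).1 * m.2 - (rep (cl a)).2 * m.1)

/-- Signs at the punctures. -/
def eps (a : Fin 3) (i : I4) : ℝ := χ a ((rep i).1 + (rep i).2, (rep i).1)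

/-- Three circle valued functions on the open part. -/
structure Psi (ψ : Fin 3 → ℂ → ℝ → ℂ) : Prop where
  cont : ∀ a, ContinuousOn (fun ξ : E => ψ a ξ.1 ξ.2.im) W0
  norm : ∀ a y t, ‖ψ a y t‖ = 1
  neg : ∀ a y t, ψ a (-y) t = ψ a y t
  per : ∀ a y t m, ψ a (y + 2 * β t m) t = ψ a y t
  cnj : ∀ a y t, ψ a ((starRingEnd ℂ) y) (t + 1) = (starRingEnd ℂ) (ψ a y t)
  tub : ∀ a i t (r u : ℝ), 0 < r → r < ρ →
    ψ a (β t (rep i) + r * ex (u / 4)) t = eps a i * ex (mm a i * u / 2)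

/-- `F` is the function on the manifold given by `F0` on the open part and by `F2` near the
bindings. -/
structure Desc (n : ℕ) {Y : Type} [TopologicalSpace Y] (F : XX n → Y) (F0 : E → Y)
    (F2 : I4 → E → Y) : Prop where
  cont : Continuous F
  e0 : ∀ ξ ∈ W0, F (f0 n ξ) = F0 ξ
  e2 : ∀ i, ∀ α ∈ W2, F (f2 n i α) = F2 i α
  e3 : ∀ i c (b y : ℂ), (b ^ 2, y) ∈ W3 → F (f3 n i c (b ^ 2, y)) = F2 i (gi (rep c) + b, y * b)
  e4 : ∀ i c (x z : ℂ), (x, z ^ 2) ∈ W4 → F (f4 n i c (x, z ^ 2)) = F2 i (gi (rep c) + x * z, z)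

/-- The odd function on the open part. -/
def ζ0 (ψ : Fin 3 → ℂ → ℝ → ℂ) (a : Fin 3) (ξ : E) : ℂ :=
  ⟨Real.sin (Real.pi * ξ.2.re), (ψ a ξ.1 ξ.2.im).im⟩

/-- The odd function near a binding. -/
def ζ2 (a : Fin 3) (i : I4) (α : E) : ℂ :=
  ⟨Real.sin (Real.pi * α.1.im), eps a i * Real.sin (Real.pi * (mm a i * α.1.re))⟩

/-- The global functions used in the proof. -/
structure Fns (n : ℕ) where
  ψ : Fin 3 → ℂ → ℝ → ℂ
  psi : Psi ψ
  C : XX n → ℝ
  P : Fin 3 → XX n → ℝ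
  Q : Fin 3 → XX n → ℂ
  R : I4 → XX n → ℝ
  Z : XX n → ℂ
  hC : Desc n C (fun ξ => Real.cos (Real.pi * ξ.2.re)) fun _ α => Real.cos (Real.pi * α.1.im)
  hP : ∀ a, Desc n (P a) (fun ξ => (ψ a ξ.1 ξ.2.im).re)
    fun i α => eps a i * Real.cos (Real.pi * (mm a i * α.1.re))
  hQ : ∀ a, Desc n (Q a) (fun ξ => ζ0 ψ a ξ ^ 2) fun i α => ζ2 a i α ^ 2
  hR : ∀ i, Desc n (R i) (rc i) fun j α => if j = i then ‖α.2‖ else ρ
  hZ : Desc n Z (fun ξ => σL n (.o, ξ) ^ 2) fun _ α => α.2 ^ 2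

/-- Index set of the half classes. -/
abbrev HI : Type := I4 ⊕ (Fin 3 × Bool × Bool)

/-- The sign of a Boolean. -/
def sb (b : Bool) : ℤ := if b = true then 1 else -1

/-- The exceptional spheres inside the zero set of the gluing function. -/
def inK : HI → I4 × I4 → Prop
  | .inl i, j => j.1 = i
  | .inr (a, e, d), j => sb e = (-1) ^ (j.2.2 : ℕ) ∧
      sb d = (-1) ^ (((rep (cl a)).1 * (rep j.1).1 + (rep (cl a)).2 * ((rep j.1).1 + (rep j.1).2) +
        mm a j.1 * (rep j.2).1).natAbs)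

instance : ∀ b j, Decidable (inK b j)
  | .inl _, _ => inferInstanceAs (Decidable (_ = _))
  | .inr (_, _, _), _ => inferInstanceAs (Decidable (_ ∧ _))

/-- The open sets of the half classes. -/
def Fns.O {n : ℕ} (F : Fns n) : HI → Set (XX n)
  | .inl i => {x | F.R i x < ρ}
  | .inr (a, e, d) => {x | 0 < sb e * F.C x ∧ 0 < sb d * F.P a x}

/-- The gluing functions of the half classes. -/
def Fns.q {n : ℕ} (F : Fns n) : HI → XX n → ℂ
  | .inl _ => F.Z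
  | .inr (a, _, _) => F.Q a

/-- The thresholds. -/
def eta : HI → ℝ
  | .inl _ => ρ ^ 2 / 4
  | .inr _ => 1 / 4

/-- The intersection numbers of the glued bundles. -/
def gG : HI → HI → ℤ
  | .inr (a, e, d), .inl i => -2 * mm a i * sb e * sb d
  | .inl i, .inr (a, e, d) => -2 * mm a i * sb e * sb d
  | _, _ => 0

end HK3
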