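import Pool.Agent.P.MP_9699e0_gt.FnB
import Pool.Agent.P.MP_9699e0_gt.GlDefs

/-! The cover, the atlas, bundles and fibres of the model. -/

set_option autoImplicit false
set_option linter.unusedSectionVars false

noncomputable section

namespace HK3

open Pool.Agent.P.MP_9699e0_gt Set Filter Topology
open scoped ContDiff

variable {n : ℕ}

/-- The etale cover of the manifold. -/
def etM (hn : Odd n) : Et (XX n) := (md_ok hn).et (md_linj hn)

/-- The oriented atlas of the manifold. -/
def oatM (hn : Odd n) : OAt (XX n) := (md_ok hn).oat (md_linj hn)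

/-- The data of the half classes. -/
def Fns.hd (F : Fns n) (b : HI) : HD (XX n) where
  O := F.O b
  q := F.q b
  η := eta b
  opn := F.isOpen_O b
  cont := (F.continuous_q b).continuousOn
  pos := eta_pos b
  cls := F.isClosed_O b

/-- `g` is the rotation. -/
structure IsG (n : ℕ) (g : XX n → XX n) : Prop where
  cont : Continuous g
  eq : ∀ a ∈ (md n).dom, g ((md n).f a) = (md n).f (gk n a)

/-- The line bundles on the manifold. -/
structure Bun (hn : Odd n) (F : Fns n) where
  JA : I4 × I4 → K × E → K × E → ℂ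
  JL : K × E → K × E → ℂ
  s : HI → K × E → ℂ
  cA : ∀ j, (etM hn).Coc (JA j)
  sA : ∀ j, (etM hn).Sec (JA j) univ (σA j)
  cL : (etM hn).Coc JL
  sL : (etM hn).Sec JL univ (σL n)
  rel : ∀ a b, (etM hn).R a b → JL a b ^ 2 * ∏ j, JA j a b = 1
  ss : ∀ b, (etM hn).Sec JL (Xp n) (s b)
  sq : ∀ b, ∀ a ∈ (md n).dom, (md n).f a ∈ Xp n →
    s b a ^ 2 * ∏ j, σA j a = F.q b ((md n).f a)
  sl : ∀ i, s (.inl i) = σL n

/-- `c` represents the class of an exceptional sphere. -/
def Bun.RA {hn : Odd n} {F : Fns n} (B : Bun hn F) (j : I4 × I4) (c : Simp (XX n) 2 → ℤ) : Prop :=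
  (etM hn).Rep (B.JA j) c

/-- `c` represents the class of a fibre. -/
def Fns.RG (F : Fns n) (hn : Odd n) (b : HI) (c : Simp (XX n) 2 → ℤ) : Prop :=
  ((etM hn).two (F.hd b)).Rep ((etM hn).JG (F.hd b)) c

/-- `c` represents a half class. -/
def Bun.RB {hn : Odd n} {F : Fns n} (B : Bun hn F) (b : HI) (c : Simp (XX n) 2 → ℤ) : Prop :=
  ((etM hn).two (F.hd b)).Rep ((etM hn).JB B.JL (B.s b)) c

/-- The fibre of the open part over the circle. -/
def Φ (n : ℕ) : Set (XX n) := f0 n '' {ξ | ξ ∈ W0 ∧ ξ.2.im = 0}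

/-- The four times punctured spheres. -/
def SS (n : ℕ) (v : ℂ) : Set (XX n) := f0 n '' {ξ | ξ ∈ W0 ∧ ξ.2 = v}

end HK3
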