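import Pool.Agent.P.MP_9699e0_gt.Mv
import Pool.Agent.P.MP_9699e0_gt.Cv
import Pool.Agent.P.MP_9699e0_gt.Wd

/-! The Wang sequence, part one. -/

set_option autoImplicit false
set_option linter.unusedSectionVars false

noncomputable section

namespace HK3

open Pool.Agent.P.MP_9699e0_gt Set Filter Topology
open scoped ContDiff

variable {R : Type} [CommRing R] {X Y Z : Type} [TopologicalSpace X] [TopologicalSpace Y]
  [TopologicalSpace Z]

variable {O : Set X} {τ : X → ℂ} {Θ : ℝ → X → X}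

/-- The argument with values within one half of `c`. -/
def Mt1_arg (c : ℝ) (z : ℂ) : ℝ := Complex.arg (z * ex (-c)) / (2 * Real.pi) + c

theorem Mt1_mem (c : ℝ) (z : ℂ) : Mt1_arg c z ∈ Ioc (c - 1 / 2) (c + 1 / 2) := by
  have h1 := Complex.neg_pi_lt_arg (z * ex (-c))
  have h2 := Complex.arg_le_pi (z * ex (-c))
  have hp := Real.two_pi_pos
  have h3 : -(1 / 2) < Complex.arg (z * ex (-c)) / (2 * Real.pi) := by
    rw [lt_div_iff₀ hp]; linarith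
  have h4 : Complex.arg (z * ex (-c)) / (2 * Real.pi) ≤ 1 / 2 := by
    rw [div_le_iff₀ hp]; linarith
  unfold Mt1_arg
  constructor <;> linarith

theorem Mt1_ex (c : ℝ) {z : ℂ} (hz : ‖z‖ = 1) : z = ex (Mt1_arg c z) := by
  have h1 : ‖z * ex (-c)‖ = 1 := by rw [norm_mul, hz, norm_ex, mul_one]
  have h2 := Complex.norm_mul_exp_arg_mul_I (z * ex (-c))
  have h3 : ex (Complex.arg (z * ex (-c)) / (2 * Real.pi)) = z * ex (-c) := by
    rw [h1, Complex.ofReal_one, one_mul] at h2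
    refine Eq.trans ?_ h2
    unfold ex
    congr 2
    have : (Real.pi : ℂ) ≠ 0 := Complex.ofReal_ne_zero.2 Real.pi_ne_zero
    push_cast
    field_simp
  rw [Mt1_arg, ex_add, h3, mul_assoc, ← ex_add, neg_add_cancel, ex_zero, mul_one]

theorem Mt1_uniq {s t : ℝ} (h : ex s = ex t) (h1 : s < t + 1) (h2 : t < s + 1) : s = t := by
  obtain ⟨m, hm⟩ := ex_eq_iff.1 h
  have h3 : (m : ℝ) < 1 := by linarith
  have h4 : (-1 : ℝ) < m := by linarith
  have h5 : m < 1 := by exact_mod_cast h3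
  have h6 : -1 < m := by exact_mod_cast h4
  obtain rfl : m = 0 := by omega
  simpa using hm

theorem Mt1_arg_ex {c t : ℝ} (h1 : c - 1 / 2 < t) (h2 : t ≤ c + 1 / 2) :
    Mt1_arg c (ex t) = t := by
  have h := Mt1_mem c (ex t)
  exact Mt1_uniq (Mt1_ex c (norm_ex t)).symm (by linarith [h.2]) (by linarith [h.1])

theorem Mt1_lt {c : ℝ} {z : ℂ} (hz : ‖z‖ = 1) (h : z ≠ ex (c + 1 / 2)) :
    Mt1_arg c z < c + 1 / 2 :=
  lt_of_le_of_ne (Mt1_mem c z).2 fun e => h (by rw [← e]; exact Mt1_ex c hz)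

theorem Mt1_cont {c : ℝ} {z : ℂ} (hz : ‖z‖ = 1) (h : z ≠ ex (c + 1 / 2)) :
    ContinuousAt (Mt1_arg c) z := by
  have h1 := Mt1_lt hz h
  have h2 : z * ex (-c) ∈ Complex.slitPlane := by
    refine Complex.mem_slitPlane_iff_arg.2 ⟨fun e => ?_, mul_ne_zero ?_ (ex_ne _)⟩
    · have := Real.pi_pos
      rw [Mt1_arg, e, show Real.pi / (2 * Real.pi) = 1 / 2 by field_simp] at h1
      linarith
    · rintro rfl
      simp at hz
  have h3 : ContinuousAt (fun z => Complex.arg (z * ex (-c))) z :=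
    ContinuousAt.comp (f := fun z => z * ex (-c)) (Complex.continuousAt_arg h2) (by fun_prop)
  exact (h3.div_const _).add continuousAt_const

theorem Mt1_re (t : ℝ) : (ex t).re = Real.cos (2 * Real.pi * t) := by
  rw [← Complex.exp_ofReal_mul_I_re]
  unfold ex
  push_cast
  rfl

theorem Mt1_I : ex (-1 / 4 + 1 / 2) = Complex.I := by
  rw [← Complex.exp_pi_div_two_mul_I]
  unfold ex
  congr 2
  push_cast
  ring

theorem Mt1_negI : ex (1 / 4 + 1 / 2) = -Complex.I := by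
  have h := ex_half 1
  rw [show (1 / 4 + 1 / 2 : ℝ) = -1 / 4 + 1 / 2 + ((1 : ℤ) : ℝ) / 2 by norm_num, ex_add, Mt1_I, h]
  simp

theorem Mt1_pos {t : ℝ} (h1 : -1 / 4 < t) (h2 : t < 1 / 4) : 0 < (ex t).re := by
  have := Real.pi_pos
  rw [Mt1_re]
  exact Real.cos_pos_of_mem_Ioo ⟨by nlinarith, by nlinarith⟩

theorem Mt1_neg {t : ℝ} (h1 : 1 / 4 < t) (h2 : t < 3 / 4) : (ex t).re < 0 := by
  have := Real.pi_pos
  rw [Mt1_re]
  exact Real.cos_neg_of_pi_div_two_lt_of_lt (by nlinarith) (by nlinarith)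

theorem Mt1_neI {z : ℂ} (h : z.re ≠ 0) : z ≠ Complex.I ∧ z ≠ -Complex.I := by
  constructor <;> rintro rfl <;> simp at h

theorem Mt1_re_ne {z : ℂ} (hz : ‖z‖ = 1) (h1 : z ≠ Complex.I) (h2 : z ≠ -Complex.I) :
    z.re ≠ 0 := by
  intro h
  have h3 := Complex.sq_norm z
  rw [hz, Complex.normSq_apply, h] at h3
  have h4 : (z.im - 1) * (z.im + 1) = 0 := by linarith
  rcases mul_eq_zero.1 h4 with e | e
  · exact h1 (Complex.ext h (by simp; linarith))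
  · exact h2 (Complex.ext (by simpa using h) (by simp; linarith))

theorem Mt1_of_neg {z : ℂ} (hz : ‖z‖ = 1) (h : z.re < 0) :
    1 / 4 < Mt1_arg (1 / 4) z ∧ Mt1_arg (1 / 4) z < 3 / 4 ∧
      Mt1_arg (-1 / 4) z = Mt1_arg (1 / 4) z - 1 := by
  have hp := Real.pi_pos
  have h1 := (Mt1_mem (1 / 4) z).1
  have h2 := Mt1_lt (c := 1 / 4) hz (Mt1_negI ▸ (Mt1_neI h.ne).2)
  have h3 := Mt1_ex (1 / 4) hz
  generalize Mt1_arg (1 / 4) z = t at *
  have h4 : 1 / 4 < t := by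
    by_contra h5
    rw [h3, Mt1_re] at h
    exact absurd h (not_lt.2 (Real.cos_nonneg_of_neg_pi_div_two_le_of_le (by nlinarith)
      (by nlinarith [not_lt.1 h5])))
  refine ⟨h4, by linarith, ?_⟩
  have h6 : ex t = ex (t - 1) := ex_eq_iff.2 ⟨1, by simp⟩
  rw [h3, h6]
  exact Mt1_arg_ex (by linarith) (by linarith)

theorem Mt1_of_pos {z : ℂ} (hz : ‖z‖ = 1) (h : 0 < z.re) :
    -1 / 4 < Mt1_arg (-1 / 4) z ∧ Mt1_arg (-1 / 4) z < 1 / 4 := by
  have hp := Real.pi_pos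
  have h1 := (Mt1_mem (-1 / 4) z).1
  have h2 := Mt1_lt (c := -1 / 4) hz (Mt1_I ▸ (Mt1_neI h.ne').1)
  have h3 := Mt1_ex (-1 / 4) hz
  generalize Mt1_arg (-1 / 4) z = t at *
  refine ⟨?_, by linarith⟩
  by_contra h5
  rw [h3, Mt1_re, ← Real.cos_neg] at h
  exact absurd h (not_lt.2 (Real.cos_nonpos_of_pi_div_two_le_of_le (by nlinarith [not_lt.1 h5])
    (by nlinarith)))

theorem Mt1_one {c : ℝ} (h1 : c - 1 / 2 < 0) (h2 : 0 ≤ c + 1 / 2) : Mt1_arg c 1 = 0 := by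
  rw [← ex_zero]
  exact Mt1_arg_ex h1 h2

theorem Mt1_contOn (h : Rot O τ Θ) {S : Set X} (hS : S ⊆ O) {a : X → ℝ}
    (ha : ContinuousOn a S) : ContinuousOn (fun x => Θ (a x) x) S :=
  h.cΘ.comp (f := fun x => (a x, x)) (ha.prodMk continuousOn_id) fun _ hx => ⟨trivial, hS hx⟩

theorem Mt1_htpy (h : Rot O τ Θ) {S : Set X} (hS : S ⊆ O) {a : X → ℝ} (ha : ContinuousOn a S)
    (hs : ∀ x ∈ S, ∀ s ∈ Icc (0 : ℝ) 1, Θ (-(s * a x)) x ∈ S) {n : ℕ}
    {c : Chn R X n} (hc : c ∈ cyc R S n) :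
    c - cmap R (fun x => Θ (-a x) x) n c ∈ bdy R S n := by
  have h1 := htpy_cyc (R := R) (fun s x => Θ (-(s * a x)) x) (S := S) (S' := S)
    (h.cΘ.comp (f := fun p : ℝ × X => (-(p.1 * a p.2), p.2))
      ((continuousOn_fst.mul (ha.comp continuousOn_snd fun _ hp => hp.2)).neg.prodMk
        continuousOn_snd) fun _ hp => ⟨trivial, hS hp.2⟩) (fun s hs' x hx => hs x hx s hs') hc
  have h2 : cmap R (fun x => Θ (-(0 * a x)) x) n c = c := by
    refine (cmap_congr (g := id) (fun x hx => ?_) (cyc_le S n hc)).trans (cmap_id c)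
    simp only [zero_mul, neg_zero, id]
    exact h.zero x (hS hx)
  simp only [one_mul] at h1
  rw [h2] at h1
  simpa using neg_mem h1

theorem Mt1_maps (h : Rot O τ Θ) {S : Set X} (hS : S ⊆ O) {a : X → ℝ}
    (e : ∀ x ∈ S, τ x = ex (a x)) : MapsTo (fun x => Θ (-a x) x) S (fib O τ) := fun x hx =>
  ⟨h.mem _ x (hS hx), by rw [h.rot _ x (hS hx), e x hx, ← ex_add, neg_add_cancel, ex_zero]⟩

theorem Mt1_tau (h : Rot O τ Θ) (c s : ℝ) {x : X} (hx : x ∈ O) :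
    τ (Θ s x) = ex (s + Mt1_arg c (τ x)) := by
  rw [h.rot s x hx, ex_add, ← Mt1_ex c (h.nτ x hx)]

theorem Mt1_argOn (h : Rot O τ Θ) (c : ℝ) {w : ℂ} (hw : ex (c + 1 / 2) = w) :
    ContinuousOn (fun x => Mt1_arg c (τ x)) {x | x ∈ O ∧ τ x ≠ w} := fun x hx =>
  (Mt1_cont (h.nτ x hx.1) (hw ▸ hx.2)).comp_continuousWithinAt
    ((h.cτ x hx.1).mono fun _ hy => hy.1)

theorem Mt1_stay (h : Rot O τ Θ) {c : ℝ} (h1 : c - 1 / 2 < 0) (h2 : 0 < c + 1 / 2) {w : ℂ}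
    (hw : ex (c + 1 / 2) = w) : ∀ x ∈ {x | x ∈ O ∧ τ x ≠ w}, ∀ s ∈ Icc (0 : ℝ) 1,
      Θ (-(s * Mt1_arg c (τ x))) x ∈ {x | x ∈ O ∧ τ x ≠ w} := by
  intro x hx s hs
  refine ⟨h.mem _ x hx.1, ?_⟩
  have h3 := (Mt1_mem c (τ x)).1
  have h4 := Mt1_lt (c := c) (h.nτ x hx.1) (hw ▸ hx.2)
  rw [Mt1_tau h c _ hx.1, ← hw]
  generalize Mt1_arg c (τ x) = t at *
  have h5 : c - 1 / 2 < -(s * t) + t ∧ -(s * t) + t < c + 1 / 2 := by
    rcases le_total 0 t with h6 | h6 <;> constructor <;> nlinarith [hs.1, hs.2]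
  intro e
  have := Mt1_uniq e (by linarith) (by linarith)
  linarith

theorem Mt1_bdy (h : Rot O τ Θ) {c : ℝ} (h1 : c - 1 / 2 < 0) (h2 : 0 < c + 1 / 2) {w : ℂ}
    (hw : ex (c + 1 / 2) = w) {n : ℕ} {d e : Chn R X n} (hd : d ∈ cyc R (fib O τ) n)
    (hb : d + e ∈ bdy R {x | x ∈ O ∧ τ x ≠ w} n) :
    d + cmap R (fun x => Θ (-Mt1_arg c (τ x)) x) n e ∈ bdy R (fib O τ) n := by
  have h3 := cmap_bdy (Mt1_contOn h (fun _ hx => hx.1) (Mt1_argOn h c hw).fun_neg)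
    (Mt1_maps h (fun _ hx => hx.1) fun x hx => Mt1_ex c (h.nτ x hx.1)) hb
  have h4 : cmap R (fun x => Θ (-Mt1_arg c (τ x)) x) n d = d := by
    refine (cmap_congr (g := id) (fun x hx => ?_) (cyc_le _ n hd)).trans (cmap_id d)
    show Θ (-Mt1_arg c (τ x)) x = x
    rw [hx.2, Mt1_one h1 h2.le, neg_zero, h.zero x hx.1]
  rwa [map_add, h4] at h3

theorem Mt1_open (h : Rot O τ Θ) {T : Set ℂ} (hT : IsOpen T) :
    ∃ U, IsOpen U ∧ O ∩ U = {x | x ∈ O ∧ τ x ∈ T} := by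
  obtain ⟨U, hU, e⟩ := continuousOn_iff'.1 h.cτ T hT
  exact ⟨U, hU, by rw [inter_comm, ← e, inter_comm]; rfl⟩

theorem Mt1_comp (h : Rot O τ Θ) (s : ℝ) {n : ℕ} {e : Chn R X n}
    (he : e ∈ chn R {x | x ∈ O ∧ (τ x).re < 0} n) {a : X → ℝ}
    (ha : ∀ x ∈ O, (τ x).re < 0 → -a x = s + -Mt1_arg (1 / 4) (τ x)) :
    cmap R (Θ s) n (cmap R (fun x => Θ (-Mt1_arg (1 / 4) (τ x)) x) n e) =
      cmap R (fun x => Θ (-a x) x) n e := by
  rw [cmap_comp (Mt1_contOn h (fun _ hx => hx.1)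
    ((Mt1_argOn h _ Mt1_negI).mono fun x hx => ⟨hx.1, (Mt1_neI hx.2.ne).2⟩).fun_neg) he]
  refine cmap_congr (fun x hx => ?_) he
  show Θ s (Θ _ x) = Θ _ x
  rw [ha x hx.1 hx.2, h.add _ _ x hx.1]

/-- Retraction of a sector onto the fibre: `a` is a continuous argument on `S`. -/
theorem Rot.retr (h : Rot O τ Θ) {S : Set X} (hS : S ⊆ O) {a : X → ℝ} (ha : ContinuousOn a S)
    (e : ∀ x ∈ S, τ x = ex (a x)) (hs : ∀ x ∈ S, ∀ s ∈ Icc (0 : ℝ) 1, Θ (-(s * a x)) x ∈ S) {n : ℕ}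
    {c : Chn R X n} (hc : c ∈ cyc R S n) :
    cmap R (fun x => Θ (-a x) x) n c ∈ cyc R (fib O τ) n ∧
      c - cmap R (fun x => Θ (-a x) x) n c ∈ bdy R S n :=
  ⟨cmap_cyc (Mt1_contOn h hS ha.neg) (Mt1_maps h hS e) hc, Mt1_htpy h hS ha hs hc⟩

theorem Rot.exists_conn (h : Rot O τ Θ) {n : ℕ} {c : Chn R X (n + 1)} (hc : c ∈ cyc R O (n + 1)) :
    ∃ d, Conn R O τ n c d := by
  obtain ⟨U, hU, eU⟩ := Mt1_open h (T := {z | z ≠ Complex.I}) isOpen_ne
  obtain ⟨V, hV, eV⟩ := Mt1_open h (T := {z | z ≠ -Complex.I}) isOpen_ne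
  obtain ⟨P, hP, eP⟩ := Mt1_open h (T := {z | 0 < z.re})
    (isOpen_lt continuous_const Complex.continuous_re)
  obtain ⟨N, hN, eN⟩ := Mt1_open h (T := {z | z.re < 0})
    (isOpen_lt Complex.continuous_re continuous_const)
  simp only [mem_ofPred_eq] at eU eV eP eN
  obtain ⟨a, ha, b, hb, hab⟩ := mv_split hU hV (fun x hx => by
    by_cases e : τ x = Complex.I
    · refine Or.inr (eV.ge ⟨hx, ?_⟩).2
      rw [e]
      intro e'
      have := congrArg Complex.im e'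
      norm_num at this
    · exact Or.inl (eU.ge ⟨hx, e⟩).2) hc
  rw [eU] at ha
  rw [eV] at hb
  have h1 : bd R X n b = -bd R X n a := by
    have h2 : bd R X n (c - a - b) = 0 := (bdy_le O (n + 1) hab).2
    have h3 : bd R X n c = 0 := hc.2
    rw [map_sub, map_sub, h3, zero_sub, sub_eq_zero] at h2
    exact h2.symm
  have h2 : bd R X n a ∈ cyc R (⋃ i : Bool, O ∩ bif i then P else N) n := by
    refine mem_cyc (bdy_le _ n ⟨a, ha, rfl⟩) (chn_mono (S := {x | x ∈ O ∧ τ x ≠ Complex.I} ∩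
      {x | x ∈ O ∧ τ x ≠ -Complex.I}) (fun x hx => ?_) n ?_)
    · rcases lt_or_gt_of_ne (Mt1_re_ne (h.nτ x hx.1.1) hx.1.2 hx.2.2) with e | e
      · exact mem_iUnion.2 ⟨false, eN.ge ⟨hx.1.1, e⟩⟩
      · exact mem_iUnion.2 ⟨true, eP.ge ⟨hx.1.1, e⟩⟩
    · rw [chn_inter]
      exact ⟨bd_mem ha, by simpa [h1] using neg_mem (bd_mem hb)⟩
  rw [cyc_disj (U := fun i : Bool => bif i then P else N) (fun i => by cases i <;> assumption)
    (fun _ => inter_subset_right) (fun i j hij => by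
      refine disjoint_left.2 fun x hx hx' => ?_
      cases i <;> cases j
      · exact hij rfl
      · exact lt_asymm (eN.le hx).2 (eP.le ⟨hx.1, hx'⟩).2
      · exact lt_asymm (eP.le hx).2 (eN.le ⟨hx.1, hx'⟩).2
      · exact hij rfl), iSup_bool_eq, cond_true, cond_false, eP, eN] at h2
  obtain ⟨p, hp, e, he, hpe⟩ := Submodule.mem_sup.1 h2
  obtain ⟨h3, k, hk, h4⟩ := h.retr (a := fun x => Mt1_arg (-1 / 4) (τ x)) (fun _ hx => hx.1)
    ((Mt1_argOn h _ Mt1_I).mono fun x hx => ⟨hx.1, (Mt1_neI hx.2.ne').1⟩)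
    (fun x hx => Mt1_ex _ (h.nτ x hx.1)) (fun x hx s hs => by
      refine ⟨h.mem _ x hx.1, ?_⟩
      obtain ⟨h5, h6⟩ := Mt1_of_pos (h.nτ x hx.1) hx.2
      rw [Mt1_tau h (-1 / 4) _ hx.1]
      generalize Mt1_arg (-1 / 4) (τ x) = t at *
      rcases le_total 0 t with h7 | h7 <;>
        exact Mt1_pos (by nlinarith [hs.1, hs.2]) (by nlinarith [hs.1, hs.2])) hp
  refine ⟨_, h3, a - k, sub_mem ha (chn_mono (fun x hx => And.intro hx.1 (Mt1_neI hx.2.ne').1) _ hk),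
    b + k, add_mem hb (chn_mono (fun x hx => And.intro hx.1 (Mt1_neI hx.2.ne').2) _ hk), e,
    cyc_le _ _ he, ?_, ?_, ?_⟩
  · rwa [show c - (a - k) - (b + k) = c - a - b by abel]
  · rw [map_sub, h4, ← hpe]; abel
  · rw [map_add, h4, h1, ← hpe]; abel

theorem Conn.add {n : ℕ} {c c' : Chn R X (n + 1)} {d d' : Chn R X n} (h : Conn R O τ n c d)
    (h' : Conn R O τ n c' d') : Conn R O τ n (c + c') (d + d') := by
  obtain ⟨h0, a, ha, b, hb, e, he, h1, h2, h3⟩ := h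
  obtain ⟨h0', a', ha', b', hb', e', he', h1', h2', h3'⟩ := h'
  refine ⟨add_mem h0 h0', a + a', add_mem ha ha', b + b', add_mem hb hb', e + e', add_mem he he',
    ?_, ?_, ?_⟩
  · rw [show c + c' - (a + a') - (b + b') = c - a - b + (c' - a' - b') by abel]
    exact add_mem h1 h1'
  · rw [map_add, h2, h2']; abel
  · rw [map_add, h3, h3']; abel

theorem Conn.smul {n : ℕ} {c : Chn R X (n + 1)} {d : Chn R X n} (r : R) (h : Conn R O τ n c d) :
    Conn R O τ n (r • c) (r • d) := by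
  obtain ⟨h0, a, ha, b, hb, e, he, h1, h2, h3⟩ := h
  refine ⟨Submodule.smul_mem _ r h0, r • a, Submodule.smul_mem _ r ha, r • b,
    Submodule.smul_mem _ r hb, r • e, Submodule.smul_mem _ r he, ?_, ?_, ?_⟩
  · rw [← smul_sub, ← smul_sub]
    exact Submodule.smul_mem _ r h1
  · rw [map_smul, h2, smul_add]
  · rw [map_smul, h3, smul_neg, smul_add]

theorem Rot.conn_inv (h : Rot O τ Θ) {n : ℕ} {c : Chn R X (n + 1)} {d : Chn R X n}
    (hc : Conn R O τ n c d) : cmap R (Θ 1) n d - d ∈ bdy R (fib O τ) n := by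
  obtain ⟨h0, a, ha, b, hb, e, he, -, h2, h3⟩ := hc
  have hU := Mt1_bdy h (by norm_num) (by norm_num) Mt1_I h0 ⟨a, ha, h2⟩
  have hV := Mt1_bdy h (by norm_num) (by norm_num) Mt1_negI h0
    ⟨-b, neg_mem hb, by rw [map_neg, h3, neg_neg]⟩
  have h4 := cmap_bdy (f := Θ 1) (T := fib O τ)
    (Mt1_contOn h (fun _ hx => hx.1) continuousOn_const) (fun x hx => ⟨h.mem _ x hx.1, by
      have := ex_int 1
      rw [Int.cast_one] at this
      rw [h.rot _ x hx.1, hx.2, this, mul_one]⟩) hV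
  rw [map_add, Mt1_comp h 1 he (a := fun x => Mt1_arg (-1 / 4) (τ x)) fun x hx hx' => by
    rw [(Mt1_of_neg (h.nτ x hx) hx').2.2]; ring] at h4
  simpa using sub_mem h4 hU

theorem Rot.conn_zero (h : Rot O τ Θ) {n : ℕ} {c : Chn R X (n + 1)} {d : Chn R X n}
    (hc : Conn R O τ n c d) (hd : d ∈ bdy R (fib O τ) n) :
    c ∈ cyc R (fib O τ) (n + 1) ⊔ bdy R O (n + 1) := by
  obtain ⟨h0, a, ha, b, hb, e, he, h1, h2, h3⟩ := hc
  have hV := Mt1_bdy h (by norm_num) (by norm_num) Mt1_negI h0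
    ⟨-b, neg_mem hb, by rw [map_neg, h3, neg_neg]⟩
  have h4 := cmap_bdy (f := Θ (1 / 2)) (T := {x | x ∈ O ∧ (τ x).re < 0})
    (Mt1_contOn h (fun _ hx => hx.1) continuousOn_const) (fun x hx => ⟨h.mem _ x hx.1, by
      rw [h.rot _ x hx.1, hx.2, mul_one]
      exact Mt1_neg (by norm_num) (by norm_num)⟩) (sub_mem hV hd)
  rw [add_sub_cancel_left, Mt1_comp h (1 / 2) he (a := fun x => Mt1_arg (1 / 4) (τ x) - 1 / 2)
    fun x _ _ => by ring] at h4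
  have he' : e ∈ cyc R {x | x ∈ O ∧ (τ x).re < 0} n := by
    refine mem_cyc (S := O) ?_ he
    have := sub_mem (cyc_mono (fun _ hx => hx.1) n (bdy_le _ n ⟨a, ha, h2⟩))
      (cyc_mono (fun _ hx => hx.1) n h0)
    rwa [add_sub_cancel_left] at this
  have h5 := Mt1_htpy h (a := fun x => Mt1_arg (1 / 4) (τ x) - 1 / 2) (fun _ hx => hx.1)
    (((Mt1_argOn h _ Mt1_negI).mono fun x hx => ⟨hx.1, (Mt1_neI hx.2.ne).2⟩).sub
      continuousOn_const) (fun x hx s hs => by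
      refine ⟨h.mem _ x hx.1, ?_⟩
      obtain ⟨h5, h6, -⟩ := Mt1_of_neg (h.nτ x hx.1) hx.2
      rw [Mt1_tau h (1 / 4) _ hx.1]
      generalize Mt1_arg (1 / 4) (τ x) = t at *
      rcases le_total (1 / 2) t with h7 | h7 <;>
        exact Mt1_neg (by nlinarith [hs.1, hs.2]) (by nlinarith [hs.1, hs.2])) he'
  have h6 := add_mem h5 h4
  rw [sub_add_cancel] at h6
  have hs : ∀ x ∈ fib O τ ∪ {x | x ∈ O ∧ (τ x).re < 0}, x ∈ O ∧ (τ x).re ≠ 0 := by
    rintro x (hx | hx)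
    · exact ⟨hx.1, by rw [hx.2]; simp⟩
    · exact ⟨hx.1, hx.2.ne⟩
  obtain ⟨k, hk, h7⟩ := add_mem (bdy_mono subset_union_left n hd)
    (bdy_mono subset_union_right n h6)
  have hA : a - k ∈ cyc R {x | x ∈ O ∧ τ x ≠ Complex.I} (n + 1) :=
    ⟨sub_mem ha (chn_mono (fun x hx => And.intro (hs x hx).1 (Mt1_neI (hs x hx).2).1) _ hk), by
      show bd R X n (a - k) = 0
      rw [map_sub, h2, h7, sub_self]⟩
  have hB : b + k ∈ cyc R {x | x ∈ O ∧ τ x ≠ -Complex.I} (n + 1) :=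
    ⟨add_mem hb (chn_mono (fun x hx => And.intro (hs x hx).1 (Mt1_neI (hs x hx).2).2) _ hk), by
      show bd R X n (b + k) = 0
      rw [map_add, h3, h7, neg_add_cancel]⟩
  have key : ∀ {c : ℝ} {w : ℂ}, c - 1 / 2 < 0 → 0 < c + 1 / 2 → ex (c + 1 / 2) = w →
      ∀ z ∈ cyc R {x | x ∈ O ∧ τ x ≠ w} (n + 1),
        z ∈ cyc R (fib O τ) (n + 1) ⊔ bdy R O (n + 1) := by
    intro c w c1 c2 hw z hz
    obtain ⟨r1, r2⟩ := h.retr (fun _ hx => hx.1) (Mt1_argOn h c hw)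
      (fun x hx => Mt1_ex c (h.nτ x hx.1)) (Mt1_stay h c1 c2 hw) hz
    exact Submodule.mem_sup.2 ⟨_, r1, _, bdy_mono (fun _ hx => hx.1) _ r2, add_sub_cancel _ _⟩
  rw [show c = c - a - b + (a - k) + (b + k) by abel]
  exact add_mem (add_mem (Submodule.mem_sup_right h1)
    (key (by norm_num) (by norm_num) Mt1_I _ hA)) (key (by norm_num) (by norm_num) Mt1_negI _ hB)

end HK3
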