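import Pool.Agent.P.MP_9699e0_gt.Mt1
import Pool.Agent.P.MP_9699e0_gt.Cup
import Pool.Agent.P.MP_9699e0_gt.Rk
import Pool.Agent.P.MP_9699e0_gt.CvA

/-! The Wang sequence, part two. -/

set_option autoImplicit false
set_option linter.unusedSectionVars false

noncomputable section

namespace HK3

open Pool.Agent.P.MP_9699e0_gt Set Filter Topology
open scoped ContDiff

variable {R : Type} [CommRing R] {X Y Z : Type} [TopologicalSpace X] [TopologicalSpace Y]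
  [TopologicalSpace Z]

variable {O : Set X} {τ : X → ℂ} {Θ : ℝ → X → X}

theorem Mt2exI : ex (1 / 4) = Complex.I := by
  rw [← Complex.exp_pi_div_two_mul_I, ex]
  congr 1
  push_cast
  ring

theorem Mt2exnI : ex (-(1 / 4)) = -Complex.I := by
  rw [← Complex.exp_neg_pi_div_two_mul_I, ex]
  congr 1
  push_cast
  ring

theorem Mt2exh : ex (1 / 2) = -1 := by
  have h := ex_half 1
  simpa using h

theorem Mt2exarg {z : ℂ} (hz : ‖z‖ = 1) : ex (Complex.arg z / (2 * Real.pi)) = z := by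
  have h := Complex.norm_mul_exp_arg_mul_I z
  rw [hz, Complex.ofReal_one, one_mul] at h
  rw [ex]
  refine Eq.trans ?_ h
  congr 2
  have : (Real.pi : ℂ) ≠ 0 := by exact_mod_cast Real.pi_ne_zero
  push_cast
  field_simp

theorem Mt2slit {z : ℂ} (hz : ‖z‖ = 1) (h : z ≠ -1) : z ∈ Complex.slitPlane := by
  by_contra hc
  rw [Complex.mem_slitPlane_iff, not_or, not_lt, not_not] at hc
  apply h
  have e : z = (z.re : ℂ) := Complex.ext rfl (by simp [hc.2])
  rw [e, Complex.norm_real, Real.norm_eq_abs, abs_of_nonpos hc.1] at hz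
  rw [e, show z.re = -1 by linarith]
  simp

theorem Mt2noint {s : ℝ} (h1 : 1 / 4 ≤ s) (h2 : s ≤ 3 / 4) (m : ℤ) : s ≠ m := by
  rintro rfl
  have a : (0 : ℤ) < m := by
    have : (0 : ℝ) < m := by linarith
    exact_mod_cast this
  have b : m < (1 : ℤ) := by
    have : (m : ℝ) < 1 := by linarith
    exact_mod_cast this
  omega

theorem Mt2cont (h : Rot O τ Θ) {w : ℂ} (hw : ‖w‖ = 1) (r : ℝ) {S : Set X} (hS : S ⊆ O)
    (hne : ∀ x ∈ S, τ x * w ≠ -1) :
    ContinuousOn (fun x => Complex.arg (τ x * w) / (2 * Real.pi) + r) S := by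
  refine ContinuousOn.add (ContinuousOn.div_const ?_ _) continuousOn_const
  intro x hx
  have hz : ‖τ x * w‖ = 1 := by rw [norm_mul, h.nτ x (hS hx), hw, one_mul]
  exact ContinuousAt.comp_continuousWithinAt (g := Complex.arg) (f := fun x => τ x * w)
    (Complex.continuousAt_arg (Mt2slit hz (hne x hx)))
    (((h.cτ.mono hS) x hx).mul continuousWithinAt_const)

theorem Mt2arg (h : Rot O τ Θ) : ∃ u v : X → ℝ,
    ContinuousOn u {x | x ∈ O ∧ τ x ≠ Complex.I} ∧ ContinuousOn v {x | x ∈ O ∧ τ x ≠ -Complex.I} ∧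
    (∀ x ∈ O, τ x = ‖τ x‖ * ex (u x)) ∧ (∀ x ∈ O, τ x = ‖τ x‖ * ex (v x)) ∧
    (∀ x ∈ fib O τ, u x = 0 ∧ v x = 0) ∧ ∀ x, (τ x).re < 0 → v x = u x + 1 := by
  have hp := Real.pi_pos
  refine ⟨fun x => Complex.arg (τ x * Complex.I) / (2 * Real.pi) + -(1 / 4),
    fun x => Complex.arg (τ x * -Complex.I) / (2 * Real.pi) + 1 / 4,
    Mt2cont h (by simp) _ (fun x hx => hx.1) fun x hx e => hx.2 ?_,
    Mt2cont h (by simp) _ (fun x hx => hx.1) fun x hx e => hx.2 ?_, fun x hx => ?_, fun x hx => ?_,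
    fun x hx => ?_, fun x hx => ?_⟩
  · linear_combination (-Complex.I) * e + τ x * Complex.I_mul_I
  · linear_combination Complex.I * e + τ x * Complex.I_mul_I
  · rw [ex_add, Mt2exarg (by rw [norm_mul, h.nτ x hx]; simp), Mt2exnI, h.nτ x hx]
    push_cast
    linear_combination τ x * Complex.I_mul_I
  · rw [ex_add, Mt2exarg (by rw [norm_mul, h.nτ x hx]; simp), Mt2exI, h.nτ x hx]
    push_cast
    linear_combination τ x * Complex.I_mul_I
  · simp only [hx.2, one_mul, Complex.arg_I, Complex.arg_neg_I]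
    constructor
    · field_simp
      ring
    · field_simp
      ring
  · have hi : (τ x * Complex.I).im < 0 := by simpa using hx
    simp only [mul_neg, Complex.arg_neg_eq_arg_add_pi_of_im_neg hi]
    field_simp
    ring

theorem Mt2aug [Algebra R ℝ] (c : Chn R X 0) :
    ev R (fun _ => (1 : ℝ)) c = algebraMap R ℝ (aug R c) := by
  induction c using Finsupp.induction_linear with
  | zero => simp
  | add f g hf hg => rw [map_add, map_add, map_add, hf, hg]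
  | single σ r => rw [aug, ev_single, ev_single, smul_eq_mul, mul_one, Algebra.algebraMap_eq_smul_one]

theorem Mt2ev0 {M : Type} [AddCommGroup M] [Module R M] {n : ℕ} {S : Set X} {a : Simp X n → M}
    {c : Chn R X n} (hc : c ∈ chn R S n) (h : ∀ σ : Simp X n, range σ ⊆ S → a σ = 0) :
    ev R a c = 0 := by
  rw [ev_congr_chn (b := 0) hc h, ev, Finsupp.linearCombination_zero, LinearMap.zero_apply]

theorem Mt2flow (h : Rot O τ Θ) (r t : ℝ) {S : Set X}
    (hS : ∀ s ∈ Icc (0 : ℝ) 1, ∀ x ∈ O, τ x = ex (r * s + t) → x ∈ S) {n : ℕ} {d : Chn R X n}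
    (hd : d ∈ cyc R (fib O τ) n) :
    cmap R (Θ (r + t)) n d - cmap R (Θ t) n d ∈ bdy R S n := by
  have k := htpy_cyc (R := R) (fun s x => Θ (r * s + t) x) (S := fib O τ) (S' := S)
    (h.cΘ.comp (f := fun p : ℝ × X => (r * p.1 + t, p.2)) (by fun_prop)
      fun p hp => ⟨mem_univ _, hp.2.1⟩)
    (fun s hs x hx => hS s hs _ (h.mem _ x hx.1) (by rw [h.rot _ x hx.1, hx.2, mul_one])) hd
  simpa only [mul_one, mul_zero, zero_add] using k

theorem Rot.conn_surj (h : Rot O τ Θ) {n : ℕ} {d : Chn R X n} (hd : d ∈ cyc R (fib O τ) n)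
    (h1 : cmap R (Θ 1) n d - d ∈ bdy R (fib O τ) n) :
    ∃ c ∈ cyc R O (n + 1), Conn R O τ n c d := by
  obtain ⟨w, hw, ew⟩ := h1
  obtain ⟨a, ha, ea⟩ := Mt2flow h (1 / 2) (1 / 2) (S := {x | x ∈ O ∧ τ x ≠ Complex.I})
    (fun s hs x hx e => ⟨hx, fun e' => by
      rw [e, ← Mt2exI, ex_eq_iff] at e'
      obtain ⟨m, hm⟩ := e'
      exact Mt2noint (s := 1 / 2 * s + 1 / 4) (by linarith [hs.1]) (by linarith [hs.2]) m
        (by linarith)⟩) hd
  obtain ⟨b, hb, eb⟩ := Mt2flow h (1 / 2) 0 (S := {x | x ∈ O ∧ τ x ≠ -Complex.I})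
    (fun s hs x hx e => ⟨hx, fun e' => by
      rw [e, ← Mt2exnI, ex_eq_iff] at e'
      obtain ⟨m, hm⟩ := e'
      exact Mt2noint (s := 1 / 2 * s + 1 / 4) (by linarith [hs.1]) (by linarith [hs.2]) m
        (by linarith)⟩) hd
  have e0 : cmap R (Θ 0) n d = d := by
    rw [cmap_congr (g := id) (S := fib O τ) (fun x hx => h.zero x hx.1) (cyc_le _ _ hd), cmap_id]
  rw [add_halves] at ea
  rw [add_zero, e0] at eb
  have hI : (1 : ℂ) ≠ Complex.I := fun e => by simpa using congrArg Complex.re e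
  have hw' : w ∈ chn R {x | x ∈ O ∧ τ x ≠ Complex.I} (n + 1) :=
    chn_mono (S := fib O τ) (T := {x | x ∈ O ∧ τ x ≠ Complex.I})
      (fun x hx => ⟨hx.1, by rw [hx.2]; exact hI⟩) _ hw
  have he : cmap R (Θ (1 / 2)) n d ∈ chn R {x | x ∈ O ∧ (τ x).re < 0} n :=
    cmap_mem (S := fib O τ) (T := {x | x ∈ O ∧ (τ x).re < 0}) (f := Θ (1 / 2))
      (h.cΘ.comp (f := fun x : X => ((1 / 2 : ℝ), x)) (by fun_prop) fun x hx => ⟨mem_univ _, hx.1⟩)
      (fun x hx => ⟨h.mem _ x hx.1, by rw [h.rot _ x hx.1, hx.2, Mt2exh]; simp⟩) (cyc_le _ _ hd)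
  have eA : bd R X n (a - w) = d + -cmap R (Θ (1 / 2)) n d := by
    rw [map_sub, ea, ew]
    abel
  have eB : bd R X n b = -(d + -cmap R (Θ (1 / 2)) n d) := by
    rw [eb]
    abel
  refine ⟨a - w + b, ⟨add_mem (chn_mono (fun x hx => hx.1) _ (sub_mem ha hw'))
    (chn_mono (fun x hx => hx.1) _ hb), ?_⟩, hd, a - w, sub_mem ha hw', b, hb, _, neg_mem he,
    ?_, eA, eB⟩
  · change bd R X n (a - w + b) = 0
    rw [map_add, eA, eB, add_neg_cancel]
  · rw [add_sub_cancel_left, sub_self]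
    exact zero_mem _

theorem Mt2nz (h : Rot O τ Θ) : NZ τ O :=
  ⟨h.cτ, fun x hx e => by simpa [e] using h.nτ x hx⟩

theorem Rot.conn_wd [Algebra R ℝ] (h : Rot O τ Θ) {c : Chn R X 1} {d : Chn R X 0}
    (hc : Conn R O τ 0 c d) : ev R (wd τ) c = algebraMap R ℝ (aug R d) := by
  obtain ⟨u, v, hu, hv, eu, ev', h0, h1⟩ := Mt2arg h
  obtain ⟨hd, a, ha, b, hb, e, he, hw, ea, eb⟩ := hc
  have hz := Mt2nz h
  have k0 := ev_wd_bdy hz hw
  have k1 : ev R (wd τ) a = ev R (pt u) (d + e) := by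
    rw [← ea, ev_bd]
    exact ev_congr_chn ha fun σ hσ =>
      wd_eq (fun x hx => hz.2 x hx.1) hu (fun x hx => eu x hx.1) hσ
  have k2 : ev R (wd τ) b = ev R (pt v) (-(d + e)) := by
    rw [← eb, ev_bd]
    exact ev_congr_chn hb fun σ hσ =>
      wd_eq (fun x hx => hz.2 x hx.1) hv (fun x hx => ev' x hx.1) hσ
  have k3 : ev R (pt u) d = 0 := Mt2ev0 hd fun σ hσ => (h0 _ (hσ ⟨_, rfl⟩)).1
  have k4 : ev R (pt v) d = 0 := Mt2ev0 hd fun σ hσ => (h0 _ (hσ ⟨_, rfl⟩)).2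
  have k5 : ev R (pt v) e = ev R (pt u) e + algebraMap R ℝ (aug R e) := by
    rw [← Mt2aug, ← ev_add]
    exact ev_congr_chn he fun σ hσ => h1 _ (hσ ⟨_, rfl⟩).2
  have k6 : algebraMap R ℝ (aug R d) + algebraMap R ℝ (aug R e) = 0 := by
    rw [← map_add, ← map_add, ← ea, aug_bd, map_zero]
  simp only [map_sub, map_add, map_neg] at k0 k1 k2
  linarith

theorem Rot.conn_cup [Algebra R ℝ] (h : Rot O τ Θ) {c : Chn R X 2} {d : Chn R X 1}
    (hc : Conn R O τ 1 c d) (a : Simp X 1 → ℝ) (ha : ∀ σ : Simp X 2, range σ ⊆ O → cobd a σ = 0) :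
    ev R (cup11 (wd τ) a) c = ev R a d := by
  obtain ⟨u, v, hu, hv, eu, ev', h0, h1⟩ := Mt2arg h
  obtain ⟨hd, A, hA, B, hB, e, he, ⟨w, hw, ew⟩, ea, eb⟩ := hc
  have hz := Mt2nz h
  have k0 : ev R (cup11 (wd τ) a) (c - A - B) = 0 := by
    rw [← ew, ev_bd]
    refine Mt2ev0 hw fun σ hσ => ?_
    rw [cobd_cup11, cup21, cup12, cobd_wd hz ((range_sub σ _).trans hσ),
      ha _ ((range_sub σ _).trans hσ), zero_mul, mul_zero, sub_zero]
  have key : ∀ (S : Set X) (f : X → ℝ), S ⊆ O → ContinuousOn f S →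
      (∀ x ∈ O, τ x = ‖τ x‖ * ex (f x)) → ∀ C ∈ chn R S 2,
      ev R (cup11 (wd τ) a) C = ev R (cup01 (pt f) a) (bd R X 1 C) := by
    intro S f hS hf ef C hC
    rw [ev_bd]
    refine ev_congr_chn hC fun σ hσ => ?_
    rw [cobd_cup01, ha σ (hσ.trans hS), mul_zero, add_zero, cup11, cup11,
      wd_eq (fun x hx => hz.2 x (hS hx)) hf (fun x hx => ef x (hS hx)) ((range_sub σ _).trans hσ)]
  have k1 := key _ u (fun x hx => hx.1) hu eu A hA
  have k2 := key _ v (fun x hx => hx.1) hv ev' B hB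
  have k3 : ev R (cup01 (pt u) a) d = 0 := Mt2ev0 (cyc_le _ _ hd) fun σ hσ => by
    rw [cup01, pt, vtx, (h0 _ (hσ (range_sub σ _ ⟨_, rfl⟩))).1, zero_mul]
  have k4 : ev R (cup01 (pt v) a) d = 0 := Mt2ev0 (cyc_le _ _ hd) fun σ hσ => by
    rw [cup01, pt, vtx, (h0 _ (hσ (range_sub σ _ ⟨_, rfl⟩))).2, zero_mul]
  have k5 : ev R (cup01 (pt v) a) e = ev R (cup01 (pt u) a) e + ev R a e := by
    rw [← ev_add]
    refine ev_congr_chn he fun σ hσ => ?_
    rw [Pi.add_apply, cup01, cup01, pt, pt, vtx, h1 _ (hσ (range_sub σ _ ⟨_, rfl⟩)).2]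
    ring
  have k6 : ev R a (d + e) = 0 := by
    rw [← ea, ev_bd]
    exact Mt2ev0 hA fun σ hσ => ha σ fun x hx => (hσ hx).1
  rw [ea] at k1
  rw [eb] at k2
  simp only [map_sub, map_add, map_neg] at k0 k1 k2 k6
  linarith

/-- One-cycles without winding come from a connected fibre. -/
theorem Rot.one [Algebra R ℝ] [FaithfulSMul R ℝ] (h : Rot O τ Θ) (hf : IsPathConnected (fib O τ))
    {c : Chn R X 1} (hc : c ∈ cyc R O 1) (h0 : ev R (wd τ) c = 0) :
    c ∈ cyc R (fib O τ) 1 ⊔ bdy R O 1 := by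
  obtain ⟨d, hd⟩ := h.exists_conn hc
  refine h.conn_zero hd (mem_bdy_zero hf hd.1 (FaithfulSMul.algebraMap_injective R ℝ ?_))
  rw [← h.conn_wd hd, h0, map_zero]

theorem Rot.acyc (h : Rot O τ Θ) {n : ℕ} (hf : cyc R (fib O τ) n ≤ bdy R (fib O τ) n) :
    cyc R O (n + 1) ≤ cyc R (fib O τ) (n + 1) ⊔ bdy R O (n + 1) := by
  intro c hc
  obtain ⟨d, hd⟩ := h.exists_conn hc
  exact h.conn_zero hd (hf hd.1)

theorem Mt2rel {W W' : Type} [AddCommGroup W] [Module ℚ W] [AddCommGroup W'] [Module ℚ W']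
    {A M : Submodule ℚ W} {A' M' : Submodule ℚ W'} (G : Submodule ℚ (W × W'))
    (h1 : ∀ c ∈ A, ∃ d, (c, d) ∈ G) (h2 : ∀ p ∈ G, p.2 ∈ A') (h3 : ∀ p ∈ G, p.2 ∈ M' → p.1 ∈ M) :
    rd A M ≤ rd A' M' := by
  let f : W × W' →ₗ[ℚ] W ⧸ M := M.mkQ.comp (LinearMap.fst ℚ W W')
  let g : W × W' →ₗ[ℚ] W' ⧸ M' := M'.mkQ.comp (LinearMap.snd ℚ W W')
  calc rd A M ≤ Module.rank ℚ ((G.map (f.prod g)).map (LinearMap.fst ℚ _ _)) := by
        refine Submodule.rank_mono ?_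
        rintro _ ⟨c, hc, rfl⟩
        obtain ⟨d, hd⟩ := h1 c hc
        exact ⟨_, ⟨_, hd, rfl⟩, rfl⟩
    _ ≤ Module.rank ℚ (G.map (f.prod g)) := rank_map_le _ _
    _ = Module.rank ℚ (G.map g) := by
        refine Pool.Agent.P.MP_d483fb_an.Rd_same_ker _ _ _ fun p hp => ⟨fun e => congrArg Prod.snd e,
          fun e => Prod.ext ?_ e⟩
        exact (Submodule.Quotient.mk_eq_zero M).2
          (h3 p hp ((Submodule.Quotient.mk_eq_zero M').1 e))
    _ ≤ rd A' M' := by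
        refine Submodule.rank_mono ?_
        rintro _ ⟨p, hp, rfl⟩
        exact ⟨_, h2 p hp, rfl⟩

theorem Rot.hb_le (h : Rot O τ Θ) (n : ℕ) :
    hb O (n + 1) ≤ hb (fib O τ) (n + 1) + hb (fib O τ) n := by
  let G : Submodule ℚ (Chn ℚ X (n + 1) × Chn ℚ X n) :=
    { carrier := {p | Conn ℚ O τ n p.1 p.2}
      add_mem' := fun h h' => Conn.add h h'
      zero_mem' := ⟨zero_mem _, 0, zero_mem _, 0, zero_mem _, 0, zero_mem _, by simp, by simp,
        by simp⟩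
      smul_mem' := fun r _ h => Conn.smul r h }
  rw [hb, Pool.Agent.P.MP_d483fb_an.Rd_add (M := cyc ℚ (fib O τ) (n + 1) ⊔ bdy ℚ O (n + 1))
    le_sup_right (sup_le (cyc_mono (fun x hx => hx.1) _) (bdy_le _ _)), add_comm]
  exact add_le_add (rd_mono le_rfl (bdy_mono (fun x hx => hx.1) _))
    (Mt2rel G (fun c hc => h.exists_conn hc) (fun p hp => hp.1) fun p hp => h.conn_zero hp)

/-- If the return map acts by minus one in degree `n`. -/
theorem Rot.hb_le_neg (h : Rot O τ Θ) (n : ℕ)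
    (hn : ∀ d ∈ cyc ℚ (fib O τ) n, cmap ℚ (Θ 1) n d + d ∈ bdy ℚ (fib O τ) n) :
    hb O (n + 1) ≤ hb (fib O τ) (n + 1) := by
  refine rd_mono (fun c hc => ?_) (bdy_mono (fun x hx => hx.1) _)
  obtain ⟨d, hd⟩ := h.exists_conn hc
  refine h.conn_zero hd ?_
  have k := Submodule.smul_mem _ (1 / 2 : ℚ) (sub_mem (hn d hd.1) (h.conn_inv hd))
  rwa [add_sub_sub_cancel, ← two_smul ℚ d, smul_smul, one_div_mul_cancel two_ne_zero, one_smul] at k

theorem Rot.isPathConnected (h : Rot O τ Θ) (hf : IsPathConnected (fib O τ)) :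
    IsPathConnected O := by
  obtain ⟨y, hy, k⟩ := hf
  refine ⟨y, hy.1, fun x hx => ?_⟩
  obtain ⟨s, hs⟩ := exists_ex (τ x)
  rw [h.nτ x hx, Complex.ofReal_one, one_mul] at hs
  have hm : Θ (-s) x ∈ fib O τ :=
    ⟨h.mem _ x hx, by rw [h.rot _ x hx, hs, ← ex_add, neg_add_cancel, ex_zero]⟩
  refine ((k hm).mono fun z hz => hz.1).trans (JoinedIn.symm ?_)
  refine JoinedIn.ofLine (f := fun t => Θ (-(t * s)) x)
    (h.cΘ.comp (f := fun t : ℝ => (-(t * s), x)) (by fun_prop) fun t _ => ⟨mem_univ _, hx⟩)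
    (by simp only [zero_mul, neg_zero, h.zero x hx]) (by simp only [one_mul]) ?_
  rintro _ ⟨t, -, rfl⟩
  exact h.mem _ x hx

end HK3
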