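import Pool.Agent.P.MP_9699e0_gt.Cv

/-! Unions of sets whose loops contract. -/

set_option autoImplicit false
set_option linter.unusedSectionVars false

noncomputable section

namespace HK3

open Pool.Agent.P.MP_9699e0_gt Set Filter Topology
open scoped ContDiff

variable {X : Type} [TopologicalSpace X]

theorem NullS_paths {O : Set X} (h : Null O) {x y : X} {p q : Path x y} (hp : range p ⊆ O)
    (hq : range q ⊆ O) : p.Homotopic q := by
  have h1 : (p.trans q.symm).Homotopic (Path.refl x) := h.loop x _ (by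
    rw [Path.trans_range, Path.symm_range]
    exact union_subset hp hq)
  refine (Path.Homotopic.trans_refl p).symm.trans ?_
  refine ((Path.Homotopic.refl p).hcomp (Path.Homotopic.symm_trans q).symm).trans ?_
  refine (Path.Homotopic.trans_assoc p q.symm q).symm.trans ?_
  exact (h1.hcomp (Path.Homotopic.refl q)).trans (Path.Homotopic.refl_trans q)

/-- Paths that are homotopic to a path inside one of the two sets. -/
def NullS_good (O O' : Set X) {x y : X} (p : Path x y) : Prop :=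
  ∃ q : Path x y, (range q ⊆ O ∨ range q ⊆ O') ∧ p.Homotopic q

theorem NullS_good_swap {O O' : Set X} {x y : X} {p : Path x y} (h : NullS_good O O' p) :
    NullS_good O' O p := by
  obtain ⟨q, h1, h2⟩ := h
  exact ⟨q, h1.symm, h2⟩

theorem NullS_good_congr {O O' : Set X} {x y : X} {p q : Path x y} (h : NullS_good O O' p)
    (e : q.Homotopic p) : NullS_good O O' q := by
  obtain ⟨r, h1, h2⟩ := h
  exact ⟨r, h1, e.trans h2⟩

theorem NullS_good_cast {O O' : Set X} {x y y' : X} (p : Path x y) (e : y' = y) :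
    NullS_good O O' (p.cast rfl e) ↔ NullS_good O O' p := by
  subst e
  rfl

theorem NullS_good_left {O O' : Set X} (h' : Null O') (hc : IsPathConnected (O ∩ O')) {b y : X}
    (hb : b ∈ O ∩ O') {p : Path b y} (hp : NullS_good O O' p) (hy : y ∈ O) :
    ∃ q : Path b y, range q ⊆ O ∧ p.Homotopic q := by
  obtain ⟨q, h1 | h1, h2⟩ := hp
  · exact ⟨q, h1, h2⟩
  · obtain ⟨r, hr⟩ := hc.joinedIn b hb y ⟨hy, h1 ⟨1, q.target⟩⟩
    exact ⟨r, range_subset_iff.2 fun t => (hr t).1,
      h2.trans (NullS_paths h' h1 (range_subset_iff.2 fun t => (hr t).2))⟩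

theorem NullS_good_step {O O' : Set X} (h' : Null O') (hc : IsPathConnected (O ∩ O')) {b y z : X}
    (hb : b ∈ O ∩ O') {p : Path b y} (hp : NullS_good O O' p) {δ : Path y z} (hδ : range δ ⊆ O) :
    NullS_good O O' (p.trans δ) := by
  obtain ⟨q, h1, h2⟩ := NullS_good_left h' hc hb hp (hδ ⟨0, δ.source⟩)
  refine ⟨q.trans δ, Or.inl ?_, h2.hcomp (Path.Homotopic.refl δ)⟩
  rw [Path.trans_range]
  exact union_subset h1 hδ

theorem NullS_near {A : Set X} (hA : IsOpen A) {x y : X} (γ : Path x y) {s : unitInterval}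
    (hs : γ s ∈ A) : ∀ᶠ t in 𝓝 s, range (γ.subpath s t) ⊆ A ∧ range (γ.subpath t s) ⊆ A := by
  obtain ⟨a, c, h1, h2, h3⟩ :=
    exists_Icc_mem_subset_of_mem_nhds ((hA.preimage γ.continuous).mem_nhds hs)
  filter_upwards [h2] with t ht
  rw [Path.range_subpath, Path.range_subpath, image_subset_iff, image_subset_iff]
  exact ⟨(uIcc_subset_Icc h1 ht).trans h3, (uIcc_subset_Icc ht h1).trans h3⟩

theorem NullS_good_trans {O O' : Set X} (h : Null O) (h' : Null O')
    (hc : IsPathConnected (O ∩ O')) {b y z : X} (hb : b ∈ O ∩ O') {p : Path b y}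
    (hp : NullS_good O O' p) {γ : Path y z} (hγ : range γ ⊆ O ∪ O') :
    NullS_good O O' (p.trans γ) := by
  have hc' : IsPathConnected (O' ∩ O) := inter_comm O O' ▸ hc
  have key := PreconnectedSpace.induction₂' (fun s t : unitInterval => ∀ q : Path b (γ s),
    NullS_good O O' q → NullS_good O O' (q.trans (γ.subpath s t))) (fun s => by
      rcases hγ ⟨s, rfl⟩ with hs | hs
      · filter_upwards [NullS_near h.opn γ hs] with t ht
        exact ⟨fun q hq => NullS_good_step h' hc hb hq ht.1,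
          fun q hq => NullS_good_step h' hc hb hq ht.2⟩
      · filter_upwards [NullS_near h'.opn γ hs] with t ht
        exact ⟨fun q hq => NullS_good_swap (NullS_good_step h hc' hb.symm (NullS_good_swap hq) ht.1),
          fun q hq => NullS_good_swap (NullS_good_step h hc' hb.symm (NullS_good_swap hq) ht.2)⟩)
    ⟨fun s t u h1 h2 q hq => NullS_good_congr (h2 _ (h1 q hq))
      (((Path.Homotopic.refl q).hcomp
        (Path.Homotopic.symm ⟨Path.Homotopy.subpathTransSubpath γ s t u⟩)).trans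
        (Path.Homotopic.trans_assoc _ _ _).symm)⟩ 0 1 (p.cast rfl γ.source)
    ((NullS_good_cast p _).2 hp)
  rw [Path.subpath_zero_one] at key
  exact (NullS_good_cast (p.trans γ) γ.target).1 key

theorem Null.union {O O' : Set X} (h : Null O) (h' : Null O') (hc : IsPathConnected (O ∩ O')) :
    Null (O ∪ O') := by
  obtain ⟨b, hb⟩ := hc.nonempty
  refine ⟨h.opn.union h'.opn, h.conn.union h'.conn ⟨b, hb⟩, fun x γ hγ => ?_⟩
  have key : ∀ p : Path b x, (p.trans γ).Homotopic p → γ.Homotopic (Path.refl x) := fun p e => by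
    refine (Path.Homotopic.refl_trans γ).symm.trans ?_
    refine ((Path.Homotopic.symm_trans p).symm.hcomp (Path.Homotopic.refl γ)).trans ?_
    refine (Path.Homotopic.trans_assoc _ _ _).trans ?_
    exact ((Path.Homotopic.refl p.symm).hcomp e).trans (Path.Homotopic.symm_trans p)
  rcases hγ ⟨0, γ.source⟩ with hx | hx
  · obtain ⟨p, hp⟩ := h.conn.joinedIn b hb.1 x hx
    have hp' : range p ⊆ O := range_subset_iff.2 hp
    obtain ⟨q, h1, h2⟩ := NullS_good_left h' hc hb
      (NullS_good_trans h h' hc hb ⟨p, Or.inl hp', Path.Homotopic.refl p⟩ hγ) hx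
    exact key p (h2.trans (NullS_paths h h1 hp'))
  · obtain ⟨p, hp⟩ := h'.conn.joinedIn b hb.2 x hx
    have hp' : range p ⊆ O' := range_subset_iff.2 hp
    obtain ⟨q, h1, h2⟩ := NullS_good_left h (inter_comm O O' ▸ hc) hb.symm (NullS_good_swap
      (NullS_good_trans h h' hc hb ⟨p, Or.inr hp', Path.Homotopic.refl p⟩ hγ)) hx
    exact key p (h2.trans (NullS_paths h' h1 hp'))

theorem null_star {V : Type} [NormedAddCommGroup V] [NormedSpace ℝ V] {f : V → X} {S : Set V}
    {x : V} (hx : x ∈ S) (hS : StarConvex ℝ x S) (hf : Emb f S) (ho : IsOpen (f '' S)) :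
    Null (f '' S) := by
  obtain ⟨hc, g, hg, hl⟩ := hf
  refine ⟨ho, (hS.isPathConnected hx).image' hc, fun y γ hγ => ?_⟩
  obtain ⟨a, ha, e⟩ := hγ ⟨0, γ.source⟩
  subst e
  have := hS.contractibleSpace ⟨x, hx⟩
  have hm : ∀ t, g (γ t) ∈ S := fun t => by
    obtain ⟨c, hc, e⟩ := hγ ⟨t, rfl⟩
    rw [← e, hl hc]
    exact hc
  let δ : Path (⟨a, ha⟩ : S) ⟨a, ha⟩ :=
    { toFun := fun t => ⟨g (γ t), hm t⟩
      continuous_toFun := (hg.comp_continuous γ.continuous fun t => hγ ⟨t, rfl⟩).subtype_mk _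
      source' := Subtype.ext (by simpa using hl ha)
      target' := Subtype.ext (by simpa using hl ha) }
  let F : C(S, X) := ⟨S.domRestrict f, hc.domRestrict⟩
  have h1 := (SimplyConnectedSpace.paths_homotopic δ (Path.refl _)).map F
  have e1 : δ.map F.continuous = γ := by
    ext t
    obtain ⟨c, hc, e⟩ := hγ ⟨t, rfl⟩
    change f (g (γ t)) = γ t
    rw [← e, hl hc]
  rw [e1] at h1
  exact h1

theorem null_directed {ι : Type} [Nonempty ι] {O : ι → Set X} (h : ∀ i, Null (O i))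
    (hd : Directed (· ⊆ ·) O) : Null (⋃ i, O i) := by
  refine ⟨isOpen_iUnion fun i => (h i).opn, ?_, fun x γ hγ => ?_⟩
  · obtain ⟨i⟩ := ‹Nonempty ι›
    obtain ⟨b, hb⟩ := (h i).conn.nonempty
    refine ⟨b, mem_iUnion.2 ⟨i, hb⟩, fun y hy => ?_⟩
    obtain ⟨j, hj⟩ := mem_iUnion.1 hy
    obtain ⟨k, h1, h2⟩ := hd i j
    exact ((h k).conn.joinedIn b (h1 hb) y (h2 hj)).mono (subset_iUnion O k)
  · obtain ⟨i, hi⟩ := (isCompact_range γ.continuous).elim_directed_cover O
      (fun i => (h i).opn) hγ hd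
    exact (h i).loop x γ hi

theorem Null.image {O : Set X} (h : Null O) (g : X ≃ₜ X) : Null (g '' O) := by
  refine ⟨g.isOpenMap _ h.opn, h.conn.image g.continuous, fun y γ hγ => ?_⟩
  obtain ⟨a, rfl⟩ := g.surjective y
  let δ : Path a a :=
    { toFun := fun t => g.symm (γ t)
      continuous_toFun := g.symm.continuous.comp γ.continuous
      source' := by simp
      target' := by simp }
  have hδ : range δ ⊆ O := range_subset_iff.2 fun t => by
    obtain ⟨c, hc, e⟩ := hγ ⟨t, rfl⟩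
    change g.symm (γ t) ∈ O
    rw [← e, g.symm_apply_apply]
    exact hc
  let F : C(X, X) := ⟨g, g.continuous⟩
  have h1 := (h.loop a δ hδ).map F
  have e1 : δ.map F.continuous = γ := by
    ext t
    exact g.apply_symm_apply (γ t)
  rw [e1] at h1
  exact h1

theorem Null.simplyConnected (h : Null (univ : Set X)) : SimplyConnectedSpace X :=
  simply_connected_iff_loops_nullhomotopic.2
    ⟨pathConnectedSpace_iff_univ.2 h.conn, fun x γ => h.loop x γ (subset_univ _)⟩

/-- Sweeping along a connected parameter space. -/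
theorem null_sweep {P : Type} [TopologicalSpace P] [ConnectedSpace P] (N : Set X) (S : P → Set X)
    (hd : ∀ p q, S p = S q ∨ Disjoint (S p) (S q))
    (hc : ∀ T : Set P, T.Nonempty → IsPathConnected (N ∪ ⋃ p ∈ T, S p))
    (hl : ∀ p, ∃ U ∈ 𝓝 p, Null (N ∪ ⋃ q ∈ U, S q)) : Null (N ∪ ⋃ p, S p) := by
  have hu : ∀ T T' : Set P, (T ∩ T').Nonempty → Null (N ∪ ⋃ p ∈ T, S p) →
      Null (N ∪ ⋃ p ∈ T', S p) → Null (N ∪ ⋃ p ∈ T ∪ T', S p) := by
    rintro T T' ⟨p0, h0, h0'⟩ h1 h2
    have e : (N ∪ ⋃ p ∈ T, S p) ∩ (N ∪ ⋃ p ∈ T', S p) =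
        N ∪ ⋃ p ∈ {p | p ∈ T ∧ ∃ q ∈ T', S p = S q}, S p := by
      rw [← union_inter_distrib_left]
      congr 1
      ext x
      simp only [mem_inter_iff, mem_iUnion, exists_prop, mem_ofPred_eq]
      constructor
      · rintro ⟨⟨p, hp, hx⟩, q, hq, hx'⟩
        rcases hd p q with e | e
        · exact ⟨p, ⟨hp, q, hq, e⟩, hx⟩
        · exact (disjoint_left.1 e hx hx').elim
      · rintro ⟨p, ⟨hp, q, hq, e⟩, hx⟩
        exact ⟨⟨p, hp, hx⟩, q, hq, e ▸ hx⟩
    have := h1.union h2 (e ▸ hc _ ⟨p0, h0, p0, h0', rfl⟩)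
    rwa [← union_union_distrib_left, ← biUnion_union] at this
  obtain ⟨p0⟩ : Nonempty P := inferInstance
  let F := {T : Set P // p0 ∈ T ∧ Null (N ∪ ⋃ p ∈ T, S p)}
  obtain ⟨U0, hU0, hN0⟩ := hl p0
  have : Nonempty F := ⟨⟨U0, mem_of_mem_nhds hU0, hN0⟩⟩
  let A : Set P := ⋃ T : F, T.1
  have hA0 : p0 ∈ A := mem_iUnion.2 ⟨⟨U0, mem_of_mem_nhds hU0, hN0⟩, mem_of_mem_nhds hU0⟩
  have hA : Null (N ∪ ⋃ p ∈ A, S p) := by
    have h1 := null_directed (O := fun T : F => N ∪ ⋃ p ∈ T.1, S p) (fun T => T.2.2)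
      fun T T' => ⟨⟨T.1 ∪ T'.1, Or.inl T.2.1, hu _ _ ⟨p0, T.2.1, T'.2.1⟩ T.2.2 T'.2.2⟩,
        union_subset_union_right _ (biUnion_subset_biUnion_left subset_union_left),
        union_subset_union_right _ (biUnion_subset_biUnion_left subset_union_right)⟩
    rwa [← union_iUnion, ← biUnion_iUnion] at h1
  have hcl : ∀ p ∈ closure A, A ∈ 𝓝 p := fun p hp => by
    obtain ⟨U, hU, hN⟩ := hl p
    obtain ⟨q, hq, hq'⟩ := mem_closure_iff_nhds.1 hp U hU
    refine mem_of_superset hU fun r hr => ?_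
    exact mem_iUnion.2 ⟨⟨A ∪ U, Or.inl hA0, hu _ _ ⟨q, hq', hq⟩ hA hN⟩, Or.inr hr⟩
  have hco : IsClopen A :=
    ⟨closure_subset_iff_isClosed.1 fun p hp => mem_of_mem_nhds (hcl p hp),
      isOpen_iff_mem_nhds.2 fun p hp => hcl p (subset_closure hp)⟩
  rw [hco.eq_univ ⟨p0, hA0⟩, biUnion_univ] at hA
  exact hA

end HK3
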