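import Pool.Agent.P.MP_9699e0_gt.Defs
import Pool.Agent.P.MP_9699e0_gt.Fin

set_option autoImplicit false

open scoped Manifold ContDiff
open Pool.Agent.P.MP_9699e0_gt

namespace Pool.Agent.P.MP_9699e0_gt.OddOrderOld

/-- For every odd `n` there is a closed simply connected smooth four-manifold with the
intersection form of the K3 surface and a diffeomorphism of order exactly `n` that induces the
identity on the second rational homology. -/
theorem result (n : ℕ) (hn : Odd n) :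
    ∃ (X : Type) (_ : TopologicalSpace X) (_ : ChartedSpace R4 X),
      IsManifold 𝓘(ℝ, R4) ∞ X ∧ T2Space X ∧ CompactSpace X ∧ SimplyConnectedSpace X ∧
      HasK3Form X ∧ ∃ g : X ≃ₘ^∞⟮𝓘(ℝ, R4), 𝓘(ℝ, R4)⟯ X,
        (∀ k : ℕ, g^[k] = id ↔ n ∣ k) ∧ TrivialH2 ⟨g, g.continuous⟩ := by
  obtain ⟨F⟩ := HK3.exists_fns hn HK3.exists_psi.choose_spec
  obtain ⟨g, hg⟩ := HK3.exists_g hn
  obtain ⟨i, h1, h2⟩ := (HK3.md_ok hn).manifold (HK3.md_linj hn)
  obtain ⟨h3, h4, h5, h6, h7⟩ := HK3.final hn F ⟨g, hg.cont⟩ hg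
  have hs := h2 g hg.smooth
  have hi := hg.iter_self hn
  have hp : 0 < n := hn.pos
  have e1 : n = (n - 1) + 1 := by omega
  refine ⟨HK3.XX n, inferInstance, i, h1, h3, h4, h5, h6,
    ⟨⟨g, g^[n - 1], fun x => ?_, fun x => ?_⟩, hs, hs.iterate _⟩, hg.iter_iff hn F, h7⟩
  · rw [← Function.iterate_succ_apply, Nat.succ_eq_add_one, ← e1, hi, id]
  · rw [← Function.iterate_succ_apply' g, Nat.succ_eq_add_one, ← e1, hi, id]

end Pool.Agent.P.MP_9699e0_gt.OddOrderOld
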