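import Pool.Agent.P.MP_9699e0_gt.Mt2
import Pool.Agent.P.MP_9699e0_gt.Pu2

/-! The product of a torus and a disc. -/

set_option autoImplicit false
set_option linter.unusedSectionVars false

noncomputable section

namespace HK3

open Pool.Agent.P.MP_9699e0_gt Set Filter Topology
open scoped ContDiff

/-- The torus times a subset of the plane. -/
def Tq (S : Set ℂ) : Set (E × ℂ) := {p | ‖p.1.1‖ = 1 ∧ ‖p.1.2‖ = 1 ∧ p.2 ∈ S}

/-- The involution. -/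
def jq (p : E × ℂ) : E × ℂ := (((starRingEnd ℂ) p.1.1, (starRingEnd ℂ) p.1.2), -p.2)

/-- The torus times the disc, without the fixed points of the involution. -/
def Tf (r : ℝ) : Set (E × ℂ) := {p | p ∈ Tq (Metric.ball 0 r) ∧ jq p ≠ p}

theorem Tor_rot1 {O : Set (E × ℂ)} (h0 : ∀ p ∈ O, ‖p.1.1‖ = 1)
    (hm : ∀ s, ∀ p ∈ O, (((ex s * p.1.1, p.1.2), p.2) : E × ℂ) ∈ O) :
    Rot O (fun p => p.1.1) (fun s p => ((ex s * p.1.1, p.1.2), p.2)) where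
  cτ := by fun_prop
  nτ := h0
  cΘ := by
    have := continuous_ex
    fun_prop
  mem := hm
  zero x _ := by simp [ex_zero]
  add s s' x _ := by simp [ex_add, mul_assoc]
  rot _ _ _ := rfl

theorem Tor_rot2 {O : Set (E × ℂ)} (h0 : ∀ p ∈ O, ‖p.1.2‖ = 1)
    (hm : ∀ s, ∀ p ∈ O, (((p.1.1, ex s * p.1.2), p.2) : E × ℂ) ∈ O) :
    Rot O (fun p => p.1.2) (fun s p => ((p.1.1, ex s * p.1.2), p.2)) where
  cτ := by fun_prop
  nτ := h0
  cΘ := by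
    have := continuous_ex
    fun_prop
  mem := hm
  zero x _ := by simp [ex_zero]
  add s s' x _ := by simp [ex_add, mul_assoc]
  rot _ _ _ := rfl

theorem Tor_nz {O : Set (E × ℂ)} (h0 : ∀ p ∈ O, p.2 ≠ 0) :
    NZ (fun p : E × ℂ => ((‖p.2‖ : ℂ))⁻¹) O := by
  have h1 : ∀ p ∈ O, (‖p.2‖ : ℂ) ≠ 0 := fun p hp => by simpa using h0 p hp
  exact ⟨ContinuousOn.inv₀ (by fun_prop) h1, fun p hp => inv_ne_zero (h1 p hp)⟩

theorem Tor_rot3 {O : Set (E × ℂ)} (h0 : ∀ p ∈ O, p.2 ≠ 0)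
    (hm : ∀ s, ∀ p ∈ O, ((p.1, ex s * p.2) : E × ℂ) ∈ O) :
    Rot O (fun p => p.2 * ((‖p.2‖ : ℂ))⁻¹) (fun s p => (p.1, ex s * p.2)) where
  cτ := ContinuousOn.mul (by fun_prop) (Tor_nz h0).1
  nτ p hp := by
    have h1 : ‖p.2‖ ≠ 0 := norm_ne_zero_iff.2 (h0 p hp)
    simp [h1]
  cΘ := by
    have := continuous_ex
    fun_prop
  mem := hm
  zero x _ := by simp [ex_zero]
  add s s' x _ := by simp [ex_add, mul_assoc]
  rot s x _ := by simp [norm_ex, mul_assoc]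

theorem Tor_wd_pos {X : Type} [TopologicalSpace X] {g : X → ℂ} {S : Set X} (h : ∀ x ∈ S, g x ≠ 0)
    (t : ℝ) (e : ∀ x ∈ S, g x = ‖g x‖ * ex t) {c : Chn ℚ X 1} (hc : c ∈ chn ℚ S 1) :
    ev ℚ (wd g) c = 0 := by
  have h1 : ev ℚ (wd g) c = ev ℚ (fun _ : Simp X 1 => (0 : ℝ)) c :=
    ev_congr_chn hc fun σ hσ => by
      rw [wd_eq h (a := fun _ => t) continuousOn_const e hσ, cobd_pt, sub_self]
  rw [h1, ev, Finsupp.linearCombination_apply]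
  simp

theorem Tor_wd3 {O : Set (E × ℂ)} (h0 : ∀ p ∈ O, p.2 ≠ 0) {c : Chn ℚ (E × ℂ) 1}
    (hc : c ∈ chn ℚ O 1) :
    ev ℚ (wd fun p : E × ℂ => p.2 * ((‖p.2‖ : ℂ))⁻¹) c = ev ℚ (wd fun p : E × ℂ => p.2) c := by
  rw [ev_wd_mul (g := fun p : E × ℂ => p.2) ⟨by fun_prop, h0⟩ (Tor_nz h0) hc,
    Tor_wd_pos (Tor_nz h0).2 0 (fun p _ => by simp [ex_zero]) hc, add_zero]

theorem Tor_ne {z : ℂ} (h : ‖z‖ = 1) : z ≠ 0 := norm_ne_zero_iff.1 (h ▸ one_ne_zero)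

theorem Tor_key {r : ℝ} (hr : 0 < r) {c : Chn ℚ (E × ℂ) 1}
    (hc : c ∈ cyc ℚ (Tq (Metric.ball 0 r \ {0})) 1)
    (h1 : ev ℚ (wd fun p : E × ℂ => p.1.1) c = 0) (h2 : ev ℚ (wd fun p : E × ℂ => p.1.2) c = 0)
    (h3 : ev ℚ (wd fun p : E × ℂ => p.2) c = 0) : c ∈ bdy ℚ (Tq (Metric.ball 0 r \ {0})) 1 := by
  set O : Set (E × ℂ) := Tq (Metric.ball 0 r \ {0}) with hO
  have mO : ∀ p : E × ℂ, p ∈ O ↔ ‖p.1.1‖ = 1 ∧ ‖p.1.2‖ = 1 ∧ ‖p.2‖ < r ∧ p.2 ≠ 0 := fun p => by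
    simp [hO, Tq]
  have r1 := Tor_rot1 (O := O) (fun p hp => hp.1) fun s p hp => by
    rw [mO] at hp ⊢
    simpa [norm_ex] using hp
  set O2 := fib O fun p => p.1.1 with hO2
  have s2 : O2 ⊆ O := fun p hp => hp.1
  have r2 := Tor_rot2 (O := O2) (fun p hp => hp.1.2.1) fun s p hp => ⟨by
    have := hp.1
    rw [mO] at this ⊢
    simpa [norm_ex] using this, hp.2⟩
  set O3 := fib O2 fun p => p.1.2 with hO3
  have s3 : O3 ⊆ O2 := fun p hp => hp.1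
  have z0 : ∀ p ∈ O, p.2 ≠ 0 := fun p hp => ((mO p).1 hp).2.2.2
  have r3 := Tor_rot3 (O := O3) (fun p hp => z0 p hp.1.1) fun s p hp => ⟨⟨by
    have := hp.1.1
    rw [mO] at this ⊢
    simpa [norm_ex, ex_ne] using this, hp.1.2⟩, hp.2⟩
  set O4 := fib O3 fun p => p.2 * ((‖p.2‖ : ℂ))⁻¹ with hO4
  have s4 : O4 ⊆ O3 := fun p hp => hp.1
  have e4 : O4 = (fun x : ℝ => (((1, 1), 0) : E × ℂ) + x • (((0, 0), 1) : E × ℂ)) '' Ioo 0 r := by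
    ext p
    constructor
    · rintro ⟨⟨⟨hp, e1⟩, e2⟩, e3⟩
      rw [mO] at hp
      refine ⟨‖p.2‖, ⟨norm_pos_iff.2 hp.2.2.2, hp.2.2.1⟩, ?_⟩
      have h4 : (‖p.2‖ : ℂ) ≠ 0 := by simpa using hp.2.2.2
      have e4 : p.2 = ‖p.2‖ := by rwa [mul_inv_eq_one₀ h4] at e3
      refine Prod.ext (Prod.ext ?_ ?_) ?_
      · simpa using e1.symm
      · simpa using e2.symm
      · simpa using e4.symm
    · rintro ⟨x, hx, rfl⟩
      refine ⟨⟨⟨(mO _).2 ?_, by simp⟩, by simp⟩, ?_⟩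
      · simpa [abs_of_pos hx.1, hx.1.ne'] using hx.2
      · simp [abs_of_pos hx.1, hx.1.ne']
  have c4 : Convex ℝ O4 := by
    rw [e4]
    have := ((convex_Ioo (𝕜 := ℝ) 0 r).linear_image
      (LinearMap.toSpanSingleton ℝ (E × ℂ) ((0, 0), 1))).translate (((1, 1), 0) : E × ℂ)
    rwa [image_image] at this
  have n4 : O4.Nonempty := by
    rw [e4]
    exact (nonempty_Ioo.2 hr).image _
  have p4 : IsPathConnected O4 := c4.isPathConnected n4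
  have p3 : IsPathConnected O3 := r3.isPathConnected p4
  have p2 : IsPathConnected O2 := r2.isPathConnected p3
  have nz2 : NZ (fun p : E × ℂ => p.1.2) O := ⟨by fun_prop, fun p hp => Tor_ne hp.2.1⟩
  have nz3 : NZ (fun p : E × ℂ => p.2) O := ⟨by fun_prop, z0⟩
  obtain ⟨c2, hc2, b2, hb2, rfl⟩ := Submodule.mem_sup.1 (r1.one p2 hc h1)
  rw [map_add, ev_wd_bdy nz2 hb2, add_zero] at h2
  rw [map_add, ev_wd_bdy nz3 hb2, add_zero] at h3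
  obtain ⟨c3, hc3, b3, hb3, rfl⟩ := Submodule.mem_sup.1 (r2.one p3 hc2 h2)
  have hb3' := bdy_mono s2 1 hb3
  rw [map_add, ev_wd_bdy nz3 hb3', add_zero,
    ← Tor_wd3 (fun p hp => z0 p (s2 (s3 hp))) (cyc_le _ _ hc3)] at h3
  obtain ⟨c5, hc5, b4, hb4, rfl⟩ := Submodule.mem_sup.1 (r3.one p4 hc3 h3)
  obtain ⟨x, hx⟩ := n4
  have hc6 := cyc_le_of_star (c4.starConvex hx) 0 hc5
  exact add_mem (add_mem (add_mem (bdy_mono (s4.trans (s3.trans s2)) 1 hc6)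
    (bdy_mono (s3.trans s2) 1 hb4)) hb3') hb2

/-- Signs. -/
def Tor_sg (b : Bool) : ℝ := if b then 1 else -1

/-- The point of the unit circle with given imaginary part and sign of the real part. -/
def Tor_pt (b : Bool) (y : ℝ) : ℂ := ((Tor_sg b * √(1 - y ^ 2) : ℝ) : ℂ) + (y : ℂ) * Complex.I

/-- Charts at the four fixed points. -/
def Tor_f (k : Bool × Bool) (a : E) : E × ℂ := ((Tor_pt k.1 a.1.re, Tor_pt k.2 a.1.im), a.2)

/-- The common inverse of the charts. -/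
def Tor_g (p : E × ℂ) : E := ((p.1.1.im : ℂ) + (p.1.2.im : ℂ) * Complex.I, p.2)

theorem Tor_sg_sq (b : Bool) : Tor_sg b * Tor_sg b = 1 := by
  cases b <;> simp [Tor_sg]

theorem Tor_pt_im (b : Bool) (y : ℝ) : (Tor_pt b y).im = y := by simp [Tor_pt]

theorem Tor_pt_re (b : Bool) (y : ℝ) : (Tor_pt b y).re = Tor_sg b * √(1 - y ^ 2) := by
  simp [Tor_pt]

theorem Tor_pt_cont (b : Bool) : Continuous (Tor_pt b) := by
  unfold Tor_pt
  fun_prop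

theorem Tor_pt_norm (b : Bool) {y : ℝ} (hy : |y| < 1) : ‖Tor_pt b y‖ = 1 := by
  have h1 : 0 ≤ 1 - y ^ 2 := by nlinarith [abs_nonneg y, sq_abs y]
  have h2 : ‖Tor_pt b y‖ ^ 2 = 1 := by
    rw [Complex.sq_norm, Complex.normSq_apply, Tor_pt_re, Tor_pt_im, mul_mul_mul_comm, Tor_sg_sq,
      Real.mul_self_sqrt h1]
    ring
  exact (pow_eq_one_iff_of_nonneg (norm_nonneg _) two_ne_zero).1 h2

theorem Tor_pt_pos (b : Bool) {y : ℝ} (hy : |y| < 1) : 0 < Tor_sg b * (Tor_pt b y).re := by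
  have h1 : 0 < 1 - y ^ 2 := by nlinarith [abs_nonneg y, sq_abs y]
  rw [Tor_pt_re, ← mul_assoc, Tor_sg_sq, one_mul]
  exact Real.sqrt_pos.2 h1

theorem Tor_pt_eq (b : Bool) {z : ℂ} (hz : ‖z‖ = 1) (h : 0 < Tor_sg b * z.re) :
    Tor_pt b z.im = z := by
  refine Complex.ext ?_ (Tor_pt_im b _)
  have h1 : z.re * z.re + z.im * z.im = 1 := by
    rw [← Complex.normSq_apply, ← Complex.sq_norm, hz, one_pow]
  have h2 : 1 - z.im ^ 2 = (Tor_sg b * z.re) ^ 2 := by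
    rw [mul_pow, sq (Tor_sg b), Tor_sg_sq]
    linarith
  rw [Tor_pt_re, h2, Real.sqrt_sq h.le, ← mul_assoc, Tor_sg_sq, one_mul]

theorem Tor_g_f (k : Bool × Bool) (a : E) : Tor_g (Tor_f k a) = a := by
  refine Prod.ext ?_ rfl
  simp [Tor_g, Tor_f, Tor_pt_im]

theorem Tor_g_cont : Continuous Tor_g := by
  unfold Tor_g
  fun_prop

theorem Tor_emb (k : Bool × Bool) (S : Set E) : Emb (Tor_f k) S := by
  refine ⟨Continuous.continuousOn ?_, Tor_g, Tor_g_cont.continuousOn, fun a _ => Tor_g_f k a⟩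
  have h1 := Tor_pt_cont k.1
  have h2 := Tor_pt_cont k.2
  unfold Tor_f
  fun_prop

theorem Tor_fix (p : E × ℂ) : jq p = p ↔ Tor_g p = 0 := by
  obtain ⟨⟨a, b⟩, z⟩ := p
  simp only [jq, Tor_g, Prod.mk.injEq, Complex.conj_eq_iff_im, Prod.mk_eq_zero, neg_eq_self]
  refine and_congr ?_ Iff.rfl
  simp [Complex.ext_iff]

theorem Tor_jq_cont : Continuous jq := by
  have := Complex.continuous_conj
  unfold jq
  fun_prop

theorem Tor_sg_ex {x : ℝ} (hx : x ≠ 0) : ∃ b, 0 < Tor_sg b * x := by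
  rcases lt_or_gt_of_ne hx with h | h
  · exact ⟨false, by simpa [Tor_sg] using h⟩
  · exact ⟨true, by simpa [Tor_sg] using h⟩

theorem Tor_sg_uniq {x : ℝ} {b b' : Bool} (h : 0 < Tor_sg b * x) (h' : 0 < Tor_sg b' * x) :
    b = b' := by
  cases b <;> cases b' <;> simp [Tor_sg] at h h' ⊢ <;> linarith

theorem Tor_union {r δ : ℝ} (h1 : δ ≤ r) (h2 : δ ≤ 1) :
    Tq (Metric.ball 0 r) ∩ {p | jq p ≠ p} ∩
      {p | p.1.1.re ≠ 0 ∧ p.1.2.re ≠ 0 ∧ Tor_g p ∈ Metric.ball 0 δ} =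
      ⋃ k, Tor_f k '' (Metric.ball 0 δ \ {0}) := by
  ext p
  constructor
  · rintro ⟨⟨⟨e1, e2, -⟩, hj⟩, r1, r2, hg⟩
    obtain ⟨b1, hb1⟩ := Tor_sg_ex r1
    obtain ⟨b2, hb2⟩ := Tor_sg_ex r2
    refine mem_iUnion.2 ⟨(b1, b2), Tor_g p, ⟨hg, fun h => hj ((Tor_fix p).2 h)⟩, ?_⟩
    refine Prod.ext (Prod.ext ?_ ?_) rfl
    · simpa [Tor_f, Tor_g] using Tor_pt_eq b1 e1 hb1
    · simpa [Tor_f, Tor_g] using Tor_pt_eq b2 e2 hb2
  · intro hp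
    obtain ⟨k, a, ⟨ha, ha0⟩, rfl⟩ := mem_iUnion.1 hp
    have ha1 := mem_ball_zero_iff.1 ha
    have a1 : ‖a.1‖ < 1 := ((norm_fst_le a).trans_lt ha1).trans_le h2
    have a2 : ‖a.2‖ < r := ((norm_snd_le a).trans_lt ha1).trans_le h1
    have b1 : |a.1.re| < 1 := (Complex.abs_re_le_norm _).trans_lt a1
    have b2 : |a.1.im| < 1 := (Complex.abs_im_le_norm _).trans_lt a1
    refine ⟨⟨⟨Tor_pt_norm _ b1, Tor_pt_norm _ b2, mem_ball_zero_iff.2 a2⟩, fun h => ha0 ?_⟩,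
      fun h => ?_, fun h => ?_, by rwa [Tor_g_f]⟩
    · rwa [Tor_fix, Tor_g_f] at h
    · have := Tor_pt_pos k.1 b1
      change (Tor_pt k.1 a.1.re).re = 0 at h
      rw [h, mul_zero] at this
      exact lt_irrefl _ this
    · have := Tor_pt_pos k.2 b2
      change (Tor_pt k.2 a.1.im).re = 0 at h
      rw [h, mul_zero] at this
      exact lt_irrefl _ this

theorem Tor_acyc {δ : ℝ} (h2 : δ ≤ 1) : cyc ℚ (⋃ k, Tor_f k '' (Metric.ball 0 δ \ {0})) 2 ≤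
    bdy ℚ (⋃ k, Tor_f k '' (Metric.ball 0 δ \ {0})) 2 := by
  have hs : ∀ k, Tor_f k '' (Metric.ball 0 δ \ {0}) ⊆
      {p : E × ℂ | 0 < Tor_sg k.1 * p.1.1.re ∧ 0 < Tor_sg k.2 * p.1.2.re} := by
    rintro k _ ⟨a, ⟨ha, -⟩, rfl⟩
    have a1 : ‖a.1‖ < 1 := ((norm_fst_le a).trans_lt (mem_ball_zero_iff.1 ha)).trans_le h2
    exact ⟨Tor_pt_pos k.1 ((Complex.abs_re_le_norm _).trans_lt a1),
      Tor_pt_pos k.2 ((Complex.abs_im_le_norm _).trans_lt a1)⟩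
  have ho : ∀ k : Bool × Bool,
      IsOpen {p : E × ℂ | 0 < Tor_sg k.1 * p.1.1.re ∧ 0 < Tor_sg k.2 * p.1.2.re} := fun k => by
    refine IsOpen.and ?_ ?_ <;> exact isOpen_lt continuous_const (by fun_prop)
  rw [cyc_disj ho hs fun i j hij => disjoint_left.2 fun p hp hq =>
      hij (Prod.ext (Tor_sg_uniq (hs i hp).1 hq.1) (Tor_sg_uniq (hs i hp).2 hq.2))]
  refine iSup_le fun k => ((Tor_emb k _).cyc_le (punct_ball 0 2 (Or.inr rfl))).trans ?_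
  exact bdy_mono (subset_iUnion (fun k => Tor_f k '' (Metric.ball 0 δ \ {0})) k) 2

theorem tor_one {r : ℝ} (hr : 0 < r) : ∃ s ∈ cyc ℚ (Tq (Metric.ball 0 r \ {0})) 1,
    ev ℚ (wd fun p : E × ℂ => p.2) s = 1 ∧ ∀ c ∈ cyc ℚ (Tq (Metric.ball 0 r \ {0})) 1, ∃ q : ℚ,
      c + cmap ℚ jq 1 c - q • s ∈ bdy ℚ (Tq (Metric.ball 0 r \ {0})) 1 := by
  set O : Set (E × ℂ) := Tq (Metric.ball 0 r \ {0}) with hO
  have mO : ∀ p : E × ℂ, p ∈ O ↔ ‖p.1.1‖ = 1 ∧ ‖p.1.2‖ = 1 ∧ ‖p.2‖ < r ∧ p.2 ≠ 0 := fun p => by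
    simp [hO, Tq]
  have z0 : ∀ p ∈ O, p.2 ≠ 0 := fun p hp => ((mO p).1 hp).2.2.2
  have hx := continuous_ex
  obtain ⟨s, hs, hw⟩ := exists_loop (R := ℚ)
    (fun t : ℝ => (((1, 1), ((r / 2 : ℝ) : ℂ) * ex t) : E × ℂ)) (by fun_prop)
    (by
      have h1 := ex_int 1
      rw [Int.cast_one] at h1
      simp only [ex_zero, h1])
  have hr2 : ‖((r / 2 : ℝ) : ℂ)‖ = r / 2 := by
    rw [Complex.norm_real, Real.norm_of_nonneg (half_pos hr).le]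
  have hne : ((r / 2 : ℝ) : ℂ) ≠ 0 := Complex.ofReal_ne_zero.2 (half_pos hr).ne'
  have hsO : s ∈ cyc ℚ O 1 := by
    refine cyc_mono ?_ 1 hs
    rintro _ ⟨t, -, rfl⟩
    refine (mO _).2 ⟨norm_one, norm_one, ?_, mul_ne_zero hne (ex_ne t)⟩
    rw [norm_mul, norm_ex, hr2, mul_one]
    exact half_lt_self hr
  have w1 : ev ℚ (wd fun p : E × ℂ => p.1.1) s = 0 := by
    rw [hw _ (fun _ => 0) continuousOn_const fun t _ => by simp [ex_zero], sub_self]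
  have w2 : ev ℚ (wd fun p : E × ℂ => p.1.2) s = 0 := by
    rw [hw _ (fun _ => 0) continuousOn_const fun t _ => by simp [ex_zero], sub_self]
  have w3 : ev ℚ (wd fun p : E × ℂ => p.2) s = 1 := by
    rw [hw _ (fun t => t) continuousOn_id fun t _ => ⟨mul_ne_zero hne (ex_ne t), by
      simp only [norm_mul, norm_ex, hr2, mul_one]⟩, sub_zero]
  refine ⟨s, hsO, w3, fun c hc => ?_⟩
  have r3 := Tor_rot3 (O := O) z0 fun s p hp => by
    rw [mO] at hp ⊢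
    simpa [norm_ex, ex_ne] using hp
  obtain ⟨d, hd⟩ := r3.exists_conn hc
  have hc' := cyc_le _ _ hc
  have hq := r3.conn_wd hd
  rw [Tor_wd3 z0 hc'] at hq
  have hj : ContinuousOn jq O := Tor_jq_cont.continuousOn
  have hm : MapsTo jq O O := fun p hp => by
    rw [mO] at hp ⊢
    simpa [jq] using hp
  have nz1 : NZ (fun p : E × ℂ => p.1.1) O := ⟨by fun_prop, fun p hp => Tor_ne hp.1⟩
  have nz2 : NZ (fun p : E × ℂ => p.1.2) O := ⟨by fun_prop, fun p hp => Tor_ne hp.2.1⟩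
  have nz3 : NZ (fun p : E × ℂ => p.2) O := ⟨by fun_prop, z0⟩
  have j1 : ev ℚ (wd fun p : E × ℂ => p.1.1) (cmap ℚ jq 1 c) =
      -ev ℚ (wd fun p : E × ℂ => p.1.1) c := (ev_wd_cmap _ hj hc').trans (ev_wd_conj nz1 hc')
  have j2 : ev ℚ (wd fun p : E × ℂ => p.1.2) (cmap ℚ jq 1 c) =
      -ev ℚ (wd fun p : E × ℂ => p.1.2) c := (ev_wd_cmap _ hj hc').trans (ev_wd_conj nz2 hc')
  have j3 : ev ℚ (wd fun p : E × ℂ => p.2) (cmap ℚ jq 1 c) =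
      ev ℚ (wd fun p : E × ℂ => p.2) c := by
    have e : ((fun p : E × ℂ => p.2) ∘ jq) = fun p : E × ℂ => p.2 * (-1) :=
      funext fun p => (mul_neg_one _).symm
    have nz : NZ (fun _ : E × ℂ => (-1 : ℂ)) O :=
      ⟨continuousOn_const, fun _ _ => neg_ne_zero.2 one_ne_zero⟩
    obtain ⟨t, ht⟩ := exists_ex (-1)
    rw [ev_wd_cmap _ hj hc', e, ev_wd_mul nz3 nz hc', Tor_wd_pos nz.2 t (fun _ _ => ht) hc',
      add_zero]
  refine ⟨2 * aug ℚ d, Tor_key hr (sub_mem (add_mem hc (cmap_cyc hj hm hc))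
    (Submodule.smul_mem _ _ hsO)) ?_ ?_ ?_⟩
  · rw [map_sub, map_add, map_smul, j1, w1, smul_zero, add_neg_cancel, sub_zero]
  · rw [map_sub, map_add, map_smul, j2, w2, smul_zero, add_neg_cancel, sub_zero]
  · rw [map_sub, map_add, map_smul, j3, w3, hq, ← Algebra.algebraMap_eq_smul_one, map_mul,
      map_ofNat]
    ring

theorem tor_two {r : ℝ} (hr : 0 < r) :
    cyc ℚ (Tf r) 2 ≤ cyc ℚ (Tq (Metric.ball 0 r \ {0})) 2 ⊔ bdy ℚ (Tf r) 2 := by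
  intro c hc
  have hr2 : ‖((r / 2 : ℝ) : ℂ)‖ = r / 2 := by
    rw [Complex.norm_real, Real.norm_of_nonneg (half_pos hr).le]
  have hne : ((r / 2 : ℝ) : ℂ) ≠ 0 := Complex.ofReal_ne_zero.2 (half_pos hr).ne'
  have hb : ((r / 2 : ℝ) : ℂ) ∈ Metric.ball (0 : ℂ) r := by
    rw [mem_ball_zero_iff, hr2]
    exact half_lt_self hr
  have h1 := htpy_cyc (R := ℚ) (S := Tf r) (S' := Tq (Metric.ball 0 r))
    (fun (s : ℝ) (p : E × ℂ) => ((p.1, (1 - s) • p.2 + s • ((r / 2 : ℝ) : ℂ)) : E × ℂ))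
    (by fun_prop) (fun s hs p hp => ⟨hp.1.1, hp.1.2.1,
      convex_ball (0 : ℂ) r hp.1.2.2 hb (sub_nonneg.2 hs.2) hs.1 (sub_add_cancel 1 s)⟩) hc
  have e0 : (fun p : E × ℂ =>
      ((p.1, (1 - (0 : ℝ)) • p.2 + (0 : ℝ) • ((r / 2 : ℝ) : ℂ)) : E × ℂ)) = id :=
    funext fun p => by simp
  have e1 : (fun p : E × ℂ =>
      ((p.1, (1 - (1 : ℝ)) • p.2 + (1 : ℝ) • ((r / 2 : ℝ) : ℂ)) : E × ℂ)) =
      fun p => (p.1, ((r / 2 : ℝ) : ℂ)) := funext fun p => by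
    rw [sub_self, zero_smul, one_smul, zero_add]
  rw [e0, e1, cmap_id] at h1
  have h2 : cmap ℚ (fun p : E × ℂ => ((p.1, ((r / 2 : ℝ) : ℂ)) : E × ℂ)) 2 c ∈
      cyc ℚ (Tq (Metric.ball 0 r \ {0})) 2 := by
    refine cmap_cyc (by fun_prop) (fun p hp => ?_) hc
    exact ⟨hp.1.1, hp.1.2.1, hb, hne⟩
  have hs : Tq (Metric.ball 0 r \ {0}) ⊆ Tf r := fun p hp =>
    ⟨⟨hp.1, hp.2.1, hp.2.2.1⟩, fun h => hp.2.2.2 (neg_eq_self.1 (congrArg Prod.snd h))⟩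
  have hU : IsOpen {p : E × ℂ | jq p ≠ p} := isOpen_ne_fun Tor_jq_cont continuous_id
  have hV : IsOpen {p : E × ℂ | p.1.1.re ≠ 0 ∧ p.1.2.re ≠ 0 ∧
      Tor_g p ∈ Metric.ball 0 (min r 1)} :=
    (isOpen_ne_fun (by fun_prop) continuous_const).inter
      ((isOpen_ne_fun (by fun_prop) continuous_const).inter
        (Metric.isOpen_ball.preimage Tor_g_cont))
  have hre : ∀ z : ℂ, ‖z‖ = 1 → (starRingEnd ℂ) z = z → z.re ≠ 0 := fun z hz h h0 =>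
    Tor_ne hz (Complex.ext h0 (Complex.conj_eq_iff_im.1 h))
  have h3 := mv_inj (R := ℚ) (O := Tq (Metric.ball 0 r)) hU hV (fun p hp => by
    by_cases h : jq p = p
    · refine Or.inr ⟨hre _ hp.1 (congrArg (fun q : E × ℂ => q.1.1) h),
        hre _ hp.2.1 (congrArg (fun q : E × ℂ => q.1.2) h), ?_⟩
      rw [(Tor_fix p).1 h]
      exact Metric.mem_ball_self (lt_min hr one_pos)
    · exact Or.inl h) (n := 1) (by
      rw [Tor_union (min_le_left _ _) (min_le_right _ _)]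
      exact Tor_acyc (min_le_right _ _))
  have h4 : _ ∈ bdy ℚ (Tf r) 2 :=
    h3 ⟨sub_mem (chn_mono hs 2 (cyc_le _ _ h2)) (cyc_le _ _ hc), h1⟩
  have h5 := sub_mem (Submodule.mem_sup_left h2) (Submodule.mem_sup_right h4)
  rwa [sub_sub_cancel] at h5

end HK3
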