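import Pool.Agent.P.MP_9699e0_gt.Sets
import Pool.Agent.P.MP_9699e0_gt.Tor

/-! The double cover of the neighbourhood of a binding. -/

set_option autoImplicit false
set_option linter.unusedSectionVars false

noncomputable section

namespace HK3

open Pool.Agent.P.MP_9699e0_gt Set Filter Topology
open scoped ContDiff

variable {n : ℕ}

/-- The covering map. -/
def pq (n : ℕ) (i : I4) (y : E × ℂ) : XX n :=
  f2 n i (⟨Complex.arg y.1.1 / Real.pi, Complex.arg y.1.2 / Real.pi⟩, y.2)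

/-- The exponential map of the torus. -/
def eq2 (α : E) : E × ℂ := ((ex (α.1.re / 2), ex (α.1.im / 2)), α.2)

theorem PQ_ex_arg {z : ℂ} (h : ‖z‖ = 1) : ex (Complex.arg z / Real.pi / 2) = z := by
  have h1 := Complex.norm_mul_exp_arg_mul_I z
  rw [h, Complex.ofReal_one, one_mul] at h1
  rw [← h1, ex, h1]
  have hp : (Real.pi : ℂ) ≠ 0 := Complex.ofReal_ne_zero.2 Real.pi_ne_zero
  have e : (2 * Real.pi * ((Complex.arg z / Real.pi / 2 : ℝ) : ℂ) * Complex.I : ℂ) =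
      (Complex.arg z : ℂ) * Complex.I := by
    push_cast
    field_simp
  rw [e, h1]

theorem PQ_iff {α α' : E} : eq2 α' = eq2 α ↔ ∃ m, α' = (α.1 + 2 * gi m, α.2) := by
  constructor
  · intro h
    have h1 : ex (α'.1.re / 2) = ex (α.1.re / 2) := congrArg (fun y : E × ℂ => y.1.1) h
    have h2 : ex (α'.1.im / 2) = ex (α.1.im / 2) := congrArg (fun y : E × ℂ => y.1.2) h
    have h3 : α'.2 = α.2 := congrArg (fun y : E × ℂ => y.2) h
    obtain ⟨a, ha⟩ := ex_eq_iff.1 h1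
    obtain ⟨b, hb⟩ := ex_eq_iff.1 h2
    refine ⟨(a, b), Prod.ext (Complex.ext ?_ ?_) h3⟩
    · simp [gi]
      linarith
    · simp [gi]
      linarith
  · rintro ⟨m, rfl⟩
    refine Prod.ext (Prod.ext (ex_eq_iff.2 ⟨m.1, ?_⟩) (ex_eq_iff.2 ⟨m.2, ?_⟩)) rfl
    · simp [gi]
      ring
    · simp [gi]
      ring

theorem PQ_jq (α : E) : jq (eq2 α) = eq2 (-α.1, -α.2) := by
  refine Prod.ext (Prod.ext ?_ ?_) rfl
  · show (starRingEnd ℂ) (ex (α.1.re / 2)) = ex ((-α.1).re / 2)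
    rw [← ex_neg, Complex.neg_re, neg_div]
  · show (starRingEnd ℂ) (ex (α.1.im / 2)) = ex ((-α.1).im / 2)
    rw [← ex_neg, Complex.neg_im, neg_div]

theorem PQ_fix {α : E} : jq (eq2 α) = eq2 α ↔ α.2 = 0 ∧ ∃ m, α.1 = gi m := by
  rw [PQ_jq, eq_comm, PQ_iff]
  constructor
  · rintro ⟨m, h⟩
    have h1 : α.1 = -α.1 + 2 * gi m := congrArg Prod.fst h
    have h2 : α.2 = -α.2 := congrArg Prod.snd h
    exact ⟨by linear_combination h2 / 2, m, by linear_combination h1 / 2⟩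
  · rintro ⟨h, m, h1⟩
    refine ⟨m, Prod.ext ?_ ?_⟩
    · show α.1 = -α.1 + 2 * gi m
      linear_combination 2 * h1
    · show α.2 = -α.2
      rw [h, neg_zero]

theorem eq2_mem {α : E} : eq2 α ∈ Tf ρ ↔ α ∈ W2 := by
  constructor
  · rintro ⟨⟨-, -, h3⟩, h4⟩
    exact ⟨mem_ball_zero_iff.1 h3, fun h0 m hm => h4 (PQ_fix.2 ⟨h0, m, hm⟩)⟩
  · rintro ⟨h1, h2⟩
    refine ⟨⟨norm_ex _, norm_ex _, mem_ball_zero_iff.2 h1⟩, fun h => ?_⟩
    obtain ⟨h0, m, hm⟩ := PQ_fix.1 h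
    exact h2 h0 m hm

theorem PQ_sec {y : E × ℂ} (h1 : ‖y.1.1‖ = 1) (h2 : ‖y.1.2‖ = 1) :
    eq2 (⟨Complex.arg y.1.1 / Real.pi, Complex.arg y.1.2 / Real.pi⟩, y.2) = y :=
  Prod.ext (Prod.ext (PQ_ex_arg h1) (PQ_ex_arg h2)) rfl

theorem eq2_surj {y : E × ℂ} (h : y ∈ Tq univ) : ∃ α, eq2 α = y := ⟨_, PQ_sec h.1 h.2.1⟩

theorem PQ_surj {y : E × ℂ} (h : y ∈ Tf ρ) : ∃ α ∈ W2, eq2 α = y := by
  obtain ⟨α, rfl⟩ := eq2_surj (y := y) ⟨h.1.1, h.1.2.1, mem_univ _⟩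
  exact ⟨α, eq2_mem.1 h, rfl⟩

theorem PQ_trn0 (m : ℤ × ℤ) (α : E) : trn 0 m α = (α.1 + 2 * gi m, α.2) := by
  simp [trn, sg_zero]

theorem PQ_trn1 (α : E) : trn 1 0 α = (-α.1, -α.2) := by
  simp [trn, sg_one, gi_zero]

theorem pq_eq2 (hn : Odd n) (i : I4) {α : E} (h : α ∈ W2) : pq n i (eq2 α) = f2 n i α := by
  obtain ⟨m, hm⟩ := PQ_iff.1 (PQ_sec (y := eq2 α) (norm_ex _) (norm_ex _))
  rw [pq, hm, ← PQ_trn0, f2_trn hn i 0 m h]

theorem PQ_neg {α : E} (h : α ∈ W2) : ((-α.1, -α.2) : E) ∈ W2 := by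
  refine ⟨by simpa using h.1, fun h0 m hm => h.2 (neg_eq_zero.1 h0) (-m) ?_⟩
  rw [gi_neg, ← hm, neg_neg]

theorem pq_eq_iff (hn : Odd n) (i : I4) : ∀ y ∈ Tf ρ, ∀ y' ∈ Tf ρ,
    pq n i y = pq n i y' ↔ y' = y ∨ y' = jq y := by
  intro y hy y' hy'
  obtain ⟨α, hα, rfl⟩ := PQ_surj hy
  obtain ⟨α', hα', rfl⟩ := PQ_surj hy'
  constructor
  · intro h
    rw [pq_eq2 hn i hα, pq_eq2 hn i hα'] at h
    obtain ⟨-, e, m, rfl⟩ := (f22 hn hα hα').1 h
    rcases sg_cases e with ⟨h1, -⟩ | ⟨h1, -⟩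
    · exact Or.inl (PQ_iff.2 ⟨m, by simp [trn, h1]⟩)
    · refine Or.inr ?_
      rw [PQ_jq]
      exact PQ_iff.2 ⟨m, by simp [trn, h1]⟩
  · rintro (h | h)
    · rw [h]
    · rw [h, PQ_jq, pq_eq2 hn i hα, pq_eq2 hn i (PQ_neg hα), ← PQ_trn1, f2_trn hn i 1 0 hα]

theorem PQ_cont : Continuous eq2 := by
  have := continuous_ex
  unfold eq2
  fun_prop

theorem PQ_div {z : ℂ} (h : ‖z‖ = 1) (t : ℝ) :
    ex ((t + Complex.arg (z / ex (t / 2)) / Real.pi) / 2) = z := by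
  rw [add_div, ex_add, PQ_ex_arg (by rw [norm_div, h, norm_ex, div_one]),
    mul_div_cancel₀ _ (ex_ne _)]

theorem PQ_at {g : E × ℂ → ℂ} (hg : Continuous g) {y : E × ℂ} {t : ℝ} (h : g y = ex (t / 2)) :
    ContinuousAt (fun p => t + Complex.arg (g p / ex (t / 2)) / Real.pi) y := by
  refine continuousAt_const.add (ContinuousAt.div_const ?_ _)
  refine ContinuousAt.comp (g := Complex.arg) (Complex.continuousAt_arg ?_)
    (hg.div_const _).continuousAt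
  rw [h, div_self (ex_ne _)]
  exact Complex.one_mem_slitPlane

theorem continuousOn_pq (hn : Odd n) (i : I4) : ContinuousOn (pq n i) (Tf ρ) := by
  intro y hy
  obtain ⟨α, hα, rfl⟩ := PQ_surj hy
  let s : E × ℂ → E := fun p =>
    (((α.1.re + Complex.arg (p.1.1 / ex (α.1.re / 2)) / Real.pi : ℝ) : ℂ) +
      ((α.1.im + Complex.arg (p.1.2 / ex (α.1.im / 2)) / Real.pi : ℝ) : ℂ) * Complex.I, p.2)
  have hre : ∀ p, (s p).1.re = α.1.re + Complex.arg (p.1.1 / ex (α.1.re / 2)) / Real.pi := by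
    intro p
    simp only [s, Complex.add_re, Complex.mul_re, Complex.ofReal_re, Complex.ofReal_im,
      Complex.I_re, Complex.I_im]
    ring
  have him : ∀ p, (s p).1.im = α.1.im + Complex.arg (p.1.2 / ex (α.1.im / 2)) / Real.pi := by
    intro p
    simp only [s, Complex.add_im, Complex.mul_im, Complex.ofReal_re, Complex.ofReal_im,
      Complex.I_re, Complex.I_im]
    ring
  have h1 : ∀ p ∈ Tf ρ, eq2 (s p) = p := by
    intro p hp
    refine Prod.ext (Prod.ext ?_ ?_) rfl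
    · show ex ((s p).1.re / 2) = p.1.1
      rw [hre, PQ_div hp.1.1]
    · show ex ((s p).1.im / 2) = p.1.2
      rw [him, PQ_div hp.1.2.1]
  have h2 : s (eq2 α) = α := by
    refine Prod.ext (Complex.ext ?_ ?_) rfl
    · rw [hre]
      show α.1.re + Complex.arg (ex _ / ex _) / _ = _
      rw [div_self (ex_ne _), Complex.arg_one, zero_div, add_zero]
    · rw [him]
      show α.1.im + Complex.arg (ex _ / ex _) / _ = _
      rw [div_self (ex_ne _), Complex.arg_one, zero_div, add_zero]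
  have h3 : ContinuousAt s (eq2 α) := by
    refine ContinuousAt.prodMk (ContinuousAt.add ?_ (ContinuousAt.mul ?_ continuousAt_const))
      continuousAt_snd
    · exact Complex.continuous_ofReal.continuousAt.comp
        (PQ_at (g := fun p => p.1.1) (by fun_prop) rfl)
    · exact Complex.continuous_ofReal.continuousAt.comp
        (PQ_at (g := fun p => p.1.2) (by fun_prop) rfl)
  have h4 : ContinuousAt (f2 n i) (s (eq2 α)) := by
    rw [h2]
    exact (loc2 hn i).continuousAt hα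
  have h5 : ∀ p ∈ Tf ρ, pq n i p = (f2 n i ∘ s) p := by
    intro p hp
    have hs : s p ∈ W2 := eq2_mem.1 (by rw [h1 p hp]; exact hp)
    rw [Function.comp_apply, ← pq_eq2 hn i hs, h1 p hp]
  exact (h4.comp h3).continuousWithinAt.congr h5 (h5 _ hy)

theorem PQ_image (hn : Odd n) (i : I4) {W : Set E} (h : W ⊆ W2) :
    pq n i '' (eq2 '' W) = f2 n i '' W := by
  rw [image_image]
  exact image_congr fun a ha => pq_eq2 hn i (h ha)

theorem pq_loc (hn : Odd n) (i : I4) : ∀ y ∈ Tf ρ,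
    ∃ U ⊆ Tf ρ, y ∈ U ∧ Emb (pq n i) U ∧ IsOpen (pq n i '' U) := by
  intro y hy
  obtain ⟨α, hα, rfl⟩ := PQ_surj hy
  obtain ⟨W, hW, ha, hs, hi⟩ := exists_injOn_of_loc (md_opn n (.n i)) (loc2 hn i) hα
  have hU : eq2 '' W ⊆ Tf ρ := by
    rintro _ ⟨a, h, rfl⟩
    exact eq2_mem.2 (hs h)
  obtain ⟨-, g, hg, hl⟩ := emb_of_loc hW ((loc2 hn i).mono hs) hi
  refine ⟨eq2 '' W, hU, ⟨α, ha, rfl⟩, ⟨(continuousOn_pq hn i).mono hU, eq2 ∘ g, ?_, ?_⟩, ?_⟩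
  · rw [PQ_image hn i hs]
    exact PQ_cont.comp_continuousOn hg
  · rintro _ ⟨a, h, rfl⟩
    rw [Function.comp_apply, pq_eq2 hn i (hs h), hl h]
  · rw [PQ_image hn i hs]
    exact isOpen_image_of_loc (loc2 hn i) hW hs

theorem pq_image (hn : Odd n) (i : I4) : pq n i '' Tf ρ = N2 n i := by
  have h : Tf ρ = eq2 '' W2 := by
    refine Subset.antisymm (fun y hy => PQ_surj hy) ?_
    rintro _ ⟨a, h, rfl⟩
    exact eq2_mem.2 h
  rw [h, PQ_image hn i subset_rfl, N2]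

theorem pq_image' (hn : Odd n) (i : I4) :
    pq n i '' Tq (Metric.ball 0 ρ \ {0}) = Z0 n ∩ N2 n i := by
  have h : Tq (Metric.ball 0 ρ \ {0}) = eq2 '' {α | ‖α.2‖ < ρ ∧ α.2 ≠ 0} := by
    apply Subset.antisymm
    · intro y hy
      obtain ⟨α, rfl⟩ := eq2_surj (y := y) ⟨hy.1, hy.2.1, mem_univ _⟩
      exact ⟨α, ⟨mem_ball_zero_iff.1 hy.2.2.1, hy.2.2.2⟩, rfl⟩
    · rintro _ ⟨a, h, rfl⟩
      exact ⟨norm_ex _, norm_ex _, mem_ball_zero_iff.2 h.1, h.2⟩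
  rw [h, PQ_image hn i fun a ha => ⟨ha.1, fun h0 => absurd h0 ha.2⟩, Z0_inter_N2 hn i]

theorem Tq_sub : Tq (Metric.ball 0 ρ \ {0}) ⊆ Tf ρ := by
  intro y hy
  refine ⟨⟨hy.1, hy.2.1, hy.2.2.1⟩, fun h => hy.2.2.2 ?_⟩
  have h2 : -y.2 = y.2 := congrArg Prod.snd h
  show y.2 = 0
  linear_combination -h2 / 2

end HK3
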