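import Pool.Agent.P.MP_9699e0_gt.PDefs
import Pool.Agent.P.MP_9699e0_gt.NullS

/-! Loops in a family of pillow cases. -/

set_option autoImplicit false
set_option linter.unusedSectionVars false

noncomputable section

namespace HK3

open Pool.Agent.P.MP_9699e0_gt Set Filter Topology
open scoped ContDiff

/-- An open half plane. -/
def Pil1Hs (α β γ : ℝ) : Set ℂ := {x | γ < α * x.re + β * x.im}

theorem Pil1_hs_conv (α β γ : ℝ) : Convex ℝ (Pil1Hs α β γ) :=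
  convex_halfSpace_gt (f := fun x : ℂ => α * x.re + β * x.im)
    ⟨fun x y => by simp only [Complex.add_re, Complex.add_im]; ring, fun c x => by
      simp only [Complex.real_smul, Complex.re_ofReal_mul, Complex.im_ofReal_mul, smul_eq_mul]
      ring⟩ γ

theorem Pil1_hs_opn (α β γ : ℝ) : IsOpen (Pil1Hs α β γ) :=
  isOpen_lt continuous_const (by fun_prop)

/-- The open unit square. -/
def Pil1Q : Set ℂ := Pil1Hs 1 0 0 ∩ Pil1Hs (-1) 0 (-1) ∩ Pil1Hs 0 1 0 ∩ Pil1Hs 0 (-1) (-1)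

/-- An open fundamental domain: a square around the unit square below the real axis. -/
def Pil1H : Set ℂ := Pil1Hs 1 1 (-1) ∩ Pil1Hs (-1) (-1) (-1) ∩ Pil1Hs 1 (-1) 0 ∩ Pil1Hs (-1) 1 (-2)

theorem Pil1_memQ {x : ℂ} : x ∈ Pil1Q ↔ 0 < x.re ∧ x.re < 1 ∧ 0 < x.im ∧ x.im < 1 := by
  simp only [Pil1Q, Pil1Hs, mem_inter_iff, mem_ofPred_eq]
  constructor
  · rintro ⟨⟨⟨a, b⟩, c⟩, d⟩
    exact ⟨by linarith, by linarith, by linarith, by linarith⟩
  · rintro ⟨a, b, c, d⟩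
    exact ⟨⟨⟨by linarith, by linarith⟩, by linarith⟩, by linarith⟩

theorem Pil1_memH {x : ℂ} : x ∈ Pil1H ↔
    -1 < x.re + x.im ∧ x.re + x.im < 1 ∧ 0 < x.re - x.im ∧ x.re - x.im < 2 := by
  simp only [Pil1H, Pil1Hs, mem_inter_iff, mem_ofPred_eq]
  constructor
  · rintro ⟨⟨⟨a, b⟩, c⟩, d⟩
    exact ⟨by linarith, by linarith, by linarith, by linarith⟩
  · rintro ⟨a, b, c, d⟩
    exact ⟨⟨⟨by linarith, by linarith⟩, by linarith⟩, by linarith⟩

theorem Pil1_memT {x : ℂ} {α β γ : ℝ} : x ∈ Pil1H ∩ Pil1Hs α β γ ↔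
    (-1 < x.re + x.im ∧ x.re + x.im < 1 ∧ 0 < x.re - x.im ∧ x.re - x.im < 2) ∧
      γ < α * x.re + β * x.im := by
  rw [mem_inter_iff, Pil1_memH]
  rfl

theorem Pil1_convQ : Convex ℝ Pil1Q :=
  (((Pil1_hs_conv _ _ _).inter (Pil1_hs_conv _ _ _)).inter (Pil1_hs_conv _ _ _)).inter
    (Pil1_hs_conv _ _ _)

theorem Pil1_convH : Convex ℝ Pil1H :=
  (((Pil1_hs_conv _ _ _).inter (Pil1_hs_conv _ _ _)).inter (Pil1_hs_conv _ _ _)).inter
    (Pil1_hs_conv _ _ _)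

theorem Pil1_opnQ : IsOpen Pil1Q :=
  (((Pil1_hs_opn _ _ _).inter (Pil1_hs_opn _ _ _)).inter (Pil1_hs_opn _ _ _)).inter
    (Pil1_hs_opn _ _ _)

theorem Pil1_opnH : IsOpen Pil1H :=
  (((Pil1_hs_opn _ _ _).inter (Pil1_hs_opn _ _ _)).inter (Pil1_hs_opn _ _ _)).inter
    (Pil1_hs_opn _ _ _)

theorem Pil1_re (m : ℤ × ℤ) : (gi m).re = m.1 := rfl

theorem Pil1_im (m : ℤ × ℤ) : (gi m).im = m.2 := rfl

theorem Pil1_re2 (m : ℤ × ℤ) : (2 * gi m).re = 2 * m.1 := by simp [gi]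

theorem Pil1_im2 (m : ℤ × ℤ) : (2 * gi m).im = 2 * m.2 := by simp [gi]

theorem Pil1_zero : gi 0 = 0 := by apply Complex.ext <;> simp [gi]

theorem Pil1_lt {a b : ℤ} (h : (a : ℝ) < b) : a < b := by exact_mod_cast h

theorem Pil1_Q_sub : Pil1Q ⊆ Pn := by
  rintro x hx m rfl
  rw [Pil1_memQ, Pil1_re, Pil1_im] at hx
  have h1 : 0 < m.1 := Pil1_lt (by push_cast; linarith [hx.1])
  have h2 : m.1 < 1 := Pil1_lt (by push_cast; linarith [hx.2.1])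
  omega

theorem Pil1_H_sub : Pil1H ⊆ Pn := by
  rintro x hx m rfl
  rw [Pil1_memH, Pil1_re, Pil1_im] at hx
  obtain ⟨a, b, c, d⟩ := hx
  have h1 : -1 < m.1 + m.2 := Pil1_lt (by push_cast; linarith)
  have h2 : m.1 + m.2 < 1 := Pil1_lt (by push_cast; linarith)
  have h3 : 0 < m.1 - m.2 := Pil1_lt (by push_cast; linarith)
  have h4 : m.1 - m.2 < 2 := Pil1_lt (by push_cast; linarith)
  omega

theorem Pil1_pn {x : ℂ} (hx : x ∈ Pn) (m : ℤ × ℤ) : x + 2 * gi m ∈ Pn ∧ -x + 2 * gi m ∈ Pn := by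
  constructor
  · intro n h
    refine hx (n - 2 * m) ?_
    rw [eq_sub_of_add_eq h]
    apply Complex.ext <;> simp [gi]
  · intro n h
    refine hx (2 * m - n) ?_
    have : x = 2 * gi m - gi n := by rw [← h]; ring
    rw [this]
    apply Complex.ext <;> simp [gi]

theorem Pil1_cl {K : Set ℂ} {z : ℂ} (d : ℂ)
    (h : ∀ t : ℝ, 0 < t → t < 1 / 4 → z + t • d ∈ K) : z ∈ closure K := by
  have h1 : Tendsto (fun t : ℝ => z + t • d) (𝓝[>] 0) (𝓝 z) := by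
    have h2 : Continuous fun t : ℝ => z + t • d := by fun_prop
    have h3 := h2.tendsto 0
    rw [zero_smul, add_zero] at h3
    exact h3.mono_left nhdsWithin_le_nhds
  refine mem_closure_of_tendsto h1 ?_
  filter_upwards [Ioo_mem_nhdsGT (show (0 : ℝ) < 1 / 4 by norm_num)] with t ht using h t ht.1 ht.2

theorem Pil1_clT (α β γ : ℝ) (n d : ℤ × ℤ)
    (h : ∀ t : ℝ, 0 < t → t < 1 / 4 →
      (-1 < (n.1 + t * d.1) + (n.2 + t * d.2) ∧ (n.1 + t * d.1) + (n.2 + t * d.2) < 1 ∧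
        0 < (n.1 + t * d.1) - (n.2 + t * d.2) ∧ (n.1 + t * d.1) - (n.2 + t * d.2) < 2) ∧
        γ < α * (n.1 + t * d.1) + β * (n.2 + t * d.2)) :
    gi n ∈ closure (Pil1H ∩ Pil1Hs α β γ) := by
  refine Pil1_cl (gi d) fun t h1 h2 => ?_
  rw [Pil1_memT]
  simpa only [Complex.add_re, Complex.add_im, Complex.real_smul, Complex.re_ofReal_mul,
    Complex.im_ofReal_mul, Pil1_re, Pil1_im] using h t h1 h2

/-- The fundamental domains cover the plane without the lattice. -/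
theorem Pil1_cover {x : ℂ} (hx : x ∈ Pn) :
    ∃ m, x + 2 * gi m ∈ Pil1Q ∪ Pil1H ∨ -x + 2 * gi m ∈ Pil1Q ∪ Pil1H := by
  have key : ∀ y ∈ Pn, 0 ≤ y.re → y.re ≤ 1 → -1 ≤ y.im → y.im ≤ 0 → y ∈ Pil1H := by
    intro y hy a b c d
    have e : ∀ m : ℤ × ℤ, y.re = m.1 → y.im = m.2 → False := fun m h1 h2 =>
      hy m (Complex.ext h1 h2)
    rw [Pil1_memH]
    refine ⟨lt_of_not_ge fun h => e (0, -1) ?_ ?_, lt_of_not_ge fun h => e (1, 0) ?_ ?_,
      lt_of_not_ge fun h => e (0, 0) ?_ ?_, lt_of_not_ge fun h => e (1, -1) ?_ ?_⟩ <;>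
      push_cast <;> linarith
  have key2 : ∀ y ∈ Pn, 0 ≤ y.re → y.re ≤ 1 → -1 ≤ y.im → y.im ≤ 1 →
      ∃ m, y + 2 * gi m ∈ Pil1Q ∪ Pil1H ∨ -y + 2 * gi m ∈ Pil1Q ∪ Pil1H := by
    intro y hy a b c d
    rcases le_or_gt y.im 0 with h | h
    · refine ⟨(0, 0), Or.inl (Or.inr (key _ (Pil1_pn hy _).1 ?_ ?_ ?_ ?_))⟩ <;>
        simp only [Complex.add_re, Complex.add_im, Pil1_re2, Pil1_im2] <;> push_cast <;> linarith
    rcases a.eq_or_lt with a | a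
    · refine ⟨(0, 0), Or.inr (Or.inr (key _ (Pil1_pn hy _).2 ?_ ?_ ?_ ?_))⟩ <;>
        simp only [Complex.add_re, Complex.add_im, Complex.neg_re, Complex.neg_im, Pil1_re2,
          Pil1_im2] <;> push_cast <;> linarith
    rcases b.eq_or_lt with b | b
    · refine ⟨(1, 0), Or.inr (Or.inr (key _ (Pil1_pn hy _).2 ?_ ?_ ?_ ?_))⟩ <;>
        simp only [Complex.add_re, Complex.add_im, Complex.neg_re, Complex.neg_im, Pil1_re2,
          Pil1_im2] <;> push_cast <;> linarith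
    rcases d.eq_or_lt with d | d
    · refine ⟨(0, -1), Or.inl (Or.inr (key _ (Pil1_pn hy _).1 ?_ ?_ ?_ ?_))⟩ <;>
        simp only [Complex.add_re, Complex.add_im, Pil1_re2, Pil1_im2] <;> push_cast <;> linarith
    · refine ⟨(0, 0), Or.inl (Or.inl (Pil1_memQ.2 ⟨?_, ?_, ?_, ?_⟩))⟩ <;>
        simp only [Complex.add_re, Complex.add_im, Pil1_re2, Pil1_im2] <;> push_cast <;> linarith
  have hf : ∀ a : ℝ, ∃ k : ℤ, -1 ≤ a + 2 * k ∧ a + 2 * k ≤ 1 := fun a => by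
    have h1 := Int.floor_le ((1 - a) / 2)
    have h2 := Int.lt_floor_add_one ((1 - a) / 2)
    exact ⟨⌊(1 - a) / 2⌋, by linarith, by linarith⟩
  obtain ⟨k, k1, k2⟩ := hf x.re
  obtain ⟨l, l1, l2⟩ := hf x.im
  have hg : ∀ m n : ℤ × ℤ, gi (m + n) = gi m + gi n := fun m n => by
    apply Complex.ext <;> simp [gi]
  have hn : ∀ m : ℤ × ℤ, gi (-m) = -gi m := fun m => by
    apply Complex.ext <;> simp [gi]
  rcases le_total 0 (x.re + 2 * k) with h | h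
  · obtain ⟨m, hm⟩ := key2 _ (Pil1_pn hx (k, l)).1
      (by simpa only [Complex.add_re, Pil1_re2] using h)
      (by simpa only [Complex.add_re, Pil1_re2] using k2)
      (by simpa only [Complex.add_im, Pil1_im2] using l1)
      (by simpa only [Complex.add_im, Pil1_im2] using l2)
    rcases hm with hm | hm
    · exact ⟨(k, l) + m, Or.inl (by rwa [hg, mul_add, ← add_assoc])⟩
    · exact ⟨-(k, l) + m, Or.inr (by rwa [hg, hn, mul_add, ← add_assoc, mul_neg, ← neg_add])⟩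
  · obtain ⟨m, hm⟩ := key2 _ (Pil1_pn hx (-k, -l)).2
      (by simp only [Complex.add_re, Complex.neg_re, Pil1_re2]; push_cast; linarith)
      (by simp only [Complex.add_re, Complex.neg_re, Pil1_re2]; push_cast; linarith)
      (by simp only [Complex.add_im, Complex.neg_im, Pil1_im2]; push_cast; linarith)
      (by simp only [Complex.add_im, Complex.neg_im, Pil1_im2]; push_cast; linarith)
    rcases hm with hm | hm
    · exact ⟨(-k, -l) + m, Or.inr (by rwa [hg, mul_add, ← add_assoc])⟩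
    · refine ⟨-(-k, -l) + m, Or.inl ?_⟩
      rw [neg_add, neg_neg] at hm
      rwa [hg, hn, mul_add, ← add_assoc, mul_neg]

section fam

variable {X : Type} [TopologicalSpace X] {W : Type} [NormedAddCommGroup W] [NormedSpace ℝ W]
  {F : ℂ × W → X} {P : Set W} {j : W → W} {V : I4 → Set X} {Tb : Set (ℂ × W)}

/-- A sector of a tube. -/
def Pil1Tube (P : Set W) (Tb : Set (ℂ × W)) (S : Set ℂ) (z : ℂ) : Set (ℂ × W) :=
  {p | p ∈ S ×ˢ P ∧ (p.1 - z, p.2) ∈ Tb}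

theorem Pil1_meet (h : Pil F P j V Tb) {S K : Set ℂ} {z : ℂ} (hK : K ⊆ S) (hz : z ∈ closure K) :
    (K ×ˢ P ∩ Pil1Tube P Tb S z).Nonempty := by
  obtain ⟨r, hr, hb⟩ := h.big
  obtain ⟨w, hw⟩ := h.ne
  obtain ⟨x, hx, hd⟩ := Metric.mem_closure_iff.1 hz r hr
  exact ⟨(x, w), ⟨hx, hw⟩, ⟨hK hx, hw⟩, hb _ _ hw (by rwa [← dist_eq_norm, dist_comm])⟩

theorem Pil1_tube (h : Pil F P j V Tb) {S : Set ℂ} (hS : Convex ℝ S) (ho : IsOpen S) {z : ℂ}
    (hz : z ∈ closure S) : IsPathConnected (Pil1Tube P Tb S z) := by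
  obtain ⟨r, hr, hb⟩ := h.big
  obtain ⟨w0, hw0⟩ := h.ne
  obtain ⟨x0, hx0, hd0⟩ := Metric.mem_closure_iff.1 hz r hr
  have hB : Convex ℝ ((S ∩ Metric.ball z r) ×ˢ P) := (hS.inter (convex_ball z r)).prod h.conv
  have hsub : (S ∩ Metric.ball z r) ×ˢ P ⊆ Pil1Tube P Tb S z := fun p hp =>
    ⟨⟨hp.1.1, hp.2⟩, hb _ _ hp.2 (mem_ball_iff_norm.1 hp.1.2)⟩
  have h0 : (x0, w0) ∈ (S ∩ Metric.ball z r) ×ˢ P := ⟨⟨hx0, Metric.mem_ball'.2 hd0⟩, hw0⟩
  refine ⟨(x0, w0), hsub h0, ?_⟩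
  rintro ⟨x, w⟩ hp
  have hx : x ∈ interior S := ho.interior_eq.symm ▸ hp.1.1
  have hin : ∀ t ∈ Ioc (0 : ℝ) 1, (z + t • (x - z), w) ∈ Pil1Tube P Tb S z := fun t ht =>
    ⟨⟨interior_subset (hS.add_smul_sub_mem_interior' hz hx ht), hp.1.2⟩, by
      have := h.star _ hp.2 t ⟨ht.1.le, ht.2⟩
      simpa only [add_sub_cancel_left, Complex.real_smul] using this⟩
  have hs : min 1 r ∈ Ioc (0 : ℝ) 1 := ⟨lt_min one_pos hr, min_le_left _ _⟩
  have hq : (z + min 1 r • (x - z), w) ∈ (S ∩ Metric.ball z r) ×ˢ P := by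
    refine ⟨⟨(hin _ hs).1.1, ?_⟩, hp.1.2⟩
    rw [mem_ball_iff_norm, add_sub_cancel_left, norm_smul, Real.norm_of_nonneg hs.1.le]
    have h1 : ‖x - z‖ < 1 / 4 := h.small _ hp.2
    have h2 := min_le_right 1 r
    nlinarith [hs.1, norm_nonneg (x - z)]
  refine (((hB.isPathConnected ⟨_, h0⟩).joinedIn _ h0 _ hq).mono hsub).trans
    (JoinedIn.of_segment_subset ?_)
  rintro _ ⟨a, b, ha, hb', hab, rfl⟩
  have e : a • (z + min 1 r • (x - z), w) + b • (x, w) = (z + (a * min 1 r + b) • (x - z), w) := by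
    obtain rfl : a = 1 - b := eq_sub_of_add_eq hab
    refine Prod.ext ?_ ?_
    · simp only [Prod.smul_mk, Prod.mk_add_mk, Complex.real_smul]
      push_cast
      ring
    · simp only [Prod.smul_mk, Prod.mk_add_mk]
      rw [← add_smul, hab, one_smul]
  rw [e]
  refine hin _ ⟨?_, by nlinarith [hs.2]⟩
  rcases hb'.eq_or_lt with hb0 | hb0
  · rw [← hb0, add_zero] at hab
    rw [← hb0, hab, one_mul, add_zero]
    exact hs.1
  · exact add_pos_of_nonneg_of_pos (mul_nonneg ha hs.1.le) hb0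

theorem Pil1_memF (h : Pil F P j V Tb) {S : Set ℂ} (hS : S ⊆ Pn) {p : ℂ × W} (hp : p ∈ Pn ×ˢ P) :
    F p ∈ F '' (S ×ˢ P) ↔ ∃ m, p.1 + 2 * gi m ∈ S ∨ -p.1 + 2 * gi m ∈ S := by
  constructor
  · rintro ⟨q, hq, e⟩
    obtain ⟨m, hm | hm⟩ := (h.eq p hp q ⟨hS hq.1, hq.2⟩).1 e.symm
    · exact ⟨m, Or.inl (by simpa only [hm] using hq.1)⟩
    · exact ⟨m, Or.inr (by simpa only [hm] using hq.1)⟩
  · rintro ⟨m, hm | hm⟩
    · exact ⟨(p.1 + 2 * gi m, p.2), ⟨hm, hp.2⟩,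
        ((h.eq p hp (p.1 + 2 * gi m, p.2) ⟨hS hm, hp.2⟩).2 ⟨m, Or.inl rfl⟩).symm⟩
    · exact ⟨(-p.1 + 2 * gi m, j p.2), ⟨hm, h.jm hp.2⟩,
        ((h.eq p hp (-p.1 + 2 * gi m, j p.2) ⟨hS hm, h.jm hp.2⟩).2 ⟨m, Or.inr rfl⟩).symm⟩

theorem Pil1_null (h : Pil F P j V Tb) {S : Set ℂ} (hS : S ⊆ Pn) (hc : Convex ℝ S) (ho : IsOpen S)
    (hne : S.Nonempty)
    (hi : ∀ x ∈ S, ∀ m, (x + 2 * gi m ∈ S → m = 0) ∧ -x + 2 * gi m ∉ S) : Null (F '' (S ×ˢ P)) := by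
  obtain ⟨x, hx⟩ := hne
  obtain ⟨w, hw⟩ := h.ne
  have hsub : S ×ˢ P ⊆ Pn ×ˢ P := prod_mono hS subset_rfl
  have hx' : (x, w) ∈ S ×ˢ P := ⟨hx, hw⟩
  refine null_star hx' ((hc.prod h.conv).starConvex hx')
    (emb_of_loc (ho.prod h.opn) (h.loc.mono hsub) fun p hp q hq e => ?_)
    (isOpen_image_of_loc h.loc (ho.prod h.opn) hsub)
  obtain ⟨m, hm | hm⟩ := (h.eq p (hsub hp) q (hsub hq)).1 e
  · have h0 := (hi _ hp.1 m).1 (by simpa only [hm] using hq.1)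
    rw [hm, h0, Pil1_zero, mul_zero, add_zero]
  · exact absurd (by simpa only [hm] using hq.1) (hi _ hp.1 m).2

theorem Pil1_nullQ (h : Pil F P j V Tb) : Null (F '' (Pil1Q ×ˢ P)) := by
  refine Pil1_null h Pil1_Q_sub Pil1_convQ Pil1_opnQ
    ⟨⟨1 / 2, 1 / 2⟩, Pil1_memQ.2 (by norm_num)⟩ fun x hx m => ⟨fun hm => ?_, fun hm => ?_⟩
  all_goals
    rw [Pil1_memQ] at hx hm
    simp only [Complex.add_re, Complex.add_im, Complex.neg_re, Complex.neg_im, Pil1_re2,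
      Pil1_im2] at hm
    obtain ⟨a, b, c, d⟩ := hx
    obtain ⟨a', b', c', d'⟩ := hm
  · have h1 : -1 < 2 * m.1 := Pil1_lt (by push_cast; linarith)
    have h2 : 2 * m.1 < 1 := Pil1_lt (by push_cast; linarith)
    have h3 : -1 < 2 * m.2 := Pil1_lt (by push_cast; linarith)
    have h4 : 2 * m.2 < 1 := Pil1_lt (by push_cast; linarith)
    exact Prod.ext (by change m.1 = 0; omega) (by change m.2 = 0; omega)
  · have h1 : 0 < m.1 := Pil1_lt (by push_cast; linarith)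
    have h2 : m.1 < 1 := Pil1_lt (by push_cast; linarith)
    omega

theorem Pil1_nullH (h : Pil F P j V Tb) : Null (F '' (Pil1H ×ˢ P)) := by
  refine Pil1_null h Pil1_H_sub Pil1_convH Pil1_opnH
    ⟨⟨1 / 2, -1 / 2⟩, Pil1_memH.2 (by norm_num)⟩ fun x hx m => ⟨fun hm => ?_, fun hm => ?_⟩
  all_goals
    rw [Pil1_memH] at hx hm
    simp only [Complex.add_re, Complex.add_im, Complex.neg_re, Complex.neg_im, Pil1_re2,
      Pil1_im2] at hm
    obtain ⟨a, b, c, d⟩ := hx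
    obtain ⟨a', b', c', d'⟩ := hm
  · have h1 : -1 < m.1 + m.2 := Pil1_lt (by push_cast; linarith)
    have h2 : m.1 + m.2 < 1 := Pil1_lt (by push_cast; linarith)
    have h3 : -1 < m.1 - m.2 := Pil1_lt (by push_cast; linarith)
    have h4 : m.1 - m.2 < 1 := Pil1_lt (by push_cast; linarith)
    exact Prod.ext (by change m.1 = 0; omega) (by change m.2 = 0; omega)
  · have h1 : -1 < m.1 + m.2 := Pil1_lt (by push_cast; linarith)
    have h2 : m.1 + m.2 < 1 := Pil1_lt (by push_cast; linarith)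
    have h3 : 0 < m.1 - m.2 := Pil1_lt (by push_cast; linarith)
    have h4 : m.1 - m.2 < 2 := Pil1_lt (by push_cast; linarith)
    omega

theorem Pil1_small (h : Pil F P j V Tb) {x : ℂ} {w : W} (hx : (x, w) ∈ Tb) :
    -(1 / 4) < x.re ∧ x.re < 1 / 4 ∧ -(1 / 4) < x.im ∧ x.im < 1 / 4 := by
  have h1 := abs_lt.1 ((Complex.abs_re_le_norm x).trans_lt (h.small _ hx))
  have h2 := abs_lt.1 ((Complex.abs_im_le_norm x).trans_lt (h.small _ hx))
  exact ⟨h1.1, h1.2, h2.1, h2.2⟩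

theorem Pil1_rep (c : I4) : (0 ≤ (rep c).1 ∧ (rep c).1 ≤ 1) ∧ 0 ≤ (rep c).2 ∧ (rep c).2 ≤ 1 := by
  revert c
  decide

theorem Pil1_QV (h : Pil F P j V Tb) (c : I4) : IsPathConnected (F '' (Pil1Q ×ˢ P) ∩ V c) := by
  have hsub : Pil1Q ×ˢ P ⊆ Pn ×ˢ P := prod_mono Pil1_Q_sub subset_rfl
  obtain ⟨⟨r1, r2⟩, r3, r4⟩ := Pil1_rep c
  have e : F '' (Pil1Q ×ˢ P) ∩ V c = F '' Pil1Tube P Tb Pil1Q (gi (rep c)) := by
    ext y
    constructor
    · rintro ⟨⟨p, hp, rfl⟩, hy⟩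
      obtain ⟨m, hm⟩ := (h.mem c p (hsub hp)).1 hy
      obtain ⟨a, b, c', d⟩ := Pil1_memQ.1 hp.1
      obtain ⟨a', b', c'', d'⟩ := Pil1_small h hm
      simp only [Complex.sub_re, Complex.sub_im, Pil1_re2, Pil1_im2, Pil1_re, Pil1_im]
        at a' b' c'' d'
      have h1 : -1 < (rep c).1 + 2 * m.1 := Pil1_lt (by push_cast; linarith)
      have h2 : (rep c).1 + 2 * m.1 < 2 := Pil1_lt (by push_cast; linarith)
      have h3 : -1 < (rep c).2 + 2 * m.2 := Pil1_lt (by push_cast; linarith)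
      have h4 : (rep c).2 + 2 * m.2 < 2 := Pil1_lt (by push_cast; linarith)
      have h5 : m = 0 := Prod.ext (by change m.1 = 0; omega) (by change m.2 = 0; omega)
      rw [h5, Pil1_zero, mul_zero, sub_zero] at hm
      exact ⟨p, ⟨hp, hm⟩, rfl⟩
    · rintro ⟨p, hp, rfl⟩
      exact ⟨⟨p, hp.1, rfl⟩, (h.mem c p (hsub hp.1)).2 ⟨0, by
        rw [Pil1_zero, mul_zero, sub_zero]; exact hp.2⟩⟩
  rw [e]
  refine (Pil1_tube h Pil1_convQ Pil1_opnQ ?_).image' (h.loc.continuousOn.mono fun p hp => hsub hp.1)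
  refine Pil1_cl (⟨1 / 2, 1 / 2⟩ - gi (rep c)) fun t h1 h2 => ?_
  rw [Pil1_memQ]
  simp only [Complex.add_re, Complex.add_im, Complex.real_smul, Complex.re_ofReal_mul,
    Complex.im_ofReal_mul, Complex.sub_re, Complex.sub_im, Pil1_re, Pil1_im]
  have s1 : (0 : ℝ) ≤ (rep c).1 := by exact_mod_cast r1
  have s2 : ((rep c).1 : ℝ) ≤ 1 := by exact_mod_cast r2
  have s3 : (0 : ℝ) ≤ (rep c).2 := by exact_mod_cast r3
  have s4 : ((rep c).2 : ℝ) ≤ 1 := by exact_mod_cast r4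
  refine ⟨?_, ?_, ?_, ?_⟩ <;> nlinarith

theorem Pil1_first (h : Pil F P j V Tb) (s : Finset I4) :
    Null (F '' (Pil1Q ×ˢ P) ∪ ⋃ c ∈ s, V c) := by
  induction s using Finset.induction_on with
  | empty => simpa using Pil1_nullQ h
  | insert c s hc ih =>
    rw [Finset.set_biUnion_insert, union_comm (V c), ← union_assoc]
    refine ih.union (h.null c) ?_
    have e : (⋃ c ∈ s, V c) ∩ V c = ∅ := by
      refine Disjoint.inter_eq (disjoint_iUnion₂_left.2 fun c' hc' => h.disj ?_)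
      rintro rfl
      exact hc hc'
    rw [union_inter_distrib_right, e, union_empty]
    exact Pil1_QV h c

theorem Pil1_memV (h : Pil F P j V Tb) {p : ℂ × W} (hp : p ∈ Pn ×ˢ P) :
    F p ∈ ⋃ c, V c ↔ ∃ n, (p.1 - gi n, p.2) ∈ Tb := by
  have e : ∀ (c : I4) (m : ℤ × ℤ), p.1 - gi (rep c) - 2 * gi m = p.1 - gi (rep c + 2 * m) :=
    fun c m => by apply Complex.ext <;> simp [gi] <;> ring
  simp only [mem_iUnion, h.mem _ p hp, e]
  refine ⟨fun ⟨c, m, hm⟩ => ⟨_, hm⟩, fun ⟨n, hn⟩ => ?_⟩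
  have h1 : ∀ a : ℤ, ∃ (i : Fin 2) (k : ℤ), a = ((i : ℕ) : ℤ) + 2 * k := fun a => by
    rcases Int.emod_two_eq_zero_or_one a with h | h
    · exact ⟨0, a / 2, by simp only [Fin.val_zero]; omega⟩
    · exact ⟨1, a / 2, by simp only [Fin.val_one]; omega⟩
  obtain ⟨i, k, hk⟩ := h1 n.1
  obtain ⟨i', k', hk'⟩ := h1 n.2
  have h2 : rep (i, i') + 2 * (k, k') = n := Prod.ext hk.symm hk'.symm
  exact ⟨(i, i'), (k, k'), by rwa [h2]⟩

theorem Pil1_last (h : Pil F P j V Tb) :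
    IsPathConnected ((F '' (Pil1Q ×ˢ P) ∪ ⋃ c, V c) ∩ F '' (Pil1H ×ˢ P)) := by
  have hsub : Pil1H ×ˢ P ⊆ Pn ×ˢ P := prod_mono Pil1_H_sub subset_rfl
  have c1 : gi (0, 0) ∈ closure (Pil1H ∩ Pil1Hs 0 1 0) :=
    Pil1_clT _ _ _ _ (2, 1) fun t a b => by
      push_cast; exact ⟨⟨by linarith, by linarith, by linarith, by linarith⟩, by linarith⟩
  have c2 : gi (1, 0) ∈ closure (Pil1H ∩ Pil1Hs 0 1 0) :=
    Pil1_clT _ _ _ _ (-2, 1) fun t a b => by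
      push_cast; exact ⟨⟨by linarith, by linarith, by linarith, by linarith⟩, by linarith⟩
  have c3 : gi (1, 0) ∈ closure (Pil1H ∩ Pil1Hs 1 0 1) :=
    Pil1_clT _ _ _ _ (1, -2) fun t a b => by
      push_cast; exact ⟨⟨by linarith, by linarith, by linarith, by linarith⟩, by linarith⟩
  have c4 : gi (1, -1) ∈ closure (Pil1H ∩ Pil1Hs 1 0 1) :=
    Pil1_clT _ _ _ _ (1, 2) fun t a b => by
      push_cast; exact ⟨⟨by linarith, by linarith, by linarith, by linarith⟩, by linarith⟩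
  have c5 : gi (1, -1) ∈ closure (Pil1H ∩ Pil1Hs 0 (-1) 1) :=
    Pil1_clT _ _ _ _ (-2, -1) fun t a b => by
      push_cast; exact ⟨⟨by linarith, by linarith, by linarith, by linarith⟩, by linarith⟩
  have c6 : gi (0, -1) ∈ closure (Pil1H ∩ Pil1Hs 0 (-1) 1) :=
    Pil1_clT _ _ _ _ (2, -1) fun t a b => by
      push_cast; exact ⟨⟨by linarith, by linarith, by linarith, by linarith⟩, by linarith⟩
  have c7 : gi (0, -1) ∈ closure (Pil1H ∩ Pil1Hs (-1) 0 0) :=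
    Pil1_clT _ _ _ _ (-1, 2) fun t a b => by
      push_cast; exact ⟨⟨by linarith, by linarith, by linarith, by linarith⟩, by linarith⟩
  have m : ∀ {α β γ : ℝ} {z : ℂ}, z ∈ closure (Pil1H ∩ Pil1Hs α β γ) →
      ((Pil1H ∩ Pil1Hs α β γ) ×ˢ P ∩ Pil1Tube P Tb Pil1H z).Nonempty := fun hz =>
    Pil1_meet h inter_subset_left hz
  have t : ∀ {α β γ : ℝ} {z : ℂ}, z ∈ closure (Pil1H ∩ Pil1Hs α β γ) →
      IsPathConnected (Pil1Tube P Tb Pil1H z) := fun hz =>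
    Pil1_tube h Pil1_convH Pil1_opnH (closure_mono inter_subset_left hz)
  have k : ∀ {α β γ : ℝ} {z : ℂ}, z ∈ closure (Pil1H ∩ Pil1Hs α β γ) →
      IsPathConnected ((Pil1H ∩ Pil1Hs α β γ) ×ˢ P) := fun hz =>
    ((Pil1_convH.inter (Pil1_hs_conv _ _ _)).prod h.conv).isPathConnected
      ((m hz).mono inter_subset_left)
  have u : ∀ {A B C : Set (ℂ × W)}, IsPathConnected (A ∪ B) → IsPathConnected C →
      (B ∩ C).Nonempty → IsPathConnected (A ∪ B ∪ C) := fun h1 h2 h3 =>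
    h1.union h2 (h3.mono (inter_subset_inter_left _ subset_union_right))
  have hC := u (u (u (u (u (u ((t c1).union (k c1) (inter_comm _ _ ▸ m c1)) (t c2) (m c2))
    (k c3) (inter_comm _ _ ▸ m c3)) (t c4) (m c4)) (k c5) (inter_comm _ _ ▸ m c5)) (t c6) (m c6))
    (k c7) (inter_comm _ _ ▸ m c7)
  have hH : ∀ p ∈ Pil1H ×ˢ P, F p ∈ F '' (Pil1Q ×ˢ P) ↔
      0 < p.1.im ∨ 1 < p.1.re ∨ p.1.im < -1 ∨ p.1.re < 0 := fun p hp => by
    obtain ⟨a, b, c, d⟩ := Pil1_memH.1 hp.1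
    rw [Pil1_memF h Pil1_Q_sub (hsub hp)]
    simp only [Pil1_memQ, Complex.add_re, Complex.add_im, Complex.neg_re, Complex.neg_im, Pil1_re2,
      Pil1_im2]
    constructor
    · rintro ⟨n, hn⟩
      by_contra hne
      simp only [not_or, not_lt] at hne
      obtain ⟨e1, e2, e3, e4⟩ := hne
      rcases hn with ⟨a', b', c', d'⟩ | ⟨a', b', c', d'⟩
      · have h1 : 0 < n.2 := Pil1_lt (by push_cast; linarith)
        have h2 : n.2 < 1 := Pil1_lt (by push_cast; linarith)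
        omega
      · have h1 : 0 < n.1 := Pil1_lt (by push_cast; linarith)
        have h2 : n.1 < 1 := Pil1_lt (by push_cast; linarith)
        omega
    · rintro (e | e | e | e)
      · refine ⟨(0, 0), Or.inl ⟨?_, ?_, ?_, ?_⟩⟩ <;> push_cast <;> linarith
      · refine ⟨(1, 0), Or.inr ⟨?_, ?_, ?_, ?_⟩⟩ <;> push_cast <;> linarith
      · refine ⟨(0, 1), Or.inl ⟨?_, ?_, ?_, ?_⟩⟩ <;> push_cast <;> linarith
      · refine ⟨(0, 0), Or.inr ⟨?_, ?_, ?_, ?_⟩⟩ <;> push_cast <;> linarith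
  have hV : ∀ p ∈ Pil1H ×ˢ P, F p ∈ ⋃ c, V c ↔
      (p.1 - gi (0, 0), p.2) ∈ Tb ∨ (p.1 - gi (1, 0), p.2) ∈ Tb ∨
        (p.1 - gi (1, -1), p.2) ∈ Tb ∨ (p.1 - gi (0, -1), p.2) ∈ Tb := fun p hp => by
    obtain ⟨a, b, c, d⟩ := Pil1_memH.1 hp.1
    rw [Pil1_memV h (hsub hp)]
    refine ⟨fun ⟨n, hn⟩ => ?_, by rintro (e | e | e | e) <;> exact ⟨_, e⟩⟩
    obtain ⟨a', b', c', d'⟩ := Pil1_small h hn
    simp only [Complex.sub_re, Complex.sub_im, Pil1_re, Pil1_im] at a' b' c' d'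
    have h1 : -2 < n.1 + n.2 := Pil1_lt (by push_cast; linarith)
    have h2 : n.1 + n.2 < 2 := Pil1_lt (by push_cast; linarith)
    have h3 : -1 < n.1 - n.2 := Pil1_lt (by push_cast; linarith)
    have h4 : n.1 - n.2 < 3 := Pil1_lt (by push_cast; linarith)
    have h5 : n = (0, 0) ∨ n = (1, 0) ∨ n = (1, -1) ∨ n = (0, -1) := by
      simp only [Prod.ext_iff]
      omega
    rcases h5 with rfl | rfl | rfl | rfl <;> simp only [hn, true_or, or_true]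
  have hiff : ∀ p, p ∈ Pil1Tube P Tb Pil1H (gi (0, 0)) ∪ (Pil1H ∩ Pil1Hs 0 1 0) ×ˢ P ∪
      Pil1Tube P Tb Pil1H (gi (1, 0)) ∪ (Pil1H ∩ Pil1Hs 1 0 1) ×ˢ P ∪
      Pil1Tube P Tb Pil1H (gi (1, -1)) ∪ (Pil1H ∩ Pil1Hs 0 (-1) 1) ×ˢ P ∪
      Pil1Tube P Tb Pil1H (gi (0, -1)) ∪ (Pil1H ∩ Pil1Hs (-1) 0 0) ×ˢ P ↔
      p ∈ Pil1H ×ˢ P ∧ F p ∈ F '' (Pil1Q ×ˢ P) ∪ ⋃ c, V c := fun p => by
    by_cases hp : p ∈ Pil1H ×ˢ P
    · rw [mem_union (F p), hH p hp, hV p hp]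
      simp only [mem_union, Pil1Tube, mem_ofPred_eq, mem_prod, mem_inter_iff, hp.1, hp.2, true_and,
        and_true, Pil1Hs, zero_mul, one_mul, zero_add, add_zero, neg_mul, lt_neg, neg_pos]
      tauto
    · simp only [mem_union, Pil1Tube, mem_ofPred_eq, hp, false_and, false_or, or_false, iff_false,
        not_or]
      exact ⟨⟨⟨fun e => hp ⟨e.1.1, e.2⟩, fun e => hp ⟨e.1.1, e.2⟩⟩, fun e => hp ⟨e.1.1, e.2⟩⟩,
        fun e => hp ⟨e.1.1, e.2⟩⟩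
  have h2 := hC.image' (h.loc.continuousOn.mono fun p hp => hsub ((hiff p).1 hp).1)
  convert h2 using 1
  ext y
  constructor
  · rintro ⟨hy, p, hp, rfl⟩
    exact ⟨p, (hiff p).2 ⟨hp, hy⟩, rfl⟩
  · rintro ⟨p, hp, rfl⟩
    exact ⟨((hiff p).1 hp).2, p, ((hiff p).1 hp).1, rfl⟩

end fam

theorem Pil.null_union {X : Type} [TopologicalSpace X] {W : Type} [NormedAddCommGroup W]
    [NormedSpace ℝ W] {F : ℂ × W → X} {P : Set W} {j : W → W} {V : I4 → Set X} {Tb : Set (ℂ × W)}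
    (h : Pil F P j V Tb) : Null ((⋃ c, V c) ∪ F '' (Pn ×ˢ P)) := by
  have h1 := Pil1_first h Finset.univ
  simp only [Finset.mem_univ, iUnion_true] at h1
  have h2 := h1.union (Pil1_nullH h) (Pil1_last h)
  have e : F '' (Pn ×ˢ P) = F '' (Pil1Q ×ˢ P) ∪ F '' (Pil1H ×ˢ P) := by
    rw [← image_union, ← union_prod]
    have hs : Pil1Q ∪ Pil1H ⊆ Pn := union_subset Pil1_Q_sub Pil1_H_sub
    refine subset_antisymm ?_ (image_mono (prod_mono hs subset_rfl))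
    rintro _ ⟨p, hp, rfl⟩
    exact (Pil1_memF h hs hp).2 (Pil1_cover hp.1)
  rwa [e, ← union_assoc, union_comm (⋃ c, V c)]

end HK3
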