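import Pool.Agent.P.MP_9699e0_gt.Sets
import Pool.Agent.P.MP_9699e0_gt.Pil1

/-! Loops near the singular fibres. -/

set_option autoImplicit false
set_option linter.unusedSectionVars false

noncomputable section

namespace HK3

open Pool.Agent.P.MP_9699e0_gt Set Filter Topology
open scoped ContDiff

variable {n : ℕ}

theorem emb_f3 (hn : Odd n) (i c : I4) : Emb (f3 n i c) W3 :=
  emb_of_loc (md_opn n (.a i c)) (loc3 hn i c) fun _ hp _ hp' e => (f33 hn hp hp' e).2.2

theorem emb_f4 (hn : Odd n) (i c : I4) : Emb (f4 n i c) W4 :=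
  emb_of_loc (md_opn n (.b i c)) (loc4 hn i c) fun _ hp _ hp' e => (f44 hn hp hp' e).2.2

theorem PiN_conn : IsPathConnected {p : E | p ∈ W3 ∧ p.2 ≠ 0} := by
  have h0 : ∀ z : ℂ, z ≠ 0 → ((0, z) : E) ∈ {p : E | p ∈ W3 ∧ p.2 ≠ 0} := fun z hz =>
    ⟨by constructor <;> simp [ρ], hz⟩
  have h1 : IsPathConnected ((fun z : ℂ => ((0, z) : E)) '' {0}ᶜ) :=
    (isPathConnected_compl_singleton_of_one_lt_rank
      (by rw [Complex.rank_real_complex]; exact Nat.one_lt_ofNat) (0 : ℂ)).image (by fun_prop)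
  have h2 : (fun z : ℂ => ((0, z) : E)) '' {0}ᶜ ⊆ {p : E | p ∈ W3 ∧ p.2 ≠ 0} := by
    rintro _ ⟨z, hz, rfl⟩
    exact h0 z hz
  refine ⟨(0, 1), h0 1 one_ne_zero, fun p hp => ?_⟩
  refine ((h1.joinedIn (0, 1) ⟨1, one_ne_zero, rfl⟩ (0, p.2) ⟨p.2, hp.2, rfl⟩).mono h2).trans ?_
  refine JoinedIn.ofLine (f := fun t : ℝ => ((t • p.1, p.2) : E)) (by fun_prop) (by simp)
    (by simp) ?_
  rintro _ ⟨t, ht, rfl⟩
  have h3 := ArrB_smul ht.1 ht.2 p.1
  refine ⟨⟨h3.trans_lt hp.1.1, lt_of_le_of_lt ?_ hp.1.2⟩, hp.2⟩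
  change ‖t • p.1‖ * ‖p.2‖ ^ 2 ≤ _
  gcongr

theorem null_Ec (hn : Odd n) (i c : I4) : Null (Ec n i c) := by
  refine (null_star star_W3.2 star_W3.1 (emb_f3 hn i c)
    (isOpen_image_of_loc (loc3 hn i c) (md_opn n (.a i c)) subset_rfl)).union
    (null_star star_W4.2 star_W4.1 (emb_f4 hn i c)
      (isOpen_image_of_loc (loc4 hn i c) (md_opn n (.b i c)) subset_rfl)) ?_
  rw [f3_inter_f4 hn]
  exact PiN_conn.image' ((emb_f3 hn i c).1.mono fun p hp => hp.1)

theorem null_Nb (hn : Odd n) (i : I4) : Null (Nb n i) := by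
  have hsub : Pn ×ˢ Metric.ball (0 : ℂ) ρ ⊆ W2 := fun p hp =>
    ⟨mem_ball_zero_iff.1 hp.2, fun _ => hp.1⟩
  have hP : Pil (f2 n i) (Metric.ball (0 : ℂ) ρ) Neg.neg (fun c => Ec n i c)
      {p : ℂ × ℂ | ‖p.1‖ < ρ} :=
    { opn := Metric.isOpen_ball
      conv := convex_ball _ _
      ne := ⟨0, Metric.mem_ball_self ρ_pos⟩
      loc := (loc2 hn i).mono hsub
      jm := fun w hw => by simpa using hw
      eq := fun p hp q hq => by
        rw [f22 hn (hsub hp) (hsub hq)]
        constructor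
        · rintro ⟨-, e, m, rfl⟩
          refine ⟨m, ?_⟩
          unfold trn
          rcases sg_cases e with h | h
          · left
            rw [h.1]
            simp
          · right
            rw [h.1]
            simp
        · rintro ⟨m, rfl | rfl⟩
          · refine ⟨rfl, 0, m, ?_⟩
            unfold trn
            rw [sg_zero]
            simp
          · refine ⟨rfl, 1, m, ?_⟩
            unfold trn
            rw [sg_one]
            simp
      null := null_Ec hn i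
      disj := fun c c' h =>
        disj_Ec hn (j := (i, c)) (j' := (i, c')) fun e => h (Prod.ext_iff.1 e).2
      mem := fun c p hp => f2_mem_Ec_iff hn i c (hsub hp)
      big := ⟨ρ, ρ_pos, fun _ _ _ h => h⟩
      small := fun p hp => lt_trans hp (by norm_num [ρ])
      star := fun p hp s hs => lt_of_le_of_lt (ArrB_smul hs.1 hs.2 p.1) hp }
  have e : Nb n i = (⋃ c, Ec n i c) ∪ f2 n i '' (Pn ×ˢ Metric.ball (0 : ℂ) ρ) := by
    refine Subset.antisymm ?_ ?_
    · rintro x (⟨α, hα, rfl⟩ | hx)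
      · by_cases h : α.1 ∈ Pn
        · exact Or.inr ⟨α, ⟨h, mem_ball_zero_iff.2 hα.1⟩, rfl⟩
        · obtain ⟨m, hm⟩ : ∃ m, α.1 = gi m := by
            by_contra h'
            exact h fun m e => h' ⟨m, e⟩
          obtain ⟨c, m', rfl⟩ := exists_rep m
          refine Or.inl (mem_iUnion.2 ⟨c, (f2_mem_Ec_iff hn i c hα).2 ⟨m', ?_⟩⟩)
          rw [hm, gi_add, gi_two, add_sub_cancel_left, sub_self, norm_zero]
          exact ρ_pos
      · exact Or.inl hx
    · rintro x (hx | ⟨α, hα, rfl⟩)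
      · exact Or.inr hx
      · exact Or.inl ⟨α, hsub hα, rfl⟩
  rw [e]
  exact hP.null_union

end HK3
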