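import Pool.Agent.P.MP_9699e0_gt.PiN
import Pool.Agent.P.MP_9699e0_gt.MDefs2

/-! Loops in a slab. -/

set_option autoImplicit false
set_option linter.unusedSectionVars false

noncomputable section

namespace HK3

open Pool.Agent.P.MP_9699e0_gt Set Filter Topology
open scoped ContDiff

variable {n : ℕ}

theorem PiX1_lat (k : ℤ) {t s : ℝ} (h : s = t + 2 * k) (m : ℤ × ℤ) :
    ∃ m', β t m = β s (m + 2 • m') := by
  obtain ⟨m', hm⟩ := β_shift (2 * k) t m
  have h1 : cj (2 * k) (β t m) = β t m := by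
    have h2 : sg (2 * k) = 1 := by
      rcases sg_cases (2 * k) with h3 | h3
      · exact h3.1
      · exact absurd h3.2 (Int.not_odd_iff_even.2 (even_two_mul k))
    unfold cj
    rw [h2, one_mul]
  rw [h1] at hm
  refine ⟨m', ?_⟩
  rw [hm, h]
  push_cast
  rfl

theorem PiX1_down (k : ℤ) (t : ℝ) (m : ℤ × ℤ) : ∃ m', β t m = β (t - 2 * k) (m + 2 • m') :=
  PiX1_lat (-k) (by push_cast; ring) m

theorem PiX1_up (k : ℤ) (t : ℝ) (m : ℤ × ℤ) : ∃ m', β (t - 2 * k) m = β t (m + 2 • m') :=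
  PiX1_lat k (by ring) m

theorem PiX1_inj {s : ℝ} {x y : ℂ} (h : Bm s x = Bm s y) : x = y := by
  rw [← Bi_Bm s x, h, Bi_Bm]

theorem PiX1_W0 (k : ℤ) (x v : ℂ) : ((Bm (v.im - 2 * k) x, v) : E) ∈ W0 ↔ x ∈ Pn := by
  constructor
  · intro h m e
    obtain ⟨m', hm⟩ := PiX1_up k v.im m
    refine h (m + 2 • m') ?_
    change Bm (v.im - 2 * k) x = β v.im (m + 2 • m')
    rw [← hm, e]
    rfl
  · intro h m e
    obtain ⟨m', hm⟩ := PiX1_down k v.im m
    exact h (m + 2 • m') (PiX1_inj (e.trans hm))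

theorem PiX1_key (s : ℝ) (e : ℤ) (m : ℤ × ℤ) (x : ℂ) :
    Bm s (sg e * x + 2 * gi m) = sg e * Bm s x + 2 * β s m := by
  rw [Bm_add, Bm_mul, ← gi_two, ← β_two]
  rfl

theorem PiX1_sub (s : ℝ) (a m : ℤ × ℤ) (x : ℂ) :
    Bm s (x - gi a - 2 * gi m) = Bm s x - β s (a + 2 • m) := by
  rw [_root_.sub_sub, ← gi_two, ← gi_add, sub_eq_add_neg, Bm_add, Bm_neg, ← sub_eq_add_neg]
  rfl

theorem pil_slab (hn : Odd n) (k : ℤ) {p : ℂ} (hp : |p.im - 2 * k| ≤ 1) :
    Pil (fun q : ℂ × ℂ => f0 n (Bm (q.2.im - 2 * k) q.1, q.2)) (Metric.ball p (1 / 10)) id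
      (Nb n) {q | q.2 ∈ Metric.ball p (1 / 10) ∧ ‖Bm (q.2.im - 2 * k) q.1‖ < ρ} := by
  have hs : ∀ v ∈ Metric.ball p (1 / 10), |v.im - 2 * k| ≤ 11 / 10 := by
    intro v hv
    have h1 := (Complex.abs_im_le_norm (v - p)).trans_lt (mem_ball_iff_norm.1 hv)
    rw [Complex.sub_im, abs_lt] at h1
    rw [abs_le] at hp ⊢
    constructor <;> linarith [h1.1, h1.2, hp.1, hp.2]
  have hc : Continuous fun q : ℂ × ℂ => ((q.2.im - 2 * k, q.1) : ℝ × ℂ) := by fun_prop
  let Φ : ℂ × ℂ ≃ₜ ℂ × ℂ :=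
    { toFun := fun q => (Bm (q.2.im - 2 * k) q.1, q.2)
      invFun := fun q => (Bi (q.2.im - 2 * k) q.1, q.2)
      left_inv := fun q => Prod.ext (Bi_Bm _ _) rfl
      right_inv := fun q => Prod.ext (Bm_Bi _ _) rfl
      continuous_toFun := (contDiff_Bm.continuous.comp hc).prodMk continuous_snd
      continuous_invFun := (contDiff_Bi.continuous.comp hc).prodMk continuous_snd }
  have hW : ∀ q ∈ Pn ×ˢ Metric.ball p (1 / 10), ((Bm (q.2.im - 2 * k) q.1, q.2) : E) ∈ W0 :=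
    fun q hq => (PiX1_W0 k q.1 q.2).2 hq.1
  refine
    { opn := Metric.isOpen_ball
      conv := convex_ball _ _
      ne := ⟨p, Metric.mem_ball_self (by norm_num)⟩
      loc := (loc0 hn).comp (Φ.isLocalHomeomorph.isLocalHomeomorphOn.mono (subset_univ _)) hW
      jm := fun w hw => hw
      eq := fun q hq q' hq' => ?_
      null := null_Nb hn
      disj := fun i j h => disj_Nb hn h
      mem := fun c q hq => ?_
      big := ?_
      small := fun q hq => ?_
      star := fun q hq s hs' => ⟨hq.1, ?_⟩ }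
  · rw [f00 hn (hW q hq) (hW q' hq')]
    have hd : ‖q'.2 - q.2‖ < 1 / 5 := by
      have h1 := norm_sub_le_norm_sub_add_norm_sub q'.2 p q.2
      have h2 := mem_ball_iff_norm.1 hq'.2
      have h3 := mem_ball_iff_norm'.1 hq.2
      linarith
    constructor
    · intro h
      obtain ⟨e, m, l, h1⟩ := h.zero hn (by
        have h2 := Complex.abs_im_le_norm (q'.2 - q.2)
        rw [Complex.sub_im] at h2
        linarith)
      have h2 : q'.2 = q.2 + 2 * l := congrArg Prod.snd h1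
      have h3 : l = 0 := by
        refine RelC_int ?_
        rw [h2, add_sub_cancel_left, norm_mul, Complex.norm_ofNat, Complex.norm_intCast] at hd
        linarith
      rw [h3, Int.cast_zero, mul_zero, add_zero] at h2
      have h4 : Bm (q'.2.im - 2 * k) q'.1 =
          sg e * Bm (q.2.im - 2 * k) q.1 + 2 * β q.2.im m := congrArg Prod.fst h1
      obtain ⟨m', hm⟩ := PiX1_down k q.2.im m
      rw [h2, hm, ← PiX1_key] at h4
      have h5 := PiX1_inj h4
      refine ⟨m + 2 • m', ?_⟩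
      rcases sg_cases e with h6 | h6
      · left
        rw [h6.1, Complex.ofReal_one, one_mul] at h5
        exact Prod.ext h5 h2
      · right
        rw [h6.1, Complex.ofReal_neg, Complex.ofReal_one, neg_one_mul] at h5
        exact Prod.ext h5 h2
    · have key : ∀ (e : ℤ) (m : ℤ × ℤ), RG n (Bm (q.2.im - 2 * k) q.1, q.2)
          (Bm (q.2.im - 2 * k) (sg e * q.1 + 2 * gi m), q.2) := by
        intro e m
        obtain ⟨m', hm⟩ := PiX1_up k q.2.im m
        have h1 := RG_of_zero (n := n) e (m + 2 • m') 0 (Bm (q.2.im - 2 * k) q.1, q.2)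
        rw [Int.cast_zero, mul_zero, add_zero] at h1
        rw [PiX1_key, hm]
        exact h1
      rintro ⟨m, rfl | rfl⟩
      · have h1 := key 0 m
        rwa [sg_zero, Complex.ofReal_one, one_mul] at h1
      · have h1 := key 1 m
        rwa [sg_one, Complex.ofReal_neg, Complex.ofReal_one, neg_one_mul] at h1
  · rw [f0_mem_Nb_iff hn c (hW q hq)]
    constructor
    · intro h
      obtain ⟨m, hm⟩ := exists_of_rc_lt h
      obtain ⟨m', hm'⟩ := PiX1_down k q.2.im (rep c + 2 • m)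
      refine ⟨m + m', hq.2, ?_⟩
      change ‖Bm (q.2.im - 2 * k) (q.1 - gi (rep c) - 2 * gi (m + m'))‖ < ρ
      rw [PiX1_sub, smul_add, ← add_assoc, ← hm']
      exact hm
    · rintro ⟨m, -, hm⟩
      obtain ⟨m', hm'⟩ := PiX1_up k q.2.im (rep c + 2 • m)
      refine (rc_le_norm c _ (m + m')).trans_lt ?_
      change ‖Bm (q.2.im - 2 * k) (q.1 - gi (rep c) - 2 * gi m)‖ < ρ at hm
      rw [PiX1_sub, hm', add_assoc, ← smul_add] at hm
      exact hm
  · have h0 : 0 < 2 * Real.exp (hh * (11 / 10)) := by positivity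
    refine ⟨ρ / (2 * Real.exp (hh * (11 / 10))), div_pos ρ_pos h0, fun x w hw hx => ⟨hw, ?_⟩⟩
    rw [lt_div_iff₀' h0] at hx
    refine lt_of_le_of_lt ((norm_Bm_le _ _).trans ?_) hx
    have h1 := mul_le_mul_of_nonneg_left (hs w hw) Lat_hh
    gcongr
  · have h1 := norm_le_three (hs q.2 hq.1) q.1
    have h2 := hq.2
    unfold ρ at h2
    linarith
  · change ‖Bm (q.2.im - 2 * k) (s * q.1)‖ < ρ
    rw [Bm_mul]
    exact lt_of_le_of_lt (ArrB_smul hs'.1 hs'.2 _) hq.2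

theorem null_slab (hn : Odd n) (p : ℂ) :
    Null ((⋃ i, Nb n i) ∪ ⋃ q ∈ Metric.ball p (1 / 10), SS n q) := by
  have hp : |p.im - 2 * (round (p.im / 2) : ℤ)| ≤ 1 := by
    have h1 := abs_sub_round (p.im / 2)
    rw [abs_le] at h1 ⊢
    constructor <;> linarith [h1.1, h1.2]
  have h := (pil_slab hn _ hp).null_union
  set k : ℤ := round (p.im / 2)
  have e : (fun q : ℂ × ℂ => f0 n (Bm (q.2.im - 2 * k) q.1, q.2)) ''
      (Pn ×ˢ Metric.ball p (1 / 10)) = ⋃ q ∈ Metric.ball p (1 / 10), SS n q := by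
    refine Subset.antisymm ?_ ?_
    · rintro _ ⟨q, hq, rfl⟩
      exact mem_iUnion₂.2 ⟨q.2, hq.2, _, ⟨(PiX1_W0 k q.1 q.2).2 hq.1, rfl⟩, rfl⟩
    · intro x hx
      obtain ⟨v, hv, ξ, ⟨h1, rfl⟩, rfl⟩ := mem_iUnion₂.1 hx
      refine ⟨(Bi (ξ.2.im - 2 * k) ξ.1, ξ.2), ⟨(PiX1_W0 k _ ξ.2).1 ?_, hv⟩, ?_⟩
      · rw [Bm_Bi]
        exact h1
      · dsimp only
        rw [Bm_Bi]
  rwa [e] at h

end HK3
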