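import Pool.Agent.P.MP_9699e0_gt.MDefs

/-! Intermediate steps in the construction of the circle valued functions. -/

set_option autoImplicit false
set_option linter.unusedSectionVars false

noncomputable section

namespace HK3

open Pool.Agent.P.MP_9699e0_gt Set Filter Topology
open scoped ContDiff

/-- The model functions `v`, `conj v` and `1`. -/
def pw (m : ℤ) (v : ℂ) : ℂ := if m = 1 then v else if m = -1 then (starRingEnd ℂ) v else 1

/-- The monodromy matrix. -/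
def Am (x : ℂ) : ℂ := ⟨3 * x.re + 2 * x.im, 2 * x.re + x.im⟩

/-- The inverse monodromy matrix. -/
def Ai (x : ℂ) : ℂ := ⟨-x.re + 2 * x.im, 2 * x.re - 3 * x.im⟩

/-- An odd function with two zeros on the torus. -/
structure GoodP (a : Fin 3) (φ : ℂ → ℂ) (d : I4 → ℂ) : Prop where
  cont : Continuous φ
  ne : ∀ x ∈ Pn, φ x ≠ 0
  neg : ∀ x, φ (-x) = -φ x
  per : ∀ x m, φ (x + 2 * gi m) = χ a m * φ x
  half : ∀ i v, v ≠ 0 → ‖v‖ < 1 / 10 →
    0 < (φ (gi (rep i) + v) * (starRingEnd ℂ) (d i * pw (mm a i) v)).re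

/-- A family of such functions that is standard near the lattice. -/
structure GoodQ (a : Fin 3) (φ : ℂ → ℝ → ℂ) (d : I4 → ℂ) : Prop where
  cont : Continuous fun p : ℂ × ℝ => φ p.1 p.2
  ne : ∀ x ∈ Pn, ∀ t, φ x t ≠ 0
  neg : ∀ x t, φ (-x) t = -φ x t
  per : ∀ x t m, φ (x + 2 * gi m) t = χ a m * φ x t
  dne : ∀ i, d i ≠ 0
  std : ∀ i v t, ‖v‖ < 3 / 50 → φ (gi (rep i) + v) t = d i * pw (mm a i) (Bm t v)

/-- The circle valued function on a strip. -/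
structure PsiS (a : Fin 3) (ψ : ℂ → ℝ → ℂ) : Prop where
  cont : ContinuousOn (fun ξ : E => ψ ξ.1 ξ.2.im) {ξ | ξ ∈ W0 ∧ |ξ.2.im| ≤ 1 / 2}
  norm : ∀ y t, ‖ψ y t‖ = 1
  neg : ∀ y t, ψ (-y) t = ψ y t
  per : ∀ y t m, ψ (y + 2 * β t m) t = ψ y t
  cnj : ∀ y, ψ ((starRingEnd ℂ) y) (1 / 2) = (starRingEnd ℂ) (ψ y (-(1 / 2)))
  tub : ∀ i t (r u : ℝ), |t| ≤ 1 / 2 → 0 < r → r < ρ →
    ψ (β t (rep i) + r * ex (u / 4)) t = eps a i * ex (mm a i * u / 2)

end HK3
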