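import Pool.Agent.P.MP_9699e0_gt.PsDefs
import Pool.Agent.P.MP_9699e0_gt.Lat

/-! Trigonometric models. -/

set_option autoImplicit false
set_option linter.unusedSectionVars false

noncomputable section

namespace HK3

open Pool.Agent.P.MP_9699e0_gt Set Filter Topology
open scoped ContDiff

/-- The rescaled sine. -/
def Psi0S (t : ℝ) : ℝ := Real.sin (Real.pi * t)

/-- The rescaled cosine. -/
def Psi0C (t : ℝ) : ℝ := Real.cos (Real.pi * t)

theorem Psi0S_cont : Continuous Psi0S := Real.continuous_sin.comp (continuous_const_mul _)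

theorem Psi0C_cont : Continuous Psi0C := Real.continuous_cos.comp (continuous_const_mul _)

theorem Psi0S_add {s t : ℝ} (k : ℤ) (h : s = t + k) : Psi0S s = sg k * Psi0S t := by
  rw [h, Psi0S, Psi0S, sg, mul_add, mul_comm Real.pi (k : ℝ), Real.sin_add_int_mul_pi]

theorem Psi0C_add {s t : ℝ} (k : ℤ) (h : s = t + k) : Psi0C s = sg k * Psi0C t := by
  rw [h, Psi0C, Psi0C, sg, mul_add, mul_comm Real.pi (k : ℝ), Real.cos_add_int_mul_pi]

theorem Psi0S_two {s t : ℝ} (k : ℤ) (h : s = t + 2 * k) : Psi0S s = Psi0S t := by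
  rw [Psi0S_add (t := t) (k + k) (by rw [h]; push_cast; ring), sg_add, sg_mul_self, one_mul]

theorem Psi0S_one {s t : ℝ} (h : s = t + 1) : Psi0S s = -Psi0S t := by
  rw [Psi0S_add (t := t) 1 (by rw [h, Int.cast_one]), sg_one, neg_one_mul]

theorem Psi0S_neg {s t : ℝ} (h : s = -t) : Psi0S s = -Psi0S t := by
  rw [h, Psi0S, Psi0S, mul_neg, Real.sin_neg]

theorem Psi0C_neg {s t : ℝ} (h : s = -t) : Psi0C s = Psi0C t := by
  rw [h, Psi0C, Psi0C, mul_neg, Real.cos_neg]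

theorem Psi0S_half {s t : ℝ} (h : s = t + 1 / 2) : Psi0S s = Psi0C t := by
  rw [h, Psi0S, Psi0C, mul_add, mul_one_div, Real.sin_add_pi_div_two]

theorem Psi0S_half' {s t : ℝ} (h : s = t - 1 / 2) : Psi0S s = -Psi0C t := by
  rw [h, Psi0S, Psi0C, mul_sub, mul_one_div, Real.sin_sub_pi_div_two]

theorem Psi0S_zero {t : ℝ} (h : Psi0S t = 0) : ∃ k : ℤ, t = k := by
  obtain ⟨k, hk⟩ := Real.sin_eq_zero_iff.1 h
  exact ⟨k, mul_left_cancel₀ Real.pi_ne_zero (by rw [← hk, mul_comm])⟩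

theorem Psi0C_ne {t : ℝ} (h : Psi0S t = 0) : Psi0C t ≠ 0 := by
  intro h'
  have := Real.sin_sq_add_cos_sq (Real.pi * t)
  unfold Psi0S at h
  unfold Psi0C at h'
  rw [h, h'] at this
  norm_num at this

theorem Psi0C_pos {t : ℝ} (h : |t| < 1 / 2) : 0 < Psi0C t := by
  have h1 := abs_lt.1 h
  have := Real.pi_pos
  exact Real.cos_pos_of_mem_Ioo ⟨by nlinarith, by nlinarith⟩

theorem Psi0S_pos {t : ℝ} (h : |t| < 1) (h0 : t ≠ 0) : 0 < t * Psi0S t := by
  have h1 := abs_lt.1 h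
  have := Real.pi_pos
  rcases lt_or_gt_of_ne h0 with a | a
  · exact mul_pos_of_neg_of_neg a
      (Real.sin_neg_of_neg_of_neg_pi_lt (by nlinarith) (by nlinarith))
  · exact mul_pos a (Real.sin_pos_of_pos_of_lt_pi (by nlinarith) (by nlinarith))

theorem Psi0S_nonneg {t : ℝ} (h : |t| < 1) : 0 ≤ t * Psi0S t := by
  by_cases h0 : t = 0
  · rw [h0, zero_mul]
  · exact (Psi0S_pos h h0).le

theorem Psi0_pos {s r c : ℝ} (hs : |s| < 1) (hr : |r| < 1) (hc : 0 < c) (h : s ≠ 0 ∨ r ≠ 0) :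
    0 < c * (s * Psi0S s) + 2 * (r * Psi0S r) := by
  rcases h with h | h
  · exact add_pos_of_pos_of_nonneg (mul_pos hc (Psi0S_pos hs h))
      (mul_nonneg zero_le_two (Psi0S_nonneg hr))
  · exact add_pos_of_nonneg_of_pos (mul_nonneg hc.le (Psi0S_nonneg hs))
      (mul_pos two_pos (Psi0S_pos hr h))

theorem Psi0_half {a : Fin 3} {φ : ℂ → ℂ} {d : I4 → ℂ}
    (h : ∀ v : ℂ, v.re ≠ 0 ∨ v.im ≠ 0 → |v.re| < 1 / 10 → |v.im| < 1 / 10 →
      0 < (φ ⟨v.re, v.im⟩ * (starRingEnd ℂ) (d (0, 0) * pw (mm a (0, 0)) v)).re ∧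
      0 < (φ ⟨v.re + 1, v.im⟩ * (starRingEnd ℂ) (d (1, 0) * pw (mm a (1, 0)) v)).re ∧
      0 < (φ ⟨v.re, v.im + 1⟩ * (starRingEnd ℂ) (d (0, 1) * pw (mm a (0, 1)) v)).re ∧
      0 < (φ ⟨v.re + 1, v.im + 1⟩ * (starRingEnd ℂ) (d (1, 1) * pw (mm a (1, 1)) v)).re) :
    ∀ i v, v ≠ 0 → ‖v‖ < 1 / 10 →
      0 < (φ (gi (rep i) + v) * (starRingEnd ℂ) (d i * pw (mm a i) v)).re := by
  intro i v hv hn
  have h0 : v.re ≠ 0 ∨ v.im ≠ 0 := by
    by_contra hc
    rw [not_or, not_not, not_not] at hc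
    exact hv (Complex.ext hc.1 hc.2)
  obtain ⟨h1, h2, h3, h4⟩ := h v h0 ((Complex.abs_re_le_norm v).trans_lt hn)
    ((Complex.abs_im_le_norm v).trans_lt hn)
  have hi : ∀ i : I4, i = (0, 0) ∨ i = (1, 0) ∨ i = (0, 1) ∨ i = (1, 1) := by decide
  rcases hi i with rfl | rfl | rfl | rfl
  · rwa [show gi (rep (0, 0)) + v = ⟨v.re, v.im⟩ by apply Complex.ext <;> simp [gi, rep]]
  · rwa [show gi (rep (1, 0)) + v = ⟨v.re + 1, v.im⟩ by
      apply Complex.ext <;> simp [gi, rep, add_comm]]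
  · rwa [show gi (rep (0, 1)) + v = ⟨v.re, v.im + 1⟩ by
      apply Complex.ext <;> simp [gi, rep, add_comm]]
  · rwa [show gi (rep (1, 1)) + v = ⟨v.re + 1, v.im + 1⟩ by
      apply Complex.ext <;> simp [gi, rep, add_comm]]

theorem Psi0_pw (v : ℂ) : pw 1 v = v ∧ pw (-1) v = ⟨v.re, -v.im⟩ ∧ pw 0 v = 1 := by
  refine ⟨if_pos rfl, ?_, ?_⟩
  · rw [pw, if_neg (by decide), if_pos rfl]
    rfl
  · rw [pw, if_neg (by decide), if_neg (by decide)]

theorem Psi0_re (x : ℂ) (m : ℤ × ℤ) : (x + 2 * gi m).re = x.re + 2 * m.1 := by simp [gi]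

theorem Psi0_im (x : ℂ) (m : ℤ × ℤ) : (x + 2 * gi m).im = x.im + 2 * m.2 := by simp [gi]

theorem Psi0_cont {f g : ℂ → ℝ} (hf : Continuous f) (hg : Continuous g) :
    Continuous fun x => (⟨f x, g x⟩ : ℂ) :=
  Complex.equivRealProdCLM.symm.continuous.comp (hf.prodMk hg)

theorem Psi0_abs {x y : ℝ} (hx : |x| < 1 / 10) (hy : |y| < 1 / 10) :
    |x| < 1 ∧ |x / 2| < 1 / 2 ∧ |x / 2| < 1 ∧ |(x + y) / 2| < 1 / 2 ∧ |(y - x) / 2| < 1 / 2 := by
  have h1 := abs_lt.1 hx
  have h2 := abs_lt.1 hy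
  refine ⟨?_, ?_, ?_, ?_, ?_⟩ <;> exact abs_lt.2 ⟨by linarith, by linarith⟩

theorem Psi0_zero : GoodP 0 (fun x => ⟨Psi0S x.re * Psi0C (x.im / 2), Psi0S (x.im / 2)⟩)
    fun i => if i.2 = 1 then ⟨0, 1⟩ else if i.1 = 1 then ⟨-1, 0⟩ else ⟨1, 0⟩ where
  cont := Psi0_cont ((Psi0S_cont.comp Complex.continuous_re).mul
    (Psi0C_cont.comp (Complex.continuous_im.div_const _)))
    (Psi0S_cont.comp (Complex.continuous_im.div_const _))
  ne x hx h := by
    have h1 : Psi0S x.re * Psi0C (x.im / 2) = 0 := congrArg Complex.re h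
    have h2 : Psi0S (x.im / 2) = 0 := congrArg Complex.im h
    obtain ⟨k, hk⟩ := Psi0S_zero ((mul_eq_zero.1 h1).resolve_right (Psi0C_ne h2))
    obtain ⟨l, hl⟩ := Psi0S_zero h2
    refine hx (k, 2 * l) (Complex.ext hk ?_)
    simp only [gi]
    push_cast
    linarith
  neg x := by
    apply Complex.ext
    · simp only [Complex.neg_re, Complex.neg_im]
      rw [Psi0S_neg rfl, Psi0C_neg (neg_div _ _), neg_mul]
    · simp only [Complex.neg_im]
      rw [Psi0S_neg (neg_div _ _)]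
  per x m := by
    have e : χ 0 m = sg m.2 := by
      rw [χ]
      congr 1
      simp [cl, rep]
    have e2 : (x.im + 2 * m.2) / 2 = x.im / 2 + m.2 := by ring
    apply Complex.ext
    · simp only [Complex.re_ofReal_mul, Psi0_re, Psi0_im]
      rw [e, Psi0S_two m.1 rfl, Psi0C_add m.2 e2]
      ring
    · simp only [Complex.im_ofReal_mul, Psi0_im]
      rw [e, Psi0S_add m.2 e2]
  half := Psi0_half (φ := fun x => ⟨Psi0S x.re * Psi0C (x.im / 2), Psi0S (x.im / 2)⟩)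
      (d := fun i => if i.2 = 1 then ⟨0, 1⟩ else if i.1 = 1 then ⟨-1, 0⟩ else ⟨1, 0⟩)
      fun v h0 h1 h2 => by
    obtain ⟨a1, -⟩ := Psi0_abs h1 h2
    obtain ⟨-, b2, b3, -⟩ := Psi0_abs h2 h1
    have c := Psi0C_pos b2
    have p := Psi0_pos a1 b3 c (h0.imp_right fun h => div_ne_zero h two_ne_zero)
    have e : Psi0S ((v.im + 1) / 2) = Psi0C (v.im / 2) := Psi0S_half (by ring)
    rw [show mm 0 (0, 0) = 1 by decide, show mm 0 (1, 0) = -1 by decide,
      show mm 0 (0, 1) = 0 by decide, show mm 0 (1, 1) = 0 by decide, (Psi0_pw v).1,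
      (Psi0_pw v).2.1, (Psi0_pw v).2.2]
    simp only [Complex.mul_re, Complex.mul_im, Complex.conj_re, Complex.conj_im, Complex.one_re,
      Complex.one_im, zero_ne_one, if_true, if_false, Psi0S_one (t := v.re) rfl, e]
    refine ⟨?_, ?_, ?_, ?_⟩ <;> linarith

theorem Psi0_one : GoodP 1 (fun x => ⟨Psi0S (x.re / 2), Psi0S x.im * Psi0C (x.re / 2)⟩)
    fun _ => ⟨1, 0⟩ where
  cont := Psi0_cont (Psi0S_cont.comp (Complex.continuous_re.div_const _))
    ((Psi0S_cont.comp Complex.continuous_im).mul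
      (Psi0C_cont.comp (Complex.continuous_re.div_const _)))
  ne x hx h := by
    have h1 : Psi0S x.im * Psi0C (x.re / 2) = 0 := congrArg Complex.im h
    have h2 : Psi0S (x.re / 2) = 0 := congrArg Complex.re h
    obtain ⟨k, hk⟩ := Psi0S_zero ((mul_eq_zero.1 h1).resolve_right (Psi0C_ne h2))
    obtain ⟨l, hl⟩ := Psi0S_zero h2
    refine hx (2 * l, k) (Complex.ext ?_ hk)
    simp only [gi]
    push_cast
    linarith
  neg x := by
    apply Complex.ext
    · simp only [Complex.neg_re]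
      rw [Psi0S_neg (neg_div _ _)]
    · simp only [Complex.neg_re, Complex.neg_im]
      rw [Psi0S_neg rfl, Psi0C_neg (neg_div _ _), neg_mul]
  per x m := by
    have e : χ 1 m = sg m.1 := by
      rw [χ, ← sg_neg]
      congr 1
      simp [cl, rep]
    have e2 : (x.re + 2 * m.1) / 2 = x.re / 2 + m.1 := by ring
    apply Complex.ext
    · simp only [Complex.re_ofReal_mul, Psi0_re]
      rw [e, Psi0S_add m.1 e2]
    · simp only [Complex.im_ofReal_mul, Psi0_re, Psi0_im]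
      rw [e, Psi0S_two m.2 rfl, Psi0C_add m.1 e2]
      ring
  half := Psi0_half (φ := fun x => ⟨Psi0S (x.re / 2), Psi0S x.im * Psi0C (x.re / 2)⟩)
      (d := fun _ => ⟨1, 0⟩) fun v h0 h1 h2 => by
    obtain ⟨a1, -⟩ := Psi0_abs h2 h1
    obtain ⟨-, b2, b3, -⟩ := Psi0_abs h1 h2
    have c := Psi0C_pos b2
    have p := Psi0_pos a1 b3 c (h0.symm.imp_right fun h => div_ne_zero h two_ne_zero)
    have e : Psi0S ((v.re + 1) / 2) = Psi0C (v.re / 2) := Psi0S_half (by ring)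
    rw [show mm 1 (0, 0) = 1 by decide, show mm 1 (1, 0) = 0 by decide,
      show mm 1 (0, 1) = -1 by decide, show mm 1 (1, 1) = 0 by decide, (Psi0_pw v).1,
      (Psi0_pw v).2.1, (Psi0_pw v).2.2]
    simp only [Complex.mul_re, Complex.mul_im, Complex.conj_re, Complex.conj_im, Complex.one_re,
      Complex.one_im, Psi0S_one (t := v.im) rfl, e]
    refine ⟨?_, ?_, ?_, ?_⟩ <;> linarith

theorem Psi0_two : GoodP 2 (fun x => ⟨Psi0S ((x.re + x.im) / 2), Psi0S ((x.im - x.re) / 2)⟩)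
    fun i => if i.2 = 1 then (if i.1 = 1 then ⟨-1, -1⟩ else ⟨1, 1⟩) else ⟨1, -1⟩ where
  cont := Psi0_cont
    (Psi0S_cont.comp ((Complex.continuous_re.add Complex.continuous_im).div_const _))
    (Psi0S_cont.comp ((Complex.continuous_im.sub Complex.continuous_re).div_const _))
  ne x hx h := by
    obtain ⟨k, hk⟩ := Psi0S_zero (t := (x.re + x.im) / 2) (congrArg Complex.re h)
    obtain ⟨l, hl⟩ := Psi0S_zero (t := (x.im - x.re) / 2) (congrArg Complex.im h)
    refine hx (k - l, k + l) (Complex.ext ?_ ?_)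
    · simp only [gi]
      push_cast
      linarith
    · simp only [gi]
      push_cast
      linarith
  neg x := by
    apply Complex.ext
    · simp only [Complex.neg_re, Complex.neg_im]
      exact Psi0S_neg (by ring)
    · simp only [Complex.neg_re, Complex.neg_im]
      exact Psi0S_neg (by ring)
  per x m := by
    have e : χ 2 m = sg (m.2 - m.1) := by
      rw [χ]
      congr 1
      simp [cl, rep]
    apply Complex.ext
    · simp only [Complex.re_ofReal_mul, Psi0_re, Psi0_im]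
      rw [e, ← Psi0S_add (m.2 - m.1) rfl]
      refine Psi0S_two m.1 ?_
      push_cast
      ring
    · simp only [Complex.im_ofReal_mul, Psi0_re, Psi0_im]
      rw [e]
      refine Psi0S_add _ ?_
      push_cast
      ring
  half := Psi0_half (φ := fun x => ⟨Psi0S ((x.re + x.im) / 2), Psi0S ((x.im - x.re) / 2)⟩)
      (d := fun i => if i.2 = 1 then (if i.1 = 1 then ⟨-1, -1⟩ else ⟨1, 1⟩) else ⟨1, -1⟩)
      fun v h0 h1 h2 => by
    obtain ⟨-, -, -, a1, a2⟩ := Psi0_abs h1 h2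
    have c1 := Psi0C_pos a1
    have c2 := Psi0C_pos a2
    have p := Psi0_pos (a1.trans (by norm_num)) (a2.trans (by norm_num)) two_pos (by
      by_contra hc
      rw [not_or, not_not, not_not] at hc
      exact h0.elim (fun h => h (by linarith [hc.1, hc.2])) fun h => h (by linarith [hc.1, hc.2]))
    have e1 : Psi0S ((v.re + 1 + v.im) / 2) = Psi0C ((v.re + v.im) / 2) := Psi0S_half (by ring)
    have e2 : Psi0S ((v.im - (v.re + 1)) / 2) = -Psi0C ((v.im - v.re) / 2) :=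
      Psi0S_half' (by ring)
    have e3 : Psi0S ((v.re + (v.im + 1)) / 2) = Psi0C ((v.re + v.im) / 2) := Psi0S_half (by ring)
    have e4 : Psi0S ((v.im + 1 - v.re) / 2) = Psi0C ((v.im - v.re) / 2) := Psi0S_half (by ring)
    have e5 : Psi0S ((v.re + 1 + (v.im + 1)) / 2) = -Psi0S ((v.re + v.im) / 2) :=
      Psi0S_one (by ring)
    have e6 : (v.im + 1 - (v.re + 1)) / 2 = (v.im - v.re) / 2 := by ring
    rw [show mm 2 (0, 0) = 1 by decide, show mm 2 (1, 0) = 0 by decide,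
      show mm 2 (0, 1) = 0 by decide, show mm 2 (1, 1) = -1 by decide, (Psi0_pw v).1,
      (Psi0_pw v).2.1, (Psi0_pw v).2.2]
    simp only [Complex.mul_re, Complex.mul_im, Complex.conj_re, Complex.conj_im, Complex.one_re,
      Complex.one_im, zero_ne_one, if_true, if_false, e1, e2, e3, e4, e5, e6]
    refine ⟨?_, ?_, ?_, ?_⟩ <;> linarith

theorem exists_goodP (a : Fin 3) : ∃ φ d, GoodP a φ d := by
  have h : ∀ a : Fin 3, a = 0 ∨ a = 1 ∨ a = 2 := by decide
  rcases h a with rfl | rfl | rfl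
  · exact ⟨_, _, Psi0_zero⟩
  · exact ⟨_, _, Psi0_one⟩
  · exact ⟨_, _, Psi0_two⟩

end HK3
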