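import Pool.Agent.P.MP_9699e0_gt.PsDefs
import Pool.Agent.P.MP_9699e0_gt.Lat

/-! Interpolation with the linear models. -/

set_option autoImplicit false
set_option linter.unusedSectionVars false

noncomputable section

namespace HK3

open Pool.Agent.P.MP_9699e0_gt Set Filter Topology
open scoped ContDiff

theorem Psi1_uniq {x : ℂ} {q q' : ℤ × ℤ} (h : ‖x - gi q‖ < 1 / 2) (h' : ‖x - gi q'‖ < 1 / 2) :
    q = q' := by
  by_contra hne
  have h1 := one_le_gi (sub_ne_zero.2 hne)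
  have h2 : gi (q - q') = (x - gi q') - (x - gi q) := by
    rw [sub_eq_add_neg q, gi_add, gi_neg]
    ring
  have h3 := norm_sub_le (x - gi q') (x - gi q)
  rw [h2] at h1
  linarith

theorem Psi1_cont (m : ℤ) : Continuous (pw m) := by
  unfold pw
  split_ifs
  exacts [continuous_id, Complex.continuous_conj, continuous_const]

theorem Psi1_mul (m : ℤ) (v w : ℂ) : pw m (v * w) = pw m v * pw m w := by
  unfold pw
  split_ifs <;> simp

theorem Psi1_conj (m : ℤ) (v : ℂ) : pw m ((starRingEnd ℂ) v) = (starRingEnd ℂ) (pw m v) := by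
  unfold pw
  split_ifs <;> simp

theorem Psi1_pos (m : ℤ) {v : ℂ} (h : 0 < v.re) : 0 < (pw m v).re := by
  unfold pw
  split_ifs <;> simp [h]

theorem Psi1_neg (a : Fin 3) (i : I4) (v : ℂ) :
    (χ a (rep i) : ℂ) * pw (mm a i) (-v) = -pw (mm a i) v := by
  rw [χ_rep]
  unfold pw mm
  split_ifs <;> simp_all

theorem Psi1_χ_neg (a : Fin 3) (m : ℤ × ℤ) : χ a (-m) = χ a m := by
  rw [χ, χ, ← sg_neg]
  congr 1
  simp only [Prod.fst_neg, Prod.snd_neg]
  ring

theorem Psi1_χ_ne (a : Fin 3) (m : ℤ × ℤ) : (χ a m : ℂ) ≠ 0 := by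
  rw [Complex.ofReal_ne_zero]
  exact left_ne_zero_of_mul_eq_one (sg_mul_self _)

theorem Psi1_χ_zero (a : Fin 3) : χ a 0 = 1 := by
  simp [χ, sg_zero]

theorem Psi1_ext {Y : Type} (G : I4 → ℤ × ℤ → Y) :
    ∃ M : ℤ × ℤ → Y, ∀ i m, M (rep i + 2 • m) = G i m := by
  choose c f h using exists_rep
  refine ⟨fun q => G (c q) (f q), fun i m => ?_⟩
  have h1 := h (rep i + 2 • m)
  have h2 := rep_unique h1
  dsimp only
  rw [← h2] at h1 ⊢
  rw [← (nsmul_right_inj two_ne_zero).1 (add_left_cancel h1)]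

/-- The cutoff function. -/
def Psi1b (r : ℝ) : ℝ := max 0 (min 1 (4 - 50 * r))

theorem Psi1b_cont : Continuous Psi1b := by
  unfold Psi1b
  fun_prop

theorem Psi1b_one {r : ℝ} (h : r < 3 / 50) : Psi1b r = 1 := by
  rw [Psi1b, min_eq_left (by linarith), max_eq_right zero_le_one]

theorem Psi1b_lt {r : ℝ} (h : Psi1b r ≠ 0) : r < 1 / 10 := by
  by_contra h'
  exact h (max_eq_left ((min_le_right _ _).trans (by linarith)))

theorem Psi1b_mem (r : ℝ) : 0 ≤ Psi1b r ∧ Psi1b r ≤ 1 :=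
  ⟨le_max_left _ _, max_le zero_le_one (min_le_left _ _)⟩

theorem GoodP.exists_goodQ {a : Fin 3} {φ : ℂ → ℂ} {d : I4 → ℂ} (h : GoodP a φ d) :
    ∃ φ' d', GoodQ a φ' d' := by
  have hd : ∀ i, d i ≠ 0 := fun i e => by
    have := h.half i (1 / 20) (by norm_num) (by norm_num)
    simp [e] at this
  obtain ⟨d', hd'⟩ : ∃ d' : I4 → ℂ,
      ∀ i, d' i = d i * pw (mm a i) ((Real.goldenRatio : ℂ) + Complex.I) := ⟨_, fun _ => rfl⟩
  obtain ⟨M, hM'⟩ := Psi1_ext fun i m (v : ℂ) (t : ℝ) =>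
    (χ a m : ℂ) * (d' i * pw (mm a i) (Bm t v))
  have hM : ∀ i m v t, M (rep i + 2 • m) v t = (χ a m : ℂ) * (d' i * pw (mm a i) (Bm t v)) :=
    fun i m v t => by rw [hM']
  obtain ⟨T, hT⟩ : ∃ T : ℤ × ℤ → ℂ → ℝ → ℂ, ∀ q x t,
      T q x t = (Psi1b ‖x - gi q‖ : ℂ) * (M q (x - gi q) t - φ x) := ⟨_, fun _ _ _ => rfl⟩
  have T0 : ∀ q x t, T q x t ≠ 0 → ‖x - gi q‖ < 1 / 10 := fun q x t hq =>
    Psi1b_lt fun e => hq (by rw [hT, e, Complex.ofReal_zero, zero_mul])
  have T1 : ∀ i v t, ‖v‖ < 1 / 10 → ∑ᶠ q, T q (gi (rep i) + v) t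
      = (Psi1b ‖v‖ : ℂ) * (d' i * pw (mm a i) (Bm t v) - φ (gi (rep i) + v)) := by
    intro i v t hv
    have e := hM i 0 v t
    rw [smul_zero, add_zero] at e
    rw [finsum_eq_single _ (rep i), hT, add_sub_cancel_left, e, Psi1_χ_zero, Complex.ofReal_one,
      one_mul]
    intro q hq
    by_contra h0
    refine hq (Psi1_uniq ((T0 _ _ _ h0).trans (by norm_num)) ?_)
    rw [add_sub_cancel_left]
    exact hv.trans (by norm_num)
  have per : ∀ x t m, φ (x + 2 * gi m) + ∑ᶠ q, T q (x + 2 * gi m) t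
      = χ a m * (φ x + ∑ᶠ q, T q x t) := by
    intro x t m
    rw [mul_add, h.per, mul_finsum, ← finsum_comp_equiv (Equiv.addRight (2 • m))]
    refine congrArg _ (finsum_congr fun q => ?_)
    obtain ⟨i, k, rfl⟩ := exists_rep q
    have e : x + 2 * gi m - gi (rep i + 2 • k + 2 • m) = x - gi (rep i + 2 • k) := by
      rw [gi_add _ (2 • m), gi_two]
      ring
    simp only [Equiv.coe_addRight]
    rw [hT, hT, e, add_assoc, ← smul_add, hM, hM, h.per, χ_add]
    push_cast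
    ring
  refine ⟨fun x t => φ x + ∑ᶠ q, T q x t, d', ?_, fun x hx t => ?_, fun x t => ?_, per,
    fun i => ?_, fun i v t hv => ?_⟩
  · refine (h.cont.comp continuous_fst).add (continuous_finsum (fun q => ?_) fun p => ?_)
    · obtain ⟨i, k, rfl⟩ := exists_rep q
      simp only [hT, hM]
      have c1 := Psi1b_cont
      have c2 := h.cont
      have c3 : Continuous fun p : ℂ × ℝ => pw (mm a i) (Bm p.2 (p.1 - gi (rep i + 2 • k))) :=
        (Psi1_cont _).comp (contDiff_Bm.continuous.comp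
          (continuous_snd.prodMk (continuous_fst.sub continuous_const)))
      fun_prop
    · refine ⟨{p' | ‖p'.1 - p.1‖ < 1 / 10}, (isOpen_lt (by fun_prop) continuous_const).mem_nhds
        (by simp), Set.Subsingleton.finite ?_⟩
      have e : ∀ (q : ℤ × ℤ) (p' : ℂ × ℝ), T q p'.1 p'.2 ≠ 0 → ‖p'.1 - p.1‖ < 1 / 10 →
          ‖p.1 - gi q‖ < 1 / 2 := fun q p' h1 h2 => by
        have h3 := T0 _ _ _ h1
        have h4 := norm_sub_le (p'.1 - gi q) (p'.1 - p.1)
        rw [sub_sub_sub_cancel_left] at h4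
        linarith
      rintro q ⟨p₁, h1, h2⟩ q' ⟨p₂, h3, h4⟩
      exact Psi1_uniq (e _ _ h1 h2) (e _ _ h3 h4)
  · by_cases h0 : ∀ q, T q x t = 0
    · simpa [h0] using h.ne x hx
    obtain ⟨q, hq⟩ := not_forall.1 h0
    obtain ⟨i, k, rfl⟩ := exists_rep q
    have h1 := T0 _ _ _ hq
    have h2 := sub_ne_zero.2 (hx (rep i + 2 • k))
    obtain ⟨v, hv⟩ : ∃ v, v = x - gi (rep i + 2 • k) := ⟨_, rfl⟩
    rw [← hv] at h1 h2
    obtain rfl : x = gi (rep i) + v + 2 * gi k := by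
      rw [hv, gi_add, gi_two]
      ring
    refine (per _ _ _).trans_ne (mul_ne_zero (Psi1_χ_ne a k) fun e => ?_)
    rw [T1 i v t h1] at e
    have h3 := h.half i v h2 h1
    have h4 : 0 < (d' i * pw (mm a i) (Bm t v) * (starRingEnd ℂ) (d i * pw (mm a i) v)).re := by
      have : d' i * pw (mm a i) (Bm t v) * (starRingEnd ℂ) (d i * pw (mm a i) v)
          = (Complex.normSq (d i) : ℂ) * pw (mm a i)
            (((Real.goldenRatio : ℂ) + Complex.I) * Bm t v * (starRingEnd ℂ) v) := by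
        rw [hd', Psi1_mul, Psi1_mul, Psi1_conj, map_mul, ← Complex.mul_conj]
        ring
      rw [this, Complex.re_ofReal_mul]
      exact mul_pos (Complex.normSq_pos.2 (hd i)) (Psi1_pos _ (Bm_pos t h2))
    have h5 := congrArg (fun z => (z * (starRingEnd ℂ) (d i * pw (mm a i) v)).re) e
    simp only [add_mul, mul_assoc (Psi1b ‖v‖ : ℂ), sub_mul, Complex.add_re, Complex.re_ofReal_mul,
      Complex.sub_re, zero_mul, Complex.zero_re] at h5
    obtain ⟨h6, h7⟩ := Psi1b_mem ‖v‖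
    rcases h6.eq_or_lt with h8 | h8
    · rw [← h8] at h5
      linarith
    · nlinarith [mul_pos h8 h4, mul_nonneg (sub_nonneg.2 h7) h3.le]
  · rw [neg_add, h.neg, ← finsum_neg_distrib, ← finsum_comp_equiv (Equiv.neg _)]
    refine congrArg _ (finsum_congr fun q => ?_)
    obtain ⟨i, k, rfl⟩ := exists_rep q
    have e : -x - gi (-(rep i + 2 • k)) = -(x - gi (rep i + 2 • k)) := by
      rw [gi_neg]
      ring
    have e' : -(rep i + 2 • k) = rep i + 2 • (-k + -rep i) := by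
      rw [two_nsmul, two_nsmul]
      abel
    rw [Equiv.neg_apply, hT, hT, e, norm_neg, e', hM, hM, h.neg, χ_add, Psi1_χ_neg, Psi1_χ_neg]
    rw [Bm_neg]
    push_cast
    linear_combination (Psi1b ‖x - gi (rep i + 2 • k)‖ : ℂ) * χ a k * d' i *
      Psi1_neg a i (Bm t (x - gi (rep i + 2 • k)))
  · rw [hd']
    refine mul_ne_zero (hd i) fun e => ?_
    have := Psi1_pos (mm a i) (v := (Real.goldenRatio : ℂ) + Complex.I)
      (by simpa using Real.goldenRatio_pos)
    rw [e] at this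
    exact lt_irrefl _ this
  · rw [T1 i v t (hv.trans (by norm_num)), Psi1b_one hv, Complex.ofReal_one, one_mul,
      add_sub_cancel]

end HK3
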