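import Pool.Agent.P.MP_9699e0_gt.PsDefs
import Pool.Agent.P.MP_9699e0_gt.Lat

/-! Even periodic logarithms and the monodromy matrix. -/

set_option autoImplicit false
set_option linter.unusedSectionVars false

noncomputable section

namespace HK3

open Pool.Agent.P.MP_9699e0_gt Set Filter Topology
open scoped ContDiff

theorem exists_even_log {h : ℂ → ℂ} (hc : Continuous h) (h0 : ∀ x, h x ≠ 0)
    (hn : ∀ x, h (-x) = h x) (hp : ∀ x m, h (x + 2 * gi m) = h x) :
    ∃ κ : ℂ → ℝ, Continuous κ ∧ (∀ x, h x = ‖h x‖ * ex (κ x)) ∧ (∀ x, κ (-x) = κ x) ∧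
      ∀ x m, κ (x + 2 * gi m) = κ x := by
  obtain ⟨κ, hκ, e⟩ : ∃ κ : ℂ → ℝ, Continuous κ ∧ ∀ x, h x = ‖h x‖ * ex (κ x) := by
    obtain ⟨F, ⟨-, hF⟩, -⟩ := Complex.isCoveringMapOn_exp.existsUnique_continuousMap_lifts
      (⟨h, hc⟩ : C(ℂ, ℂ)) (a₀ := 0) (Complex.exp_log (h0 _)) (fun t => h0 t)
    refine ⟨fun t => (F t).im / (2 * Real.pi), by fun_prop, fun t => ?_⟩
    have h1 : Complex.exp (F t) = h t := congrFun hF t
    have h2 : (2 * Real.pi * (((F t).im / (2 * Real.pi) : ℝ) : ℂ) * Complex.I : ℂ) =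
        (F t).im * Complex.I := by
      have : (Real.pi : ℂ) ≠ 0 := by exact_mod_cast Real.pi_ne_zero
      push_cast
      field_simp
    unfold ex
    rw [h2, ← h1, Complex.norm_exp, Complex.ofReal_exp, ← Complex.exp_add, Complex.re_add_im]
  have key : ∀ x y, h x = h y → ex (κ x) = ex (κ y) := fun x y hxy => by
    have h2 : ((‖h y‖ : ℝ) : ℂ) ≠ 0 := by exact_mod_cast norm_ne_zero_iff.2 (h0 y)
    refine mul_left_cancel₀ h2 ?_
    rw [← e y, ← hxy, ← e x]
  have hneg : ∀ x, κ (-x) = κ x := fun x => by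
    have := Wd_diff (θ := fun x => κ (-x)) (hκ.comp continuous_neg) hκ
      (fun x => key _ _ (hn x)) x 0
    simp only [neg_zero] at this
    linarith
  refine ⟨κ, hκ, e, hneg, fun x m => ?_⟩
  have := Wd_diff (θ := fun x => κ (x + 2 * gi m)) (hκ.comp (continuous_id.add continuous_const))
    hκ (fun x => key _ _ (hp x m)) x (-gi m)
  rw [show -gi m + 2 * gi m = gi m by ring, hneg] at this
  linarith

theorem conj_Bm (t : ℝ) (x : ℂ) : (starRingEnd ℂ) (Bm t x) = Bm (t + 1) (Am x) := by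
  have g2 := Real.goldenRatio_sq
  have e1 : Real.exp (hh * (t + 1)) = Real.exp (hh * t) * (2 * Real.goldenRatio + 1) := by
    rw [← Lat_exp, ← Real.exp_add]
    congr 1
    ring
  have e2 : Real.exp (-(hh * t)) = Real.exp (-(hh * (t + 1))) * (2 * Real.goldenRatio + 1) := by
    rw [← Lat_exp, ← Real.exp_add]
    congr 1
    ring
  apply Complex.ext
  · simp only [Complex.conj_re, Bm, dg, Am, Complex.mul_re, Complex.sub_re, Complex.sub_im,
      Complex.ofReal_re, Complex.ofReal_im, Complex.I_re, Complex.I_im]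
    rw [e2]
    generalize Real.goldenRatio = g at g2
    linear_combination (2 * Real.exp (-(hh * (t + 1))) * x.re) * g2
  · simp only [Complex.conj_im, Bm, dg, Am, Complex.mul_im, Complex.sub_re, Complex.sub_im,
      Complex.ofReal_re, Complex.ofReal_im, Complex.I_re, Complex.I_im]
    rw [e1]
    generalize Real.goldenRatio = g at g2
    linear_combination (-Real.exp (hh * t) * (4 * x.re + 2 * x.im)) * g2

theorem Am_Ai (x : ℂ) : Am (Ai x) = x := by
  apply Complex.ext <;> simp only [Am, Ai] <;> ring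

theorem Ai_Am (x : ℂ) : Ai (Am x) = x := by
  apply Complex.ext <;> simp only [Am, Ai] <;> ring

theorem Am_add (x y : ℂ) : Am (x + y) = Am x + Am y := by
  apply Complex.ext <;> simp only [Am, Complex.add_re, Complex.add_im] <;> ring

theorem Ai_add (x y : ℂ) : Ai (x + y) = Ai x + Ai y := by
  apply Complex.ext <;> simp only [Ai, Complex.add_re, Complex.add_im] <;> ring

theorem Am_neg (x : ℂ) : Am (-x) = -Am x := by
  apply Complex.ext <;> simp only [Am, Complex.neg_re, Complex.neg_im] <;> ring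

theorem Ai_neg (x : ℂ) : Ai (-x) = -Ai x := by
  apply Complex.ext <;> simp only [Ai, Complex.neg_re, Complex.neg_im] <;> ring

theorem Am_gi (m : ℤ × ℤ) : Am (gi m) = gi m + 2 * gi (m.1 + m.2, m.1) := by
  apply Complex.ext <;> simp [Am, gi] <;> ring

theorem Ai_gi (m : ℤ × ℤ) : Ai (gi m) = gi m + 2 * gi (m.2 - m.1, m.1 - 2 * m.2) := by
  apply Complex.ext <;> simp [Ai, gi] <;> ring

theorem Am_two (x : ℂ) : Am (2 * x) = 2 * Am x := by
  rw [two_mul, Am_add, two_mul]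

theorem Ai_two (x : ℂ) : Ai (2 * x) = 2 * Ai x := by
  rw [two_mul, Ai_add, two_mul]

theorem Am_mem_Pn {x : ℂ} : Am x ∈ Pn ↔ x ∈ Pn := by
  constructor
  · rintro h m rfl
    exact h _ (by rw [Am_gi, ← gi_two, ← gi_add])
  · intro h m e
    exact h _ (by rw [← Ai_Am x, e, Ai_gi, ← gi_two, ← gi_add])

theorem continuous_Am : Continuous Am := by
  have : Am = fun x : ℂ =>
      ((3 * x.re + 2 * x.im : ℝ) : ℂ) + ((2 * x.re + x.im : ℝ) : ℂ) * Complex.I :=
    funext fun x => by apply Complex.ext <;> simp [Am]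
  rw [this]
  fun_prop

theorem continuous_Ai : Continuous Ai := by
  have : Ai = fun x : ℂ =>
      ((-x.re + 2 * x.im : ℝ) : ℂ) + ((2 * x.re - 3 * x.im : ℝ) : ℂ) * Complex.I :=
    funext fun x => by apply Complex.ext <;> simp [Ai]
  rw [this]
  fun_prop

theorem norm_le_five {t : ℝ} (ht : |t| ≤ 3 / 2) (x : ℂ) : ‖x‖ ≤ 5 * ‖Bm t x‖ := by
  have h := Lat_low t x
  have hs := Lat_sq
  obtain ⟨b1, b2⟩ := Lat_bounds
  have g2 := Real.goldenRatio_sq
  have g0 := Real.goldenRatio_pos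
  have hl : 0 ≤ Real.log Real.goldenRatio := Real.log_nonneg Real.one_lt_goldenRatio.le
  have e1 : Real.exp (hh * |t|) ^ 2 ≤ Real.goldenRatio ^ 9 := by
    have e2 : Real.goldenRatio ^ 9 = Real.exp ((9 : ℕ) * Real.log Real.goldenRatio) := by
      rw [Real.exp_nat_mul, Real.exp_log g0]
    rw [e2, ← Real.exp_nat_mul]
    apply Real.exp_le_exp.2
    have := mul_le_mul_of_nonneg_left ht hl
    unfold hh
    push_cast
    nlinarith
  have e3 : Real.goldenRatio ^ 9 = 34 * Real.goldenRatio + 21 := by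
    generalize Real.goldenRatio = g at g2
    linear_combination
      (g ^ 7 + g ^ 6 + 2 * g ^ 5 + 3 * g ^ 4 + 5 * g ^ 3 + 8 * g ^ 2 + 13 * g + 21) * g2
  have h2 := pow_le_pow_left₀ (by positivity) h 2
  rw [mul_pow, mul_pow, hs] at h2
  apply le_of_sq_le_sq _ (by positivity)
  have h3 := mul_le_mul_of_nonneg_right e1 (sq_nonneg ‖Bm t x‖)
  have h4 := mul_le_mul_of_nonneg_right b1 (sq_nonneg ‖x‖)
  have h5 := mul_le_mul_of_nonneg_right b2 (sq_nonneg ‖Bm t x‖)
  have h6 := sq_nonneg ‖Bm t x‖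
  rw [e3] at h3
  rw [mul_pow]
  nlinarith

theorem Psi2_χ (a : Fin 3) (m m' : ℤ × ℤ) : χ a (m + 2 • m') = χ a m := by
  rw [two_nsmul, χ_add, χ_add, show χ a m' * χ a m' = 1 from sg_mul_self _, mul_one]

theorem Psi2_χ_ne (a : Fin 3) (m : ℤ × ℤ) : (χ a m : ℂ) ≠ 0 := by
  have := sg_mul_self ((rep (cl a)).1 * m.2 - (rep (cl a)).2 * m.1)
  exact_mod_cast left_ne_zero_of_mul_eq_one this

theorem Psi2_pw (m : ℤ) (w : ℂ) : (starRingEnd ℂ) (pw m ((starRingEnd ℂ) w)) = pw m w := by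
  unfold pw
  split_ifs <;> simp

theorem Psi2_inj {m m' : ℤ × ℤ} (h : gi m = gi m') : m = m' := by
  have h1 : (m.1 : ℝ) = m'.1 := congrArg Complex.re h
  have h2 : (m.2 : ℝ) = m'.2 := congrArg Complex.im h
  exact Prod.ext (by exact_mod_cast h1) (by exact_mod_cast h2)

theorem Psi2_near {q : ℤ × ℤ} {v : ℂ} (h0 : v ≠ 0) (h1 : ‖v‖ < 1) : gi q + v ∈ Pn := fun m e => by
  have e' : v = gi (m + -q) := by rw [gi_add, gi_neg, ← e]; ring
  by_cases h : m + -q = 0
  · exact h0 (by rw [e', h, gi_zero])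
  · exact (one_le_gi h).not_gt (e' ▸ h1)

theorem Psi2_Pn {x : ℂ} (h : x ∉ Pn) : ∃ i m, x = gi (rep i + 2 • m) := by
  obtain ⟨q, hq⟩ := not_forall.1 h
  obtain ⟨i, m, rfl⟩ := exists_rep q
  exact ⟨i, m, not_not.1 hq⟩

theorem Psi2_loc {a : Fin 3} {φ : ℂ → ℝ → ℂ} {d : I4 → ℂ} (h : GoodQ a φ d) (i : I4) (m : ℤ × ℤ)
    {v : ℂ} (h1 : ‖v‖ < 3 / 50) (h2 : ‖Am v‖ < 3 / 50) :
    (starRingEnd ℂ) (φ (Am (gi (rep i + 2 • m) + v)) (1 / 2)) =
      eps a i * (starRingEnd ℂ) (d i) / d i * φ (gi (rep i + 2 • m) + v) (-(1 / 2)) := by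
  have e1 : gi (rep i + 2 • m) + v = gi (rep i) + v + 2 * gi m := by
    rw [gi_add, gi_two]
    ring
  have e2 : Am (gi (rep i) + v + 2 * gi m) = gi (rep i) + Am v +
      2 * gi (((rep i).1 + (rep i).2, (rep i).1) + (m + 2 • (m.1 + m.2, m.1))) := by
    rw [Am_add, Am_add, Am_two, Am_gi, Am_gi, gi_add, gi_add, gi_two]
    ring
  have e3 : Bm (1 / 2) (Am v) = (starRingEnd ℂ) (Bm (-(1 / 2)) v) := by
    rw [conj_Bm]
    norm_num
  have := h.dne i
  rw [e1, e2, h.per, h.per, h.std _ _ _ h1, h.std _ _ _ h2, e3, χ_add, Psi2_χ, map_mul, map_mul,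
    Psi2_pw, Complex.conj_ofReal, eps]
  push_cast
  field_simp

/-- The logarithm of the monodromy defect. -/
theorem GoodQ.exists_kappa {a : Fin 3} {φ : ℂ → ℝ → ℂ} {d : I4 → ℂ} (h : GoodQ a φ d) :
    ∃ (κ : ℂ → ℝ) (c : I4 → ℝ), Continuous κ ∧ (∀ x, κ (-x) = κ x) ∧
      (∀ x m, κ (x + 2 * gi m) = κ x) ∧
      (∀ x ∈ Pn, (starRingEnd ℂ) (φ (Am x) (1 / 2) / ‖φ (Am x) (1 / 2)‖) =
        φ x (-(1 / 2)) / ‖φ x (-(1 / 2))‖ * ex (κ x)) ∧
      (∀ i v, ‖v‖ < 3 / 50 → ‖Am v‖ < 3 / 50 → κ (gi (rep i) + v) = c i) ∧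
      ∀ i, ex (c i) * d i = eps a i * (starRingEnd ℂ) (d i) := by
  classical
  let c0 : I4 → ℂ := fun i => eps a i * (starRingEnd ℂ) (d i) / d i
  have hc0 : ∀ i, ‖c0 i‖ = 1 := fun i => by
    have h1 : ‖(eps a i : ℂ)‖ = 1 := by
      rw [Complex.norm_real, eps, χ]
      rcases sg_cases ((rep (cl a)).1 * (rep i).1 - (rep (cl a)).2 * ((rep i).1 + (rep i).2))
        with e | e <;> simp [e.1]
    rw [norm_div, norm_mul, h1, Complex.norm_conj, one_mul,
      div_self (norm_ne_zero_iff.2 (h.dne i))]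
  let H : ℂ → ℂ := fun x => if x ∈ Pn then (starRingEnd ℂ) (φ (Am x) (1 / 2)) / φ x (-(1 / 2))
    else c0 (Classical.epsilon fun i => ∃ m, x = gi (rep i + 2 • m))
  have hP : ∀ x ∈ Pn, H x = (starRingEnd ℂ) (φ (Am x) (1 / 2)) / φ x (-(1 / 2)) :=
    fun x hx => if_pos hx
  have hA0 : Am 0 = 0 := by apply Complex.ext <;> simp [Am]
  have hL0 : ∀ i m, H (gi (rep i + 2 • m)) = c0 i := fun i m => by
    have hn : gi (rep i + 2 • m) ∉ Pn := fun e => e _ rfl
    obtain ⟨m', e⟩ := Classical.epsilon_spec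
      (p := fun j => ∃ m', gi (rep i + 2 • m) = gi (rep j + 2 • m')) ⟨i, m, rfl⟩
    exact (if_neg hn).trans (congrArg c0 (rep_unique (Psi2_inj e)).symm)
  have hL : ∀ i m v, ‖v‖ < 3 / 50 → ‖Am v‖ < 3 / 50 → H (gi (rep i + 2 • m) + v) = c0 i := by
    intro i m v h1 h2
    by_cases h0 : v = 0
    · rw [h0, add_zero, hL0]
    · have hm := Psi2_near (q := rep i + 2 • m) h0 (by linarith)
      rw [hP _ hm, Psi2_loc h i m h1 h2, mul_div_cancel_right₀ _ (h.ne _ hm _)]
  have hφ : ∀ t, Continuous fun x => φ x t := fun t =>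
    h.cont.comp (continuous_id.prodMk continuous_const)
  have hcont : Continuous H := continuous_iff_continuousAt.2 fun x => by
    by_cases hx : x ∈ Pn
    · refine ContinuousAt.congr ?_
        (eventually_of_mem (isOpen_Pn.mem_nhds hx) fun y hy => (hP y hy).symm)
      exact (Complex.continuous_conj.comp ((hφ _).comp continuous_Am)).continuousAt.div
        (hφ _).continuousAt (h.ne x hx _)
    · obtain ⟨i, m, rfl⟩ := Psi2_Pn hx
      refine ContinuousAt.congr (f := fun _ => c0 i) continuousAt_const ?_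
      have h1 : ∀ᶠ y in 𝓝 (gi (rep i + 2 • m)), ‖y - gi (rep i + 2 • m)‖ < 3 / 50 :=
        (continuous_id.sub continuous_const).norm.continuousAt.eventually_lt continuousAt_const
          (by simp)
      have h2 : ∀ᶠ y in 𝓝 (gi (rep i + 2 • m)), ‖Am (y - gi (rep i + 2 • m))‖ < 3 / 50 :=
        (continuous_Am.comp (continuous_id.sub continuous_const)).norm.continuousAt.eventually_lt
          continuousAt_const (by simp [hA0])
      filter_upwards [h1, h2] with y e1 e2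
      rw [← hL i m _ e1 e2, add_sub_cancel]
  have hne : ∀ x, H x ≠ 0 := fun x => by
    by_cases hx : x ∈ Pn
    · rw [hP x hx]
      exact div_ne_zero ((map_ne_zero _).2 (h.ne _ (Am_mem_Pn.2 hx) _)) (h.ne x hx _)
    · obtain ⟨i, m, rfl⟩ := Psi2_Pn hx
      rw [hL0, ← norm_ne_zero_iff, hc0]
      exact one_ne_zero
  obtain ⟨κ, hκ, e, hn, hp⟩ := exists_even_log hcont hne (fun x => by
    by_cases hx : x ∈ Pn
    · have hx' : -x ∈ Pn := fun m e => hx (-m) (by rw [gi_neg, ← e, neg_neg])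
      rw [hP _ hx', hP _ hx, Am_neg, h.neg, h.neg, map_neg, neg_div_neg_eq]
    · obtain ⟨i, m, rfl⟩ := Psi2_Pn hx
      rw [← gi_neg, show -(rep i + 2 • m) = rep i + 2 • (-m - rep i) by abel, hL0, hL0])
    fun x m => by
      by_cases hx : x ∈ Pn
      · have hx' : x + 2 * gi m ∈ Pn := fun q e => hx (q + -(2 • m)) (by
          rw [gi_add, gi_neg, gi_two, ← e]; ring)
        rw [hP _ hx', hP _ hx, Am_add, Am_two, Am_gi, ← gi_two (m.1 + m.2, m.1), ← gi_add, h.per,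
          h.per, Psi2_χ, map_mul, Complex.conj_ofReal, mul_div_mul_left _ _ (Psi2_χ_ne a m)]
      · obtain ⟨i, m', rfl⟩ := Psi2_Pn hx
        rw [← gi_two, ← gi_add, show rep i + 2 • m' + 2 • m = rep i + 2 • (m' + m) by abel, hL0,
          hL0]
  have hex : ∀ i v, ‖v‖ < 3 / 50 → ‖Am v‖ < 3 / 50 → ex (κ (gi (rep i) + v)) = c0 i := by
    intro i v h1 h2
    have h3 := hL i 0 v h1 h2
    rw [smul_zero, add_zero] at h3
    have h4 := e (gi (rep i) + v)
    rw [h3, hc0, Complex.ofReal_one, one_mul] at h4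
    exact h4.symm
  have hex0 : ∀ i, ex (κ (gi (rep i))) = c0 i := fun i => by
    simpa using hex i 0 (by simp) (by simp [hA0])
  refine ⟨κ, fun i => κ (gi (rep i)), hκ, hn, hp, fun x hx => ?_, fun i v h1 h2 => ?_, fun i => ?_⟩
  · have h1 := e x
    have n1 := h.ne _ (Am_mem_Pn.2 hx) (1 / 2)
    have n2 := h.ne x hx (-(1 / 2))
    rw [hP x hx, norm_div, Complex.norm_conj, div_eq_iff n2] at h1
    have n3 : ((‖φ (Am x) (1 / 2)‖ : ℝ) : ℂ) ≠ 0 := by exact_mod_cast norm_ne_zero_iff.2 n1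
    have n4 : ((‖φ x (-(1 / 2))‖ : ℝ) : ℂ) ≠ 0 := by exact_mod_cast norm_ne_zero_iff.2 n2
    rw [map_div₀, Complex.conj_ofReal, h1]
    push_cast
    field_simp
  · have := Wd_diff (A := unitInterval) (θ := fun s => κ (gi (rep i) + ((s : ℝ) : ℂ) * v))
      (φ := fun _ => κ (gi (rep i))) (by fun_prop) continuous_const (fun s => by
        have hs : ∀ w : ℂ, ‖((s : ℝ) : ℂ) * w‖ ≤ ‖w‖ := fun w => by
          rw [norm_mul, Complex.norm_real, Real.norm_of_nonneg s.2.1]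
          exact mul_le_of_le_one_left (norm_nonneg w) s.2.2
        have hA : Am (((s : ℝ) : ℂ) * v) = ((s : ℝ) : ℂ) * Am v := by
          apply Complex.ext <;> simp [Am] <;> ring
        rw [hex0, hex i _ ((hs v).trans_lt h1) (hA ▸ (hs _).trans_lt h2)]) 1 0
    simpa [sub_eq_zero] using this
  · rw [hex0]
    exact div_mul_cancel₀ _ (h.dne i)

end HK3
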