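import Pool.Agent.P.MP_9699e0_gt.Psi2

/-! The circle valued function on a strip. -/

set_option autoImplicit false
set_option linter.unusedSectionVars false

noncomputable section

namespace HK3

open Pool.Agent.P.MP_9699e0_gt Set Filter Topology
open scoped ContDiff

theorem Psi3a_Bi_add (t : ℝ) (x y : ℂ) : Bi t (Bm t x + y) = x + Bi t y := by
  conv_lhs => rw [← Bm_Bi t y, ← Bm_add, Bi_Bm]

theorem Psi3a_Bi_neg (t : ℝ) (y : ℂ) : Bi t (-y) = -Bi t y := by
  conv_lhs => rw [← Bm_Bi t y, ← Bm_neg, Bi_Bm]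

theorem Psi3a_neg_mem {x : ℂ} : -x ∈ Pn ↔ x ∈ Pn := by
  constructor
  · intro h m e
    exact h (-m) (by rw [e, gi_neg])
  · intro h m e
    exact h (-m) (by rw [gi_neg, ← e, neg_neg])

theorem Psi3a_add_mem {x : ℂ} (m : ℤ × ℤ) : x + 2 * gi m ∈ Pn ↔ x ∈ Pn := by
  constructor
  · intro h m' e
    exact h (m' + 2 • m) (by rw [e, gi_add, gi_two])
  · intro h m' e
    exact h (m' + -(2 • m)) (by rw [gi_add, gi_neg, gi_two, ← e]; ring)

theorem Psi3a_pw (a : Fin 3) (i : I4) {r : ℝ} (hr : 0 < r) (u : ℝ) :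
    (pw (mm a i) (r * ex (u / 4)) / (‖pw (mm a i) (r * ex (u / 4))‖ : ℝ)) ^ 2 =
      ex (mm a i * u / 2) := by
  have h0 : (r : ℂ) ≠ 0 := Complex.ofReal_ne_zero.2 hr.ne'
  have h1 : ‖(r : ℂ) * ex (u / 4)‖ = r := by
    rw [norm_mul, norm_ex, mul_one, Complex.norm_real, Real.norm_of_nonneg hr.le]
  unfold mm
  split_ifs
  · rw [pw, if_pos rfl, h1, mul_div_cancel_left₀ _ h0, sq, ← ex_add]
    congr 1
    push_cast
    ring
  · rw [pw, if_neg (by norm_num), if_pos rfl, RCLike.norm_conj, h1, map_mul, Complex.conj_ofReal,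
      mul_div_cancel_left₀ _ h0, ← ex_neg, sq, ← ex_add]
    congr 1
    push_cast
    ring
  · rw [pw, if_neg (by norm_num), if_neg (by norm_num)]
    simp [ex_zero]

open Classical in
/-- The function in the coordinates of the fixed lattice. -/
def Psi3a_G (φ : ℂ → ℝ → ℂ) (κ : ℂ → ℝ) (x : ℂ) (t : ℝ) : ℂ :=
  if x ∈ Pn then (φ x t / (‖φ x t‖ : ℝ)) ^ 2 * ex ((1 / 2 - t) * κ x + (1 / 2 + t) * κ (Ai x))
  else 1

theorem GoodQ.exists_psiS {a : Fin 3} {φ : ℂ → ℝ → ℂ} {d : I4 → ℂ} (h : GoodQ a φ d) :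
    ∃ ψ, PsiS a ψ := by
  classical
  obtain ⟨κ, c, hc, hneg, hper, hcnj, hconst, hd⟩ := h.exists_kappa
  refine ⟨fun y t => Psi3a_G φ κ (Bi t y) t, ?_, fun y t => ?_, fun y t => ?_, fun y t m => ?_,
    fun y => ?_, fun i t r u ht hr hρ => ?_⟩
  · have ct : Continuous fun ξ : E => ξ.2.im := by fun_prop
    have cB : Continuous fun ξ : E => Bi ξ.2.im ξ.1 :=
      contDiff_Bi.continuous.comp (ct.prodMk continuous_fst)
    have cφ : Continuous fun ξ : E => φ (Bi ξ.2.im ξ.1) ξ.2.im := h.cont.comp (cB.prodMk ct)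
    have cκ : Continuous fun ξ : E => ex ((1 / 2 - ξ.2.im) * κ (Bi ξ.2.im ξ.1) +
        (1 / 2 + ξ.2.im) * κ (Ai (Bi ξ.2.im ξ.1))) :=
      continuous_ex.comp (((continuous_const.sub ct).mul (hc.comp cB)).add
        ((continuous_const.add ct).mul (hc.comp (continuous_Ai.comp cB))))
    refine ContinuousOn.congr (((cφ.continuousOn.div
      (Complex.continuous_ofReal.comp cφ.norm).continuousOn fun ξ hξ => ?_).pow 2).mul
      cκ.continuousOn) fun ξ hξ => if_pos ((mem_W0_iff ξ).1 hξ.1)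
    exact Complex.ofReal_ne_zero.2 (norm_ne_zero_iff.2 (h.ne _ ((mem_W0_iff ξ).1 hξ.1) _))
  · unfold Psi3a_G
    split_ifs with hx
    · rw [norm_mul, norm_ex, norm_pow, norm_div, Complex.norm_real, norm_norm,
        div_self (norm_ne_zero_iff.2 (h.ne _ hx _)), one_pow, one_mul]
    · exact norm_one
  · rw [Psi3a_Bi_neg]
    simp only [Psi3a_G, h.neg, norm_neg, neg_div, neg_sq, hneg, Ai_neg]
    exact if_congr Psi3a_neg_mem rfl rfl
  · have e1 : Bi t (y + 2 * β t m) = Bi t y + 2 * gi m := by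
      rw [← β_two, add_comm, β, Psi3a_Bi_add, gi_two, add_comm]
    have e2 : ∀ x, κ (Ai (x + 2 * gi m)) = κ (Ai x) := fun x => by
      rw [Ai_add, Ai_two, Ai_gi, ← gi_two (m.2 - m.1, m.1 - 2 * m.2), ← gi_add, hper]
    have e3 : ∀ z : ℂ, (χ a m * z / (‖χ a m * z‖ : ℝ)) ^ 2 = (z / (‖z‖ : ℝ)) ^ 2 := fun z => by
      rcases sg_cases ((rep (cl a)).1 * m.2 - (rep (cl a)).2 * m.1) with h1 | h1 <;>
        simp [χ, h1.1, neg_div]
    rw [e1]
    simp only [Psi3a_G, h.per, e2, e3, hper]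
    exact if_congr (Psi3a_add_mem m) rfl rfl
  · have e1 : Bi (1 / 2) ((starRingEnd ℂ) y) = Am (Bi (-(1 / 2)) y) := by
      conv_lhs => rw [← Bm_Bi (-(1 / 2)) y, conj_Bm]
      rw [show (-(1 / 2) + 1 : ℝ) = 1 / 2 by norm_num, Bi_Bm]
    simp only [e1]
    generalize Bi (-(1 / 2)) y = x
    unfold Psi3a_G
    by_cases hx : x ∈ Pn
    · have h1 := congrArg (starRingEnd ℂ) (hcnj x hx)
      rw [Complex.conj_conj, map_mul, ← ex_neg] at h1
      rw [if_pos hx, if_pos (Am_mem_Pn.2 hx), h1, Ai_Am, map_mul, map_pow, ← ex_neg, mul_pow,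
        mul_assoc, sq (ex _), ← ex_add, ← ex_add]
      congr 2
      ring
    · rw [if_neg hx, if_neg fun h => hx (Am_mem_Pn.1 h), map_one]
  · have hw : ‖(r : ℂ) * ex (u / 4)‖ = r := by
      rw [norm_mul, norm_ex, mul_one, Complex.norm_real, Real.norm_of_nonneg hr.le]
    have hpw := Psi3a_pw a i hr u
    generalize (r : ℂ) * ex (u / 4) = w at hw hpw ⊢
    obtain ⟨v, rfl⟩ : ∃ v, w = Bm t v := ⟨_, (Bm_Bi t w).symm⟩
    rw [ρ] at hρ
    rw [abs_le] at ht
    have n1 : ‖v‖ < 3 / 50 := by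
      have := norm_le_five (t := t) (abs_le.2 ⟨by linarith, by linarith⟩) v
      linarith
    have n2 : ‖Am v‖ < 3 / 50 := by
      have := norm_le_five (t := t + 1) (abs_le.2 ⟨by linarith, by linarith⟩) (Am v)
      rw [← conj_Bm, RCLike.norm_conj] at this
      linarith
    have n3 : ‖Ai v‖ < 3 / 50 := by
      have := norm_le_five (t := t - 1) (abs_le.2 ⟨by linarith, by linarith⟩) (Ai v)
      rw [← RCLike.norm_conj (Bm (t - 1) (Ai v)), conj_Bm, sub_add_cancel, Am_Ai] at this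
      linarith
    have hx : gi (rep i) + v ∈ Pn := fun m e => by
      have e1 : v = gi (m + -rep i) := by rw [gi_add, gi_neg, ← e]; ring
      by_cases h0 : m + -rep i = 0
      · rw [h0, gi_zero] at e1
        have e2 := Bm_mul t 0 0
        rw [Complex.ofReal_zero, zero_mul, zero_mul] at e2
        rw [e1, e2, norm_zero] at hw
        exact hr.ne hw
      · have := one_le_gi h0
        rw [← e1] at this
        linarith
    have k1 := hconst i v n1 n2
    have k2 : κ (Ai (gi (rep i) + v)) = c i := by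
      rw [Ai_add, Ai_gi, add_right_comm, hper]
      exact hconst i _ n3 (by rwa [Am_Ai])
    have d0 := h.dne i
    have d1 : ((‖d i‖ : ℝ) : ℂ) ≠ 0 := Complex.ofReal_ne_zero.2 (norm_ne_zero_iff.2 d0)
    have d2 : (d i / (‖d i‖ : ℝ)) ^ 2 * ex (c i) = eps a i := by
      rw [div_pow, div_mul_eq_mul_div, div_eq_iff (pow_ne_zero 2 d1), ← Complex.mul_conj']
      linear_combination d i * hd i
    rw [β, Psi3a_Bi_add, Bi_Bm, Psi3a_G, if_pos hx, k1, k2, h.std i v t n1, norm_mul,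
      Complex.ofReal_mul, mul_div_mul_comm, mul_pow, hpw, ← d2,
      show (1 / 2 - t) * c i + (1 / 2 + t) * c i = c i by ring]
    ring

end HK3
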