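import Pool.Agent.P.MP_9699e0_gt.Psi0
import Pool.Agent.P.MP_9699e0_gt.Psi1
import Pool.Agent.P.MP_9699e0_gt.Psi3a

/-! Extension to all times. -/

set_option autoImplicit false
set_option linter.unusedSectionVars false

noncomputable section

namespace HK3

open Pool.Agent.P.MP_9699e0_gt Set Filter Topology
open scoped ContDiff

theorem Psi3b_neg (k : ℤ) (y : ℂ) : cj (-k) y = cj k y := by
  simp only [cj, sg_neg]

theorem Psi3b_self (k : ℤ) (y : ℂ) : cj k (cj k y) = y := by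
  rw [← Psi3b_neg k y, cj_cj, add_neg_cancel, cj_zero]

theorem Psi3b_succ (k : ℤ) (y : ℂ) : cj (k + 1) y = (starRingEnd ℂ) (cj k y) := by
  rw [← cj_one, cj_cj, add_comm]

theorem Psi3b_succ' (k : ℤ) (y : ℂ) : cj (k + 1) y = cj k ((starRingEnd ℂ) y) := by
  rw [← cj_one, cj_cj]

theorem Psi3b_cont (k : ℤ) : Continuous (cj k) := by
  have e : cj k = fun y : ℂ => (y.re : ℂ) + ((sg k * y.im : ℝ) : ℂ) * Complex.I := by
    funext y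
    apply Complex.ext <;> simp [cj]
  rw [e]
  fun_prop

theorem Psi3b_β (k : ℤ) (t : ℝ) (m : ℤ × ℤ) : ∃ m', cj k (β t m) = β (t - k) (m + 2 • m') := by
  obtain ⟨m', h⟩ := β_shift (-k) t m
  refine ⟨m', ?_⟩
  rw [← Psi3b_neg, h, Int.cast_neg, sub_eq_add_neg]

theorem Psi3b_two (k : ℤ) (y : ℂ) : cj k (2 * y) = 2 * cj k y := by
  simpa using cj_mul k 2 y

theorem Psi3b_abs (t : ℝ) : |t - (⌊t + 1 / 2⌋ : ℤ)| ≤ 1 / 2 := by
  have h1 := Int.floor_le (t + 1 / 2)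
  have h2 := Int.lt_floor_add_one (t + 1 / 2)
  rw [abs_le]
  constructor <;> linarith

/-- The formula on the strip around `k`. -/
def Psi3b_G (ψ : ℂ → ℝ → ℂ) (k : ℤ) (y : ℂ) (t : ℝ) : ℂ := cj k (ψ (cj k y) (t - k))

theorem Psi3b_eq {a : Fin 3} {ψ : ℂ → ℝ → ℂ} (h : PsiS a ψ) {k : ℤ} {t : ℝ}
    (ht : |t - k| ≤ 1 / 2) (y : ℂ) : Psi3b_G ψ ⌊t + 1 / 2⌋ y t = Psi3b_G ψ k y t := by
  obtain ⟨h1, h2⟩ := abs_le.1 ht
  rcases h2.lt_or_eq with h3 | h3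
  · rw [Int.floor_eq_iff.2 ⟨(by linarith : (k : ℝ) ≤ t + 1 / 2), by linarith⟩]
  · have e : ⌊t + 1 / 2⌋ = k + 1 := Int.floor_eq_iff.2 ⟨by push_cast; linarith, by
      push_cast; linarith⟩
    have e1 : t - ((k + 1 : ℤ) : ℝ) = -(1 / 2) := by push_cast; linarith
    have e2 : cj k y = (starRingEnd ℂ) (cj (k + 1) y) := by rw [Psi3b_succ, Complex.conj_conj]
    rw [e, Psi3b_G, Psi3b_G, e1, h3, e2, h.cnj, Psi3b_succ']

theorem Psi3b_strip {a : Fin 3} {ψ : ℂ → ℝ → ℂ} (h : PsiS a ψ) (k : ℤ) :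
    ContinuousOn (fun ξ : E => Psi3b_G ψ ⌊ξ.2.im + 1 / 2⌋ ξ.1 ξ.2.im)
      {ξ | ξ ∈ W0 ∧ |ξ.2.im - k| ≤ 1 / 2} := by
  refine ContinuousOn.congr (f := fun ξ : E => Psi3b_G ψ k ξ.1 ξ.2.im) ?_
    fun ξ hξ => Psi3b_eq h hξ.2 ξ.1
  have e : ∀ ξ : E, (ξ.2 - k * Complex.I).im = ξ.2.im - k := fun ξ => by simp
  have hc : Continuous fun ξ : E => ((cj k ξ.1, ξ.2 - k * Complex.I) : E) :=
    ((Psi3b_cont k).comp continuous_fst).prodMk (by fun_prop)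
  have h1 := h.cont.comp (s := {ξ : E | ξ ∈ W0 ∧ |ξ.2.im - k| ≤ 1 / 2}) hc.continuousOn
    fun ξ hξ => ⟨fun m hm => ?_, by rw [e]; exact hξ.2⟩
  · refine ((Psi3b_cont k).comp_continuousOn h1).congr fun ξ _ => ?_
    simp only [Psi3b_G, Function.comp_apply, e]
  · obtain ⟨m', hm'⟩ := β_shift k (ξ.2.im - k) m
    rw [sub_add_cancel] at hm'
    refine hξ.1 (m + 2 • m') ?_
    have h2 : cj k ξ.1 = β (ξ.2.im - k) m := by rw [← e]; exact hm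
    rw [← hm', ← h2, Psi3b_self]

theorem Psi3b_all {a : Fin 3} {ψ : ℂ → ℝ → ℂ} (h : PsiS a ψ) :
    ContinuousOn (fun ξ : E => Psi3b_G ψ ⌊ξ.2.im + 1 / 2⌋ ξ.1 ξ.2.im) W0 := by
  intro ξ hξ
  have h1 : ∀ k : ℤ, ContinuousWithinAt
      (fun ξ : E => Psi3b_G ψ ⌊ξ.2.im + 1 / 2⌋ ξ.1 ξ.2.im)
      {ξ | ξ ∈ W0 ∧ |ξ.2.im - k| ≤ 1 / 2} ξ := by
    intro k
    by_cases hk : |ξ.2.im - k| ≤ 1 / 2
    · exact Psi3b_strip h k ξ ⟨hξ, hk⟩
    · refine continuousWithinAt_of_notMem_closure fun hc => hk ?_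
      have h2 : IsClosed {ξ : E | |ξ.2.im - k| ≤ 1 / 2} :=
        isClosed_le (by fun_prop) continuous_const
      exact closure_minimal (fun _ hx => hx.2) h2 hc
  obtain ⟨k, hk⟩ : ∃ k : ℤ, k = ⌊ξ.2.im + 1 / 2⌋ := ⟨_, rfl⟩
  have h2 := Int.floor_le (ξ.2.im + 1 / 2)
  have h3 := Int.lt_floor_add_one (ξ.2.im + 1 / 2)
  rw [← hk] at h2 h3
  refine ((h1 (k - 1)).union (h1 k)).mono_of_mem_nhdsWithin ?_
  have h4 : IsOpen ((fun ξ : E => ξ.2.im) ⁻¹' Ioo ((k : ℝ) - 3 / 2) (k + 1 / 2)) :=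
    isOpen_Ioo.preimage (by fun_prop)
  refine mem_nhdsWithin.2 ⟨_, h4, ⟨by linarith, by linarith⟩, fun x hx => ?_⟩
  obtain ⟨⟨h5, h6⟩, h7⟩ := hx
  rcases le_total x.2.im (k - 1 / 2) with h8 | h8
  · refine Or.inl ⟨h7, abs_le.2 ?_⟩
    push_cast
    constructor <;> linarith
  · exact Or.inr ⟨h7, abs_le.2 ⟨by linarith, by linarith⟩⟩

theorem psi_of_psiS {ψ : Fin 3 → ℂ → ℝ → ℂ} (h : ∀ a, PsiS a (ψ a)) : ∃ ψ', Psi ψ' := by
  refine ⟨fun a y t => Psi3b_G (ψ a) ⌊t + 1 / 2⌋ y t, fun a => Psi3b_all (h a), fun a y t => ?_,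
    fun a y t => ?_, fun a y t m => ?_, fun a y t => ?_, fun a i t r u hr hr' => ?_⟩
  · rw [Psi3b_G, norm_cj, (h a).norm]
  · have e : ∀ k, cj k (-y) = -cj k y := fun k => by simpa using cj_mul k (-1) y
    rw [Psi3b_G, Psi3b_G, e, (h a).neg]
  · obtain ⟨m', hm⟩ := Psi3b_β ⌊t + 1 / 2⌋ t m
    rw [Psi3b_G, Psi3b_G, cj_add, Psi3b_two, hm, (h a).per]
  · have e : ⌊t + 1 + 1 / 2⌋ = ⌊t + 1 / 2⌋ + 1 := by rw [add_right_comm, Int.floor_add_one]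
    have e1 : ∀ k : ℤ, t + 1 - ((k + 1 : ℤ) : ℝ) = t - k := fun k => by push_cast; ring
    rw [e, Psi3b_G, Psi3b_G, e1, Psi3b_succ' _ ((starRingEnd ℂ) y), Complex.conj_conj, Psi3b_succ]
  · have ha := Psi3b_abs t
    generalize ⌊t + 1 / 2⌋ = k at ha ⊢
    obtain ⟨m', hm⟩ := Psi3b_β k t (rep i)
    have e1 : cj k (ex (u / 4)) = ex (sg k * u / 4) := by rw [cj_ex, mul_div_assoc]
    have e2 : sg k * (mm a i * (sg k * u) / 2) = mm a i * u / 2 := by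
      linear_combination (mm a i * u / 2) * sg_mul_self k
    rw [Psi3b_G, cj_add, cj_mul, hm, β_add, β_two, add_right_comm, (h a).per, e1,
      (h a).tub i _ r _ ha hr hr', cj_mul, cj_ex, e2]

theorem exists_psi : ∃ ψ, Psi ψ := by
  have h : ∀ a, ∃ ψ, PsiS a ψ := fun a => by
    obtain ⟨φ, d, h⟩ := exists_goodP a
    obtain ⟨φ', d', h'⟩ := h.exists_goodQ
    exact h'.exists_psiS
  choose ψ hψ using h
  exact psi_of_psiS hψ

end HK3
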