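import Pool.Agent.P.MP_9699e0_gt.Mt2

/-! Homology of tori and of the punctured space. -/

set_option autoImplicit false
set_option linter.unusedSectionVars false

noncomputable section

namespace HK3

open Pool.Agent.P.MP_9699e0_gt Set Filter Topology
open scoped ContDiff

variable {R : Type} [CommRing R] [Algebra R ℝ] [FaithfulSMul R ℝ]

/-- Direction of the first coordinate. -/
def puT1 (p : E) : ℂ := p.1 / ‖p.1‖

/-- Direction of the second coordinate. -/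
def puT2 (p : E) : ℂ := p.2 / ‖p.2‖

/-- Rotation of the first coordinate. -/
def puR1 (s : ℝ) (p : E) : E := (ex s * p.1, p.2)

/-- Rotation of the second coordinate. -/
def puR2 (s : ℝ) (p : E) : E := (p.1, ex s * p.2)

/-- The positive real axis. -/
def puPos : Set ℂ := {z | 0 < z.re ∧ z.im = 0}

theorem pu_convex : Convex ℝ puPos :=
  (convex_halfSpace_re_gt 0).inter (convex_hyperplane (f := Complex.im) ⟨Complex.add_im,
    fun c z => by simp⟩ 0)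

theorem pu_one : (1 : ℂ) ∈ puPos := ⟨by simp, by simp⟩

theorem pu_mem {z : ℂ} : z ∈ puPos ↔ z ≠ 0 ∧ z / ‖z‖ = 1 := by
  constructor
  · rintro ⟨h1, h2⟩
    have e : z = (z.re : ℂ) := Complex.ext (by simp) (by simp [h2])
    have h0 : z ≠ 0 := by
      rintro rfl
      simp at h1
    refine ⟨h0, ?_⟩
    have hn : ‖z‖ = z.re := by
      conv_lhs => rw [e]
      rw [Complex.norm_real, Real.norm_of_nonneg h1.le]
    rw [hn, ← e, div_self h0]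
  · rintro ⟨h0, h1⟩
    have hn : (‖z‖ : ℂ) ≠ 0 := by simpa using h0
    rw [div_eq_iff hn, one_mul] at h1
    constructor
    · rw [h1, Complex.ofReal_re]
      exact norm_pos_iff.2 h0
    · rw [h1, Complex.ofReal_im]

theorem pu_norm {z : ℂ} (h : z ≠ 0) : ‖z / (‖z‖ : ℂ)‖ = 1 := by
  rw [norm_div, Complex.norm_real, norm_norm, div_self (norm_ne_zero_iff.2 h)]

theorem pu_rot (s : ℝ) (z : ℂ) : ex s * z / (‖ex s * z‖ : ℂ) = ex s * (z / ‖z‖) := by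
  rw [norm_mul, norm_ex, one_mul, mul_div_assoc]

theorem pu_cont {X : Type} [TopologicalSpace X] {g : X → ℂ} {S : Set X} (h : NZ g S) :
    ContinuousOn (fun x => g x / (‖g x‖ : ℂ)) S :=
  h.1.div (Complex.continuous_ofReal.comp_continuousOn h.1.norm) fun x hx => by
    simpa using h.2 x hx

theorem pu_rot1 {O : Set E} (h : ∀ p ∈ O, p.1 ≠ 0) (hm : ∀ s, ∀ p ∈ O, puR1 s p ∈ O) :
    Rot O puT1 puR1 where
  cτ := pu_cont (g := Prod.fst) ⟨continuous_fst.continuousOn, h⟩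
  nτ := fun x hx => pu_norm (h x hx)
  cΘ := Continuous.continuousOn
    (((continuous_ex.comp continuous_fst).mul continuous_snd.fst).prodMk continuous_snd.snd)
  mem := hm
  zero := fun x _ => by simp [puR1, ex_zero]
  add := fun s s' x _ => by simp [puR1, ex_add, mul_assoc]
  rot := fun s x _ => pu_rot s x.1

theorem pu_rot2 {O : Set E} (h : ∀ p ∈ O, p.2 ≠ 0) (hm : ∀ s, ∀ p ∈ O, puR2 s p ∈ O) :
    Rot O puT2 puR2 where
  cτ := pu_cont (g := Prod.snd) ⟨continuous_snd.continuousOn, h⟩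
  nτ := fun x hx => pu_norm (h x hx)
  cΘ := Continuous.continuousOn
    (continuous_snd.fst.prodMk ((continuous_ex.comp continuous_fst).mul continuous_snd.snd))
  mem := hm
  zero := fun x _ => by simp [puR2, ex_zero]
  add := fun s s' x _ => by simp [puR2, ex_add, mul_assoc]
  rot := fun s x _ => pu_rot s x.2

theorem pu_wd {X : Type} [TopologicalSpace X] {g : X → ℂ} {S : Set X} (h : NZ g S)
    {σ : Simp X 1} (hσ : range σ ⊆ S) : wd (fun x => g x / (‖g x‖ : ℂ)) σ = wd g σ := by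
  have hm : ∀ t, σ t ∈ S := fun t => hσ ⟨t, rfl⟩
  have hc : Continuous (g ∘ σ) := h.1.comp_continuous σ.continuous hm
  have h0 : ∀ t, (g ∘ σ) t ≠ 0 := fun t => h.2 _ (hm t)
  obtain ⟨θ, hθ, e⟩ := exists_arg hc h0
  unfold wd
  rw [wp_eq h0 hθ e]
  refine wp_eq (fun t => ?_) hθ fun t => ?_
  · exact div_ne_zero (h0 t) (by simpa using h0 t)
  · have hn : (‖g (σ t)‖ : ℂ) ≠ 0 := by simpa using h0 t
    change g (σ t) / (‖g (σ t)‖ : ℂ) = (‖g (σ t) / (‖g (σ t)‖ : ℂ)‖ : ℝ) * ex (θ t)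
    rw [pu_norm (z := g (σ t)) (h0 t), Complex.ofReal_one, one_mul, div_eq_iff hn, mul_comm]
    exact e t

theorem pu_R1 : puR1 1 = id := by
  funext p
  have := ex_int 1
  rw [Int.cast_one] at this
  simp [puR1, this]

theorem pu_R2 : puR2 1 = id := by
  funext p
  have := ex_int 1
  rw [Int.cast_one] at this
  simp [puR2, this]

theorem pu_A1 : Rot {p : E | p.1 ≠ 0} puT1 puR1 :=
  pu_rot1 (fun _ h => h) fun s _ h => mul_ne_zero (ex_ne s) h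

theorem pu_A2 : Rot {p : E | p.2 ≠ 0} puT2 puR2 :=
  pu_rot2 (fun _ h => h) fun s _ h => mul_ne_zero (ex_ne s) h

theorem pu_T : Rot {p : E | p.1 ≠ 0 ∧ p.2 ≠ 0} puT1 puR1 :=
  pu_rot1 (fun _ h => h.1) fun s _ h => ⟨mul_ne_zero (ex_ne s) h.1, h.2⟩

/-- The fibre of the first rotation in the torus. -/
def puG : Set E := fib {p : E | p.1 ≠ 0 ∧ p.2 ≠ 0} puT1

theorem pu_G : Rot puG puT2 puR2 :=
  pu_rot2 (fun _ h => h.1.2) fun s _ h => ⟨⟨h.1.1, mul_ne_zero (ex_ne s) h.1.2⟩, h.2⟩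

theorem pu_F1 : fib {p : E | p.1 ≠ 0} puT1 = puPos ×ˢ univ := by
  ext p
  simp only [fib, puT1, mem_ofPred_eq, mem_prod, pu_mem, mem_univ, and_true]

theorem pu_F2 : fib {p : E | p.2 ≠ 0} puT2 = univ ×ˢ puPos := by
  ext p
  simp only [fib, puT2, mem_ofPred_eq, mem_prod, pu_mem, mem_univ, true_and]

theorem pu_K : fib puG puT2 = puPos ×ˢ puPos := by
  ext p
  simp only [puG, fib, puT1, puT2, mem_ofPred_eq, mem_prod, pu_mem]
  tauto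

theorem pu_high {O : Set E} {τ : E → ℂ} {Θ : ℝ → E → E} (h : Rot O τ Θ)
    (hc : Convex ℝ (fib O τ)) (h1 : (1, 1) ∈ fib O τ) (n : ℕ) :
    cyc R O (n + 2) ≤ bdy R O (n + 2) :=
  (h.acyc (cyc_le_of_star (hc.starConvex h1) n)).trans (sup_le
    ((cyc_le_of_star (hc.starConvex h1) (n + 1)).trans (bdy_mono (fun _ hx => hx.1) _)) le_rfl)

theorem pu_low {O : Set E} {τ : E → ℂ} {Θ : ℝ → E → E} (h : Rot O τ Θ)
    (hc : Convex ℝ (fib O τ)) (h1 : (1, 1) ∈ fib O τ) {c : Chn R E 1} (hm : c ∈ cyc R O 1)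
    (h0 : ev R (wd τ) c = 0) : c ∈ bdy R O 1 :=
  (sup_le ((cyc_le_of_star (hc.starConvex h1) 0).trans (bdy_mono (fun _ hx => hx.1) _)) le_rfl :
    cyc R (fib O τ) 1 ⊔ bdy R O 1 ≤ bdy R O 1) (h.one (hc.isPathConnected ⟨_, h1⟩) hm h0)

theorem pu_c1 : Convex ℝ (fib {p : E | p.1 ≠ 0} puT1) := pu_F1 ▸ pu_convex.prod convex_univ

theorem pu_c2 : Convex ℝ (fib {p : E | p.2 ≠ 0} puT2) := pu_F2 ▸ convex_univ.prod pu_convex

theorem pu_cK : Convex ℝ (fib puG puT2) := pu_K ▸ pu_convex.prod pu_convex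

theorem pu_m1 : ((1, 1) : E) ∈ fib {p : E | p.1 ≠ 0} puT1 := pu_F1 ▸ ⟨pu_one, mem_univ _⟩

theorem pu_m2 : ((1, 1) : E) ∈ fib {p : E | p.2 ≠ 0} puT2 := pu_F2 ▸ ⟨mem_univ _, pu_one⟩

theorem pu_mK : ((1, 1) : E) ∈ fib puG puT2 := pu_K ▸ ⟨pu_one, pu_one⟩

theorem pu_ev1 {O : Set E} (h : ∀ p ∈ O, p.1 ≠ 0) {c : Chn R E 1} (hc : c ∈ cyc R O 1) :
    ev R (wd puT1) c = ev R (wd Prod.fst) c :=
  ev_congr_chn (cyc_le O 1 hc) fun _ hσ =>
    pu_wd (g := Prod.fst) ⟨continuous_fst.continuousOn, h⟩ hσ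

theorem pu_ev2 {O : Set E} (h : ∀ p ∈ O, p.2 ≠ 0) {c : Chn R E 1} (hc : c ∈ cyc R O 1) :
    ev R (wd puT2) c = ev R (wd Prod.snd) c :=
  ev_congr_chn (cyc_le O 1 hc) fun _ hσ =>
    pu_wd (g := Prod.snd) ⟨continuous_snd.continuousOn, h⟩ hσ

theorem pu_oneG {c : Chn R E 1} (hc : c ∈ cyc R puG 1) (h : ev R (wd Prod.snd) c = 0) :
    c ∈ bdy R puG 1 :=
  pu_low pu_G pu_cK pu_mK hc ((pu_ev2 (fun _ h => h.1.2) hc).trans h)

theorem pu_cup {c : Chn R E 2} (hc : c ∈ cyc R {p : E | p.1 ≠ 0 ∧ p.2 ≠ 0} 2) {d : Chn R E 1}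
    (hd : Conn R {p : E | p.1 ≠ 0 ∧ p.2 ≠ 0} puT1 1 c d) :
    ev R (cup11 (wd Prod.fst) (wd Prod.snd)) c = ev R (wd Prod.snd) d := by
  rw [← pu_T.conn_cup hd (wd Prod.snd) fun σ hσ =>
    cobd_wd (g := Prod.snd) ⟨continuous_snd.continuousOn, fun _ h => h.2⟩ hσ]
  refine ev_congr_chn (cyc_le _ 2 hc) fun σ hσ => ?_
  unfold cup11
  congr 1
  exact (pu_wd (g := Prod.fst) ⟨continuous_fst.continuousOn, fun _ h => h.1⟩
    ((range_sub σ _).trans hσ)).symm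

/-- The half punctured space. -/
theorem cyc_fst (n : ℕ) : cyc R {p : E | p.1 ≠ 0} (n + 2) ≤ bdy R {p : E | p.1 ≠ 0} (n + 2) :=
  pu_high pu_A1 pu_c1 pu_m1 n

theorem cyc_snd (n : ℕ) : cyc R {p : E | p.2 ≠ 0} (n + 2) ≤ bdy R {p : E | p.2 ≠ 0} (n + 2) :=
  pu_high pu_A2 pu_c2 pu_m2 n

theorem one_fst {c : Chn R E 1} (hc : c ∈ cyc R {p : E | p.1 ≠ 0} 1)
    (h : ev R (wd Prod.fst) c = 0) : c ∈ bdy R {p : E | p.1 ≠ 0} 1 :=
  pu_low pu_A1 pu_c1 pu_m1 hc ((pu_ev1 (fun _ h => h) hc).trans h)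

theorem one_snd {c : Chn R E 1} (hc : c ∈ cyc R {p : E | p.2 ≠ 0} 1)
    (h : ev R (wd Prod.snd) c = 0) : c ∈ bdy R {p : E | p.2 ≠ 0} 1 :=
  pu_low pu_A2 pu_c2 pu_m2 hc ((pu_ev2 (fun _ h => h) hc).trans h)

theorem cyc_tor (n : ℕ) : cyc R {p : E | p.1 ≠ 0 ∧ p.2 ≠ 0} (n + 3) ≤
    bdy R {p : E | p.1 ≠ 0 ∧ p.2 ≠ 0} (n + 3) :=
  (pu_T.acyc (pu_high pu_G pu_cK pu_mK n)).trans (sup_le
    ((pu_high pu_G pu_cK pu_mK (n + 1)).trans (bdy_mono (fun _ hx => hx.1) _)) le_rfl)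

theorem one_tor {c : Chn R E 1} (hc : c ∈ cyc R {p : E | p.1 ≠ 0 ∧ p.2 ≠ 0} 1)
    (h : ev R (wd Prod.fst) c = 0) (h' : ev R (wd Prod.snd) c = 0) :
    c ∈ bdy R {p : E | p.1 ≠ 0 ∧ p.2 ≠ 0} 1 := by
  have h1 := pu_T.one (pu_G.isPathConnected (pu_cK.isPathConnected ⟨_, pu_mK⟩)) hc
    ((pu_ev1 (fun _ h => h.1) hc).trans h)
  obtain ⟨a, ha, b, hb, rfl⟩ := Submodule.mem_sup.1 h1
  have h2 : ev R (wd Prod.snd) b = 0 :=
    ev_wd_bdy (g := Prod.snd) ⟨continuous_snd.continuousOn, fun _ h => h.2⟩ hb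
  rw [map_add, h2, add_zero] at h'
  exact add_mem (bdy_mono (fun _ hx => hx.1) 1 (pu_oneG ha h')) hb

theorem two_tor {c : Chn R E 2} (hc : c ∈ cyc R {p : E | p.1 ≠ 0 ∧ p.2 ≠ 0} 2)
    (h : ev R (cup11 (wd Prod.fst) (wd Prod.snd)) c = 0) :
    c ∈ bdy R {p : E | p.1 ≠ 0 ∧ p.2 ≠ 0} 2 := by
  obtain ⟨d, hd⟩ := pu_T.exists_conn hc
  rw [pu_cup hc hd] at h
  exact (sup_le ((pu_high pu_G pu_cK pu_mK 0).trans (bdy_mono (fun _ hx => hx.1) _)) le_rfl :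
    cyc R puG 2 ⊔ bdy R {p : E | p.1 ≠ 0 ∧ p.2 ≠ 0} 2 ≤ bdy R {p : E | p.1 ≠ 0 ∧ p.2 ≠ 0} 2)
    (pu_T.conn_zero hd (pu_oneG hd.1 h))

theorem exists_two_tor : ∃ c ∈ cyc R {p : E | p.1 ≠ 0 ∧ p.2 ≠ 0} 2,
    ev R (cup11 (wd Prod.fst) (wd Prod.snd)) c = 1 := by
  have h0 : Finsupp.single (ContinuousMap.const (Dl 0) ((1, 1) : E)) (1 : R) ∈
      cyc R (fib puG puT2) 0 := by
    refine single_mem (S := fib puG puT2) ?_ 1
    rintro _ ⟨t, rfl⟩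
    exact pu_mK
  obtain ⟨c1, hc1, k1⟩ := pu_G.conn_surj h0 (by
    rw [pu_R2, cmap_id, sub_self]
    exact zero_mem _)
  obtain ⟨c2, hc2, k2⟩ := pu_T.conn_surj (R := R) (d := c1) hc1 (by
    rw [pu_R1, cmap_id, sub_self]
    exact zero_mem _)
  refine ⟨c2, hc2, ?_⟩
  rw [pu_cup hc2 k2, ← pu_ev2 (fun _ h => h.1.2) hc1, pu_G.conn_wd k1]
  unfold aug
  rw [ev_single, smul_eq_mul, mul_one, map_one]

end HK3
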