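import Pool.Agent.P.MP_9699e0_gt.Lat

/-! Truncated distances to the lattice. -/

set_option autoImplicit false
set_option linter.unusedSectionVars false

noncomputable section

namespace HK3

open Pool.Agent.P.MP_9699e0_gt Set Filter Topology
open scoped ContDiff

/-- Truncated distance to a family of lattice points. -/
def RR_d (f : ℤ × ℤ → ℤ × ℤ) (ξ : E) : ℝ := ⨅ m : ℤ × ℤ, min ρ ‖ξ.1 - β ξ.2.im (f m)‖

theorem RR_half : ρ < 1 / 2 := by norm_num [ρ]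

theorem RR_bdd (f : ℤ × ℤ → ℤ × ℤ) (ξ : E) :
    BddBelow (range fun m : ℤ × ℤ => min ρ ‖ξ.1 - β ξ.2.im (f m)‖) :=
  ⟨0, by
    rintro _ ⟨m, rfl⟩
    exact le_min ρ_pos.le (norm_nonneg _)⟩

theorem RR_le (f : ℤ × ℤ → ℤ × ℤ) (ξ : E) (m : ℤ × ℤ) :
    RR_d f ξ ≤ min ρ ‖ξ.1 - β ξ.2.im (f m)‖ := ciInf_le (RR_bdd f ξ) m

theorem RR_far {y : ℂ} {t : ℝ} {m m' : ℤ × ℤ} (h : ‖y - β t m‖ < 1 / 2) (hm : m' ≠ m) :
    ρ ≤ ‖y - β t m'‖ := by
  have h1 := one_le_β t (sub_ne_zero.2 hm)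
  have h2 : β t (m' - m) = (y - β t m) - (y - β t m') := by
    rw [sub_eq_add_neg, β_add, β_neg]; ring
  rw [h2] at h1
  have h3 := norm_sub_le (y - β t m) (y - β t m')
  have := RR_half
  linarith

theorem RR_near (f : ℤ × ℤ → ℤ × ℤ) {ξ : E} {m : ℤ × ℤ} (h : ‖ξ.1 - β ξ.2.im (f m)‖ < 1 / 2) :
    RR_d f ξ = min ρ ‖ξ.1 - β ξ.2.im (f m)‖ := by
  refine le_antisymm (RR_le f ξ m) (le_ciInf fun m' => ?_)
  by_cases e : f m' = f m
  · rw [e]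
  · exact le_min (min_le_left _ _) ((min_le_left _ _).trans (RR_far h e))

theorem RR_rho (f : ℤ × ℤ → ℤ × ℤ) {ξ : E} (h : ∀ m, ρ ≤ ‖ξ.1 - β ξ.2.im (f m)‖) :
    RR_d f ξ = ρ :=
  le_antisymm ((RR_le f ξ 0).trans (min_le_left _ _)) (le_ciInf fun m => le_min le_rfl (h m))

theorem RR_exists (f : ℤ × ℤ → ℤ × ℤ) {ξ : E} (h : RR_d f ξ < ρ) :
    ∃ m, ‖ξ.1 - β ξ.2.im (f m)‖ < ρ := by
  by_contra hc
  push Not at hc
  exact h.ne (RR_rho f hc)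

theorem RR_cont_norm (m : ℤ × ℤ) : Continuous fun ξ : E => ‖ξ.1 - β ξ.2.im m‖ :=
  (continuous_fst.sub ((contDiff_β m).continuous.comp
    (Complex.continuous_im.comp continuous_snd))).norm

theorem RR_cont (f : ℤ × ℤ → ℤ × ℤ) : Continuous (RR_d f) := by
  refine continuous_iff_continuousAt.2 fun ξ0 => ?_
  by_cases h : ∃ m, ‖ξ0.1 - β ξ0.2.im (f m)‖ < 1 / 2
  · obtain ⟨m, hm⟩ := h
    have h1 : ∀ᶠ ξ in 𝓝 ξ0, ‖ξ.1 - β ξ.2.im (f m)‖ < 1 / 2 :=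
      (RR_cont_norm (f m)).continuousAt.eventually_lt continuousAt_const hm
    refine ContinuousAt.congr (f := fun ξ : E => min ρ ‖ξ.1 - β ξ.2.im (f m)‖)
      (continuous_const.min (RR_cont_norm (f m))).continuousAt ?_
    filter_upwards [h1] with ξ hξ
    exact (RR_near f hξ).symm
  · push Not at h
    have hS := (finite_β (|ξ0.2.im| + 1) (‖ξ0.1‖ + 2)).inter_of_left (range f)
    have h1 : ∀ᶠ ξ : E in 𝓝 ξ0, ∀ m ∈ {m : ℤ × ℤ | ∃ t, |t| ≤ |ξ0.2.im| + 1 ∧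
        ‖β t m‖ ≤ ‖ξ0.1‖ + 2} ∩ range f, ρ < ‖ξ.1 - β ξ.2.im m‖ := by
      refine (eventually_all_finite hS).2 ?_
      rintro _ ⟨-, m, rfl⟩
      exact continuousAt_const.eventually_lt (RR_cont_norm (f m)).continuousAt
        (RR_half.trans_le (h m))
    have h2 : ∀ᶠ ξ : E in 𝓝 ξ0, |ξ.2.im| < |ξ0.2.im| + 1 :=
      (Complex.continuous_im.comp continuous_snd).abs.continuousAt.eventually_lt
        continuousAt_const (lt_add_one _)
    have h3 : ∀ᶠ ξ : E in 𝓝 ξ0, ‖ξ.1‖ < ‖ξ0.1‖ + 1 :=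
      continuous_fst.norm.continuousAt.eventually_lt continuousAt_const (lt_add_one _)
    refine ContinuousAt.congr (f := fun _ : E => ρ) continuousAt_const ?_
    filter_upwards [h1, h2, h3] with ξ a1 a2 a3
    refine (RR_rho f fun m => ?_).symm
    by_cases hb : ‖β ξ.2.im (f m)‖ ≤ ‖ξ0.1‖ + 2
    · exact (a1 _ ⟨⟨_, a2.le, hb⟩, m, rfl⟩).le
    · push Not at hb
      have h4 := norm_sub_norm_le (β ξ.2.im (f m)) ξ.1
      rw [norm_sub_rev] at h4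
      have := RR_half
      linarith

theorem RR_pos (f : ℤ × ℤ → ℤ × ℤ) {ξ : E} (h : ξ ∈ W0) : 0 < RR_d f ξ := by
  by_cases hc : RR_d f ξ < ρ
  · obtain ⟨m, hm⟩ := RR_exists f hc
    rw [RR_near f (hm.trans RR_half)]
    exact lt_min ρ_pos (norm_pos_iff.2 (sub_ne_zero.2 (h _)))
  · exact ρ_pos.trans_le (not_lt.1 hc)

theorem RR_mono (f : ℤ × ℤ → ℤ × ℤ) {ξ ξ' : E}
    (h : ∀ m, ∃ m', ‖ξ'.1 - β ξ'.2.im (f m')‖ = ‖ξ.1 - β ξ.2.im (f m)‖) :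
    RR_d f ξ' ≤ RR_d f ξ :=
  le_ciInf fun m => by
    obtain ⟨m', hm⟩ := h m
    rw [← hm]
    exact RR_le f ξ' m'

theorem RR_inf (ξ : E) : rr ξ = ⨅ i : I4, rc i ξ := by
  refine le_antisymm (le_ciInf fun i => le_ciInf fun m => RR_le id ξ (rep i + 2 • m))
    (le_ciInf fun m => ?_)
  obtain ⟨i, m', rfl⟩ := exists_rep m
  exact (ciInf_le (Set.finite_range fun i : I4 => rc i ξ).bddBelow i).trans
    (RR_le (fun m => rep i + 2 • m) ξ m')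

theorem RR_neg (i : I4) (y v : ℂ) : rc i (-y, v) ≤ rc i (y, v) := by
  refine RR_mono (fun m => rep i + 2 • m) fun m => ⟨-rep i - m, ?_⟩
  have h : rep i + 2 • (-rep i - m) = -(rep i + 2 • m) := by
    simp only [two_smul]; abel
  show ‖-y - β v.im (rep i + 2 • (-rep i - m))‖ = ‖y - β v.im (rep i + 2 • m)‖
  rw [h, β_neg, ← norm_neg]
  congr 1
  ring

theorem RR_per (i : I4) (y v : ℂ) (m : ℤ × ℤ) : rc i (y + 2 * β v.im m, v) ≤ rc i (y, v) := by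
  refine RR_mono (fun m => rep i + 2 • m) fun m0 => ⟨m0 + m, ?_⟩
  show ‖y + 2 * β v.im m - β v.im (rep i + 2 • (m0 + m))‖ = ‖y - β v.im (rep i + 2 • m0)‖
  rw [smul_add, ← add_assoc, β_add _ _ (2 • m), β_two]
  congr 1
  ring

theorem RR_cj (i : I4) (k : ℤ) (y v v' : ℂ) (h : v'.im = v.im + k) :
    rc i (cj k y, v') ≤ rc i (y, v) := by
  refine RR_mono (fun m => rep i + 2 • m) fun m => ?_
  obtain ⟨m', hm⟩ := β_shift k v.im (rep i + 2 • m)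
  refine ⟨m + m', ?_⟩
  show ‖cj k y - β v'.im (rep i + 2 • (m + m'))‖ = ‖y - β v.im (rep i + 2 • m)‖
  rw [h, smul_add, ← add_assoc, ← hm, ← norm_cj k (y - _)]
  congr 1
  rw [sub_eq_iff_eq_add, ← cj_add, sub_add_cancel]

theorem RR_tube (n : ℕ) (i : I4) (α : E) :
    ‖(tube n i α).1 - β (tube n i α).2.im (rep i)‖ = Real.exp α.2.re := by
  show ‖β (n * α.2.im / Real.pi) (rep i) + Real.exp α.2.re * ex (α.1.re / 4) -
    β (n * α.2.im / Real.pi) (rep i)‖ = _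
  rw [add_sub_cancel_left, norm_mul, norm_ex, mul_one, Complex.norm_real,
    Real.norm_of_nonneg (Real.exp_pos _).le]

theorem continuous_rc (i : I4) : Continuous (rc i) := RR_cont fun m => rep i + 2 • m

theorem continuous_rr : Continuous rr := RR_cont id

theorem rc_le (i : I4) (ξ : E) : rc i ξ ≤ ρ := (RR_le (fun m => rep i + 2 • m) ξ 0).trans (min_le_left _ _)

theorem rc_le_norm (i : I4) (ξ : E) (m : ℤ × ℤ) : rc i ξ ≤ ‖ξ.1 - β ξ.2.im (rep i + 2 • m)‖ :=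
  (RR_le (fun m => rep i + 2 • m) ξ m).trans (min_le_right _ _)

theorem rc_pos (i : I4) {ξ : E} (h : ξ ∈ W0) : 0 < rc i ξ := RR_pos (fun m => rep i + 2 • m) h

theorem rr_pos {ξ : E} (h : ξ ∈ W0) : 0 < rr ξ := RR_pos id h

theorem rc_eq {i : I4} {ξ : E} {m : ℤ × ℤ} (h : ‖ξ.1 - β ξ.2.im (rep i + 2 • m)‖ < ρ) (j : I4) :
    rc j ξ = if i = j then ‖ξ.1 - β ξ.2.im (rep i + 2 • m)‖ else ρ := by
  split_ifs with e
  · subst e
    exact (RR_near (fun m => rep i + 2 • m) (h.trans RR_half)).trans (min_eq_right h.le)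
  · exact RR_rho (fun m => rep j + 2 • m) fun m' =>
      RR_far (h.trans RR_half) fun e' => e (rep_unique e').symm

theorem rr_eq {ξ : E} {m : ℤ × ℤ} (h : ‖ξ.1 - β ξ.2.im m‖ < ρ) : rr ξ = ‖ξ.1 - β ξ.2.im m‖ :=
  (RR_near id (h.trans RR_half)).trans (min_eq_right h.le)

theorem exists_of_rc_lt {i : I4} {ξ : E} (h : rc i ξ < ρ) :
    ∃ m, ‖ξ.1 - β ξ.2.im (rep i + 2 • m)‖ < ρ := RR_exists (fun m => rep i + 2 • m) h

theorem rr_congr {ξ ξ' : E} (h : ξ.1 = ξ'.1) (h' : ξ.2.im = ξ'.2.im) : rr ξ = rr ξ' := by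
  unfold rr
  rw [h, h']

theorem rc_neg (i : I4) (y v : ℂ) : rc i (-y, v) = rc i (y, v) := by
  refine le_antisymm (RR_neg i y v) ?_
  have h := RR_neg i (-y) v
  rwa [neg_neg] at h

theorem rc_per (i : I4) (y v : ℂ) (m : ℤ × ℤ) : rc i (y + 2 * β v.im m, v) = rc i (y, v) := by
  refine le_antisymm (RR_per i y v m) ?_
  have h := RR_per i (y + 2 * β v.im m) v (-m)
  rwa [β_neg, mul_neg, add_neg_cancel_right] at h

theorem rc_cj (i : I4) (k : ℤ) (y v v' : ℂ) (h : v'.im = v.im + k) :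
    rc i (cj k y, v') = rc i (y, v) := by
  refine le_antisymm (RR_cj i k y v v' h) ?_
  have h1 := RR_cj i (-k) (cj k y) v' v (by rw [h]; push_cast; ring)
  rwa [cj_cj, neg_add_cancel, cj_zero] at h1

theorem rc_gam {n : ℕ} (hn : Odd n) (i : I4) (k e : ℤ) (m : ℤ × ℤ) (l : ℤ) (ξ : E) :
    rc i (gam n k e m l ξ) = rc i ξ := by
  have h1 := rc_per i (sg e * cj k ξ.1) ⟨sg k * ξ.2.re + 2 * l, ξ.2.im + n * k⟩ m
  have h2 := rc_cj i (n * k) ξ.1 ξ.2 ⟨sg k * ξ.2.re + 2 * l, ξ.2.im + n * k⟩ (by push_cast; rfl)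
  rw [cj_odd_mul hn] at h2
  refine h1.trans (Eq.trans ?_ h2)
  rcases sg_cases e with ⟨h, -⟩ | ⟨h, -⟩
  · rw [h, Complex.ofReal_one, one_mul]
  · rw [h, Complex.ofReal_neg, Complex.ofReal_one, neg_one_mul, rc_neg]

theorem rr_gam {n : ℕ} (hn : Odd n) (k e : ℤ) (m : ℤ × ℤ) (l : ℤ) (ξ : E) :
    rr (gam n k e m l ξ) = rr ξ := by
  simp only [RR_inf, rc_gam hn]

theorem rr_two (ξ : E) : rr (ξ.1, ξ.2 + 2 * Complex.I) = rr ξ := by
  have h : cj 2 ξ.1 = ξ.1 := by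
    have h0 : sg 2 = 1 := by norm_num [sg]
    simp only [cj, h0, one_mul]
  simp only [RR_inf]
  refine iInf_congr fun i => ?_
  have h1 := rc_cj i 2 ξ.1 ξ.2 (ξ.2 + 2 * Complex.I) (by simp)
  rwa [h] at h1

theorem rc_tube (n : ℕ) (i j : I4) {α : E} (h : Real.exp α.2.re < ρ) :
    rc j (tube n i α) = if i = j then Real.exp α.2.re else ρ := by
  have h0 : rep i + 2 • (0 : ℤ × ℤ) = rep i := by simp
  have h1 := rc_eq (i := i) (ξ := tube n i α) (m := 0) (by rw [h0, RR_tube]; exact h) j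
  rwa [h0, RR_tube] at h1

theorem rr_tube (n : ℕ) (i : I4) {α : E} (h : Real.exp α.2.re < ρ) :
    rr (tube n i α) = Real.exp α.2.re := by
  rw [rr_eq (m := rep i) (by rw [RR_tube]; exact h), RR_tube]

end HK3
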