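import Pool.Agent.P.MP_9699e0_gt.RR

/-! The orbit relation on the open part. -/

set_option autoImplicit false
set_option linter.unusedSectionVars false

noncomputable section

namespace HK3

open Pool.Agent.P.MP_9699e0_gt Set Filter Topology
open scoped ContDiff

variable {n : ℕ}

theorem RelAint (k : ℤ) : ∃ s : ℤ, sg k = s := by
  rcases sg_cases k with h | h
  · exact ⟨1, by simp [h.1]⟩
  · exact ⟨-1, by simp [h.1]⟩

theorem RelAlat (hn : Odd n) (k e : ℤ) (t : ℝ) (m : ℤ × ℤ) :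
    ∃ m', sg e * cj k (β t m) = β (t + n * k) m + 2 * β (t + n * k) m' := by
  obtain ⟨m', h⟩ := β_shift (n * k) t m
  rw [cj_odd_mul hn, β_add, β_two] at h
  push_cast at h
  rcases sg_cases e with g | g
  · exact ⟨m', by rw [g.1, h]; simp⟩
  · refine ⟨-m + -m', ?_⟩
    rw [g.1, h, β_add, β_neg, β_neg]
    push_cast
    ring

theorem RelAcj (k : ℤ) (y : ℂ) : cj k (2 * y) = 2 * cj k y := by
  simpa using cj_mul k 2 y

theorem RelAzero (ξ : E) : gam n 0 0 0 0 ξ = ξ := by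
  refine Prod.ext ?_ (Complex.ext ?_ ?_) <;> simp [gam, sg_zero, cj_zero, β_zero]

theorem RelAcomp (hn : Odd n) (k e : ℤ) (m : ℤ × ℤ) (l k' e' : ℤ) (ξ : E) :
    ∃ (m2 : ℤ × ℤ) (l2 : ℤ), ∀ m' l', gam n k' e' m' l' (gam n k e m l ξ) =
      gam n (k' + k) (e' + e) (m2 + m') (l2 + l') ξ := by
  obtain ⟨m1, h⟩ := RelAlat hn k' e' (ξ.2.im + n * k) m
  obtain ⟨s, hs⟩ := RelAint k'
  have ht : ξ.2.im + n * ((k' + k : ℤ) : ℝ) = ξ.2.im + n * k + n * k' := by
    push_cast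
    ring
  refine ⟨m + 2 • m1, s * l, fun m' l' => Prod.ext ?_ (Complex.ext ?_ ?_)⟩
  · simp only [gam, ht, cj_add, cj_mul, RelAcj, cj_cj, β_add, β_two, sg_add]
    push_cast
    linear_combination 2 * h
  · simp only [gam, sg_add, hs]
    push_cast
    ring
  · simp only [gam, ht]

theorem RG.refl (ξ : E) : RG n ξ ξ := ⟨0, 0, 0, 0, (RelAzero ξ).symm⟩

theorem RG.symm (hn : Odd n) {ξ ξ' : E} (h : RG n ξ ξ') : RG n ξ' ξ := by
  obtain ⟨k, e, m, l, rfl⟩ := h
  obtain ⟨m2, l2, g⟩ := RelAcomp hn k e m l (-k) (-e) ξ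
  refine ⟨-k, -e, -m2, -l2, ?_⟩
  rw [g, neg_add_cancel, neg_add_cancel, add_neg_cancel, add_neg_cancel, RelAzero]

theorem RG.trans (hn : Odd n) {ξ ξ' ξ'' : E} (h : RG n ξ ξ') (h' : RG n ξ' ξ'') : RG n ξ ξ'' := by
  obtain ⟨k, e, m, l, rfl⟩ := h
  obtain ⟨k', e', m', l', rfl⟩ := h'
  obtain ⟨m2, l2, g⟩ := RelAcomp hn k e m l k' e' ξ
  exact ⟨_, _, _, _, g m' l'⟩

theorem RelAmem {ξ : E} (h : 0 < rr ξ) : ξ ∈ W0 := fun m e => by
  have g := rr_eq (ξ := ξ) (m := m) (by rw [e, sub_self, norm_zero]; exact ρ_pos)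
  rw [e, sub_self, norm_zero] at g
  exact h.ne' g

theorem gam_mem (hn : Odd n) (k e : ℤ) (m : ℤ × ℤ) (l : ℤ) {ξ : E} (h : ξ ∈ W0) :
    gam n k e m l ξ ∈ W0 := RelAmem (by rw [rr_gam hn]; exact rr_pos h)

theorem tube_mem (i : I4) {α : E} (h : Real.exp α.2.re < ρ) : tube n i α ∈ W0 :=
  RelAmem (by rw [rr_tube n i h]; exact Real.exp_pos _)

theorem tube_rel (hn : Odd n) {i j : I4} {α α' : E} (h : Real.exp α.2.re < ρ)
    (h' : Real.exp α'.2.re < ρ) : RG n (tube n i α) (tube n j α') ↔ i = j ∧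
      ∃ (k : ℤ) (m : ℤ × ℤ), α'.1 = sg k * α.1 + 2 * gi m ∧
        α'.2 = α.2 + Real.pi * k * Complex.I := by
  have hp := Real.pi_pos
  have h0 : (n : ℝ) ≠ 0 := Nat.cast_ne_zero.2 hn.pos.ne'
  constructor
  · rintro ⟨k, e, m, l, g⟩
    have r1 := rc_tube n j j h'
    rw [g, rc_gam hn, rc_tube n i j h, if_pos rfl] at r1
    obtain rfl : i = j := by
      by_contra c
      rw [if_neg c] at r1
      exact h'.ne' r1
    rw [if_pos rfl] at r1
    have g1 := congrArg Prod.fst g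
    have g2 := congrArg (fun p : E => p.2.re) g
    have g3 := congrArg (fun p : E => p.2.im) g
    simp only [tube, gam] at g1 g2 g3
    obtain ⟨m1, k1⟩ := RelAlat hn k e (n * α.2.im / Real.pi) (rep i)
    rw [g3, cj_add, cj_mul, cj_ex, mul_add, k1, ← r1, ← ex_sg] at g1
    have g4 : β (n * α.2.im / Real.pi + n * k) (2 • (m1 + m)) = Real.exp α.2.re *
        (ex (α'.1.re / 4) - ex (e / 2 + sg k * (α.1.re / 4))) := by
      rw [β_two, β_add, ex_add]
      linear_combination -g1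
    have g5 : 2 • (m1 + m) = 0 := by
      by_contra c
      have a1 := one_le_β (n * α.2.im / Real.pi + n * k) c
      rw [g4, norm_mul, Complex.norm_real, Real.norm_eq_abs, abs_of_pos (Real.exp_pos _)] at a1
      have a2 := norm_sub_le (ex (α'.1.re / 4)) (ex (e / 2 + sg k * (α.1.re / 4)))
      rw [norm_ex, norm_ex] at a2
      have a3 := mul_le_mul_of_nonneg_left a2 (Real.exp_pos α.2.re).le
      rw [ρ] at h
      linarith
    rw [g5, β_zero, eq_comm, mul_eq_zero, sub_eq_zero, ex_eq_iff] at g4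
    obtain ⟨q, hq⟩ := g4.resolve_left (by exact_mod_cast (Real.exp_pos _).ne')
    refine ⟨rfl, k, (e + 2 * q, l), Complex.ext ?_ ?_, Complex.ext ?_ ?_⟩
    · simp only [gi, Complex.add_re, Complex.mul_re, Complex.re_ofNat, Complex.im_ofNat,
        Complex.ofReal_re, Complex.ofReal_im]
      push_cast
      linarith
    · simp only [gi, Complex.add_im, Complex.mul_im, Complex.re_ofNat, Complex.im_ofNat,
        Complex.ofReal_re, Complex.ofReal_im]
      linarith
    · simp [Real.exp_injective r1]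
    · field_simp at g3
      simp
      linarith
  · rintro ⟨rfl, k, m, g, g'⟩
    obtain ⟨m1, k1⟩ := RelAlat hn k m.1 (n * α.2.im / Real.pi) (rep i)
    have a1 : α'.1.re / 4 = m.1 / 2 + sg k * (α.1.re / 4) := by
      simp only [g, gi, Complex.add_re, Complex.mul_re, Complex.re_ofNat, Complex.im_ofNat,
        Complex.ofReal_re, Complex.ofReal_im]
      ring
    have a2 : α'.1.im = sg k * α.1.im + 2 * m.2 := by
      simp only [g, gi, Complex.add_im, Complex.mul_im, Complex.re_ofNat, Complex.im_ofNat,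
        Complex.ofReal_re, Complex.ofReal_im]
      ring
    have a3 : α'.2.re = α.2.re := by simp [g']
    have a4 : n * α'.2.im / Real.pi = n * α.2.im / Real.pi + n * k := by
      have : α'.2.im = α.2.im + Real.pi * k := by simp [g']
      rw [this]
      field_simp
    refine ⟨k, m.1, -m1, m.2, Prod.ext ?_ (Complex.ext a2 a4)⟩
    simp only [tube, gam]
    rw [a1, a3, a4, cj_add, cj_mul, cj_ex, mul_add, k1, ex_add, ex_sg, β_neg]
    ring

theorem tube_surj (hn : Odd n) {i : I4} {ξ : E} (h : ξ ∈ W0) (h' : rc i ξ < ρ) :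
    ∃ α : E, Real.exp α.2.re < ρ ∧ RG n (tube n i α) ξ := by
  have hp := Real.pi_pos
  have h0 : (n : ℝ) ≠ 0 := Nat.cast_ne_zero.2 hn.pos.ne'
  obtain ⟨m, hm⟩ := exists_of_rc_lt h'
  obtain ⟨s, hs⟩ := exists_ex (ξ.1 - β ξ.2.im (rep i + 2 • m))
  have hz := Real.exp_log (norm_pos_iff.2 (sub_ne_zero.2 (h (rep i + 2 • m))))
  have a1 : n * (Real.pi * ξ.2.im / n) / Real.pi = ξ.2.im := by field_simp
  have a2 : 4 * s / 4 = s := by ring
  refine ⟨(⟨4 * s, ξ.2.re⟩, ⟨Real.log ‖ξ.1 - β ξ.2.im (rep i + 2 • m)‖, Real.pi * ξ.2.im / n⟩),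
    hz.trans_lt hm, 0, 0, m, 0, Prod.ext ?_ (Complex.ext ?_ ?_)⟩
  · simp only [tube, gam, a1, a2, hz, ← hs, sg_zero, cj_zero, Int.cast_zero, mul_zero, add_zero]
    rw [β_add, β_two]
    push_cast
    ring
  · simp [tube, gam, sg_zero]
  · simp only [tube, gam, a1, Int.cast_zero, mul_zero, add_zero]

theorem RelAgi (e : ℤ) (m : ℤ × ℤ) : ∃ m', sg e * gi m = gi m' := by
  rcases sg_cases e with g | g
  · exact ⟨m, by simp [g.1]⟩
  · exact ⟨-m, by simp [g.1, gi_neg]⟩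

theorem trn_trn (e e' : ℤ) (m m' : ℤ × ℤ) : ∃ m'', ∀ α, trn e' m' (trn e m α) = trn (e' + e) m'' α :=
  by
  obtain ⟨m1, h⟩ := RelAgi e' m
  refine ⟨m1 + m', fun α => Prod.ext ?_ ?_⟩
  · simp only [trn, sg_add, gi_add]
    push_cast
    linear_combination 2 * h
  · simp only [trn, sg_add]
    push_cast
    ring

theorem trn_symm (e : ℤ) (m : ℤ × ℤ) : ∃ m', ∀ α, trn e m' (trn e m α) = α := by
  obtain ⟨m1, h⟩ := RelAgi e m
  have g : (sg e : ℂ) * sg e = 1 := by exact_mod_cast sg_mul_self e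
  refine ⟨-m1, fun α => Prod.ext ?_ ?_⟩
  · simp only [trn, gi_neg]
    linear_combination 2 * h + α.1 * g
  · simp only [trn]
    linear_combination α.2 * g

theorem trn_zero (α : E) : trn 0 0 α = α := by
  simp [trn, sg_zero, gi_zero]

theorem trn_mem (e : ℤ) (m : ℤ × ℤ) {α : E} (h : α ∈ W2) : trn e m α ∈ W2 := by
  have g : (sg e : ℂ) * sg e = 1 := by exact_mod_cast sg_mul_self e
  refine ⟨?_, fun z m0 c => ?_⟩
  · have : ‖(trn e m α).2‖ = ‖α.2‖ := by
      rcases sg_cases e with g | g <;> simp [trn, g.1]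
    exact this.trans_lt h.1
  · obtain ⟨m1, k⟩ := RelAgi e (m0 + -(2 • m))
    simp only [trn] at z c
    rw [gi_add, gi_neg, gi_two] at k
    exact h.2 (by linear_combination sg e * z - α.2 * g) m1
      (by linear_combination sg e * c - α.1 * g + k)

end HK3
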