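import Pool.Agent.P.MP_9699e0_gt.RelB1
import Pool.Agent.P.MP_9699e0_gt.RelB2

/-! The explicit form of the gluing relation. -/

set_option autoImplicit false
set_option linter.unusedSectionVars false

noncomputable section

namespace HK3

open Pool.Agent.P.MP_9699e0_gt Set Filter Topology
open scoped ContDiff

variable {n : ℕ}

theorem RelB_ne (i : I4) (α : E) (x : I4 × I4 × Option ℂ) : lab2 n i α ≠ .inr (.inr x) := by
  unfold lab2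
  split_ifs <;> simp

theorem RelB_gi {m : ℤ × ℤ} {b b' : ℂ} (hb : ‖b‖ < ρ) (hb' : ‖b'‖ < ρ) (h : gi m = b - b') :
    m = 0 ∧ b' = b := by
  have h0 : m = 0 := by
    by_contra hm
    have h1 := one_le_gi hm
    have h2 := norm_sub_le b b'
    rw [h] at h1
    unfold ρ at hb hb'
    linarith
  rw [h0, gi_zero] at h
  exact ⟨h0, (sub_eq_zero.1 h.symm).symm⟩

theorem RelB_core {c c' : I4} {b b' y y' : ℂ} {e : ℤ} {m : ℤ × ℤ} (hb : ‖b‖ < ρ) (hb' : ‖b'‖ < ρ)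
    (h : ((gi (rep c') + b', y') : E) = trn e m (gi (rep c) + b, y)) :
    c = c' ∧ ∃ s : ℂ, s * s = 1 ∧ b' = s * b ∧ y' = s * y := by
  obtain ⟨h1, h2⟩ := Prod.mk.inj h
  rcases sg_cases e with ⟨he, -⟩ | ⟨he, -⟩
  · rw [he] at h1 h2
    push_cast at h1 h2
    obtain ⟨k1, k2⟩ := RelB_gi (m := rep c' + -rep c + -(2 • m)) hb hb' (by
      rw [gi_add, gi_add, gi_neg, gi_neg, gi_two]; linear_combination h1)
    refine ⟨rep_unique (m := m) (m' := 0) ?_, 1, by ring, by rw [k2]; ring, h2⟩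
    rw [smul_zero, add_zero, eq_comm, ← sub_eq_zero, ← k1]
    abel
  · rw [he] at h1 h2
    push_cast at h1 h2
    obtain ⟨k1, k2⟩ := RelB_gi (m := rep c' + rep c + -(2 • m)) (b := -b) (by rwa [norm_neg]) hb'
      (by rw [gi_add, gi_add, gi_neg, gi_two]; linear_combination h1)
    refine ⟨rep_unique (m := 0) (m' := rep c - m) ?_, -1, by ring, by rw [k2]; ring, h2⟩
    rw [smul_zero, add_zero, eq_comm, ← sub_eq_zero, ← k1, smul_sub, two_smul ℕ (rep c)]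
    abel

theorem RelB_3 (hn : Odd n) (i c : I4) {p : E} (h : p ∈ W3) (hp : p.1 ≠ 0) :
    ∃ b : ℂ, b ≠ 0 ∧ p.1 = b ^ 2 ∧ (gi (rep c) + b, p.2 * b) ∈ W2 ∧ ‖b‖ < ρ ∧
      f3 n i c p = f2 n i (gi (rep c) + b, p.2 * b) := by
  obtain ⟨x, y⟩ := p
  obtain ⟨b, rfl⟩ : ∃ b, b ^ 2 = x := ⟨sq x, sq_spec x⟩
  have hb : b ≠ 0 := fun h0 => hp (by simp [h0])
  exact ⟨b, hb, rfl, f3_eq hn i c hb h⟩

theorem RelB_4 (hn : Odd n) (i c : I4) {p : E} (h : p ∈ W4) (hp : p.2 ≠ 0) :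
    ∃ z : ℂ, z ≠ 0 ∧ p.2 = z ^ 2 ∧ (gi (rep c) + p.1 * z, z) ∈ W2 ∧ ‖p.1 * z‖ < ρ ∧
      f4 n i c p = f2 n i (gi (rep c) + p.1 * z, z) := by
  obtain ⟨x, y⟩ := p
  obtain ⟨b, rfl⟩ : ∃ b, b ^ 2 = y := ⟨sq y, sq_spec y⟩
  have hb : b ≠ 0 := fun h0 => hp (by simp [h0])
  exact ⟨b, hb, rfl, f4_eq hn i c hb h⟩

theorem RelB_l3 {i c : I4} {p : E} (hp : p.1 = 0) :
    lab n (.a i c, p) = .inr (.inr (i, c, some p.2)) := if_pos hp

theorem RelB_l3' {i c : I4} {p : E} (hp : p.1 ≠ 0) (x : I4 × I4 × Option ℂ) :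
    lab n (.a i c, p) ≠ .inr (.inr x) := fun h => RelB_ne _ _ _ ((if_neg hp).symm.trans h)

open Classical in
theorem RelB_l4 {i c : I4} {p : E} (hp : p.2 = 0) :
    lab n (.b i c, p) = .inr (.inr (i, c, if p.1 = 0 then none else some p.1⁻¹)) := if_pos hp

theorem RelB_l4' {i c : I4} {p : E} (hp : p.2 ≠ 0) (x : I4 × I4 × Option ℂ) :
    lab n (.b i c, p) ≠ .inr (.inr x) := fun h => RelB_ne _ _ _ ((if_neg hp).symm.trans h)

theorem f00 (hn : Odd n) {ξ ξ' : E} (h : ξ ∈ W0) (h' : ξ' ∈ W0) :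
    f0 n ξ = f0 n ξ' ↔ RG n ξ ξ' := by
  refine ⟨fun e => ?_, f0_gam hn h⟩
  have h1 := lab_eq hn (a := (.o, ξ)) (b := (.o, ξ')) h h' e
  exact (Equivalence.eqvGen_iff ⟨RG.refl, RG.symm hn, RG.trans hn⟩).1
    (Quot.eqvGen_exact (Sum.inl.inj h1))

theorem f20 (hn : Odd n) {i : I4} {α ξ : E} (h : α ∈ W2) (h' : ξ ∈ W0) :
    f2 n i α = f0 n ξ ↔ ∃ w, Complex.exp w = α.2 ∧ RG n (tube n i (α.1, w)) ξ := by
  refine ⟨fun e => lab2_eq_inl hn (lab_eq hn (a := (.n i, α)) (b := (.o, ξ)) h h' e), ?_⟩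
  rintro ⟨w, hw, hr⟩
  have h1 : Real.exp w.re < ρ := by
    rw [← Complex.norm_exp, hw]
    exact h.1
  have h2 := (f2_tube hn i α.1 w h1).2
  rw [hw] at h2
  exact h2.trans (f0_gam hn (tube_mem i h1) hr)

theorem f22 (hn : Odd n) {i j : I4} {α α' : E} (h : α ∈ W2) (h' : α' ∈ W2) :
    f2 n i α = f2 n j α' ↔ i = j ∧ ∃ e m, α' = trn e m α := by
  refine ⟨fun e => (lab2_eq_iff hn h.1 h'.1).1
    (lab_eq hn (a := (.n i, α)) (b := (.n j, α')) h h' e), ?_⟩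
  rintro ⟨rfl, e, m, rfl⟩
  exact (f2_trn hn i e m h).symm

theorem f23 (hn : Odd n) {i j c : I4} {α p : E} (h : α ∈ W2) (h' : p ∈ W3)
    (e : f2 n i α = f3 n j c p) :
    i = j ∧ ∃ b : ℂ, b ≠ 0 ∧ p.1 = b ^ 2 ∧ ∃ e m, (gi (rep c) + b, p.2 * b) = trn e m α := by
  have h1 := lab_eq hn (a := (.n i, α)) (b := (.a j c, p)) h h' e
  have hp : p.1 ≠ 0 := fun hp => RelB_ne _ _ _ (h1.trans (RelB_l3 hp))
  obtain ⟨b, hb, h2, h3, -, h4⟩ := RelB_3 hn j c h' hp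
  obtain ⟨h5, h6⟩ := (f22 hn h h3).1 (e.trans h4)
  exact ⟨h5, b, hb, h2, h6⟩

theorem f24 (hn : Odd n) {i j c : I4} {α p : E} (h : α ∈ W2) (h' : p ∈ W4)
    (e : f2 n i α = f4 n j c p) :
    i = j ∧ ∃ z : ℂ, z ≠ 0 ∧ p.2 = z ^ 2 ∧ ∃ e m, (gi (rep c) + p.1 * z, z) = trn e m α := by
  have h1 := lab_eq hn (a := (.n i, α)) (b := (.b j c, p)) h h' e
  have hp : p.2 ≠ 0 := fun hp => RelB_ne _ _ _ (h1.trans (RelB_l4 hp))
  obtain ⟨b, hb, h2, h3, -, h4⟩ := RelB_4 hn j c h' hp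
  obtain ⟨h5, h6⟩ := (f22 hn h h3).1 (e.trans h4)
  exact ⟨h5, b, hb, h2, h6⟩

theorem f33 (hn : Odd n) {i j c c' : I4} {p p' : E} (h : p ∈ W3) (h' : p' ∈ W3)
    (e : f3 n i c p = f3 n j c' p') : i = j ∧ c = c' ∧ p = p' := by
  have h1 := lab_eq hn (a := (.a i c, p)) (b := (.a j c', p')) h h' e
  by_cases hp : p.1 = 0
  · have hp' : p'.1 = 0 := by
      by_contra hp'
      exact RelB_l3' hp' _ (h1.symm.trans (RelB_l3 hp))
    rw [RelB_l3 hp, RelB_l3 hp'] at h1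
    simp only [Sum.inr.injEq, Prod.mk.injEq, Option.some.injEq] at h1
    exact ⟨h1.1, h1.2.1, Prod.ext (hp.trans hp'.symm) h1.2.2⟩
  · have hp' : p'.1 ≠ 0 := fun hp' => RelB_l3' hp _ (h1.trans (RelB_l3 hp'))
    obtain ⟨b, hb, h2, h3, h4, h5⟩ := RelB_3 hn i c h hp
    obtain ⟨b', hb', h2', h3', h4', h5'⟩ := RelB_3 hn j c' h' hp'
    obtain ⟨h6, e', m, h7⟩ := (f22 hn h3 h3').1 (h5.symm.trans (e.trans h5'))
    obtain ⟨h8, s, s1, s2, s3⟩ := RelB_core h4 h4' h7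
    refine ⟨h6, h8, Prod.ext ?_ (mul_right_cancel₀ hb' ?_)⟩
    · rw [h2, h2', s2]
      linear_combination -b ^ 2 * s1
    · rw [s3, s2]
      ring

theorem f44 (hn : Odd n) {i j c c' : I4} {p p' : E} (h : p ∈ W4) (h' : p' ∈ W4)
    (e : f4 n i c p = f4 n j c' p') : i = j ∧ c = c' ∧ p = p' := by
  have h1 := lab_eq hn (a := (.b i c, p)) (b := (.b j c', p')) h h' e
  by_cases hp : p.2 = 0
  · have hp' : p'.2 = 0 := by
      by_contra hp'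
      exact RelB_l4' hp' _ (h1.symm.trans (RelB_l4 hp))
    rw [RelB_l4 hp, RelB_l4 hp'] at h1
    simp only [Sum.inr.injEq, Prod.mk.injEq] at h1
    refine ⟨h1.1, h1.2.1, Prod.ext ?_ (hp.trans hp'.symm)⟩
    have h2 := h1.2.2
    split_ifs at h2 with q1 q2 q2
    · exact q1.trans q2.symm
    · exact inv_injective (Option.some.inj h2)
  · have hp' : p'.2 ≠ 0 := fun hp' => RelB_l4' hp _ (h1.trans (RelB_l4 hp'))
    obtain ⟨b, hb, h2, h3, h4, h5⟩ := RelB_4 hn i c h hp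
    obtain ⟨b', hb', h2', h3', h4', h5'⟩ := RelB_4 hn j c' h' hp'
    obtain ⟨h6, e', m, h7⟩ := (f22 hn h3 h3').1 (h5.symm.trans (e.trans h5'))
    obtain ⟨h8, s, s1, s2, s3⟩ := RelB_core h4 h4' h7
    refine ⟨h6, h8, Prod.ext (mul_right_cancel₀ hb' ?_) ?_⟩
    · rw [s2, s3]
      ring
    · rw [h2, h2', s3]
      linear_combination -b ^ 2 * s1

theorem f34 (hn : Odd n) {i j c c' : I4} {p p' : E} (h : p ∈ W3) (h' : p' ∈ W4)
    (e : f3 n i c p = f4 n j c' p') :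
    i = j ∧ c = c' ∧ p.2 ≠ 0 ∧ p' = (p.2⁻¹, p.1 * p.2 ^ 2) := by
  have h1 := lab_eq hn (a := (.a i c, p)) (b := (.b j c', p')) h h' e
  by_cases hp : p.1 = 0
  · have hp' : p'.2 = 0 := by
      by_contra hp'
      exact RelB_l4' hp' _ (h1.symm.trans (RelB_l3 hp))
    rw [RelB_l3 hp, RelB_l4 hp'] at h1
    simp only [Sum.inr.injEq, Prod.mk.injEq] at h1
    have h2 := h1.2.2
    split_ifs at h2 with q1
    have h3 := Option.some.inj h2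
    refine ⟨h1.1, h1.2.1, h3 ▸ inv_ne_zero q1, Prod.ext ?_ ?_⟩
    · rw [h3, inv_inv]
    · rw [hp', hp, zero_mul]
  · have hp' : p'.2 ≠ 0 := fun hp' => RelB_l3' hp _ (h1.trans (RelB_l4 hp'))
    obtain ⟨b, hb, h2, h3, h4, h5⟩ := RelB_3 hn i c h hp
    obtain ⟨z, hz, h2', h3', h4', h5'⟩ := RelB_4 hn j c' h' hp'
    obtain ⟨h6, e', m, h7⟩ := (f22 hn h3 h3').1 (h5.symm.trans (e.trans h5'))
    obtain ⟨h8, s, s1, s2, s3⟩ := RelB_core h4 h4' h7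
    refine ⟨h6, h8, fun h0 => hz (by rw [s3, h0]; ring), Prod.ext ?_ ?_⟩
    · refine eq_inv_of_mul_eq_one_left (mul_right_cancel₀ hz ?_)
      linear_combination p.2 * s2 - s3
    · change p'.2 = p.1 * p.2 ^ 2
      rw [h2, h2', s3]
      linear_combination (p.2 * b) ^ 2 * s1

theorem f03 (hn : Odd n) {i c : I4} {ξ p : E} (h : ξ ∈ W0) (h' : p ∈ W3)
    (e : f0 n ξ = f3 n i c p) : p.1 ≠ 0 ∧ p.2 ≠ 0 := by
  have h1 := lab_eq hn (a := (.o, ξ)) (b := (.a i c, p)) h h' e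
  have hp : p.1 ≠ 0 := fun hp => Sum.inl_ne_inr (h1.trans (RelB_l3 hp))
  obtain ⟨b, -, -, h3, -, h4⟩ := RelB_3 hn i c h' hp
  obtain ⟨w, hw, -⟩ := (f20 hn h3 h).1 (e.trans h4).symm
  exact ⟨hp, left_ne_zero_of_mul (b := b) fun h0 => Complex.exp_ne_zero w (hw.trans h0)⟩

theorem f04 (hn : Odd n) {i c : I4} {ξ p : E} (h : ξ ∈ W0) (h' : p ∈ W4)
    (e : f0 n ξ = f4 n i c p) : p.2 ≠ 0 := fun hp =>
  Sum.inl_ne_inr ((lab_eq hn (a := (.o, ξ)) (b := (.b i c, p)) h h' e).trans (RelB_l4 hp))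

end HK3
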