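import Pool.Agent.P.MP_9699e0_gt.LabDefs
import Pool.Agent.P.MP_9699e0_gt.RelA
import Pool.Agent.P.MP_9699e0_gt.Glue1

/-! The label is invariant. -/

set_option autoImplicit false
set_option linter.unusedSectionVars false

noncomputable section

namespace HK3

open Pool.Agent.P.MP_9699e0_gt Set Filter Topology
open scoped ContDiff

variable {n : ℕ}

theorem RelB1_RG (hn : Odd n) {ξ ξ' : E} :
    Quot.mk (RG n) ξ = Quot.mk (RG n) ξ' ↔ RG n ξ ξ' := by
  rw [Quot.eq]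
  exact Equivalence.eqvGen_iff ⟨RG.refl, RG.symm hn, RG.trans hn⟩

theorem RelB1_RT {a a' : ℂ} : Quot.mk RT a = Quot.mk RT a' ↔ RT a a' := by
  rw [Quot.eq]
  refine Equivalence.eqvGen_iff ⟨fun x => ⟨0, 0, ?_⟩, ?_, ?_⟩
  · exact (congrArg Prod.fst (trn_zero (x, 0))).symm
  · rintro x y ⟨e, m, rfl⟩
    obtain ⟨m', h⟩ := trn_symm e m
    exact ⟨e, m', (congrArg Prod.fst (h (x, 0))).symm⟩
  · rintro x y z ⟨e, m, rfl⟩ ⟨e', m', rfl⟩
    obtain ⟨m'', h⟩ := trn_trn e e' m m'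
    exact ⟨e' + e, m'', congrArg Prod.fst (h (x, 0))⟩

theorem RelB1_exp (k : ℤ) : Complex.exp (Real.pi * k * Complex.I) = sg k := by
  rw [← ex_sg, ex]
  congr 1
  push_cast
  ring

theorem RelB1_sg_ne (k : ℤ) : ((sg k : ℝ) : ℂ) ≠ 0 := by
  rw [← RelB1_exp]
  exact Complex.exp_ne_zero _

theorem RelB1_sg_two (k l : ℤ) : sg (k + 2 * l) = sg k := by
  rw [sg_add, two_mul, sg_add, sg_mul_self, mul_one]

theorem RelB1_re {w z : ℂ} (h : Complex.exp w = z) (hz : ‖z‖ < ρ) : Real.exp w.re < ρ := by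
  rw [← Complex.norm_exp, h]
  exact hz

theorem RelB1_tube (hn : Odd n) {i j : I4} {a a' w w' z z' : ℂ} (e : Complex.exp w = z)
    (e' : Complex.exp w' = z') (h : ‖z‖ < ρ) (h' : ‖z'‖ < ρ) :
    RG n (tube n i (a, w)) (tube n j (a', w')) ↔
      i = j ∧ ∃ k m, ((a', z') : E) = trn k m (a, z) := by
  rw [tube_rel hn (α := (a, w)) (α' := (a', w')) (RelB1_re e h) (RelB1_re e' h')]
  refine and_congr_right fun _ => ⟨?_, ?_⟩
  · rintro ⟨k, m, h1, h2⟩
    refine ⟨k, m, Prod.ext h1 ?_⟩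
    have h3 : w' = w + Real.pi * k * Complex.I := h2
    show z' = sg k * z
    rw [← e', h3, Complex.exp_add, e, RelB1_exp, mul_comm]
  · rintro ⟨k, m, h1⟩
    have h2 : a' = sg k * a + 2 * gi m := congrArg Prod.fst h1
    have h3 : z' = sg k * z := congrArg Prod.snd h1
    have h4 : Complex.exp w' = Complex.exp (w + Real.pi * k * Complex.I) := by
      rw [Complex.exp_add, e, e', RelB1_exp, h3, mul_comm]
    obtain ⟨l, hl⟩ := Complex.exp_eq_exp_iff_exists_int.1 h4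
    refine ⟨k + 2 * l, m, ?_, ?_⟩
    · rw [RelB1_sg_two]
      exact h2
    · show w' = w + Real.pi * ((k + 2 * l : ℤ) : ℂ) * Complex.I
      rw [hl]
      push_cast
      ring

theorem lab2_eq_iff (hn : Odd n) {i j : I4} {α α' : E} (h : ‖α.2‖ < ρ) (h' : ‖α'.2‖ < ρ) :
    lab2 n i α = lab2 n j α' ↔ i = j ∧ ∃ e m, α' = trn e m α := by
  obtain ⟨a, z⟩ := α
  obtain ⟨a', z'⟩ := α'
  unfold lab2
  by_cases hz : z = 0
  · by_cases hz' : z' = 0
    · subst hz hz'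
      rw [if_pos rfl, if_pos rfl, Sum.inr.injEq, Sum.inl.injEq, Prod.mk.injEq, RelB1_RT]
      refine and_congr_right fun _ => ⟨?_, ?_⟩
      · rintro ⟨e, m, h1⟩
        exact ⟨e, m, Prod.ext h1 (mul_zero _).symm⟩
      · rintro ⟨e, m, h1⟩
        exact ⟨e, m, congrArg Prod.fst h1⟩
    · rw [if_pos hz, if_neg hz']
      refine iff_of_false (fun h1 => Sum.inr_ne_inl h1) ?_
      rintro ⟨-, e, m, h1⟩
      have h2 : z' = sg e * z := congrArg Prod.snd h1
      exact hz' (by rw [h2, hz, mul_zero])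
  · by_cases hz' : z' = 0
    · rw [if_neg hz, if_pos hz']
      refine iff_of_false (fun h1 => Sum.inl_ne_inr h1) ?_
      rintro ⟨-, e, m, h1⟩
      have h2 : z' = sg e * z := congrArg Prod.snd h1
      exact mul_ne_zero (RelB1_sg_ne e) hz (h2 ▸ hz')
    · rw [if_neg hz, if_neg hz', Sum.inl.injEq, RelB1_RG hn]
      exact RelB1_tube hn (Complex.exp_log hz) (Complex.exp_log hz') h h'

theorem lab2_eq_inl (hn : Odd n) {i : I4} {α ξ : E} (h : lab2 n i α = .inl (Quot.mk _ ξ)) :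
    ∃ w, Complex.exp w = α.2 ∧ RG n (tube n i (α.1, w)) ξ := by
  unfold lab2 at h
  by_cases hz : α.2 = 0
  · rw [if_pos hz] at h
    exact absurd h Sum.inr_ne_inl
  · rw [if_neg hz, Sum.inl.injEq, RelB1_RG hn] at h
    exact ⟨_, Complex.exp_log hz, h⟩

theorem RelB1_flip (hn : Odd n) (i c : I4) {b z b' z' : ℂ} (h : ‖z‖ < ρ)
    (e : b' = b ∧ z' = z ∨ b' = -b ∧ z' = -z) :
    lab2 n i (gi (rep c) + b, z) = lab2 n i (gi (rep c) + b', z') := by
  rcases e with ⟨rfl, rfl⟩ | ⟨rfl, rfl⟩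
  · rfl
  · refine (lab2_eq_iff hn (α := (gi (rep c) + b, z)) (α' := (gi (rep c) + -b, -z)) h
      (by rwa [norm_neg])).2 ⟨rfl, 1, rep c, ?_⟩
    unfold trn
    rw [sg_one]
    refine Prod.ext ?_ ?_
    · push_cast
      ring
    · push_cast
      ring

theorem RelB1_sq (b : ℂ) : sq (b ^ 2) = b ∨ sq (b ^ 2) = -b :=
  sq_eq_sq_iff_eq_or_eq_neg.1 (sq_spec _)

theorem lab_step (hn : Odd n) {a b : K × E} (h : (md n).Step a b) : lab n a = lab n b := by
  obtain ⟨k, α⟩ := a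
  obtain ⟨l, α'⟩ := b
  obtain ⟨r, h1, h2, h3, h4⟩ := h
  have h1' : k = (md n).src r := h1
  have h2' : l = (md n).tgt r := h2
  have h4' : α' = (md n).g r α := h4
  subst h1' h2' h4'
  cases r with
  | g k e m l => exact congrArg Sum.inl (Quot.sound ⟨k, e, m, l, rfl⟩)
  | t i e m =>
    have h5 : α ∈ W2 := h3
    exact (lab2_eq_iff hn h5.1 (trn_mem e m h5).1).2 ⟨rfl, e, m, rfl⟩
  | u i ϑ =>
    obtain ⟨h5, h6⟩ := h3
    have h7 := Complex.slitPlane_ne_zero h6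
    have hz : α.2 ≠ 0 := left_ne_zero_of_mul h7
    have h8 : Complex.exp (Complex.log (α.2 * Complex.exp (-(ϑ * Complex.I))) + ϑ * Complex.I) =
        α.2 := by
      rw [Complex.exp_add, Complex.exp_log h7, mul_assoc, ← Complex.exp_add, neg_add_cancel,
        Complex.exp_zero, mul_one]
    show lab2 n i α = .inl (Quot.mk _ (tube n i (α.1, _)))
    unfold lab2
    rw [if_neg hz, Sum.inl.injEq, RelB1_RG hn]
    exact (RelB1_tube hn (Complex.exp_log hz) h8 h5 h5).2 ⟨rfl, 0, 0, (trn_zero _).symm⟩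
  | v i c =>
    obtain ⟨-, h6, h7⟩ := h3
    have h8 : α.1 - gi (rep c) ≠ 0 := sub_ne_zero.2 h7
    have h9 : α = (gi (rep c) + (α.1 - gi (rep c)), α.2) := Prod.ext (by ring) rfl
    show lab2 n i α = if (α.1 - gi (rep c)) ^ 2 = 0 then _ else lab2 n i
      (gi (rep c) + sq ((α.1 - gi (rep c)) ^ 2),
        α.2 / (α.1 - gi (rep c)) * sq ((α.1 - gi (rep c)) ^ 2))
    rw [if_neg (pow_ne_zero 2 h8)]
    refine (congrArg (lab2 n i) h9).trans (RelB1_flip hn i c h6 ?_)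
    rcases RelB1_sq (α.1 - gi (rep c)) with e | e
    · exact Or.inl ⟨e, by rw [e, div_mul_cancel₀ _ h8]⟩
    · exact Or.inr ⟨e, by rw [e, mul_neg, div_mul_cancel₀ _ h8]⟩
  | w i c =>
    obtain ⟨-, h6, h8⟩ := h3
    have h9 : α = (gi (rep c) + (α.1 - gi (rep c)), α.2) := Prod.ext (by ring) rfl
    show lab2 n i α = if α.2 ^ 2 = 0 then _ else lab2 n i
      (gi (rep c) + (α.1 - gi (rep c)) / α.2 * sq (α.2 ^ 2), sq (α.2 ^ 2))
    rw [if_neg (pow_ne_zero 2 h8)]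
    refine (congrArg (lab2 n i) h9).trans (RelB1_flip hn i c h6 ?_)
    rcases RelB1_sq α.2 with e | e
    · exact Or.inl ⟨by rw [e, div_mul_cancel₀ _ h8], e⟩
    · exact Or.inr ⟨by rw [e, mul_neg, div_mul_cancel₀ _ h8], e⟩
  | x i c =>
    obtain ⟨⟨-, h6⟩, h8⟩ := h3
    show (if α.1 = 0 then Sum.inr (Sum.inr (i, c, some α.2)) else lab2 n i
      (gi (rep c) + sq α.1, α.2 * sq α.1)) = if α.1 * α.2 ^ 2 = 0 then
        Sum.inr (Sum.inr (i, c, if α.2⁻¹ = 0 then none else some α.2⁻¹⁻¹)) else lab2 n i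
      (gi (rep c) + α.2⁻¹ * sq (α.1 * α.2 ^ 2), sq (α.1 * α.2 ^ 2))
    by_cases h0 : α.1 = 0
    · rw [if_pos h0, if_pos (by rw [h0, zero_mul]), if_neg (inv_ne_zero h8), inv_inv]
    · rw [if_neg h0, if_neg (mul_ne_zero h0 (pow_ne_zero 2 h8))]
      have h9 : α.1 * α.2 ^ 2 = (α.2 * sq α.1) ^ 2 := by rw [mul_pow, sq_spec, mul_comm]
      have h10 : ‖α.2 * sq α.1‖ < ρ := by
        refine lt_of_pow_lt_pow_left₀ 2 ρ_pos.le ?_
        rw [← norm_pow, ← h9, norm_mul, norm_pow]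
        exact h6
      refine RelB1_flip hn i c h10 ?_
      rw [h9]
      rcases RelB1_sq (α.2 * sq α.1) with e | e
      · exact Or.inl ⟨by rw [e, inv_mul_cancel_left₀ h8], e⟩
      · exact Or.inr ⟨by rw [e, mul_neg, inv_mul_cancel_left₀ h8], e⟩

theorem lab_eq (hn : Odd n) {a b : K × E} (ha : a ∈ (md n).dom) (hb : b ∈ (md n).dom)
    (h : (md n).f a = (md n).f b) : lab n a = lab n b := by
  have h1 : Relation.EqvGen (md n).Step a b := (Gl.f_eq_iff ha hb).1 h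
  clear ha hb h
  induction h1 with
  | rel p q hpq => exact lab_step hn hpq
  | refl p => rfl
  | symm p q _ ih => exact ih.symm
  | trans p q r _ _ ih1 ih2 => exact ih1.trans ih2

end HK3
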