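import Pool.Agent.P.MP_9699e0_gt.RelA

/-! Proper discontinuity. -/

set_option autoImplicit false
set_option linter.unusedSectionVars false

noncomputable section

namespace HK3

open Pool.Agent.P.MP_9699e0_gt Set Filter Topology
open scoped ContDiff

variable {n : ℕ}

theorem RelC_mk {X : Type} [TopologicalSpace X] {f g : X → ℝ} (hf : Continuous f)
    (hg : Continuous g) : Continuous fun x => (⟨f x, g x⟩ : ℂ) :=
  Complex.equivRealProdCLM.symm.continuous.comp (hf.prodMk hg)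

theorem RelC_gam (n : ℕ) (k e : ℤ) (m : ℤ × ℤ) (l : ℤ) : Continuous (gam n k e m l) := by
  have h1 : Continuous fun ξ : E => ξ.2.im + (n : ℝ) * k :=
    (Complex.continuous_im.comp continuous_snd).add continuous_const
  refine Continuous.prodMk (Continuous.add (continuous_const.mul ?_)
    (continuous_const.mul ((contDiff_β m).continuous.comp h1))) (RelC_mk ?_ h1)
  · exact RelC_mk (Complex.continuous_re.comp continuous_fst)
      (continuous_const.mul (Complex.continuous_im.comp continuous_fst))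
  · exact (continuous_const.mul (Complex.continuous_re.comp continuous_snd)).add continuous_const

theorem RelC_trn (e : ℤ) (m : ℤ × ℤ) : Continuous (trn e m) :=
  ((continuous_const.mul continuous_fst).add continuous_const).prodMk
    (continuous_const.mul continuous_snd)

theorem RelC_fin (D : ℝ) : {k : ℤ | |(k : ℝ)| ≤ D}.Finite := by
  refine (Set.finite_Icc (-⌈D⌉) ⌈D⌉).subset fun k hk => ?_
  have h : |(k : ℝ)| ≤ (⌈D⌉ : ℤ) := le_trans hk (Int.le_ceil D)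
  exact abs_le.1 (by exact_mod_cast h)

theorem RelC_int {k : ℤ} (h : |(k : ℝ)| < 1) : k = 0 := by
  have h1 : |k| < 1 := by exact_mod_cast h
  exact Int.abs_lt_one_iff.1 h1

theorem RelC_round (x : ℝ) {c : ℝ} (hc : 0 < c) : ∃ l : ℤ, |x + c * l| ≤ c / 2 := by
  refine ⟨-round (x / c), ?_⟩
  have h := abs_sub_round (x / c)
  have e : x + c * ((-round (x / c) : ℤ) : ℝ) = c * (x / c - round (x / c)) := by
    push_cast
    field_simp
    ring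
  rw [e, abs_mul, abs_of_pos hc]
  nlinarith

theorem RelC_red (x : ℂ) : ∃ m, ‖x + 2 * gi m‖ ≤ 2 := by
  obtain ⟨a, ha⟩ := RelC_round x.re two_pos
  obtain ⟨b, hb⟩ := RelC_round x.im two_pos
  refine ⟨(a, b), (Complex.norm_le_abs_re_add_abs_im _).trans ?_⟩
  have e1 : (x + 2 * gi (a, b)).re = x.re + 2 * a := by simp [gi]
  have e2 : (x + 2 * gi (a, b)).im = x.im + 2 * b := by simp [gi]
  rw [e1, e2]
  linarith

theorem RelC_norm_sg (e : ℤ) : ‖((sg e : ℝ) : ℂ)‖ = 1 := by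
  rcases sg_cases e with h | h <;> rw [h.1] <;> simp

theorem RelC_par (e : ℤ) : ∃ e' ∈ ({0, 1} : Set ℤ), sg e' = sg e := by
  rcases sg_cases e with h | h
  · exact ⟨0, by simp, by rw [sg_zero, h.1]⟩
  · exact ⟨1, by simp, by rw [sg_one, h.1]⟩

theorem RelC_sep {ι : Type} (g : ι → E → E) (hg : ∀ i, Continuous (g i))
    (hT : ∀ C : ℝ, ∃ T : Set ι, T.Finite ∧ ∀ b b' : E, ‖b‖ ≤ C → ‖b'‖ ≤ C →
      ∀ i, b' = g i b → ∃ j ∈ T, b' = g j b) {ξ ξ' : E} (h : ∀ i, ξ' ≠ g i ξ) :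
    ∃ V ∈ 𝓝 ξ, ∃ V' ∈ 𝓝 ξ', ∀ b ∈ V, ∀ b' ∈ V', ∀ i, b' ≠ g i b := by
  obtain ⟨T, hf, hT⟩ := hT (‖ξ‖ + ‖ξ'‖ + 1)
  have h1 : ∀ᶠ p : E × E in 𝓝 (ξ, ξ'), ∀ j ∈ T, p.2 ≠ g j p.1 :=
    (eventually_all_finite hf).2 fun j _ =>
      (isOpen_ne_fun continuous_snd ((hg j).comp continuous_fst)).mem_nhds (h j)
  have h2 : ∀ᶠ p : E × E in 𝓝 (ξ, ξ'), ‖p.1‖ < ‖ξ‖ + ‖ξ'‖ + 1 :=
    (isOpen_lt continuous_fst.norm continuous_const).mem_nhds (by
      have := norm_nonneg ξ'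
      change ‖ξ‖ < _
      linarith)
  have h3 : ∀ᶠ p : E × E in 𝓝 (ξ, ξ'), ‖p.2‖ < ‖ξ‖ + ‖ξ'‖ + 1 :=
    (isOpen_lt continuous_snd.norm continuous_const).mem_nhds (by
      have := norm_nonneg ξ
      change ‖ξ'‖ < _
      linarith)
  obtain ⟨V, hV, V', hV', hs⟩ := mem_nhds_prod_iff.1 (h1.and (h2.and h3))
  refine ⟨V, hV, V', hV', fun b hb b' hb' i hi => ?_⟩
  obtain ⟨k1, k2, k3⟩ := hs (mk_mem_prod hb hb')
  obtain ⟨j, hj, e⟩ := hT b b' k2.le k3.le i hi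
  exact k1 j hj e

theorem RelC_near {P : E → E → Prop} {ξ : E} (h : ∀ᶠ p : E × E in 𝓝 (ξ, ξ), P p.1 p.2) :
    ∃ V ∈ 𝓝 ξ, ∀ b ∈ V, ∀ b' ∈ V, P b b' := by
  obtain ⟨V, hV, V', hV', hs⟩ := mem_nhds_prod_iff.1 h
  exact ⟨V ∩ V', inter_mem hV hV', fun b hb b' hb' => hs (mk_mem_prod hb.1 hb'.2)⟩

theorem RelC_close (ξ : E) : ∀ᶠ p : E × E in 𝓝 (ξ, ξ), ‖p.2 - p.1‖ < 1 :=
  (isOpen_lt (continuous_snd.sub continuous_fst).norm continuous_const).mem_nhds (by simp)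

theorem RelC_gam_zero (e : ℤ) (m : ℤ × ℤ) (l : ℤ) (ξ : E) :
    gam n 0 e m l ξ = (sg e * ξ.1 + 2 * β ξ.2.im m, ξ.2 + 2 * l) := by
  unfold gam
  rw [cj_zero, sg_zero]
  refine Prod.ext (by simp) (Complex.ext (by simp) (by simp))

theorem RG.zero (hn : Odd n) {ξ ξ' : E} (h : RG n ξ ξ') (ht : |ξ'.2.im - ξ.2.im| < 1) :
    ∃ (e : ℤ) (m : ℤ × ℤ) (l : ℤ), ξ' = (sg e * ξ.1 + 2 * β ξ.2.im m, ξ.2 + 2 * l) := by
  obtain ⟨k, e, m, l, rfl⟩ := h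
  have h1 : (n : ℤ) * k = 0 := by
    refine RelC_int ?_
    have e1 : (gam n k e m l ξ).2.im - ξ.2.im = (((n : ℤ) * k : ℤ) : ℝ) := by
      change ξ.2.im + (n : ℝ) * k - ξ.2.im = _
      push_cast
      ring
    rwa [e1] at ht
  have h2 : k = 0 := (mul_eq_zero.1 h1).resolve_left (by exact_mod_cast hn.pos.ne')
  subst h2
  exact ⟨e, m, l, RelC_gam_zero e m l ξ⟩

theorem RG_of_zero (e : ℤ) (m : ℤ × ℤ) (l : ℤ) (ξ : E) :
    RG n ξ (sg e * ξ.1 + 2 * β ξ.2.im m, ξ.2 + 2 * l) :=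
  ⟨0, e, m, l, (RelC_gam_zero e m l ξ).symm⟩

theorem RG_inj (hn : Odd n) {ξ : E} (h : ξ ∈ W0) :
    ∃ V ∈ 𝓝 ξ, ∀ b ∈ V, ∀ b' ∈ V, RG n b b' → b = b' := by
  have hc : Continuous fun p : E × E => (((p.1.1 + p.2.1) / 2, p.1.2) : E) := by fun_prop
  have h1 : ∀ᶠ p : E × E in 𝓝 (ξ, ξ), (((p.1.1 + p.2.1) / 2, p.1.2) : E) ∈ W0 :=
    (isOpen_W0.preimage hc).mem_nhds (by
      change (((ξ.1 + ξ.1) / 2, ξ.2) : E) ∈ W0
      rwa [add_self_div_two])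
  refine RelC_near (((RelC_close ξ).and h1).mono ?_)
  rintro ⟨b, b'⟩ ⟨k1, k2⟩ hr
  dsimp only at k1 k2 hr ⊢
  have k3 : ‖b'.1 - b.1‖ < 1 := (norm_fst_le (b' - b)).trans_lt k1
  have k4 : ‖b'.2 - b.2‖ < 1 := (norm_snd_le (b' - b)).trans_lt k1
  obtain ⟨e, m, l, rfl⟩ := hr.zero hn ((Complex.abs_im_le_norm (b'.2 - b.2)).trans_lt k4)
  have hl : l = 0 := by
    refine RelC_int ?_
    rw [add_sub_cancel_left, norm_mul, Complex.norm_intCast, Complex.norm_two] at k4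
    linarith [abs_nonneg (l : ℝ)]
  subst hl
  rcases sg_cases e with he | he
  · have hm : m = 0 := by
      by_contra hm
      have := one_le_β b.2.im hm
      rw [he.1, Complex.ofReal_one, one_mul, add_sub_cancel_left, norm_mul,
        Complex.norm_two] at k3
      linarith
    subst hm
    rw [he.1, β_zero]
    simp
  · refine absurd ?_ (k2 m)
    change (b.1 + ((sg e : ℝ) * b.1 + 2 * β b.2.im m)) / 2 = β b.2.im m
    rw [he.1]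
    push_cast
    ring

theorem RG_sep (hn : Odd n) {ξ ξ' : E} (h : ¬RG n ξ ξ') :
    ∃ V ∈ 𝓝 ξ, ∃ V' ∈ 𝓝 ξ', ∀ b ∈ V, ∀ b' ∈ V', ¬RG n b b' := by
  suffices hs : ∃ V ∈ 𝓝 ξ, ∃ V' ∈ 𝓝 ξ', ∀ b ∈ V, ∀ b' ∈ V', ∀ i : ℤ × ℤ × (ℤ × ℤ) × ℤ,
      b' ≠ gam n i.1 i.2.1 i.2.2.1 i.2.2.2 b by
    obtain ⟨V, hV, V', hV', hs⟩ := hs
    exact ⟨V, hV, V', hV', fun b hb b' hb' ⟨k, e, m, l, hr⟩ => hs b hb b' hb' (k, e, m, l) hr⟩
  refine RelC_sep _ (fun i => RelC_gam _ _ _ _ _) (fun C => ⟨_,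
      (RelC_fin (2 * C)).prod ((Set.toFinite ({0, 1} : Set ℤ)).prod
        ((finite_β C C).prod (RelC_fin C))), ?_⟩) fun i hi => h ⟨_, _, _, _, hi⟩
  rintro b b' hb hb' ⟨k, e, m, l⟩ rfl
  obtain ⟨e', he', ee⟩ := RelC_par e
  have a1 : ‖b.1‖ ≤ C := (norm_fst_le b).trans hb
  have a2 : ‖b.2‖ ≤ C := (norm_snd_le b).trans hb
  have a3 := abs_le.1 ((Complex.abs_re_le_norm _).trans a2)
  have a4 := abs_le.1 ((Complex.abs_im_le_norm _).trans a2)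
  have b1 : ‖(sg e : ℝ) * cj k b.1 + 2 * β (b.2.im + n * k) m‖ ≤ C := (norm_fst_le _).trans hb'
  have b2 := (norm_snd_le _).trans hb'
  have b3 : |sg k * b.2.re + 2 * l| ≤ C := (Complex.abs_re_le_norm _).trans b2
  have b4 : |b.2.im + n * k| ≤ C := (Complex.abs_im_le_norm _).trans b2
  refine ⟨(k, e', m, l), ⟨?_, he', ⟨_, b4, ?_⟩, ?_⟩, by simp only [gam, ee]⟩
  · have c1 : |(n : ℝ) * k| ≤ 2 * C := by
      rw [abs_le] at b4 ⊢
      constructor <;> linarith [b4.1, b4.2, a4.1, a4.2]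
    have c2 : (1 : ℝ) ≤ n := by exact_mod_cast hn.pos
    rw [abs_mul, abs_of_nonneg (Nat.cast_nonneg n)] at c1
    change |(k : ℝ)| ≤ 2 * C
    nlinarith [abs_nonneg (k : ℝ)]
  · have c1 := norm_sub_le ((sg e : ℝ) * cj k b.1 + 2 * β (b.2.im + n * k) m)
      ((sg e : ℝ) * cj k b.1)
    rw [add_sub_cancel_left, norm_mul, Complex.norm_two, norm_mul ((sg e : ℝ) : ℂ), RelC_norm_sg,
      norm_cj] at c1
    change ‖β (b.2.im + n * k) m‖ ≤ C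
    linarith
  · change |(l : ℝ)| ≤ C
    rw [abs_le] at b3 ⊢
    rcases sg_cases k with hk | hk <;> rw [hk.1] at b3 <;> constructor <;>
      linarith [b3.1, b3.2, a3.1, a3.2]

theorem trn_inj {α : E} (h : α ∈ W2) :
    ∃ V ∈ 𝓝 α, ∀ b ∈ V, ∀ e m, trn e m b ∈ V → trn e m b = b := by
  have h1 : ∀ᶠ p : E × E in 𝓝 (α, α), p.1.2 + p.2.2 ≠ 0 ∨ (p.1.1 + p.2.1) / 2 ∈ Pn := by
    by_cases h0 : α.2 = 0
    · have hc : Continuous fun p : E × E => (p.1.1 + p.2.1) / 2 := by fun_prop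
      refine Eventually.mono ((isOpen_Pn.preimage hc).mem_nhds ?_) fun _ => Or.inr
      change (α.1 + α.1) / 2 ∈ Pn
      rw [add_self_div_two]
      exact h.2 h0
    · have hc : Continuous fun p : E × E => p.1.2 + p.2.2 := by fun_prop
      refine Eventually.mono ((isOpen_ne_fun hc continuous_const).mem_nhds ?_) fun _ => Or.inl
      change α.2 + α.2 ≠ 0
      rwa [ne_eq, add_self_eq_zero]
  obtain ⟨V, hV, hs⟩ := RelC_near (P := fun b b' => ‖b' - b‖ < 1 ∧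
    (b.2 + b'.2 ≠ 0 ∨ (b.1 + b'.1) / 2 ∈ Pn)) ((RelC_close α).and h1)
  refine ⟨V, hV, fun b hb e m hm => ?_⟩
  obtain ⟨k1, k2⟩ := hs b hb _ hm
  have k3 : ‖(sg e : ℝ) * b.1 + 2 * gi m - b.1‖ < 1 := (norm_fst_le (trn e m b - b)).trans_lt k1
  unfold trn at k2 ⊢
  rcases sg_cases e with he | he
  · have hm : m = 0 := by
      by_contra hm
      have := one_le_gi hm
      rw [he.1, Complex.ofReal_one, one_mul, add_sub_cancel_left, norm_mul,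
        Complex.norm_two] at k3
      linarith
    subst hm
    rw [he.1, gi_zero]
    simp
  · rw [he.1] at k2
    rcases k2 with k2 | k2
    · exact absurd (by simp) k2
    · refine absurd ?_ (k2 m)
      push_cast
      ring

theorem trn_sep {α α' : E} (h : ∀ e m, α' ≠ trn e m α) :
    ∃ V ∈ 𝓝 α, ∃ V' ∈ 𝓝 α', ∀ b ∈ V, ∀ e m, trn e m b ∉ V' := by
  suffices hs : ∃ V ∈ 𝓝 α, ∃ V' ∈ 𝓝 α', ∀ b ∈ V, ∀ b' ∈ V', ∀ i : ℤ × (ℤ × ℤ),
      b' ≠ trn i.1 i.2 b by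
    obtain ⟨V, hV, V', hV', hs⟩ := hs
    exact ⟨V, hV, V', hV', fun b hb e m hr => hs b hb _ hr (e, m) rfl⟩
  refine RelC_sep _ (fun i => RelC_trn _ _) (fun C => ⟨_,
      (Set.toFinite ({0, 1} : Set ℤ)).prod (finite_β 0 (2 * C)), ?_⟩) fun i => h _ _
  rintro b b' hb hb' ⟨e, m⟩ rfl
  obtain ⟨e', he', ee⟩ := RelC_par e
  have a1 : ‖b.1‖ ≤ C := (norm_fst_le b).trans hb
  have b1 : ‖(sg e : ℝ) * b.1 + 2 * gi m‖ ≤ C := (norm_fst_le _).trans hb'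
  refine ⟨(e', m), ⟨he', 0, by simp, ?_⟩, by simp only [trn, ee]⟩
  have c1 := norm_sub_le ((sg e : ℝ) * b.1 + 2 * gi m) ((sg e : ℝ) * b.1)
  rw [add_sub_cancel_left, norm_mul, Complex.norm_two, norm_mul ((sg e : ℝ) : ℂ),
    RelC_norm_sg] at c1
  have c2 := norm_Bm_le 0 (gi m)
  rw [abs_zero, mul_zero, Real.exp_zero] at c2
  change ‖Bm 0 (gi m)‖ ≤ 2 * C
  linarith

/-- A bounded fundamental domain. -/
theorem RG_bdd (hn : Odd n) : ∃ C : ℝ, ∀ ξ : E, ∃ ξ', RG n ξ ξ' ∧ ‖ξ'‖ ≤ C := by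
  have h0 : (0 : ℝ) < n := by exact_mod_cast hn.pos
  refine ⟨max (2 * Real.exp (|hh| * (n / 2)) * 2) (2 / 2 + n / 2), fun ξ => ?_⟩
  obtain ⟨k, hk⟩ := RelC_round ξ.2.im h0
  obtain ⟨l, hl⟩ := RelC_round (sg k * ξ.2.re) two_pos
  obtain ⟨m, hm⟩ := RelC_red (Bi (ξ.2.im + n * k) (cj k ξ.1))
  refine ⟨_, ⟨k, 0, m, l, rfl⟩, max_le_max ?_ ?_⟩
  · have e : (gam n k 0 m l ξ).1 =
        Bm (ξ.2.im + n * k) (Bi (ξ.2.im + n * k) (cj k ξ.1) + 2 * gi m) := by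
      rw [Bm_add, Bm_Bi, ← gi_two]
      change (sg 0 : ℝ) * cj k ξ.1 + 2 * β (ξ.2.im + n * k) m = cj k ξ.1 + β _ (2 • m)
      rw [sg_zero, β_two, Complex.ofReal_one, one_mul]
    rw [e]
    refine (norm_Bm_le _ _).trans (mul_le_mul (mul_le_mul_of_nonneg_left (Real.exp_le_exp.2
      (mul_le_mul (le_abs_self _) hk (abs_nonneg _) (abs_nonneg _))) two_pos.le) hm
      (norm_nonneg _) (by positivity))
  · exact (Complex.norm_le_abs_re_add_abs_im _).trans (add_le_add hl hk)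

theorem trn_bdd (α : E) : ∃ m, ‖(trn 0 m α).1‖ ≤ 2 := by
  obtain ⟨m, hm⟩ := RelC_red α.1
  refine ⟨m, ?_⟩
  change ‖(sg 0 : ℝ) * α.1 + 2 * gi m‖ ≤ 2
  rwa [sg_zero, Complex.ofReal_one, one_mul]

end HK3
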