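import Pool.Agent.P.MP_9699e0_gt.ChB
import Pool.Agent.P.MP_9699e0_gt.SdAux

/-! Barycentric subdivision. -/

set_option autoImplicit false
set_option linter.unusedSectionVars false

noncomputable section

namespace HK3

open Pool.Agent.P.MP_9699e0_gt Set Filter Topology
open scoped ContDiff

variable {R : Type} [CommRing R] {X Y Z : Type} [TopologicalSpace X] [TopologicalSpace Y]
  [TopologicalSpace Z]

section

open SdAux
open Pool.Agent.P.MP_d483fb_an (aff bary dist_aff_le aff_face aff_id aff_comp aff_vertex)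

/-- Realisation of formal chains in the standard simplex as singular chains along `σ`. -/
def sdReal (R : Type) [CommRing R] {n : ℕ} (σ : Simp X n) (k : ℕ) : AC R (Dl n) k →ₗ[R] Chn R X k :=
  Finsupp.lmapDomain R R fun v : Fin (k + 1) → Dl n => σ.comp (aff v)

/-- The ordered family of vertices of the standard simplex. -/
def sdVert (n : ℕ) : Fin (n + 1) → Dl n := fun i => stdSimplex.vertex i

theorem sd_real_single {n : ℕ} (σ : Simp X n) (k : ℕ) (v : Fin (k + 1) → Dl n) :
    sdReal R σ k (Finsupp.single v 1) = Finsupp.single (σ.comp (aff v)) 1 := by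
  simp [sdReal]

theorem sd_bd_single (n : ℕ) (σ : Simp X (n + 1)) :
    bd R X n (Finsupp.single σ 1) =
      ∑ i : Fin (n + 2), (-1 : R) ^ (i : ℕ) • Finsupp.single (sub σ i.succAbove) (1 : R) := by
  simp [bd]

/-- Linear maps on singular chains agree once they agree on simplices. -/
theorem sd_ext {k : ℕ} {W : Type} [AddCommGroup W] [Module R W] {f g : Chn R X k →ₗ[R] W}
    (h : ∀ σ, f (Finsupp.single σ 1) = g (Finsupp.single σ 1)) (c : Chn R X k) : f c = g c := by
  have : f = g := Finsupp.lhom_ext' fun v => LinearMap.ext_ring (h v)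
  rw [this]

theorem sd_bd_real {n : ℕ} (σ : Simp X n) (k : ℕ) (c : AC R (Dl n) (k + 1)) :
    bd R X k (sdReal R σ (k + 1) c) = sdReal R σ k (abd R (Dl n) k c) := by
  refine aff_ext (f := bd R X k ∘ₗ sdReal R σ (k + 1)) (g := sdReal R σ k ∘ₗ abd R (Dl n) k)
    (fun v => ?_) c
  rw [LinearMap.comp_apply, LinearMap.comp_apply, sd_real_single, sd_bd_single,
    aff_abd_single, map_sum]
  refine Finset.sum_congr rfl fun i _ => ?_
  rw [map_smul, sd_real_single, ← aff_face]
  rfl

theorem sd_real_vert {n : ℕ} (σ : Simp X n) :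
    sdReal R σ n (Finsupp.single (sdVert n) 1) = Finsupp.single σ 1 := by
  rw [sd_real_single]
  have : aff (sdVert n) = ContinuousMap.id _ := aff_id n
  rw [this, ContinuousMap.comp_id]

theorem sd_real_comp {n k : ℕ} (σ : Simp X n) (w : Fin (k + 1) → Dl n) (j : ℕ)
    (c : AC R (Dl k) j) :
    sdReal R (σ.comp (aff w)) j c = sdReal R σ j (amap R j (aff w) c) := by
  refine aff_ext (f := sdReal R (σ.comp (aff w)) j) (g := sdReal R σ j ∘ₗ amap R j (aff w))
    (fun v => ?_) c
  rw [LinearMap.comp_apply, sd_real_single, aff_amap_single, sd_real_single,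
    ContinuousMap.comp_assoc, aff_comp]

theorem sd_aff_bary {n k : ℕ} (w : Fin (k + 1) → Dl n) (j : ℕ) (v : Fin (j + 1) → Dl k) :
    aff w (bary k j v) = bary n j (aff w ∘ v) := by
  rw [bary, bary, ← aff_comp]
  rfl

theorem sd_aff_vert {n k : ℕ} (w : Fin (k + 1) → Dl n) : aff w ∘ sdVert k = w := by
  funext i
  exact aff_vertex w i

variable (R X)

/-- Barycentric subdivision of singular chains. -/
def sdSd (n : ℕ) : Chn R X n →ₗ[R] Chn R X n :=
  Finsupp.linearCombination R fun σ : Simp X n =>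
    sdReal R σ n (asd R (bary n) n (Finsupp.single (sdVert n) 1))

/-- The homotopy between the identity and the subdivision. -/
def sdT (n : ℕ) : Chn R X n →ₗ[R] Chn R X (n + 1) :=
  Finsupp.linearCombination R fun σ : Simp X n =>
    sdReal R σ (n + 1) (aht R (bary n) n (Finsupp.single (sdVert n) 1))

variable {R X}

theorem sd_Sd_single {n : ℕ} (σ : Simp X n) :
    sdSd R X n (Finsupp.single σ 1) =
      sdReal R σ n (asd R (bary n) n (Finsupp.single (sdVert n) 1)) := by
  simp [sdSd]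

theorem sd_T_single {n : ℕ} (σ : Simp X n) :
    sdT R X n (Finsupp.single σ 1) =
      sdReal R σ (n + 1) (aht R (bary n) n (Finsupp.single (sdVert n) 1)) := by
  simp [sdT]

theorem sd_Sd_real {n : ℕ} (σ : Simp X n) (k : ℕ) (c : AC R (Dl n) k) :
    sdSd R X k (sdReal R σ k c) = sdReal R σ k (asd R (bary n) k c) := by
  refine aff_ext (f := sdSd R X k ∘ₗ sdReal R σ k) (g := sdReal R σ k ∘ₗ asd R (bary n) k)
    (fun v => ?_) c
  rw [LinearMap.comp_apply, LinearMap.comp_apply, sd_real_single, sd_Sd_single,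
    sd_real_comp, amap_asd (sd_aff_bary v), aff_amap_single, sd_aff_vert]

theorem sd_T_real {n : ℕ} (σ : Simp X n) (k : ℕ) (c : AC R (Dl n) k) :
    sdT R X k (sdReal R σ k c) = sdReal R σ (k + 1) (aht R (bary n) k c) := by
  refine aff_ext (f := sdT R X k ∘ₗ sdReal R σ k) (g := sdReal R σ (k + 1) ∘ₗ aht R (bary n) k)
    (fun v => ?_) c
  rw [LinearMap.comp_apply, LinearMap.comp_apply, sd_real_single, sd_T_single,
    sd_real_comp, amap_aht (sd_aff_bary v), aff_amap_single, sd_aff_vert]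

theorem sd_Sd_pow_real {n : ℕ} (σ : Simp X n) (k m : ℕ) (c : AC R (Dl n) k) :
    (sdSd R X k ^ m) (sdReal R σ k c) = sdReal R σ k ((asd R (bary n) k ^ m) c) := by
  induction m with
  | zero => simp
  | succ m ih =>
    rw [pow_succ', pow_succ', Module.End.mul_apply, Module.End.mul_apply, ih, sd_Sd_real]

theorem sd_map_mem {W : Type} [AddCommGroup W] [Module R W] {ι : Type} (f : (ι →₀ R) →ₗ[R] W)
    (K : Submodule R W) (c : ι →₀ R) (h : ∀ v ∈ c.support, f (Finsupp.single v 1) ∈ K) :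
    f c ∈ K := by
  rw [← Finsupp.sum_single c, Finsupp.sum, map_sum]
  refine K.sum_mem fun v hv => ?_
  rw [← mul_one (c v), ← smul_eq_mul, ← Finsupp.smul_single, map_smul]
  exact K.smul_mem _ (h v hv)

theorem sd_real_sml {P : ∀ n, Simp X n → Prop}
    (hP : ∀ n k (σ : Simp X n) (v : C(Dl k, Dl n)), P n σ → P k (σ.comp v)) {n : ℕ}
    {σ : Simp X n} (h : P n σ) (k : ℕ) (c : AC R (Dl n) k) : sdReal R σ k c ∈ sml R P k := by
  refine sd_map_mem _ _ c fun v _ => ?_
  rw [sd_real_single]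
  exact Finsupp.single_mem_supported R 1 (hP n k σ _ h)

/-- Subdivision and its homotopy respect every class of simplices that is closed under
reparametrisation, and iterated subdivision makes a simplex small. -/
theorem exists_sd (R : Type) [CommRing R] (X : Type) [TopologicalSpace X] :
    ∃ (Sd : ∀ n, Chn R X n →ₗ[R] Chn R X n) (T : ∀ n, Chn R X n →ₗ[R] Chn R X (n + 1)),
    (∀ n c, bd R X n (Sd (n + 1) c) = Sd n (bd R X n c)) ∧
    (∀ c, bd R X 0 (T 0 c) = c - Sd 0 c) ∧
    (∀ n c, bd R X (n + 1) (T (n + 1) c) + T n (bd R X n c) = c - Sd (n + 1) c) ∧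
    (∀ P : ∀ n, Simp X n → Prop,
      (∀ n k (σ : Simp X n) (v : C(Dl k, Dl n)), P n σ → P k (σ.comp v)) →
      ∀ n, ∀ c ∈ sml R P n, Sd n c ∈ sml R P n ∧ T n c ∈ sml R P (n + 1)) ∧
    ∀ (P : ∀ n, Simp X n → Prop) (S : Set X), Small P S → ∀ n (σ : Simp X n), range σ ⊆ S →
      ∃ m : ℕ, (Sd n ^ m) (Finsupp.single σ 1) ∈ sml R P n := by
  refine ⟨sdSd R X, sdT R X, fun n c => ?_, fun c => ?_, fun n c => ?_, fun P hP n c hc => ?_,
    fun P S hS n σ hσ => ?_⟩
  · refine sd_ext (f := bd R X n ∘ₗ sdSd R X (n + 1)) (g := sdSd R X n ∘ₗ bd R X n)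
      (fun σ => ?_) c
    rw [LinearMap.comp_apply, LinearMap.comp_apply, ← sd_real_vert, sd_Sd_real,
      sd_bd_real, sd_bd_real, sd_Sd_real, abd_asd]
  · refine sd_ext (f := bd R X 0 ∘ₗ sdT R X 0) (g := LinearMap.id - sdSd R X 0)
      (fun σ => ?_) c
    rw [LinearMap.comp_apply, LinearMap.sub_apply, LinearMap.id_apply, ← sd_real_vert,
      sd_T_real, sd_Sd_real]
    simp [aht, asd]
  · refine sd_ext (f := bd R X (n + 1) ∘ₗ sdT R X (n + 1) + sdT R X n ∘ₗ bd R X n)
      (g := LinearMap.id - sdSd R X (n + 1)) (fun σ => ?_) c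
    rw [LinearMap.add_apply, LinearMap.comp_apply, LinearMap.comp_apply, LinearMap.sub_apply,
      LinearMap.id_apply, ← sd_real_vert, sd_T_real, sd_Sd_real, sd_bd_real,
      sd_bd_real, sd_T_real, ← map_add, abd_aht, map_sub]
  · constructor
    · refine sd_map_mem _ _ c fun σ hσ => ?_
      rw [sd_Sd_single]
      exact sd_real_sml hP (hc hσ) _ _
    · refine sd_map_mem _ _ c fun σ hσ => ?_
      rw [sd_T_single]
      exact sd_real_sml hP (hc hσ) _ _
  · choose U hU hUP using fun t : Dl n => hS.loc (σ t) (hσ ⟨t, rfl⟩)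
    obtain ⟨δ, hδ, hL⟩ := lebesgue_number_lemma_of_metric (s := (univ : Set (Dl n)))
      (c := fun t : Dl n => interior (σ ⁻¹' U t)) isCompact_univ (fun _ => isOpen_interior)
      (fun t _ => mem_iUnion.2 ⟨t, mem_interior_iff_mem_nhds.2
        (tendsto_nhdsWithin_iff.2 ⟨σ.continuous.tendsto t,
          Eventually.of_forall fun s => hσ ⟨s, rfl⟩⟩ (hU t))⟩)
    obtain ⟨m, hm⟩ := exists_small R n (half_pos hδ)
    refine ⟨m, ?_⟩
    rw [← sd_real_vert, sd_Sd_pow_real]
    refine sd_map_mem _ _ _ fun w hw => ?_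
    rw [sd_real_single]
    obtain ⟨b, hb⟩ := hL (w 0) (mem_univ _)
    refine Finsupp.single_mem_supported R 1 (hUP b n _ ?_)
    rintro _ ⟨t, rfl⟩
    exact interior_subset (s := σ ⁻¹' U b) (hb (Metric.mem_ball.2 (lt_of_le_of_lt
      (dist_aff_le w (fun i => hm w hw i 0) t) (half_lt_self hδ))))

end

end HK3
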