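import Pool.Agent.P.MP_9699e0_gt.RelB
import Pool.Agent.P.MP_9699e0_gt.RelC

/-! Local injectivity and the basic open sets. -/

set_option autoImplicit false
set_option linter.unusedSectionVars false

noncomputable section

namespace HK3

open Pool.Agent.P.MP_9699e0_gt Set Filter Topology
open scoped ContDiff

variable {n : ℕ}

theorem Sets_f3 (hn : Odd n) (i c : I4) {p : E} (h : p ∈ W3) (hp : p.1 ≠ 0) :
    ∃ b : ℂ, b ≠ 0 ∧ (gi (rep c) + b, p.2 * b) ∈ W2 ∧ ‖b‖ < ρ ∧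
      f3 n i c p = f2 n i (gi (rep c) + b, p.2 * b) := by
  obtain ⟨x, y⟩ := p
  obtain ⟨b, rfl⟩ := IsAlgClosed.exists_pow_nat_eq x two_pos
  have hb : b ≠ 0 := fun e => hp (by simp [e])
  exact ⟨b, hb, f3_eq hn i c hb h⟩

theorem Sets_f4 (hn : Odd n) (i c : I4) {p : E} (h : p ∈ W4) (hp : p.2 ≠ 0) :
    ∃ z : ℂ, z ≠ 0 ∧ (gi (rep c) + p.1 * z, z) ∈ W2 ∧ ‖p.1 * z‖ < ρ ∧
      f4 n i c p = f2 n i (gi (rep c) + p.1 * z, z) := by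
  obtain ⟨x, y⟩ := p
  obtain ⟨z, rfl⟩ := IsAlgClosed.exists_pow_nat_eq y two_pos
  have hz : z ≠ 0 := fun e => hp (by simp [e])
  exact ⟨z, hz, f4_eq hn i c hz h⟩

theorem Sets_exp {w z : ℂ} (h : Complex.exp w = z) (hz : ‖z‖ < ρ) : Real.exp w.re < ρ := by
  rwa [← h, Complex.norm_exp] at hz

theorem Sets_xp3 (hn : Odd n) {i c : I4} {p : E} (h : p ∈ W3) (hx : f3 n i c p ∈ Xp n) :
    p.1 ≠ 0 := by
  rcases hx with ⟨ξ, hξ, e⟩ | hx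
  · exact (f03 hn hξ h e).1
  · obtain ⟨j, α, hα, e⟩ := mem_iUnion.1 hx
    obtain ⟨-, b, hb, e1, -⟩ := f23 hn hα h e
    rw [e1]
    exact pow_ne_zero 2 hb

theorem Sets_xp4 (hn : Odd n) {i c : I4} {p : E} (h : p ∈ W4) (hx : f4 n i c p ∈ Xp n) :
    p.2 ≠ 0 := by
  rcases hx with ⟨ξ, hξ, e⟩ | hx
  · exact f04 hn hξ h e
  · obtain ⟨j, α, hα, e⟩ := mem_iUnion.1 hx
    obtain ⟨-, z, hz, e1, -⟩ := f24 hn hα h e
    rw [e1]
    exact pow_ne_zero 2 hz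

theorem Sets_f2_Xp (i : I4) {α : E} (h : α ∈ W2) : f2 n i α ∈ Xp n :=
  Or.inr (mem_iUnion.2 ⟨i, α, h, rfl⟩)

theorem Sets_n2_ec (hn : Odd n) {i j c : I4} {x : XX n} (h : x ∈ N2 n i) (h' : x ∈ Ec n j c) :
    i = j := by
  obtain ⟨α, hα, rfl⟩ := h
  rcases h' with ⟨p, hp, e⟩ | ⟨p, hp, e⟩
  · exact (f23 hn hα hp e.symm).1
  · exact (f24 hn hα hp e.symm).1

theorem Sets_ec_ec (hn : Odd n) {i j c c' : I4} {x : XX n} (h : x ∈ Ec n i c)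
    (h' : x ∈ Ec n j c') : i = j ∧ c = c' := by
  rcases h with ⟨p, hp, rfl⟩ | ⟨p, hp, rfl⟩ <;> rcases h' with ⟨q, hq, e⟩ | ⟨q, hq, e⟩
  · obtain ⟨h1, h2, -⟩ := f33 hn hp hq e.symm
    exact ⟨h1, h2⟩
  · obtain ⟨h1, h2, -⟩ := f34 hn hp hq e.symm
    exact ⟨h1, h2⟩
  · obtain ⟨h1, h2, -⟩ := f34 hn hq hp e
    exact ⟨h1.symm, h2.symm⟩
  · obtain ⟨h1, h2, -⟩ := f44 hn hp hq e.symm
    exact ⟨h1, h2⟩

theorem Sets_near {c : I4} {α : E} {b y : ℂ} {e : ℤ} {m : ℤ × ℤ} (hb : ‖b‖ < ρ)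
    (h : (gi (rep c) + b, y) = trn e m α) : ∃ m, ‖α.1 - gi (rep c) - 2 * gi m‖ < ρ := by
  have h1 : gi (rep c) + b = sg e * α.1 + 2 * gi m := congrArg Prod.fst h
  rcases sg_cases e with ⟨h2, -⟩ | ⟨h2, -⟩
  · refine ⟨-m, ?_⟩
    have h3 : α.1 - gi (rep c) - 2 * gi (-m) = b := by
      rw [gi_neg]
      rw [h2] at h1
      push_cast at h1
      linear_combination -h1
    rwa [h3]
  · refine ⟨m + -rep c, ?_⟩
    have h3 : α.1 - gi (rep c) - 2 * gi (m + -rep c) = -b := by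
      rw [gi_add, gi_neg]
      rw [h2] at h1
      push_cast at h1
      linear_combination h1
    rwa [h3, norm_neg]

theorem Sets_sq {b : ℂ} (h : ‖b‖ ^ 2 < ρ ^ 2) : ‖b‖ < ρ :=
  lt_of_pow_lt_pow_left₀ 2 ρ_pos.le h

theorem Sets_rc (hn : Odd n) {i : I4} {α ξ : E} (h : α ∈ W2) (h' : ξ ∈ W0)
    (e : f2 n i α = f0 n ξ) : rc i ξ < ρ := by
  obtain ⟨w, hw, k, e, m, l, rfl⟩ := (f20 hn h h').1 e
  have h1 : Real.exp w.re < ρ := Sets_exp hw h.1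
  rw [rc_gam hn, rc_tube n i i (α := (α.1, w)) h1, if_pos rfl]
  exact h1

theorem md_linj (hn : Odd n) : (md n).LInj := by
  intro k a ha
  have hW : (md n).W k ∈ 𝓝 a := (md_opn n k).mem_nhds ha
  have key : ∀ b ∈ (md n).W k, ∀ b' ∈ (md n).W k, (md n).Rel (k, b) (k, b') →
      (md n).f (k, b) = (md n).f (k, b') := fun b hb b' hb' hr =>
    (Gl.f_eq_iff (G := md n) (a := (k, b)) (b := (k, b')) hb hb').2 hr
  cases k with
  | o =>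
    obtain ⟨V, hV, h⟩ := RG_inj hn (ξ := a) ha
    exact ⟨_, inter_mem hV hW, fun b hb b' hb' hr =>
      h b hb.1 b' hb'.1 ((f00 hn hb.2 hb'.2).1 (key b hb.2 b' hb'.2 hr))⟩
  | n i =>
    obtain ⟨V, hV, h⟩ := trn_inj (α := a) ha
    refine ⟨_, inter_mem hV hW, fun b hb b' hb' hr => ?_⟩
    obtain ⟨-, e, m, rfl⟩ := (f22 hn (i := i) (j := i) hb.2 hb'.2).1 (key b hb.2 b' hb'.2 hr)
    exact (h b hb.1 e m hb'.1).symm
  | a i c =>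
    exact ⟨_, hW, fun b hb b' hb' hr => (f33 hn (i := i) (j := i) (c := c) (c' := c) hb hb'
      (key b hb b' hb' hr)).2.2⟩
  | b i c =>
    exact ⟨_, hW, fun b hb b' hb' hr => (f44 hn (i := i) (j := i) (c := c) (c' := c) hb hb'
      (key b hb b' hb' hr)).2.2⟩

theorem loc0 (hn : Odd n) : IsLocalHomeomorphOn (f0 n) W0 :=
  (md_ok hn).loc_k (md_linj hn) .o

theorem loc2 (hn : Odd n) (i : I4) : IsLocalHomeomorphOn (f2 n i) W2 :=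
  (md_ok hn).loc_k (md_linj hn) (.n i)

theorem loc3 (hn : Odd n) (i c : I4) : IsLocalHomeomorphOn (f3 n i c) W3 :=
  (md_ok hn).loc_k (md_linj hn) (.a i c)

theorem loc4 (hn : Odd n) (i c : I4) : IsLocalHomeomorphOn (f4 n i c) W4 :=
  (md_ok hn).loc_k (md_linj hn) (.b i c)

theorem isOpen_Z0 (hn : Odd n) : IsOpen (Z0 n) :=
  isOpen_image_of_loc (loc0 hn) isOpen_W0 subset_rfl

theorem isOpen_N2 (hn : Odd n) (i : I4) : IsOpen (N2 n i) :=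
  isOpen_image_of_loc (loc2 hn i) (md_opn n (.n i)) subset_rfl

theorem isOpen_Ec (hn : Odd n) (i c : I4) : IsOpen (Ec n i c) :=
  (isOpen_image_of_loc (loc3 hn i c) (md_opn n (.a i c)) subset_rfl).union
    (isOpen_image_of_loc (loc4 hn i c) (md_opn n (.b i c)) subset_rfl)

theorem isOpen_Nb (hn : Odd n) (i : I4) : IsOpen (Nb n i) :=
  (isOpen_N2 hn i).union (isOpen_iUnion fun c => isOpen_Ec hn i c)

theorem isOpen_Xp (hn : Odd n) : IsOpen (Xp n) :=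
  (isOpen_Z0 hn).union (isOpen_iUnion fun i => isOpen_N2 hn i)

theorem cover_Xp : (univ : Set (XX n)) ⊆ Xp n ∪ ⋃ j : I4 × I4, Ec n j.1 j.2 := by
  intro x _
  rcases xx_cases x with ⟨ξ, h, rfl⟩ | ⟨i, α, h, rfl⟩ | ⟨i, c, p, h, rfl⟩ | ⟨i, c, p, h, rfl⟩
  · exact Or.inl (Or.inl ⟨ξ, h, rfl⟩)
  · exact Or.inl (Sets_f2_Xp i h)
  · exact Or.inr (mem_iUnion.2 ⟨(i, c), Or.inl ⟨p, h, rfl⟩⟩)
  · exact Or.inr (mem_iUnion.2 ⟨(i, c), Or.inr ⟨p, h, rfl⟩⟩)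

theorem cover_Z0 : (univ : Set (XX n)) ⊆ (⋃ i, Nb n i) ∪ Z0 n := by
  intro x _
  rcases xx_cases x with ⟨ξ, h, rfl⟩ | ⟨i, α, h, rfl⟩ | ⟨i, c, p, h, rfl⟩ | ⟨i, c, p, h, rfl⟩
  · exact Or.inr ⟨ξ, h, rfl⟩
  · exact Or.inl (mem_iUnion.2 ⟨i, Or.inl ⟨α, h, rfl⟩⟩)
  · exact Or.inl (mem_iUnion.2 ⟨i, Or.inr (mem_iUnion.2 ⟨c, Or.inl ⟨p, h, rfl⟩⟩)⟩)
  · exact Or.inl (mem_iUnion.2 ⟨i, Or.inr (mem_iUnion.2 ⟨c, Or.inr ⟨p, h, rfl⟩⟩)⟩)

theorem disj_Nb (hn : Odd n) {i j : I4} (h : i ≠ j) : Disjoint (Nb n i) (Nb n j) := by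
  refine disjoint_left.2 fun x hx hx' => h ?_
  rcases hx with hx | hx <;> rcases hx' with hx' | hx'
  · obtain ⟨α, hα, rfl⟩ := hx
    obtain ⟨α', hα', e⟩ := hx'
    exact ((f22 hn hα hα').1 e.symm).1
  · obtain ⟨c, hc⟩ := mem_iUnion.1 hx'
    exact Sets_n2_ec hn hx hc
  · obtain ⟨c, hc⟩ := mem_iUnion.1 hx
    exact (Sets_n2_ec hn hx' hc).symm
  · obtain ⟨c, hc⟩ := mem_iUnion.1 hx
    obtain ⟨c', hc'⟩ := mem_iUnion.1 hx'
    exact (Sets_ec_ec hn hc hc').1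

theorem disj_Ec (hn : Odd n) {j j' : I4 × I4} (h : j ≠ j') :
    Disjoint (Ec n j.1 j.2) (Ec n j'.1 j'.2) :=
  disjoint_left.2 fun _ hx hx' =>
    h (Prod.ext (Sets_ec_ec hn hx hx').1 (Sets_ec_ec hn hx hx').2)

theorem f2_mem_Ec_iff (hn : Odd n) (i c : I4) {α : E} (h : α ∈ W2) :
    f2 n i α ∈ Ec n i c ↔ ∃ m, ‖α.1 - gi (rep c) - 2 * gi m‖ < ρ := by
  constructor
  · rintro (⟨p, hp, e⟩ | ⟨p, hp, e⟩)
    · obtain ⟨-, b, -, e1, e, m, e2⟩ := f23 hn h hp e.symm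
      refine Sets_near (Sets_sq ?_) e2
      rw [← norm_pow, ← e1]
      exact hp.1
    · obtain ⟨-, z, -, e1, e, m, e2⟩ := f24 hn h hp e.symm
      refine Sets_near (Sets_sq ?_) e2
      rw [norm_mul, mul_pow, ← norm_pow z, ← e1]
      exact hp.2
  · rintro ⟨m, hm⟩
    rw [← f2_trn hn i 0 (-m) h]
    refine f2_mem_Ec hn i c (trn_mem 0 (-m) h) ?_
    have e : (trn 0 (-m) α).1 - gi (rep c) = α.1 - gi (rep c) - 2 * gi m := by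
      change sg 0 * α.1 + 2 * gi (-m) - gi (rep c) = _
      rw [sg_zero, gi_neg]
      push_cast
      ring
    rwa [e]

theorem f0_mem_Nb_iff (hn : Odd n) (i : I4) {ξ : E} (h : ξ ∈ W0) :
    f0 n ξ ∈ Nb n i ↔ rc i ξ < ρ := by
  constructor
  · rintro (⟨α, hα, e⟩ | hx)
    · exact Sets_rc hn hα h e
    · obtain ⟨c, ⟨p, hp, e⟩ | ⟨p, hp, e⟩⟩ := mem_iUnion.1 hx
      · obtain ⟨b, -, h1, -, h2⟩ := Sets_f3 hn i c hp (f03 hn h hp e.symm).1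
        exact Sets_rc hn h1 h (h2.symm.trans e)
      · obtain ⟨b, -, h1, -, h2⟩ := Sets_f4 hn i c hp (f04 hn h hp e.symm)
        exact Sets_rc hn h1 h (h2.symm.trans e)
  · intro h'
    obtain ⟨α, h1, h2⟩ := tube_surj hn h h'
    obtain ⟨h3, h4⟩ := f2_tube hn i α.1 α.2 h1
    exact Or.inl ⟨_, h3, h4.trans (f0_gam hn (tube_mem i h1) h2)⟩

theorem Sets_ball {c : I4} {α : E} :
    α ∈ Metric.ball ((gi (rep c), 0) : E) ρ ↔ ‖α.1 - gi (rep c)‖ < ρ ∧ ‖α.2‖ < ρ := by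
  rw [mem_ball_iff_norm, Prod.norm_def, max_lt_iff]
  simp

theorem ball_sub (c : I4) : Metric.ball ((gi (rep c), 0) : E) ρ \ {(gi (rep c), 0)} ⊆ W2 := by
  rintro α ⟨h1, h2⟩
  obtain ⟨h3, h4⟩ := Sets_ball.1 h1
  refine ⟨h4, fun h0 m hm => h2 ?_⟩
  have h5 : m + -rep c = 0 := by
    by_contra h6
    have h7 := one_le_gi h6
    rw [gi_add, gi_neg, ← sub_eq_add_neg, ← hm] at h7
    have h8 : ρ < 1 := by unfold ρ; norm_num
    linarith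
  rw [add_neg_eq_zero] at h5
  exact Prod.ext (h5 ▸ hm) h0

theorem Xp_inter_Ec (hn : Odd n) (i c : I4) : Xp n ∩ Ec n i c =
    f2 n i '' (Metric.ball ((gi (rep c), 0) : E) ρ \ {(gi (rep c), 0)}) := by
  refine Subset.antisymm ?_ ?_
  · rintro x ⟨hx, ⟨p, hp, rfl⟩ | ⟨p, hp, rfl⟩⟩
    · obtain ⟨b, hb, h1, h2, h3⟩ := Sets_f3 hn i c hp (Sets_xp3 hn hp hx)
      refine ⟨_, ⟨Sets_ball.2 ⟨?_, h1.1⟩, fun e => hb ?_⟩, h3.symm⟩
      · simpa using h2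
      · simpa using congrArg Prod.fst e
    · obtain ⟨z, hz, h1, h2, h3⟩ := Sets_f4 hn i c hp (Sets_xp4 hn hp hx)
      refine ⟨_, ⟨Sets_ball.2 ⟨?_, h1.1⟩, fun e => hz (congrArg Prod.snd e)⟩, h3.symm⟩
      rwa [add_sub_cancel_left]
  · rintro _ ⟨α, hα, rfl⟩
    exact ⟨Sets_f2_Xp i (ball_sub c hα), f2_mem_Ec hn i c (ball_sub c hα) (Sets_ball.1 hα.1).1⟩

theorem Z0_inter_N2 (hn : Odd n) (i : I4) :
    Z0 n ∩ N2 n i = f2 n i '' {α | ‖α.2‖ < ρ ∧ α.2 ≠ 0} := by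
  refine Subset.antisymm ?_ ?_
  · rintro x ⟨⟨ξ, hξ, e⟩, α, hα, rfl⟩
    obtain ⟨w, hw, -⟩ := (f20 hn hα hξ).1 e.symm
    exact ⟨α, ⟨hα.1, hw ▸ Complex.exp_ne_zero w⟩, rfl⟩
  · rintro _ ⟨α, ⟨h1, h2⟩, rfl⟩
    have hw := Complex.exp_log h2
    have h3 := Sets_exp hw h1
    obtain ⟨-, h4⟩ := f2_tube hn i α.1 _ h3
    rw [hw] at h4
    exact ⟨⟨_, tube_mem i (α := (α.1, Complex.log α.2)) h3, h4.symm⟩,
      α, ⟨h1, fun h0 => absurd h0 h2⟩, rfl⟩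

theorem f3_inter_f4 (hn : Odd n) (i c : I4) :
    f3 n i c '' W3 ∩ f4 n i c '' W4 = f3 n i c '' {p | p ∈ W3 ∧ p.2 ≠ 0} := by
  refine Subset.antisymm ?_ ?_
  · rintro x ⟨⟨p, hp, rfl⟩, q, hq, e⟩
    exact ⟨p, ⟨hp, (f34 hn hp hq e.symm).2.2.1⟩, rfl⟩
  · rintro _ ⟨p, ⟨hp, h0⟩, rfl⟩
    obtain ⟨h1, h2⟩ := f3_f4 hn i c hp h0
    exact ⟨⟨p, hp, rfl⟩, _, h1, h2.symm⟩

theorem mem_Xp_iff (hn : Odd n) {a : K × E} (ha : a ∈ (md n).dom) :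
    (md n).f a ∈ Xp n ↔ ∀ j, σA j a ≠ 0 := by
  obtain ⟨k, p⟩ := a
  cases k with
  | o => exact iff_of_true (Or.inl ⟨p, ha, rfl⟩) fun j => one_ne_zero
  | n i => exact iff_of_true (Sets_f2_Xp i ha) fun j => one_ne_zero
  | a i c =>
    constructor
    · intro hx j
      have h := Sets_xp3 hn (i := i) (c := c) ha hx
      change (if (i, c) = j then p.1 else 1) ≠ 0
      split_ifs
      · exact h
      · exact one_ne_zero
    · intro h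
      have h1 : p.1 ≠ 0 := by
        have h2 : (if (i, c) = (i, c) then p.1 else 1) ≠ 0 := h (i, c)
        rwa [if_pos rfl] at h2
      obtain ⟨b, -, h3, -, h4⟩ := Sets_f3 hn i c ha h1
      change f3 n i c p ∈ Xp n
      rw [h4]
      exact Sets_f2_Xp i h3
  | b i c =>
    constructor
    · intro hx j
      have h := Sets_xp4 hn (i := i) (c := c) ha hx
      change (if (i, c) = j then p.2 else 1) ≠ 0
      split_ifs
      · exact h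
      · exact one_ne_zero
    · intro h
      have h1 : p.2 ≠ 0 := by
        have h2 : (if (i, c) = (i, c) then p.2 else 1) ≠ 0 := h (i, c)
        rwa [if_pos rfl] at h2
      obtain ⟨b, -, h3, -, h4⟩ := Sets_f4 hn i c ha h1
      change f4 n i c p ∈ Xp n
      rw [h4]
      exact Sets_f2_Xp i h3

end HK3
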